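import Pool.Agent.P.MP_713680_gt.GeoSt

/-! MP_713680_gt, package G1: first order calculus. -/

noncomputable section

namespace Pool.Agent.P.MP_713680_gt

open Finset

variable {P R ι : Type} [CommRing R] [Algebra ℝ R] [Fintype ι] (C : Calc P R ι)

namespace AlgAP

open Calc

theorem Y_mul (a : ι) (f g : R) : C.Y a (f * g) = C.Y a f * g + f * C.Y a g := by
  rw [Derivation.leibniz, smul_eq_mul, smul_eq_mul]; ring

theorem D1_add (u v : ι → R) : C.D1 (u + v) = C.D1 u + C.D1 v := by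
  funext a b
  simp only [D1, Pi.add_apply, map_add, mul_add, sum_add_distrib]; ring

theorem D1_sub (u v : ι → R) : C.D1 (u - v) = C.D1 u - C.D1 v := by
  funext a b
  simp only [D1, Pi.sub_apply, map_sub, mul_sub, sum_sub_distrib]; ring

theorem D1_rsmul (c : ℝ) (u : ι → R) : C.D1 (c • u) = c • C.D1 u := by
  funext a b
  simp only [D1, Pi.smul_apply, Derivation.map_smul, smul_add, smul_sum, mul_smul_comm]

theorem D1_smul (f : R) (u : ι → R) (a b : ι) :
    C.D1 (f • u) a b = C.Y a f * u b + f * C.D1 u a b := by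
  simp only [D1, Pi.smul_apply, smul_eq_mul, Y_mul, mul_add, mul_sum]
  rw [add_assoc]
  congr 2
  exact sum_congr rfl fun c _ => by ring

theorem D2_add (φ χ : ι → ι → R) : C.D2 (φ + χ) = C.D2 φ + C.D2 χ := by
  funext a b c
  simp only [D2, Pi.add_apply, map_add, mul_add, sum_add_distrib]; ring

theorem D2_sub (φ χ : ι → ι → R) : C.D2 (φ - χ) = C.D2 φ - C.D2 χ := by
  funext a b c
  simp only [D2, Pi.sub_apply, map_sub, mul_sub, sum_sub_distrib, sum_add_distrib]; ring

theorem D2_rsmul (c : ℝ) (φ : ι → ι → R) : C.D2 (c • φ) = c • C.D2 φ := by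
  funext a b d
  simp only [D2, Pi.smul_apply, Derivation.map_smul, smul_add, smul_sum, mul_smul_comm]

theorem D2_smul (f : R) (φ : ι → ι → R) (a b c : ι) :
    C.D2 (f • φ) a b c = C.Y a f * φ b c + f * C.D2 φ a b c := by
  simp only [D2, Pi.smul_apply, smul_eq_mul, Y_mul, mul_add, mul_sum]
  rw [add_assoc]
  congr 2
  exact sum_congr rfl fun c _ => by ring

theorem skew (a : ι) (u v : ι → R) :
    ∑ b, (∑ c, C.A a b c * u c) * v b + ∑ b, u b * ∑ c, C.A a b c * v c = 0 := by
  simp only [sum_mul, mul_sum]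
  rw [sum_comm, ← sum_add_distrib]
  refine sum_eq_zero fun b _ => ?_
  rw [← sum_add_distrib]
  refine sum_eq_zero fun c _ => ?_
  rw [C.A_skew a c b]; ring

theorem Y_ip1 (u v : ι → R) (a : ι) :
    C.Y a (ip1 u v) = ip1 (C.D1 u a) v + ip1 u (C.D1 v a) := by
  simp only [ip1, D1, map_sum, Y_mul, add_mul, mul_add, sum_add_distrib]
  linear_combination - skew C a u v

theorem D2_row (φ : ι → ι → R) (a b c : ι) :
    C.D2 φ a b c = C.D1 (φ b) a c + ∑ e, C.A a b e * φ e c := by
  simp only [D2, D1, sum_add_distrib]; ring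

theorem D2_col (φ : ι → ι → R) (a b c : ι) :
    C.D2 φ a b c = C.D1 (fun e => φ e c) a b + ∑ e, C.A a c e * φ b e := by
  simp only [D2, D1, sum_add_distrib]; ring

theorem Y_ip2 (φ χ : ι → ι → R) (a : ι) :
    C.Y a (ip2 φ χ) = ip2 (C.D2 φ a) χ + ip2 φ (C.D2 χ a) := by
  have h1 : C.Y a (ip2 φ χ) = ∑ b, (ip1 (C.D1 (φ b) a) (χ b) + ip1 (φ b) (C.D1 (χ b) a)) := by
    rw [ip2, map_sum]
    exact sum_congr rfl fun b _ => Y_ip1 C (φ b) (χ b) a
  have h2 : ∑ b, ∑ c, (∑ e, C.A a b e * φ e c) * χ b c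
      + ∑ b, ∑ c, φ b c * ∑ e, C.A a b e * χ e c = 0 := by
    rw [sum_comm, sum_comm (f := fun b c => φ b c * ∑ e, C.A a b e * χ e c), ← sum_add_distrib]
    exact sum_eq_zero fun c _ => skew C a (fun e => φ e c) fun e => χ e c
  rw [h1]
  simp only [ip1, ip2, D2_row, add_mul, mul_add, sum_add_distrib]
  linear_combination - h2

theorem D1_mv (φ : ι → ι → R) (u : ι → R) (a : ι) :
    C.D1 (mv φ u) a = mv (C.D2 φ a) u + mv φ (C.D1 u a) := by
  funext b
  have h1 := Y_ip1 C (φ b) u a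
  have h2 : ∑ e, C.A a b e * ∑ c, φ e c * u c = ∑ c, (∑ e, C.A a b e * φ e c) * u c := by
    simp only [sum_mul, mul_sum]
    rw [sum_comm]
    exact sum_congr rfl fun _ _ => sum_congr rfl fun _ _ => by ring
  simp only [ip1] at h1
  rw [D1]
  simp only [mv, Pi.add_apply, D2_row, add_mul, sum_add_distrib]
  linear_combination h1 + h2

theorem D2_mm (φ χ : ι → ι → R) (a : ι) :
    C.D2 (mm φ χ) a = mm (C.D2 φ a) χ + mm φ (C.D2 χ a) := by
  funext b c
  have h1 := congrFun (D1_mv C φ (fun e => χ e c) a) b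
  have h2 : ∑ e, C.A a c e * ∑ g, φ b g * χ g e = ∑ g, φ b g * ∑ e, C.A a c e * χ g e := by
    simp only [mul_sum]
    rw [sum_comm]
    exact sum_congr rfl fun _ _ => sum_congr rfl fun _ _ => by ring
  have h3 : (fun e => mm φ χ e c) = mv φ fun e => χ e c := rfl
  rw [D2_col, h3, h1]
  simp only [mv, mm, Pi.add_apply, D2_col C χ, mul_add, sum_add_distrib]
  linear_combination h2

theorem D2_Pr (a : ι) : C.D2 C.Pr a = 0 := by
  funext b c; exact C.par a b c

theorem D1_Pr (u : ι → R) (a : ι) : C.D1 (mv C.Pr u) a = mv C.Pr (C.D1 u a) := by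
  rw [D1_mv, D2_Pr]
  funext b
  simp [mv]

theorem Pr_Amul (a b : ι) (u : ι → R) :
    ∑ e, C.Pr a e * ∑ c, C.A e b c * u c = ∑ c, C.A a b c * u c := by
  simp only [mul_sum]
  rw [sum_comm]
  refine sum_congr rfl fun c _ => ?_
  rw [← C.Pr_A a b c, sum_mul]
  exact sum_congr rfl fun _ _ => by ring

theorem Pr_D1 (u : ι → R) (a b : ι) : ∑ e, C.Pr a e * C.D1 u e b = C.D1 u a b := by
  simp only [D1, mul_add, sum_add_distrib, C.Pr_Y, Pr_Amul]

theorem Pr_D2 (φ : ι → ι → R) (a b c : ι) : ∑ e, C.Pr a e * C.D2 φ e b c = C.D2 φ a b c := by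
  simp only [D2_row, mul_add, sum_add_distrib, Pr_D1, Pr_Amul C a b fun e => φ e c]

omit [Algebra ℝ R] in
theorem mv_mv (φ χ : ι → ι → R) (u : ι → R) (a : ι) :
    ∑ b, φ a b * mv χ u b = ∑ c, (∑ b, φ a b * χ b c) * u c := by
  simp only [mv, mul_sum, sum_mul]
  rw [sum_comm]
  exact sum_congr rfl fun _ _ => sum_congr rfl fun _ _ => by ring

theorem form_right (φ : ι → ι → R) (h : C.Form2 φ) (a c : ι) : ∑ b, φ a b * C.Pr b c = φ a c := by
  rw [h.1 a c, ← h.2 c a, ← sum_neg_distrib]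
  exact sum_congr rfl fun b _ => by rw [h.1 a b, C.Pr_symm b c]; ring

theorem hor_D1 (u : ι → R) (a : ι) (h : C.Hor1 u) : C.Hor1 (C.D1 u a) := by
  have e : mv C.Pr u = u := funext h
  have := D1_Pr C u a
  rw [e] at this
  exact fun b => (congrFun this b).symm

theorem D2_skew (φ : ι → ι → R) (h : ∀ a b, φ a b = - φ b a) (a b c : ι) :
    C.D2 φ a b c = - C.D2 φ a c b := by
  rw [D2, D2, h b c, map_neg, neg_add, ← sum_neg_distrib]
  congr 1
  exact sum_congr rfl fun e _ => by rw [h e c, h b e]; ring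

theorem form_D2 (φ : ι → ι → R) (a : ι) (h : C.Form2 φ) : C.Form2 (C.D2 φ a) := by
  refine ⟨D2_skew C φ h.1 a, fun b c => ?_⟩
  have e : mm C.Pr φ = φ := funext fun b => funext fun c => h.2 b c
  have := congrFun (congrFun (D2_mm C C.Pr φ a) b) c
  rw [e, D2_Pr] at this
  rw [this]
  simp [mm]

theorem Gam_mul (a b : ι) (u : ι → R) (h : C.Hor1 u) :
    ∑ c, C.Gam a b c * u c = - ∑ e, C.A a b e * u e := by
  simp only [Gam, neg_mul, sum_neg_distrib, sum_mul]
  rw [sum_comm]
  congr 1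
  refine sum_congr rfl fun e _ => ?_
  rw [← h e, mul_sum]
  exact sum_congr rfl fun _ _ => by ring

end AlgAP

open AlgAP Calc in
theorem algA : C.AlgA where
  D1_add := D1_add C
  D1_sub := D1_sub C
  D1_rsmul := D1_rsmul C
  D1_smul := D1_smul C
  D2_add := D2_add C
  D2_sub := D2_sub C
  D2_rsmul := D2_rsmul C
  D2_smul := D2_smul C
  d1_add u v := by
    funext a b; simp only [d1, D1_add, Pi.add_apply]; ring
  d1_rsmul c u := by
    funext a b; simp only [d1, D1_rsmul, Pi.smul_apply, smul_sub]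
  d2_add φ χ := by
    funext a b c; simp only [d2, D2_add, Pi.add_apply]; ring
  d2_rsmul c φ := by
    funext a b d; simp only [d2, D2_rsmul, Pi.smul_apply, smul_add]
  cd1_add u v := by
    simp only [cd1, D1_add, Pi.add_apply, sum_add_distrib]; ring
  cd1_rsmul c u := by
    simp only [cd1, D1_rsmul, Pi.smul_apply, smul_neg, smul_sum]
  cd2_add φ χ := by
    funext b; simp only [cd2, D2_add, Pi.add_apply, sum_add_distrib]; ring
  cd2_rsmul c φ := by
    funext b; simp only [cd2, D2_rsmul, Pi.smul_apply, smul_neg, smul_sum]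
  Y_ip1 := Y_ip1 C
  Y_ip2 := Y_ip2 C
  D1_mv := D1_mv C
  D2_mm := D2_mm C
  D1_Pr := D1_Pr C
  Pr_D1 := Pr_D1 C
  Pr_D2 := Pr_D2 C
  hor_add u v hu hv a := by
    simp only [Pi.add_apply, mul_add, sum_add_distrib, hu a, hv a]
  hor_smul f u hu a := by
    rw [Pi.smul_apply, smul_eq_mul, ← hu a, mul_sum]
    exact sum_congr rfl fun b _ => by rw [Pi.smul_apply, smul_eq_mul]; ring
  hor_rsmul c u hu a := by
    simp only [Pi.smul_apply, mul_smul_comm, ← smul_sum, hu a]
  hor_mv φ u h a := by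
    rw [mv_mv]; simp only [h.2, mv]
  hor_Pr u a := by
    rw [mv_mv]; simp only [C.Pr_idem, mv]
  form_add φ χ h1 h2 := ⟨fun a b => by
    simp only [Pi.add_apply, h1.1 a b, h2.1 a b]; ring, fun a c => by
    simp only [Pi.add_apply, mul_add, sum_add_distrib, h1.2 a c, h2.2 a c]⟩
  form_smul f φ h := ⟨fun a b => by
    simp only [Pi.smul_apply, smul_eq_mul, h.1 a b]; ring, fun a c => by
    simp only [Pi.smul_apply, smul_eq_mul]
    rw [← h.2 a c, mul_sum]
    exact sum_congr rfl fun b _ => by ring⟩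
  form_rsmul c φ h := ⟨fun a b => by
    simp only [Pi.smul_apply, h.1 a b, smul_neg], fun a d => by
    simp only [Pi.smul_apply, mul_smul_comm, ← smul_sum, h.2 a d]⟩
  form_right := form_right C
  hor_D1 := hor_D1 C
  form_D2 := form_D2 C
  hor_d0 f a := C.Pr_Y a f
  form_d1 u h := ⟨fun a b => by simp only [d1]; ring, fun a c => by
    simp only [d1, mul_sub, sum_sub_distrib, Pr_D1, hor_D1 C u c h a]⟩
  hor_cd2 φ h b := by
    simp only [cd2, mul_neg, sum_neg_distrib, mul_sum]
    rw [sum_comm]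
    congr 1
    refine sum_congr rfl fun a _ => ?_
    rw [← form_right C _ (form_D2 C φ a h) a b]
    exact sum_congr rfl fun c _ => by rw [C.Pr_symm b c, mul_comm]
  alt_d2 φ h := ⟨fun a b c => by
    simp only [d2]
    rw [D2_skew C φ h.1 a b c, D2_skew C φ h.1 b c a, D2_skew C φ h.1 c a b]; ring, fun a b c => by
    simp only [d2]
    rw [D2_skew C φ h.1 a b c, D2_skew C φ h.1 b c a, D2_skew C φ h.1 c a b]; ring⟩
  hor_d2 φ h a b c := by
    simp only [d2, mul_add, sum_add_distrib, Pr_D2, (form_D2 C φ c h).2 a b]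
    congr 2
    rw [← form_right C _ (form_D2 C φ b h) c a]
    exact sum_congr rfl fun e _ => by rw [C.Pr_symm a e, mul_comm]
  d1_d0 f := by
    funext a b
    have := C.tors a b f
    simp only [sub_mul, sum_sub_distrib] at this
    simp only [d1, D1, d0, Pi.zero_apply]
    linear_combination this
  Gam_metric a b c := by
    have := C.par a b c
    simp only [sum_add_distrib, C.Pr_symm b] at this
    simp only [Gam, C.Pr_symm b c]
    linear_combination - this
  Gam_tors a b f := by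
    have h : C.Hor1 fun c => C.Y c f := fun c => C.Pr_Y c f
    rw [C.tors]
    simp only [sub_mul, sum_sub_distrib, Gam_mul C _ _ _ h]
    ring
  Gam_hor1 a b c := by
    simp only [Gam, mul_neg, sum_neg_distrib, Pr_Amul C a b fun e => C.Pr e c]
  Gam_hor3 a b c := Gam_mul C a b (fun e => C.Pr e c) fun e => C.Pr_idem e c
  d1_eq u h a b := by
    simp only [d1, D1, sub_mul, sum_sub_distrib, Gam_mul C _ _ _ h]
    ring
  d2_eq φ h a b c := by
    have h1 : ∀ a b c, ∑ e, C.Gam a b e * φ e c = - ∑ e, C.A a b e * φ e c := fun a b c =>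
      Gam_mul C a b (fun e => φ e c) fun e => h.2 e c
    have h2 : ∀ a b c, ∑ e, C.A a b e * φ c e = - ∑ e, C.A a b e * φ e c := fun a b c => by
      rw [← sum_neg_distrib]
      exact sum_congr rfl fun e _ => by rw [h.1 c e]; ring
    simp only [d2, D2, sub_mul, sum_sub_distrib, sum_add_distrib, h1]
    rw [h2 a c b, h2 b a c, h2 c b a]
    ring

end Pool.Agent.P.MP_713680_gt
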