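import Pool.Agent.P.MP_713680_gt.AlgB0

/-! Package G3: the structure `AlgB` follows from the existence of oriented frames. -/

noncomputable section

namespace Pool.Agent.P.MP_713680_gt

open Finset

namespace AlgBP

variable {P R ι : Type} [CommRing R] [Algebra ℝ R] [Fintype ι]

section ev
variable (v : R →ₐ[ℝ] ℝ)

/-- values of tensors at a point -/
def e2 (φ : ι → ι → R) : ι → ι → ℝ := fun a b => v (φ a b)
def e3 (φ : ι → ι → ι → R) : ι → ι → ι → ℝ := fun a b c => v (φ a b c)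
def e4 (φ : ι → ι → ι → ι → R) : ι → ι → ι → ι → ℝ := fun a b c d => v (φ a b c d)

theorem ev_star (vol : ι → ι → ι → ι → R) (φ : ι → ι → R) :
    e2 v (star vol φ) = star (e4 v vol) (e2 v φ) := by
  funext a b
  simp only [e2, e4, star, map_smul, map_sum, map_mul]

theorem ev_ip2 (φ χ : ι → ι → R) : v (ip2 φ χ) = ip2 (e2 v φ) (e2 v χ) := by
  simp only [e2, ip2, map_sum, map_mul]

theorem ev_ip3 (φ χ : ι → ι → ι → R) : v (ip3 φ χ) = ip3 (e3 v φ) (e3 v χ) := by
  simp only [e3, ip3, map_sum, map_mul]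

theorem ev_mm (φ χ : ι → ι → R) : e2 v (mm φ χ) = mm (e2 v φ) (e2 v χ) := by
  funext a b
  simp only [e2, mm, map_sum, map_mul]

theorem ev_comm (φ χ : ι → ι → R) : e2 v (comm φ χ) = comm (e2 v φ) (e2 v χ) := by
  rw [comm, comm, ← ev_mm, ← ev_mm]
  funext a b
  simp only [e2, Pi.sub_apply, map_sub]

end ev

variable {C : Calc P R ι} {vol : ι → ι → ι → ι → R}

theorem ext (C : Calc P R ι) {f g : R} (h : ∀ x, C.ev x f = C.ev x g) : f = g :=
  sub_eq_zero.1 (C.ev_inj _ fun x => by rw [map_sub, h, sub_self])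

/-- an oriented frame at `x` -/
structure Fr (C : Calc P R ι) (vol : ι → ι → ι → ι → R) (x : P) (e : ι → Fin 4 → ℝ) : Prop where
  on : On e
  pr : ∀ a b, C.ev x (C.Pr a b) = cp e (fun i a => e a i) a b
  vol : e4 (C.ev x) vol = T4 e ep

theorem fr (h : C.Fr4 vol) (x : P) : ∃ e, Fr C vol x e := by
  obtain ⟨e, h1, h2, h3⟩ := h x
  exact ⟨e, h1, h2, by funext a b c d; rw [← det_eq]; exact h3 a b c d⟩

variable {x : P} {e : ι → Fin 4 → ℝ}

theorem Fr.hor (F : Fr C vol x e) {u : ι → R} {a : ι} (h : ∑ b, C.Pr a b * u b = u a) :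
    T1 (cp e (fun i a => e a i)) (fun b => C.ev x (u b)) a = C.ev x (u a) := by
  rw [← h]
  simp only [T1, map_sum, map_mul, F.pr]

theorem Fr.rep2 (F : Fr C vol x e) {φ : ι → ι → R} (h : C.Form2 φ) :
    ∃ m : Fin 4 → Fin 4 → ℝ, (∀ i j, m i j = - m j i) ∧ e2 (C.ev x) φ = T2 e m := by
  have s : ∀ a b, e2 (C.ev x) φ a b = - e2 (C.ev x) φ b a := fun a b => by
    rw [e2, e2, h.1, map_neg]
  refine ⟨T2 (fun i a => e a i) (e2 (C.ev x) φ), fun i j => swap2 _ s i j, ?_⟩
  funext a b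
  rw [T2_cp, fix2 s fun a b => F.hor (h.2 a b)]

theorem Fr.rep3 (F : Fr C vol x e) {t : ι → ι → ι → R} (h : Alt3 t)
    (h' : ∀ a b c, ∑ e, C.Pr a e * t e b c = t a b c) :
    ∃ m : Fin 4 → Fin 4 → Fin 4 → ℝ, Alt3 m ∧ e3 (C.ev x) t = T3 e m := by
  have s : Alt3 (e3 (C.ev x) t) :=
    ⟨fun a b c => by rw [e3, e3, h.1, map_neg], fun a b c => by rw [e3, e3, h.2, map_neg]⟩
  refine ⟨T3 (fun i a => e a i) (e3 (C.ev x) t), alt3 _ s, ?_⟩
  funext a b c
  rw [T3_cp, fix3 s fun a b c => F.hor (h' a b c)]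

theorem Fr.rep4 (F : Fr C vol x e) {t : ι → ι → ι → ι → R} (h : Alt4 t)
    (h' : ∀ a b c d, ∑ e, C.Pr a e * t e b c d = t a b c d) :
    ∃ m : Fin 4 → Fin 4 → Fin 4 → Fin 4 → ℝ, Alt4 m ∧ e4 (C.ev x) t = T4 e m := by
  have s : Alt4 (e4 (C.ev x) t) :=
    ⟨fun a b c d => by rw [e4, e4, h.1, map_neg], fun a b c d => by rw [e4, e4, h.2.1, map_neg],
      fun a b c d => by rw [e4, e4, h.2.2, map_neg]⟩
  refine ⟨T4 (fun i a => e a i) (e4 (C.ev x) t), alt4 _ s, ?_⟩
  funext a b c d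
  rw [T4_cp, fix4 s fun a b c d => F.hor (h' a b c d)]

theorem Fr.repSD (F : Fr C vol x e) {φ : ι → ι → R} (h : C.SD vol φ) :
    ∃ p q r, e2 (C.ev x) φ = T2 e (sk p q r p q r) := by
  obtain ⟨m, h1, h2⟩ := F.rep2 h.1
  have := ev_star (C.ev x) vol φ
  rw [h.2, F.vol, h2, star_T F.on] at this
  obtain ⟨p, q, r, h3⟩ := sd_rep h1 (T2_inj F.on this).symm
  exact ⟨p, q, r, by rw [h2, h3]⟩

theorem vol_alt (h : C.Fr4 vol) : Alt4 vol := by
  have key : ∀ x, Alt4 (e4 (C.ev x) vol) := fun x => by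
    obtain ⟨e, F⟩ := fr h x
    rw [F.vol]
    exact alt4 e ep_alt
  exact ⟨fun a b c d => ext C fun x => by rw [map_neg]; exact (key x).1 a b c d,
    fun a b c d => ext C fun x => by rw [map_neg]; exact (key x).2.1 a b c d,
    fun a b c d => ext C fun x => by rw [map_neg]; exact (key x).2.2 a b c d⟩

theorem vol_hor (h : C.Fr4 vol) (a b c d : ι) : ∑ e, C.Pr a e * vol e b c d = vol a b c d := by
  refine ext C fun x => ?_
  obtain ⟨e, F⟩ := fr h x
  have h1 : cp (fun i a => e a i) e = fun i j => if i = j then 1 else 0 := by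
    funext i j; exact F.on i j
  have h2 : ∀ a, C.ev x (vol a b c d) = T1 e (fun i => T3 e (ep i) b c d) a := fun a =>
    congrFun (congrFun (congrFun (congrFun F.vol a) b) c) d
  simp only [map_sum, map_mul, F.pr, h2]
  refine (T1_cp e (fun i a => e a i) _ a).symm.trans ?_
  congr 1
  funext i
  rw [T1_cp, h1]
  simp [T1]

theorem star_form (h : C.Fr4 vol) (φ : ι → ι → R) : C.Form2 (star vol φ) := by
  refine ⟨fun a b => ?_, fun a c => ?_⟩
  · simp only [star, (vol_alt h).1 a b, neg_mul, sum_neg_distrib, smul_neg]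
  · simp only [star, mul_smul_comm, ← smul_sum, mul_sum]
    congr 1
    rw [sum_comm]
    refine sum_congr rfl fun _ _ => ?_
    rw [sum_comm]
    refine sum_congr rfl fun _ _ => ?_
    rw [← vol_hor h a, sum_mul]
    exact sum_congr rfl fun _ _ => by ring

theorem star_symm (h : C.Fr4 vol) (φ χ : ι → ι → R) :
    ip2 (star vol φ) χ = ip2 φ (star vol χ) := by
  have H := vol_alt h
  have s : ∀ a b c d, vol a b c d = vol c d a b := fun a b c d => by
    rw [H.2.1 a b c d, H.1 a c b d, H.2.2 c a b d, H.2.1 c a d b]; ring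
  simp only [ip2, star, smul_mul_assoc, mul_smul_comm, ← smul_sum, sum_mul, mul_sum]
  congr 1
  rw [sum_congr rfl fun a _ => sum_comm, sum_comm]
  refine sum_congr rfl fun c _ => ?_
  rw [sum_congr rfl fun a _ => sum_comm, sum_comm]
  exact sum_congr rfl fun d _ => sum_congr rfl fun a _ => sum_congr rfl fun b _ => by
    rw [s a b c d]; ring

theorem dep4 (p q r : Fin 4 → ℝ) :
    ∃ c : Fin 4 → ℝ, c ≠ 0 ∧ ∑ i, c i * p i = 0 ∧ ∑ i, c i * q i = 0 ∧ ∑ i, c i * r i = 0 := by
  have : ¬ LinearIndependent ℝ (fun i : Fin 4 => (![p i, q i, r i] : Fin 3 → ℝ)) := fun h => by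
    have := h.fintype_card_le_finrank
    simp at this
  rw [Fintype.not_linearIndependent_iff] at this
  obtain ⟨c, h1, i, h2⟩ := this
  refine ⟨c, fun h => h2 (by rw [h]; rfl), ?_, ?_, ?_⟩
  · simpa using congrFun h1 0
  · simpa using congrFun h1 1
  · simpa using congrFun h1 2

theorem sk_sum (c p q r : Fin 4 → ℝ) (h1 : ∑ i, c i * p i = 0) (h2 : ∑ i, c i * q i = 0)
    (h3 : ∑ i, c i * r i = 0) (a b : Fin 4) :
    ∑ i, c i * sk (p i) (q i) (r i) (p i) (q i) (r i) a b = 0 := by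
  fin_cases a <;> fin_cases b <;> simp [sk, h1, h2, h3]

end AlgBP

open AlgBP

variable {P R ι : Type} [CommRing R] [Algebra ℝ R] [Fintype ι] (C : Calc P R ι) (I : R →ₗ[ℝ] ℝ)
  (vol : ι → ι → ι → ι → R)

theorem algB (h : C.Fr4 vol) : C.AlgB vol where
  tr := ext C fun x => by
    obtain ⟨e, F⟩ := fr h x
    simp only [map_sum, F.pr, cp, map_ofNat]
    rw [sum_comm, sum_congr rfl fun i _ => F.on i i]
    norm_num
  vol_alt := vol_alt h
  vol_hor := vol_hor h
  vol_sq := ext C fun x => by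
    obtain ⟨e, F⟩ := fr h x
    have := ip_T4 F.on ep ep
    rw [← F.vol, ep_sq] at this
    simp only [map_sum, map_mul, map_ofNat]
    exact this
  vol_vol a b := ext C fun x => by
    obtain ⟨e, F⟩ := fr h x
    have h5 := dual_T F.on ep
    have h6 : e3 (C.ev x) (vol b) = T3 e (fun c d r => T1 e (fun i => ep i c d r) b) := by
      funext c d r
      rw [T3_comm]
      exact congrFun (congrFun (congrFun (congrFun F.vol b) c) d) r
    have h7 := h5 (fun c d r => T1 e (fun i => ep i c d r) b) a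
    rw [← F.vol, ← h6] at h7
    simp only [e3, e4] at h7
    simp only [map_sum, map_mul, map_ofNat, h7, F.pr, cp, T1, con_rep]
    rw [mul_sum]
    exact sum_congr rfl fun _ _ => by ring
  top T h1 h2 a b c d := ext C fun x => by
    obtain ⟨e, F⟩ := fr h x
    obtain ⟨m, h3, h4⟩ := F.rep4 h1 h2
    have h5 := ip_T4 F.on ep m
    rw [← F.vol, ← h4] at h5
    have h6 : ∑ a, ∑ b, ∑ c, ∑ d, ep a b c d * m a b c d = m 0 1 2 3 * 24 := by
      rw [← ep_sq]
      nth_rewrite 1 [top4 h3]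
      simp only [mul_sum]
      exact sum_congr rfl fun _ _ => sum_congr rfl fun _ _ => sum_congr rfl fun _ _ =>
        sum_congr rfl fun _ _ => by ring
    have h7 : e4 (C.ev x) T a b c d = m 0 1 2 3 * e4 (C.ev x) vol a b c d := by
      rw [h4, F.vol, ← T4_smul, ← top4 h3]
    simp only [map_sum, map_mul, map_ofNat]
    simp only [e4] at h5 h7
    rw [h5, h6, h7]
    ring
  star_add φ χ := by
    funext a b
    simp only [star, Pi.add_apply, mul_add, sum_add_distrib, smul_add]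
  star_smul f φ := by
    funext a b
    simp only [star, Pi.smul_apply, smul_eq_mul, mul_smul_comm, mul_sum, mul_left_comm]
  star_rsmul c φ := by
    funext a b
    simp only [star, Pi.smul_apply, mul_smul_comm, ← smul_sum]
    exact smul_comm _ _ _
  star_form := star_form h
  star_star φ h1 := by
    funext a b
    refine ext C fun x => ?_
    obtain ⟨e, F⟩ := fr h x
    obtain ⟨m, h3, h4⟩ := F.rep2 h1
    have : e2 (C.ev x) (star vol (star vol φ)) = e2 (C.ev x) φ := by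
      rw [ev_star, ev_star, F.vol, h4, star_T F.on, star_T F.on, sk_rep h3, star_sk, star_sk]
    exact congrFun (congrFun this a) b
  star_symm := star_symm h
  dual3 t h1 h2 := ext C fun x => by
    obtain ⟨e, F⟩ := fr h x
    obtain ⟨m, h3, h4⟩ := F.rep3 h1 h2
    have h5 := dual_T F.on ep m
    rw [← F.vol, ← h4] at h5
    simp only [e3, e4] at h5
    rw [map_mul, ev_ip3, h4, ip_T3 F.on, map_ofNat, ← dual4 h3, ← ip_T1 F.on]
    simp only [ip1, map_sum, map_mul, h5]
  sd_anti φ χ h1 h2 a b := ext C fun x => by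
    obtain ⟨e, F⟩ := fr h x
    obtain ⟨p, q, r, h3⟩ := F.repSD h1
    obtain ⟨u, v, w, h4⟩ := F.repSD h2
    have h5 := congrFun (congrFun (ev_mm (C.ev x) φ χ) a) b
    have h6 := congrFun (congrFun (ev_mm (C.ev x) χ φ) a) b
    rw [h3, h4, mm_T F.on, e2] at h5 h6
    rw [map_mul, map_add, h5, h6, ← T2_add, map_neg, map_mul, ev_ip2, h3, h4, ip_T2 F.on, ip_sd,
      F.pr, map_ofNat]
    simp only [anti_sd]
    rw [T2_smul, T2_one, cp]
    ring
  sd_comm φ χ h1 h2 := by
    refine ⟨⟨fun a b => ?_, fun a c => ?_⟩, ?_⟩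
    · have s : ∀ φ χ : ι → ι → R, C.Form2 φ → C.Form2 χ → mm φ χ a b = mm χ φ b a :=
        fun φ χ h1 h2 => sum_congr rfl fun c _ => by rw [h1.1 a c, h2.1 c b]; ring
      simp only [comm, Pi.sub_apply]
      rw [s φ χ h1.1 h2.1, s χ φ h2.1 h1.1]
      ring
    · have s : ∀ φ χ : ι → ι → R, C.Form2 φ → ∑ b, C.Pr a b * mm φ χ b c = mm φ χ a c :=
        fun φ χ h1 => by
          simp only [mm, mul_sum]
          rw [sum_comm]
          refine sum_congr rfl fun _ _ => ?_
          rw [← h1.2 a, sum_mul]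
          exact sum_congr rfl fun _ _ => by ring
      simp only [comm, Pi.sub_apply, mul_sub, sum_sub_distrib, s φ χ h1.1, s χ φ h2.1]
    · funext a b
      refine ext C fun x => ?_
      obtain ⟨e, F⟩ := fr h x
      obtain ⟨p, q, r, h3⟩ := F.repSD h1
      obtain ⟨u, v, w, h4⟩ := F.repSD h2
      have : e2 (C.ev x) (star vol (comm φ χ)) = e2 (C.ev x) (comm φ χ) := by
        rw [ev_star, ev_comm, F.vol, h3, h4, comm_T F.on, star_T F.on, comm_sd, star_sk]
      exact congrFun (congrFun this a) b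
  sd_comm_sq φ χ h1 h2 := ext C fun x => by
    obtain ⟨e, F⟩ := fr h x
    obtain ⟨p, q, r, h3⟩ := F.repSD h1
    obtain ⟨u, v, w, h4⟩ := F.repSD h2
    simp only [map_sub, map_mul, ev_ip2, ev_comm, h3, h4, comm_T F.on, ip_T2 F.on, comm_sd, ip_sd]
    ring
  sd_dep φ h1 x := by
    obtain ⟨e, F⟩ := fr h x
    choose p q r h3 using fun i => F.repSD (h1 i)
    obtain ⟨c, h4, h5, h6, h7⟩ := dep4 p q r
    refine ⟨c, h4, fun a b => ?_⟩
    have h8 : ∀ i, C.ev x (φ i a b) = T2 e (sk (p i) (q i) (r i) (p i) (q i) (r i)) a b :=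
      fun i => congrFun (congrFun (h3 i) a) b
    have h9 := sk_sum c p q r h5 h6 h7
    simp only [Fin.sum_univ_four] at h9
    simp only [h8, Fin.sum_univ_four, ← T2_smul, ← T2_add, h9]
    simp [T2, T1]

end Pool.Agent.P.MP_713680_gt
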