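import Pool.Agent.P.MP_713680_gt.GeoSt

/-!
MP_713680_gt, package G4: the Hodge star is parallel, integration by parts, Weitzenboeck formulas.
-/

noncomputable section

namespace Pool.Agent.P.MP_713680_gt

open Finset

namespace AlgCP

variable {R ι : Type} [CommRing R] [Algebra ℝ R] [Fintype ι]

theorem cancel (n : ℕ) (hn : n ≠ 0) {x : R} (h : (n : R) * x = 0) : x = 0 := by
  have h1 : ((n : ℝ)⁻¹ * n) • x = 0 := by
    rw [mul_smul, Nat.cast_smul_eq_nsmul, nsmul_eq_mul, h, smul_zero]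
  rwa [inv_mul_cancel₀ (by exact_mod_cast hn), one_smul] at h1

omit [Algebra ℝ R] in
theorem adjA (A : ι → ι → R) (hA : ∀ a b, A a b = - A b a) (x y : ι → R) :
    ∑ a, x a * ∑ g, A a g * y g = - ∑ a, (∑ g, A a g * x g) * y a := by
  simp only [mul_sum, sum_mul, ← sum_neg_distrib]
  rw [sum_comm]
  refine sum_congr rfl fun a _ => sum_congr rfl fun g _ => ?_
  rw [hA g a]; ring

theorem skew0 (A : ι → ι → R) (hA : ∀ a b, A a b = - A b a) (x : ι → R) :
    ∑ a, x a * ∑ g, A a g * x g = 0 := by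
  refine cancel 2 (by norm_num) ?_
  have h := adjA A hA x x
  have h2 : ∑ a, (∑ g, A a g * x g) * x a = ∑ a, x a * ∑ g, A a g * x g :=
    sum_congr rfl fun a _ => mul_comm _ _
  rw [h2] at h
  push_cast
  linear_combination h

omit [Algebra ℝ R] in
theorem trace0 (A : ι → ι → R) (hA : ∀ a b, A a b = - A b a) (t : ι → ι → R) :
    ∑ a, ∑ g, (A a g * t g a + A a g * t a g) = 0 := by
  simp only [sum_add_distrib]
  rw [sum_comm (f := fun a g => A a g * t g a), ← sum_add_distrib]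
  refine sum_eq_zero fun a _ => ?_
  rw [← sum_add_distrib]
  refine sum_eq_zero fun g _ => ?_
  rw [hA g a]; ring

omit [Algebra ℝ R] in
theorem cyc3 (f : ι → ι → ι → R) : ∑ a, ∑ b, ∑ c, f a b c = ∑ a, ∑ b, ∑ c, f b c a := by
  have h1 : ∑ a, ∑ b, ∑ c, f a b c = ∑ a, ∑ c, ∑ b, f a b c :=
    sum_congr rfl fun _ _ => sum_comm
  rw [h1, sum_comm]

omit [Algebra ℝ R] in
theorem cyc4 (f : ι → ι → ι → ι → R) :
    ∑ a, ∑ b, ∑ c, ∑ d, f a b c d = ∑ a, ∑ b, ∑ c, ∑ d, f d a b c := by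
  rw [sum_comm]
  refine sum_congr rfl fun _ _ => ?_
  rw [sum_comm]
  refine sum_congr rfl fun _ _ => ?_
  rw [sum_comm]

end AlgCP

open AlgCP

variable {P R ι : Type} [CommRing R] [Algebra ℝ R] [Fintype ι] (C : Calc P R ι) (I : R →ₗ[ℝ] ℝ)
  (vol : ι → ι → ι → ι → R)

namespace AlgCP

/-- The covariant derivative of a 4-tensor. -/
def D4 (e a b c d : ι) : R :=
  C.Y e (vol a b c d) + ∑ g, (C.A e a g * vol g b c d
    + C.A e b g * vol a g c d + C.A e c g * vol a b g d + C.A e d g * vol a b c g)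

theorem D4_alt (h : Alt4 vol) (e : ι) : Alt4 (D4 C vol e) := by
  obtain ⟨h1, h2, h3⟩ := h
  refine ⟨fun a b c d => ?_, fun a b c d => ?_, fun a b c d => ?_⟩
  · unfold D4
    rw [h1 a b c d, map_neg, neg_add, ← sum_neg_distrib]
    congr 1
    refine sum_congr rfl fun g _ => ?_
    rw [h1 g b c d, h1 a g c d, h1 a b g d, h1 a b c g]; ring
  · unfold D4
    rw [h2 a b c d, map_neg, neg_add, ← sum_neg_distrib]
    congr 1
    refine sum_congr rfl fun g _ => ?_
    rw [h2 g b c d, h2 a g c d, h2 a b g d, h2 a b c g]; ring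
  · unfold D4
    rw [h3 a b c d, map_neg, neg_add, ← sum_neg_distrib]
    congr 1
    refine sum_congr rfl fun g _ => ?_
    rw [h3 g b c d, h3 a g c d, h3 a b g d, h3 a b c g]; ring

theorem D4_hor (ha : C.AlgA) (hb : C.AlgB vol) (e a b c d : ι) :
    ∑ f, C.Pr a f * D4 C vol e f b c d = D4 C vol e a b c d := by
  have h1 := ha.hor_D1 (fun f => vol f b c d) e (fun f => hb.vol_hor f b c d) a
  have h2 : ∀ f, D4 C vol e f b c d = C.D1 (fun f => vol f b c d) e f
      + ∑ g, (C.A e b g * vol f g c d + C.A e c g * vol f b g d + C.A e d g * vol f b c g) := by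
    intro f
    unfold D4 Calc.D1
    rw [add_assoc, ← sum_add_distrib]
    congr 1
    exact sum_congr rfl fun g _ => by ring
  simp only [h2, mul_add, sum_add_distrib]
  rw [h1]
  congr 1
  simp only [mul_sum]
  have k : ∀ (M : ι → R) (w : ι → ι → R), (∀ g, ∑ f, C.Pr a f * w f g = w a g) →
      ∑ f, ∑ g, C.Pr a f * (M g * w f g) = ∑ g, M g * w a g := by
    intro M w hw
    rw [sum_comm]
    refine sum_congr rfl fun g _ => ?_
    rw [← hw g, mul_sum]
    exact sum_congr rfl fun f _ => by ring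
  rw [k _ (fun f g => vol f g c d) fun g => hb.vol_hor a g c d,
    k _ (fun f g => vol f b g d) fun g => hb.vol_hor a b g d,
    k _ (fun f g => vol f b c g) fun g => hb.vol_hor a b c g]

theorem D4_pair (hb : C.AlgB vol) (e : ι) :
    ∑ a, ∑ b, ∑ c, ∑ d, vol a b c d * D4 C vol e a b c d = 0 := by
  have h0 : ∑ a, ∑ b, ∑ c, ∑ d, vol a b c d * C.Y e (vol a b c d) = 0 := by
    refine cancel 2 (by norm_num) ?_
    have h := congrArg (C.Y e) hb.vol_sq
    have h24 : C.Y e (24 : R) = 0 := by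
      have : (24 : R) = ((24 : ℕ) : R) := by norm_num
      rw [this]; exact Derivation.map_natCast _ _
    rw [h24] at h
    simp only [map_sum, Derivation.leibniz, smul_eq_mul] at h
    rw [← h]
    simp only [mul_sum]
    refine sum_congr rfl fun a _ => sum_congr rfl fun b _ => sum_congr rfl fun c _ =>
      sum_congr rfl fun d _ => ?_
    push_cast; ring
  have hs := C.A_skew e
  have h4 : ∀ T : ι → ι → ι → ι → R,
      ∑ a, ∑ b, ∑ c, ∑ d, T a b c d * ∑ g, C.A e d g * T a b c g = 0 := fun T =>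
    sum_eq_zero fun a _ => sum_eq_zero fun b _ => sum_eq_zero fun c _ =>
      skew0 (C.A e) hs (fun d => T a b c d)
  have h1 : ∑ a, ∑ b, ∑ c, ∑ d, vol a b c d * ∑ g, C.A e a g * vol g b c d = 0 := by
    rw [cyc4]; exact h4 fun a b c d => vol d a b c
  have h2 : ∑ a, ∑ b, ∑ c, ∑ d, vol a b c d * ∑ g, C.A e b g * vol a g c d = 0 := by
    rw [cyc4, cyc4]; exact h4 fun a b c d => vol c d a b
  have h3 : ∑ a, ∑ b, ∑ c, ∑ d, vol a b c d * ∑ g, C.A e c g * vol a b g d = 0 := by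
    rw [cyc4, cyc4, cyc4]; exact h4 fun a b c d => vol b c d a
  have h5 := h4 vol
  unfold D4
  simp only [mul_add, sum_add_distrib]
  rw [h0, h1, h2, h3, h5]; ring

theorem vol_par (ha : C.AlgA) (hb : C.AlgB vol) (e a b c d : ι) : D4 C vol e a b c d = 0 := by
  have h := hb.top (D4 C vol e) (D4_alt C vol hb.vol_alt e) (D4_hor C vol ha hb e) a b c d
  rw [D4_pair C vol hb e, zero_mul] at h
  exact cancel 24 (by norm_num) (by exact_mod_cast h)

theorem D2_star (ha : C.AlgA) (hb : C.AlgB vol) (φ : ι → ι → R) (a : ι) :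
    C.D2 (star vol φ) a = star vol (C.D2 φ a) := by
  funext b c
  have hY := ha.Y_ip2 (vol b c) φ a
  have hv : ∀ d e, C.D2 (vol b c) a d e
      = - ∑ g, (C.A a b g * vol g c d e + C.A a c g * vol b g d e) := by
    intro d e
    have h := vol_par C vol ha hb a b c d e
    unfold D4 at h
    unfold Calc.D2
    simp only [sum_add_distrib] at h ⊢
    linear_combination h
  have e1 : ∀ ψ : ι → ι → R, ∀ b c, star vol ψ b c = (1 / 2 : ℝ) • ip2 (vol b c) ψ :=
    fun _ _ _ => rfl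
  rw [e1 (C.D2 φ a)]
  unfold Calc.D2
  simp only [e1]
  rw [Derivation.map_smul, hY]
  simp only [mul_smul_comm, ← smul_add, ← smul_sum]
  congr 1
  have h2 : ip2 (C.D2 (vol b c) a) φ
      = - ∑ g, (C.A a b g * ip2 (vol g c) φ + C.A a c g * ip2 (vol b g) φ) := by
    unfold ip2
    simp only [hv, neg_mul, sum_neg_distrib, sum_mul, mul_sum, ← sum_add_distrib]
    congr 1
    rw [cyc3]
    refine sum_congr rfl fun _ _ => sum_congr rfl fun _ _ => sum_congr rfl fun _ _ => by ring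
  rw [h2]
  unfold Calc.D2
  ring

theorem cd2_star (ha : C.AlgA) (hb : C.AlgB vol) (φ : ι → ι → R) (b : ι) :
    ∑ a, ∑ c, ∑ d, vol b a c d * C.d2 φ a c d = 6 * C.cd2 (star vol φ) b := by
  obtain ⟨h1, h2, h3⟩ := hb.vol_alt
  have hc : ∀ a c d, vol b a c d = vol b c d a := fun a c d => by
    rw [h2 b a c d, h3 b c a d, neg_neg]
  set S := ∑ a, ∑ c, ∑ d, vol b a c d * C.D2 φ a c d with hS
  have e2 : ∑ a, ∑ c, ∑ d, vol b a c d * C.D2 φ c d a = S := by
    rw [hS, cyc3 (fun a c d => vol b a c d * C.D2 φ a c d)]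
    refine sum_congr rfl fun a _ => sum_congr rfl fun c _ => sum_congr rfl fun d _ => ?_
    rw [hc a c d]
  have e3 : ∑ a, ∑ c, ∑ d, vol b a c d * C.D2 φ d a c = S := by
    rw [hS, cyc3 (fun a c d => vol b a c d * C.D2 φ d a c)]
    refine sum_congr rfl fun a _ => sum_congr rfl fun c _ => sum_congr rfl fun d _ => ?_
    rw [hc a c d]
  have e4 : C.cd2 (star vol φ) b = (1 / 2 : ℝ) • S := by
    unfold Calc.cd2
    simp only [D2_star C vol ha hb]
    unfold star
    rw [← smul_sum, ← smul_neg, hS]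
    congr 1
    simp only [← sum_neg_distrib]
    refine sum_congr rfl fun a _ => sum_congr rfl fun c _ => sum_congr rfl fun d _ => ?_
    rw [h1 a b c d]; ring
  unfold Calc.d2
  simp only [mul_add, sum_add_distrib]
  rw [e2, e3, e4, ← hS]
  have : (6 : R) * (1 / 2 : ℝ) • S = 3 * S := by
    have h6 : (6 : R) = algebraMap ℝ R 6 := by rw [map_ofNat]
    have h3' : (3 : R) = algebraMap ℝ R 3 := by rw [map_ofNat]
    rw [h6, h3', ← Algebra.smul_def, ← Algebra.smul_def, smul_smul]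
    norm_num
  rw [this]; ring

theorem sd_d2 (ha : C.AlgA) (hb : C.AlgB vol) (φ : ι → ι → R) (h : C.SD vol φ) :
    ip3 (C.d2 φ) (C.d2 φ) = 6 * ip1 (C.cd2 φ) (C.cd2 φ) := by
  have h1 := hb.dual3 (C.d2 φ) (ha.alt_d2 φ h.1) (ha.hor_d2 φ h.1)
  simp only [cd2_star C vol ha hb φ, h.2] at h1
  have h2 : ip1 (fun b => 6 * C.cd2 φ b) (fun b => 6 * C.cd2 φ b)
      = 36 * ip1 (C.cd2 φ) (C.cd2 φ) := by
    unfold ip1
    rw [mul_sum]
    exact sum_congr rfl fun _ _ => by ring
  rw [h2] at h1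
  rw [← sub_eq_zero]
  refine cancel 6 (by norm_num) ?_
  push_cast
  linear_combination -h1

include C in
theorem ip3_zero (t : ι → ι → ι → R) (h : ip3 t t = 0) : t = 0 := by
  funext a b c
  refine C.ev_inj _ fun x => ?_
  have h1 := congrArg (C.ev x) h
  unfold ip3 at h1
  simp only [map_sum, map_mul, map_zero] at h1
  have n3 : ∀ a b c, 0 ≤ C.ev x (t a b c) * C.ev x (t a b c) := fun _ _ _ => mul_self_nonneg _
  have h2 := (sum_eq_zero_iff_of_nonneg fun a _ => sum_nonneg fun b _ => sum_nonneg fun c _ =>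
    n3 a b c).1 h1 a (mem_univ _)
  have h3 := (sum_eq_zero_iff_of_nonneg fun b _ => sum_nonneg fun c _ => n3 a b c).1 h2 b
    (mem_univ _)
  have h4 := (sum_eq_zero_iff_of_nonneg fun c _ => n3 a b c).1 h3 c (mem_univ _)
  exact mul_self_eq_zero.1 h4

end AlgCP

theorem algC (ha : C.AlgA) (hb : C.AlgB vol) : C.AlgC vol where
  vol_par := AlgCP.vol_par C vol ha hb
  D2_star := AlgCP.D2_star C vol ha hb
  cd2_star_closed := fun φ _ hd => by
    funext b
    have h := cd2_star C vol ha hb φ b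
    simp only [hd, Pi.zero_apply, mul_zero, sum_const_zero] at h
    exact cancel 6 (by norm_num) (by exact_mod_cast h.symm)
  sd_d2 := AlgCP.sd_d2 C vol ha hb
  sd_closed := fun φ h h0 => by
    refine ip3_zero C _ ?_
    rw [AlgCP.sd_d2 C vol ha hb φ h, h0]
    simp [ip1]

namespace AlgCP

theorem div1 (hd : C.Div I) (u : ι → R) : I (C.cd1 u) = 0 := by
  unfold Calc.cd1 Calc.D1
  have h : ∑ a, (C.Y a (u a) + ∑ c, C.A a a c * u c)
      = ∑ a, (C.Y a (u a) + ∑ c, C.A c c a * u a) := by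
    simp only [sum_add_distrib]
    rw [sum_comm]
  rw [h, map_neg, map_sum, sum_eq_zero fun a _ => hd a (u a), neg_zero]

theorem adj0 (ha : C.AlgA) (hd : C.Div I) (f : R) (u : ι → R) :
    I (ip1 (C.d0 f) u) = I (f * C.cd1 u) := by
  have h := div1 C I hd (f • u)
  have e : C.cd1 (f • u) = f * C.cd1 u - ip1 (C.d0 f) u := by
    unfold Calc.cd1 ip1 Calc.d0
    simp only [ha.D1_smul, sum_add_distrib, ← mul_sum]
    ring
  rw [e, map_sub, sub_eq_zero] at h
  exact h.symm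

theorem adjm (ha : C.AlgA) (hd : C.Div I) (u : ι → R) (φ : ι → ι → R) :
    I (ip2 (C.D1 u) φ) = I (ip1 u (C.cd2 φ)) := by
  have h := div1 C I hd (mv φ u)
  have e : C.cd1 (mv φ u) = ip1 u (C.cd2 φ) - ip2 (C.D1 u) φ := by
    unfold Calc.cd1
    simp only [ha.D1_mv, Pi.add_apply, sum_add_distrib]
    unfold mv ip1 ip2 Calc.cd2
    rw [sum_comm]
    simp only [mul_neg, sum_neg_distrib, mul_sum, mul_comm]
    ring
  rw [e, map_sub, sub_eq_zero] at h
  exact h.symm

theorem I_two (x : R) : I (2 * x) = 2 * I x := by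
  rw [two_mul, map_add, two_mul]

theorem adj1 (ha : C.AlgA) (hd : C.Div I) (u : ι → R) (φ : ι → ι → R)
    (hφ : ∀ a b, φ a b = - φ b a) : I (ip2 (C.d1 u) φ) = 2 * I (ip1 u (C.cd2 φ)) := by
  rw [← adjm C I ha hd, ← I_two]
  congr 1
  unfold ip2 Calc.d1
  simp only [sub_mul, sum_sub_distrib]
  rw [sum_comm (f := fun a b => C.D1 u b a * φ a b)]
  have : ∑ b, ∑ a, C.D1 u b a * φ a b = - ∑ a, ∑ b, C.D1 u a b * φ a b := by
    simp only [← sum_neg_distrib]
    refine sum_congr rfl fun a _ => sum_congr rfl fun b _ => ?_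
    rw [hφ b a]; ring
  rw [this]; ring

theorem trD2 (ψ : ι → ι → R) (b : ι) : ∑ a, C.D2 ψ b a a = C.Y b (∑ a, ψ a a) := by
  unfold Calc.D2
  rw [sum_add_distrib, trace0 (C.A b) (C.A_skew b) ψ, map_sum, add_zero]

theorem trD3 (t : ι → ι → ι → R) (b c : ι) :
    ∑ a, C.D3 t b a a c = C.D1 (fun c => ∑ a, t a a c) b c := by
  unfold Calc.D3 Calc.D1
  have h := trace0 (C.A b) (C.A_skew b) (fun g a => t g a c)
  simp only [sum_add_distrib] at h ⊢
  rw [h, zero_add, map_sum, sum_comm]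
  simp only [mul_sum]

theorem boch1 (ha : C.AlgA) (hr : C.AlgR) (hd : C.Div I) (u v : ι → R) :
    (1 / 2) * I (ip2 (C.d1 u) (C.d1 v)) + I (C.cd1 u * C.cd1 v)
      = I (ip2 (C.D1 u) (C.D1 v)) + I (C.Ric u v) := by
  have e1 : ip2 (C.d1 u) (C.d1 v)
      = 2 * (ip2 (C.D1 u) (C.D1 v) - ip2 (C.D1 u) (fun a b => C.D1 v b a)) := by
    unfold ip2 Calc.d1
    have k1 : ∑ a, ∑ b, C.D1 u b a * C.D1 v b a = ∑ a, ∑ b, C.D1 u a b * C.D1 v a b := sum_comm
    have k2 : ∑ a, ∑ b, C.D1 u b a * C.D1 v a b = ∑ a, ∑ b, C.D1 u a b * C.D1 v b a := sum_comm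
    simp only [sub_mul, mul_sub, sum_sub_distrib]
    rw [k1, k2]; ring
  have e2 := adjm C I ha hd u (fun a b => C.D1 v b a)
  have e3 : C.Ric u v = ip1 (C.d0 (C.cd1 v)) u - ip1 u (C.cd2 (fun a b => C.D1 v b a)) := by
    unfold Calc.Ric ip1
    rw [sum_comm, ← sum_sub_distrib]
    refine sum_congr rfl fun b _ => ?_
    have k : ∀ a, ∑ f, C.Rc a b a f * u b * v f
        = u b * (C.D2 (C.D1 v) a b a - C.D2 (C.D1 v) b a a) := by
      intro a
      rw [hr.ricci1, mul_sum]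
      exact sum_congr rfl fun f _ => by ring
    have k2 : ∀ a, C.D2 (fun a b => C.D1 v b a) a a b = C.D2 (C.D1 v) a b a := by
      intro a
      unfold Calc.D2
      congr 1
      exact sum_congr rfl fun f _ => by ring
    simp only [k, ← mul_sum, sum_sub_distrib, trD2]
    unfold Calc.cd2 Calc.d0 Calc.cd1
    simp only [k2, map_neg]
    ring
  have e4 := adj0 C I ha hd (C.cd1 v) u
  rw [e1, I_two, e3, map_sub, map_sub, e2, e4, mul_comm (C.cd1 v)]
  ring

theorem D1_contr (φ : ι → ι → R) (t : ι → ι → ι → R) (ha : C.AlgA) (e a : ι) :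
    C.D1 (fun a => ∑ b, ∑ c, φ b c * t b a c) e a
      = ∑ b, ∑ c, (C.D2 φ e b c * t b a c + φ b c * C.D3 t e b a c) := by
  have hY := ha.Y_ip2 φ (fun b c => t b a c) e
  unfold ip2 at hY
  unfold Calc.D1
  rw [hY]
  simp only [sum_add_distrib]
  rw [add_assoc]
  congr 1
  have k : ∑ g, C.A e a g * ∑ b, ∑ c, φ b c * t b g c
      = ∑ b, ∑ c, φ b c * ∑ g, C.A e a g * t b g c := by
    simp only [mul_sum]
    rw [cyc3 (fun b c g => φ b c * (C.A e a g * t b g c))]
    refine sum_congr rfl fun _ _ => sum_congr rfl fun _ _ => sum_congr rfl fun _ _ => by ring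
  rw [k, ← sum_add_distrib]
  refine sum_congr rfl fun b _ => ?_
  rw [← sum_add_distrib]
  refine sum_congr rfl fun c _ => ?_
  unfold Calc.D2 Calc.D3
  simp only [sum_add_distrib]
  ring

theorem boch2 (ha : C.AlgA) (hr : C.AlgR) (hd : C.Div I) (φ : ι → ι → R)
    (hφ : ∀ a b, φ a b = - φ b a) : I (ip3 (C.d2 φ) (C.d2 φ))
      = 3 * I (ip3 (C.D2 φ) (C.D2 φ)) - 6 * I (ip1 (C.cd2 φ) (C.cd2 φ)) + 6 * I (C.Wq φ) := by
  have hs : ∀ a b c, C.D2 φ a b c = - C.D2 φ a c b := by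
    intro a b c
    unfold Calc.D2
    rw [hφ b c, map_neg, neg_add, ← sum_neg_distrib]
    congr 1
    refine sum_congr rfl fun e _ => ?_
    rw [hφ e c, hφ b e]; ring
  set t := C.D2 φ with ht
  set X := ∑ a, ∑ b, ∑ c, t a b c * t b a c with hX
  have e1 : ip3 (C.d2 φ) (C.d2 φ) = 3 * ip3 t t - 6 * X := by
    have k0 : ∑ a, ∑ b, ∑ c, t a b c * t b c a = - X := by
      rw [hX]
      simp only [← sum_neg_distrib]
      refine sum_congr rfl fun a _ => sum_congr rfl fun b _ => sum_congr rfl fun c _ => ?_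
      rw [hs b c a]; ring
    have k1 : ∑ a, ∑ b, ∑ c, t b c a * t c a b = - X := by
      rw [← k0, cyc3 (fun a b c => t a b c * t b c a)]
    have k2 : ∑ a, ∑ b, ∑ c, t c a b * t a b c = - X := by
      rw [← k1, cyc3 (fun a b c => t b c a * t c a b)]
    have k3 : ∑ a, ∑ b, ∑ c, t b c a * t b c a = ip3 t t := by
      unfold ip3
      rw [cyc3 (fun a b c => t a b c * t a b c)]
    have k4 : ∑ a, ∑ b, ∑ c, t c a b * t c a b = ip3 t t := by
      rw [← k3, cyc3 (fun a b c => t b c a * t b c a)]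
    have k5 : ip3 (C.d2 φ) (C.d2 φ) = ∑ a, ∑ b, ∑ c, (t a b c * t a b c + t b c a * t b c a
        + t c a b * t c a b + 2 * (t a b c * t b c a) + 2 * (t b c a * t c a b)
        + 2 * (t c a b * t a b c)) := by
      unfold ip3 Calc.d2
      refine sum_congr rfl fun a _ => sum_congr rfl fun b _ => sum_congr rfl fun c _ => ?_
      rw [← ht]; ring
    rw [k5]
    simp only [sum_add_distrib, ← mul_sum]
    rw [k0, k1, k2, k3, k4]
    unfold ip3
    ring
  have e2 := div1 C I hd (fun a => ∑ b, ∑ c, φ b c * t b a c)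
  have e3 : C.cd1 (fun a => ∑ b, ∑ c, φ b c * t b a c)
      = - X - ∑ a, ∑ b, ∑ c, φ b c * C.D3 t a b a c := by
    unfold Calc.cd1
    simp only [D1_contr C φ t ha, sum_add_distrib]
    rw [hX]; ring
  have e4 : C.Wq φ = ∑ a, ∑ b, ∑ c, φ b c * C.D3 t a b a c + ip2 (C.D1 (C.cd2 φ)) φ := by
    unfold Calc.Wq
    simp only [← hr.ricci2 φ, mul_sub, sum_sub_distrib]
    rw [← ht, sub_eq_add_neg]
    congr 1
    unfold ip2
    rw [← cyc3 (fun b c a => φ b c * C.D3 t b a a c)]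
    simp only [← sum_neg_distrib]
    refine sum_congr rfl fun b _ => sum_congr rfl fun c _ => ?_
    have k : C.cd2 φ = (-1 : ℝ) • fun c => ∑ a, t a a c := by
      funext c
      simp [Calc.cd2, ht]
    rw [sum_neg_distrib, ← mul_sum, trD3, k, ha.D1_rsmul]
    simp only [Pi.smul_apply, neg_smul, one_smul, Pi.neg_apply]
    ring
  have e5 := adjm C I ha hd (C.cd2 φ) φ
  have I3 : ∀ x : R, I (3 * x) = 3 * I x := fun x => by
    rw [show (3 : R) * x = x + x + x by ring, map_add, map_add]; ring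
  have I6 : ∀ x : R, I (6 * x) = 6 * I x := fun x => by
    rw [show (6 : R) * x = 3 * x + 3 * x by ring, map_add, I3]; ring
  rw [e3, map_sub, map_neg] at e2
  rw [e1, e4, map_sub, map_add, I3, I6, e5]
  linarith

end AlgCP

theorem algD (ha : C.AlgA) (hr : C.AlgR) (hd : C.Div I) : C.AlgD I where
  div1 := AlgCP.div1 C I hd
  adj0 := AlgCP.adj0 C I ha hd
  adj1 := AlgCP.adj1 C I ha hd
  boch1 := AlgCP.boch1 C I ha hr hd
  boch2 := AlgCP.boch2 C I ha hr hd

end Pool.Agent.P.MP_713680_gt
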