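import Pool.Agent.P.MP_713680_gt.GeoSt

/-!
MP_713680_gt, package G2: Ricci identities, Bianchi identity, symmetries of the curvature tensor
and the pointwise Bochner formula.
-/

noncomputable section

namespace Pool.Agent.P.MP_713680_gt

open Finset

variable {P R ι : Type} [CommRing R] [Algebra ℝ R] [Fintype ι] (C : Calc P R ι)

namespace AlgRP

open Matrix

/-- Entrywise derivative of a matrix. -/
def Ym {κ : Type} (a : ι) (φ : Matrix ι κ R) : Matrix ι κ R := Matrix.of fun i j => C.Y a (φ i j)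

/-- The connection matrix. -/
def Am (a : ι) : Matrix ι ι R := Matrix.of (C.A a)

/-- The curvature matrix. -/
def Rcm (a b : ι) : Matrix ι ι R := Matrix.of (C.Rc a b)

theorem Ym_add {κ : Type} (a : ι) (φ χ : Matrix ι κ R) :
    Ym C a (φ + χ) = Ym C a φ + Ym C a χ := by
  ext i j
  simp [Ym]

theorem Ym_mul {κ : Type} (a : ι) (φ : Matrix ι ι R) (χ : Matrix ι κ R) :
    Ym C a (φ * χ) = Ym C a φ * χ + φ * Ym C a χ := by
  ext i j
  simp only [Ym, of_apply, Matrix.mul_apply, Matrix.add_apply, map_sum, Derivation.leibniz,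
    smul_eq_mul, ← Finset.sum_add_distrib]
  exact Finset.sum_congr rfl fun e _ => by ring

theorem Ym_transpose (a : ι) (φ : Matrix ι ι R) : Ym C a φᵀ = (Ym C a φ)ᵀ := rfl

theorem Ym_comm {κ : Type} (a b : ι) (φ : Matrix ι κ R) :
    Ym C a (Ym C b φ) = Ym C b (Ym C a φ) - ∑ c, (C.A a b c - C.A b a c) • Ym C c φ := by
  ext i j
  have h := C.tors a b (φ i j)
  have h2 : ∑ c, (C.A a b c - C.A b a c) * C.Y c (φ i j)
      = -∑ c, (C.A b a c - C.A a b c) * C.Y c (φ i j) := by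
    rw [← Finset.sum_neg_distrib]
    exact Finset.sum_congr rfl fun c _ => by ring
  simp only [Ym, of_apply, Matrix.sub_apply, Matrix.sum_apply, Matrix.smul_apply, smul_eq_mul]
  rw [h2]
  linear_combination h

theorem Rcm_eq (a b : ι) : Rcm C a b = Ym C a (Am C b) - Ym C b (Am C a)
    + (Am C a * Am C b - Am C b * Am C a) + ∑ c, (C.A a b c - C.A b a c) • Am C c := by
  ext e f
  simp only [Rcm, Ym, Am, Calc.Rc, of_apply, Matrix.sub_apply, Matrix.add_apply, Matrix.sum_apply,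
    Matrix.smul_apply, smul_eq_mul, Matrix.mul_apply, Finset.sum_sub_distrib]

/-- Covariant derivative in the first index. -/
def L0 {κ : Type} (a : ι) (φ : Matrix ι κ R) : Matrix ι κ R := Ym C a φ + Am C a * φ

/-- Covariant derivative in both indices. -/
def L2 (a : ι) (φ : Matrix ι ι R) : Matrix ι ι R := Ym C a φ + Am C a * φ + φ * (Am C a)ᵀ

theorem ric0 {κ : Type} (a b : ι) (φ : Matrix ι κ R) :
    L0 C a (L0 C b φ) - L0 C b (L0 C a φ) + ∑ c, (C.A a b c - C.A b a c) • L0 C c φ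
      = Rcm C a b * φ := by
  simp only [L0, Ym_add, Ym_mul, Rcm_eq, Matrix.add_mul, Matrix.sub_mul, Matrix.mul_add,
    Matrix.sum_mul, Matrix.smul_mul, smul_add, Finset.sum_add_distrib, Matrix.mul_assoc]
  rw [Ym_comm C a b φ]
  abel

theorem ric2 (a b : ι) (φ : Matrix ι ι R) :
    L2 C a (L2 C b φ) - L2 C b (L2 C a φ) + ∑ c, (C.A a b c - C.A b a c) • L2 C c φ
      = Rcm C a b * φ + φ * (Rcm C a b)ᵀ := by
  simp only [L2, Ym_add, Ym_mul, Rcm_eq, Matrix.add_mul, Matrix.sub_mul, Matrix.mul_add,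
    Matrix.mul_sub, Matrix.sum_mul, Matrix.mul_sum, Matrix.smul_mul, Matrix.mul_smul, smul_add,
    Finset.sum_add_distrib, Matrix.mul_assoc, transpose_add, transpose_sub, transpose_mul,
    transpose_sum, transpose_smul, Ym_transpose]
  rw [Ym_comm C a b φ]
  abel

omit [Algebra ℝ R] in
theorem sum_sub_mul (x y z : ι → R) :
    ∑ c, (x c - y c) * z c = ∑ c, x c * z c - ∑ c, y c * z c := by
  rw [← Finset.sum_sub_distrib]
  exact Finset.sum_congr rfl fun c _ => by ring

theorem ricci1 (u : ι → R) (a b c : ι) :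
    C.D2 (C.D1 u) a b c - C.D2 (C.D1 u) b a c = ∑ f, C.Rc a b c f * u f := by
  let U : Matrix ι Unit R := Matrix.of fun i _ => u i
  have h1 : ∀ a c, L0 C a U c () = C.D1 u a c := fun a c => rfl
  have h2 : ∀ a b, C.D2 (C.D1 u) a b c
      = L0 C a (L0 C b U) c () + ∑ e, C.A a b e * C.D1 u e c := by
    intro a b
    have : L0 C a (L0 C b U) c () = C.Y a (C.D1 u b c) + ∑ e, C.A a c e * C.D1 u b e := rfl
    rw [this, Calc.D2, Finset.sum_add_distrib]
    ring
  have h3 := congrFun (congrFun (ric0 C a b U) c) ()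
  have h4 : (Rcm C a b * U) c () = ∑ f, C.Rc a b c f * u f := rfl
  simp only [Matrix.add_apply, Matrix.sub_apply, Matrix.sum_apply, Matrix.smul_apply, smul_eq_mul,
    h1, h4, sum_sub_mul] at h3
  rw [h2, h2]
  linear_combination h3

theorem L2_apply (φ : ι → ι → R) (a b c : ι) : L2 C a (Matrix.of φ) b c = C.D2 φ a b c := by
  simp only [L2, Ym, Am, Calc.D2, of_apply, Matrix.add_apply, Matrix.mul_apply, transpose_apply,
    Finset.sum_add_distrib, add_assoc]
  congr 2
  exact Finset.sum_congr rfl fun e _ => mul_comm _ _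

theorem L2_eq (φ : ι → ι → R) (a : ι) : L2 C a (Matrix.of φ) = Matrix.of (C.D2 φ a) := by
  ext b c
  exact L2_apply C φ a b c

theorem ricci2 (φ : ι → ι → R) (a b c d : ι) :
    C.D3 (C.D2 φ) a b c d - C.D3 (C.D2 φ) b a c d
      = ∑ e, (C.Rc a b c e * φ e d + C.Rc a b d e * φ c e) := by
  have h2 : ∀ a b, C.D3 (C.D2 φ) a b c d
      = L2 C a (L2 C b (Matrix.of φ)) c d + ∑ e, C.A a b e * C.D2 φ e c d := by
    intro a b
    have e : C.D2 (C.D2 φ b) a c d = C.Y a (C.D2 φ b c d)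
        + ∑ e, (C.A a c e * C.D2 φ b e d + C.A a d e * C.D2 φ b c e) := rfl
    rw [L2_eq, L2_apply, Calc.D3, e]
    simp only [Finset.sum_add_distrib]
    ring
  have h3 := congrFun (congrFun (ric2 C a b (Matrix.of φ)) c) d
  have h4 : (Rcm C a b * Matrix.of φ + Matrix.of φ * (Rcm C a b)ᵀ) c d
      = ∑ e, (C.Rc a b c e * φ e d + C.Rc a b d e * φ c e) := by
    simp only [Rcm, Matrix.add_apply, Matrix.mul_apply, of_apply, transpose_apply,
      ← Finset.sum_add_distrib]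
    exact Finset.sum_congr rfl fun e _ => by ring
  rw [h4] at h3
  have h5 : (∑ e, (C.A a b e - C.A b a e) • L2 C e (Matrix.of φ)) c d
      = ∑ e, C.A a b e * C.D2 φ e c d - ∑ e, C.A b a e * C.D2 φ e c d := by
    simp only [Matrix.sum_apply, Matrix.smul_apply, smul_eq_mul, L2_apply, sum_sub_mul]
  rw [Matrix.add_apply, Matrix.sub_apply, h5] at h3
  rw [h2, h2]
  linear_combination h3

theorem Rc_skew1 (a b e f : ι) : C.Rc a b e f = - C.Rc b a e f := by
  simp only [Calc.Rc, Finset.sum_sub_distrib, sum_sub_mul]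
  ring

theorem Rc_skew2 (a b e f : ι) : C.Rc a b e f = - C.Rc a b f e := by
  have h1 : ∀ a b, ∑ g, C.A a f g * C.A b g e = ∑ g, C.A b e g * C.A a g f := by
    intro a b
    refine Finset.sum_congr rfl fun g _ => ?_
    rw [C.A_skew a f g, C.A_skew b g e]
    ring
  have h2 : ∑ c, (C.A a b c - C.A b a c) * C.A c f e
      = -∑ c, (C.A a b c - C.A b a c) * C.A c e f := by
    rw [← Finset.sum_neg_distrib]
    refine Finset.sum_congr rfl fun c _ => ?_
    rw [C.A_skew c f e]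
    ring
  simp only [Calc.Rc, Finset.sum_sub_distrib]
  rw [h1 a b, h1 b a, h2, C.A_skew b f e, C.A_skew a f e, map_neg, map_neg]
  ring

theorem D2_Pr : C.D2 C.Pr = 0 := by
  funext a b c
  exact C.par a b c

theorem D2_swap (φ : ι → ι → R) (a b c : ι) : C.D2 (fun x y => φ y x) a b c = C.D2 φ a c b := by
  simp only [Calc.D2]
  congr 1
  exact Finset.sum_congr rfl fun e _ => add_comm _ _

variable {C}

theorem Pr_Rc (ha : C.AlgA) (a b e f : ι) : ∑ g, C.Pr a g * C.Rc g b e f = C.Rc a b e f := by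
  classical
  let u : ι → R := Pi.single f 1
  have h1 : ∀ g, C.Rc g b e f = C.D2 (C.D1 u) g b e - C.D2 (C.D1 u) b g e := by
    intro g
    rw [ricci1]
    simp [u, Pi.single_apply]
  have h2 : mm C.Pr (C.D1 u) = C.D1 u := by
    funext x y
    exact ha.Pr_D1 u x y
  have h3 : ∑ g, C.Pr a g * C.D2 (C.D1 u) b g e = C.D2 (C.D1 u) b a e := by
    have := congrFun (congrFun (ha.D2_mm C.Pr (C.D1 u) b) a) e
    rw [h2, D2_Pr] at this
    simpa [mm] using this.symm
  simp only [h1, mul_sub, Finset.sum_sub_distrib]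
  rw [ha.Pr_D2, h3]

variable (C)

theorem Rc_Pr (a b e f : ι) :
    ∑ g, C.Pr e g * C.Rc a b g f = ∑ g, C.Rc a b e g * C.Pr g f := by
  have h := ricci2 C C.Pr a b e f
  rw [D2_Pr] at h
  have h0 : ∀ a b, C.D3 0 a b e f = 0 := by
    intro a b
    simp [Calc.D3]
  rw [h0, h0, Finset.sum_add_distrib] at h
  have h1 : ∑ g, C.Pr e g * C.Rc a b g f = -∑ g, C.Rc a b f g * C.Pr e g := by
    rw [← Finset.sum_neg_distrib]
    refine Finset.sum_congr rfl fun g _ => ?_
    rw [Rc_skew2 C a b g f]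
    ring
  rw [h1]
  linear_combination h

variable {C}

theorem hess_symm (ha : C.AlgA) (h : R) (a b c : ι) :
    C.D2 (C.D1 (C.d0 h)) a b c = C.D2 (C.D1 (C.d0 h)) a c b := by
  have h1 : (fun x y => C.D1 (C.d0 h) y x) = C.D1 (C.d0 h) := by
    funext x y
    have := congrFun (congrFun (ha.d1_d0 h) y) x
    exact sub_eq_zero.1 this
  rw [← D2_swap C (C.D1 (C.d0 h)) a b c, h1]

theorem bianchi (ha : C.AlgA) (u : ι → R) (hu : C.Hor1 u) (a b c : ι) :
    ∑ f, (C.Rc a b c f + C.Rc b c a f + C.Rc c a b f) * u f = 0 := by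
  have h1 := C.faith (fun f => C.Rc a b c f + C.Rc b c a f + C.Rc c a b f) (by
    intro h
    have e1 := ricci1 C (C.d0 h) a b c
    have e2 := ricci1 C (C.d0 h) b c a
    have e3 := ricci1 C (C.d0 h) c a b
    have s1 := hess_symm ha h a b c
    have s2 := hess_symm ha h b a c
    have s3 := hess_symm ha h c b a
    simp only [Calc.d0] at e1 e2 e3 s1 s2 s3
    simp only [add_mul, Finset.sum_add_distrib]
    linear_combination s1 - s2 - s3 - e1 - e2 - e3)
  calc ∑ f, (C.Rc a b c f + C.Rc b c a f + C.Rc c a b f) * u f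
      = ∑ f, ∑ g, C.Pr g f * (C.Rc a b c f + C.Rc b c a f + C.Rc c a b f) * u g := by
        refine Finset.sum_congr rfl fun f _ => ?_
        rw [← hu f, Finset.mul_sum]
        refine Finset.sum_congr rfl fun g _ => ?_
        rw [C.Pr_symm g f]
        ring
    _ = 0 := by
        rw [Finset.sum_comm]
        refine Finset.sum_eq_zero fun g _ => ?_
        rw [← Finset.sum_mul, h1 g, zero_mul]

theorem d2_d1 (ha : C.AlgA) (u : ι → R) (hu : C.Hor1 u) : C.d2 (C.d1 u) = 0 := by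
  have h1 : ∀ a b c, C.D2 (C.d1 u) a b c = C.D2 (C.D1 u) a b c - C.D2 (C.D1 u) a c b := by
    intro a b c
    have : C.d1 u = C.D1 u - fun x y => C.D1 u y x := rfl
    rw [this, ha.D2_sub, ← D2_swap C (C.D1 u) a b c]
    rfl
  funext a b c
  have e1 := ricci1 C u a b c
  have e2 := ricci1 C u b c a
  have e3 := ricci1 C u c a b
  have hb := bianchi ha u hu a b c
  simp only [add_mul, Finset.sum_add_distrib] at hb
  simp only [Calc.d2, h1, Pi.zero_apply]
  linear_combination e1 + e2 + e3 + hb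

theorem Gam_sum (w : ι → R) (hw : C.Hor1 w) (a b : ι) :
    ∑ e, C.Gam a b e * w e = -∑ e, C.A a b e * w e := by
  simp only [Calc.Gam, neg_mul, Finset.sum_neg_distrib, Finset.sum_mul]
  rw [Finset.sum_comm]
  congr 1
  refine Finset.sum_congr rfl fun g _ => ?_
  rw [← hw g, Finset.mul_sum]
  exact Finset.sum_congr rfl fun e _ => mul_assoc _ _ _

theorem Rm_eq (ha : C.AlgA) (a b c d : ι) :
    C.Rm a b c d = C.Y a (C.Gam b c d) - C.Y b (C.Gam a c d)
      - ∑ e, C.Gam a d e * C.Gam b c e + ∑ e, C.Gam b d e * C.Gam a c e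
      - ∑ e, (C.Gam a b e - C.Gam b a e) * C.Gam e c d := by
  have h1 : C.D1 (fun f => C.Pr f c) = fun x y => C.Gam x c y := by
    funext x y
    have := C.par x y c
    rw [Finset.sum_add_distrib] at this
    have h2 : ∑ e, C.A x c e * C.Pr y e = ∑ e, C.A x c e * C.Pr e y :=
      Finset.sum_congr rfl fun e _ => by rw [C.Pr_symm y e]
    simp only [Calc.D1, Calc.Gam]
    linear_combination this - h2
  have h3 := ricci1 C (fun f => C.Pr f c) a b d
  rw [h1] at h3
  have hor3 : ∀ x, C.Hor1 (C.Gam x c) := by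
    intro x g
    rw [← ha.Gam_hor3 x c g]
    refine Finset.sum_congr rfl fun e _ => ?_
    rw [C.Pr_symm g e, mul_comm]
  have hor1 : C.Hor1 fun e => C.Gam e c d := fun g => ha.Gam_hor1 g c d
  have g1 := Gam_sum _ (hor3 b) a d
  have g2 := Gam_sum _ (hor3 a) b d
  have g3 := Gam_sum _ hor1 a b
  have g4 := Gam_sum _ hor1 b a
  simp only [Calc.D2, Finset.sum_add_distrib] at h3
  rw [sum_sub_mul, g1, g2, g3, g4, Calc.Rm]
  linear_combination -h3

variable (C)

theorem Rm_skew1 (a b c d : ι) : C.Rm a b c d = - C.Rm b a c d := by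
  simp only [Calc.Rm]
  rw [← Finset.sum_neg_distrib]
  refine Finset.sum_congr rfl fun f _ => ?_
  rw [Rc_skew1 C a b d f]
  ring

theorem Rm_skew2 (a b c d : ι) : C.Rm a b c d = - C.Rm a b d c := by
  simp only [Calc.Rm]
  rw [← Rc_Pr, ← Finset.sum_neg_distrib]
  refine Finset.sum_congr rfl fun f _ => ?_
  rw [Rc_skew2 C a b f c, C.Pr_symm d f]
  ring

variable {C}

theorem Rm_bianchi (ha : C.AlgA) (a b c d : ι) :
    C.Rm a b c d + C.Rm b c a d + C.Rm c a b d = 0 := by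
  have h := bianchi ha (fun f => C.Pr f d) (fun g => C.Pr_idem g d) a b c
  simp only [add_mul, Finset.sum_add_distrib] at h
  rw [Rm_skew2 C a b c d, Rm_skew2 C b c a d, Rm_skew2 C c a b d]
  simp only [Calc.Rm]
  linear_combination -h

theorem Rm_pair (ha : C.AlgA) (a b c d : ι) : C.Rm a b c d = C.Rm c d a b := by
  have h2 : ∀ x : R, x + x = 0 → x = 0 := by
    intro x hx
    have : x = (1 / 2 : ℝ) • (x + x) := by
      rw [← two_smul ℝ x, smul_smul]
      norm_num
    rw [this, hx, smul_zero]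
  rw [← sub_eq_zero]
  apply h2
  have b1 := Rm_bianchi ha b c a d
  have b2 := Rm_bianchi ha c a d b
  have b3 := Rm_bianchi ha a d b c
  have b4 := Rm_bianchi ha d b c a
  have s1 := Rm_skew2 C b c a d
  have s2 := Rm_skew2 C c a b d
  have s3 := Rm_skew2 C a d c b
  have s4 := Rm_skew2 C d b a c
  have t1 := Rm_skew1 C b a d c
  have t2 := Rm_skew2 C a b d c
  have t3 := Rm_skew1 C d c a b
  have t4 := Rm_skew2 C c d b a
  linear_combination b1 + b2 + b3 + b4 - s1 - s2 - s3 - s4 - t1 + t2 - t3 - t4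

theorem Rm_hor (ha : C.AlgA) (a b c d : ι) : ∑ e, C.Pr a e * C.Rm e b c d = C.Rm a b c d := by
  simp only [Calc.Rm, Finset.mul_sum]
  rw [Finset.sum_comm]
  refine Finset.sum_congr rfl fun f _ => ?_
  rw [← Pr_Rc ha a b d f, Finset.sum_mul]
  exact Finset.sum_congr rfl fun e _ => (mul_assoc _ _ _).symm

theorem trace_D2 (φ : ι → ι → R) (b : ι) : ∑ a, C.D2 φ b a a = C.Y b (∑ a, φ a a) := by
  have h : ∑ a, ∑ e, C.A b a e * φ a e = -∑ a, ∑ e, C.A b a e * φ e a := by
    rw [Finset.sum_comm, ← Finset.sum_neg_distrib]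
    refine Finset.sum_congr rfl fun a _ => ?_
    rw [← Finset.sum_neg_distrib]
    refine Finset.sum_congr rfl fun e _ => ?_
    rw [C.A_skew b e a]
    ring
  simp only [Calc.D2, Finset.sum_add_distrib, map_sum]
  rw [h]
  ring

theorem bochner (ha : C.AlgA) (f : R) : - C.cd1 (C.d0 (ip1 (C.d0 f) (C.d0 f))) =
    2 * ip2 (C.D1 (C.d0 f)) (C.D1 (C.d0 f)) - 2 * ip1 (C.d0 f) (C.d0 (C.cd1 (C.d0 f)))
      + 2 * C.Ric (C.d0 f) (C.d0 f) := by
  have hs := hess_symm ha f
  generalize C.d0 f = θ at hs ⊢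
  have h1 : C.d0 (ip1 θ θ) = mv (C.D1 θ) θ + mv (C.D1 θ) θ := by
    funext b
    rw [Calc.d0, ha.Y_ip1]
    simp only [Pi.add_apply, ip1, mv]
    congr 1
    exact Finset.sum_congr rfl fun e _ => mul_comm _ _
  have h2 : ∑ a, C.D1 (mv (C.D1 θ) θ) a a
      = ∑ a, ∑ b, C.D2 (C.D1 θ) a a b * θ b + ip2 (C.D1 θ) (C.D1 θ) := by
    simp only [ha.D1_mv, Pi.add_apply, mv, ip2, Finset.sum_add_distrib]
  have h3 : ∀ a b, C.D2 (C.D1 θ) a a b * θ b
      = C.D2 (C.D1 θ) b a a * θ b + ∑ e, C.Rc a b a e * θ b * θ e := by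
    intro a b
    have e1 := ricci1 C θ a b a
    have e2 : ∑ e, C.Rc a b a e * θ b * θ e = (∑ e, C.Rc a b a e * θ e) * θ b := by
      rw [Finset.sum_mul]
      exact Finset.sum_congr rfl fun e _ => by ring
    rw [hs a a b, e2]
    linear_combination θ b * e1
  have h4 : ∑ a, ∑ b, C.D2 (C.D1 θ) b a a * θ b = -ip1 θ (C.d0 (C.cd1 θ)) := by
    rw [Finset.sum_comm, ip1, ← Finset.sum_neg_distrib]
    refine Finset.sum_congr rfl fun b _ => ?_
    rw [← Finset.sum_mul, trace_D2, Calc.d0, Calc.cd1, map_neg]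
    ring
  have h5 : ∑ a, ∑ b, C.D2 (C.D1 θ) a a b * θ b = -ip1 θ (C.d0 (C.cd1 θ)) + C.Ric θ θ := by
    simp only [h3, Finset.sum_add_distrib]
    rw [h4, Calc.Ric]
  have h6 : - C.cd1 (C.d0 (ip1 θ θ))
      = ∑ a, C.D1 (mv (C.D1 θ) θ) a a + ∑ a, C.D1 (mv (C.D1 θ) θ) a a := by
    rw [h1, Calc.cd1, neg_neg, ha.D1_add, ← Finset.sum_add_distrib]
    rfl
  rw [h6, h2, h5]
  ring

end AlgRP

theorem algR (ha : C.AlgA) : C.AlgR where
  ricci1 := AlgRP.ricci1 C
  ricci2 := AlgRP.ricci2 C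
  Rc_skew1 := AlgRP.Rc_skew1 C
  Rc_skew2 := AlgRP.Rc_skew2 C
  Pr_Rc := AlgRP.Pr_Rc ha
  Rc_Pr := AlgRP.Rc_Pr C
  bianchi := AlgRP.bianchi ha
  d2_d1 := AlgRP.d2_d1 ha
  Rm_eq := AlgRP.Rm_eq ha
  Rm_skew1 := AlgRP.Rm_skew1 C
  Rm_skew2 := AlgRP.Rm_skew2 C
  Rm_pair := AlgRP.Rm_pair ha
  Rm_hor := AlgRP.Rm_hor ha
  bochner := AlgRP.bochner ha

end Pool.Agent.P.MP_713680_gt
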