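import Pool.Agent.P.MP_713680_gt.GeoSt

/-! MP_713680_gt: the Green operator on 1-forms and the harmonic self-dual forms. -/

set_option linter.unusedSectionVars false

noncomputable section

namespace Pool.Agent.P.MP_713680_gt

open Finset

namespace GreenP

variable {P R ι : Type} [CommRing R] [Algebra ℝ R] [Fintype ι]

theorem ip1_comm (u v : ι → R) : ip1 u v = ip1 v u := by
  simp only [ip1, mul_comm]

theorem ip2_comm (φ χ : ι → ι → R) : ip2 φ χ = ip2 χ φ := by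
  simp only [ip2, mul_comm]

theorem ip1_add (u v w : ι → R) : ip1 (u + v) w = ip1 u w + ip1 v w := by
  simp only [ip1, Pi.add_apply, add_mul, sum_add_distrib]

theorem ip1_sub (u v w : ι → R) : ip1 (u - v) w = ip1 u w - ip1 v w := by
  simp only [ip1, Pi.sub_apply, sub_mul, sum_sub_distrib]

theorem ip1_smul (c : ℝ) (u w : ι → R) : ip1 (c • u) w = c • ip1 u w := by
  simp only [ip1, Pi.smul_apply, smul_mul_assoc, smul_sum]

theorem ip2_add (φ χ ψ : ι → ι → R) : ip2 (φ + χ) ψ = ip2 φ ψ + ip2 χ ψ := by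
  simp only [ip2, Pi.add_apply, add_mul, sum_add_distrib]

theorem ip2_smul (c : ℝ) (φ ψ : ι → ι → R) : ip2 (c • φ) ψ = c • ip2 φ ψ := by
  simp only [ip2, Pi.smul_apply, smul_mul_assoc, smul_sum]

theorem ip2_add' (φ χ ψ : ι → ι → R) : ip2 ψ (φ + χ) = ip2 ψ φ + ip2 ψ χ := by
  rw [ip2_comm, ip2_add, ip2_comm φ, ip2_comm χ]

theorem ip2_smul' (c : ℝ) (φ ψ : ι → ι → R) : ip2 ψ (c • φ) = c • ip2 ψ φ := by
  rw [ip2_comm, ip2_smul, ip2_comm φ]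

theorem ip1_zero (u : ι → R) : ip1 u 0 = 0 := by simp [ip1]

theorem ip2_zero (φ : ι → ι → R) : ip2 0 φ = 0 := by simp [ip2]

variable (C : Calc P R ι) (I : R →ₗ[ℝ] ℝ) (vol : ι → ι → ι → ι → R)

theorem ip1_Pr (u v : ι → R) : ip1 (mv C.Pr u) v = ip1 u (mv C.Pr v) := by
  simp only [ip1, mv, sum_mul, mul_sum]
  rw [sum_comm]
  exact sum_congr rfl fun a _ => sum_congr rfl fun b _ => by rw [C.Pr_symm b a]; ring

theorem Pr_Pr (u : ι → R) : mv C.Pr (mv C.Pr u) = mv C.Pr u := by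
  funext a
  simp only [mv, mul_sum]
  rw [sum_comm]
  exact sum_congr rfl fun c _ => by rw [← C.Pr_idem a c, sum_mul]; simp only [mul_assoc]

theorem Pr_hor {u : ι → R} (h : C.Hor1 u) : mv C.Pr u = u := funext h

/-- orthogonal splitting of the pairing -/
theorem ip1_split (u v : ι → R) : ip1 u v =
    ip1 (mv C.Pr u) (mv C.Pr v) + ip1 (u - mv C.Pr u) (v - mv C.Pr v) := by
  rw [ip1_sub, ip1_comm u (v - _), ip1_comm (mv C.Pr u) (v - _), ip1_sub, ip1_sub,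
    ip1_comm v u, ip1_comm (mv C.Pr v) u, ip1_comm v, ip1_comm (mv C.Pr v), ip1_Pr C u (mv _ v),
    Pr_Pr, ip1_Pr C u v]
  ring

/-- the energy -/
def E (u v : ι → R) : ℝ :=
  (1 / 2) * I (ip2 (C.d1 (mv C.Pr u)) (C.d1 (mv C.Pr v))) +
    I (C.cd1 (mv C.Pr u) * C.cd1 (mv C.Pr v)) +
    I (ip2 (C.D1 (u - mv C.Pr u)) (C.D1 (v - mv C.Pr v))) + I (ip1 (u - mv C.Pr u) (v - mv C.Pr v))

/-- the projected Ricci matrix -/
def RM (i j : ι) : R := ∑ a, ∑ b, ∑ f, C.Rc a b a f * C.Pr b i * C.Pr f j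

theorem RM_eq (u v : ι → R) :
    ∑ i, ∑ j, RM C i j * u j * v i = C.Ric (mv C.Pr v) (mv C.Pr u) := by
  have h : ∀ a b f, C.Rc a b a f * mv C.Pr v b * mv C.Pr u f =
      ∑ i, ∑ j, C.Rc a b a f * C.Pr b i * C.Pr f j * u j * v i := fun a b f => by
    simp only [mv, mul_assoc]
    rw [sum_mul_sum, mul_sum]
    refine sum_congr rfl fun i _ => ?_
    rw [mul_sum]
    exact sum_congr rfl fun j _ => by ring
  simp only [RM, Calc.Ric, h, sum_mul]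
  calc ∑ i, ∑ j, ∑ a, ∑ b, ∑ f, C.Rc a b a f * C.Pr b i * C.Pr f j * u j * v i
      = ∑ x : ι × ι, ∑ z : ι × ι × ι, C.Rc z.1 z.2.1 z.1 z.2.2 * C.Pr z.2.1 x.1 * C.Pr z.2.2 x.2 *
          u x.2 * v x.1 := by simp only [Fintype.sum_prod_type]
    _ = _ := by rw [sum_comm]; simp only [Fintype.sum_prod_type]

open Classical in
/-- the potential -/
def QQ (t : ℝ) (i j : ι) : R :=
  (1 / 2 : ℝ) • (RM C i j + RM C j i) + (1 + t) • (if i = j then 1 else 0) - C.Pr i j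

theorem QQ_symm (t : ℝ) (i j : ι) : QQ C t i j = QQ C t j i := by
  unfold QQ
  rw [C.Pr_symm i j, add_comm (RM C i j)]
  by_cases h : i = j
  · rw [if_pos h, if_pos h.symm]
  · rw [if_neg h, if_neg (Ne.symm h)]

theorem QQ_eq (t : ℝ) (u v : ι → R) : ∑ i, ∑ j, QQ C t i j * u j * v i =
    (1 / 2 : ℝ) • (C.Ric (mv C.Pr v) (mv C.Pr u) + C.Ric (mv C.Pr u) (mv C.Pr v)) +
      (1 + t) • ip1 u v - ip1 (mv C.Pr u) v := by
  classical
  have h1 : ∑ i, ∑ j, RM C j i * u j * v i = C.Ric (mv C.Pr u) (mv C.Pr v) := by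
    rw [← RM_eq, sum_comm]
    exact sum_congr rfl fun i _ => sum_congr rfl fun j _ => by ring
  have h2 : ∑ i, ∑ j, C.Pr i j * u j * v i = ip1 (mv C.Pr u) v := by
    simp only [ip1, mv, sum_mul]
  have h3 : ∑ i, ∑ j, (if i = j then (1 : R) else 0) * u j * v i = ip1 u v := by
    simp [ip1]
  rw [← RM_eq, ← h1, ← h2, ← h3]
  simp only [QQ, add_mul, sub_mul, smul_mul_assoc, sum_add_distrib, sum_sub_distrib, smul_add,
    smul_sum]

variable {C I vol}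

theorem en_eq (hl : C.Lib I vol) (t : ℝ) (u v : ι → R) :
    C.en I C.A (QQ C t) u v = E C I u v + t * I (ip1 u v) := by
  have h1 : ∑ a, ∑ i, (C.Y a (u i) + ∑ j, C.A a i j * u j) * (C.Y a (v i) + ∑ j, C.A a i j * v j) =
      ip2 (C.D1 (mv C.Pr u)) (C.D1 (mv C.Pr v)) +
        ip2 (C.D1 (u - mv C.Pr u)) (C.D1 (v - mv C.Pr v)) := by
    change ∑ a, ip1 (C.D1 u a) (C.D1 v a) = ∑ a, ip1 (C.D1 (mv C.Pr u) a) (C.D1 (mv C.Pr v) a) +
      ∑ a, ip1 (C.D1 (u - mv C.Pr u) a) (C.D1 (v - mv C.Pr v) a)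
    rw [← sum_add_distrib]
    refine sum_congr rfl fun a _ => ?_
    rw [hl.a.D1_sub, hl.a.D1_sub, Pi.sub_apply, Pi.sub_apply, hl.a.D1_Pr, hl.a.D1_Pr]
    exact ip1_split C _ _
  have h2 := hl.d.boch1 (mv C.Pr u) (mv C.Pr v)
  have h3 := hl.d.boch1 (mv C.Pr v) (mv C.Pr u)
  rw [ip2_comm (C.d1 _), ip2_comm (C.D1 _), mul_comm (C.cd1 _)] at h3
  have h4 := congrArg I (ip1_split C u v)
  have h5 : ip1 (mv C.Pr u) (mv C.Pr v) = ip1 (mv C.Pr u) v := by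
    rw [ip1_Pr, Pr_Pr, ip1_Pr]
  rw [h5] at h4
  rw [Calc.en, h1, QQ_eq, E]
  simp only [map_add, map_sub, map_smul, smul_eq_mul] at h4 ⊢
  linear_combination (-1 / 2) * h2 - (1 / 2) * h3 + h4

theorem E_nonneg (hl : C.Lib I vol) (u : ι → R) : 0 ≤ E C I u u := by
  have := hl.q.nn2 (C.d1 (mv C.Pr u))
  have := hl.q.nn0 (C.cd1 (mv C.Pr u))
  have := hl.q.nn2 (C.D1 (u - mv C.Pr u))
  have := hl.q.nn1 ι (u - mv C.Pr u)
  unfold E; linarith

theorem E_zero (hl : C.Lib I vol) (hg : C.IsGeo I vol) {u : ι → R} (h : E C I u u = 0) :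
    I (ip1 u u) = 0 := by
  have h1 := hl.q.nn2 (C.d1 (mv C.Pr u))
  have h2 := hl.q.nn0 (C.cd1 (mv C.Pr u))
  have h3 := hl.q.nn2 (C.D1 (u - mv C.Pr u))
  have h4 := hl.q.nn1 ι (u - mv C.Pr u)
  unfold E at h
  have e1 : u = mv C.Pr u := sub_eq_zero.1 (hl.q.z1 ι _ (by linarith))
  have e2 : C.d1 (mv C.Pr u) = 0 := hl.q.z2 _ (by linarith)
  have e3 : C.cd1 (mv C.Pr u) = 0 := hl.q.z0 _ (by linarith)
  obtain ⟨f, hf⟩ := hg.t1 _ (hl.a.hor_Pr u) e2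
  have e4 := hl.d.adj0 f (mv C.Pr u)
  rw [e3, mul_zero, map_zero, ← hf, ← e1] at e4
  exact e4

theorem coer (hl : C.Lib I vol) (hg : C.IsGeo I vol) {ξ : ι → R} (h : I (ip1 ξ ξ) ≠ 0) :
    ∃ c : ℝ, 0 < c ∧ ∀ v, c * I (ip1 v v) ≤ E C I v v := by
  obtain ⟨u, l, h1, h2, h3⟩ := hg.solve ι C.A (QQ C 1) 1 1 0 0 (QQ_symm C 1) one_pos
    (fun u => by rw [en_eq hl]; linarith [E_nonneg hl u])
    (fun u => by simpa [Calc.be] using hl.q.nn1 ι u) ⟨ξ, by simpa [Calc.be] using h⟩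
  have e1 : I (ip1 u u) = 1 := by simpa [Calc.be] using h1
  have e2 := h2 u
  rw [h1, en_eq hl, e1] at e2
  have e3 : E C I u u ≠ 0 := fun e => by rw [E_zero hl hg e] at e1; exact zero_ne_one e1
  refine ⟨l - 1, ?_, fun v => ?_⟩
  · have := lt_of_le_of_ne (E_nonneg hl u) e3.symm
    linarith
  · have := h3 v
    rw [en_eq hl] at this
    simp only [Calc.be] at this
    linarith

theorem E_hor (hl : C.Lib I vol) (w : ι → R) {v : ι → R} (hv : C.Hor1 v) :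
    E C I w v = I (ip1 (C.cd2 (C.d1 (mv C.Pr w)) + C.d0 (C.cd1 (mv C.Pr w))) v) := by
  have h0 : C.D1 0 = 0 := by
    have := hl.a.D1_sub 0 0
    rwa [sub_self, sub_self] at this
  rw [E, Pr_hor C hv, sub_self, h0, ip1_zero, ip2_comm _ 0, ip2_zero, ip1_add, map_add,
    hl.d.adj0, ip2_comm, hl.d.adj1 _ _ (hl.a.form_d1 _ (hl.a.hor_Pr w)).1, ip1_comm v, map_zero]
  ring

theorem hor_sub (hl : C.Lib I vol) {u v : ι → R} (hu : C.Hor1 u) (hv : C.Hor1 v) :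
    C.Hor1 (u - v) := by
  have := hl.a.hor_add _ _ hu (hl.a.hor_rsmul (-1) v hv)
  rwa [neg_one_smul, ← sub_eq_add_neg] at this

theorem d0_smul (c : ℝ) (f : R) : C.d0 (c • f) = c • C.d0 f := by
  funext a; simp [Calc.d0]

/-- a coclosed form is orthogonal to the exact forms -/
theorem exact_orth (hl : C.Lib I vol) (u : ι → R) {φ : ι → ι → R} (h : C.Form2 φ)
    (h' : C.cd2 φ = 0) : I (ip2 (C.d1 u) φ) = 0 := by
  rw [hl.d.adj1 u φ h.1, h', ip1_zero, map_zero, mul_zero]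

/-- the harmonic representative of a closed form -/
theorem harm (hl : C.Lib I vol) (h : C.Green) {F : ι → ι → R} (hF : C.Form2 F) :
    ∃ u, C.Hor1 u ∧ C.cd2 (C.d1 u) = C.cd2 F := by
  obtain ⟨u, hu, e⟩ := h _ (hl.a.hor_cd2 F hF)
  have k : ∀ φ, C.Form2 φ → I (ip1 (C.cd2 φ) (C.d0 (C.cd1 u))) = 0 := fun φ hφ => by
    have := hl.d.adj1 (C.d0 (C.cd1 u)) φ hφ.1
    rw [hl.a.d1_d0, ip2_zero, map_zero, ip1_comm] at this
    linarith
  have h1 := k F hF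
  rw [← e, ip1_add, map_add, k _ (hl.a.form_d1 u hu), zero_add] at h1
  rw [hl.q.z1 ι _ h1, add_zero] at e
  exact ⟨u, hu, e⟩

theorem sd_add (hl : C.Lib I vol) {φ χ : ι → ι → R} (h : C.SD vol φ) (h' : C.SD vol χ) :
    C.SD vol (φ + χ) := ⟨hl.a.form_add _ _ h.1 h'.1, by rw [hl.b.star_add, h.2, h'.2]⟩

theorem sd_smul (hl : C.Lib I vol) (c : ℝ) {φ : ι → ι → R} (h : C.SD vol φ) :
    C.SD vol (c • φ) := ⟨hl.a.form_rsmul _ _ h.1, by rw [hl.b.star_rsmul, h.2]⟩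

/-- two independent harmonic self-dual forms -/
theorem two (hl : C.Lib I vol) (hg : C.IsGeo I vol) (h : C.Green) :
    ∃ ψ0 ψ1, C.SD vol ψ0 ∧ C.SD vol ψ1 ∧ C.cd2 ψ0 = 0 ∧ C.cd2 ψ1 = 0 ∧
      ∀ a b : ℝ, a • ψ0 + b • ψ1 = 0 → a = 0 ∧ b = 0 := by
  obtain ⟨F, hF, hp⟩ := hg.t3
  have k : ∀ i, ∃ u, C.Hor1 u ∧ C.cd2 (C.d1 u) = C.cd2 (F i) := fun i => harm hl h (hF i).1
  choose u hu hc using k
  let η : Fin 2 → ι → ι → R := fun i => F i + (-1 : ℝ) • C.d1 (u i)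
  have f1 : ∀ i, C.Form2 (η i) := fun i =>
    hl.a.form_add _ _ (hF i).1 (hl.a.form_rsmul _ _ (hl.a.form_d1 _ (hu i)))
  have f2 : ∀ i, C.d2 (η i) = 0 := fun i => by
    simp only [η, hl.a.d2_add, hl.a.d2_rsmul, (hF i).2, hl.r.d2_d1 _ (hu i), smul_zero, add_zero]
  have f3 : ∀ i, C.cd2 (η i) = 0 := fun i => by
    simp only [η]
    rw [hl.a.cd2_add, hl.a.cd2_rsmul, hc i, neg_one_smul, add_neg_cancel]
  have f4 : ∀ i, C.SD vol (η i + star vol (η i)) := fun i =>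
    ⟨hl.a.form_add _ _ (f1 i) (hl.b.star_form _), by
      rw [hl.b.star_add, hl.b.star_star _ (f1 i), add_comm]⟩
  have f5 : ∀ i, C.cd2 (η i + star vol (η i)) = 0 := fun i => by
    rw [hl.a.cd2_add, f3, hl.c.cd2_star_closed _ (f1 i) (f2 i), add_zero]
  refine ⟨_, _, f4 0, f4 1, f5 0, f5 1, fun a b e => ?_⟩
  by_contra hne
  have h1 := hp ![a, b] fun e => hne ⟨congrFun e 0, congrFun e 1⟩
  simp only [Fin.sum_univ_two, Matrix.cons_val_zero, Matrix.cons_val_one] at h1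
  set G := a • F 0 + b • F 1 with hG
  set H := a • η 0 + b • η 1 with hH
  have g1 : C.Form2 G :=
    hl.a.form_add _ _ (hl.a.form_rsmul _ _ (hF 0).1) (hl.a.form_rsmul _ _ (hF 1).1)
  have g2 : C.d2 G = 0 := by
    simp only [hG, hl.a.d2_add, hl.a.d2_rsmul, (hF _).2, smul_zero, add_zero]
  have g3 : C.Form2 H := hl.a.form_add _ _ (hl.a.form_rsmul _ _ (f1 0)) (hl.a.form_rsmul _ _ (f1 1))
  have g4 : C.d2 H = 0 := by
    simp only [hH, hl.a.d2_add, hl.a.d2_rsmul, f2, smul_zero, add_zero]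
  have g5 : G = H + C.d1 (a • u 0 + b • u 1) := by
    simp only [hG, hH, η, hl.a.d1_add, hl.a.d1_rsmul]; module
  have g6 : star vol H = (-1 : ℝ) • H := by
    have : H + star vol H = 0 := by
      rw [← e, hH, hl.b.star_add, hl.b.star_rsmul, hl.b.star_rsmul]; module
    rw [neg_one_smul]; exact eq_neg_of_add_eq_zero_right this
  have g7 : I (ip2 G (star vol G)) = I (ip2 H (star vol H)) := by
    have a1 := exact_orth hl (a • u 0 + b • u 1) (hl.b.star_form G) (hl.c.cd2_star_closed _ g1 g2)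
    have a2 := exact_orth hl (a • u 0 + b • u 1) (hl.b.star_form H) (hl.c.cd2_star_closed _ g3 g4)
    have a3 : I (ip2 G (star vol G)) = I (ip2 H (star vol G)) := by
      nth_rewrite 1 [g5]; rw [ip2_add, map_add, a1, add_zero]
    have a4 : I (ip2 G (star vol H)) = I (ip2 H (star vol H)) := by
      nth_rewrite 1 [g5]; rw [ip2_add, map_add, a2, add_zero]
    rw [a3, ← a4, ← hl.b.star_symm, ip2_comm]
  rw [g7, g6, ip2_smul', map_smul, smul_eq_mul] at h1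
  linarith [hl.q.nn2 H]

theorem normalise (hl : C.Lib I vol) {φ : ι → ι → R} (h : φ ≠ 0) :
    ∃ c : ℝ, c ≠ 0 ∧ I (ip2 (c • φ) (c • φ)) = 1 := by
  have h1 : 0 < I (ip2 φ φ) := lt_of_le_of_ne (hl.q.nn2 φ) fun e => h (hl.q.z2 φ e.symm)
  have h2 := Real.sqrt_pos.2 h1
  refine ⟨(√(I (ip2 φ φ)))⁻¹, inv_ne_zero h2.ne', ?_⟩
  rw [ip2_smul, ip2_smul', map_smul, map_smul, smul_eq_mul, smul_eq_mul]
  have h3 := Real.mul_self_sqrt h1.le
  field_simp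
  linarith

end GreenP

open GreenP

variable {P R ι : Type} [CommRing R] [Algebra ℝ R] [Fintype ι] (C : Calc P R ι) (I : R →ₗ[ℝ] ℝ)
  (vol : ι → ι → ι → ι → R)

theorem green (hl : C.Lib I vol) (hg : C.IsGeo I vol) : C.Green := by
  intro ξ hξ
  by_cases h : I (ip1 ξ ξ) = 0
  · refine ⟨(0 : ℝ) • ξ, hl.a.hor_rsmul _ _ hξ, ?_⟩
    rw [hl.a.d1_rsmul, hl.a.cd2_rsmul, hl.a.cd1_rsmul, d0_smul, zero_smul, zero_smul, add_zero,
      hl.q.z1 ι ξ h]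
  obtain ⟨c, hc, hco⟩ := coer hl hg h
  obtain ⟨w, l, h1, h2, -⟩ := hg.solve ι C.A (QQ C 0) c 0 1 ξ (QQ_symm C 0) hc
    (fun u => by rw [en_eq hl]; linarith [hco u])
    (fun u => by simpa [Calc.be] using mul_self_nonneg _) ⟨ξ, by simpa [Calc.be] using h⟩
  have e1 : I (ip1 ξ w) * I (ip1 ξ w) = 1 := by simpa [Calc.be] using h1
  have e2 : ∀ v, E C I w v = l * (I (ip1 ξ w) * I (ip1 ξ v)) := fun v => by
    have := h2 v
    rw [en_eq hl] at this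
    simpa [Calc.be] using this
  have e3 : l ≠ 0 := fun e => by
    have a1 := e2 w
    rw [e, zero_mul] at a1
    rw [hl.q.z1 ι w (E_zero hl hg a1), ip1_zero, map_zero, zero_mul] at e1
    exact zero_ne_one e1
  have hw := hl.a.hor_Pr w
  refine ⟨(I (ip1 ξ w) / l) • mv C.Pr w, hl.a.hor_rsmul _ _ hw, ?_⟩
  rw [hl.a.d1_rsmul, hl.a.cd2_rsmul, hl.a.cd1_rsmul, d0_smul, ← smul_add]
  have hv := hor_sub hl (hl.a.hor_rsmul (I (ip1 ξ w) / l) _ (hl.a.hor_add _ _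
    (hl.a.hor_cd2 _ (hl.a.form_d1 _ hw)) (hl.a.hor_d0 (C.cd1 (mv C.Pr w))))) hξ
  refine sub_eq_zero.1 (hl.q.z1 ι _ ?_)
  rw [ip1_sub, ip1_smul, map_sub, map_smul, ← E_hor hl w hv, e2, smul_eq_mul]
  generalize I (ip1 ξ ((I (ip1 ξ w) / l) • _ - ξ)) = z
  field_simp
  linear_combination z * e1

theorem hplus (hl : C.Lib I vol) (hg : C.IsGeo I vol) (h : C.Green) : ∃ ω, C.HBasis I vol ω := by
  obtain ⟨ψ0, ψ1, s0, s1, c0, c1, ind⟩ := two hl hg h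
  obtain ⟨a, ha, n0⟩ := normalise hl (φ := ψ0) fun e =>
    one_ne_zero (ind 1 0 (by rw [e, smul_zero, zero_smul, add_zero])).1
  set t := I (ip2 ψ1 (a • ψ0)) with ht
  obtain ⟨b, hb, n1⟩ := normalise hl (φ := ψ1 + (-t) • a • ψ0) fun e =>
    one_ne_zero (ind (-t * a) 1 (by rw [← e]; module)).2
  set ω0 := a • ψ0 with h0
  set ω1 := b • (ψ1 + (-t) • ω0) with h1
  have s2 : C.SD vol ω0 := sd_smul hl _ s0
  have s3 : C.SD vol ω1 := sd_smul hl _ (sd_add hl s1 (sd_smul hl _ s2))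
  have c2 : C.cd2 ω0 = 0 := by rw [h0, hl.a.cd2_rsmul, c0, smul_zero]
  have c3 : C.cd2 ω1 = 0 := by
    rw [h1, hl.a.cd2_rsmul, hl.a.cd2_add, hl.a.cd2_rsmul, c1, c2, smul_zero, add_zero, smul_zero]
  have o1 : I (ip2 ω1 ω0) = 0 := by
    rw [h1, ip2_smul, ip2_add, ip2_smul, map_smul, map_add, map_smul, n0, ← ht]; simp
  have o0 : I (ip2 ω0 ω1) = 0 := by rw [ip2_comm, o1]
  refine ⟨![ω0, ω1], ⟨fun i => ?_, fun i => ?_, fun i j => ?_, fun φ hφ hc ho => ?_⟩⟩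
  · fin_cases i; exacts [s2, s3]
  · fin_cases i; exacts [c2, c3]
  · fin_cases i <;> fin_cases j <;> simp [n0, n1, o0, o1]
  have p0 : I (ip2 φ ω0) = 0 := ho 0
  have p1 : I (ip2 φ ω1) = 0 := ho 1
  obtain ⟨c, hc0, u, -, e⟩ := hg.t2 ![ω0, ω1, φ] fun i => by
    fin_cases i
    exacts [⟨s2.1, hl.c.sd_closed _ s2 c2⟩, ⟨s3.1, hl.c.sd_closed _ s3 c3⟩,
      ⟨hφ.1, hl.c.sd_closed _ hφ hc⟩]
  have e' : c 0 • ω0 + c 1 • ω1 + c 2 • φ = C.d1 u := by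
    rw [← e, Fin.sum_univ_three]; rfl
  have q0 := exact_orth hl u s2.1 c2
  have q1 := exact_orth hl u s3.1 c3
  have q2 := exact_orth hl u hφ.1 hc
  rw [← e'] at q0 q1 q2
  simp only [ip2_add, ip2_smul, map_add, map_smul, smul_eq_mul, n0, n1, o0, o1, p0, p1,
    ip2_comm ω0 φ, ip2_comm ω1 φ, mul_zero, mul_one, add_zero, zero_add] at q0 q1 q2
  refine hl.q.z2 φ ((mul_eq_zero.1 q2).resolve_left fun q => hc0 ?_)
  funext i
  fin_cases i
  exacts [q0, q1, q]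

end Pool.Agent.P.MP_713680_gt
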