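import Pool.Agent.P.MP_713680_gt.GeoSt

/-!
MP_713680_gt, package G5: elementary inequalities and the curvature terms.
-/

noncomputable section

namespace Pool.Agent.P.MP_713680_gt

open Finset

namespace IneqP

section RealPart

variable {ι : Type} [Fintype ι]

theorem cs_real (f g : ι → ℝ) :
    (∑ a, f a * g a) * (∑ a, f a * g a) ≤ (∑ a, f a * f a) * ∑ a, g a * g a := by
  have := sum_mul_sq_le_sq_mul_sq univ f g
  simpa only [sq] using this

theorem p_sq {p : ι → ι → ℝ} (hs : ∀ a b, p a b = p b a)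
    (hi : ∀ a c, ∑ b, p a b * p b c = p a c) (ht : ∑ a, p a a = 4) :
    ∑ a, ∑ b, p a b * p a b = 4 := by
  rw [← ht]
  refine sum_congr rfl fun a _ => ?_
  rw [← hi a a]
  exact sum_congr rfl fun b _ => by rw [hs b a]

theorem tr_le {p D : ι → ι → ℝ} (hp : ∑ a, ∑ b, p a b * p a b = 4)
    (h : ∀ a b, ∑ e, p a e * D e b = D a b) :
    (∑ a, D a a) * (∑ a, D a a) ≤ 4 * ∑ a, ∑ b, D a b * D a b := by
  have h1 := cs_real (fun z : ι × ι => p z.1 z.2) (fun z : ι × ι => D z.2 z.1)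
  simp only [Fintype.sum_prod_type, h, hp] at h1
  rwa [sum_comm (f := fun a b => D b a * D b a)] at h1

theorem skewL {T : ι → ι → ℝ} (η : ι → ι → ℝ) (h : ∀ a b, T a b = -T b a) :
    ∑ a, ∑ b, T a b * (η a b - η b a) = 2 * ∑ a, ∑ b, T a b * η a b := by
  have : ∑ a, ∑ b, T a b * η b a = -∑ a, ∑ b, T a b * η a b := by
    rw [sum_comm, ← sum_neg_distrib]
    refine sum_congr rfl fun a _ => ?_
    rw [← sum_neg_distrib]
    exact sum_congr rfl fun b _ => by rw [h b a]; ring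
  simp only [mul_sub, sum_sub_distrib, this]
  ring

theorem skew4 {r : ι → ι → ι → ι → ℝ} (h1 : ∀ a b e f, r a b e f = -r b a e f)
    (h2 : ∀ a b e f, r a b e f = -r a b f e) (η : ι → ι → ℝ) :
    ∑ a, ∑ b, ∑ e, ∑ f, r a b e f * (η a b - η b a) * (η e f - η f e) =
      4 * ∑ a, ∑ b, ∑ e, ∑ f, r a b e f * (η a b * η e f) := by
  have e1 : ∀ a b, ∑ e, ∑ f, r a b e f * (η a b - η b a) * (η e f - η f e) =
      (2 * ∑ e, ∑ f, r a b e f * η e f) * (η a b - η b a) := fun a b => by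
    rw [← skewL η (h2 a b), sum_mul]
    refine sum_congr rfl fun e _ => ?_
    rw [sum_mul]
    exact sum_congr rfl fun f _ => by ring
  simp only [e1]
  rw [skewL (T := fun a b => 2 * ∑ e, ∑ f, r a b e f * η e f) η fun a b => ?_]
  · simp only [mul_sum, sum_mul]
    refine sum_congr rfl fun a _ => sum_congr rfl fun b _ => sum_congr rfl fun e _ =>
      sum_congr rfl fun f _ => by ring
  · rw [← mul_neg, ← sum_neg_distrib]
    refine congrArg _ (sum_congr rfl fun e _ => ?_)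
    rw [← sum_neg_distrib]
    exact sum_congr rfl fun f _ => by rw [h1 a b]; ring

theorem sq_skew (η : ι → ι → ℝ) :
    ∑ a, ∑ b, (η a b - η b a) * (η a b - η b a) ≤ 4 * ∑ a, ∑ b, η a b * η a b := by
  have h : ∑ a, ∑ b, (η a b - η b a) * (η a b - η b a) ≤
      ∑ a, ∑ b, (2 * (η a b * η a b) + 2 * (η b a * η b a)) :=
    sum_le_sum fun a _ => sum_le_sum fun b _ => by nlinarith [sq_nonneg (η a b + η b a)]
  simp only [sum_add_distrib, ← mul_sum] at h
  rw [sum_comm (f := fun a b => η b a * η b a)] at h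
  linarith

theorem comm5 {κ : Type} [Fintype κ] (T : κ → ι → ι → ι → ι → ℝ) :
    ∑ k, ∑ a, ∑ b, ∑ e, ∑ f, T k a b e f = ∑ a, ∑ b, ∑ e, ∑ f, ∑ k, T k a b e f := by
  rw [sum_comm]
  refine sum_congr rfl fun a _ => ?_
  rw [sum_comm]
  refine sum_congr rfl fun b _ => ?_
  rw [sum_comm]
  exact sum_congr rfl fun e _ => sum_comm

/-- the curvature bound summed over a family of skew horizontal matrices -/
theorem fam {κ : Type} [Fintype κ] {p : ι → ι → ℝ} {r : ι → ι → ι → ι → ℝ} {ε : ℝ}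
    (h1 : ∀ a b e f, r a b e f = -r b a e f) (h2 : ∀ a b e f, r a b e f = -r a b f e)
    (hc : ∀ ω : ι → ι → ℝ, (∀ a b, ω a b = -ω b a) → (∀ a c, ∑ b, p a b * ω b c = ω a c) →
      -(2 * ε) * ∑ a, ∑ b, ω a b ^ 2 ≤ ∑ a, ∑ b, ∑ e, ∑ f, r a b e f * ω a b * ω e f)
    (η : κ → ι → ι → ℝ) (hl : ∀ k a c, ∑ b, p a b * η k b c = η k a c)
    (hr : ∀ k a c, ∑ b, p a b * η k c b = η k c a) :
    -(2 * ε) * ∑ k, ∑ a, ∑ b, (η k a b - η k b a) * (η k a b - η k b a) ≤
      4 * ∑ a, ∑ b, ∑ e, ∑ f, r a b e f * ∑ k, η k a b * η k e f := by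
  have h := sum_le_sum fun k (_ : k ∈ univ) => hc (fun a b => η k a b - η k b a)
    (fun a b => by ring) fun a c => by simp only [mul_sub, sum_sub_distrib, hl, hr]
  simp only [skew4 h1 h2, sq, ← mul_sum] at h
  rw [comm5] at h
  simpa only [mul_sum] using h

theorem contr {p : ι → ι → ℝ} {r : ι → ι → ι → ι → ℝ} (hs : ∀ a b, p a b = p b a)
    (h3 : ∀ a b e f, ∑ g, p a g * r g b e f = r a b e f) (Q : ι → ι → ℝ) :
    ∑ a, ∑ b, ∑ e, ∑ f, r a b e f * (p a e * Q b f) = ∑ a, ∑ b, ∑ f, r a b a f * Q b f := by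
  rw [sum_comm, sum_comm (f := fun a b => ∑ f, r a b a f * Q b f)]
  refine sum_congr rfl fun b _ => ?_
  rw [sum_comm]
  refine sum_congr rfl fun e _ => ?_
  rw [sum_comm]
  refine sum_congr rfl fun f _ => ?_
  rw [← h3 e b e f, sum_mul]
  exact sum_congr rfl fun a _ => by rw [hs e a]; ring

theorem ric_real {p : ι → ι → ℝ} {r : ι → ι → ι → ι → ℝ} {ε : ℝ} (hs : ∀ a b, p a b = p b a)
    (hi : ∀ a c, ∑ b, p a b * p b c = p a c) (ht : ∑ a, p a a = 4)
    (h1 : ∀ a b e f, r a b e f = -r b a e f) (h2 : ∀ a b e f, r a b e f = -r a b f e)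
    (h3 : ∀ a b e f, ∑ g, p a g * r g b e f = r a b e f)
    (hc : ∀ ω : ι → ι → ℝ, (∀ a b, ω a b = -ω b a) → (∀ a c, ∑ b, p a b * ω b c = ω a c) →
      -(2 * ε) * ∑ a, ∑ b, ω a b ^ 2 ≤ ∑ a, ∑ b, ∑ e, ∑ f, r a b e f * ω a b * ω e f)
    {u : ι → ℝ} (hu : ∀ a, ∑ b, p a b * u b = u a) :
    -(3 * ε) * ∑ a, u a * u a ≤ ∑ a, ∑ b, ∑ f, r a b a f * u b * u f := by
  have h := fam h1 h2 hc (fun k a b => p a k * u b)
    (fun k a c => by simp only [← mul_assoc, ← sum_mul, hi])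
    (fun k a c => by simp only [mul_left_comm (p a _), ← mul_sum, hu])
  have e1 : ∀ a b e f, ∑ k, p a k * u b * (p e k * u f) = p a e * (u b * u f) := fun a b e f => by
    rw [← hi a e, sum_mul]
    exact sum_congr rfl fun k _ => by rw [hs e k]; ring
  have e2 : ∑ k, ∑ a, ∑ b, (p a k * u b - p b k * u a) * (p a k * u b - p b k * u a) =
      6 * ∑ a, u a * u a := by
    have e3 : ∀ a b, ∑ k, (p a k * u b - p b k * u a) * (p a k * u b - p b k * u a) =
        p a a * (u b * u b) + p b b * (u a * u a) - 2 * (u a * (p a b * u b)) := fun a b => by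
      rw [← e1 a b a b, ← e1 b a b a, show u a * (p a b * u b) = p a b * (u b * u a) by ring,
        ← e1 a b b a, mul_sum, ← sum_add_distrib, ← sum_sub_distrib]
      exact sum_congr rfl fun k _ => by ring
    rw [sum_comm]
    simp only [sum_comm (γ := ι) (f := fun k b => (p _ k * u b - p b k * u _) *
      (p _ k * u b - p b k * u _)), e3, sum_sub_distrib, sum_add_distrib, ← mul_sum, ← sum_mul,
      hu, ht]
    ring
  simp only [e1] at h
  rw [e2, contr hs h3 fun b f => u b * u f] at h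
  simp only [mul_assoc]
  linarith

theorem wq_real {p : ι → ι → ℝ} {r : ι → ι → ι → ι → ℝ} {ε : ℝ} (h0 : 0 ≤ ε)
    (hs : ∀ a b, p a b = p b a)
    (hi : ∀ a c, ∑ b, p a b * p b c = p a c) (ht : ∑ a, p a a = 4)
    (h1 : ∀ a b e f, r a b e f = -r b a e f) (h2 : ∀ a b e f, r a b e f = -r a b f e)
    (h3 : ∀ a b e f, ∑ g, p a g * r g b e f = r a b e f)
    (hc : ∀ ω : ι → ι → ℝ, (∀ a b, ω a b = -ω b a) → (∀ a c, ∑ b, p a b * ω b c = ω a c) →
      -(2 * ε) * ∑ a, ∑ b, ω a b ^ 2 ≤ ∑ a, ∑ b, ∑ e, ∑ f, r a b e f * ω a b * ω e f)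
    {φ : ι → ι → ℝ} (hk : ∀ a b, φ a b = -φ b a) (hφ : ∀ a c, ∑ b, p a b * φ b c = φ a c) :
    -(16 * ε) * ∑ a, ∑ b, φ a b * φ a b ≤
      ∑ a, ∑ b, ∑ c, φ b c * ∑ e, (r a b a e * φ e c + r a b c e * φ a e) := by
  have hφ' : ∀ a c, ∑ b, p a b * φ c b = φ c a := fun a c => by
    rw [hk c a, ← hφ a c, ← sum_neg_distrib]
    exact sum_congr rfl fun b _ => by rw [hk c b]; ring
  let η : ι × ι → ι → ι → ℝ := fun k a b => p a k.1 * φ b k.2 - φ k.1 a * p b k.2
  have h := fam h1 h2 hc η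
    (fun k a c => by simp only [η, mul_sub, sum_sub_distrib, ← mul_assoc, ← sum_mul, hi, hφ'])
    (fun k a c => by
      simp only [η, mul_sub, sum_sub_distrib, mul_left_comm (p a _), ← mul_sum, hi, hφ])
  let Q : ι → ι → ℝ := fun b f => ∑ d, φ b d * φ f d
  have e1 : ∀ a b e f, ∑ k, η k a b * η k e f =
      p a e * Q b f + p b f * Q a e - 2 * (φ a e * φ b f) := fun a b e f => by
    have a1 : ∑ c, p a c * p e c = p a e := by
      rw [← hi a e]
      exact sum_congr rfl fun c _ => by rw [hs e c]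
    have a2 : ∑ d, p b d * p f d = p b f := by
      rw [← hi b f]
      exact sum_congr rfl fun c _ => by rw [hs f c]
    have a3 : ∑ c, φ c a * φ c e = Q a e :=
      sum_congr rfl fun c _ => by rw [hk c a, hk c e]; ring
    have a4 : ∑ k : ι × ι, η k a b * η k e f =
        (∑ c, p a c * p e c) * (∑ d, φ b d * φ f d) - (∑ c, p a c * φ c e) * (∑ d, p f d * φ b d)
          - (∑ c, p e c * φ c a) * (∑ d, p b d * φ f d)
          + (∑ c, φ c a * φ c e) * ∑ d, p b d * p f d := by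
      simp only [sum_mul_sum, Fintype.sum_prod_type, ← sum_sub_distrib, ← sum_add_distrib]
      exact sum_congr rfl fun c _ => sum_congr rfl fun d _ => by simp only [η]; ring
    rw [a4, a1, a2, a3, hφ, hφ, hφ', hφ', hk e a, hk f b]
    ring
  have e2 : ∑ k, ∑ a, ∑ b, (η k a b - η k b a) * (η k a b - η k b a) ≤
      64 * ∑ a, ∑ b, φ a b * φ a b := by
    have b1 := sum_le_sum fun k (_ : k ∈ univ) => sq_skew (η k)
    have b2 : ∑ k, ∑ a, ∑ b, η k a b * η k a b ≤ ∑ k : ι × ι, ∑ a, ∑ b,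
        (2 * ((p a k.1 * p a k.1) * (φ b k.2 * φ b k.2)) +
          2 * ((φ k.1 a * φ k.1 a) * (p b k.2 * p b k.2))) :=
      sum_le_sum fun k _ => sum_le_sum fun a _ => sum_le_sum fun b _ => by
        simp only [η]
        nlinarith [sq_nonneg (p a k.1 * φ b k.2 + φ k.1 a * p b k.2)]
    have b3 := p_sq hs hi ht
    have b4 : ∀ s t : ι → ι → ℝ, ∑ k : ι × ι, ∑ a, ∑ b, s a k.1 * t b k.2 =
        (∑ a, ∑ c, s a c) * ∑ b, ∑ d, t b d := fun s t => by
      rw [sum_comm (f := fun a c => s a c), sum_comm (f := fun a c => t a c), sum_mul_sum,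
        Fintype.sum_prod_type]
      exact sum_congr rfl fun c _ => sum_congr rfl fun d _ => (sum_mul_sum _ _ _ _).symm
    simp only [sum_add_distrib, ← mul_sum] at b1 b2
    have b5 := b4 (fun a c => p a c * p a c) (fun a c => φ a c * φ a c)
    have b6 := b4 (fun a c => φ c a * φ c a) (fun a c => p a c * p a c)
    rw [sum_comm (f := fun a c => φ c a * φ c a)] at b6
    simp only [← mul_sum, b3] at b5 b6
    rw [b5, b6] at b2
    linarith
  have e3 : ∑ a, ∑ b, ∑ e, ∑ f, r a b e f * (p b f * Q a e) =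
      ∑ a, ∑ b, ∑ f, r a b a f * Q b f := by
    rw [← contr hs h3 Q, sum_comm]
    refine sum_congr rfl fun a _ => sum_congr rfl fun b _ => ?_
    rw [sum_comm]
    exact sum_congr rfl fun e _ => sum_congr rfl fun f _ => by rw [h1 b a, h2 a b]; ring
  have e4 : ∑ a, ∑ b, ∑ c, φ b c * ∑ e, (r a b a e * φ e c + r a b c e * φ a e) =
      ∑ a, ∑ b, ∑ f, r a b a f * Q b f - ∑ a, ∑ b, ∑ e, ∑ f, r a b e f * (φ a e * φ b f) := by
    simp only [← sum_sub_distrib]
    refine sum_congr rfl fun a _ => sum_congr rfl fun b _ => ?_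
    simp only [Q, mul_sum, ← sum_sub_distrib]
    rw [sum_comm]
    exact sum_congr rfl fun e _ => sum_congr rfl fun f _ => by rw [h2 a b f e]; ring
  have e5 : ∀ a b e f, r a b e f * (p a e * Q b f + p b f * Q a e - 2 * (φ a e * φ b f)) =
      r a b e f * (p a e * Q b f) + r a b e f * (p b f * Q a e) -
        2 * (r a b e f * (φ a e * φ b f)) := fun a b e f => by ring
  simp only [e1, e5, sum_sub_distrib, sum_add_distrib, ← mul_sum] at h
  rw [contr hs h3 Q, e3] at h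
  rw [e4]
  nlinarith [mul_le_mul_of_nonneg_left e2 h0]

end RealPart

variable {P R ι : Type} [CommRing R] [Algebra ℝ R] [Fintype ι] {C : Calc P R ι}
  {I : R →ₗ[ℝ] ℝ} {vol : ι → ι → ι → ι → R}

theorem ev_symm (x : P) (a b : ι) : C.ev x (C.Pr a b) = C.ev x (C.Pr b a) := by rw [C.Pr_symm]

theorem ev_idem (x : P) (a c : ι) :
    ∑ b, C.ev x (C.Pr a b) * C.ev x (C.Pr b c) = C.ev x (C.Pr a c) := by
  simp only [← map_mul, ← map_sum, C.Pr_idem]

theorem ev_tr (hb : C.AlgB vol) (x : P) : ∑ a, C.ev x (C.Pr a a) = 4 := by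
  rw [← map_sum, hb.tr, map_ofNat]

theorem nn1 (hp : C.PosI I) (κ : Type) [Fintype κ] (u : κ → R) : 0 ≤ I (ip1 u u) :=
  hp.nonneg _ fun x => by
    simp only [ip1, map_sum, map_mul]
    exact sum_nonneg fun a _ => mul_self_nonneg _

theorem cs1 (hp : C.PosI I) (κ : Type) [Fintype κ] (u v : κ → R) :
    I (ip1 u v) ^ 2 ≤ I (ip1 u u) * I (ip1 v v) := by
  have h := discrim_le_zero (a := I (ip1 u u)) (b := 2 * I (ip1 u v)) (c := I (ip1 v v))
    fun t => by
      have h1 := nn1 hp κ (t • u + v)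
      have h2 : ip1 (t • u + v) (t • u + v) =
          (t * t) • ip1 u u + (2 * t) • ip1 u v + ip1 v v := by
        simp only [ip1, smul_sum, ← sum_add_distrib, Pi.add_apply, Pi.smul_apply]
        refine sum_congr rfl fun a _ => ?_
        simp only [Algebra.smul_def, map_mul, map_ofNat]
        ring
      rw [h2, map_add, map_add, map_smul, map_smul, smul_eq_mul, smul_eq_mul] at h1
      linarith
  rw [discrim] at h
  linarith

theorem z1 (hp : C.PosI I) (κ : Type) [Fintype κ] (u : κ → R) (h : I (ip1 u u) = 0) : u = 0 := by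
  have h1 := hp.faith _ (fun x => by
    simp only [ip1, map_sum, map_mul]
    exact sum_nonneg fun a _ => mul_self_nonneg _) h
  funext a
  refine C.ev_inj _ fun x => ?_
  have h2 := congrArg (C.ev x) h1
  simp only [ip1, map_sum, map_mul, map_zero] at h2
  exact mul_self_eq_zero.1
    ((sum_eq_zero_iff_of_nonneg fun a _ => mul_self_nonneg _).1 h2 a (mem_univ a))

omit [Algebra ℝ R] in
theorem ip0 (f g : R) : f * g = ip1 (fun _ : Unit => f) fun _ => g := by simp [ip1]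

omit [Algebra ℝ R] in
theorem ip21 (φ χ : ι → ι → R) :
    ip2 φ χ = ip1 (fun z : ι × ι => φ z.1 z.2) fun z => χ z.1 z.2 := by
  simp only [ip1, ip2, Fintype.sum_prod_type]

omit [Algebra ℝ R] in
theorem ip31 (s t : ι → ι → ι → R) :
    ip3 s t = ip1 (fun z : ι × ι × ι => s z.1 z.2.1 z.2.2) fun z => t z.1 z.2.1 z.2.2 := by
  simp only [ip1, ip3, Fintype.sum_prod_type]

end IneqP

open IneqP

variable {P R ι : Type} [CommRing R] [Algebra ℝ R] [Fintype ι] (C : Calc P R ι) (I : R →ₗ[ℝ] ℝ)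
  (vol : ι → ι → ι → ι → R)

theorem ineq (ha : C.AlgA) (hb : C.AlgB vol) (hp : C.PosI I) : C.Ineq I where
  mono f g h := by
    have := hp.nonneg (g - f) fun x => by rw [map_sub]; exact sub_nonneg.2 (h x)
    rwa [map_sub, sub_nonneg] at this
  cs0 f g := by
    rw [ip0 f g, ip0 f f, ip0 g g]
    exact cs1 hp _ _ _
  cs1 := cs1 hp
  cs2 φ χ := by
    rw [ip21, ip21, ip21]
    exact cs1 hp _ _ _
  nn0 f := by
    rw [ip0]
    exact nn1 hp _ _
  nn1 := nn1 hp
  nn2 φ := by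
    rw [ip21]
    exact nn1 hp _ _
  nn3 t := by
    rw [ip31]
    exact nn1 hp _ _
  z0 f h := by
    rw [ip0] at h
    exact congrFun (z1 hp _ _ h) ()
  z1 := z1 hp
  z2 φ h := by
    rw [ip21] at h
    funext a b
    exact congrFun (z1 hp _ _ h) (a, b)
  cd1_le u x := by
    simp only [Calc.cd1, ip2, map_mul, map_sum, neg_mul_neg]
    exact tr_le (D := fun a b => C.ev x (C.D1 u a b)) (p_sq (ev_symm x) (ev_idem x) (ev_tr hb x))
      fun a b => by simp only [← map_mul, ← map_sum, ha.Pr_D1]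
  cd2_le φ x := by
    simp only [Calc.cd2, ip1, ip3, map_mul, map_sum, neg_mul_neg]
    have h := sum_le_sum fun c (_ : c ∈ univ) => tr_le (D := fun a b => C.ev x (C.D2 φ a b c))
      (p_sq (ev_symm x) (ev_idem x) (ev_tr hb x)) fun a b => by
        simp only [← map_mul, ← map_sum, ha.Pr_D2]
    rw [← mul_sum, sum_comm] at h
    refine h.trans (le_of_eq (congrArg _ (sum_congr rfl fun a _ => sum_comm)))
  d1_le u x := by
    simp only [Calc.d1, ip2, map_mul, map_sub, map_sum]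
    exact sq_skew fun a b => C.ev x (C.D1 u a b)
  mv_le φ u x := by
    simp only [mv, ip1, ip2, map_mul, map_sum]
    rw [sum_mul]
    exact sum_le_sum fun a _ => cs_real _ _
  mm_le φ χ x := by
    simp only [mm, ip2, map_mul, map_sum]
    rw [sum_comm (f := fun a b => C.ev x (χ a b) * C.ev x (χ a b)), sum_mul_sum]
    exact sum_le_sum fun a _ => sum_le_sum fun c _ => cs_real _ _

theorem wb (hl : C.Lib I vol) {ε : ℝ} (h0 : 0 ≤ ε) (hc : C.CurvGe ε) : C.Wb I vol ε := by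
  have h1 : ∀ x a b e f, C.ev x (C.Rc a b e f) = -C.ev x (C.Rc b a e f) := fun x a b e f => by
    rw [hl.r.Rc_skew1, map_neg]
  have h2 : ∀ x a b e f, C.ev x (C.Rc a b e f) = -C.ev x (C.Rc a b f e) := fun x a b e f => by
    rw [hl.r.Rc_skew2, map_neg]
  have h3 : ∀ x a b e f, ∑ g, C.ev x (C.Pr a g) * C.ev x (C.Rc g b e f) =
      C.ev x (C.Rc a b e f) := fun x a b e f => by
    simp only [← map_mul, ← map_sum, hl.r.Pr_Rc]
  have ric : ∀ u, C.Hor1 u → ∀ x, -(3 * ε) * C.ev x (ip1 u u) ≤ C.ev x (C.Ric u u) := by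
    intro u hu x
    simp only [ip1, Calc.Ric, map_sum, map_mul]
    exact ric_real (ev_symm x) (ev_idem x) (ev_tr hl.b x) (h1 x) (h2 x) (h3 x) (hc x)
      fun a => by simp only [← map_mul, ← map_sum, hu a]
  refine ⟨ric, fun u hu => ?_, fun φ hφ => ?_⟩
  · have a1 := hl.q.mono ((-(3 * ε)) • ip1 u u) (C.Ric u u) fun x => by
      rw [map_smul, smul_eq_mul]
      exact ric u hu x
    rw [map_smul, smul_eq_mul] at a1
    linarith [hl.d.boch1 u u]
  · have a1 := hl.q.mono ((-(16 * ε)) • ip2 φ φ) (C.Wq φ) fun x => by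
      rw [map_smul, smul_eq_mul]
      simp only [ip2, Calc.Wq, map_sum, map_mul, map_add]
      exact wq_real h0 (ev_symm x) (ev_idem x) (ev_tr hl.b x) (h1 x) (h2 x) (h3 x) (hc x)
        (fun a b => by rw [hφ.1.1 a b, map_neg])
        fun a c => by simp only [← map_mul, ← map_sum, hφ.1.2 a c]
    rw [map_smul, smul_eq_mul] at a1
    have a2 := hl.d.boch2 φ hφ.1.1
    have a3 : (6 : R) * ip1 (C.cd2 φ) (C.cd2 φ) = (6 : ℝ) • ip1 (C.cd2 φ) (C.cd2 φ) := by
      rw [Algebra.smul_def, map_ofNat]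
    rw [hl.c.sd_d2 φ hφ, a3, map_smul, smul_eq_mul] at a2
    linarith

end Pool.Agent.P.MP_713680_gt
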