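import Pool.Agent.P.MP_713680_gt.GeoSt

/-!
MP_713680_gt, package G6: the Li-Yau lower bound for the first eigenvalue, in the form of a
Poincaré inequality with constant 100.
-/

noncomputable section

namespace Pool.Agent.P.MP_713680_gt

open Finset

variable {P R ι : Type} [CommRing R] [Algebra ℝ R] [Fintype ι] (C : Calc P R ι)
  (I : R →ₗ[ℝ] ℝ) (vol : ι → ι → ι → ι → R)

namespace PoincP

lemma en_eq (u v : Unit → R) :
    C.en I (fun _ _ _ => 0) (fun _ _ => 1) u v
      = I (ip1 (C.d0 (u ())) (C.d0 (v ()))) + I (u () * v ()) := by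
  unfold Calc.en
  rw [← map_add]
  congr 1
  simp [ip1, Calc.d0]

lemma be_eq (u v : Unit → R) :
    Calc.be I 1 (-1) (fun _ => (1 : R)) u v = I (u () * v ()) - I (u ()) * I (v ()) := by
  unfold Calc.be
  simp [ip1]
  ring

omit [Algebra ℝ R] in
lemma ip1_comm (u v : ι → R) : ip1 u v = ip1 v u := by
  unfold ip1
  exact Finset.sum_congr rfl fun a _ => mul_comm _ _

/-- The first eigenfunction. -/
lemma eigen (hl : C.Lib I vol) (hg : C.IsGeo I vol)
    (hne : ∃ f, I (f * f) - I f * I f ≠ 0) :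
    ∃ (u : R) (lam : ℝ), I u = 0 ∧ I (u * u) = 1 ∧ 0 ≤ lam ∧ C.cd1 (C.d0 u) = lam • u ∧
      ∀ f, lam * (I (f * f) - I f ^ 2) ≤ I (ip1 (C.d0 f) (C.d0 f)) := by
  have hone := hg.pos.one
  obtain ⟨u, l, h1, h2, h3⟩ := hg.solve Unit (fun _ _ _ => 0) (fun _ _ => 1) 1 1 (-1)
    (fun _ => (1 : R)) (fun _ _ => rfl) one_pos
    (by
      intro u
      rw [en_eq]
      have := hl.q.nn1 ι (C.d0 (u ()))
      simp only [ip1, Finset.univ_unique, Finset.sum_singleton, one_mul] at this ⊢
      have e : (default : Unit) = () := rfl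
      rw [e]
      linarith)
    (by
      intro u
      rw [be_eq]
      have := hl.q.cs0 (u ()) 1
      rw [mul_one, mul_one, hone] at this
      nlinarith)
    (by
      obtain ⟨f, hf⟩ := hne
      exact ⟨fun _ => f, by rw [be_eq]; exact hf⟩)
  have hd1 : C.d0 (1 : R) = 0 := by
    funext a
    simp [Calc.d0]
  have hm : I (u ()) = 0 := by
    have := h2 (fun _ => 1)
    rw [en_eq, be_eq] at this
    simp only [hd1, mul_one, hone] at this
    simpa [ip1] using this
  rw [be_eq, hm] at h1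
  have h1' : I (u () * u ()) = 1 := by linarith
  have h2' : ∀ v : R, I (v * (C.cd1 (C.d0 (u ())) - (l - 1) • u ())) = 0 := by
    intro v
    have := h2 (fun _ => v)
    rw [en_eq, be_eq, hm, ip1_comm, hl.d.adj0] at this
    rw [mul_sub, map_sub, mul_smul_comm, map_smul, smul_eq_mul, mul_comm v (u ())]
    linarith
  have heq : C.cd1 (C.d0 (u ())) = (l - 1) • u () := sub_eq_zero.mp (hl.q.z0 _ (h2' _))
  refine ⟨u (), l - 1, hm, h1', ?_, heq, ?_⟩
  · have := h2 u
    rw [en_eq, be_eq, hm, h1'] at this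
    have h4 := hl.q.nn1 ι (C.d0 (u ()))
    linarith
  · intro f
    have := h3 (fun _ => f - algebraMap ℝ R (I f))
    rw [en_eq, be_eq] at this
    have e0 : ∀ c : ℝ, I (algebraMap ℝ R c) = c := by
      intro c
      rw [Algebra.algebraMap_eq_smul_one, map_smul, hone, smul_eq_mul, mul_one]
    have e1 : I (f - algebraMap ℝ R (I f)) = 0 := by rw [map_sub, e0, sub_self]
    have e2 : C.d0 (f - algebraMap ℝ R (I f)) = C.d0 f := by
      funext a
      simp [Calc.d0]
    have e3 : I ((f - algebraMap ℝ R (I f)) * (f - algebraMap ℝ R (I f)))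
        = I (f * f) - I f ^ 2 := by
      have : (f - algebraMap ℝ R (I f)) * (f - algebraMap ℝ R (I f))
          = f * f - (2 * I f) • f + algebraMap ℝ R (I f * I f) := by
        rw [Algebra.smul_def, map_mul, map_mul]
        have : algebraMap ℝ R 2 = 2 := map_ofNat _ 2
        rw [this]
        ring
      rw [this, map_add, map_sub, map_smul, e0, smul_eq_mul]
      ring
    simp only [e1, e2, e3] at this
    linarith

lemma ev_ip1_nonneg (u : ι → R) (x : P) : 0 ≤ C.ev x (ip1 u u) := by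
  unfold ip1
  rw [map_sum]
  exact Finset.sum_nonneg fun a _ => by rw [map_mul]; exact mul_self_nonneg _

/-- The gradient estimate of Li and Yau. -/
lemma grad (hl : C.Lib I vol) (hg : C.IsGeo I vol) {ε : ℝ} (h0 : 0 ≤ ε) (hw : C.Wb I vol ε)
    (v r : R) (lam : ℝ) (hlam : 0 ≤ lam) (hr0 : ∀ x, 0 ≤ C.ev x r) (hr1 : ∀ x, C.ev x r ≤ 1)
    (hdr : ∀ a, C.Y a r = r * C.Y a v)
    (hc : C.cd1 (C.d0 v) = - ip1 (C.d0 v) (C.d0 v) + lam • (2 * r - 1)) (z : P) :
    C.ev z (ip1 (C.d0 v) (C.d0 v)) ≤ 32 * lam + 48 * ε := by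
  set Pf := ip1 (C.d0 v) (C.d0 v) with hPf
  obtain ⟨x, hx⟩ := hg.maxp.ex Pf
  refine (hx z).trans ?_
  have f1 := hg.maxp.first Pf x hx
  have f2 := hg.maxp.second Pf x hx
  have hb := congrArg (C.ev x) (hl.r.bochner v)
  rw [← hPf] at hb
  have hL : C.ev x (- C.cd1 (C.d0 Pf)) ≤ 0 := by
    unfold Calc.cd1
    rw [neg_neg, map_sum]
    refine Finset.sum_nonpos fun a _ => ?_
    unfold Calc.D1 Calc.d0
    rw [map_add, map_sum]
    have : ∑ c, C.ev x (C.A a a c * C.Y c Pf) = 0 :=
      Finset.sum_eq_zero fun c _ => by rw [map_mul, f1 c, mul_zero]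
    rw [this, add_zero]
    exact f2 a
  have hM : C.ev x (ip1 (C.d0 v) (C.d0 (C.cd1 (C.d0 v)))) = 2 * lam * C.ev x r * C.ev x Pf := by
    have e : ∀ a, C.ev x (C.d0 (C.cd1 (C.d0 v)) a) = 2 * lam * C.ev x r * C.ev x (C.Y a v) := by
      intro a
      have e2 : C.Y a (2 * r - 1) = 2 * (r * C.Y a v) := by
        rw [two_mul, map_sub, map_add, hdr a, Derivation.map_one_eq_zero]
        ring
      show C.ev x (C.Y a (C.cd1 (C.d0 v))) = _
      rw [hc, map_add, map_neg, Derivation.map_smul, e2, map_add, map_neg, f1 a, map_smul,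
        map_mul, map_mul, smul_eq_mul, map_ofNat]
      ring
    rw [hPf]
    unfold ip1
    rw [map_sum, map_sum, Finset.mul_sum]
    refine Finset.sum_congr rfl fun a _ => ?_
    rw [map_mul, map_mul, e a]
    show C.ev x (C.Y a v) * _ = _ * (C.ev x (C.Y a v) * C.ev x (C.Y a v))
    ring
  have hR := hw.ric (C.d0 v) (hl.a.hor_d0 v) x
  rw [← hPf] at hR
  have hD := hl.q.cd1_le (C.d0 v) x
  have hC : C.ev x (C.cd1 (C.d0 v)) = - C.ev x Pf + lam * (2 * C.ev x r - 1) := by
    rw [hc, map_add, map_neg, map_smul, map_sub, map_mul, map_one, map_ofNat, smul_eq_mul]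
  rw [map_mul, hC] at hD
  rw [map_add, map_sub, map_mul, map_mul, map_mul, map_ofNat, hM] at hb
  have hp : 0 ≤ C.ev x Pf := ev_ip1_nonneg C _ x
  have r0 := hr0 x
  have r1 := hr1 x
  generalize C.ev x Pf = p at *
  generalize C.ev x r = s at *
  generalize C.ev x (ip2 (C.D1 (C.d0 v)) (C.D1 (C.d0 v))) = D at *
  generalize C.ev x (C.Ric (C.d0 v) (C.d0 v)) = Ri at *
  have key : (-p + lam * (2 * s - 1)) * (-p + lam * (2 * s - 1)) ≤ (8 * lam + 12 * ε) * p := by
    have : lam * s * p ≤ lam * p := by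
      have := mul_le_mul_of_nonneg_left r1 hlam
      nlinarith
    nlinarith
  by_cases hcase : p ≤ 2 * lam
  · nlinarith
  · push Not at hcase
    have h5 : lam * (2 * s - 1) ≤ lam := by nlinarith
    have h6 : p / 2 ≤ p - lam * (2 * s - 1) := by linarith
    have hp' : 0 < p := by linarith
    have h7 : (p / 2) * (p / 2) ≤ (8 * lam + 12 * ε) * p := by nlinarith
    by_contra hcon
    push Not at hcon
    nlinarith

end PoincP

open PoincP in
theorem poinc (hl : C.Lib I vol) (hg : C.IsGeo I vol) {ε : ℝ} (h0 : 0 ≤ ε) (h1 : ε ≤ 1 / 300)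
    (hw : C.Wb I vol ε) (hd : C.DistLe) : C.Poinc I := by
  intro f
  by_cases hne : ∃ f, I (f * f) - I f * I f ≠ 0
  swap
  · push Not at hne
    have := hne f
    have h4 := hl.q.nn1 ι (C.d0 f)
    nlinarith
  obtain ⟨u0, lam, hm, hn, hlam, heq, hvar⟩ := eigen C I vol hl hg hne
  have hu0 : u0 ≠ 0 := by
    rintro rfl
    simp at hn
  obtain ⟨x0, hx0⟩ := hg.maxp.ex u0
  have hM : 0 < C.ev x0 u0 := by
    by_contra hcon
    push Not at hcon
    apply hu0
    have := hg.pos.faith (-u0) (fun x => by rw [map_neg]; linarith [hx0 x])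
      (by rw [map_neg, hm, neg_zero])
    exact neg_eq_zero.mp this
  obtain ⟨y, hy⟩ : ∃ y, C.ev y u0 ≤ 0 := by
    by_contra hcon
    push Not at hcon
    exact hu0 (hg.pos.faith u0 (fun x => (hcon x).le) hm)
  set M := C.ev x0 u0 with hMdef
  set u : R := M⁻¹ • u0 with hu
  have hu1 : ∀ x, C.ev x u ≤ 1 := by
    intro x
    rw [hu, map_smul, smul_eq_mul, inv_mul_le_iff₀ hM, mul_one]
    exact hx0 x
  have hux : C.ev x0 u = 1 := by
    rw [hu, map_smul, smul_eq_mul, inv_mul_cancel₀ hM.ne']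
  have huy : C.ev y u ≤ 0 := by
    rw [hu, map_smul, smul_eq_mul]
    exact mul_nonpos_of_nonneg_of_nonpos (inv_nonneg.mpr hM.le) hy
  have hcu : C.cd1 (C.d0 u) = lam • u := by
    have : C.d0 u = M⁻¹ • C.d0 u0 := by
      funext a
      simp [hu, Calc.d0]
    rw [this, hl.a.cd1_rsmul, heq, hu, smul_comm]
  have hwev : ∀ x, C.ev x (2 - u) = 2 - C.ev x u := by
    intro x
    rw [map_sub, map_ofNat]
  have hwpos : ∀ x, 0 < C.ev x (2 - u) := by
    intro x
    rw [hwev]
    linarith [hu1 x]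
  obtain ⟨r, hr⟩ := hg.fn.inv _ hwpos
  obtain ⟨g, hg1, hg2⟩ := hg.fn.log _ hwpos
  have hY2 : ∀ a, C.Y a (2 - u) = - C.Y a u := by
    intro a
    have : (2 : R) = 1 + 1 := by norm_num
    rw [this, map_sub, map_add, Derivation.map_one_eq_zero]
    ring
  have hv : ∀ a, C.Y a (-g) = r * C.Y a u := by
    intro a
    have h2 := hg2 a
    rw [hY2] at h2
    rw [map_neg]
    linear_combination (- r) * h2 + (C.Y a g) * hr
  have hdr0 : ∀ a, C.Y a r = r * (r * C.Y a u) := by
    intro a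
    have h2 := congrArg (C.Y a) hr
    rw [Derivation.leibniz, Derivation.map_one_eq_zero, hY2, smul_eq_mul, smul_eq_mul] at h2
    linear_combination r * h2 - (C.Y a r) * hr
  have hrev : ∀ x, (2 - C.ev x u) * C.ev x r = 1 := by
    intro x
    rw [← hwev, ← map_mul, hr, map_one]
  have hr0 : ∀ x, 0 ≤ C.ev x r := by
    intro x
    have h2 := hrev x
    have h3 := hu1 x
    by_contra hcon
    push Not at hcon
    nlinarith
  have hr1 : ∀ x, C.ev x r ≤ 1 := by
    intro x
    have h2 := hrev x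
    have h3 := hu1 x
    have h4 := hr0 x
    nlinarith
  have hc : C.cd1 (C.d0 (-g)) = - ip1 (C.d0 (-g)) (C.d0 (-g)) + lam • (2 * r - 1) := by
    have e : C.d0 (-g) = r • C.d0 u := by
      funext a
      exact hv a
    have e1 : C.cd1 (r • C.d0 u) = - ip1 (r • C.d0 u) (r • C.d0 u) + r * C.cd1 (C.d0 u) := by
      unfold Calc.cd1 ip1
      rw [mul_neg, Finset.mul_sum, ← neg_add, ← Finset.sum_add_distrib]
      congr 1
      refine Finset.sum_congr rfl fun a _ => ?_
      rw [hl.a.D1_smul, hdr0 a]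
      simp only [Pi.smul_apply, smul_eq_mul, Calc.d0]
      ring
    rw [e, e1, hcu, mul_smul_comm]
    congr 2
    linear_combination (-1 : R) * hr
  have hlam' : 1 / 100 ≤ lam := by
    by_contra hcon
    push Not at hcon
    have hgr := grad C I vol hl hg h0 hw (-g) r lam hlam hr0 hr1
      (fun a => by rw [hdr0 a, hv a]) hc
    have := hd (-g) 0.693 (by norm_num) (fun z => (hgr z).trans (by linarith)) x0 y
    rw [map_neg, map_neg, hg1, hg1, hwev, hwev, hux] at this
    have h2 : Real.log 2 ≤ Real.log (2 - C.ev y u) :=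
      Real.log_le_log (by norm_num) (by linarith)
    have h3 : Real.log (2 - 1) = 0 := by norm_num
    have h4 := Real.log_two_gt_d9
    rw [h3] at this
    norm_num at this h4
    linarith
  have h5 := hvar f
  have h6 : 0 ≤ I (f * f) - I f ^ 2 := by
    have := hl.q.cs0 f 1
    rw [mul_one, mul_one, hg.pos.one] at this
    linarith
  nlinarith

end Pool.Agent.P.MP_713680_gt
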