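import Pool.Agent.P.MP_713680_gt.GeoSt

/-!
MP_713680_gt, package G9: a first almost parallel 1-form.
-/

noncomputable section

namespace Pool.Agent.P.MP_713680_gt

open Finset

variable {P R ι : Type} [CommRing R] [Algebra ℝ R] [Fintype ι] (C : Calc P R ι) (I : R →ₗ[ℝ] ℝ) (vol : ι → ι → ι → ι → R)

namespace Theta1P

section Alg

omit [Algebra ℝ R]

/-- A matrix as a vector. -/
def unc (φ : ι → ι → R) : ι × ι → R := fun p => φ p.1 p.2

lemma ip1_unc (φ χ : ι → ι → R) : ip1 (unc φ) (unc χ) = ip2 φ χ := by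
  unfold ip1 ip2 unc
  rw [Fintype.sum_prod_type]

lemma ip3_eq (s t : ι → ι → ι → R) : ip3 s t = ∑ a, ip2 (s a) (t a) := rfl

lemma ip2_comm (φ χ : ι → ι → R) : ip2 φ χ = ip2 χ φ := by
  unfold ip2
  simp only [mul_comm]

lemma ip1_comm (u v : ι → R) : ip1 u v = ip1 v u := by
  unfold ip1
  simp only [mul_comm]

lemma ip2_add_left (φ χ ψ : ι → ι → R) : ip2 (φ + χ) ψ = ip2 φ ψ + ip2 χ ψ := by
  unfold ip2
  simp only [Pi.add_apply, add_mul, sum_add_distrib]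

lemma ip2_sub_left (φ χ ψ : ι → ι → R) : ip2 (φ - χ) ψ = ip2 φ ψ - ip2 χ ψ := by
  unfold ip2
  simp only [Pi.sub_apply, sub_mul, sum_sub_distrib]

lemma ip2_add_right (φ χ ψ : ι → ι → R) : ip2 ψ (φ + χ) = ip2 ψ φ + ip2 ψ χ := by
  unfold ip2
  simp only [Pi.add_apply, mul_add, sum_add_distrib]

lemma ip2_smul_left (f : R) (φ χ : ι → ι → R) : ip2 (f • φ) χ = f * ip2 φ χ := by
  unfold ip2
  simp only [Pi.smul_apply, smul_eq_mul, mul_sum, mul_assoc]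

lemma ip2_zero_left (χ : ι → ι → R) : ip2 (0 : ι → ι → R) χ = 0 := by
  unfold ip2
  simp

lemma ip1_zero_left (v : ι → R) : ip1 (0 : ι → R) v = 0 := by
  unfold ip1
  simp

lemma ip1_zero_right (v : ι → R) : ip1 v (0 : ι → R) = 0 := by
  unfold ip1
  simp

lemma ip1_add_right (u v w : ι → R) : ip1 u (v + w) = ip1 u v + ip1 u w := by
  unfold ip1
  simp only [Pi.add_apply, mul_add, sum_add_distrib]

lemma comm_smul (f : R) (φ χ : ι → ι → R) : comm (f • φ) (f • χ) = (f * f) • comm φ χ := by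
  funext a c
  simp only [comm, mm, Pi.sub_apply, Pi.smul_apply, smul_eq_mul, mul_sub, mul_sum]
  congr 1 <;> exact sum_congr rfl fun b _ => by ring

lemma tr3 (w b : ι → ι → R) (hw : ∀ p q, w p q = - w q p) :
    ip2 (mm w b) w = ip2 (mm b w) w := by
  unfold ip2 mm
  simp only [sum_mul]
  calc ∑ p, ∑ q, ∑ r, w p r * b r q * w p q
      = ∑ p, ∑ r, ∑ q, w p r * b r q * w p q := sum_congr rfl fun p _ => sum_comm
    _ = ∑ r, ∑ p, ∑ q, w p r * b r q * w p q := sum_comm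
    _ = ∑ r, ∑ p, ∑ q, b r q * w q p * w r p := by
        refine sum_congr rfl fun r _ => sum_congr rfl fun p _ => sum_congr rfl fun q _ => ?_
        rw [hw p r, hw p q]
        ring

lemma comm_orth_left (w b : ι → ι → R) (hw : ∀ p q, w p q = - w q p) :
    ip2 (comm w b) w = 0 := by
  unfold comm
  rw [ip2_sub_left, tr3 w b hw, sub_self]

lemma comm_orth_right (w b : ι → ι → R) (hw : ∀ p q, w p q = - w q p) :
    ip2 (comm b w) w = 0 := by
  unfold comm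
  rw [ip2_sub_left, tr3 w b hw, sub_self]

end Alg

lemma ip1_rsmul (c : ℝ) (u v : ι → R) : ip1 (c • u) (c • v) = (c * c) • ip1 u v := by
  unfold ip1
  simp only [Pi.smul_apply, smul_mul_smul_comm, smul_sum]

lemma ip2_rsmul (c : ℝ) (φ χ : ι → ι → R) : ip2 (c • φ) (c • χ) = (c * c) • ip2 φ χ := by
  unfold ip2
  simp only [Pi.smul_apply, smul_mul_smul_comm, smul_sum]

lemma ev_ip2_nonneg (φ : ι → ι → R) (x : P) : 0 ≤ C.ev x (ip2 φ φ) := by
  unfold ip2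
  simp only [map_sum, map_mul]
  exact sum_nonneg fun a _ => sum_nonneg fun b _ => mul_self_nonneg _

lemma ev_four (s t u v : ι → ι → R) (x : P) :
    C.ev x (ip2 (s + t - (u + v)) (s + t - (u + v)))
      ≤ 4 * (C.ev x (ip2 s s) + C.ev x (ip2 t t) + C.ev x (ip2 u u) + C.ev x (ip2 v v)) := by
  unfold ip2
  simp only [map_sum, map_mul, Pi.add_apply, Pi.sub_apply, map_add, map_sub, ← sum_add_distrib,
    mul_sum]
  refine sum_le_sum fun a _ => sum_le_sum fun b _ => ?_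
  nlinarith [sq_nonneg (C.ev x (s a b) - C.ev x (t a b)), sq_nonneg (C.ev x (s a b) + C.ev x (u a b)),
    sq_nonneg (C.ev x (s a b) + C.ev x (v a b)), sq_nonneg (C.ev x (t a b) + C.ev x (u a b)),
    sq_nonneg (C.ev x (t a b) + C.ev x (v a b)), sq_nonneg (C.ev x (u a b) - C.ev x (v a b))]

/-- The derivative of a commutator of two bounded matrices. -/
lemma D_comm_le (hl : C.Lib I vol) (a b : ι → ι → R)
    (hb : ∀ x, C.ev x (ip2 a a) + C.ev x (ip2 b b) ≤ 1) :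
    I (ip3 (C.D2 (comm a b)) (C.D2 (comm a b)))
      ≤ 8 * (I (ip3 (C.D2 a) (C.D2 a)) + I (ip3 (C.D2 b) (C.D2 b))) := by
  have h : I (ip3 (C.D2 (comm a b)) (C.D2 (comm a b)))
      ≤ I ((8 : ℝ) • (ip3 (C.D2 a) (C.D2 a) + ip3 (C.D2 b) (C.D2 b))) := by
    refine hl.q.mono _ _ fun x => ?_
    rw [map_smul, smul_eq_mul, ip3_eq, ip3_eq, ip3_eq, ← sum_add_distrib, map_sum, map_sum, mul_sum]
    refine sum_le_sum fun c _ => ?_
    have e : C.D2 (comm a b) c = mm (C.D2 a c) b + mm a (C.D2 b c)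
        - (mm (C.D2 b c) a + mm b (C.D2 a c)) := by
      unfold comm
      rw [hl.a.D2_sub, Pi.sub_apply, hl.a.D2_mm, hl.a.D2_mm]
    rw [e, map_add]
    have h4 := ev_four C (mm (C.D2 a c) b) (mm a (C.D2 b c)) (mm (C.D2 b c) a) (mm b (C.D2 a c)) x
    have m1 := hl.q.mm_le (C.D2 a c) b x
    have m2 := hl.q.mm_le a (C.D2 b c) x
    have m3 := hl.q.mm_le (C.D2 b c) a x
    have m4 := hl.q.mm_le b (C.D2 a c) x
    have n1 := ev_ip2_nonneg C a x
    have n2 := ev_ip2_nonneg C b x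
    have n3 := ev_ip2_nonneg C (C.D2 a c) x
    have n4 := ev_ip2_nonneg C (C.D2 b c) x
    have hx := hb x
    have k1 : C.ev x (ip2 (C.D2 a c) (C.D2 a c)) * C.ev x (ip2 b b)
        ≤ C.ev x (ip2 (C.D2 a c) (C.D2 a c)) := mul_le_of_le_one_right n3 (by linarith)
    have k2 : C.ev x (ip2 (C.D2 b c) (C.D2 b c)) * C.ev x (ip2 a a)
        ≤ C.ev x (ip2 (C.D2 b c) (C.D2 b c)) := mul_le_of_le_one_right n4 (by linarith)
    rw [mul_comm] at m2 m4
    linarith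
  rwa [map_smul, smul_eq_mul, map_add] at h

/-- Lower bound for the Gram determinant. -/
lemma gram_ge (hl : C.Lib I vol) (hp : C.PosI I) (f g k : R) (m η : ℝ) (hm : 1 / 5 ≤ m)
    (hm1 : m ≤ 1) (hη : η ≤ 1 / 10 ^ 4) (hf : I ((f - algebraMap ℝ R m) ^ 2) ≤ η)
    (hg : I ((g - algebraMap ℝ R m) ^ 2) ≤ η) (hk : I (k ^ 2) ≤ η) :
    1 / 50 ≤ I (f * g - k * k) := by
  have h : I (algebraMap ℝ R (m * m - m / 50) - (26 : ℝ) • (f - algebraMap ℝ R m) ^ 2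
      - (26 : ℝ) • (g - algebraMap ℝ R m) ^ 2 - k ^ 2) ≤ I (f * g - k * k) := by
    refine hl.q.mono _ _ fun x => ?_
    simp only [map_sub, map_smul, map_pow, map_mul, AlgHom.commutes, smul_eq_mul,
      Algebra.algebraMap_self, RingHom.id_apply]
    set s := C.ev x f - m with hs
    set t := C.ev x g - m with ht
    have e1 : C.ev x f = s + m := by rw [hs]; ring
    have e2 : C.ev x g = t + m := by rw [ht]; ring
    rw [e1, e2]
    have a1 : 0 ≤ m * (5 * s + 1 / 10) ^ 2 := mul_nonneg (by linarith) (sq_nonneg _)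
    have a2 : 0 ≤ m * (5 * t + 1 / 10) ^ 2 := mul_nonneg (by linarith) (sq_nonneg _)
    have a3 : 0 ≤ (1 - m) * s ^ 2 := mul_nonneg (by linarith) (sq_nonneg _)
    have a4 : 0 ≤ (1 - m) * t ^ 2 := mul_nonneg (by linarith) (sq_nonneg _)
    nlinarith [sq_nonneg (s + t), sq_nonneg s, sq_nonneg t]
  have e : I (algebraMap ℝ R (m * m - m / 50)) = m * m - m / 50 := by
    rw [Algebra.algebraMap_eq_smul_one, map_smul, hp.one, smul_eq_mul, mul_one]
  rw [map_sub, map_sub, map_sub, map_smul, map_smul, e, smul_eq_mul, smul_eq_mul] at h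
  nlinarith

/-- A self-dual form of definite size, almost coclosed, orthogonal to the harmonic forms. -/
lemma phi0 (hl : C.Lib I vol) (hp : C.PosI I) (ht : C.Trunc I) {ε : ℝ}
    (h1 : ε ≤ 1 / 10 ^ 11) (hw : C.Wb I vol ε) {ω : Fin 2 → ι → ι → R} (hω : C.HBasis I vol ω) :
    ∃ φ, C.SD vol φ ∧ (∀ i, I (ip2 φ (ω i)) = 0) ∧ 1 / 50 ≤ I (ip2 φ φ) ∧
      I (ip1 (C.cd2 φ) (C.cd2 φ)) ≤ 8192 * ε := by
  have hE : ∀ i, I (ip3 (C.D2 (ω i)) (C.D2 (ω i))) ≤ 32 * ε := by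
    intro i
    have h := hw.w2 (ω i) (hω.sd i)
    rw [hω.co i, hω.on i i, ip1_zero_left, map_zero, if_pos rfl] at h
    linarith
  obtain ⟨ρ, m, hm, hm1, hb, hD, hf⟩ := ht 2 (ι × ι) (fun i => unc (ω i))
    (fun i a => unc (C.D2 (ω i) a)) (64 * ε)
    (fun i j a => by simp only [ip1_unc]; exact hl.a.Y_ip2 _ _ a)
    (by
      simp only [ip1_unc, Fin.sum_univ_two]
      rw [hω.on 0 0, hω.on 1 1, if_pos rfl, if_pos rfl]
      norm_num)
    (by
      simp only [ip1_unc, Fin.sum_univ_two, ← map_sum, ← ip3_eq]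
      rw [map_add]
      linarith [hE 0, hE 1])
  have u1 : ∀ i, ρ • unc (ω i) = unc (ρ • ω i) := fun i => rfl
  have u2 : ∀ i a, C.Y a ρ • unc (ω i) + ρ • unc (C.D2 (ω i) a) = unc (C.D2 (ρ • ω i) a) := by
    intro i a
    funext p
    simp only [unc, Pi.add_apply, Pi.smul_apply, smul_eq_mul, hl.a.D2_smul]
  simp only [u1, u2, ip1_unc, Fin.sum_univ_two, ← map_sum, ← ip3_eq] at hb hD hf
  have hsd : ∀ i, C.SD vol (ρ • ω i) := fun i =>
    ⟨hl.a.form_smul ρ _ (hω.sd i).1, by rw [hl.b.star_smul, (hω.sd i).2]⟩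
  refine ⟨comm (ρ • ω 0) (ρ • ω 1), hl.b.sd_comm _ _ (hsd 0) (hsd 1), ?_, ?_, ?_⟩
  · rw [Fin.forall_fin_two, comm_smul, ip2_smul_left, ip2_smul_left,
      comm_orth_left _ _ (hω.sd 0).1.1, comm_orth_right _ _ (hω.sd 1).1.1, mul_zero, map_zero]
    exact ⟨rfl, rfl⟩
  · rw [hl.b.sd_comm_sq _ _ (hsd 0) (hsd 1)]
    have f0 := hf 0 0
    have f1 := hf 1 1
    have f2 := hf 0 1
    rw [hω.on 0 0, if_pos rfl, mul_one] at f0
    rw [hω.on 1 1, if_pos rfl, mul_one] at f1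
    rw [hω.on 0 1, if_neg (by decide), mul_zero, map_zero, sub_zero] at f2
    exact gram_ge C I vol hl hp _ _ _ m (10000 * (64 * ε)) hm hm1 (by linarith) f0 f1 f2
  · have hd := D_comm_le C I vol hl (ρ • ω 0) (ρ • ω 1) (fun x => by rw [← map_add]; exact hb x)
    have h : I (ip1 (C.cd2 (comm (ρ • ω 0) (ρ • ω 1))) (C.cd2 (comm (ρ • ω 0) (ρ • ω 1))))
        ≤ I ((4 : ℝ) • ip3 (C.D2 (comm (ρ • ω 0) (ρ • ω 1))) (C.D2 (comm (ρ • ω 0) (ρ • ω 1)))) := by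
      refine hl.q.mono _ _ fun x => ?_
      rw [map_smul, smul_eq_mul]
      exact hl.q.cd2_le _ x
    rw [map_smul, smul_eq_mul] at h
    rw [map_add] at hD
    linarith

/-- A coexact 1-form is the codifferential of an exact 2-form with coclosed potential. -/
lemma pot (hl : C.Lib I vol) (hG : C.Green) (φ : ι → ι → R) (hφ : C.Form2 φ) :
    ∃ θ, C.Hor1 θ ∧ C.cd1 θ = 0 ∧ C.cd2 (C.d1 θ) = C.cd2 φ := by
  obtain ⟨θ, hθ, e⟩ := hG (C.cd2 φ) (hl.a.hor_cd2 φ hφ)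
  have o : ∀ χ : ι → ι → R, (∀ a b, χ a b = - χ b a) →
      I (ip1 (C.d0 (C.cd1 θ)) (C.cd2 χ)) = 0 := by
    intro χ hχ
    have h := hl.d.adj1 (C.d0 (C.cd1 θ)) χ hχ
    rw [hl.a.d1_d0, ip2_zero_left, map_zero] at h
    linarith
  have z1 : C.d0 (C.cd1 θ) = 0 := by
    refine hl.q.z1 ι _ ?_
    have h := o φ hφ.1
    rw [← e, ip1_add_right, map_add, o _ (hl.a.form_d1 θ hθ).1, zero_add] at h
    exact h
  have z0 : C.cd1 θ = 0 := by
    refine hl.q.z0 _ ?_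
    rw [← hl.d.adj0, z1, ip1_zero_left, map_zero]
  refine ⟨θ, hθ, z0, ?_⟩
  rw [← e, z1, add_zero]

/-- The self-dual part of the differential of the potential is the given form. -/
lemma sd_part (hl : C.Lib I vol) {ω : Fin 2 → ι → ι → R} (hω : C.HBasis I vol ω)
    (φ : ι → ι → R) (hφ : C.SD vol φ) (ho : ∀ i, I (ip2 φ (ω i)) = 0) (θ : ι → R)
    (hθ : C.Hor1 θ) (e : C.cd2 (C.d1 θ) = C.cd2 φ) : φ = C.d1 θ + star vol (C.d1 θ) := by
  have hd := hl.a.form_d1 θ hθ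
  have hs := hl.b.star_form (C.d1 θ)
  have hc : C.cd2 (star vol (C.d1 θ)) = 0 := hl.c.cd2_star_closed _ hd (hl.r.d2_d1 θ hθ)
  have o1 : ∀ i, I (ip2 (C.d1 θ) (ω i)) = 0 := by
    intro i
    rw [hl.d.adj1 θ _ (hω.sd i).1.1, hω.co i, ip1_zero_right, map_zero, mul_zero]
  have z : φ + (-1 : ℝ) • (C.d1 θ + star vol (C.d1 θ)) = 0 := by
    refine hω.span _ ⟨?_, ?_⟩ ?_ ?_
    · exact hl.a.form_add _ _ hφ.1 (hl.a.form_rsmul _ _ (hl.a.form_add _ _ hd hs))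
    · rw [hl.b.star_add, hl.b.star_rsmul, hl.b.star_add, hl.b.star_star _ hd, hφ.2,
        add_comm (star vol (C.d1 θ))]
    · rw [hl.a.cd2_add, hl.a.cd2_rsmul, hl.a.cd2_add, hc, e, add_zero, neg_one_smul,
        add_neg_cancel]
    · intro i
      rw [neg_one_smul, ← sub_eq_add_neg, ip2_sub_left, ip2_add_left, hl.b.star_symm,
        (hω.sd i).2, map_sub, map_add, ho i, o1 i]
      norm_num
  rwa [neg_one_smul, ← sub_eq_add_neg, sub_eq_zero] at z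

end Theta1P

open Theta1P in
theorem theta1 (hl : C.Lib I vol) (hp : C.PosI I) (ht : C.Trunc I) (hG : C.Green) {ε : ℝ}
    (h0 : 0 ≤ ε) (h1 : ε ≤ 1 / 10 ^ 11) (hw : C.Wb I vol ε) {ω} (hω : C.HBasis I vol ω) :
    C.Theta1 I ε := by
  obtain ⟨φ, hφ, ho, hn, hc⟩ := phi0 C I vol hl hp ht h1 hw hω
  obtain ⟨θ, hθ, z, e⟩ := pot C I vol hl hG φ hφ.1
  have hs := sd_part C I vol hl hω φ hφ ho θ hθ e
  have hd := hl.a.form_d1 θ hθ
  have hcs : C.cd2 (star vol (C.d1 θ)) = 0 := hl.c.cd2_star_closed _ hd (hl.r.d2_d1 θ hθ)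
  have x1 : I (ip2 (C.d1 θ) (star vol (C.d1 θ))) = 0 := by
    rw [hl.d.adj1 θ _ (hl.b.star_form _).1, hcs, ip1_zero_right, map_zero, mul_zero]
  have x2 : I (ip2 φ φ) = 2 * I (ip2 (C.d1 θ) (C.d1 θ)) := by
    rw [hs, ip2_add_left, ip2_add_right, ip2_add_right, hl.b.star_symm, hl.b.star_symm,
      hl.b.star_star _ hd, map_add, map_add, map_add, x1]
    ring
  have x3 : I (ip2 (C.d1 θ) (C.d1 θ)) = 2 * I (ip1 θ (C.cd2 φ)) := by
    rw [hl.d.adj1 θ _ hd.1, e]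
  have x4 := hl.q.cs1 ι θ (C.cd2 φ)
  have x5 := hw.w1 θ hθ
  rw [z, mul_zero, map_zero, add_zero] at x5
  have hT0 := hl.q.nn1 ι θ
  set T := I (ip1 θ θ) with hT
  set N := I (ip2 (C.d1 θ) (C.d1 θ)) with hN
  have hN1 : 1 / 100 ≤ N := by linarith
  have x6 : N * N ≤ 4 * (T * (8192 * ε)) := by
    have := mul_le_mul_of_nonneg_left hc hT0
    rw [x3]
    nlinarith
  have x7 : N ≤ 3276800 * (ε * T) := by nlinarith
  have hTp : 0 < T := by
    rcases hT0.eq_or_lt with h | h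
    · rw [← h] at x7
      linarith
    · exact h
  have hεT : 0 ≤ ε * T := mul_nonneg h0 hT0
  have hcc : (Real.sqrt T)⁻¹ * (Real.sqrt T)⁻¹ = T⁻¹ := by
    rw [← mul_inv, Real.mul_self_sqrt hT0]
  refine ⟨(Real.sqrt T)⁻¹ • θ, hl.a.hor_rsmul _ _ hθ, ?_, ?_⟩
  · rw [ip1_rsmul, map_smul, smul_eq_mul, hcc, ← hT, inv_mul_cancel₀ hTp.ne']
  · rw [hl.a.D1_rsmul, ip2_rsmul, map_smul, smul_eq_mul, hcc, inv_mul_le_iff₀ hTp]
    nlinarith

end Pool.Agent.P.MP_713680_gt
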