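import Pool.Agent.P.MP_713680_gt.GeoSt

/-! Package G10: the second almost parallel 1-form and the way back to self-dual forms. -/

noncomputable section

namespace Pool.Agent.P.MP_713680_gt

open Finset

namespace Theta2P

variable {R ι : Type} [CommRing R] [Fintype ι]

theorem ip1_comm (u v : ι → R) : ip1 u v = ip1 v u := by
  simp only [ip1, mul_comm]

theorem ip2_comm (φ χ : ι → ι → R) : ip2 φ χ = ip2 χ φ := by
  simp only [ip2, mul_comm]

theorem ip1_add_left (u v w : ι → R) : ip1 (u + v) w = ip1 u w + ip1 v w := by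
  simp only [ip1, Pi.add_apply, add_mul, sum_add_distrib]

theorem ip1_add_right (u v w : ι → R) : ip1 u (v + w) = ip1 u v + ip1 u w := by
  simp only [ip1, Pi.add_apply, mul_add, sum_add_distrib]

theorem ip2_add_left (u v w : ι → ι → R) : ip2 (u + v) w = ip2 u w + ip2 v w := by
  simp only [ip2, Pi.add_apply, add_mul, sum_add_distrib]

theorem ip2_add_right (u v w : ι → ι → R) : ip2 u (v + w) = ip2 u v + ip2 u w := by
  simp only [ip2, Pi.add_apply, mul_add, sum_add_distrib]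

theorem ip1_prod (φ χ : ι → ι → R) :
    ip1 (fun p : ι × ι => φ p.1 p.2) (fun p : ι × ι => χ p.1 p.2) = ip2 φ χ := by
  simp only [ip1, ip2, Fintype.sum_prod_type]

theorem ip2_eq (φ χ : ι → ι → R) : ip2 φ χ = ∑ a, ip1 (φ a) (χ a) := rfl

theorem ip3_eq (s t : ι → ι → ι → R) : ip3 s t = ∑ a, ip2 (s a) (t a) := rfl

theorem ip1_mv_mv {φ : ι → ι → R} (hs : ∀ a b, φ a b = - φ b a) (v : ι → R) :
    ip1 (mv φ v) (mv φ v) = - ∑ b, ∑ c, v b * mm φ φ b c * v c := by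
  have h1 : ip1 (mv φ v) (mv φ v) = ∑ a, ∑ b, ∑ c, φ a b * v b * (φ a c * v c) := by
    simp only [ip1, mv, sum_mul_sum]
  have h2 : ∑ b, ∑ c, v b * mm φ φ b c * v c = ∑ b, ∑ c, ∑ a, v b * (φ b a * φ a c) * v c := by
    simp only [mm, mul_sum, sum_mul]
  rw [h1, h2, sum_comm, ← sum_neg_distrib]
  refine sum_congr rfl fun b _ => ?_
  rw [sum_comm, ← sum_neg_distrib]
  refine sum_congr rfl fun c _ => ?_
  rw [← sum_neg_distrib]
  refine sum_congr rfl fun a _ => ?_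
  rw [hs b a]
  ring

variable [Algebra ℝ R]

theorem ip1_rsmul (c d : ℝ) (u v : ι → R) : ip1 (c • u) (d • v) = (c * d) • ip1 u v := by
  simp only [ip1, Pi.smul_apply, smul_sum, smul_mul_smul_comm]

theorem ip2_rsmul (c d : ℝ) (u v : ι → ι → R) : ip2 (c • u) (d • v) = (c * d) • ip2 u v := by
  simp only [ip2, Pi.smul_apply, smul_sum, smul_mul_smul_comm]

theorem eq_zero_of_two {x : R} (h : x = -x) : x = 0 := by
  have h2 : (2 : ℝ) • x = 0 := by
    rw [two_smul]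
    nth_rewrite 1 [h]
    simp
  have : x = (1 / 2 : ℝ) • ((2 : ℝ) • x) := by
    rw [smul_smul]
    norm_num
  rw [this, h2, smul_zero]

theorem ip1_mv_self {φ : ι → ι → R} (hs : ∀ a b, φ a b = - φ b a) (v : ι → R) :
    ip1 v (mv φ v) = 0 := by
  apply eq_zero_of_two
  simp only [ip1, mv, mul_sum, ← sum_neg_distrib]
  rw [sum_comm]
  refine sum_congr rfl fun a _ => sum_congr rfl fun b _ => ?_
  rw [hs b a]
  ring

variable {P : Type} (C : Calc P R ι)

theorem ev_ip1_nonneg (x : P) (u : ι → R) : 0 ≤ C.ev x (ip1 u u) := by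
  simp only [ip1, map_sum, map_mul]
  exact sum_nonneg fun a _ => mul_self_nonneg _

theorem ev_ip2_nonneg (x : P) (φ : ι → ι → R) : 0 ≤ C.ev x (ip2 φ φ) := by
  rw [ip2_eq, map_sum]
  exact sum_nonneg fun a _ => ev_ip1_nonneg C x _

theorem ev_ip1_add_le (x : P) (u v : ι → R) :
    C.ev x (ip1 (u + v) (u + v)) ≤ 2 * C.ev x (ip1 u u) + 2 * C.ev x (ip1 v v) := by
  simp only [ip1, map_sum, map_mul, Pi.add_apply, map_add, mul_sum, ← sum_add_distrib]
  exact sum_le_sum fun a _ => by nlinarith [sq_nonneg (C.ev x (u a) - C.ev x (v a))]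

end Theta2P

open Theta2P

variable {P R ι : Type} [CommRing R] [Algebra ℝ R] [Fintype ι] (C : Calc P R ι) (I : R →ₗ[ℝ] ℝ)
  (vol : ι → ι → ι → ι → R)

theorem theta2 (hl : C.Lib I vol) (hp : C.PosI I) (ht : C.Trunc I) : C.Theta2 I vol := by
  intro ω θ δ hδ hω hω1 hDω hθ hθ1 hDθ
  have hδ0 : 0 ≤ δ := (hl.q.nn2 _).trans hDθ
  obtain ⟨ρ, m, hm1, hm2, hF1, hDφ, hF⟩ := ht 1 (ι × ι) (fun _ p => ω p.1 p.2)
    (fun _ a p => C.D2 ω a p.1 p.2) δ
    (fun _ _ a => by simp only [ip1_prod]; exact hl.a.Y_ip2 ω ω a)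
    (by simp only [ip1_prod, Fin.sum_univ_one, hω1]; norm_num)
    (by simp only [ip1_prod, Fin.sum_univ_one]; rwa [ip3_eq, map_sum] at hDω)
  obtain ⟨ρ', m', hm1', hm2', hG1, hDv, hG⟩ := ht 1 ι (fun _ => θ) (fun _ a => C.D1 θ a) δ
    (fun _ _ a => hl.a.Y_ip1 θ θ a)
    (by simp only [Fin.sum_univ_one, hθ1]; norm_num)
    (by simp only [Fin.sum_univ_one]; rwa [ip2_eq, map_sum] at hDθ)
  set φ : ι → ι → R := ρ • ω with hφ
  set v : ι → R := ρ' • θ with hv
  have e1 : (ρ • fun p : ι × ι => ω p.1 p.2) = fun p : ι × ι => φ p.1 p.2 := rfl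
  have e2 : ∀ a, (C.Y a ρ • fun p : ι × ι => ω p.1 p.2) + (ρ • fun p : ι × ι => C.D2 ω a p.1 p.2)
      = fun p : ι × ι => C.D2 φ a p.1 p.2 := by
    intro a
    funext p
    rw [hφ, hl.a.D2_smul]
    rfl
  have e3 : ∀ a, C.Y a ρ' • θ + ρ' • C.D1 θ a = C.D1 v a := by
    intro a
    funext b
    rw [hv, hl.a.D1_smul]
    rfl
  have hF' := hF 0 0
  have hG' := hG 0 0
  simp only [Fin.sum_univ_one, e1, e2, ip1_prod, hω1, mul_one] at hF1 hDφ hF'
  simp only [Fin.sum_univ_one, e3, hθ1, mul_one] at hG1 hDv hG'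
  have hφSD : C.SD vol φ :=
    ⟨hl.a.form_smul ρ ω hω.1, by rw [hφ, hl.b.star_smul, hω.2]⟩
  have hvH : C.Hor1 v := hl.a.hor_smul ρ' θ hθ
  set w : ι → R := mv φ v with hw
  have hwH : C.Hor1 w := hl.a.hor_mv φ v hφSD.1
  have horth : ip1 θ w = 0 := by
    have : ip1 θ w = ρ * ρ' * ip1 θ (mv ω θ) := by
      simp only [hw, hφ, hv, ip1, mv, mul_sum, Pi.smul_apply, smul_eq_mul]
      exact sum_congr rfl fun a _ => sum_congr rfl fun b _ => by ring
    rw [this, ip1_mv_self hω.1.1, mul_zero]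
  have hww : (4 : ℝ) • ip1 w w = ip2 φ φ * ip1 v v := by
    have h4 : (4 : ℝ) • ip1 w w = 4 * ip1 w w := by
      rw [show (4 : ℝ) = ((4 : ℕ) : ℝ) by norm_num, Nat.cast_smul_eq_nsmul, nsmul_eq_mul]
      norm_num
    have h5 : ip1 v v = ∑ b, ∑ c, v b * C.Pr b c * v c := by
      refine sum_congr rfl fun b _ => ?_
      nth_rewrite 2 [← hvH b]
      rw [mul_sum]
      exact sum_congr rfl fun c _ => by ring
    rw [h4, hw, ip1_mv_mv hφSD.1.1, h5, mul_neg, mul_sum, mul_sum, ← sum_neg_distrib]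
    refine sum_congr rfl fun b _ => ?_
    rw [mul_sum, mul_sum, ← sum_neg_distrib]
    refine sum_congr rfl fun c _ => ?_
    have := hl.b.sd_anti φ φ hφSD hφSD b c
    linear_combination (-(v b * v c)) * this
  -- the norm of `w`
  have hN : 1 / 200 ≤ I (ip1 w w) := by
    set F := ip2 φ φ with hFd
    set G := ip1 v v with hGd
    have h1 : F * G = (m * m') • (1 : R) + m • ((G - algebraMap ℝ R m') * 1)
        + (F - algebraMap ℝ R m) * G := by
      simp only [Algebra.smul_def, map_mul]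
      ring
    have h2 : I (F * G) = m * m' + m * I ((G - algebraMap ℝ R m') * 1)
        + I ((F - algebraMap ℝ R m) * G) := by
      rw [h1, map_add, map_add, map_smul, map_smul, hp.one, smul_eq_mul, smul_eq_mul, mul_one]
    have h3 := hl.q.cs0 (G - algebraMap ℝ R m') 1
    have h4 := hl.q.cs0 (F - algebraMap ℝ R m) G
    have h5 : I (G * G) ≤ 1 := by
      rw [← hp.one]
      refine hl.q.mono _ _ fun x => ?_
      rw [map_mul, map_one]
      have := ev_ip1_nonneg C x v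
      have := hG1 x
      nlinarith
    rw [one_mul, hp.one, mul_one, ← sq] at h3
    rw [← sq (F - _)] at h4
    have h6 : I ((G - algebraMap ℝ R m') * 1) ^ 2 ≤ (1 / 200) ^ 2 := by
      rw [mul_one]
      linarith
    have h7 : I ((F - algebraMap ℝ R m) * G) ^ 2 ≤ (1 / 200) ^ 2 := by
      have h8 : 0 ≤ I (G * G) := hl.q.nn0 G
      have h9 : I ((F - algebraMap ℝ R m) ^ 2) * I (G * G) ≤ 10000 * δ * 1 :=
        mul_le_mul hF' h5 h8 (by positivity)
      linarith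
    have h6' := (abs_le_of_sq_le_sq' h6 (by norm_num)).1
    have h7' := (abs_le_of_sq_le_sq' h7 (by norm_num)).1
    have h8 : 4 * I (ip1 w w) = I (F * G) := by rw [← hww, map_smul, smul_eq_mul]
    nlinarith
  have hD : I (ip2 (C.D1 w) (C.D1 w)) ≤ 16 * δ := by
    have h1 : I (ip2 (C.D1 w) (C.D1 w)) ≤ I ((2 : ℝ) • (∑ a, ip2 (C.D2 φ a) (C.D2 φ a))
        + (2 : ℝ) • ∑ a, ip1 (C.D1 v a) (C.D1 v a)) := by
      refine hl.q.mono _ _ fun x => ?_
      rw [ip2_eq]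
      simp only [map_add, map_smul, map_sum, smul_eq_mul, mul_sum, ← sum_add_distrib]
      refine sum_le_sum fun a _ => ?_
      rw [hw, hl.a.D1_mv]
      refine (ev_ip1_add_le C x _ _).trans ?_
      have k1 := hl.q.mv_le (C.D2 φ a) v x
      have k2 := hl.q.mv_le φ (C.D1 v a) x
      have k3 := mul_le_mul_of_nonneg_left (hG1 x) (ev_ip2_nonneg C x (C.D2 φ a))
      have k4 := mul_le_mul_of_nonneg_right (hF1 x) (ev_ip1_nonneg C x (C.D1 v a))
      linarith
    simp only [map_add, map_smul, map_sum, smul_eq_mul] at h1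
    linarith
  set N := I (ip1 w w) with hNd
  have hN0 : 0 < N := by linarith
  have hc : (√N)⁻¹ * (√N)⁻¹ * N = 1 := by
    rw [← mul_inv, Real.mul_self_sqrt hN0.le, inv_mul_cancel₀ hN0.ne']
  refine ⟨(√N)⁻¹ • w, hl.a.hor_rsmul _ _ hwH, ?_, ?_, ?_⟩
  · rw [ip1_rsmul, map_smul, smul_eq_mul, hc]
  · have := ip1_rsmul 1 (√N)⁻¹ θ w
    rw [one_smul] at this
    rw [this, horth, smul_zero, map_zero]
  · rw [hl.a.D1_rsmul, ip2_rsmul, map_smul, smul_eq_mul]
    have h0 : 0 ≤ (√N)⁻¹ * (√N)⁻¹ := mul_self_nonneg _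
    have h1 : (√N)⁻¹ * (√N)⁻¹ ≤ 200 := by nlinarith
    have h2 := mul_le_mul h1 hD (hl.q.nn2 _) (by norm_num)
    linarith

theorem psi (hl : C.Lib I vol) (h : C.Poinc I) : C.Psi I vol := by
  intro ξ u δ hδ0 hδ hξ hu hG hD
  have hform := hl.a.form_d1 u hu
  have hcs : C.cd2 (star vol (C.d1 u)) = 0 := hl.c.cd2_star_closed _ hform (hl.r.d2_d1 u hu)
  have hcd : C.cd2 (C.d1 u + star vol (C.d1 u)) = C.cd2 (C.d1 u) := by
    rw [hl.a.cd2_add, hcs, add_zero]
  set xc := C.cd2 (C.d1 u) with hxc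
  set g := C.cd1 u with hg
  have horth : I (ip1 (C.d0 g) xc) = 0 := by
    have := hl.d.adj1 (C.d0 g) (C.d1 u) hform.1
    rw [hl.a.d1_d0] at this
    have h0 : ip2 (0 : ι → ι → R) (C.d1 u) = 0 := by simp [ip2]
    rw [h0, map_zero] at this
    linarith
  have horth' : I (ip1 xc (C.d0 g)) = 0 := by rw [ip1_comm, horth]
  set A := I (ip1 (C.d0 g) (C.d0 g)) with hA
  set Xc := I (ip1 xc xc) with hXc
  set X := I (ip1 ξ ξ) with hX
  set U := I (ip2 (C.d1 u) (C.d1 u)) with hU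
  have hA0 : 0 ≤ A := hl.q.nn1 _ _
  have hXc0 : 0 ≤ Xc := hl.q.nn1 _ _
  have hU0 : 0 ≤ U := hl.q.nn2 _
  have hsum : X = Xc + A := by
    rw [hX, ← hG, ip1_add_left, ip1_add_right, ip1_add_right, map_add, map_add, map_add, horth,
      horth']
    ring
  have hX0 : 0 ≤ X := by linarith
  have hfour : ∀ f : R, (∀ x, C.ev x f ≤ 4 * C.ev x (ip2 (C.D1 ξ) (C.D1 ξ))) → I f ≤ 4 * (δ * X) := by
    intro f hf
    have := hl.q.mono f ((4 : ℝ) • ip2 (C.D1 ξ) (C.D1 ξ)) fun x => by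
      rw [map_smul, smul_eq_mul]
      exact hf x
    rw [map_smul, smul_eq_mul] at this
    linarith
  have h1 : A = I (g * C.cd1 ξ) := by
    rw [← hl.d.adj0, ← hG, ip1_add_right, map_add, horth, zero_add]
  have h2 : I (g * g) ≤ 100 * A := by
    have := h g
    rw [hg, hl.d.div1] at this
    linarith
  have h3 : A ^ 2 ≤ 100 * A * (4 * (δ * X)) := by
    rw [h1]
    refine (hl.q.cs0 _ _).trans ?_
    rw [← h1]
    exact mul_le_mul h2 (hfour _ (hl.q.cd1_le ξ)) (hl.q.nn0 _) (by positivity)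
  have h4 : A ≤ 400 * (δ * X) := by
    by_contra hc
    have : 0 ≤ δ * X := mul_nonneg hδ0 hX0
    nlinarith
  have h5 : X ≤ 2 * Xc := by nlinarith
  have h6 : I (ip2 (C.d1 ξ) (C.d1 u)) = 2 * Xc := by
    rw [hl.d.adj1 ξ _ hform.1, ← hxc, ← hG, ip1_add_left, map_add, horth, add_zero]
  have h7 : (2 * Xc) ^ 2 ≤ 4 * (δ * X) * U := by
    rw [← h6]
    exact (hl.q.cs2 _ _).trans (mul_le_mul_of_nonneg_right (hfour _ (hl.q.d1_le ξ)) hU0)
  have h8 : Xc ≤ δ * (2 * U) := by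
    by_contra hc
    have k1 : 0 ≤ δ * U := mul_nonneg hδ0 hU0
    have k2 : δ * U * X ≤ δ * U * (2 * Xc) := mul_le_mul_of_nonneg_left h5 k1
    nlinarith
  have h9 : I (ip2 (C.d1 u) (star vol (C.d1 u))) = 0 := by
    rw [hl.d.adj1 u _ (hl.b.star_form _).1, hcs]
    simp [ip1]
  have h10 : I (ip2 (C.d1 u + star vol (C.d1 u)) (C.d1 u + star vol (C.d1 u))) = 2 * U := by
    rw [ip2_add_left, ip2_add_right, ip2_add_right, map_add, map_add, map_add, h9,
      ip2_comm (star vol (C.d1 u)) (C.d1 u), h9, hl.b.star_symm, hl.b.star_star _ hform]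
    ring
  refine ⟨by rw [hcd, h10]; exact h8, fun h0 => hl.q.z1 _ _ ?_⟩
  rw [h0] at h10
  have h11 : U = 0 := by
    have : ip2 (0 : ι → ι → R) (0 : ι → ι → R) = 0 := by simp [ip2]
    rw [this, map_zero] at h10
    linarith
  rw [h11] at h8
  linarith

end Pool.Agent.P.MP_713680_gt
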