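import Pool.Agent.P.MP_713680_gt.GeoSt

/-! MP_713680_gt, package G7: truncation of almost parallel sections, and the rank bound. -/

set_option linter.unusedSectionVars false

noncomputable section

namespace Pool.Agent.P.MP_713680_gt

open Finset

variable {P R ι : Type} [CommRing R] [Algebra ℝ R] [Fintype ι] (C : Calc P R ι) (I : R →ₗ[ℝ] ℝ)
  (vol : ι → ι → ι → ι → R)

namespace TruncP

variable {κ : Type} [Fintype κ]

theorem ip1_comm (u v : κ → R) : ip1 u v = ip1 v u := sum_congr rfl fun _ _ => mul_comm _ _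

theorem ip1_add_left (u v w : κ → R) : ip1 (u + v) w = ip1 u w + ip1 v w := by
  simp only [ip1, Pi.add_apply, add_mul, sum_add_distrib]

theorem ip1_add_right (u v w : κ → R) : ip1 u (v + w) = ip1 u v + ip1 u w := by
  simp only [ip1, Pi.add_apply, mul_add, sum_add_distrib]

theorem ip1_smul_left (f : R) (u v : κ → R) : ip1 (f • u) v = f * ip1 u v := by
  simp only [ip1, Pi.smul_apply, smul_eq_mul, mul_sum, mul_assoc]

theorem ip1_smul_right (f : R) (u v : κ → R) : ip1 u (f • v) = f * ip1 u v := by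
  rw [ip1_comm, ip1_smul_left, ip1_comm]

theorem ev_ip1 (x : P) (u v : κ → R) :
    C.ev x (ip1 u v) = ∑ k, C.ev x (u k) * C.ev x (v k) := by
  simp only [ip1, map_sum, map_mul]

theorem ev_nn (x : P) (u : κ → R) : 0 ≤ C.ev x (ip1 u u) := by
  rw [ev_ip1]; exact sum_nonneg fun _ _ => mul_self_nonneg _

theorem ev_cs (x : P) (u v : κ → R) :
    C.ev x (ip1 u v) ^ 2 ≤ C.ev x (ip1 u u) * C.ev x (ip1 v v) := by
  simp only [ev_ip1, ← sq]
  exact sum_mul_sq_le_sq_mul_sq _ _ _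

theorem ev_cs_sum {r : ℕ} (x : P) (u v : Fin r → κ → R) :
    C.ev x (∑ i, ip1 (u i) (v i)) ^ 2 ≤
      C.ev x (∑ i, ip1 (u i) (u i)) * C.ev x (∑ i, ip1 (v i) (v i)) := by
  have := ev_cs C x (fun p : Fin r × κ => u p.1 p.2) (fun p : Fin r × κ => v p.1 p.2)
  simpa only [ip1, Fintype.sum_prod_type] using this

theorem ev_add_le (x : P) (u v : κ → R) :
    C.ev x (ip1 (u + v) (u + v)) ≤ 2 * C.ev x (ip1 u u) + 2 * C.ev x (ip1 v v) := by
  simp only [ev_ip1, mul_sum, ← sum_add_distrib, Pi.add_apply, map_add]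
  exact sum_le_sum fun k _ => by nlinarith [sq_nonneg (C.ev x (u k) - C.ev x (v k))]

theorem I_const (hp : C.PosI I) (c : ℝ) : I (algebraMap ℝ R c) = c := by
  rw [Algebra.algebraMap_eq_smul_one, map_smul, hp.one, smul_eq_mul, mul_one]

theorem I_const_mul (c : ℝ) (f : R) : I (algebraMap ℝ R c * f) = c * I f := by
  rw [← Algebra.smul_def, map_smul, smul_eq_mul]

theorem I_sub_sq (hp : C.PosI I) (f : R) (c : ℝ) :
    I ((f - algebraMap ℝ R c) ^ 2) = I (f * f) - I f ^ 2 + (I f - c) ^ 2 := by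
  have : (f - algebraMap ℝ R c) ^ 2 =
      f * f - algebraMap ℝ R (2 * c) * f + algebraMap ℝ R (c * c) := by
    simp only [map_mul, map_ofNat]; ring
  rw [this, map_add, map_sub, I_const_mul, I_const C I hp]; ring

/-- the real inequality behind the bound on the derivative of the truncated sections -/
theorem real1 {sg rho S E ys yr : ℝ} (h1 : sg * sg = 1 + S) (h2 : sg * rho = 1) (hS : 0 ≤ S)
    (hE : 0 ≤ E) (h3 : ys ^ 2 ≤ E) (h4 : yr = -(rho * rho * ys)) :
    2 * (yr * (yr * S)) + 2 * (rho * (rho * E)) ≤ 4 * E := by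
  have a1 : rho * rho * (1 + S) = 1 := by rw [← h1]; linear_combination (sg * rho + 1) * h2
  have a2 : 0 ≤ rho * rho := mul_self_nonneg _
  have a3 : 0 ≤ rho * rho * S := mul_nonneg a2 hS
  have a4 : rho * rho ≤ 1 := by nlinarith
  have a5 : rho * rho * S ≤ 1 := by nlinarith
  have a6 : rho * rho * (rho * rho * S) ≤ 1 := by nlinarith
  have a7 : yr * (yr * S) = rho * rho * (rho * rho * S) * ys ^ 2 := by rw [h4]; ring
  have a8 : rho * rho * (rho * rho * S) * ys ^ 2 ≤ E := by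
    nlinarith [mul_nonneg a2 a3, sq_nonneg ys]
  have a9 : rho * (rho * E) ≤ E := by nlinarith
  linarith

end TruncP

open TruncP

theorem trunc (hq : C.Ineq I) (hp : C.PosI I) (hf : C.Fun) (h : C.Poinc I) : C.Trunc I := by
  intro r κ _ s Ds δ hY h4 hδ
  set S : R := ∑ i, ip1 (s i) (s i) with hS
  have S0 : ∀ x, 0 ≤ C.ev x S := fun x => by
    rw [hS, map_sum]; exact sum_nonneg fun i _ => ev_nn C x _
  obtain ⟨σ, σ0, hσ⟩ := hf.sqrt (1 + S) fun x => by
    rw [map_add, map_one]; linarith [S0 x]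
  obtain ⟨ρ, hρ⟩ := hf.inv σ σ0
  have eσ : ∀ x, C.ev x σ * C.ev x σ = 1 + C.ev x S := fun x => by
    rw [← map_mul, hσ, map_add, map_one]
  have eρ : ∀ x, C.ev x σ * C.ev x ρ = 1 := fun x => by rw [← map_mul, hρ, map_one]
  have σ1 : ∀ x, 1 ≤ C.ev x σ := fun x => by nlinarith [eσ x, S0 x, σ0 x]
  have I1 : 1 ≤ I σ := by
    rw [← hp.one]; exact hq.mono _ _ fun x => by rw [map_one]; exact σ1 x
  have I2 : I (σ * σ) ≤ 5 := by
    rw [hσ, map_add, hp.one, hS, map_sum]; linarith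
  have I3 : I σ ^ 2 ≤ I (σ * σ) := by
    have := hq.cs0 σ 1
    rwa [mul_one, mul_one, hp.one, mul_one] at this
  -- the energy density along `Y a`
  set E : ι → R := fun a => ∑ i, ip1 (Ds i a) (Ds i a) with hE
  have E0 : ∀ a x, 0 ≤ C.ev x (E a) := fun a x => by
    rw [hE, map_sum]; exact sum_nonneg fun i _ => ev_nn C x _
  have IE : I (∑ a, E a) ≤ δ := by
    simp only [hE, map_sum]; rw [sum_comm]; exact hδ
  have δ0 : 0 ≤ δ := le_trans (hp.nonneg _ fun x => by
    rw [map_sum]; exact sum_nonneg fun a _ => E0 a x) IE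
  have Yσ : ∀ a x, C.ev x (C.Y a σ) ^ 2 ≤ C.ev x (E a) := fun a x => by
    have e1 : C.Y a (σ * σ) = C.Y a (1 + S) := by rw [hσ]
    have e2 : C.Y a S = 2 * ∑ i, ip1 (Ds i a) (s i) := by
      rw [hS, map_sum, mul_sum]
      exact sum_congr rfl fun i _ => by rw [hY, ip1_comm (s i)]; ring
    rw [Derivation.leibniz, map_add, Derivation.map_one_eq_zero, zero_add, e2, smul_eq_mul] at e1
    have e3 := congrArg (C.ev x) e1
    rw [map_add, map_mul, map_mul, map_ofNat] at e3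
    have e4 := ev_cs_sum C x (fun i => Ds i a) s
    have e5 : C.ev x (∑ i, ip1 (Ds i a) (s i)) = C.ev x σ * C.ev x (C.Y a σ) := by linarith
    rw [e5] at e4
    change _ ≤ C.ev x (E a) * C.ev x S at e4
    have e6 : 0 < C.ev x σ * C.ev x σ := mul_pos (σ0 x) (σ0 x)
    refine le_of_mul_le_mul_left ?_ e6
    nlinarith [eσ x, E0 a x]
  have Yρ : ∀ a, C.Y a ρ = -(ρ * ρ * C.Y a σ) := fun a => by
    have e1 : C.Y a (σ * ρ) = 0 := by rw [hρ, Derivation.map_one_eq_zero]
    rw [Derivation.leibniz, smul_eq_mul, smul_eq_mul] at e1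
    linear_combination ρ * e1 - C.Y a ρ * hρ
  have n1 : ∀ x, C.ev x (∑ i, ip1 (ρ • s i) (ρ • s i)) ≤ 1 := fun x => by
    have : ∑ i, ip1 (ρ • s i) (ρ • s i) = ρ * (ρ * S) := by
      simp only [ip1_smul_left, ip1_smul_right, hS, mul_sum]
    rw [this, map_mul, map_mul]
    have a1 : C.ev x ρ * C.ev x ρ * (1 + C.ev x S) = 1 := by
      rw [← eσ x]; linear_combination (C.ev x σ * C.ev x ρ + 1) * eρ x
    nlinarith [mul_self_nonneg (C.ev x ρ)]
  have n2 : ∀ x i, C.ev x (ip1 (ρ • s i) (ρ • s i)) ≤ 1 := fun x i => by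
    refine le_trans ?_ (n1 x)
    rw [map_sum]
    exact single_le_sum (f := fun i => C.ev x (ip1 (ρ • s i) (ρ • s i)))
      (fun j _ => ev_nn C x _) (mem_univ i)
  set T : Fin r → ι → κ → R := fun i a => C.Y a ρ • s i + ρ • Ds i a with hT
  have T1 : ∑ i, ∑ a, I (ip1 (T i a) (T i a)) ≤ 4 * δ := by
    have b1 : ∀ a x, C.ev x (∑ i, ip1 (T i a) (T i a)) ≤ 4 * C.ev x (E a) := fun a x => by
      refine le_trans ?_ (real1 (eσ x) (eρ x) (S0 x) (E0 a x) (Yσ a x)
        (yr := C.ev x (C.Y a ρ)) (by rw [Yρ]; simp only [map_neg, map_mul]))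
      simp only [hS, hE, map_sum, mul_sum, ← sum_add_distrib]
      refine sum_le_sum fun i _ => (ev_add_le C x _ _).trans (le_of_eq ?_)
      simp only [ip1_smul_left, ip1_smul_right, map_mul]
    have b2 : I (∑ a, ∑ i, ip1 (T i a) (T i a)) ≤ I (algebraMap ℝ R 4 * ∑ a, E a) :=
      hq.mono _ _ fun x => by
        rw [map_mul, AlgHom.commutes, map_sum, map_sum, mul_sum]
        exact sum_le_sum fun a _ => b1 a x
    rw [I_const_mul] at b2
    simp only [map_sum] at b2 IE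
    rw [sum_comm]; linarith
  have T2 : ∀ i, ∑ a, I (ip1 (T i a) (T i a)) ≤ 4 * δ := fun i =>
    le_trans (single_le_sum (f := fun i => ∑ a, I (ip1 (T i a) (T i a)))
      (fun j _ => sum_nonneg fun a _ => hq.nn1 κ _) (mem_univ i)) T1
  have Vσ : I (σ * σ) - I σ ^ 2 ≤ 100 * δ := by
    refine (h σ).trans (mul_le_mul_of_nonneg_left (le_trans (hq.mono _ _ fun x => ?_) IE)
      (by norm_num))
    rw [ev_ip1, map_sum]
    exact sum_le_sum fun a _ => by rw [← sq]; exact Yσ a x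
  have m0 : 0 < I σ ^ 2 := by positivity
  refine ⟨ρ, 1 / I σ ^ 2, one_div_le_one_div_of_le m0 (I3.trans I2),
    (div_le_one m0).2 (by nlinarith), n1, T1, fun i j => ?_⟩
  set m : ℝ := 1 / I σ ^ 2 with hm
  have hm1 : m * I σ ^ 2 = 1 := by rw [hm]; field_simp
  have hm2 : 0 ≤ m := by positivity
  have hm3 : m ≤ 1 := (div_le_one m0).2 (by nlinarith)
  set f : R := ip1 (ρ • s i) (ρ • s j) with hf
  have f1 : ∀ x, C.ev x f ^ 2 ≤ 1 := fun x =>
    (ev_cs C x _ _).trans (mul_le_one₀ (n2 x i) (ev_nn C x _) (n2 x j))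
  have Yf : ∀ a, C.Y a f = ip1 (T i a) (ρ • s j) + ip1 (ρ • s i) (T j a) := fun a => by
    simp only [hf, hT, ip1_smul_left, ip1_smul_right, ip1_add_left, ip1_add_right,
      Derivation.leibniz, smul_eq_mul, hY]
    ring
  have Vf : I (f * f) - I f ^ 2 ≤ 1600 * δ := by
    have b1 : I (ip1 (C.d0 f) (C.d0 f)) ≤ I (algebraMap ℝ R 2 * ∑ a, ip1 (T i a) (T i a) +
        algebraMap ℝ R 2 * ∑ a, ip1 (T j a) (T j a)) := hq.mono _ _ fun x => by
      rw [ev_ip1, map_add, map_mul, map_mul, AlgHom.commutes, map_sum, map_sum, mul_sum, mul_sum,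
        ← sum_add_distrib]
      refine sum_le_sum fun a _ => ?_
      rw [Calc.d0, Yf, map_add]
      have c1 := (ev_cs C x (T i a) (ρ • s j)).trans
        (mul_le_of_le_one_right (ev_nn C x _) (n2 x j))
      have c2 := (ev_cs C x (ρ • s i) (T j a)).trans
        (mul_le_of_le_one_left (ev_nn C x _) (n2 x i))
      simp only [Algebra.algebraMap_self, RingHom.id_apply]
      nlinarith [sq_nonneg (C.ev x (ip1 (T i a) (ρ • s j)) - C.ev x (ip1 (ρ • s i) (T j a)))]
    rw [map_add, I_const_mul, I_const_mul, map_sum, map_sum] at b1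
    linarith [h f, T2 i, T2 j]
  have e1 : ip1 (s i) (s j) = σ * σ * f := by
    rw [hf, ip1_smul_left, ip1_smul_right]
    linear_combination (-(σ * ρ + 1) * ip1 (s i) (s j)) * hρ
  set c : R := algebraMap ℝ R (I σ) with hc
  have e2 : I f - m * I (ip1 (s i) (s j)) = -m * I ((σ - c) * (f * (σ + c))) := by
    have : (σ - c) * (f * (σ + c)) = σ * σ * f - algebraMap ℝ R (I σ ^ 2) * f := by
      rw [map_pow, ← hc]; ring
    rw [this, map_sub, I_const_mul, e1]
    linear_combination (-I f) * hm1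
  have e3 : I ((σ - c) * (σ - c)) ≤ 100 * δ := by
    rw [← sq, hc, I_sub_sq C I hp]; linarith
  have e4 : I (f * (σ + c) * (f * (σ + c))) ≤ 20 := by
    have b1 : I (f * (σ + c) * (f * (σ + c))) ≤ I ((σ - algebraMap ℝ R (-I σ)) ^ 2) :=
      hq.mono _ _ fun x => by
        rw [map_neg, sub_neg_eq_add, ← hc]
        simp only [map_mul, map_pow]
        nlinarith [f1 x, sq_nonneg (C.ev x (σ + c))]
    rw [I_sub_sq C I hp] at b1
    nlinarith
  have e5 := hq.cs0 (σ - c) (f * (σ + c))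
  have e6 : I ((σ - c) * (f * (σ + c))) ^ 2 ≤ 100 * δ * 20 :=
    e5.trans (mul_le_mul e3 e4 (hq.nn0 _) (by positivity))
  rw [I_sub_sq C I hp, e2]
  have e7 : (-m * I ((σ - c) * (f * (σ + c)))) ^ 2 ≤ I ((σ - c) * (f * (σ + c))) ^ 2 := by
    rw [mul_pow]
    exact mul_le_of_le_one_left (sq_nonneg _) (by nlinarith)
  linarith

theorem rank (hl : C.Lib I vol) (hp : C.PosI I) (ht : C.Trunc I) : C.Rank I vol := by
  intro φ hsd hon hD
  let s : Fin 4 → ι × ι → R := fun i p => φ i p.1 p.2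
  let Ds : Fin 4 → ι → ι × ι → R := fun i a p => C.D2 (φ i) a p.1 p.2
  have e : ∀ u v : ι → ι → R,
      ip1 (fun p : ι × ι => u p.1 p.2) (fun p : ι × ι => v p.1 p.2) = ip2 u v := fun u v => by
    simp only [ip1, ip2, Fintype.sum_prod_type]
  obtain ⟨ρ, m, m1, -, -, -, hm⟩ := ht 4 (ι × ι) s Ds (4 / 10 ^ 8)
    (fun i j a => by simp only [s, Ds, e]; exact hl.a.Y_ip2 _ _ a)
    (by simp only [s, e, hon, if_true]; norm_num)
    (by
      have : ∀ i, ∑ a, I (ip1 (Ds i a) (Ds i a)) ≤ 1 / 10 ^ 8 := fun i => by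
        simp only [Ds, e]; rw [← map_sum]; exact hD i
      rw [Fin.sum_univ_four]; linarith [this 0, this 1, this 2, this 3])
  simp only [s, e, hon] at hm
  set g : Fin 4 → Fin 4 → R := fun i j =>
    ip1 (ρ • s i) (ρ • s j) - algebraMap ℝ R (m * if i = j then 1 else 0) with hg
  have b1 : I (algebraMap ℝ R (m ^ 2)) ≤ I (∑ i, ∑ j, g i j ^ 2) := hl.q.mono _ _ fun x => by
    obtain ⟨c, c0, hc⟩ := hl.b.sd_dep φ hsd x
    have d1 : ∑ p : Fin 4 × Fin 4, c p.1 * c p.2 * C.ev x (g p.1 p.2) = -m * ∑ i, c i ^ 2 := by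
      have d2 : ∑ i, ∑ j, c i * c j * C.ev x (ip1 (ρ • s i) (ρ • s j)) = 0 := by
        rw [sum_comm]
        refine sum_eq_zero fun j _ => ?_
        simp only [ip1_smul_left, ip1_smul_right, map_mul, ev_ip1, mul_sum]
        rw [sum_comm]
        refine sum_eq_zero fun p _ => ?_
        have := hc p.1 p.2
        simp only [Fin.sum_univ_four, s] at this ⊢
        linear_combination (c j * C.ev x ρ * C.ev x ρ * C.ev x (φ j p.1 p.2)) * this
      rw [Fintype.sum_prod_type]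
      simp only [hg, map_sub, AlgHom.commutes, Algebra.algebraMap_self, RingHom.id_apply, mul_sub,
        sum_sub_distrib, d2, mul_ite, mul_one, mul_zero, sum_ite_eq, mem_univ, if_true]
      simp only [Fin.sum_univ_four]; ring
    have d3 := sum_mul_sq_le_sq_mul_sq univ (fun p : Fin 4 × Fin 4 => c p.1 * c p.2)
      fun p => C.ev x (g p.1 p.2)
    have d4 : ∑ p : Fin 4 × Fin 4, (c p.1 * c p.2) ^ 2 = (∑ i, c i ^ 2) ^ 2 := by
      rw [Fintype.sum_prod_type, sq (∑ i, c i ^ 2), sum_mul_sum]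
      simp only [mul_pow]
    have d5 : 0 < ∑ i, c i ^ 2 := by
      obtain ⟨i, hi⟩ := Function.ne_iff.1 c0
      exact sum_pos' (fun j _ => sq_nonneg _) ⟨i, mem_univ i, sq_pos_of_ne_zero hi⟩
    rw [d1, d4, Fintype.sum_prod_type] at d3
    simp only [AlgHom.commutes, Algebra.algebraMap_self, RingHom.id_apply, map_sum, map_pow]
    refine le_of_mul_le_mul_left (le_trans (le_of_eq ?_) d3) (pow_pos d5 2)
    ring
  rw [I_const C I hp] at b1
  simp only [map_sum] at b1
  have b2 : ∑ i, ∑ j, I (g i j ^ 2) ≤ ∑ _i : Fin 4, ∑ _j : Fin 4, (10000 * (4 / 10 ^ 8) : ℝ) :=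
    sum_le_sum fun i _ => sum_le_sum fun j _ => hm i j
  simp only [Fin.sum_univ_four] at b1 b2
  nlinarith

end Pool.Agent.P.MP_713680_gt
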