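import Pool.Agent.P.MP_713680_gt.Abs0
import Pool.Agent.P.MP_713680_gt.AlgA
import Pool.Agent.P.MP_713680_gt.AlgR
import Pool.Agent.P.MP_713680_gt.AlgB
import Pool.Agent.P.MP_713680_gt.AlgC
import Pool.Agent.P.MP_713680_gt.Ineq
import Pool.Agent.P.MP_713680_gt.Poinc
import Pool.Agent.P.MP_713680_gt.Trunc
import Pool.Agent.P.MP_713680_gt.Green
import Pool.Agent.P.MP_713680_gt.Theta1
import Pool.Agent.P.MP_713680_gt.Theta2

/-!
MP_713680_gt: the abstract theorem.
-/

noncomputable section

namespace Pool.Agent.P.MP_713680_gt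

theorem absS : S_Abs := by
  intro P R ι _ _ _ C I vol hg hd hc
  have ha := algA C
  have hr := algR C ha
  have hb := algB C vol hg.fr4
  have hl : C.Lib I vol :=
    ⟨ha, hr, hb, algC C vol ha hb, algD C I ha hr hg.div, ineq C I vol ha hb hg.pos⟩
  have hw := wb C I vol hl (by norm_num) hc
  have hP := poinc C I vol hl hg (by norm_num) (by norm_num) hw hd
  have hT := trunc C I hl.q hg.pos hg.fn hP
  have hG := green C I vol hl hg
  obtain ⟨ω, hω⟩ := hplus C I vol hl hg hG
  exact abs0 C I vol hl hw hG hω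
    (theta1 C I vol hl hg.pos hT hG (by norm_num) (by norm_num) hw hω)
    (theta2 C I vol hl hg.pos hT) (psi C I vol hl hP) (rank C I vol hl hg.pos hT)

end Pool.Agent.P.MP_713680_gt
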