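import Pool.Agent.P.MP_713680_gt.GeoSt

/-!
MP_713680_gt: the last step of the abstract argument (four almost parallel self-dual forms).
-/

set_option linter.unusedSectionVars false

noncomputable section

namespace Pool.Agent.P.MP_713680_gt

open Finset

variable {P R ι : Type} [CommRing R] [Algebra ℝ R] [Fintype ι] (C : Calc P R ι) (I : R →ₗ[ℝ] ℝ)
  (vol : ι → ι → ι → ι → R)

namespace Abs0P

theorem ip1_comm (u v : ι → R) : ip1 u v = ip1 v u := by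
  simp only [ip1, mul_comm]

theorem ip2_comm (u v : ι → ι → R) : ip2 u v = ip2 v u := by
  simp only [ip2, mul_comm]

theorem ip1_add_left (u v w : ι → R) : ip1 (u + v) w = ip1 u w + ip1 v w := by
  simp only [ip1, Pi.add_apply, add_mul, sum_add_distrib]

theorem ip1_smul_left (c : ℝ) (u w : ι → R) : ip1 (c • u) w = c • ip1 u w := by
  simp only [ip1, Pi.smul_apply, smul_mul_assoc, smul_sum]

theorem ip2_add_left (u v w : ι → ι → R) : ip2 (u + v) w = ip2 u w + ip2 v w := by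
  simp only [ip2, Pi.add_apply, add_mul, sum_add_distrib]

theorem ip2_smul_left (c : ℝ) (u w : ι → ι → R) : ip2 (c • u) w = c • ip2 u w := by
  simp only [ip2, Pi.smul_apply, smul_mul_assoc, smul_sum]

theorem ip1_add_right (u v w : ι → R) : ip1 w (u + v) = ip1 w u + ip1 w v := by
  rw [ip1_comm, ip1_add_left, ip1_comm u, ip1_comm v]

theorem ip1_smul_right (c : ℝ) (u w : ι → R) : ip1 w (c • u) = c • ip1 w u := by
  rw [ip1_comm, ip1_smul_left, ip1_comm u]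

theorem ip2_add_right (u v w : ι → ι → R) : ip2 w (u + v) = ip2 w u + ip2 w v := by
  rw [ip2_comm, ip2_add_left, ip2_comm u, ip2_comm v]

theorem ip2_smul_right (c : ℝ) (u w : ι → ι → R) : ip2 w (c • u) = c • ip2 w u := by
  rw [ip2_comm, ip2_smul_left, ip2_comm u]

theorem ip3_smul (c : ℝ) (u : ι → ι → ι → R) : ip3 (c • u) (c • u) = (c * c) • ip3 u u := by
  simp only [ip3, Pi.smul_apply, smul_mul_assoc, mul_smul_comm, smul_sum, smul_smul]

/-- The self-dual part of `d u`, doubled. -/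
def ps (u : ι → R) : ι → ι → R := C.d1 u + star vol (C.d1 u)

theorem ps_sd (hl : C.Lib I vol) {u : ι → R} (hu : C.Hor1 u) : C.SD vol (ps C vol u) := by
  have h1 := hl.a.form_d1 u hu
  refine ⟨hl.a.form_add _ _ h1 (hl.b.star_form _), ?_⟩
  rw [ps, hl.b.star_add, hl.b.star_star _ h1, add_comm]

theorem ps_lin (hl : C.Lib I vol) (a b : ℝ) (u v : ι → R) :
    ps C vol (a • u + b • v) = a • ps C vol u + b • ps C vol v := by
  simp only [ps, hl.a.d1_add, hl.a.d1_rsmul, hl.b.star_add, hl.b.star_rsmul, smul_add]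
  abel

theorem ps_orth (hl : C.Lib I vol) {ω : ι → ι → R} (h1 : C.SD vol ω) (h2 : C.cd2 ω = 0)
    (u : ι → R) : I (ip2 (ps C vol u) ω) = 0 := by
  have h3 : I (ip2 (C.d1 u) ω) = 0 := by
    rw [hl.d.adj1 u ω h1.1.1, h2]; simp [ip1]
  rw [ps, ip2_add_left, hl.b.star_symm, h1.2, map_add, h3, add_zero]

theorem sd_smul (hl : C.Lib I vol) (c : ℝ) {φ : ι → ι → R} (h : C.SD vol φ) :
    C.SD vol (c • φ) :=
  ⟨hl.a.form_rsmul c φ h.1, by rw [hl.b.star_rsmul, h.2]⟩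

theorem d0_lin (a b : ℝ) (f g : R) : C.d0 (a • f + b • g) = a • C.d0 f + b • C.d0 g := by
  funext i; simp [Calc.d0]

/-- Normalisation of a nonzero self-dual form. -/
theorem normalise (hl : C.Lib I vol) {φ : ι → ι → R} (h0 : φ ≠ 0) {K : ℝ}
    (hK : I (ip3 (C.D2 φ) (C.D2 φ)) ≤ K * I (ip2 φ φ)) :
    ∃ c : ℝ, I (ip2 (c • φ) (c • φ)) = 1 ∧ I (ip3 (C.D2 (c • φ)) (C.D2 (c • φ))) ≤ K := by
  have hp : 0 < I (ip2 φ φ) := lt_of_le_of_ne (hl.q.nn2 φ) fun h => h0 (hl.q.z2 φ h.symm)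
  have hc : (√(I (ip2 φ φ)))⁻¹ * (√(I (ip2 φ φ)))⁻¹ = (I (ip2 φ φ))⁻¹ := by
    rw [← mul_inv, Real.mul_self_sqrt hp.le]
  refine ⟨(√(I (ip2 φ φ)))⁻¹, ?_, ?_⟩
  · rw [ip2_smul_left, ip2_smul_right, smul_smul, hc, map_smul, smul_eq_mul,
      inv_mul_cancel₀ hp.ne']
  · rw [hl.a.D2_rsmul, ip3_smul, hc, map_smul, smul_eq_mul, inv_mul_le_iff₀ hp, mul_comm]
    exact hK

end Abs0P

open Abs0P in
theorem abs0 (hl : C.Lib I vol) (hw : C.Wb I vol (1 / 10 ^ 20)) (hG : C.Green)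
    {ω : Fin 2 → ι → ι → R} (hω : C.HBasis I vol ω) (h1 : C.Theta1 I (1 / 10 ^ 20))
    (h2 : C.Theta2 I vol) (hΨ : C.Psi I vol) (hR : C.Rank I vol) : False := by
  have hDω : ∀ i, I (ip3 (C.D2 (ω i)) (C.D2 (ω i))) ≤ 32 * (1 / 10 ^ 20) := by
    intro i
    have h := hw.w2 (ω i) (hω.sd i)
    rw [hω.co i, hω.on i i] at h
    simpa [ip1] using h
  obtain ⟨θ, hθ, nθ, dθ⟩ := h1
  obtain ⟨θ', hθ', nθ', oθ, dθ'⟩ := h2 (ω 0) θ (2 * 10 ^ 6 * (1 / 10 ^ 20)) (by norm_num) (hω.sd 0)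
    (by simpa using hω.on 0 0) ((hDω 0).trans (by norm_num)) hθ nθ dθ
  obtain ⟨u, hu, eu⟩ := hG θ hθ
  obtain ⟨u', hu', eu'⟩ := hG θ' hθ'
  have key : ∀ a b : ℝ, (a ≠ 0 ∨ b ≠ 0) → ps C vol (a • u + b • u') ≠ 0 ∧
      I (ip3 (C.D2 (ps C vol (a • u + b • u'))) (C.D2 (ps C vol (a • u + b • u'))))
        ≤ 1 / 10 ^ 8 * I (ip2 (ps C vol (a • u + b • u')) (ps C vol (a • u + b • u'))) := by
    intro a b hab
    have hξ : C.Hor1 (a • θ + b • θ') :=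
      hl.a.hor_add _ _ (hl.a.hor_rsmul a θ hθ) (hl.a.hor_rsmul b θ' hθ')
    have hv : C.Hor1 (a • u + b • u') :=
      hl.a.hor_add _ _ (hl.a.hor_rsmul a u hu) (hl.a.hor_rsmul b u' hu')
    have he : C.cd2 (C.d1 (a • u + b • u')) + C.d0 (C.cd1 (a • u + b • u')) = a • θ + b • θ' := by
      rw [hl.a.d1_add, hl.a.d1_rsmul, hl.a.d1_rsmul, hl.a.cd2_add, hl.a.cd2_rsmul, hl.a.cd2_rsmul,
        hl.a.cd1_add, hl.a.cd1_rsmul, hl.a.cd1_rsmul, d0_lin, ← eu, ← eu', smul_add, smul_add]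
      abel
    have hn : I (ip1 (a • θ + b • θ') (a • θ + b • θ')) = a ^ 2 + b ^ 2 := by
      simp only [ip1_add_left, ip1_add_right, ip1_smul_left, ip1_smul_right, map_add, map_smul,
        smul_eq_mul, ip1_comm θ' θ, nθ, nθ', oθ]
      ring
    have hD : I (ip2 (C.D1 (a • θ + b • θ')) (C.D1 (a • θ + b • θ')))
        ≤ 2 / 10 ^ 10 * I (ip1 (a • θ + b • θ') (a • θ + b • θ')) := by
      have hm := hl.q.nn2 (a • C.D1 θ + (-b) • C.D1 θ')
      rw [hn, hl.a.D1_add, hl.a.D1_rsmul, hl.a.D1_rsmul]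
      simp only [ip2_add_left, ip2_add_right, ip2_smul_left, ip2_smul_right, map_add, map_smul,
        smul_eq_mul, ip2_comm (C.D1 θ') (C.D1 θ)] at hm ⊢
      have e1 : a ^ 2 * I (ip2 (C.D1 θ) (C.D1 θ)) ≤ a ^ 2 * (1 / 10 ^ 10) :=
        mul_le_mul_of_nonneg_left (dθ.trans (by norm_num)) (sq_nonneg a)
      have e2 : b ^ 2 * I (ip2 (C.D1 θ') (C.D1 θ')) ≤ b ^ 2 * (1 / 10 ^ 10) :=
        mul_le_mul_of_nonneg_left (dθ'.trans (by norm_num)) (sq_nonneg b)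
      nlinarith
    obtain ⟨p1, p2⟩ := hΨ _ _ (2 / 10 ^ 10) (by norm_num) (by norm_num) hξ hv he hD
    refine ⟨fun h => ?_, ?_⟩
    · have h0 := p2 h
      rw [h0] at hn
      have : a ^ 2 + b ^ 2 = 0 := by rw [← hn]; simp [ip1]
      rcases hab with h | h
      · have := pow_pos (abs_pos.mpr h) 2; rw [sq_abs] at this; nlinarith [sq_nonneg b]
      · have := pow_pos (abs_pos.mpr h) 2; rw [sq_abs] at this; nlinarith [sq_nonneg a]
    · have h3 := hw.w2 _ (ps_sd C I vol hl hv)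
      have h4 := hl.q.nn2 (ps C vol (a • u + b • u'))
      unfold ps at h3 h4 ⊢
      nlinarith
  obtain ⟨k1, k2⟩ := key 1 0 (Or.inl one_ne_zero)
  obtain ⟨c1, n1, d1⟩ := normalise C I vol hl k1 k2
  set ψ1 := c1 • ps C vol ((1 : ℝ) • u + (0 : ℝ) • u') with hψ1
  set t := I (ip2 (ps C vol u') ψ1) with ht
  obtain ⟨k3, k4⟩ := key (-(t * c1)) 1 (Or.inr one_ne_zero)
  obtain ⟨c2, n2, d2⟩ := normalise C I vol hl k3 k4
  set ψ2 := c2 • ps C vol ((-(t * c1)) • u + (1 : ℝ) • u') with hψ2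
  have o21 : I (ip2 ψ2 ψ1) = 0 := by
    have e : ps C vol ((-(t * c1)) • u + (1 : ℝ) • u') = (-t) • ψ1 + ps C vol u' := by
      rw [hψ1, ps_lin C I vol hl, ps_lin C I vol hl]
      simp [smul_smul]
    rw [hψ2, e, ip2_smul_left, ip2_add_left, ip2_smul_left, map_smul, map_add, map_smul, n1, ← ht]
    simp
  have o1 : ∀ i, I (ip2 ψ1 (ω i)) = 0 := fun i => by
    rw [hψ1, ip2_smul_left, map_smul, ps_orth C I vol hl (hω.sd i) (hω.co i), smul_zero]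
  have o2 : ∀ i, I (ip2 ψ2 (ω i)) = 0 := fun i => by
    rw [hψ2, ip2_smul_left, map_smul, ps_orth C I vol hl (hω.sd i) (hω.co i), smul_zero]
  have s1 : C.SD vol ψ1 := sd_smul C I vol hl _ (ps_sd C I vol hl
    (hl.a.hor_add _ _ (hl.a.hor_rsmul _ u hu) (hl.a.hor_rsmul _ u' hu')))
  have s2 : C.SD vol ψ2 := sd_smul C I vol hl _ (ps_sd C I vol hl
    (hl.a.hor_add _ _ (hl.a.hor_rsmul _ u hu) (hl.a.hor_rsmul _ u' hu')))
  have on := hω.on
  apply hR ![ω 0, ω 1, ψ1, ψ2]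
  · intro i
    fin_cases i
    exacts [hω.sd 0, hω.sd 1, s1, s2]
  · intro i j
    fin_cases i <;> fin_cases j <;>
      simp [on, o1, o2, n1, n2, o21, ip2_comm (ω 0) ψ1, ip2_comm (ω 1) ψ1, ip2_comm (ω 0) ψ2,
        ip2_comm (ω 1) ψ2, ip2_comm ψ1 ψ2]
  · intro i
    fin_cases i
    exacts [(hDω 0).trans (by norm_num), (hDω 1).trans (by norm_num), d1, d2]

end Pool.Agent.P.MP_713680_gt
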