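import Pool.Agent.P.MP_713680_gt.GeoSt

/-! Package G3: four-dimensional linear algebra and the Hodge star. -/

noncomputable section

namespace Pool.Agent.P.MP_713680_gt

open Finset

namespace AlgBP

section kernel
variable {α β γ δ : Type} [Fintype β] [Fintype γ] [Fintype δ]

/-- transport of tensors along a kernel -/
def T1 (k : α → β → ℝ) (f : β → ℝ) (a : α) : ℝ := ∑ i, k a i * f i
def T2 (k : α → β → ℝ) (m : β → β → ℝ) (a b : α) : ℝ := T1 k (fun i => T1 k (m i) b) a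
def T3 (k : α → β → ℝ) (t : β → β → β → ℝ) (a b c : α) : ℝ := T1 k (fun i => T2 k (t i) b c) a
def T4 (k : α → β → ℝ) (t : β → β → β → β → ℝ) (a b c d : α) : ℝ :=
  T1 k (fun i => T3 k (t i) b c d) a

def cp (k : α → β → ℝ) (k' : β → γ → ℝ) (a : α) (c : γ) : ℝ := ∑ i, k a i * k' i c

theorem T1_comm {α' : Type} (k : α → β → ℝ) (k' : α' → γ → ℝ) (X : γ → β → ℝ) (i : α') (b : α) :
    T1 k (fun j => T1 k' (fun p => X p j) i) b = T1 k' (fun p => T1 k (X p) b) i := by
  simp only [T1, mul_sum]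
  rw [sum_comm]
  exact sum_congr rfl fun _ _ => sum_congr rfl fun _ _ => by ring

theorem T2_comm {α' : Type} (k : α → β → ℝ) (k' : α' → γ → ℝ) (X : γ → β → β → ℝ) (i : α')
    (b c : α) :
    T2 k (fun j l => T1 k' (fun p => X p j l) i) b c = T1 k' (fun p => T2 k (X p) b c) i := by
  have : ∀ j, T1 k (fun l => T1 k' (fun p => X p j l) i) c =
      T1 k' (fun p => T1 k (X p j) c) i := fun j => T1_comm k k' (fun p => X p j) i c
  rw [T2, funext this]
  exact T1_comm k k' (fun p j => T1 k (X p j) c) i b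

theorem T3_comm {α' : Type} (k : α → β → ℝ) (k' : α' → γ → ℝ) (X : γ → β → β → β → ℝ) (i : α')
    (b c d : α) : T3 k (fun j l r => T1 k' (fun p => X p j l r) i) b c d =
      T1 k' (fun p => T3 k (X p) b c d) i := by
  have : ∀ j, T2 k (fun l r => T1 k' (fun p => X p j l r) i) c d =
      T1 k' (fun p => T2 k (X p j) c d) i := fun j => T2_comm k k' (fun p => X p j) i c d
  rw [T3, funext this]
  exact T1_comm k k' (fun p j => T2 k (X p j) c d) i b

theorem T1_cp (k : α → β → ℝ) (k' : β → γ → ℝ) (f : γ → ℝ) (a : α) :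
    T1 k (T1 k' f) a = T1 (cp k k') f a := by
  simp only [T1, cp, mul_sum, sum_mul]
  rw [sum_comm]
  exact sum_congr rfl fun _ _ => sum_congr rfl fun _ _ => by ring

theorem T2_cp (k : α → β → ℝ) (k' : β → γ → ℝ) (m : γ → γ → ℝ) (a b : α) :
    T2 k (T2 k' m) a b = T2 (cp k k') m a b := by
  have : ∀ i, T1 k (T2 k' m i) b = T1 k' (fun p => T1 (cp k k') (m p) b) i := fun i => by
    refine (T1_comm k k' (fun p => T1 k' (m p)) i b).trans ?_
    simp only [T1_cp]
  rw [T2, funext this]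
  exact T1_cp k k' _ a

theorem T3_cp (k : α → β → ℝ) (k' : β → γ → ℝ) (m : γ → γ → γ → ℝ) (a b c : α) :
    T3 k (T3 k' m) a b c = T3 (cp k k') m a b c := by
  have : ∀ i, T2 k (T3 k' m i) b c = T1 k' (fun p => T2 (cp k k') (m p) b c) i := fun i => by
    refine (T2_comm k k' (fun p => T2 k' (m p)) i b c).trans ?_
    simp only [T2_cp]
  rw [T3, funext this]
  exact T1_cp k k' _ a

theorem T4_cp (k : α → β → ℝ) (k' : β → γ → ℝ) (m : γ → γ → γ → γ → ℝ) (a b c d : α) :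
    T4 k (T4 k' m) a b c d = T4 (cp k k') m a b c d := by
  have : ∀ i, T3 k (T4 k' m i) b c d = T1 k' (fun p => T3 (cp k k') (m p) b c d) i := fun i => by
    refine (T3_comm k k' (fun p => T3 k' (m p)) i b c d).trans ?_
    simp only [T3_cp]
  rw [T4, funext this]
  exact T1_cp k k' _ a

theorem T1_smul (k : α → β → ℝ) (r : ℝ) (f : β → ℝ) (a : α) :
    T1 k (fun i => r * f i) a = r * T1 k f a := by
  simp only [T1, mul_sum]
  exact sum_congr rfl fun _ _ => by ring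

theorem T1_add (k : α → β → ℝ) (f g : β → ℝ) (a : α) :
    T1 k (fun i => f i + g i) a = T1 k f a + T1 k g a := by
  simp only [T1, mul_add, sum_add_distrib]

theorem T1_neg {k : α → β → ℝ} {f g : β → ℝ} (h : ∀ i, f i = - g i) (a : α) :
    T1 k f a = - T1 k g a := by
  simp only [T1, h, mul_neg, sum_neg_distrib]

theorem T2_neg {k : α → β → ℝ} {f g : β → β → ℝ} (h : ∀ i j, f i j = - g i j) (a b : α) :
    T2 k f a b = - T2 k g a b := T1_neg (fun i => T1_neg (h i) b) a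

theorem T2_smul (k : α → β → ℝ) (r : ℝ) (f : β → β → ℝ) (a b : α) :
    T2 k (fun i j => r * f i j) a b = r * T2 k f a b := by
  simp only [T2, T1_smul]

theorem T2_add (k : α → β → ℝ) (f g : β → β → ℝ) (a b : α) :
    T2 k (fun i j => f i j + g i j) a b = T2 k f a b + T2 k g a b := by
  simp only [T2, T1_add]

theorem T4_smul (k : α → β → ℝ) (r : ℝ) (f : β → β → β → β → ℝ) (a b c d : α) :
    T4 k (fun i j l p => r * f i j l p) a b c d = r * T4 k f a b c d := by
  simp only [T4, T3, T2, T1_smul]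

theorem swap2 (k : α → β → ℝ) {X Y : β → β → ℝ} (h : ∀ i j, X i j = - Y j i) (a b : α) :
    T2 k X a b = - T2 k Y b a := by
  rw [T2, T2, ← T1_comm k k X a b]
  exact T1_neg (fun j => T1_neg (fun i => h i j) a) b

theorem alt3 (k : α → β → ℝ) {t : β → β → β → ℝ} (h : Alt3 t) : Alt3 (T3 k t) :=
  ⟨fun a b c => swap2 k (X := fun i j => T1 k (t i j) c) (Y := fun i j => T1 k (t i j) c)
      (fun i j => T1_neg (h.1 i j) c) a b,
    fun a b c => T1_neg (fun i => swap2 k (h.2 i) b c) a⟩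

theorem alt4 (k : α → β → ℝ) {t : β → β → β → β → ℝ} (h : Alt4 t) : Alt4 (T4 k t) :=
  ⟨fun a b c d => swap2 k (X := fun i j => T2 k (t i j) c d) (Y := fun i j => T2 k (t i j) c d)
      (fun i j => T2_neg (h.1 i j) c d) a b,
    fun a b c d => T1_neg (fun i => (alt3 k ⟨h.2.1 i, h.2.2 i⟩).1 b c d) a,
    fun a b c d => T1_neg (fun i => (alt3 k ⟨h.2.1 i, h.2.2 i⟩).2 b c d) a⟩

/-- a skew tensor fixed in the first index is fixed -/
theorem fix2 {k : β → β → ℝ} {m : β → β → ℝ} (h : ∀ a b, m a b = - m b a)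
    (h1 : ∀ a b, T1 k (fun i => m i b) a = m a b) (a b : β) : T2 k m a b = m a b := by
  have : ∀ i, T1 k (m i) b = m i b := fun i => by
    rw [T1_neg (h i) b, h1, ← h]
  rw [T2, funext this, h1]

theorem fix3 {k : β → β → ℝ} {t : β → β → β → ℝ} (h : Alt3 t)
    (h1 : ∀ a b c, T1 k (fun i => t i b c) a = t a b c) (a b c : β) : T3 k t a b c = t a b c := by
  have : ∀ i, T2 k (t i) b c = t i b c := fun i =>
    fix2 (h.2 i) (fun b c => by rw [T1_neg (fun j => h.1 i j c) b, h1, ← h.1]) b c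
  rw [T3, funext this, h1]

theorem fix4 {k : β → β → ℝ} {t : β → β → β → β → ℝ} (h : Alt4 t)
    (h1 : ∀ a b c d, T1 k (fun i => t i b c d) a = t a b c d) (a b c d : β) :
    T4 k t a b c d = t a b c d := by
  have : ∀ i, T3 k (t i) b c d = t i b c d := fun i =>
    fix3 ⟨h.2.1 i, h.2.2 i⟩
      (fun b c d => by rw [T1_neg (fun j => h.1 i j c d) b, h1, ← h.1]) b c d
  rw [T4, funext this, h1]

variable {ι : Type} [Fintype ι] [DecidableEq β] {e : ι → β → ℝ}

/-- orthonormal columns -/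
def On (e : ι → β → ℝ) : Prop := ∀ i j, ∑ a, e a i * e a j = if i = j then 1 else 0

theorem ip_T1 (he : On e) (f g : β → ℝ) : ∑ a, T1 e f a * T1 e g a = ∑ i, f i * g i := by
  have : ∀ a, T1 e f a * T1 e g a = ∑ i, ∑ j, f i * g j * (e a i * e a j) := fun a => by
    rw [T1, T1, sum_mul_sum]
    exact sum_congr rfl fun _ _ => sum_congr rfl fun _ _ => by ring
  rw [sum_congr rfl fun a _ => this a, sum_comm]
  refine sum_congr rfl fun i _ => ?_
  rw [sum_comm]
  simp only [← mul_sum, he i]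
  simp

theorem ip_T2 (he : On e) (f g : β → β → ℝ) : ip2 (T2 e f) (T2 e g) = ip2 f g := by
  simp only [ip2]
  rw [sum_comm]
  simp only [T2, ip_T1 he]
  rw [sum_comm]
  simp only [ip_T1 he]

theorem ip_T3 (he : On e) (f g : β → β → β → ℝ) : ip3 (T3 e f) (T3 e g) = ip3 f g := by
  have h := fun i => ip_T2 he (f i) (g i)
  simp only [ip3, ip2] at h ⊢
  rw [sum_comm, sum_congr rfl fun b _ => sum_comm]
  simp only [T3, ip_T1 he]
  rw [sum_congr rfl fun b _ => sum_comm, sum_comm]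
  simp only [h]

theorem ip_T4 (he : On e) (f g : β → β → β → β → ℝ) :
    ∑ a, ∑ b, ∑ c, ∑ d, T4 e f a b c d * T4 e g a b c d =
      ∑ a, ∑ b, ∑ c, ∑ d, f a b c d * g a b c d := by
  have h := fun i => ip_T3 he (f i) (g i)
  simp only [ip3] at h
  rw [sum_comm, sum_congr rfl fun b _ => sum_comm,
    sum_congr rfl fun b _ => sum_congr rfl fun c _ => sum_comm]
  simp only [T4, ip_T1 he]
  rw [sum_congr rfl fun b _ => sum_congr rfl fun c _ => sum_comm,
    sum_congr rfl fun b _ => sum_comm, sum_comm]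
  simp only [h]

omit [DecidableEq β] [Fintype ι] in
theorem sum_T1 {κ : Type} [Fintype κ] (X : β → κ → ℝ) (w : κ → ℝ) (a : ι) :
    ∑ c, T1 e (fun i => X i c) a * w c = T1 e (fun i => ∑ c, X i c * w c) a := by
  simp only [T1, sum_mul, mul_sum]
  rw [sum_comm]
  exact sum_congr rfl fun _ _ => sum_congr rfl fun _ _ => by ring

omit [DecidableEq β] in
theorem sum_T1' (X : β → ι → ι → ℝ) (w : ι → ι → ℝ) (a : ι) :
    ∑ c, ∑ d, T1 e (fun i => X i c d) a * w c d =
      T1 e (fun i => ∑ c, ∑ d, X i c d * w c d) a := by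
  simp only [sum_T1]
  simp only [T1, mul_sum]
  rw [sum_comm]

theorem star_T (he : On e) (v : β → β → β → β → ℝ) (m : β → β → ℝ) :
    star (T4 e v) (T2 e m) = T2 e (star v m) := by
  funext a b
  have h := fun i j => ip_T2 he (v i j) m
  simp only [ip2] at h
  show (1 / 2 : ℝ) * _ = T2 e (fun i j => (1 / 2 : ℝ) * ∑ c, ∑ d, v i j c d * m c d) a b
  rw [T2_smul]
  congr 1
  simp only [T4, T3, sum_T1', h]
  rfl

theorem dual_T (he : On e) (v : β → β → β → β → ℝ) (t : β → β → β → ℝ) (b : ι) :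
    ∑ a, ∑ c, ∑ d, T4 e v b a c d * T3 e t a c d =
      T1 e (fun i => ∑ a, ∑ c, ∑ d, v i a c d * t a c d) b := by
  have h := fun i => ip_T3 he (v i) t
  simp only [ip3] at h
  simp only [T4, sum_T1', ← h]
  simp only [T1, mul_sum]
  rw [sum_comm]

theorem mm_T (he : On e) (m n : β → β → ℝ) : mm (T2 e m) (T2 e n) = T2 e (mm m n) := by
  funext a c
  simp only [mm]
  rw [T2, show (fun b => T2 e m a b * T2 e n b c) =
    fun b => T1 e (fun i => T1 e (m i) b) a * T2 e n b c from rfl, sum_T1]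
  congr 1
  funext i
  simp only [T2, ip_T1 he]
  simp only [T1, mm, mul_sum]
  rw [sum_comm]
  exact sum_congr rfl fun _ _ => sum_congr rfl fun _ _ => by ring

theorem comm_T (he : On e) (m n : β → β → ℝ) : comm (T2 e m) (T2 e n) = T2 e (comm m n) := by
  rw [comm, mm_T he, mm_T he]
  funext a b
  have := T2_add e (comm m n) (mm n m) a b
  simp only [comm, Pi.sub_apply, sub_add_cancel] at this ⊢
  rw [sub_eq_iff_eq_add]
  exact this

theorem T2_inj (he : On e) {m n : β → β → ℝ} (h : T2 e m = T2 e n) : m = n := by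
  have h1 : cp (fun i a => e a i) e = fun i j => if i = j then 1 else 0 := by
    funext i j; exact he i j
  have key : ∀ m : β → β → ℝ, T2 (fun i a => e a i) (T2 e m) = m := fun m => by
    funext i j
    rw [T2_cp, h1]
    simp [T2, T1]
  rw [← key m, h, key]

omit [Fintype ι] in
theorem T2_one (a b : ι) : T2 e (fun i j => if i = j then 1 else 0) a b = ∑ i, e a i * e b i := by
  simp [T2, T1]

end kernel

/-- the sign tensor -/
def eps : Fin 4 → Fin 4 → Fin 4 → Fin 4 → ℤ :=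
  ![![![![0, 0, 0, 0], ![0, 0, 0, 0], ![0, 0, 0, 0], ![0, 0, 0, 0]],
      ![![0, 0, 0, 0], ![0, 0, 0, 0], ![0, 0, 0, 1], ![0, 0, -1, 0]],
      ![![0, 0, 0, 0], ![0, 0, 0, -1], ![0, 0, 0, 0], ![0, 1, 0, 0]],
      ![![0, 0, 0, 0], ![0, 0, 1, 0], ![0, -1, 0, 0], ![0, 0, 0, 0]]],
    ![![![0, 0, 0, 0], ![0, 0, 0, 0], ![0, 0, 0, -1], ![0, 0, 1, 0]],
      ![![0, 0, 0, 0], ![0, 0, 0, 0], ![0, 0, 0, 0], ![0, 0, 0, 0]],
      ![![0, 0, 0, 1], ![0, 0, 0, 0], ![0, 0, 0, 0], ![-1, 0, 0, 0]],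
      ![![0, 0, -1, 0], ![0, 0, 0, 0], ![1, 0, 0, 0], ![0, 0, 0, 0]]],
    ![![![0, 0, 0, 0], ![0, 0, 0, 1], ![0, 0, 0, 0], ![0, -1, 0, 0]],
      ![![0, 0, 0, -1], ![0, 0, 0, 0], ![0, 0, 0, 0], ![1, 0, 0, 0]],
      ![![0, 0, 0, 0], ![0, 0, 0, 0], ![0, 0, 0, 0], ![0, 0, 0, 0]],
      ![![0, 1, 0, 0], ![-1, 0, 0, 0], ![0, 0, 0, 0], ![0, 0, 0, 0]]],
    ![![![0, 0, 0, 0], ![0, 0, -1, 0], ![0, 1, 0, 0], ![0, 0, 0, 0]],
      ![![0, 0, 1, 0], ![0, 0, 0, 0], ![-1, 0, 0, 0], ![0, 0, 0, 0]],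
      ![![0, -1, 0, 0], ![1, 0, 0, 0], ![0, 0, 0, 0], ![0, 0, 0, 0]],
      ![![0, 0, 0, 0], ![0, 0, 0, 0], ![0, 0, 0, 0], ![0, 0, 0, 0]]]]

def ep (i j k l : Fin 4) : ℝ := eps i j k l

theorem eps_alt : Alt4 eps := ⟨by decide, by decide, by decide⟩

theorem ep_alt : Alt4 ep :=
  ⟨fun a b c d => by rw [ep, ep, eps_alt.1, Int.cast_neg],
    fun a b c d => by rw [ep, ep, eps_alt.2.1, Int.cast_neg],
    fun a b c d => by rw [ep, ep, eps_alt.2.2, Int.cast_neg]⟩

theorem eps_con : ∀ b b', ∑ a, ∑ c, ∑ d, eps b a c d * eps b' a c d = if b = b' then 6 else 0 := by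
  decide

theorem ep_con (b b' : Fin 4) :
    ∑ a, ∑ c, ∑ d, ep b a c d * ep b' a c d = if b = b' then 6 else 0 := by
  have := congrArg (Int.cast : ℤ → ℝ) (eps_con b b')
  push_cast at this
  exact this

theorem ep_sq : ∑ b, ∑ a, ∑ c, ∑ d, ep b a c d * ep b a c d = 24 := by
  simp only [ep_con]
  norm_num

theorem det_eq {ι : Type} (e : ι → Fin 4 → ℝ) (a b c d : ι) :
    Matrix.det (Matrix.of ![e a, e b, e c, e d]) = T4 e ep a b c d := by
  simp [Matrix.det_succ_row_zero, Fin.sum_univ_succ, T4, T3, T2, T1, ep, eps, Fin.succAbove]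
  ring

theorem zero3 {t : Fin 4 → Fin 4 → Fin 4 → ℝ} (h : Alt3 t)
    (h0 : ∀ a b c, a < b → b < c → t a b c = 0) (a b c : Fin 4) : t a b c = 0 := by
  have s1 : ∀ a b c, t a b c = 0 → t b a c = 0 := fun a b c e => by rw [h.1, e, neg_zero]
  have s2 : ∀ a b c, t a b c = 0 → t a c b = 0 := fun a b c e => by rw [h.2, e, neg_zero]
  have h1 : ∀ a b c, a ≤ b → b ≤ c → t a b c = 0 := fun a b c h1 h2 => by
    rcases h1.eq_or_lt with rfl | h1
    · have := h.1 a a c; linarith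
    rcases h2.eq_or_lt with rfl | h2
    · have := h.2 a b b; linarith
    exact h0 a b c h1 h2
  have h2 : ∀ a b c, a ≤ b → t a b c = 0 := fun a b c hab => by
    rcases le_total b c with hc | hc
    · exact h1 a b c hab hc
    rcases le_total a c with hc' | hc'
    · exact s2 _ _ _ (h1 a c b hc' hc)
    · exact s2 _ _ _ (s1 _ _ _ (h1 c a b hc' hab))
  rcases le_total a b with hab | hab
  · exact h2 a b c hab
  · exact s1 _ _ _ (h2 b a c hab)

theorem zero4 {t : Fin 4 → Fin 4 → Fin 4 → Fin 4 → ℝ} (h : Alt4 t) (h0 : t 0 1 2 3 = 0)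
    (a b c d : Fin 4) : t a b c d = 0 := by
  have z0 : ∀ b c d, t 0 b c d = 0 := zero3 ⟨h.2.1 0, h.2.2 0⟩ fun b c d h1 h2 => by
    by_cases hb : b = 0
    · subst hb; have := h.1 0 0 c d; linarith
    · obtain ⟨rfl, rfl, rfl⟩ : b = 1 ∧ c = 2 ∧ d = 3 := by
        revert b c d; decide
      exact h0
  refine zero3 ⟨h.2.1 a, h.2.2 a⟩ (fun b c d h1 h2 => ?_) b c d
  by_cases hb : b = 0
  · subst hb; rw [h.1, z0, neg_zero]
  · obtain ⟨rfl, rfl, rfl⟩ : b = 1 ∧ c = 2 ∧ d = 3 := by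
      revert b c d; decide
    have e1 := h.1 1 1 2 3
    have e2 := h.1 2 1 2 3
    have e3 := h.2.1 1 2 2 3
    have e4 := h.1 3 1 2 3
    have e5 := h.2.1 1 3 2 3
    have e6 := h.2.2 1 2 3 3
    fin_cases a
    · exact z0 _ _ _
    · change t 1 1 2 3 = 0; linarith
    · change t 2 1 2 3 = 0; linarith
    · change t 3 1 2 3 = 0; linarith

theorem top4 {t : Fin 4 → Fin 4 → Fin 4 → Fin 4 → ℝ} (h : Alt4 t) :
    t = fun a b c d => t 0 1 2 3 * ep a b c d := by
  funext a b c d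
  have := zero4 (t := fun a b c d => t a b c d - t 0 1 2 3 * ep a b c d)
    ⟨fun a b c d => by beta_reduce; rw [h.1 a, ep_alt.1 a]; ring,
      fun a b c d => by beta_reduce; rw [h.2.1 a b, ep_alt.2.1 a b]; ring,
      fun a b c d => by beta_reduce; rw [h.2.2 a b c, ep_alt.2.2 a b c]; ring⟩
    (by simp [ep, eps]) a b c d
  linarith

theorem rep3 {t : Fin 4 → Fin 4 → Fin 4 → ℝ} (h : Alt3 t) :
    ∃ s : Fin 4 → ℝ, t = fun a c d => ∑ b, s b * ep b a c d := by
  refine ⟨![t 1 2 3, - t 0 2 3, t 0 1 3, - t 0 1 2], ?_⟩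
  funext a c d
  have := zero3 (t := fun a c d =>
      t a c d - ∑ b, ![t 1 2 3, - t 0 2 3, t 0 1 3, - t 0 1 2] b * ep b a c d)
    ⟨fun a c d => by
        simp only [ep_alt.2.1 _ a c d, mul_neg, sum_neg_distrib]; rw [h.1 a]; ring,
      fun a c d => by
        simp only [ep_alt.2.2 _ a c d, mul_neg, sum_neg_distrib]; rw [h.2 a c]; ring⟩
    (fun a c d h1 h2 => by
      have : (a = 0 ∧ c = 1 ∧ d = 2) ∨ (a = 0 ∧ c = 1 ∧ d = 3) ∨ (a = 0 ∧ c = 2 ∧ d = 3) ∨
          (a = 1 ∧ c = 2 ∧ d = 3) := by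
        revert a c d; decide
      rcases this with ⟨rfl, rfl, rfl⟩ | ⟨rfl, rfl, rfl⟩ | ⟨rfl, rfl, rfl⟩ | ⟨rfl, rfl, rfl⟩ <;>
        simp [ep, eps, Fin.sum_univ_four]) a c d
  linarith

theorem con_rep (s : Fin 4 → ℝ) (i : Fin 4) :
    ∑ a, ∑ c, ∑ d, ep i a c d * ∑ b, s b * ep b a c d = 6 * s i := by
  have : ∀ a c d, ep i a c d * ∑ b, s b * ep b a c d = ∑ b, s b * (ep i a c d * ep b a c d) :=
    fun a c d => by rw [mul_sum]; exact sum_congr rfl fun _ _ => by ring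
  simp only [this]
  rw [sum_congr rfl fun a _ => sum_congr rfl fun c _ => sum_comm,
    sum_congr rfl fun a _ => sum_comm, sum_comm]
  simp only [← mul_sum, ep_con]
  simp [mul_comm]

theorem dual4 {t : Fin 4 → Fin 4 → Fin 4 → ℝ} (h : Alt3 t) :
    ∑ i, (∑ a, ∑ c, ∑ d, ep i a c d * t a c d) * (∑ a, ∑ c, ∑ d, ep i a c d * t a c d) =
      6 * ip3 t t := by
  obtain ⟨s, hs⟩ := rep3 h
  have h1 : ∀ i, ∑ a, ∑ c, ∑ d, ep i a c d * t a c d = 6 * s i := fun i => by
    rw [hs]; exact con_rep s i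
  have h2 : ip3 t t = ∑ b, s b * ∑ a, ∑ c, ∑ d, ep b a c d * t a c d := by
    have : ∀ a c d, t a c d * t a c d = ∑ b, s b * (ep b a c d * t a c d) := fun a c d => by
      nth_rewrite 1 [hs]
      rw [sum_mul]; exact sum_congr rfl fun _ _ => by ring
    simp only [ip3, this]
    rw [sum_congr rfl fun a _ => sum_congr rfl fun c _ => sum_comm,
      sum_congr rfl fun a _ => sum_comm, sum_comm]
    simp only [← mul_sum]
  simp only [h2, h1, mul_sum]
  exact sum_congr rfl fun _ _ => by ring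

/-- a skew matrix -/
def sk (p q r p' q' r' : ℝ) : Fin 4 → Fin 4 → ℝ :=
  ![![0, p, q, r], ![-p, 0, r', -q'], ![-q, -r', 0, p'], ![-r, q', -p', 0]]

theorem sk_rep {m : Fin 4 → Fin 4 → ℝ} (h : ∀ a b, m a b = - m b a) :
    m = sk (m 0 1) (m 0 2) (m 0 3) (m 2 3) (m 3 1) (m 1 2) := by
  have h0 : ∀ a, m a a = 0 := fun a => by have := h a a; linarith
  funext a b
  fin_cases a <;> fin_cases b <;> simp [sk, h0] <;> exact h _ _

theorem star_sk (p q r p' q' r' : ℝ) : star ep (sk p q r p' q' r') = sk p' q' r' p q r := by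
  funext a b
  fin_cases a <;> fin_cases b <;> simp [star, sk, ep, eps, Fin.sum_univ_four] <;> ring

theorem sd_rep {m : Fin 4 → Fin 4 → ℝ} (h : ∀ a b, m a b = - m b a) (h' : star ep m = m) :
    ∃ p q r, m = sk p q r p q r := by
  rw [sk_rep h, star_sk] at h'
  have e1 := congrFun (congrFun h' 0) 1
  have e2 := congrFun (congrFun h' 0) 2
  have e3 := congrFun (congrFun h' 0) 3
  simp [sk] at e1 e2 e3
  refine ⟨m 0 1, m 0 2, m 0 3, ?_⟩
  nth_rewrite 1 [sk_rep h]
  rw [e1, e2, e3]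

theorem sk_skew (p q r p' q' r' : ℝ) (a b : Fin 4) :
    sk p q r p' q' r' a b = - sk p q r p' q' r' b a := by
  fin_cases a <;> fin_cases b <;> simp [sk]

theorem ip_sd (p q r u v w : ℝ) :
    ip2 (sk p q r p q r) (sk u v w u v w) = 4 * (p * u + q * v + r * w) := by
  simp [ip2, sk, Fin.sum_univ_four]
  ring

theorem anti_sd (p q r u v w : ℝ) (a b : Fin 4) :
    mm (sk p q r p q r) (sk u v w u v w) a b + mm (sk u v w u v w) (sk p q r p q r) a b =
      (-2 * (p * u + q * v + r * w)) * if a = b then 1 else 0 := by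
  fin_cases a <;> fin_cases b <;> simp [mm, sk, Fin.sum_univ_four] <;> ring

theorem comm_sd (p q r u v w : ℝ) : comm (sk p q r p q r) (sk u v w u v w) =
    sk (2 * (r * v - q * w)) (2 * (p * w - r * u)) (2 * (q * u - p * v))
      (2 * (r * v - q * w)) (2 * (p * w - r * u)) (2 * (q * u - p * v)) := by
  funext a b
  fin_cases a <;> fin_cases b <;> simp [comm, mm, sk, Fin.sum_univ_four] <;> ring

end AlgBP

end Pool.Agent.P.MP_713680_gt
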