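import Pool.Agent.P.MP_713680_gt.AmbA0

/-!
MP_713680_gt, package U5: the polynomial filtration of the smooth functions on the product of two
spheres (finite dimension, stability, density, spectral gap).
-/

noncomputable section

namespace Pool.Agent.P.MP_713680_gt

open Finset

namespace AmbAP

theorem co_mem (i : Fin 8) : co i ∈ W co 1 := x_mem co i

theorem Jco_mem (k : Fin 6) (i : Fin 8) : Jco k i ∈ W co 1 := by
  fin_cases k <;> fin_cases i <;>
    simp only [Jco, Fin.zero_eta, Fin.mk_one, Fin.reduceFinMk, Matrix.cons_val, neg_mem_iff,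
      co_mem, Submodule.zero_mem]

theorem Rco_mem (k : Fin 4) (i : Fin 8) : Rco k i ∈ W co 1 := by
  fin_cases k <;> fin_cases i <;>
    simp only [Rco, Fin.zero_eta, Fin.mk_one, Fin.reduceFinMk, Matrix.cons_val, neg_mem_iff,
      co_mem, Submodule.zero_mem]

theorem V_co (hA : BasA) (b : Fin 2) (i : Fin 8) : vf (Vv b) (co i) ∈ W co 1 := by
  fin_cases b <;>
    simp only [Vv, Fin.zero_eta, Fin.mk_one, Matrix.cons_val, hA.vf_add, hA.rot_co]
  · exact add_mem (add_mem (add_mem (Rco_mem _ _) (Rco_mem _ _)) (Rco_mem _ _)) (Rco_mem _ _)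
  · exact add_mem (add_mem (Rco_mem _ _) (Rco_mem _ _)) (Rco_mem _ _)

theorem lap_co (hA : BasA) (i : Fin 8) : lap X (co i) = (-3 : ℝ) • co i := by
  rw [lap_apply, Fin.sum_univ_six]
  simp only [hA.X_co]
  fin_cases i <;>
    simp only [Jco, Fin.zero_eta, Fin.mk_one, Fin.reduceFinMk, Matrix.cons_val, map_neg, map_zero,
      hA.X_co] <;>
    simp only [Algebra.smul_def, map_neg, map_ofNat] <;> ring

/-- One if both coordinates belong to the same factor. -/
def sm (i j : Fin 8) : ℝ := if (i.1 < 4 ↔ j.1 < 4) then 1 else 0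

/-- The Kronecker symbol. -/
def dl (i j : Fin 8) : ℝ := if i = j then 1 else 0

theorem sm_nonneg (i j : Fin 8) : 0 ≤ sm i j := by
  unfold sm; split_ifs <;> norm_num

theorem cross_co (hA : BasA) (i j : Fin 8) :
    ∑ k, X k (co i) * X k (co j) = dl i j • 1 - sm i j • (co i * co j) := by
  have r1 := hA.rel1
  have r2 := hA.rel2
  rw [Fin.sum_univ_six]
  simp only [hA.X_co]
  fin_cases i <;> fin_cases j <;>
    simp only [Jco, Fin.zero_eta, Fin.mk_one, Fin.reduceFinMk, Matrix.cons_val] <;>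
    simp [sm, dl] <;>
    first
      | ring1
      | linear_combination r1
      | linear_combination r2

/-- A smooth function as a continuous map. -/
def toC : SS →ₐ[ℝ] C(PP, ℝ) where
  toFun f := ⟨f.1, continuous_SS f⟩
  map_one' := rfl
  map_mul' _ _ := rfl
  map_zero' := rfl
  map_add' _ _ := rfl
  commutes' _ := rfl

theorem co_sep {y z : PP} (h : ∀ i, (co i).1 y = (co i).1 z) : y = z := by
  have h0 := h 0
  have h1 := h 1
  have h2 := h 2
  have h3 := h 3
  have h4 := h 4
  have h5 := h 5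
  have h6 := h 6
  have h7 := h 7
  exact Prod.ext (Subtype.ext (Quaternion.ext _ _ h0 h1 h2 h3))
    (Subtype.ext (Quaternion.ext _ _ h4 h5 h6 h7))

theorem dense (hB : BasB) (f : SS) (ε : ℝ) (hε : 0 < ε) :
    ∃ n, ∃ g ∈ W co n, I0 ((f - g) * (f - g)) < ε := by
  let A : Subalgebra ℝ C(PP, ℝ) := (toC.comp (MvPolynomial.aeval co)).range
  have hsep : A.SeparatesPoints := by
    intro y z hyz
    by_contra hc
    apply hyz
    apply co_sep
    intro i
    by_contra hne
    exact hc ⟨toC (co i), ⟨toC (co i), ⟨MvPolynomial.X i, by simp⟩, rfl⟩, hne⟩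
  obtain ⟨⟨g, p, rfl⟩, hg⟩ := ContinuousMap.exists_mem_subalgebra_near_continuous_of_separatesPoints
    A hsep f.1 (continuous_SS f) √(ε / 2) (Real.sqrt_pos.2 (by linarith))
  refine ⟨p.totalDegree, MvPolynomial.aeval co p, (mem_W co).2 ⟨p, le_rfl, rfl⟩, ?_⟩
  set q : SS := MvPolynomial.aeval co p with hq
  have hg' : ∀ y, |q.1 y - f.1 y| < √(ε / 2) := hg
  have h := hB.nonneg ((ε / 2) • (1 : SS) - (f - q) * (f - q)) fun y => by
    change 0 ≤ ε / 2 * 1 - (f.1 y - q.1 y) * (f.1 y - q.1 y)
    have h1 := sq_lt_sq' (abs_lt.1 (hg' y)).1 (abs_lt.1 (hg' y)).2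
    rw [Real.sq_sqrt (by linarith)] at h1
    nlinarith
  rw [map_sub, map_smul, hB.one, smul_eq_mul] at h
  linarith

end AmbAP

open AmbAP in
theorem ambA (hA : BasA) (hB : BasB) : AmbA where
  fin n := W_fin co n
  dim n := by
    have := W_dim co n
    rw [Fintype.card_fin] at this
    exact this
  mono := W_mono co
  V_X n k f hf := der_mem co (X k) (fun i => by rw [hA.X_co]; exact Jco_mem k i) n f hf
  V_V n b f hf := der_mem co (vf (Vv b)) (V_co hA b) n f hf
  V_zero f := W_zero co f
  dense f ε hε := AmbAP.dense hB f ε hε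
  gap n u hu ho := AmbAP.gap co X sm dl I0 hB.I_X
    (fun v => hB.nonneg _ fun y => mul_self_nonneg (v.1 y))
    (fun v hv => by
      have := hB.faith _ (fun y => mul_self_nonneg (v.1 y)) hv
      apply Subtype.ext
      funext y
      exact mul_self_eq_zero.1 (congrFun (congrArg Subtype.val this) y))
    sm_nonneg (fun k i => by rw [hA.X_co]; exact Jco_mem k i) (lap_co hA) (cross_co hA) n u hu ho

end Pool.Agent.P.MP_713680_gt
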