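import Pool.Agent.P.MP_713680_gt.UpSt

/-!
MP_713680_gt, package U5, abstract half: the polynomial filtration of an algebra with derivations
(finite dimension, stability, spectral gap).
-/

noncomputable section

namespace Pool.Agent.P.MP_713680_gt

open Finset

namespace AmbAP

section Abs

variable {S σ : Type} [CommRing S] [Algebra ℝ S] (x : σ → S)

/-- Polynomials of degree at most `n` in the elements `x i`. -/
def W (n : ℕ) : Submodule ℝ S :=
  (MvPolynomial.restrictTotalDegree σ ℝ n).map (MvPolynomial.aeval x).toLinearMap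

theorem mem_W {n : ℕ} {f : S} :
    f ∈ W x n ↔ ∃ p : MvPolynomial σ ℝ, p.totalDegree ≤ n ∧ MvPolynomial.aeval x p = f := by
  simp only [W, Submodule.mem_map, MvPolynomial.mem_restrictTotalDegree, AlgHom.toLinearMap_apply]

theorem W_mono : Monotone (W x) := by
  intro m n h f hf
  obtain ⟨p, hp, rfl⟩ := (mem_W x).1 hf
  exact (mem_W x).2 ⟨p, hp.trans h, rfl⟩

theorem mul_mem {a b : ℕ} {f g : S} (hf : f ∈ W x a) (hg : g ∈ W x b) : f * g ∈ W x (a + b) := by
  obtain ⟨p, hp, rfl⟩ := (mem_W x).1 hf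
  obtain ⟨q, hq, rfl⟩ := (mem_W x).1 hg
  exact (mem_W x).2 ⟨p * q, (MvPolynomial.totalDegree_mul p q).trans (add_le_add hp hq),
    map_mul _ _ _⟩

theorem one_mem (n : ℕ) : (1 : S) ∈ W x n :=
  (mem_W x).2 ⟨1, by simp, map_one _⟩

theorem x_mem (i : σ) : x i ∈ W x 1 :=
  (mem_W x).2 ⟨MvPolynomial.X i, by simp, by simp⟩

theorem mul_mem1 {n : ℕ} {f g : S} (hf : f ∈ W x 1) (hg : g ∈ W x n) : f * g ∈ W x (n + 1) := by
  rw [add_comm]; exact mul_mem x hf hg

/-- The monomial of a word. -/
def mon (l : List σ) : S := (l.map x).prod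

omit [Algebra ℝ S] in
theorem mon_nil : mon x [] = 1 := rfl

omit [Algebra ℝ S] in
theorem mon_cons (i : σ) (l : List σ) : mon x (i :: l) = x i * mon x l := by simp [mon]

theorem mon_mem (l : List σ) : mon x l ∈ W x l.length := by
  induction l with
  | nil => exact one_mem x _
  | cons i l ih => rw [mon_cons]; exact mul_mem1 x (x_mem x i) ih

omit [Algebra ℝ S] in
theorem exists_word (d : σ →₀ ℕ) :
    ∃ l : List σ, l.length = (d.sum fun _ e => e) ∧ mon x l = d.prod fun i e => x i ^ e := by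
  induction d using Finsupp.induction_linear with
  | zero => exact ⟨[], by simp, by simp [mon]⟩
  | add f g hf hg =>
    obtain ⟨l1, a1, b1⟩ := hf
    obtain ⟨l2, a2, b2⟩ := hg
    refine ⟨l1 ++ l2, ?_, ?_⟩
    · rw [List.length_append, a1, a2, Finsupp.sum_add_index'] <;> simp
    · rw [Finsupp.prod_add_index' (by simp) (by intro i a b; exact pow_add _ _ _), ← b1, ← b2]
      simp [mon]
  | single i e => exact ⟨List.replicate e i, by simp, by simp [mon]⟩

theorem W_le {n : ℕ} {U : Submodule ℝ S} (h : ∀ l : List σ, l.length ≤ n → mon x l ∈ U) :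
    W x n ≤ U := by
  intro f hf
  obtain ⟨p, hp, rfl⟩ := (mem_W x).1 hf
  rw [p.as_sum, map_sum]
  refine U.sum_mem fun d hd => ?_
  obtain ⟨l, a, b⟩ := exists_word x d
  rw [MvPolynomial.aeval_monomial, ← b, ← Algebra.smul_def]
  refine U.smul_mem _ (h l ?_)
  rw [a]
  exact (MvPolynomial.le_totalDegree hd).trans hp

theorem W_dim [Fintype σ] [DecidableEq σ] (n : ℕ) :
    Module.finrank ℝ (W x n) ≤ (n + 1) ^ Fintype.card σ := by
  let b : (σ → Fin (n + 1)) → S := fun e => ∏ i, x i ^ (e i : ℕ)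
  have h1 : W x n ≤ Submodule.span ℝ (Set.range b) := by
    intro f hf
    obtain ⟨p, hp, rfl⟩ := (mem_W x).1 hf
    rw [p.as_sum, map_sum]
    refine Submodule.sum_mem _ fun d hd => ?_
    rw [MvPolynomial.aeval_monomial, ← Algebra.smul_def]
    refine Submodule.smul_mem _ _ (Submodule.subset_span ?_)
    have hle : ∀ i, d i < n + 1 := fun i =>
      Nat.lt_succ_of_le ((MvPolynomial.degreeOf_le_iff.mp
        (MvPolynomial.degreeOf_le_totalDegree p i) d hd).trans hp)
    refine ⟨fun i => ⟨d i, hle i⟩, ?_⟩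
    rw [Finsupp.prod_fintype _ _ (by simp)]
  have : FiniteDimensional ℝ (Submodule.span ℝ (Set.range b)) :=
    FiniteDimensional.span_of_finite ℝ (Set.finite_range b)
  refine (Submodule.finrank_mono h1).trans ((finrank_range_le_card b).trans ?_)
  simp

theorem W_fin [Finite σ] (n : ℕ) : FiniteDimensional ℝ (W x n) := by
  unfold W; infer_instance

theorem W_zero (f : S) : f ∈ W x 0 ↔ ∃ a : ℝ, f = algebraMap ℝ S a := by
  constructor
  · intro hf
    obtain ⟨p, hp, rfl⟩ := (mem_W x).1 hf
    refine ⟨p.coeff 0, ?_⟩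
    conv_lhs => rw [MvPolynomial.totalDegree_eq_zero_iff_eq_C.mp (Nat.le_zero.mp hp)]
    simp
  · rintro ⟨a, rfl⟩
    rw [Algebra.algebraMap_eq_smul_one]
    exact Submodule.smul_mem _ _ (one_mem x 0)

theorem der_mem (D : Derivation ℝ S S) (hD : ∀ i, D (x i) ∈ W x 1) (n : ℕ) (f : S)
    (hf : f ∈ W x n) : D f ∈ W x n := by
  have key : ∀ l : List σ, D (mon x l) ∈ W x l.length := by
    intro l
    induction l with
    | nil => rw [mon_nil, D.map_one_eq_zero]; exact Submodule.zero_mem _
    | cons i l ih =>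
      rw [mon_cons, D.leibniz, smul_eq_mul, smul_eq_mul, mul_comm (mon x l)]
      exact Submodule.add_mem _ (mul_mem1 x (x_mem x i) ih) (mul_mem1 x (hD i) (mon_mem x l))
  have : W x n ≤ (W x n).comap D.toLinearMap :=
    W_le x fun l hl => W_mono x hl (key l)
  exact this hf

variable {K : Type} [Fintype K] (X : K → Derivation ℝ S S)

theorem lap_apply (f : S) : lap X f = ∑ k, X k (X k f) := by
  simp [lap, LinearMap.sum_apply]

theorem lap_mul (f g : S) :
    lap X (f * g) = f * lap X g + g * lap X f + 2 * ∑ k, X k f * X k g := by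
  simp only [lap_apply, Derivation.leibniz, smul_eq_mul, map_add, mul_sum, ← sum_add_distrib]
  exact sum_congr rfl fun k _ => by ring

theorem I_lap (I : S →ₗ[ℝ] ℝ) (hI : ∀ k f, I (X k f) = 0) (f g : S) :
    I (f * lap X g) = - ∑ k, I (X k f * X k g) := by
  rw [lap_apply, mul_sum, map_sum, ← sum_neg_distrib]
  refine sum_congr rfl fun k _ => ?_
  have := hI k (f * X k g)
  rw [Derivation.leibniz, smul_eq_mul, smul_eq_mul, map_add, mul_comm (X k g)] at this
  linarith

/-- The eigenvalue attached to a word. -/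
def lam (s : σ → σ → ℝ) : List σ → ℝ
  | [] => 0
  | i :: l => lam s l + 3 + 2 * (l.map (s i)).sum

theorem le_lam (s : σ → σ → ℝ) (hs : ∀ i j, 0 ≤ s i j) (l : List σ) :
    (l.length : ℝ) ≤ lam s l := by
  induction l with
  | nil => simp [lam]
  | cons i l ih =>
    have : 0 ≤ (l.map (s i)).sum := List.sum_nonneg (by
      intro a ha
      obtain ⟨j, -, rfl⟩ := List.mem_map.1 ha
      exact hs i j)
    simp only [lam, List.length_cons]
    push_cast
    linarith

variable (s δ : σ → σ → ℝ)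

theorem cross_mem (h2 : ∀ i j, ∑ k, X k (x i) * X k (x j) = δ i j • 1 - s i j • (x i * x j))
    (i : σ) (l : List σ) :
    ∑ k, X k (x i) * X k (mon x l) + (l.map (s i)).sum • (x i * mon x l) ∈ W x l.length := by
  induction l with
  | nil => simp [mon_nil]
  | cons j l ih =>
    have e : ∑ k, X k (x i) * X k (mon x (j :: l))
          + ((j :: l).map (s i)).sum • (x i * mon x (j :: l))
        = x j * (∑ k, X k (x i) * X k (mon x l) + (l.map (s i)).sum • (x i * mon x l))
          + δ i j • mon x l := by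
      have e1 : ∑ k, X k (x i) * X k (mon x (j :: l))
          = x j * ∑ k, X k (x i) * X k (mon x l) + mon x l * ∑ k, X k (x i) * X k (x j) := by
        simp only [mon_cons, Derivation.leibniz, smul_eq_mul, mul_sum, ← sum_add_distrib]
        exact sum_congr rfl fun k _ => by ring
      rw [e1, h2, mon_cons, List.map_cons, List.sum_cons]
      simp only [Algebra.smul_def, map_add]
      ring
    rw [e]
    exact Submodule.add_mem _ (mul_mem1 x (x_mem x j) ih)
      (Submodule.smul_mem _ _ (W_mono x (Nat.le_succ _) (mon_mem x l)))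

/-- Polynomials of degree less than `n`. -/
def U : ℕ → Submodule ℝ S
  | 0 => ⊥
  | n + 1 => W x n

theorem mul_U (i : σ) (n : ℕ) (f : S) (hf : f ∈ U x n) : x i * f ∈ W x n := by
  cases n with
  | zero =>
    have : f = 0 := hf
    rw [this, mul_zero]; exact Submodule.zero_mem _
  | succ n => exact mul_mem1 x (x_mem x i) hf

theorem lap_mon (h1 : ∀ i, lap X (x i) = (-3 : ℝ) • x i)
    (h2 : ∀ i j, ∑ k, X k (x i) * X k (x j) = δ i j • 1 - s i j • (x i * x j)) (l : List σ) :
    lap X (mon x l) + lam s l • mon x l ∈ U x l.length := by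
  induction l with
  | nil => simp [mon_nil, lam, lap_apply]
  | cons i l ih =>
    have e : lap X (mon x (i :: l)) + lam s (i :: l) • mon x (i :: l)
        = x i * (lap X (mon x l) + lam s l • mon x l)
          + (2 : ℝ) • (∑ k, X k (x i) * X k (mon x l) + (l.map (s i)).sum • (x i * mon x l)) := by
      rw [mon_cons, lap_mul, h1, lam]
      simp only [Algebra.smul_def, map_add, map_mul, map_neg, map_ofNat]
      ring
    rw [e]
    exact Submodule.add_mem (W x l.length) (mul_U x i _ _ ih)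
      (Submodule.smul_mem _ _ (cross_mem x X s δ h2 i l))

theorem exists_proj (I : S →ₗ[ℝ] ℝ) (hd : ∀ v, I (v * v) = 0 → v = 0) (V : Submodule ℝ S)
    [FiniteDimensional ℝ V] (m : S) : ∃ v ∈ V, ∀ w ∈ V, I ((m - v) * w) = 0 := by
  let B0 : LinearMap.BilinForm ℝ S := (LinearMap.mul ℝ S).compr₂ I
  let B : LinearMap.BilinForm ℝ V := B0.restrict V
  have hB : B.Nondegenerate :=
    ⟨fun v hv => Subtype.ext (hd _ (hv v)), fun v hv => Subtype.ext (hd _ (hv v))⟩
  let φ : Module.Dual ℝ V := (B0 m).comp V.subtype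
  refine ⟨((B.toDual hB).symm φ).1, ((B.toDual hB).symm φ).2, fun w hw => ?_⟩
  have := LinearMap.BilinForm.apply_toDual_symm_apply (hB := hB) φ ⟨w, hw⟩
  rw [sub_mul, map_sub, sub_eq_zero]
  exact this.symm

theorem eig_sum (I : S →ₗ[ℝ] ℝ) (hI : ∀ k f, I (X k f) = 0) (hp : ∀ v, 0 ≤ I (v * v)) (c : ℝ)
    (u : S) (hu : u ∈ Submodule.span ℝ {w | ∃ t, c ≤ t ∧ lap X w = (-t) • w}) :
    c * I (u * u) ≤ ∑ k, I (X k u * X k u) := by
  obtain ⟨n, a, g, rfl⟩ := Submodule.mem_span_set'.1 hu
  choose t ht hw using fun i => (g i).2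
  set w : Fin n → S := fun i => a i • (g i : S) with hwdef
  have hw' : ∀ i, lap X (w i) = (-t i) • w i := fun i => by
    simp only [hwdef, map_smul, hw i, smul_comm (a i)]
  change c * I ((∑ i, w i) * ∑ i, w i) ≤ ∑ k, I (X k (∑ i, w i) * X k (∑ i, w i))
  clear_value w
  have sym : ∀ i j, t i * I (w i * w j) = t j * I (w i * w j) := by
    intro i j
    have e1 := I_lap X I hI (w i) (w j)
    have e2 := I_lap X I hI (w j) (w i)
    rw [hw', mul_smul_comm, map_smul, smul_eq_mul] at e1 e2
    have e3 : ∑ k, I (X k (w j) * X k (w i)) = ∑ k, I (X k (w i) * X k (w j)) :=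
      sum_congr rfl fun k _ => by rw [mul_comm]
    rw [mul_comm (w j), e3] at e2
    linarith
  have key : ∀ i j, (t j - c) * I (w i * w j)
      = I ((√(t i - c) • w i) * (√(t j - c) • w j)) := by
    intro i j
    rw [smul_mul_smul_comm, map_smul, smul_eq_mul]
    by_cases h : t i = t j
    · rw [h, Real.mul_self_sqrt (sub_nonneg.2 (ht j))]
    · have : I (w i * w j) = 0 := by
        have := sym i j
        have h3 : (t i - t j) * I (w i * w j) = 0 := by linarith
        exact (mul_eq_zero.1 h3).resolve_left (sub_ne_zero.2 h)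
      rw [this]; simp
  have e1 := I_lap X I hI (∑ i, w i) (∑ i, w i)
  have e2 : I ((∑ i, w i) * lap X (∑ i, w i)) = - ∑ i, ∑ j, t j * I (w i * w j) := by
    rw [map_sum, sum_mul_sum, map_sum, ← sum_neg_distrib]
    refine sum_congr rfl fun i _ => ?_
    rw [map_sum, ← sum_neg_distrib]
    refine sum_congr rfl fun j _ => ?_
    rw [hw', mul_smul_comm, map_smul, smul_eq_mul, neg_mul]
  have e3 : I ((∑ i, w i) * ∑ i, w i) = ∑ i, ∑ j, I (w i * w j) := by
    rw [sum_mul_sum, map_sum]
    exact sum_congr rfl fun i _ => map_sum _ _ _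
  have e4 : I ((∑ i, √(t i - c) • w i) * ∑ i, √(t i - c) • w i)
      = ∑ i, ∑ j, t j * I (w i * w j) - c * ∑ i, ∑ j, I (w i * w j) := by
    rw [sum_mul_sum, map_sum, mul_sum, ← sum_sub_distrib]
    refine sum_congr rfl fun i _ => ?_
    rw [map_sum, mul_sum, ← sum_sub_distrib]
    refine sum_congr rfl fun j _ => ?_
    rw [← key, sub_mul]
  have e5 := hp (∑ i, √(t i - c) • w i)
  rw [e3]
  linarith

theorem gap [Finite σ] (I : S →ₗ[ℝ] ℝ) (hI : ∀ k f, I (X k f) = 0) (hp : ∀ v, 0 ≤ I (v * v))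
    (hd : ∀ v, I (v * v) = 0 → v = 0) (hs : ∀ i j, 0 ≤ s i j)
    (h0 : ∀ k i, X k (x i) ∈ W x 1) (h1 : ∀ i, lap X (x i) = (-3 : ℝ) • x i)
    (h2 : ∀ i j, ∑ k, X k (x i) * X k (x j) = δ i j • 1 - s i j • (x i * x j))
    (n : ℕ) (u : S) (hu : u ∈ W x (n + 1)) (ho : ∀ v ∈ W x n, I (u * v) = 0) :
    ((n : ℝ) + 1) * I (u * u) ≤ ∑ k, I (X k u * X k u) := by
  have := W_fin x n
  have hL : ∀ v ∈ W x n, lap X v ∈ W x n := fun v hv => by
    rw [lap_apply]
    exact Submodule.sum_mem _ fun k _ =>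
      der_mem x _ (h0 k) _ _ (der_mem x _ (h0 k) _ _ hv)
  let O : Submodule ℝ S :=
    { carrier := {w | ∀ v ∈ W x n, I (w * v) = 0}
      add_mem' := fun {a b} ha hb v hv => by rw [add_mul, map_add, ha v hv, hb v hv, add_zero]
      zero_mem' := fun v _ => by rw [zero_mul, map_zero]
      smul_mem' := fun c a ha v hv => by rw [smul_mul_assoc, map_smul, ha v hv, smul_zero] }
  have hO : ∀ w ∈ O, lap X w ∈ O := fun w hw v hv => by
    have e := hw _ (hL v hv)
    rw [I_lap X I hI] at e
    rw [mul_comm, I_lap X I hI, ← e]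
    congr 1
    exact sum_congr rfl fun k _ => by rw [mul_comm]
  let E : Submodule ℝ S :=
    Submodule.span ℝ {w | ∃ t, (n : ℝ) + 1 ≤ t ∧ lap X w = (-t) • w} ⊓ O
  have hle : W x (n + 1) ≤ E ⊔ W x n := by
    refine W_le x fun l hl => ?_
    rcases hl.lt_or_eq with hl | hl
    · exact Submodule.mem_sup_right (W_mono x (Nat.lt_succ_iff.1 hl) (mon_mem x l))
    · obtain ⟨v, hv, hw⟩ := exists_proj I hd (W x n) (mon x l)
      have hw' : mon x l - v ∈ O := hw
      have hm := lap_mon x X s δ h1 h2 l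
      rw [hl] at hm
      have hz : lap X (mon x l - v) + lam s l • (mon x l - v) = 0 := by
        apply hd
        refine (O.add_mem (hO _ hw') (O.smul_mem _ hw')) _ ?_
        have e : lap X (mon x l - v) + lam s l • (mon x l - v)
            = (lap X (mon x l) + lam s l • mon x l) - (lap X v + lam s l • v) := by
          rw [map_sub, smul_sub]; abel
        rw [e]
        exact Submodule.sub_mem _ hm (Submodule.add_mem _ (hL v hv) (Submodule.smul_mem _ _ hv))
      have hE : mon x l - v ∈ E := by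
        refine ⟨Submodule.subset_span ⟨lam s l, ?_, ?_⟩, hw'⟩
        · have := le_lam s hs l
          rw [hl] at this
          exact_mod_cast this
        · rw [neg_smul]; exact eq_neg_of_add_eq_zero_left hz
      rw [← sub_add_cancel (mon x l) v]
      exact Submodule.add_mem_sup hE hv
  obtain ⟨e, he, v, hv, huv⟩ := Submodule.mem_sup.1 (hle hu)
  have hv0 : v = 0 := by
    apply hd
    have : v ∈ O := by
      rw [eq_sub_of_add_eq' huv]
      exact O.sub_mem ho he.2
    exact this v hv
  rw [hv0, add_zero] at huv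
  exact eig_sum X I hI hp _ u (huv ▸ he.1)

end Abs

end AmbAP

end Pool.Agent.P.MP_713680_gt
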