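import Pool.Agent.P.MP_713680_gt.UpSt

/-!
MP_713680_gt, package U1: calculus of the fields `X`, brackets, determinants.
-/

open scoped ContDiff

noncomputable section

namespace Pool.Agent.P.MP_713680_gt

open Finset Filter Topology

namespace BasA1P

theorem hasN {p : HH} (hp : ‖p‖ = 1) : ∃ T : HH →L[ℝ] HH,
    HasFDerivAt (fun y : HH => ‖y‖⁻¹ • y) T p ∧ ∀ v, T v = v - inner ℝ p v • p := by
  have h1 := (hasStrictFDerivAt_norm_sq p).hasFDerivAt.sqrt (by rw [hp]; norm_num)
  simp only [Real.sqrt_sq (norm_nonneg _)] at h1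
  have h2 := (hasDerivAt_inv (x := ‖p‖) (by rw [hp]; norm_num)).comp_hasFDerivAt p h1
  refine ⟨_, h2.smul (hasFDerivAt_id p), fun v => ?_⟩
  simp [hp, sub_eq_add_neg]

theorem sq_S3 (p : S3) :
    (p : HH).re ^ 2 + (p : HH).imI ^ 2 + (p : HH).imJ ^ 2 + (p : HH).imK ^ 2 = 1 := by
  have h := Quaternion.normSq_eq_norm_mul_self (p : HH)
  rw [norm_S3, Quaternion.normSq_def'] at h
  linarith

theorem co_val (i : Fin 8) (x : PP) : (co i).1 x = cf i (inc x) := rfl

theorem rel1 : co 0 ^ 2 + co 1 ^ 2 + co 2 ^ 2 + co 3 ^ 2 = 1 :=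
  Subtype.ext (funext fun x => sq_S3 x.1)

theorem rel2 : co 4 ^ 2 + co 5 ^ 2 + co 6 ^ 2 + co 7 ^ 2 = 1 :=
  Subtype.ext (funext fun x => sq_S3 x.2)

theorem cf_J (k : Fin 6) (i : Fin 8) (x : PP) : cf i (Jv k (inc x)) = (Jco k i).1 x := by
  fin_cases k <;> fin_cases i <;> simp [Jco, co_val, cf, Jv_apply, qe, qi, qj, qk] <;> rfl

theorem cf_lin (i : Fin 8) : IsLinearMap ℝ (cf i) := by
  constructor
  · intro x y; fin_cases i <;> simp [cf]
  · intro c x; fin_cases i <;> simp [cf]

theorem cf_ext {v w : EE} (h : ∀ i, cf i v = cf i w) : v = w :=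
  Prod.ext (Quaternion.ext _ _ (h 0) (h 1) (h 2) (h 3)) (Quaternion.ext _ _ (h 4) (h 5) (h 6) (h 7))

theorem cf_sum (i : Fin 8) (c : Fin 6 → ℝ) (v : Fin 6 → EE) :
    cf i (∑ k, c k • v k) = ∑ k, c k * cf i (v k) := by
  have := map_sum ((cf_lin i).mk' _) (fun k => c k • v k) univ
  simpa only [map_smul, IsLinearMap.mk'_apply, smul_eq_mul] using this

theorem J_dot (k l : Fin 6) : ∑ i, Jco k i * Jco l i = if k = l then 1 else 0 := by
  have h1 := rel1
  have h2 := rel2
  fin_cases k <;> fin_cases l <;> simp [Jco, Fin.sum_univ_eight] <;>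
    first | linear_combination h1 | linear_combination h2 | ring

theorem dot_J (x : PP) (k l : Fin 6) :
    dot (Jv k (inc x)) (Jv l (inc x)) = if k = l then 1 else 0 := by
  have h := congrArg (evS x) (J_dot k l)
  simp only [map_sum, map_mul, evS_apply, apply_ite (evS x), map_one, map_zero] at h
  simpa only [dot, cf_J] using h

theorem proj_eq (x : PP) (v : EE) :
    ((v.1 - inner ℝ (x.1 : HH) v.1 • (x.1 : HH), v.2 - inner ℝ (x.2 : HH) v.2 • (x.2 : HH)) : EE) =
      ∑ k, dot v (Jv k (inc x)) • Jv k (inc x) := by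
  have h1 := sq_S3 x.1
  have h2 := sq_S3 x.2
  refine cf_ext fun i => ?_
  simp only [cf_sum, dot, cf_J]
  fin_cases i <;>
    simp [Jco, co_val, cf, inc, Fin.sum_univ_six, Fin.sum_univ_eight, Quaternion.inner_def]
  · linear_combination (-v.1.re) * h1
  · linear_combination (-v.1.imI) * h1
  · linear_combination (-v.1.imJ) * h1
  · linear_combination (-v.1.imK) * h1
  · linear_combination (-v.2.re) * h2
  · linear_combination (-v.2.imI) * h2
  · linear_combination (-v.2.imJ) * h2
  · linear_combination (-v.2.imK) * h2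

theorem hasT (x : PP) : ∃ T : EE →L[ℝ] EE, HasFDerivAt (fun y => inc (nrm y)) T (inc x) ∧
    ∀ v, T v = ∑ k, dot v (Jv k (inc x)) • Jv k (inc x) := by
  obtain ⟨T1, a1, b1⟩ := hasN (norm_S3 x.1)
  obtain ⟨T2, a2, b2⟩ := hasN (norm_S3 x.2)
  have h := (HasFDerivAt.comp (f := Prod.fst) (inc x) a1 hasFDerivAt_fst).prodMk
    (HasFDerivAt.comp (f := Prod.snd) (inc x) a2 hasFDerivAt_snd)
  refine ⟨_, h.congr_of_eventuallyEq ?_, fun v => ?_⟩
  · filter_upwards [isOpen_UU.mem_nhds (inc_mem x)] with y hy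
    exact inc_nrm hy
  · rw [← proj_eq, ← b1, ← b2]
    rfl

theorem fderiv_comp_T {G : EE → ℝ} (hG : ContDiffOn ℝ ∞ G UU) (x : PP) (v : EE) :
    fderiv ℝ (fun y => G (inc (nrm y))) (inc x) v =
      ∑ k, dot v (Jv k (inc x)) * fderiv ℝ G (inc x) (Jv k (inc x)) := by
  obtain ⟨T, h1, h2⟩ := hasT x
  have h3 : HasFDerivAt G (fderiv ℝ G (inc x)) (inc (nrm (inc x))) := by
    rw [nrm_inc]
    exact ((hG.contDiffAt (isOpen_UU.mem_nhds (inc_mem x))).differentiableAt
      (by simp)).hasFDerivAt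
  have h4 : HasFDerivAt (fun y => G (inc (nrm y))) _ (inc x) :=
    HasFDerivAt.comp (f := fun y => inc (nrm y)) (inc x) h3 h1
  rw [h4.fderiv, ContinuousLinearMap.comp_apply, h2, map_sum]
  simp only [map_smul, smul_eq_mul]

theorem X_res (G : EE → ℝ) (hG : ContDiffOn ℝ ∞ G UU) (k : Fin 6) (x : PP) :
    (X k (res G hG)).1 x = fderiv ℝ G (inc x) (Jv k (inc x)) := by
  rw [X_apply]
  refine (fderiv_comp_T hG x _).trans ?_
  simp [dot_J]

theorem chain (f : SS) (x : PP) (v : EE) :
    fderiv ℝ (ext f) (inc x) v = ∑ k, dot v (Jv k (inc x)) * (X k f).1 x := by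
  have h := fderiv_comp_T (ext_smooth f) x v
  simp only [ext_inc] at h
  exact h

theorem fderiv_cf (i : Fin 8) (y v : EE) : fderiv ℝ (cf i) y v = cf i v := by
  have := (LinearMap.toContinuousLinearMap ((cf_lin i).mk' _)).fderiv (x := y)
  exact congrArg (fun T : EE →L[ℝ] ℝ => T v) this

theorem X_co (k : Fin 6) (i : Fin 8) : X k (co i) = Jco k i :=
  Subtype.ext (funext fun x => by rw [co, X_res, fderiv_cf, cf_J])

theorem skew1 (k l m : Fin 6) : cc k l m = -cc l k m := by
  fin_cases k <;> fin_cases l <;> fin_cases m <;> simp [cc]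

theorem skew2 (k l m : Fin 6) : cc k l m = -cc k m l := by
  fin_cases k <;> fin_cases l <;> fin_cases m <;> simp [cc]

theorem qe_br (k l : Fin 6) : qe l * qe k - qe k * qe l = ∑ m, cc k l m • qe m := by
  fin_cases k <;> fin_cases l <;>
    refine Prod.ext (Quaternion.ext _ _ ?_ ?_ ?_ ?_) (Quaternion.ext _ _ ?_ ?_ ?_ ?_) <;>
    simp [qe, qi, qj, qk, cc, Fin.sum_univ_six] <;> norm_num

theorem XX (k l : Fin 6) (f : SS) (x : PP) : (X k (X l f)).1 x =
    fderiv ℝ (fderiv ℝ (ext f)) (inc x) (Jv k (inc x)) (Jv l (inc x)) +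
      fderiv ℝ (ext f) (inc x) (Jv l (Jv k (inc x))) := by
  have h1 : ext (X l f) =ᶠ[𝓝 (inc x)] fun y => fderiv ℝ (ext f) y (Jv l y) := by
    filter_upwards [isOpen_UU.mem_nhds (inc_mem x)] with y hy
    exact ext_X l f hy
  have h2 : DifferentiableAt ℝ (fderiv ℝ (ext f)) (inc x) :=
    ((ext_at f (inc_mem x)).fderiv_right (m := ∞) (by simp)).differentiableAt (by simp)
  rw [X_apply, h1.fderiv_eq, fderiv_clm_apply h2 (Jv l).differentiableAt]
  simp [add_comm]

theorem br (k l : Fin 6) (f : SS) : X k (X l f) - X l (X k f) = ∑ m, cc k l m • X m f := by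
  refine Subtype.ext (funext fun x => ?_)
  rw [← evS_apply, ← evS_apply]
  have h := (ext_at f (inc_mem x)).isSymmSndFDerivAt
    (by rw [minSmoothness_of_isRCLikeNormedField]; exact WithTop.coe_le_coe.2 le_top)
    (Jv k (inc x)) (Jv l (inc x))
  have h2 : Jv l (Jv k (inc x)) - Jv k (Jv l (inc x)) = ∑ m, cc k l m • Jv m (inc x) := by
    simp only [Jv_apply, ← mul_assoc, ← sub_mul, qe_br, sum_mul, smul_mul_assoc]
  simp only [map_sub, map_sum, map_smul, evS_apply, smul_eq_mul]
  rw [XX, XX, h, add_sub_add_left_eq_sub, ← map_sub, h2, map_sum]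
  simp only [map_smul, smul_eq_mul, X_apply]

theorem vf_apply (u : Fin 6 → SS) (f : SS) : vf u f = ∑ k, u k * X k f := by
  simp only [vf, Fin.sum_univ_six, Derivation.add_apply, Derivation.smul_apply, smul_eq_mul]

theorem vf_add (u w : Fin 6 → SS) (f : SS) : vf (u + w) f = vf u f + vf w f := by
  simp only [vf_apply, Pi.add_apply, add_mul, sum_add_distrib]

theorem vf_sub (u w : Fin 6 → SS) (f : SS) : vf (u - w) f = vf u f - vf w f := by
  simp only [vf_apply, Pi.sub_apply, sub_mul, sum_sub_distrib]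

theorem vf_neg (u : Fin 6 → SS) (f : SS) : vf (-u) f = -vf u f := by
  simp only [vf_apply, Pi.neg_apply, ← sum_neg_distrib]
  exact sum_congr rfl fun k _ => by ring

theorem vf_smul (a : SS) (u : Fin 6 → SS) (f : SS) : vf (a • u) f = a * vf u f := by
  simp only [vf_apply, Pi.smul_apply, smul_eq_mul, mul_sum, mul_assoc]

theorem vf_vf (u w : Fin 6 → SS) (f : SS) :
    vf u (vf w f) = ∑ m, vf u (w m) * X m f + ∑ k, ∑ l, u k * w l * X k (X l f) := by
  rw [vf_apply w, map_sum, sum_comm, ← sum_add_distrib]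
  refine sum_congr rfl fun m _ => ?_
  rw [Derivation.leibniz, smul_eq_mul, smul_eq_mul, vf_apply u (X m f), mul_sum, add_comm,
    mul_comm]
  exact congrArg _ (sum_congr rfl fun k _ => by ring)

theorem vf_brk (u w : Fin 6 → SS) (f : SS) :
    vf (brk u w) f = vf u (vf w f) - vf w (vf u f) := by
  have h : ∑ m, (∑ k, ∑ l, cc k l m • (u k * w l)) * X m f =
      ∑ k, ∑ l, u k * w l * X k (X l f) - ∑ k, ∑ l, w k * u l * X k (X l f) := by
    rw [sum_comm (f := fun k l => w k * u l * X k (X l f)), ← sum_sub_distrib]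
    simp only [sum_mul]
    rw [sum_comm]
    refine sum_congr rfl fun k _ => ?_
    rw [sum_comm, ← sum_sub_distrib]
    refine sum_congr rfl fun l _ => ?_
    rw [mul_comm (w l), ← mul_sub, br, mul_sum]
    exact sum_congr rfl fun m _ => by rw [smul_mul_assoc, mul_smul_comm]
  rw [vf_vf, vf_vf, vf_apply (brk u w)]
  simp only [brk, add_mul, sub_mul, sum_add_distrib, sum_sub_distrib, h]
  ring

theorem vf_inj (u : Fin 6 → SS) (h : ∀ i, vf u (co i) = 0) : u = 0 := by
  funext l
  have h1 : ∑ i, vf u (co i) * Jco l i = u l := by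
    simp only [vf_apply, X_co, sum_mul]
    rw [sum_comm]
    simp [mul_assoc, ← mul_sum, J_dot]
  rw [← h1]
  simp [h]

theorem vext {u w : Fin 6 → SS} (h : ∀ f, vf u f = vf w f) : u = w :=
  sub_eq_zero.1 (vf_inj _ fun i => by rw [vf_sub, h, sub_self])

section Det

variable {S n : Type} [CommRing S] [Algebra ℝ S] [Fintype n] [DecidableEq n]

omit [Fintype n] in
theorem der_prod (D : Derivation ℝ S S) (s : Finset n) (a : n → S) :
    D (∏ j ∈ s, a j) = ∑ i ∈ s, D (a i) * ∏ j ∈ s.erase i, a j := by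
  induction s using Finset.induction_on with
  | empty => simp
  | insert i s hi ih =>
    rw [prod_insert hi, Derivation.leibniz, ih, sum_insert hi, erase_insert hi, smul_eq_mul,
      smul_eq_mul, add_comm, mul_comm, mul_sum]
    refine congrArg _ (sum_congr rfl fun j hj => ?_)
    have : i ≠ j := fun e => hi (e ▸ hj)
    rw [erase_insert_of_ne this, prod_insert fun h => hi (mem_of_mem_erase h)]
    ring

omit [Algebra ℝ S] in
theorem det_row (A : Matrix n n S) (i : n) (v : n → S) : (A.updateRow i v).det =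
    ∑ σ : Equiv.Perm n, (Equiv.Perm.sign σ : ℤ) • (v (σ i) * ∏ j ∈ univ.erase i, A j (σ j)) := by
  rw [← Matrix.det_transpose, Matrix.det_apply]
  refine sum_congr rfl fun σ _ => ?_
  rw [← mul_prod_erase _ _ (mem_univ i), Units.smul_def]
  simp only [Matrix.transpose_apply, Matrix.updateRow_self]
  rw [prod_congr rfl fun j hj => by rw [Matrix.updateRow_ne (ne_of_mem_erase hj)]]

theorem der_det (D : Derivation ℝ S S) (A : Matrix n n S) :
    D A.det = ∑ i, (A.updateRow i fun j => D (A i j)).det := by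
  simp only [det_row]
  rw [sum_comm, ← Matrix.det_transpose, Matrix.det_apply, map_sum]
  refine sum_congr rfl fun σ _ => ?_
  rw [Units.smul_def, map_zsmul, der_prod, smul_sum]
  rfl

omit [Algebra ℝ S] in
theorem det_trace (A M : Matrix n n S) :
    ∑ i, (A.updateRow i fun m => ∑ l, A i l * M m l).det = (∑ m, M m m) * A.det := by
  have h : ∀ m l, ∑ i, A.adjugate m i * A i l = if m = l then A.det else 0 := fun m l => by
    have := congrFun (congrFun (Matrix.adjugate_mul A) m) l
    simpa [Matrix.mul_apply, Matrix.one_apply] using this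
  simp only [← Matrix.cramer_transpose_apply, Matrix.cramer_eq_adjugate_mulVec,
    ← Matrix.adjugate_transpose, Matrix.mulVec, dotProduct, Matrix.transpose_apply, mul_sum,
    ← mul_assoc]
  rw [sum_comm, sum_mul]
  refine sum_congr rfl fun m _ => ?_
  rw [sum_comm]
  simp only [← sum_mul, h]
  simp [mul_comm]

end Det

theorem det_vf (u : Fin 6 → SS) (w : Fin 6 → Fin 6 → SS) : vf u (Matrix.det (Matrix.of w))
    = (∑ k, X k (u k)) * Matrix.det (Matrix.of w)
      + ∑ i, Matrix.det (Matrix.of (Function.update w i (brk u (w i)))) := by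
  let M : Matrix (Fin 6) (Fin 6) SS := fun m l => X l (u m) - ∑ k, cc k l m • u k
  have h1 : ∑ m, M m m = ∑ k, X k (u k) := sum_congr rfl fun m _ => by
    have : ∀ k, cc k m m = 0 := fun k => by linarith [skew2 k m m]
    simp [M, this]
  rw [der_det, ← h1, ← det_trace, ← sum_add_distrib]
  refine sum_congr rfl fun i _ => ?_
  have h2 : (fun j => vf u (Matrix.of w i j)) =
      (fun m => ∑ l, Matrix.of w i l * M m l) + brk u (w i) := by
    funext m
    have h3 : ∑ l, w i l * ∑ k, cc k l m • u k = ∑ k, ∑ l, cc k l m • (u k * w i l) := by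
      rw [sum_comm]
      refine sum_congr rfl fun l _ => ?_
      rw [mul_sum]
      exact sum_congr rfl fun k _ => by rw [mul_smul_comm, mul_comm]
    simp only [M, brk, Pi.add_apply, Matrix.of_apply, mul_sub, sum_sub_distrib, h3,
      vf_apply (w i) (u m)]
    ring
  have h4 : Matrix.of (Function.update w i (brk u (w i))) =
      (Matrix.of w).updateRow i (brk u (w i)) := rfl
  rw [h2, Matrix.det_updateRow_add, h4]

end BasA1P

open BasA1P

theorem basA1 : BasA1 where
  X_res := X_res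
  chain := chain
  dot_J := dot_J
  X_co := X_co
  rel1 := rel1
  rel2 := rel2
  skew1 := skew1
  skew2 := skew2
  br := br
  vf_apply := vf_apply
  vf_brk := vf_brk
  vf_inj := vf_inj
  vf_add := vf_add
  vf_smul := vf_smul
  brk_skew u w := vext fun f => by
    rw [vf_neg, vf_brk, vf_brk]
    ring
  brk_add u v w := vext fun f => by
    simp only [vf_add, vf_brk, map_add]
    ring
  brk_smul a u w := vext fun f => by
    simp only [vf_add, vf_brk, vf_smul, Derivation.leibniz, smul_eq_mul]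
    ring
  jacobi u v w := vext fun f => by
    simp only [vf_add, vf_brk, map_sub]
    ring
  det_vf := det_vf

end Pool.Agent.P.MP_713680_gt
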