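import Pool.Agent.P.MP_713680_gt.UpSt

/-! MP_713680_gt, package U2: algebra of the rotation fields. -/

noncomputable section

namespace Pool.Agent.P.MP_713680_gt

open Finset

namespace BasA2P

/-- the squared norm of the factor in which `rot j` acts -/
def NN : Fin 4 → SS :=
  ![co 0 ^ 2 + co 1 ^ 2 + co 2 ^ 2 + co 3 ^ 2, co 0 ^ 2 + co 1 ^ 2 + co 2 ^ 2 + co 3 ^ 2,
    co 4 ^ 2 + co 5 ^ 2 + co 6 ^ 2 + co 7 ^ 2, co 4 ^ 2 + co 5 ^ 2 + co 6 ^ 2 + co 7 ^ 2]

theorem sum_rot_J (j : Fin 4) (i : Fin 8) : ∑ k, rot j k * Jco k i = Rco j i * NN j := by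
  rw [Fin.sum_univ_six]
  fin_cases j <;> fin_cases i <;> simp [rot, Jco, Rco, NN] <;> ring

theorem cf_lin (i : Fin 8) : IsLinearMap ℝ (cf i) := by
  constructor
  · intro x y; fin_cases i <;> simp [cf]
  · intro c x; fin_cases i <;> simp [cf]

variable (h : BasA1)
include h

theorem NN_eq (j : Fin 4) : NN j = 1 := by
  fin_cases j
  exacts [h.rel1, h.rel1, h.rel2, h.rel2]

theorem rot_co (j : Fin 4) (i : Fin 8) : vf (rot j) (co i) = Rco j i := by
  rw [h.vf_apply]
  simp only [h.X_co]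
  rw [sum_rot_J, NN_eq h, mul_one]

theorem cf_J (x : PP) (k : Fin 6) (i : Fin 8) : cf i (Jv k (inc x)) = (Jco k i).1 x := by
  rw [← h.X_co, co, h.X_res]
  exact (congrArg (fun L : EE →L[ℝ] ℝ => L (Jv k (inc x)))
    (LinearMap.toContinuousLinearMap ((cf_lin i).mk' _)).fderiv).symm

theorem rot_vec (j : Fin 4) (x : PP) (i : Fin 8) :
    cf i (∑ k, (rot j k).1 x • Jv k (inc x)) = (Rco j i).1 x := by
  have h1 := congrArg (evS x) (sum_rot_J j i)
  rw [NN_eq h, mul_one, map_sum] at h1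
  refine Eq.trans ?_ h1
  refine (map_sum ((cf_lin i).mk' _) _ _).trans (sum_congr rfl fun k _ => ?_)
  rw [map_smul, map_mul, IsLinearMap.mk'_apply, cf_J h]
  rfl

theorem div_rot (j : Fin 4) : ∑ k, X k (rot j k) = 0 := by
  rw [Fin.sum_univ_six]
  fin_cases j <;> simp [rot, h.X_co, Jco, sq] <;> ring

theorem vf_single (k : Fin 6) (f : SS) : vf (Pi.single k 1) f = X k f := by
  rw [h.vf_apply, sum_eq_single k (fun l _ hl => by simp [hl]) (by simp)]
  simp

theorem brk_single (u : Fin 6 → SS) (k m : Fin 6) :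
    brk u (Pi.single k 1) m = ∑ l, cc l k m • u l - X k (u m) := by
  have h1 : vf u ((Pi.single k 1 : Fin 6 → SS) m) = 0 := by
    by_cases e : m = k
    · subst e; simp
    · simp [e]
  have h2 : ∀ l, ∑ n, cc l n m • (u l * (Pi.single k 1 : Fin 6 → SS) n) = cc l k m • u l := fun l => by
    rw [sum_eq_single k (fun n _ hn => by simp [hn]) (by simp)]
    simp
  simp only [brk, h1, h2, vf_single h]
  ring

theorem brk_expand (u w : Fin 6 → SS) (m : Fin 6) :
    brk u w m = vf u (w m) + ∑ l, brk u (Pi.single l 1) m * w l := by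
  simp only [brk_single h, sub_mul, sum_sub_distrib, sum_mul, smul_mul_assoc]
  rw [brk, h.vf_apply w, sum_comm]
  simp only [mul_comm (w _)]
  ring

theorem brk_add_left (u v w : Fin 6 → SS) : brk (u + v) w = brk u w + brk v w := by
  rw [h.brk_skew, h.brk_add, h.brk_skew u, h.brk_skew v, neg_add]

theorem brk_eq_of {u v : Fin 6 → SS} {k : Fin 6}
    (e : ∀ i, vf u (Jco k i) - X k (vf u (co i)) = vf v (Jco k i) - X k (vf v (co i))) :
    brk u (Pi.single k 1) = brk v (Pi.single k 1) := by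
  refine sub_eq_zero.mp (h.vf_inj _ fun i => ?_)
  have h1 := h.vf_add (brk u (Pi.single k 1) - brk v (Pi.single k 1)) (brk v (Pi.single k 1)) (co i)
  rw [sub_add_cancel, h.vf_brk, h.vf_brk] at h1
  simp only [vf_single h, h.X_co] at h1
  linear_combination e i - h1

theorem brk01 (k : Fin 6) : brk (rot 0) (Pi.single k 1) = brk (rot 1) (Pi.single k 1) := by
  refine brk_eq_of h fun i => ?_
  fin_cases k <;> fin_cases i <;> simp [rot_co h, h.X_co, Jco, Rco]

theorem brk23 (k : Fin 6) : brk (rot 2) (Pi.single k 1) = brk (rot 3) (Pi.single k 1) := by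
  refine brk_eq_of h fun i => ?_
  fin_cases k <;> fin_cases i <;> simp [rot_co h, h.X_co, Jco, Rco]

theorem rot01 : rot 0 + rot 1 = Pi.single 0 1 := by
  funext m
  fin_cases m <;> simp [rot]
  linear_combination h.rel1

theorem rot23 : rot 2 + rot 3 = Pi.single 3 1 := by
  funext m
  fin_cases m <;> simp [rot]
  linear_combination h.rel2

theorem brk_half {u v : Fin 6 → SS} {n k : Fin 6} (e : u + v = Pi.single n 1)
    (e' : brk u (Pi.single k 1) = brk v (Pi.single k 1)) (m : Fin 6) :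
    brk u (Pi.single k 1) m = algebraMap ℝ SS ((1 / 2) * cc n k m) := by
  have h1 : X k ((Pi.single n 1 : Fin 6 → SS) m) = 0 := by
    by_cases e : m = n
    · subst e; simp
    · simp [e]
  have h2 := congrFun (brk_add_left h u v (Pi.single k 1)) m
  rw [e, brk_single h, h1, sum_eq_single n (fun l _ hl => by simp [hl]) (by simp), ← e'] at h2
  simp only [Pi.single_eq_same, sub_zero, Pi.add_apply] at h2
  rw [Algebra.algebraMap_eq_smul_one, mul_smul, h2, ← two_smul ℝ, smul_smul]
  simp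

theorem brk_rot_e (j : Fin 4) (k m : Fin 6) : brk (rot j) (Pi.single k 1) m
    = algebraMap ℝ SS ((1 / 2) * cc (![0, 0, 3, 3] j) k m) := by
  fin_cases j
  · exact brk_half h (rot01 h) (brk01 h k) m
  · exact brk_half h ((add_comm _ _).trans (rot01 h)) (brk01 h k).symm m
  · exact brk_half h (rot23 h) (brk23 h k) m
  · exact brk_half h ((add_comm _ _).trans (rot23 h)) (brk23 h k).symm m

theorem brk_rot (i j : Fin 4) : brk (rot i) (rot j) = 0 := by
  refine h.vf_inj _ fun l => ?_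
  rw [h.vf_brk, rot_co h, rot_co h]
  have e : ∀ n, vf (rot i) (co n) = Rco i n ∧ vf (rot j) (co n) = Rco j n :=
    fun n => ⟨rot_co h i n, rot_co h j n⟩
  generalize vf (rot i) = D at e ⊢
  generalize vf (rot j) = D' at e ⊢
  fin_cases i <;> fin_cases j <;> fin_cases l <;> simp [Rco, e]

theorem brk_V_e (b : Fin 2) (k m : Fin 6) :
    brk (Vv b) (Pi.single k 1) m = algebraMap ℝ SS (kap b k m) := by
  fin_cases b
  · show brk (rot 0 + rot 1 + rot 3 + rot 3) _ m = algebraMap ℝ SS (1 * cc 0 k m + cc 3 k m)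
    simp only [brk_add_left h, Pi.add_apply, brk_rot_e h, ← map_add]
    congr 1
    show 1 / 2 * cc 0 k m + 1 / 2 * cc 0 k m + 1 / 2 * cc 3 k m + 1 / 2 * cc 3 k m = _
    ring
  · show brk (rot 1 + rot 2 + rot 3) _ m = algebraMap ℝ SS (1 / 2 * cc 0 k m + cc 3 k m)
    simp only [brk_add_left h, Pi.add_apply, brk_rot_e h, ← map_add]
    congr 1
    show 1 / 2 * cc 0 k m + 1 / 2 * cc 3 k m + 1 / 2 * cc 3 k m = _
    ring

omit h in
theorem sum_skew {κ : Fin 6 → Fin 6 → ℝ} (hκ : ∀ k m, κ k m = -κ m k) (T : Fin 6 → Fin 6 → SS) :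
    ∑ m, ∑ l, κ l m • T l m + ∑ m, ∑ l, κ l m • T m l = 0 := by
  rw [sum_comm, ← sum_add_distrib]
  refine sum_eq_zero fun m _ => ?_
  rw [← sum_add_distrib]
  exact sum_eq_zero fun l _ => by rw [hκ m l, neg_smul, neg_add_cancel]

section killing
variable {u : Fin 6 → SS} {κ : Fin 6 → Fin 6 → ℝ} (hκ : ∀ k m, κ k m = -κ m k)
  (hu : ∀ k m, brk u (Pi.single k 1) m = algebraMap ℝ SS (κ k m))
include hu

theorem brk_eq (w : Fin 6 → SS) (m : Fin 6) : brk u w m = vf u (w m) + ∑ l, κ l m • w l := by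
  simp only [brk_expand h u w, hu, Algebra.smul_def]

theorem vf_X (k : Fin 6) (f : SS) : vf u (X k f) = X k (vf u f) + ∑ l, κ k l • X l f := by
  have h1 := h.vf_brk u (Pi.single k 1) f
  rw [h.vf_apply, vf_single h, vf_single h] at h1
  simp only [hu, ← Algebra.smul_def] at h1
  rw [h1]; ring

include hκ

theorem kill (v w : Fin 6 → SS) : vf u (ip1 v w) = ip1 (brk u v) w + ip1 v (brk u w) := by
  have h1 := sum_skew hκ fun l m => v l * w m
  simp only [ip1, map_sum, Derivation.leibniz, smul_eq_mul, brk_eq h hu, add_mul, mul_add,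
    sum_add_distrib, sum_mul, mul_sum, smul_mul_assoc, mul_smul_comm, mul_comm (w _)]
  linear_combination -h1

theorem grad (f : SS) : brk u (fun k => X k f) = fun k => X k (vf u f) := by
  funext m
  rw [brk_eq h hu, vf_X h hu, add_assoc, ← sum_add_distrib, sum_eq_zero, add_zero]
  exact fun l _ => by rw [hκ m l, neg_smul, neg_add_cancel]

theorem lap_comm (f : SS) : vf u (lap X f) = lap X (vf u f) := by
  have e : ∀ g : SS, lap X g = ∑ k, X k (X k g) := fun g => by
    simp [lap, LinearMap.sum_apply]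
  have h1 := sum_skew (κ := fun k l => κ l k) (fun k m => hκ m k) fun l m => X l (X m f)
  simp only [e, map_sum, vf_X h hu, map_add, Derivation.map_smul, sum_add_distrib]
  linear_combination h1

end killing

theorem kap_skew (b : Fin 2) (k m : Fin 6) : kap b k m = -kap b m k := by
  rw [kap, kap, h.skew2 0 k m, h.skew2 3 k m]; ring

theorem div_V (b : Fin 2) : ∑ k, X k (Vv b k) = 0 := by
  fin_cases b
  · show ∑ k, X k ((rot 0 + rot 1 + rot 3 + rot 3) k) = 0
    simp only [Pi.add_apply, map_add, sum_add_distrib, div_rot h, add_zero]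
  · show ∑ k, X k ((rot 1 + rot 2 + rot 3) k) = 0
    simp only [Pi.add_apply, map_add, sum_add_distrib, div_rot h, add_zero]

theorem brk_V (b c : Fin 2) : brk (Vv b) (Vv c) = 0 := by
  fin_cases b <;> fin_cases c <;> simp [Vv, brk_add_left h, h.brk_add, brk_rot h]

theorem V_indep (x : PP) (c : Fin 2 → ℝ) (hc : ∀ k, ∑ b, c b * (Vv b k).1 x = 0) : c = 0 := by
  have h1 : ∀ i, c 0 * evS x (Rco 0 i + Rco 1 i + Rco 3 i + Rco 3 i) +
      c 1 * evS x (Rco 1 i + Rco 2 i + Rco 3 i) = 0 := fun i => by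
    have e0 : vf (Vv 0) (co i) = Rco 0 i + Rco 1 i + Rco 3 i + Rco 3 i := by
      show vf (rot 0 + rot 1 + rot 3 + rot 3) (co i) = _
      simp only [h.vf_add, rot_co h]
    have e1 : vf (Vv 1) (co i) = Rco 1 i + Rco 2 i + Rco 3 i := by
      show vf (rot 1 + rot 2 + rot 3) (co i) = _
      simp only [h.vf_add, rot_co h]
    rw [← e0, ← e1, h.vf_apply, h.vf_apply, map_sum, map_sum, mul_sum, mul_sum, ← sum_add_distrib]
    refine sum_eq_zero fun k _ => ?_
    have := hc k
    rw [Fin.sum_univ_two] at this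
    rw [map_mul, map_mul, evS_apply x (Vv 0 k), evS_apply x (Vv 1 k)]
    linear_combination evS x (X k (co i)) * this
  have r1 := congrArg (evS x) h.rel1
  have r2 := congrArg (evS x) h.rel2
  simp only [map_add, map_pow, map_one] at r1 r2
  have a0 : c 0 * evS x (co 0) = 0 := by simpa [Rco, -mul_eq_zero] using h1 1
  have a1 : c 0 * evS x (co 1) = 0 := by simpa [Rco, -mul_eq_zero] using h1 0
  have a2 : c 0 * evS x (co 2) + c 1 * evS x (co 2) = 0 := by simpa [Rco, -mul_eq_zero] using h1 3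
  have a3 : c 0 * -evS x (co 3) + c 1 * -evS x (co 3) = 0 := by
    simpa [Rco, -mul_eq_zero] using h1 2
  have a4 : c 1 * evS x (co 4) = 0 := by simpa [Rco, -mul_eq_zero] using h1 5
  have a5 : c 1 * evS x (co 5) = 0 := by simpa [Rco, -mul_eq_zero] using h1 4
  have a6 : c 0 * (evS x (co 6) + evS x (co 6)) + c 1 * evS x (co 6) = 0 := by
    simpa [Rco, -mul_eq_zero] using h1 7
  have a7 : c 0 * (-evS x (co 7) + -evS x (co 7)) + c 1 * -evS x (co 7) = 0 := by
    simpa [Rco, -mul_eq_zero] using h1 6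
  have b1 : c 0 * (c 0 + c 1) = 0 := by
    linear_combination (c 0 + c 1) * evS x (co 0) * a0 + (c 0 + c 1) * evS x (co 1) * a1 +
      c 0 * evS x (co 2) * a2 - c 0 * evS x (co 3) * a3 - c 0 * (c 0 + c 1) * r1
  have b2 : c 1 * (2 * c 0 + c 1) = 0 := by
    linear_combination (2 * c 0 + c 1) * evS x (co 4) * a4 + (2 * c 0 + c 1) * evS x (co 5) * a5 +
      c 1 * evS x (co 6) * a6 - c 1 * evS x (co 7) * a7 - c 1 * (2 * c 0 + c 1) * r2
  have b3 : c 0 = 0 ∧ c 1 = 0 := by
    rcases mul_eq_zero.mp b1 with e | e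
    · rw [e] at b2
      exact ⟨e, by simpa using b2⟩
    · have e1 : c 1 = -c 0 := by linarith
      rw [e1] at b2
      have e2 : c 0 = 0 := by
        have : c 0 * c 0 = 0 := by linear_combination -b2
        exact mul_self_eq_zero.mp this
      exact ⟨e2, by rw [e1, e2, neg_zero]⟩
  funext b
  fin_cases b
  exacts [b3.1, b3.2]

end BasA2P

open BasA2P in
theorem basA2 (h : BasA1) : BasA2 where
  rot_co := rot_co h
  rot_vec := rot_vec h
  div_rot := div_rot h
  brk_rot := brk_rot h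
  brk_rot_e := brk_rot_e h
  brk_V_e := brk_V_e h
  kill_rot j := kill h (fun k m => by rw [h.skew2 _ k m, mul_neg]) (brk_rot_e h j)
  kill_V b := kill h (kap_skew h b) (brk_V_e h b)
  div_V := div_V h
  brk_V := brk_V h
  brk_grad b := grad h (kap_skew h b) (brk_V_e h b)
  V_lap b := lap_comm h (kap_skew h b) (brk_V_e h b)
  V_indep := V_indep h

end Pool.Agent.P.MP_713680_gt
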