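import Pool.Agent.P.MP_713680_gt.UpSt

/-!
MP_713680_gt, package U3: Haar integral and maximum principle on `S³ × S³`.
-/

open scoped ContDiff

noncomputable section

namespace Pool.Agent.P.MP_713680_gt

open Finset MeasureTheory Filter Topology

namespace BasB1P

/-- The one parameter group of the field `k`, in `EE`. -/
def gE (k : Fin 6) (t : ℝ) : EE :=
  1 + (Real.cos t - 1) • (-(qe k * qe k)) + Real.sin t • qe k

theorem norm_eq_one {p : HH} (h : p.re ^ 2 + p.imI ^ 2 + p.imJ ^ 2 + p.imK ^ 2 = 1) : ‖p‖ = 1 := by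
  have h1 : ‖p‖ * ‖p‖ = 1 := by
    rw [← Quaternion.normSq_eq_norm_mul_self, Quaternion.normSq_def', h]
  have h2 := norm_nonneg p
  nlinarith

/-- The quaternion one. -/
def q1 : HH := ⟨1, 0, 0, 0⟩

theorem gE_eq (k : Fin 6) (t : ℝ) :
    gE k t = (q1, q1) + (Real.cos t - 1) • (-(qe k * qe k)) + Real.sin t • qe k := rfl

theorem q1_c : q1.re = 1 ∧ q1.imI = 0 ∧ q1.imJ = 0 ∧ q1.imK = 0 := ⟨rfl, rfl, rfl, rfl⟩
theorem qi_c : qi.re = 0 ∧ qi.imI = 1 ∧ qi.imJ = 0 ∧ qi.imK = 0 := ⟨rfl, rfl, rfl, rfl⟩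
theorem qj_c : qj.re = 0 ∧ qj.imI = 0 ∧ qj.imJ = 1 ∧ qj.imK = 0 := ⟨rfl, rfl, rfl, rfl⟩
theorem qk_c : qk.re = 0 ∧ qk.imI = 0 ∧ qk.imJ = 0 ∧ qk.imK = 1 := ⟨rfl, rfl, rfl, rfl⟩

theorem gE_fst (k : Fin 6) (t : ℝ) : ‖(gE k t).1‖ = 1 := by
  have h := Real.cos_sq_add_sin_sq t
  apply norm_eq_one
  rw [gE_eq]
  fin_cases k <;> simp [qe, q1_c, qi_c, qj_c, qk_c]

theorem gE_snd (k : Fin 6) (t : ℝ) : ‖(gE k t).2‖ = 1 := by
  have h := Real.cos_sq_add_sin_sq t
  apply norm_eq_one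
  rw [gE_eq]
  fin_cases k <;> simp [qe, q1_c, qi_c, qj_c, qk_c]

/-- The one parameter group in `PP`. -/
def gP (k : Fin 6) (t : ℝ) : PP :=
  (⟨(gE k t).1, mem_sphere_zero_iff_norm.mpr (gE_fst k t)⟩,
    ⟨(gE k t).2, mem_sphere_zero_iff_norm.mpr (gE_snd k t)⟩)

theorem inc_mul (x y : PP) : inc (x * y) = inc x * inc y := rfl

theorem inc_gP (k : Fin 6) (t : ℝ) : inc (gP k t) = gE k t := rfl

theorem qe_cube (k : Fin 6) : qe k * (qe k * qe k) = - qe k := by
  fin_cases k <;> ext <;> simp [qe, qi_c, qj_c, qk_c]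

theorem hasDerivAt_gE (k : Fin 6) (t : ℝ) : HasDerivAt (gE k) (qe k * gE k t) t := by
  have h1 : HasDerivAt (fun t => (Real.cos t - 1) • (-(qe k * qe k)))
      ((-Real.sin t) • (-(qe k * qe k))) t :=
    ((Real.hasDerivAt_cos t).sub_const 1).smul_const _
  have h2 : HasDerivAt (fun t => Real.sin t • qe k) (Real.cos t • qe k) t :=
    (Real.hasDerivAt_sin t).smul_const _
  have h3 := (h1.const_add 1).add h2
  have e : qe k * gE k t = (-Real.sin t) • (-(qe k * qe k)) + Real.cos t • qe k := by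
    rw [gE, mul_add, mul_add, mul_one, mul_smul_comm, mul_smul_comm, mul_neg, qe_cube]
    module
  rw [e]
  exact h3

theorem hasDerivAt_comp (k : Fin 6) (f : SS) (x : PP) (t : ℝ) :
    HasDerivAt (fun t => f.1 (gP k t * x)) ((X k f).1 (gP k t * x)) t := by
  have e : (fun t => f.1 (gP k t * x)) = fun t => ext f (gE k t * inc x) := by
    funext t; rw [← ext_inc, inc_mul, inc_gP]
  have h1 : HasDerivAt (fun t => gE k t * inc x) (qe k * gE k t * inc x) t :=
    (hasDerivAt_gE k t).mul_const _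
  have hm : gE k t * inc x ∈ UU := by
    rw [← inc_gP, ← inc_mul]; exact inc_mem _
  have h2 := (ext_diff f hm).hasFDerivAt.comp_hasDerivAt t h1
  rw [e, X_apply, inc_mul, inc_gP, Jv_apply, ← mul_assoc]
  exact h2

theorem ex_max (f : SS) : ∃ x, ∀ y, f.1 y ≤ f.1 x := by
  obtain ⟨x, -, hx⟩ := isCompact_univ.exists_isMaxOn Set.univ_nonempty
    (continuous_SS f).continuousOn
  exact ⟨x, fun y => hx (Set.mem_univ y)⟩

theorem bdd (f : SS) : ∃ B, ∀ x, ‖f.1 x‖ ≤ B := by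
  obtain ⟨B, hB⟩ := isCompact_univ.exists_bound_of_continuousOn (continuous_SS f).continuousOn
  exact ⟨B, fun x => hB x (Set.mem_univ x)⟩

theorem int_left (f : SS) (g : PP) : ∫ x, f.1 (g * x) ∂mu = I0 f :=
  integral_mul_left_eq_self f.1 g

theorem I_X (k : Fin 6) (f : SS) : I0 (X k f) = 0 := by
  obtain ⟨B, hB⟩ := bdd (X k f)
  have hc : ∀ (u : SS) (g : PP), Continuous fun x => u.1 (g * x) := fun u g =>
    (continuous_SS u).comp (continuous_const.mul continuous_id)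
  have h := (hasDerivAt_integral_of_dominated_loc_of_deriv_le (μ := mu) (x₀ := (0 : ℝ))
    (F := fun t x => f.1 (gP k t * x)) (F' := fun t x => (X k f).1 (gP k t * x))
    (bound := fun _ => B) (s := Set.univ) univ_mem
    (Eventually.of_forall fun t => (hc f _).aestronglyMeasurable)
    ((hc f _).integrable_of_hasCompactSupport (HasCompactSupport.of_compactSpace _))
    (hc _ _).aestronglyMeasurable
    (Eventually.of_forall fun x t _ => hB _) (integrable_const B)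
    (Eventually.of_forall fun x t _ => hasDerivAt_comp k f x t)).2
  simp only [int_left] at h
  exact h.unique (hasDerivAt_const _ _)

theorem norm_qj : ‖qj‖ = 1 := by
  apply norm_eq_one; simp [qj_c]

/-- The unit quaternion `j`. -/
def jS : S3 := ⟨qj, mem_sphere_zero_iff_norm.mpr norm_qj⟩

theorem co_apply (i : Fin 8) (x : PP) : (co i).1 x = cf i (inc x) := rfl

theorem I_half (u : SS) (g : PP) (h : ∀ x, u.1 (g * x) = 1 - u.1 x) : I0 u = 1 / 2 := by
  have h1 := int_left u g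
  simp only [h] at h1
  rw [integral_sub (integrable_const _) (integrable_SS u), ← I0_apply] at h1
  simp only [integral_const, probReal_univ, smul_eq_mul, mul_one] at h1
  linarith

theorem I_s (hA : BasA) : I0 sS = 1 / 2 := by
  apply I_half sS (jS, 1)
  intro x
  have h := congrArg (fun f : SS => f.1 x) hA.rel1
  have e1 : sS.1 ((jS, 1) * x) = cf 0 (inc (jS, 1) * inc x) ^ 2 + cf 1 (inc (jS, 1) * inc x) ^ 2 := rfl
  have e2 : sS.1 x = cf 0 (inc x) ^ 2 + cf 1 (inc x) ^ 2 := rfl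
  have e3 : cf 0 (inc x) ^ 2 + cf 1 (inc x) ^ 2 + cf 2 (inc x) ^ 2 + cf 3 (inc x) ^ 2 = 1 := h
  rw [e1, e2]
  simp [cf, inc, jS, qj_c] at e3 ⊢
  linarith

theorem I_t (hA : BasA) : I0 tS = 1 / 2 := by
  apply I_half tS (1, jS)
  intro x
  have h := congrArg (fun f : SS => f.1 x) hA.rel2
  have e1 : tS.1 ((1, jS) * x) = cf 4 (inc (1, jS) * inc x) ^ 2 + cf 5 (inc (1, jS) * inc x) ^ 2 := rfl
  have e2 : tS.1 x = cf 4 (inc x) ^ 2 + cf 5 (inc x) ^ 2 := rfl
  have e3 : cf 4 (inc x) ^ 2 + cf 5 (inc x) ^ 2 + cf 6 (inc x) ^ 2 + cf 7 (inc x) ^ 2 = 1 := h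
  rw [e1, e2]
  simp [cf, inc, jS, qj_c] at e3 ⊢
  linarith

theorem isLocalMax_ext (f : SS) (x : PP) (h : ∀ y, f.1 y ≤ f.1 x) : IsLocalMax (ext f) (inc x) :=
  Eventually.of_forall fun y => by rw [ext_inc]; exact h _

theorem first (f : SS) (x : PP) (h : ∀ y, f.1 y ≤ f.1 x) (k : Fin 6) : (X k f).1 x = 0 := by
  rw [X_apply, (isLocalMax_ext f x h).fderiv_eq_zero]; rfl

/-- One variable: nonpositive second derivative at a local maximum. -/
theorem deriv2_nonpos {φ : ℝ → ℝ} (hc : ContinuousAt φ 0) (hm : IsLocalMax φ 0) :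
    deriv (deriv φ) 0 ≤ 0 := by
  by_contra hpos
  push Not at hpos
  have hmin := isLocalMin_of_deriv_deriv_pos hpos hm.deriv_eq_zero hc
  have he : φ =ᶠ[𝓝 0] fun _ => φ 0 := by
    filter_upwards [hm, hmin] with y h1 h2 using le_antisymm h1 h2
  have h2 : deriv (deriv φ) 0 = 0 := by
    rw [he.deriv.deriv_eq]; simp
  linarith

theorem two_le_inf : (2 : WithTop ℕ∞) ≤ ∞ := by
  have : ((2 : ℕ∞) : WithTop ℕ∞) ≤ ((⊤ : ℕ∞) : WithTop ℕ∞) := WithTop.coe_le_coe.mpr le_top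
  exact this

/-- Nonpositive Hessian at a local maximum. -/
theorem hess_nonpos {F : EE → ℝ} {x : EE} (hF : ContDiffAt ℝ ∞ F x) (hm : IsLocalMax F x)
    (v : EE) : fderiv ℝ (fderiv ℝ F) x v v ≤ 0 := by
  have hl : ∀ t : ℝ, HasDerivAt (fun t : ℝ => x + t • v) v t := fun t => by
    simpa using ((hasDerivAt_id t).smul_const v).const_add x
  have hl0 : Tendsto (fun t : ℝ => x + t • v) (𝓝 0) (𝓝 x) := by
    have := (hl 0).continuousAt
    simpa [ContinuousAt] using this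
  have hF2 : ContDiffAt ℝ 2 F x := hF.of_le two_le_inf
  have hev : ∀ᶠ y in 𝓝 x, DifferentiableAt ℝ F y :=
    (hF2.eventually (by simp)).mono fun y hy => hy.differentiableAt (by simp)
  have hd : deriv (fun t : ℝ => F (x + t • v)) =ᶠ[𝓝 0] fun t => fderiv ℝ F (x + t • v) v := by
    filter_upwards [hl0.eventually hev] with t ht
    exact (ht.hasFDerivAt.comp_hasDerivAt t (hl t)).deriv
  have hD : DifferentiableAt ℝ (fderiv ℝ F) x :=
    (hF2.fderiv_right (m := 1) (by norm_num)).differentiableAt (by simp)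
  have hD' : HasFDerivAt (fderiv ℝ F) (fderiv ℝ (fderiv ℝ F) x) (x + (0 : ℝ) • v) := by
    simpa using hD.hasFDerivAt
  have h2 : HasDerivAt (fun t : ℝ => fderiv ℝ F (x + t • v) v) (fderiv ℝ (fderiv ℝ F) x v v) 0 := by
    have h4 := hD'.clm_apply (hasFDerivAt_const v _)
    have := HasFDerivAt.comp_hasDerivAt (f := fun t : ℝ => x + t • v) (0 : ℝ) h4 (hl 0)
    simpa [Function.comp_def] using this
  have h3 : deriv (deriv fun t : ℝ => F (x + t • v)) 0 = fderiv ℝ (fderiv ℝ F) x v v := by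
    rw [hd.deriv_eq, h2.deriv]
  rw [← h3]
  apply deriv2_nonpos
  · have hc : ContinuousAt F (x + (0 : ℝ) • v) := by simpa using hF.continuousAt
    exact ContinuousAt.comp (f := fun t : ℝ => x + t • v) hc (hl 0).continuousAt
  · have hm' : IsLocalMax F (x + (0 : ℝ) • v) := by simpa using hm
    exact IsLocalMax.comp_continuous (g := fun t : ℝ => x + t • v) hm' (hl 0).continuousAt

theorem XX_apply (f : SS) (x : PP) (h : ∀ y, f.1 y ≤ f.1 x) (k l : Fin 6) :
    (X k (X l f)).1 x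
      = fderiv ℝ (fderiv ℝ (ext f)) (inc x) (Jv k (inc x)) (Jv l (inc x)) := by
  have he : ext (X l f) =ᶠ[𝓝 (inc x)] fun y => fderiv ℝ (ext f) y (Jv l y) := by
    filter_upwards [isOpen_UU.mem_nhds (inc_mem x)] with y hy using ext_X l f hy
  have hF2 : ContDiffAt ℝ 2 (ext f) (inc x) :=
    (ext_at f (inc_mem x)).of_le two_le_inf
  have hD : DifferentiableAt ℝ (fderiv ℝ (ext f)) (inc x) :=
    (hF2.fderiv_right (m := 1) (by norm_num)).differentiableAt (by simp)
  rw [X_apply, he.fderiv_eq, (hD.hasFDerivAt.clm_apply (Jv l).hasFDerivAt).fderiv]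
  simp [(isLocalMax_ext f x h).fderiv_eq_zero]

theorem second (f : SS) (x : PP) (h : ∀ y, f.1 y ≤ f.1 x) (ξ : Fin 6 → ℝ) :
    ∑ k, ∑ l, ξ k * ξ l * (X k (X l f)).1 x ≤ 0 := by
  have h1 := hess_nonpos (ext_at f (inc_mem x)) (isLocalMax_ext f x h)
    (∑ k, ξ k • Jv k (inc x))
  refine le_of_eq_of_le ?_ h1
  simp only [XX_apply f x h, map_sum, map_smul, _root_.sum_apply,
    _root_.smul_apply, smul_eq_mul, Finset.mul_sum]
  rw [Finset.sum_comm]
  refine Finset.sum_congr rfl fun k _ => Finset.sum_congr rfl fun l _ => ?_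
  ring

theorem comp (Φ : ℝ → ℝ) (f : SS) (hΦ : ContDiffOn ℝ ∞ Φ (Set.Ioi 0)) (hf : ∀ x, 0 < f.1 x) :
    ∃ g : SS, (∀ x, g.1 x = Φ (f.1 x)) ∧
      ∀ k x, (X k g).1 x = deriv Φ (f.1 x) * (X k f).1 x := by
  have hm : (fun x => Φ (f.1 x)) ∈ SS := by
    rw [mem_SS]
    exact hΦ.comp (ext_smooth f) fun y _ => hf _
  refine ⟨⟨_, hm⟩, fun _ => rfl, fun k x => ?_⟩
  have e : ext ⟨_, hm⟩ = fun y => Φ (ext f y) := rfl
  have hd : DifferentiableAt ℝ Φ (ext f (inc x)) := by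
    rw [ext_inc]
    exact (hΦ.contDiffAt (Ioi_mem_nhds (hf x))).differentiableAt (by simp)
  have h2 := hd.hasDerivAt.comp_hasFDerivAt (inc x) (ext_diff f (inc_mem x)).hasFDerivAt
  have h3 : fderiv ℝ (fun y => Φ (ext f y)) (inc x)
      = deriv Φ (ext f (inc x)) • fderiv ℝ (ext f) (inc x) := h2.fderiv
  rw [X_apply, X_apply, e, h3, ext_inc]
  rfl

end BasB1P

theorem basB1 (hA : BasA) : BasB1 where
  one := by
    rw [I0_apply]
    have : ∀ x : PP, (1 : SS).1 x = 1 := fun _ => rfl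
    simp [this]
  nonneg f h := integral_nonneg h
  faith f h h0 := by
    have h1 := (integral_eq_zero_iff_of_nonneg h (integrable_SS f)).mp h0
    exact Subtype.ext ((Continuous.ae_eq_iff_eq mu (continuous_SS f) continuous_zero).mp h1)
  I_X := BasB1P.I_X
  I_s := BasB1P.I_s hA
  I_t := BasB1P.I_t hA
  ex_max := BasB1P.ex_max
  first := BasB1P.first
  second := BasB1P.second
  comp := BasB1P.comp

end Pool.Agent.P.MP_713680_gt
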