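import Pool.Agent.P.MP_713680_gt.UpSt

/-!
MP_713680_gt, package U4: orbits of the torus action.
-/

open scoped ContDiff

noncomputable section

namespace Pool.Agent.P.MP_713680_gt

open Finset Filter Topology

namespace BasB2P

theorem normSq_rq (s t : ℝ) (p : HH) : Quaternion.normSq (rq s t p) = Quaternion.normSq p := by
  rw [Quaternion.normSq_def', Quaternion.normSq_def']
  simp only [rq]
  have h1 := Real.sin_sq_add_cos_sq s
  have h2 := Real.sin_sq_add_cos_sq t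
  linear_combination (p.re ^ 2 + p.imI ^ 2) * h1 + (p.imJ ^ 2 + p.imK ^ 2) * h2

theorem norm_rq (s t : ℝ) (p : HH) : ‖rq s t p‖ = ‖p‖ := by
  have h := normSq_rq s t p
  rw [Quaternion.normSq_eq_norm_mul_self, Quaternion.normSq_eq_norm_mul_self] at h
  exact (mul_self_inj_of_nonneg (norm_nonneg _) (norm_nonneg _)).mp h

theorem rq_smul (s t a : ℝ) (p : HH) : rq s t (a • p) = a • rq s t p := by
  ext <;> simp [rq] <;> ring

theorem rq_add (s t s' t' : ℝ) (p : HH) : rq (s + s') (t + t') p = rq s t (rq s' t' p) := by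
  ext <;> simp [rq, Real.cos_add, Real.sin_add] <;> ring

theorem rq_zero (p : HH) : rq 0 0 p = p := by
  ext <;> simp [rq]

theorem act_add (α β α' β' : ℝ) (x : EE) :
    act (α + α') (β + β') x = act α β (act α' β' x) := by
  simp only [act, ← rq_add]
  congr 2 <;> ring

theorem act_zero (x : EE) : act 0 0 x = x := by
  simp [act, rq_zero]

theorem act_mem (α β : ℝ) {x : EE} (hx : x ∈ UU) : act α β x ∈ UU := by
  constructor
  · rw [← norm_ne_zero_iff]; simp only [act, norm_rq]; exact norm_ne_zero_iff.mpr hx.1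
  · rw [← norm_ne_zero_iff]; simp only [act, norm_rq]; exact norm_ne_zero_iff.mpr hx.2

theorem inc_nrm_act (α β : ℝ) {x : EE} (hx : x ∈ UU) :
    inc (nrm (act α β x)) = act α β (inc (nrm x)) := by
  rw [inc_nrm (act_mem α β hx), inc_nrm hx]
  simp only [act, norm_rq, rq_smul]

theorem inc_act (α β : ℝ) (x : PP) : inc (nrm (act α β (inc x))) = act α β (inc x) := by
  rw [inc_nrm_act α β (inc_mem x), nrm_inc]

/-- A quaternion with given coordinates. -/
def mkq (a b c d : ℝ) : HH := ⟨a, b, c, d⟩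

theorem rq_eq (s t : ℝ) (p : HH) : rq s t p =
    Real.cos s • mkq p.re p.imI 0 0 + Real.sin s • mkq (-p.imI) p.re 0 0
      + Real.cos t • mkq 0 0 p.imJ p.imK + Real.sin t • mkq 0 0 (-p.imK) p.imJ := by
  ext <;> simp [rq, mkq] <;> ring

theorem rq_deriv (a b : ℝ) (p : HH) : HasDerivAt (fun τ : ℝ => rq (τ * a) (τ * b) p)
    (mkq (-(a * p.imI)) (a * p.re) (-(b * p.imK)) (b * p.imJ)) 0 := by
  have ha : HasDerivAt (fun τ : ℝ => τ * a) a 0 := by simpa using (hasDerivAt_id (0 : ℝ)).mul_const a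
  have hb : HasDerivAt (fun τ : ℝ => τ * b) b 0 := by simpa using (hasDerivAt_id (0 : ℝ)).mul_const b
  have h := (((ha.cos.smul_const (mkq p.re p.imI 0 0)).add
    (ha.sin.smul_const (mkq (-p.imI) p.re 0 0))).add
    (hb.cos.smul_const (mkq 0 0 p.imJ p.imK))).add
    (hb.sin.smul_const (mkq 0 0 (-p.imK) p.imJ))
  have e : (fun τ : ℝ => rq (τ * a) (τ * b) p) = fun τ : ℝ =>
      Real.cos (τ * a) • mkq p.re p.imI 0 0 + Real.sin (τ * a) • mkq (-p.imI) p.re 0 0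
      + Real.cos (τ * b) • mkq 0 0 p.imJ p.imK
      + Real.sin (τ * b) • mkq 0 0 (-p.imK) p.imJ := funext fun τ => rq_eq _ _ _
  rw [e]
  refine HasDerivAt.congr_deriv h ?_
  ext <;> simp [mkq]

theorem ext_cf {v w : EE} (h : ∀ i, cf i v = cf i w) : v = w := by
  have h0 := h 0; have h1 := h 1; have h2 := h 2; have h3 := h 3
  have h4 := h 4; have h5 := h 5; have h6 := h 6; have h7 := h 7
  simp only [cf] at h0 h1 h2 h3 h4 h5 h6 h7
  refine Prod.ext (Quaternion.ext _ _ h0 h1 h2 h3) (Quaternion.ext _ _ h4 h5 h6 h7)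

theorem cf_add (i : Fin 8) (v w : EE) : cf i (v + w) = cf i v + cf i w := by
  fin_cases i <;> simp [cf]

theorem cf_smul (i : Fin 8) (a : ℝ) (v : EE) : cf i (a • v) = a * cf i v := by
  fin_cases i <;> simp [cf]

theorem co_val (i : Fin 8) (x : PP) : (co i).1 x = cf i (inc x) := rfl

theorem sum_V (x : PP) (c : Fin 2 → ℝ) :
    ∑ k, (∑ b, c b * (Vv b k).1 x) • Jv k (inc x) =
      c 0 • (∑ k, (rot 0 k).1 x • Jv k (inc x))
      + (c 0 + c 1) • (∑ k, (rot 1 k).1 x • Jv k (inc x))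
      + c 1 • (∑ k, (rot 2 k).1 x • Jv k (inc x))
      + (2 * c 0 + c 1) • (∑ k, (rot 3 k).1 x • Jv k (inc x)) := by
  simp only [Finset.smul_sum, ← Finset.sum_add_distrib, smul_smul, ← add_smul]
  refine Finset.sum_congr rfl fun k _ => ?_
  congr 1
  have e0 : (Vv 0 k).1 x = (rot 0 k).1 x + (rot 1 k).1 x + (rot 3 k).1 x + (rot 3 k).1 x := rfl
  have e1 : (Vv 1 k).1 x = (rot 1 k).1 x + (rot 2 k).1 x + (rot 3 k).1 x := rfl
  rw [Fin.sum_univ_two, e0, e1]; ring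

theorem Rco_val (x : PP) (j : Fin 4) (i : Fin 8) : (Rco j i).1 x =
    (![![-x.1.1.imI, x.1.1.re, 0, 0, 0, 0, 0, 0], ![0, 0, -x.1.1.imK, x.1.1.imJ, 0, 0, 0, 0],
      ![0, 0, 0, 0, -x.2.1.imI, x.2.1.re, 0, 0], ![0, 0, 0, 0, 0, 0, -x.2.1.imK, x.2.1.imJ]]
      : Fin 4 → Fin 8 → ℝ) j i := by
  fin_cases j <;> fin_cases i <;> rfl

theorem act_deriv (hA : BasA) (x : PP) (c : Fin 2 → ℝ) :
    HasDerivAt (fun τ : ℝ => act (τ * c 0) (τ * c 1) (inc x))
      (∑ k, (∑ b, c b * (Vv b k).1 x) • Jv k (inc x)) 0 := by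
  have h1 := rq_deriv (c 0) (c 0 + c 1) (inc x).1
  have h2 := rq_deriv (c 1) (2 * c 0 + c 1) (inc x).2
  have h := h1.prodMk h2
  have e : (fun τ : ℝ => act (τ * c 0) (τ * c 1) (inc x)) = fun τ : ℝ =>
      (rq (τ * c 0) (τ * (c 0 + c 1)) (inc x).1, rq (τ * c 1) (τ * (2 * c 0 + c 1)) (inc x).2) := by
    funext τ; simp only [act]; congr 2 <;> ring
  rw [e]
  refine HasDerivAt.congr_deriv h ?_
  symm
  rw [sum_V]
  apply ext_cf
  intro i
  rw [cf_add, cf_add, cf_add, cf_smul, cf_smul, cf_smul, cf_smul, hA.rot_vec, hA.rot_vec,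
    hA.rot_vec, hA.rot_vec, Rco_val, Rco_val, Rco_val, Rco_val]
  fin_cases i <;> simp [cf, inc, mkq]

theorem val_sum {κ : Type} (s : Finset κ) (g : κ → SS) (x : PP) :
    (∑ k ∈ s, g k).1 x = ∑ k ∈ s, (g k).1 x := by
  exact map_sum (evS x) g s

theorem orb_deriv (hA : BasA) (f : SS) (x : PP) (c : Fin 2 → ℝ) :
    HasDerivAt (fun τ : ℝ => ext f (act (τ * c 0) (τ * c 1) (inc x)))
      (∑ b, c b * (vf (Vv b) f).1 x) 0 := by
  have h0 : act (0 * c 0) (0 * c 1) (inc x) = inc x := by simp [act_zero]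
  have hf : HasFDerivAt (ext f) (fderiv ℝ (ext f) (inc x)) (act (0 * c 0) (0 * c 1) (inc x)) := by
    rw [h0]; exact (ext_diff f (inc_mem x)).hasFDerivAt
  have h := hf.comp_hasDerivAt (0 : ℝ) (act_deriv hA x c)
  refine HasDerivAt.congr_deriv h ?_
  symm
  rw [map_sum]
  simp only [map_smul, smul_eq_mul, ← X_apply, hA.vf_apply, val_sum, Finset.mul_sum,
    Finset.sum_mul]
  rw [Finset.sum_comm]
  refine Finset.sum_congr rfl fun k _ => Finset.sum_congr rfl fun b _ => ?_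
  have : (Vv b k * X k f).1 x = (Vv b k).1 x * (X k f).1 x := rfl
  rw [this]; ring

theorem orb_inv (hA : BasA) (f : AA) (x y : PP) (h : Orb x y) : f.1.1 x = f.1.1 y := by
  obtain ⟨α, β, hy⟩ := h
  have hd : ∀ τ₀ : ℝ, HasDerivAt (fun τ : ℝ => ext f.1 (act (τ * α) (τ * β) (inc x))) 0 τ₀ := by
    intro τ₀
    have h1 := orb_deriv hA f.1 (nrm (act (τ₀ * α) (τ₀ * β) (inc x))) ![α, β]
    have h2 : ∑ b, (![α, β] : Fin 2 → ℝ) b *
        (vf (Vv b) f.1).1 (nrm (act (τ₀ * α) (τ₀ * β) (inc x))) = 0 := by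
      refine Finset.sum_eq_zero fun b _ => ?_
      rw [mem_AA.mp f.2 b]; simp
    rw [h2, inc_act] at h1
    have h3 : HasDerivAt (fun τ : ℝ => τ - τ₀) 1 τ₀ := (hasDerivAt_id τ₀).sub_const τ₀
    have h4 := HasDerivAt.comp_of_eq τ₀ h1 h3 (by simp)
    rw [zero_mul] at h4
    refine h4.congr_of_eventuallyEq (Filter.Eventually.of_forall fun τ => ?_)
    simp only [Function.comp, Matrix.cons_val_zero, Matrix.cons_val_one, ← act_add]
    congr 2 <;> ring
  have hc := is_const_of_deriv_eq_zero (fun τ => (hd τ).differentiableAt)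
    (fun τ => (hd τ).deriv) 0 1
  simp only [zero_mul, one_mul, act_zero, ← hy, ext_inc] at hc
  exact hc

theorem mem_of_orb (hA : BasA) (f : SS) (h : ∀ x y, Orb x y → f.1 x = f.1 y) : f ∈ AA := by
  rw [mem_AA]
  intro b
  apply Subtype.ext
  funext x
  have h1 := orb_deriv hA f x (Pi.single b 1)
  have h2 : (fun τ : ℝ => ext f (act (τ * (Pi.single b 1 : Fin 2 → ℝ) 0)
      (τ * (Pi.single b 1 : Fin 2 → ℝ) 1) (inc x))) = fun _ => f.1 x := by
    funext τ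
    exact (h x _ ⟨_, _, inc_act _ _ x⟩).symm
  rw [h2] at h1
  have h3 := h1.unique (hasDerivAt_const (0 : ℝ) (f.1 x))
  rw [Finset.sum_eq_single b (fun c _ hc => by simp [hc]) (by simp)] at h3
  simpa using h3

theorem preconnected_UU : IsPreconnected UU := by
  have h : IsConnected ({0}ᶜ : Set HH) :=
    isConnected_compl_singleton_of_one_lt_rank (by rw [Quaternion.rank_eq_four]; norm_num) 0
  have e : UU = ({0}ᶜ : Set HH) ×ˢ ({0}ᶜ : Set HH) := by
    ext x; simp [UU]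
  rw [e]
  exact h.isPreconnected.prod h.isPreconnected

theorem const (hA : BasA) (f : SS) (h : ∀ k, X k f = 0) : ∃ a : ℝ, f = algebraMap ℝ SS a := by
  have h0 : UU.EqOn (fderiv ℝ (ext f)) 0 := by
    intro y hy
    refine ContinuousLinearMap.ext fun v => ?_
    have ha : 0 < ‖y.1‖⁻¹ := inv_pos.mpr (norm_pos_iff.mpr hy.1)
    have hb : 0 < ‖y.2‖⁻¹ := inv_pos.mpr (norm_pos_iff.mpr hy.2)
    have e1 : inc (nrm y) = scl ‖y.1‖⁻¹ ‖y.2‖⁻¹ y := inc_nrm hy
    rw [← fderiv_ext_scl f ha hb hy, ← e1, hA.chain]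
    simp [h]
  refine ⟨f.1 1, ?_⟩
  apply Subtype.ext
  funext x
  have := isOpen_UU.is_const_of_fderiv_eq_zero preconnected_UU
    (fun y hy => (ext_diff f hy).differentiableWithinAt) h0 (inc_mem x) (inc_mem 1)
  rw [ext_inc, ext_inc] at this
  exact this

theorem ev_ne (a : ℝ) : ∀ᶠ τ in 𝓝[≠] (0 : ℝ), a + τ ≠ 0 := by
  by_cases ha : a = 0
  · filter_upwards [self_mem_nhdsWithin] with τ hτ
    simpa [ha] using hτ
  · apply Filter.Eventually.filter_mono nhdsWithin_le_nhds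
    have : ContinuousAt (fun τ : ℝ => a + τ) 0 := by fun_prop
    exact this.eventually_ne (by simpa using ha)

theorem sq_ne {c a b : ℝ} (hc : c ≠ 0) (ha : a ≠ 0) : (c * a) ^ 2 + (c * b) ^ 2 ≠ 0 := by
  have : 0 < (c * a) ^ 2 := by positivity
  positivity

theorem generic (hA : BasA) (f : SS) (h : sS * (1 - sS) * tS * (1 - tS) * f = 0) : f = 0 := by
  apply Subtype.ext
  funext x
  let w : EE := ((⟨1, 0, 1, 0⟩ : HH), (⟨1, 0, 1, 0⟩ : HH))
  have hc : Continuous fun τ : ℝ => inc x + τ • w := by fun_prop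
  have ht : Tendsto (fun τ : ℝ => inc x + τ • w) (𝓝 0) (𝓝 (inc x)) := by
    simpa using hc.tendsto 0
  have hl : Tendsto (fun τ : ℝ => ext f (inc x + τ • w)) (𝓝[≠] 0) (𝓝 (ext f (inc x))) :=
    ((ext_at f (inc_mem x)).continuousAt.tendsto.comp ht).mono_left nhdsWithin_le_nhds
  have hU : ∀ᶠ τ in 𝓝[≠] (0 : ℝ), inc x + τ • w ∈ UU :=
    (ht.eventually (isOpen_UU.mem_nhds (inc_mem x))).filter_mono nhdsWithin_le_nhds
  have hz : ∀ᶠ τ in 𝓝[≠] (0 : ℝ), ext f (inc x + τ • w) = 0 := by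
    filter_upwards [hU, ev_ne x.1.1.re, ev_ne x.1.1.imJ, ev_ne x.2.1.re, ev_ne x.2.1.imJ]
      with τ hτ h1 h2 h3 h4
    set y := inc x + τ • w with hy
    have ha : ‖y.1‖⁻¹ ≠ 0 := inv_ne_zero (norm_ne_zero_iff.mpr hτ.1)
    have hb : ‖y.2‖⁻¹ ≠ 0 := inv_ne_zero (norm_ne_zero_iff.mpr hτ.2)
    have e := congrArg (evS (nrm y)) h
    have r1 : 1 - sS = co 2 ^ 2 + co 3 ^ 2 := by rw [← hA.rel1, sS]; ring
    have r2 : 1 - tS = co 6 ^ 2 + co 7 ^ 2 := by rw [← hA.rel2, tS]; ring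
    rw [r1, r2, sS, tS] at e
    simp only [map_mul, map_add, map_pow, evS_apply, co_val, inc_nrm hτ, map_zero] at e
    have y1 : y.1.re = x.1.1.re + τ := by simp [hy, inc, w]
    have y2 : y.1.imJ = x.1.1.imJ + τ := by simp [hy, inc, w]
    have y3 : y.2.re = x.2.1.re + τ := by simp [hy, inc, w]
    have y4 : y.2.imJ = x.2.1.imJ + τ := by simp [hy, inc, w]
    rw [← y1] at h1; rw [← y2] at h2; rw [← y3] at h3; rw [← y4] at h4
    have e' : ((‖y.1‖⁻¹ * y.1.re) ^ 2 + (‖y.1‖⁻¹ * y.1.imI) ^ 2) *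
        ((‖y.1‖⁻¹ * y.1.imJ) ^ 2 + (‖y.1‖⁻¹ * y.1.imK) ^ 2) *
        ((‖y.2‖⁻¹ * y.2.re) ^ 2 + (‖y.2‖⁻¹ * y.2.imI) ^ 2) *
        ((‖y.2‖⁻¹ * y.2.imJ) ^ 2 + (‖y.2‖⁻¹ * y.2.imK) ^ 2) * f.1 (nrm y) = 0 := e
    exact (mul_eq_zero.mp e').resolve_left (mul_ne_zero (mul_ne_zero (mul_ne_zero
      (sq_ne ha h1) (sq_ne ha h2)) (sq_ne hb h3)) (sq_ne hb h4))
  have := tendsto_nhds_unique hl (tendsto_const_nhds.congr' (hz.mono fun τ hτ => hτ.symm))
  rw [ext_inc] at this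
  exact this

end BasB2P

theorem basB2 (hA : BasA) : BasB2 where
  generic := BasB2P.generic hA
  const := BasB2P.const hA
  orb_inv := BasB2P.orb_inv hA
  mem_of_orb := BasB2P.mem_of_orb hA
  orb_nrm := fun α β _ hx => ⟨α, β, BasB2P.inc_nrm_act α β hx⟩
  act_deriv := BasB2P.act_deriv hA

end Pool.Agent.P.MP_713680_gt
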