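import Mathlib

/-!
Definitions for the statement of MP_713680_gt: almost nonnegative sectional curvature and almost
nonnegative curvature operator of a manifold `M` modelled on a normed space `E`. The curvature
tensor is written in charts, in the coordinates given by a basis `b` of `E`.
-/

open Bundle Manifold
open scoped ContDiff ENNReal

noncomputable section

namespace Pool.Agent.P.MP_713680_gt.Spec

variable (E : Type) [NormedAddCommGroup E] [NormedSpace ℝ E]
  (M : Type) [TopologicalSpace M] [ChartedSpace E M] [IsManifold 𝓘(ℝ, E) ∞ M]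

/-- A smooth Riemannian metric on the manifold `M` modelled on `E`. -/
abbrev RMetric : Type :=
  ContMDiffRiemannianMetric 𝓘(ℝ, E) ∞ E (fun x : M => TangentSpace 𝓘(ℝ, E) x)

variable {E M}

/-- The value `g_x(u, v)` of the metric. -/
def ginner (g : RMetric E M) (x : M) (u v : TangentSpace 𝓘(ℝ, E) x) : ℝ := g.inner x u v

/-- The differential of `φ : E → M` at `z` applied to `u`. -/
def dmap (φ : E → M) (z u : E) : TangentSpace 𝓘(ℝ, E) (φ z) := mfderiv 𝓘(ℝ, E) 𝓘(ℝ, E) φ z u

/-- The coordinates of `p` in the chart at `p`. -/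
def ctr (E : Type) [NormedAddCommGroup E] [NormedSpace ℝ E] [ChartedSpace E M] (p : M) : E :=
  extChartAt 𝓘(ℝ, E) p p

/-- The inverse of the chart at `p`. -/
def param (p : M) : E → M := (extChartAt 𝓘(ℝ, E) p).symm

/-- The derivative of `f` at `z` in the direction `u`. -/
def pd (f : E → ℝ) (u z : E) : ℝ := fderiv ℝ f z u

variable {n : ℕ} (b : Module.Basis (Fin n) ℝ E)

/-- The matrix `g_ij = g(∂_i, ∂_j)` of `g` in the chart at `p`, at the point with coordinates
`z`. -/
def gc (g : RMetric E M) (p : M) (z : E) : Matrix (Fin n) (Fin n) ℝ :=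
  Matrix.of fun i j => ginner g (param p z) (dmap (param p) z (b i)) (dmap (param p) z (b j))

/-- The Christoffel symbol `Γ^k_ij = (1/2) g^kl (∂_i g_jl + ∂_j g_il - ∂_l g_ij)` of `g` in the
chart at `p`. -/
def chr (g : RMetric E M) (p : M) (k i j : Fin n) (z : E) : ℝ :=
  (1 / 2) * ∑ l, (gc b g p z)⁻¹ k l *
    (pd (fun y => gc b g p y j l) (b i) z + pd (fun y => gc b g p y i l) (b j) z
      - pd (fun y => gc b g p y i j) (b l) z)

/-- The curvature tensor `R_ijkl = g(R(∂_i, ∂_j) ∂_k, ∂_l)` of `g` in the chart at `p`, where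
`R(X, Y) = ∇_X ∇_Y - ∇_Y ∇_X - ∇_[X,Y]`. -/
def riem (g : RMetric E M) (p : M) (i j k l : Fin n) (z : E) : ℝ :=
  ∑ m, gc b g p z m l * (pd (chr b g p m j k) (b i) z - pd (chr b g p m i k) (b j) z
    + ∑ s, (chr b g p m i s z * chr b g p s j k z - chr b g p m j s z * chr b g p s i k z))

/-- The inner product `g(u, v)` at `p` of two tangent vectors given by their components in the
chart at `p`. -/
def gAt (g : RMetric E M) (p : M) (u v : Fin n → ℝ) : ℝ :=
  ∑ i, ∑ j, gc b g p (ctr E p) i j * u i * v j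

/-- `g(R(u, v) w, t)` at `p` for tangent vectors given by their components in the chart at `p`. -/
def rAt (g : RMetric E M) (p : M) (u v w t : Fin n → ℝ) : ℝ :=
  ∑ i, ∑ j, ∑ k, ∑ l, riem b g p i j k l (ctr E p) * u i * v j * w k * t l

/-- `sec_g ≥ -ε`: `g(R(u, v) v, u) ≥ -ε` for all `g`-orthonormal tangent vectors `u`, `v`. -/
def SecGe (g : RMetric E M) (ε : ℝ) : Prop :=
  ∀ (p : M) (u v : Fin n → ℝ), gAt b g p u u = 1 → gAt b g p v v = 1 → gAt b g p u v = 0 →
    -ε ≤ rAt b g p u v v u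

/-- The pairs `(a, c)` with `a < c`, which index the basis `e_a ∧ e_c` of `Λ²`. -/
abbrev Pairs (n : ℕ) : Type := {x : Fin n × Fin n // x.1 < x.2}

/-- The matrix of the curvature operator at `p` in the basis `e_a ∧ e_c` (`a < c`) of `Λ² T_p M`,
which is orthonormal when `e` is a `g`-orthonormal basis of `T_p M`; its entries are
`g(ℛ (e_a ∧ e_c), e_d ∧ e_f) = g(R(e_a, e_c) e_f, e_d)`. -/
def curvOp (g : RMetric E M) (p : M) (e : Fin n → Fin n → ℝ) : Matrix (Pairs n) (Pairs n) ℝ :=
  Matrix.of fun df ac => rAt b g p (e ac.1.1) (e ac.1.2) (e df.1.2) (e df.1.1)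

/-- `μ` is an eigenvalue of the square matrix `A`. -/
def IsEigenvalue {ι : Type} [Fintype ι] (A : Matrix ι ι ℝ) (μ : ℝ) : Prop :=
  ∃ v : ι → ℝ, v ≠ 0 ∧ A.mulVec v = μ • v

/-- Every eigenvalue of the curvature operator of `g`, at every point, is at least `-ε`. -/
def CurvOpGe (g : RMetric E M) (ε : ℝ) : Prop :=
  ∀ (p : M) (e : Fin n → Fin n → ℝ), (∀ a c, gAt b g p (e a) (e c) = if a = c then 1 else 0) →
    ∀ μ : ℝ, IsEigenvalue (curvOp b g p e) μ → -ε ≤ μ

/-- The Riemannian distance of `g` (infimum of the lengths of `C^1` paths). -/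
def rdist (g : RMetric E M) (x y : M) : ℝ≥0∞ :=
  letI : RiemannianBundle (fun x : M => TangentSpace 𝓘(ℝ, E) x) := ⟨g.toRiemannianMetric⟩
  riemannianEDist 𝓘(ℝ, E) x y

/-- `diam (M, g) ≤ 1`. -/
def DiamLeOne (g : RMetric E M) : Prop := ∀ x y : M, rdist g x y ≤ 1

variable (M)

/-- `M` admits almost nonnegative sectional curvature. -/
def AlmostNonnegSec : Prop :=
  ∀ ε : ℝ, 0 < ε → ∃ g : RMetric E M, DiamLeOne g ∧ SecGe b g ε

/-- `M` admits almost nonnegative curvature operator. -/
def AlmostNonnegCurvOp : Prop :=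
  ∀ ε : ℝ, 0 < ε → ∃ g : RMetric E M, DiamLeOne g ∧ CurvOpGe b g ε

end Pool.Agent.P.MP_713680_gt.Spec
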