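import Pool.Agent.P.MP_713680_gt.Final
import Pool.Agent.P.MP_713680_gt.Spec

/-!
MP_713680_gt: the definitions of `Spec`, for the model space `ℝ^n` with its standard basis, are
the definitions of `Defs`.
-/

open Bundle Manifold
open scoped ContDiff ENNReal

noncomputable section

namespace Pool.Agent.P.MP_713680_gt.BridgeP

variable {n : ℕ} {M : Type} [TopologicalSpace M] [ChartedSpace (En n) M] [IsManifold (𝓡 n) ∞ M]

/-- The standard basis. -/
abbrev sb (n : ℕ) : Module.Basis (Fin n) ℝ (En n) := (EuclideanSpace.basisFun (Fin n) ℝ).toBasis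

theorem sb_apply (i : Fin n) : sb n i = EuclideanSpace.single i 1 := by
  simp [sb]

theorem pd_eq (f : En n → ℝ) (i : Fin n) (z : En n) : Spec.pd f (sb n i) z = pd f i z := by
  rw [sb_apply]; rfl

theorem gc_eq (g : RMetric (n := n) M) (p : M) (z : En n) :
    Spec.gc (sb n) g p z = gc g p z := by
  ext i j
  simp only [Spec.gc, gc, Matrix.of_apply, sb_apply]
  rfl

theorem chr_eq (g : RMetric (n := n) M) (p : M) (k i j : Fin n) :
    Spec.chr (sb n) g p k i j = chr g p k i j := by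
  funext z
  simp only [Spec.chr, chr, gc_eq, pd_eq]

theorem riem_eq (g : RMetric (n := n) M) (p : M) (i j k l : Fin n) (z : En n) :
    Spec.riem (sb n) g p i j k l z = riem g p i j k l z := by
  simp only [Spec.riem, riem, gc_eq, pd_eq, chr_eq]

theorem gAt_eq (g : RMetric (n := n) M) (p : M) (u v : Fin n → ℝ) :
    Spec.gAt (sb n) g p u v = gAt g p u v := by
  simp only [Spec.gAt, gAt, gc_eq]
  rfl

theorem rAt_eq (g : RMetric (n := n) M) (p : M) (u v w t : Fin n → ℝ) :
    Spec.rAt (sb n) g p u v w t = rAt g p u v w t := by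
  simp only [Spec.rAt, rAt, riem_eq]
  rfl

theorem secGe_iff (g : RMetric (n := n) M) (ε : ℝ) : Spec.SecGe (sb n) g ε ↔ SecGe g ε := by
  simp only [Spec.SecGe, SecGe, gAt_eq, rAt_eq]

theorem eig_iff {ι : Type} [Fintype ι] [DecidableEq ι] (A : Matrix ι ι ℝ) (μ : ℝ) :
    Spec.IsEigenvalue A μ ↔ Module.End.HasEigenvalue (Matrix.toLin' A) μ := by
  constructor
  · rintro ⟨v, hv, h⟩
    refine Module.End.hasEigenvalue_of_hasEigenvector (x := v) ⟨?_, hv⟩
    rw [Module.End.mem_eigenspace_iff, Matrix.toLin'_apply, h]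
  · intro h
    obtain ⟨v, hv⟩ := h.exists_hasEigenvector
    refine ⟨v, hv.2, ?_⟩
    have := hv.apply_eq_smul
    rwa [Matrix.toLin'_apply] at this

theorem curvOpGe_iff (g : RMetric (n := n) M) (ε : ℝ) :
    Spec.CurvOpGe (sb n) g ε ↔ CurvOpGe g ε := by
  simp only [Spec.CurvOpGe, CurvOpGe, Spec.curvOp, gAt_eq, rAt_eq, eig_iff]

theorem diam_iff (g : RMetric (n := n) M) : Spec.DiamLeOne g ↔ DiamLeOne g := Iff.rfl

theorem sec_iff : Spec.AlmostNonnegSec M (sb n) ↔ AlmostNonnegSec n M := by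
  simp only [Spec.AlmostNonnegSec, AlmostNonnegSec, secGe_iff, diam_iff]

theorem op_iff : Spec.AlmostNonnegCurvOp M (sb n) ↔ AlmostNonnegCurvOp n M := by
  simp only [Spec.AlmostNonnegCurvOp, AlmostNonnegCurvOp, curvOpGe_iff, diam_iff]

end Pool.Agent.P.MP_713680_gt.BridgeP
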