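import Pool.Agent.P.MP_713680_gt.UpSt

/-!
Package M2: smooth Riemannian metrics correspond to chart data.
-/

open Bundle Manifold Filter Topology
open scoped ContDiff

noncomputable section

namespace Pool.Agent.P.MP_713680_gt

open Finset

namespace ChartP

variable {n : ℕ} {M : Type} [TopologicalSpace M] [ChartedSpace (En n) M]

/-- The derivative of the inverse chart, as a map of the model space. -/
def D (p : M) (z : En n) : En n →L[ℝ] En n :=
  mfderiv (𝓡 n) (𝓡 n) (chartAt (En n) p).symm z

/-- The bilinear form of a matrix. -/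
def bil (A : Matrix (Fin n) (Fin n) ℝ) : En n →L[ℝ] En n →L[ℝ] ℝ :=
  ∑ i, ∑ j, A i j • (EuclideanSpace.proj (𝕜 := ℝ) i : En n →L[ℝ] ℝ).smulRight
    (EuclideanSpace.proj (𝕜 := ℝ) j : En n →L[ℝ] ℝ)

lemma bil_apply (A : Matrix (Fin n) (Fin n) ℝ) (u v : En n) :
    bil A u v = ∑ i, ∑ j, A i j * u i * v j := by
  simp [bil, mul_assoc]

lemma expand (B : En n →L[ℝ] En n →L[ℝ] ℝ) (u v : En n) :
    B u v = ∑ k, ∑ l, B (EuclideanSpace.single k 1) (EuclideanSpace.single l 1) * u k * v l := by
  have hu : ∀ w : En n, w = ∑ k, w k • EuclideanSpace.single k (1 : ℝ) := by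
    intro w
    ext i
    simp [Pi.single_apply]
  conv_lhs => rw [hu u, hu v]
  simp only [map_sum, map_smul, ContinuousLinearMap.sum_apply, ContinuousLinearMap.smul_apply,
    smul_eq_mul, Finset.mul_sum]
  rw [Finset.sum_comm]
  refine Finset.sum_congr rfl fun k _ => Finset.sum_congr rfl fun l _ => ?_
  ring

lemma bil_pos {A : Matrix (Fin n) (Fin n) ℝ} (hA : A.PosDef) {v : En n} (hv : v ≠ 0) :
    0 < bil A v v := by
  have h0 : (v.ofLp : Fin n → ℝ) ≠ 0 := fun h => hv (by ext i; exact congrFun h i)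
  have := hA.dotProduct_mulVec_pos h0
  rw [bil_apply]
  refine this.trans_eq ?_
  simp only [dotProduct, Matrix.mulVec, star_trivial, Finset.mul_sum]
  refine Finset.sum_congr rfl fun k _ => Finset.sum_congr rfl fun l _ => ?_
  ring

lemma bil_lower {A : Matrix (Fin n) (Fin n) ℝ} (hA : A.PosDef) :
    ∃ c : ℝ, 0 < c ∧ ∀ u : En n, c * ‖u‖ ^ 2 ≤ bil A u u := by
  have hc : Continuous fun u : En n => bil A u u := by fun_prop
  obtain ⟨c, hc0, h⟩ := (isCompact_sphere (0 : En n) 1).exists_forall_le' hc.continuousOn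
    (a := 0) (fun u hu => bil_pos hA (by
      rintro rfl
      simp at hu))
  refine ⟨c, hc0, fun u => ?_⟩
  by_cases hu : u = 0
  · subst hu
    simp
  · have hn : 0 < ‖u‖ := norm_pos_iff.2 hu
    have h1 := h (‖u‖⁻¹ • u) (by simp [norm_smul, hn.ne'])
    simp only [map_smul, ContinuousLinearMap.smul_apply, smul_eq_mul] at h1
    have h2 : bil A u u = ‖u‖ ^ 2 * (‖u‖⁻¹ * (‖u‖⁻¹ * bil A u u)) := by
      field_simp
    rw [h2, mul_comm c]
    exact mul_le_mul_of_nonneg_left h1 (by positivity)

variable [IsManifold (𝓡 n) ∞ M]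

lemma mdiff_symm (p : M) {z : En n} (hz : z ∈ (chartAt (En n) p).target) :
    MDifferentiableAt (𝓡 n) (𝓡 n) (chartAt (En n) p).symm z :=
  (mdifferentiable_chart (I := 𝓡 n) p).mdifferentiableAt_symm hz

lemma mdiff_trn (p q : M) {z : En n} (hz : z ∈ (chartAt (En n) p).target)
    (hq : (chartAt (En n) p).symm z ∈ (chartAt (En n) q).source) :
    MDifferentiableAt (𝓡 n) (𝓡 n) (trn p q) z :=
  ((mdifferentiable_chart (I := 𝓡 n) q).mdifferentiableAt hq).comp z (mdiff_symm p hz)

lemma D_self (p : M) {z : En n} (hz : z ∈ (chartAt (En n) p).target) :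
    D p z = fderiv ℝ (trn p ((chartAt (En n) p).symm z)) z := by
  unfold D
  rw [(mdiff_symm p hz).mfderiv]
  simp only [writtenInExtChartAt, extChartAt, mfld_simps, fderivWithin_univ]
  rfl

lemma D_comp (p q : M) {z : En n} (hz : z ∈ (chartAt (En n) p).target)
    (hq : (chartAt (En n) p).symm z ∈ (chartAt (En n) q).source) :
    D p z = (D q (trn p q z)).comp (fderiv ℝ (trn p q) z) := by
  have h1 : (chartAt (En n) p).symm =ᶠ[𝓝 z] (chartAt (En n) q).symm ∘ trn p q := by
    have : ∀ᶠ w in 𝓝 z, (chartAt (En n) p).symm w ∈ (chartAt (En n) q).source :=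
      ((chartAt (En n) p).continuousAt_symm hz).eventually
        ((chartAt (En n) q).open_source.mem_nhds hq)
    filter_upwards [this] with w hw
    exact ((chartAt (En n) q).left_inv hw).symm
  have h2 := mfderiv_comp (I := 𝓡 n) (I' := 𝓡 n) (I'' := 𝓡 n) z
    (mdiff_symm q ((chartAt (En n) q).map_source hq)) (mdiff_trn p q hz hq)
  have h3 := h1.mfderiv_eq (I := 𝓡 n) (I' := 𝓡 n)
  rw [mfderiv_eq_fderiv] at h2
  exact h3.trans h2

lemma D_inj (p : M) {z : En n} (hz : z ∈ (chartAt (En n) p).target) {v : En n}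
    (hv : D p z v = 0) : v = 0 := by
  have h := (mdifferentiable_chart (I := 𝓡 n) p).comp_symm_deriv hz
  have h2 := congrArg (fun f : En n →L[ℝ] En n => f v) h
  have h3 : (mfderiv (𝓡 n) (𝓡 n) (chartAt (En n) p) ((chartAt (En n) p).symm z) :
      En n →L[ℝ] En n) (D p z v) = v := h2
  rw [hv] at h3
  exact h3.symm.trans (map_zero _)

lemma symm_triv (p : M) {y : M} (hy : y ∈ (chartAt (En n) p).source) (v : En n) :
    (trivializationAt (En n) (TangentSpace (𝓡 n)) p).symm y v
      = D p (chartAt (En n) p y) v := by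
  have h := TangentBundle.symmL_trivializationAt (I := 𝓡 n) (x₀ := p) (x := y) hy
  have h2 := congrArg (fun f : En n →L[ℝ] En n => f v) h
  simp only [modelWithCornersSelf_coe, Set.range_id, mfderivWithin_univ] at h2
  refine Eq.trans ?_ (h2.trans ?_)
  · exact (Trivialization.symmL_apply _ hy v).symm
  · rfl

lemma triv_apply (p : M) {y : M} (hy : y ∈ (chartAt (En n) p).source)
    (B : En n →L[ℝ] En n →L[ℝ] ℝ) (v w : En n) :
    (trivializationAt (En n →L[ℝ] En n →L[ℝ] ℝ)
      (fun x : M => TangentSpace (𝓡 n) x →L[ℝ] TangentSpace (𝓡 n) x →L[ℝ] ℝ) p ⟨y, B⟩).2 v w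
      = B (D p (chartAt (En n) p y) v) (D p (chartAt (En n) p y) w) := by
  rw [hom_trivializationAt_apply]
  have := inCoordinates_apply_eq₂ (𝕜 := ℝ) (F₁ := En n) (F₂ := En n) (F₃ := ℝ)
    (E₁ := TangentSpace (𝓡 n)) (E₂ := TangentSpace (𝓡 n)) (E₃ := fun _ : M => ℝ)
    (x₀ := p) (x := y) (ϕ := B) (v := v) (w := w) hy hy (Set.mem_univ _)
  refine this.trans ?_
  rw [symm_triv p hy, symm_triv p hy]
  simp
  rfl

/-- The metric at a point, as a bilinear form on the model space. -/
def gi (g : RMetric (n := n) M) (y : M) : En n →L[ℝ] En n →L[ℝ] ℝ := g.inner y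

lemma gc_eq (g : RMetric (n := n) M) (p : M) (z : En n) (i j : Fin n) :
    gc g p z i j = gi g ((chartAt (En n) p).symm z) (D p z (EuclideanSpace.single i 1))
      (D p z (EuclideanSpace.single j 1)) := rfl

lemma gi_D (g : RMetric (n := n) M) (p : M) (z u v : En n) :
    gi g ((chartAt (En n) p).symm z) (D p z u) (D p z v)
      = ∑ k, ∑ l, gc g p z k l * u k * v l :=
  expand ((gi g ((chartAt (En n) p).symm z)).bilinearComp (D p z) (D p z)) u v

lemma smooth (g : RMetric (n := n) M) (p : M) (i j : Fin n) :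
    ContDiffOn ℝ ∞ (fun z => gc g p z i j) (chartAt (En n) p).target := by
  have h1 := ((trivializationAt (En n →L[ℝ] En n →L[ℝ] ℝ)
    (fun x : M => TangentSpace (𝓡 n) x →L[ℝ] TangentSpace (𝓡 n) x →L[ℝ] ℝ)
      p).contMDiffOn_section_baseSet_iff (IB := 𝓡 n) (n := ∞) (s := g.inner)).1
    g.contMDiff.contMDiffOn
  have h2 := h1.comp (contMDiffOn_chart_symm (I := 𝓡 n) (n := ∞) (x := p)) (fun z hz => by
    have := (chartAt (En n) p).map_target hz
    simpa using this)
  rw [contMDiffOn_iff_contDiffOn] at h2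
  have h3 := (h2.clm_apply (contDiffOn_const (c := EuclideanSpace.single i (1 : ℝ)))).clm_apply
    (contDiffOn_const (c := EuclideanSpace.single j (1 : ℝ)))
  refine h3.congr fun z hz => ?_
  have h4 := triv_apply p ((chartAt (En n) p).map_target hz) (gi g ((chartAt (En n) p).symm z))
    (EuclideanSpace.single i 1) (EuclideanSpace.single j 1)
  rw [(chartAt (En n) p).right_inv hz] at h4
  exact h4.symm

lemma posdef (g : RMetric (n := n) M) (p : M) {z : En n} (hz : z ∈ (chartAt (En n) p).target) :
    (gc g p z).PosDef := by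
  refine Matrix.PosDef.of_dotProduct_mulVec_pos ?_ fun x hx => ?_
  · ext i j
    simp only [Matrix.conjTranspose_apply, star_trivial]
    exact g.symm _ _ _
  · have h0 : D p z (WithLp.toLp 2 x) ≠ 0 := fun h => hx (by
      have := D_inj p hz h
      ext i
      exact congrArg (fun w : En n => w i) this)
    have h1 : 0 < gi g ((chartAt (En n) p).symm z) (D p z (WithLp.toLp 2 x))
        (D p z (WithLp.toLp 2 x)) := g.pos _ _ h0
    rw [gi_D] at h1
    refine h1.trans_eq ?_
    simp only [dotProduct, Matrix.mulVec, star_trivial, Finset.mul_sum]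
    refine Finset.sum_congr rfl fun k _ => Finset.sum_congr rfl fun l _ => ?_
    ring

lemma law (g : RMetric (n := n) M) : Law (gc g) := by
  intro p q z hz hq i j
  rw [gc_eq, ← gi_D, D_comp p q hz hq]
  have : (chartAt (En n) q).symm (trn p q z) = (chartAt (En n) p).symm z :=
    (chartAt (En n) q).left_inv hq
  rw [this]
  rfl

lemma bil_D {G : M → En n → Matrix (Fin n) (Fin n) ℝ} (hG : ChartData G) (p : M) {z : En n}
    (hz : z ∈ (chartAt (En n) p).target) (i j : Fin n) :
    bil (G ((chartAt (En n) p).symm z)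
      (chartAt (En n) ((chartAt (En n) p).symm z) ((chartAt (En n) p).symm z)))
      (D p z (EuclideanSpace.single i 1)) (D p z (EuclideanSpace.single j 1)) = G p z i j := by
  rw [bil_apply, D_self p hz, hG.law p _ z hz (mem_chart_source _ _) i j]
  rfl

/-- The metric glued from chart data. -/
def glued {G : M → En n → Matrix (Fin n) (Fin n) ℝ} (hG : ChartData G) :
    RMetric (n := n) M where
  inner y := bil (G y (chartAt (En n) y y))
  symm y u v := by
    have hs := (hG.posdef y _ (mem_chart_target (En n) y)).isHermitian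
    change bil (G y (chartAt (En n) y y)) u v = bil (G y (chartAt (En n) y y)) v u
    rw [bil_apply, bil_apply, Finset.sum_comm]
    refine Finset.sum_congr rfl fun k _ => Finset.sum_congr rfl fun l _ => ?_
    have := hs.apply k l
    rw [star_trivial] at this
    rw [this]
    ring
  pos y v hv := bil_pos (hG.posdef y _ (mem_chart_target (En n) y)) hv
  isVonNBounded y := by
    obtain ⟨c, hc, h⟩ := bil_lower (hG.posdef y _ (mem_chart_target (En n) y))
    change Bornology.IsVonNBounded ℝ {v : En n | bil (G y (chartAt (En n) y y)) v v < 1}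
    refine (NormedSpace.isVonNBounded_ball ℝ (En n) (1 / c + 1)).subset ?_
    intro v hv
    have h1 : c * ‖v‖ ^ 2 < 1 := (h v).trans_lt hv
    rw [mem_ball_zero_iff]
    have h2 : ‖v‖ ^ 2 < 1 / c := by rw [lt_div_iff₀ hc]; linarith
    nlinarith [norm_nonneg v]
  contMDiff := by
    intro p
    rw [contMDiffAt_section]
    have h1 : ContDiffAt ℝ ∞ (fun z => bil (G p z)) (chartAt (En n) p p) := by
      refine ContDiffOn.contDiffAt ?_ ((chartAt (En n) p).open_target.mem_nhds
        (mem_chart_target (En n) p))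
      refine contDiffOn_clm_apply.2 fun u => contDiffOn_clm_apply.2 fun v => ?_
      simp only [bil_apply]
      refine ContDiffOn.sum fun i _ => ContDiffOn.sum fun j _ => ?_
      exact ((hG.smooth p i j).mul contDiffOn_const).mul contDiffOn_const
    have h2 : ContMDiffAt (𝓡 n) (𝓡 n) ∞ (chartAt (En n) p) p :=
      (contMDiffOn_chart (I := 𝓡 n) (n := ∞) (x := p)).contMDiffAt
        ((chartAt (En n) p).open_source.mem_nhds (mem_chart_source (En n) p))
    refine (h1.contMDiffAt.comp p h2).congr_of_eventuallyEq ?_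
    filter_upwards [(chartAt (En n) p).open_source.mem_nhds (mem_chart_source (En n) p)] with y hy
    refine ContinuousLinearMap.ext fun v => ContinuousLinearMap.ext fun w => ?_
    refine (triv_apply p hy (bil (G y (chartAt (En n) y y))) v w).trans ?_
    refine (expand ((bil (G y (chartAt (En n) y y))).bilinearComp (D p (chartAt (En n) p y))
      (D p (chartAt (En n) p y))) v w).trans ?_
    rw [Function.comp_apply, bil_apply]
    refine Finset.sum_congr rfl fun k _ => Finset.sum_congr rfl fun l _ => ?_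
    have := bil_D hG p ((chartAt (En n) p).map_source hy) k l
    rw [(chartAt (En n) p).left_inv hy] at this
    rw [← this]
    rfl

end ChartP

theorem chartS : S_Chart := fun _ _ _ _ _ g =>
  ⟨ChartP.smooth g, fun p _ hz => ChartP.posdef g p hz, ChartP.law g⟩

theorem glue : S_Glue := fun _ _ _ _ _ _ hG =>
  ⟨ChartP.glued hG, fun p _ hz => Matrix.ext fun i j => ChartP.bil_D hG p hz i j⟩

end Pool.Agent.P.MP_713680_gt
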