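import Pool.Agent.P.MP_713680_gt.UpSt

/-! MP_713680_gt, package M7: comparison of the frame calculus with the chart formulas. -/

open scoped ContDiff Manifold

noncomputable section

namespace Pool.Agent.P.MP_713680_gt

open Finset

namespace CmpP

section FCs

variable {S n ι : Type} [CommRing S] [Algebra ℝ S] [Fintype n] [Fintype ι] (F : FC S n)

theorem ip_right (u w : n → S) (a : ι → S) (y : ι → n → S) (h : ∀ k, ∑ e, a e * y e k = w k) :
    F.ip u w = ∑ e, a e * F.ip u (y e) := by
  simp only [FC.ip, ← h, mul_sum]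
  rw [sum_comm (s := univ (α := ι))]
  refine sum_congr rfl fun k _ => ?_
  rw [sum_comm]
  exact sum_congr rfl fun l _ => sum_congr rfl fun e _ => by ring

theorem ip_left (u w : n → S) (a : ι → S) (y : ι → n → S) (h : ∀ k, ∑ e, a e * y e k = u k) :
    F.ip u w = ∑ e, a e * F.ip (y e) w := by
  simp only [FC.ip, ← h, mul_sum, sum_mul]
  rw [sum_comm (s := univ (α := ι))]
  refine sum_congr rfl fun k _ => ?_
  rw [sum_comm]
  exact sum_congr rfl fun l _ => sum_congr rfl fun e _ => by ring

theorem nab_left (u w : n → S) (a : ι → S) (y : ι → n → S) (h : ∀ k, ∑ e, a e * y e k = u k)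
    (m : n) : ∑ e, a e * F.nab (y e) w m = F.nab u w m := by
  simp only [FC.nab, FC.vf, ← h, mul_add, sum_add_distrib, mul_sum, sum_mul]
  congr 1
  · rw [sum_comm]
    exact sum_congr rfl fun k _ => sum_congr rfl fun e _ => by ring
  · rw [sum_comm]
    refine sum_congr rfl fun k _ => ?_
    rw [sum_comm]
    exact sum_congr rfl fun l _ => sum_congr rfl fun e _ => by ring

theorem gam_hor {P : Type} (C : Calc P S ι) (ha : C.AlgA) (a b e : ι) :
    ∑ c, (C.Gam a b c - C.Gam b a c) * C.Pr c e = C.Gam a b e - C.Gam b a e := by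
  simp only [sub_mul, sum_sub_distrib, ha.Gam_hor3]

end FCs

/-- Smooth functions on the model space. -/
def SM : Subalgebra ℝ (En 4 → ℝ) where
  carrier := {f | ContDiff ℝ ∞ f}
  mul_mem' := fun {f g} (hf : ContDiff ℝ ∞ f) (hg : ContDiff ℝ ∞ g) => hf.mul hg
  add_mem' := fun {f g} (hf : ContDiff ℝ ∞ f) (hg : ContDiff ℝ ∞ g) => hf.add hg
  algebraMap_mem' := fun c => (contDiff_const : ContDiff ℝ ∞ fun _ : En 4 => c)

theorem SM_smooth (f : SM) : ContDiff ℝ ∞ f.1 := f.2

theorem SM_diff (f : SM) (z : En 4) : DifferentiableAt ℝ f.1 z :=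
  ((SM_smooth f).differentiable (by simp)).differentiableAt

theorem pd_smooth {f : En 4 → ℝ} (hf : ContDiff ℝ ∞ f) (i : Fin 4) : ContDiff ℝ ∞ (pd f i) :=
  (hf.fderiv_right (m := ∞) (by simp)).clm_apply contDiff_const

/-- Evaluation. -/
def evM (z : En 4) : SM →ₐ[ℝ] ℝ := (Pi.evalAlgHom ℝ (fun _ => ℝ) z).comp SM.val

theorem evM_apply (z : En 4) (f : SM) : evM z f = f.1 z := rfl

theorem ext_evM {f g : SM} (h : ∀ z, evM z f = evM z g) : f = g := Subtype.ext (funext h)

def Dl (i : Fin 4) : SM →ₗ[ℝ] SM where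
  toFun f := ⟨pd f.1 i, pd_smooth (SM_smooth f) i⟩
  map_add' f g := by
    apply Subtype.ext; funext z
    change fderiv ℝ (f.1 + g.1) z _ = fderiv ℝ f.1 z _ + fderiv ℝ g.1 z _
    rw [fderiv_add (SM_diff f z) (SM_diff g z)]; rfl
  map_smul' c f := by
    apply Subtype.ext; funext z
    change fderiv ℝ (c • f.1) z _ = c • fderiv ℝ f.1 z _
    rw [fderiv_const_smul (SM_diff f z)]; rfl

/-- The partial derivatives. -/
def Dd (i : Fin 4) : Derivation ℝ SM SM :=
  Derivation.mk' (Dl i) fun f g => by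
    apply Subtype.ext; funext z
    change fderiv ℝ (f.1 * g.1) z _ = f.1 z * fderiv ℝ g.1 z _ + g.1 z * fderiv ℝ f.1 z _
    rw [fderiv_mul (SM_diff f z) (SM_diff g z)]
    simp

theorem ev_Dd (i : Fin 4) (f : SM) (z : En 4) : evM z (Dd i f) = pd f.1 i z := rfl

theorem pd_pd {f : En 4 → ℝ} (hf : ContDiff ℝ ∞ f) (i j : Fin 4) (z : En 4) :
    pd (pd f j) i z =
      fderiv ℝ (fderiv ℝ f) z (EuclideanSpace.single i 1) (EuclideanSpace.single j 1) := by
  have h : DifferentiableAt ℝ (fderiv ℝ f) z :=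
    ((hf.fderiv_right (m := ∞) (by simp)).differentiable (by simp)).differentiableAt
  change fderiv ℝ (fun y => fderiv ℝ f y (EuclideanSpace.single j 1)) z _ = _
  rw [fderiv_clm_apply h (differentiableAt_const _)]
  simp

theorem two_le_infty : (2 : WithTop ℕ∞) ≤ ∞ := by
  exact WithTop.coe_le_coe.2 (le_top : (2 : ℕ∞) ≤ ⊤)

theorem Dd_comm (i j : Fin 4) (f : SM) : Dd i (Dd j f) = Dd j (Dd i f) := by
  refine ext_evM fun z => ?_
  change pd (pd f.1 j) i z = pd (pd f.1 i) j z
  rw [pd_pd (SM_smooth f), pd_pd (SM_smooth f)]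
  exact ((SM_smooth f).contDiffAt.isSymmSndFDerivAt (by simpa using two_le_infty)) _ _

variable {D : ManData} {g : RMetric (n := 4) D.M}

theorem gc_smooth (h : ChartData (gc g)) (p : D.M) (i j : Fin 4) :
    ContDiff ℝ ∞ fun z => gc g p z i j := by
  have := h.smooth p i j
  rwa [D.target, contDiffOn_univ] at this

theorem gc_pos (h : ChartData (gc g)) (p : D.M) (z : En 4) : (gc g p z).PosDef :=
  h.posdef p z (by rw [D.target]; trivial)

theorem gc_symm (h : ChartData (gc g)) (p : D.M) (z : En 4) (i j : Fin 4) :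
    gc g p z i j = gc g p z j i := by
  simpa using (gc_pos h p z).isHermitian.apply j i

theorem inv_smooth (h : ChartData (gc g)) (p : D.M) (k l : Fin 4) :
    ContDiff ℝ ∞ fun z => (gc g p z)⁻¹ k l := by
  let Gm : Matrix (Fin 4) (Fin 4) SM := Matrix.of fun i j => ⟨_, gc_smooth h p i j⟩
  have e : ∀ z, (evM z).toRingHom.mapMatrix Gm = gc g p z := fun z => rfl
  have h1 : ∀ z, Gm.det.1 z = (gc g p z).det := fun z => by
    rw [← e, ← RingHom.map_det]; rfl
  have h2 : ∀ z, (Gm.adjugate k l).1 z = (gc g p z).adjugate k l := fun z => by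
    rw [← e, ← RingHom.map_adjugate]; rfl
  have h3 : (fun z => (gc g p z)⁻¹ k l) = fun z => (Gm.det.1 z)⁻¹ * (Gm.adjugate k l).1 z := by
    funext z
    rw [h1, h2, Matrix.inv_def, Ring.inverse_eq_inv', Matrix.smul_apply, smul_eq_mul]
  rw [h3]
  exact ((SM_smooth _).inv fun z => by rw [h1]; exact (gc_pos h p z).det_pos.ne').mul (SM_smooth _)

theorem chr_smooth (h : ChartData (gc g)) (p : D.M) (k i j : Fin 4) :
    ContDiff ℝ ∞ (chr g p k i j) :=
  contDiff_const.mul (ContDiff.sum fun l _ => (inv_smooth h p k l).mul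
    (((pd_smooth (gc_smooth h p j l) i).add (pd_smooth (gc_smooth h p i l) j)).sub
      (pd_smooth (gc_smooth h p i j) l)))

theorem chr_low (h : ChartData (gc g)) (p : D.M) (z : En 4) (i j k : Fin 4) :
    ∑ s, chr g p s i j z * gc g p z s k = (1 / 2) * (pd (fun y => gc g p y j k) i z
      + pd (fun y => gc g p y i k) j z - pd (fun y => gc g p y i j) k z) := by
  have h1 : ∀ l, ∑ s, gc g p z k s * (gc g p z)⁻¹ s l = if k = l then 1 else 0 := fun l => by
    rw [← Matrix.mul_apply, Matrix.mul_nonsing_inv _ (gc_pos h p z).det_pos.ne'.isUnit,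
      Matrix.one_apply]
  have h2 : ∑ s, chr g p s i j z * gc g p z s k = ∑ l, (∑ s, gc g p z k s * (gc g p z)⁻¹ s l) *
      ((1 / 2) * (pd (fun y => gc g p y j l) i z + pd (fun y => gc g p y i l) j z
        - pd (fun y => gc g p y i j) l z)) := by
    simp only [chr, mul_sum, sum_mul]
    rw [sum_comm]
    exact sum_congr rfl fun l _ => sum_congr rfl fun s _ => by rw [gc_symm h p z s k]; ring
  rw [h2]
  simp only [h1, ite_mul, one_mul, zero_mul, sum_ite_eq, mem_univ, if_true]

/-- The coordinate frame of the chart at `p`. -/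
def fc (h : ChartData (gc g)) (p : D.M) : FC SM (Fin 4) where
  D := Dd
  c _ _ _ := 0
  g i j := ⟨fun z => gc g p z i j, gc_smooth h p i j⟩
  G k i j := ⟨chr g p k i j, chr_smooth h p k i j⟩
  br i j f := by rw [Dd_comm]; simp
  symm i j := ext_evM fun z => gc_symm h p z i j
  compat i j k := ext_evM fun z => by
    have e : ∀ a b, (fun y => gc g p y a b) = fun y => gc g p y b a := fun a b =>
      funext fun y => gc_symm h p y a b
    have h1 := chr_low h p z i j k
    have h2 := chr_low h p z i k j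
    rw [e k j] at h2
    rw [ev_Dd]
    simp only [map_sum, map_add, map_mul, evM_apply, sum_add_distrib, gc_symm h p z j]
    linear_combination - h1 - h2
  tors i j k := ext_evM fun z => by
    have e : (fun y => gc g p y i j) = fun y => gc g p y j i :=
      funext fun y => gc_symm h p y i j
    simp only [map_sub, map_zero, evM_apply, chr, e]
    rw [sub_eq_zero]
    congr 1
    exact sum_congr rfl fun l _ => by ring

theorem mem_W (D : ManData) {p : D.M} {x : PP} (h : D.π x ∈ (chartAt (En 4) p).source) :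
    inc x ∈ D.W p := (D.W_iff p _).2 ⟨inc_mem x, by rwa [nrm_inc]⟩

theorem rd_at {G : D.M → En 4 → Matrix (Fin 4) (Fin 4) ℝ} {ι : Type} [Fintype ι]
    {C : Calc PP AA ι} {p : D.M} {yy : ι → Fin 4 → En 4 → ℝ} (R : ResC D G C p yy) (f : AA)
    {x : PP} (h : D.π x ∈ (chartAt (En 4) p).source) :
    rd D p f (chartAt (En 4) p (D.π x)) = f.1.1 x := by
  rw [← R.val f x (mem_W D h), D.φ_eq p _ (mem_W D h), nrm_inc]

theorem ext_eq (p : D.M) : extChartAt (𝓡 4) p p = chartAt (En 4) p p := rfl

end CmpP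

open CmpP

theorem cmp (hF : S_FC) : S_Cmp := by
  intro D g ι _ C hc hev ha hr hres x
  obtain ⟨yy, R⟩ := hres (D.π x)
  set p := D.π x with hp
  set z0 := chartAt (En 4) p p with hz
  have hx : ∀ f : AA, C.ev x f = rd D p f z0 := fun f => by
    rw [hev, evA_apply]; exact (rd_at R f (mem_chart_source _ _)).symm
  let r : AA →ₐ[ℝ] SM :=
    { toFun := fun f => ⟨rd D p f, R.smooth f⟩
      map_one' := rfl
      map_mul' := fun _ _ => rfl
      map_zero' := rfl
      map_add' := fun _ _ => rfl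
      commutes' := fun _ => rfl }
  have hrv : ∀ z f, evM z (r f) = rd D p f z := fun _ _ => rfl
  let y : ι → Fin 4 → SM := fun a i => ⟨yy a i, R.ysmooth a i⟩
  have hy : ∀ z a i, evM z (y a i) = yy a i z := fun _ _ _ => rfl
  let F := fc hc p
  have hg : ∀ z i j, evM z (F.g i j) = gc g p z i j := fun _ _ _ => rfl
  have h1 : ∀ a f, r (C.Y a f) = F.vf (y a) (r f) := fun a f => ext_evM fun z => by
    rw [hrv, R.Y, FC.vf, map_sum]; rfl
  have h2 : ∀ a b, r (C.Pr a b) = F.ip (y a) (y b) := fun a b => ext_evM fun z => by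
    rw [hrv, R.Pr]
    simp only [FC.ip, map_sum, map_mul, hg, hy]
  have hpars : ∀ (u : Fin 4 → SM) k, ∑ e, F.ip u (y e) * y e k = u k := fun u k =>
    ext_evM fun z => by
      rw [← R.pars z (fun i => evM z (u i)) k]
      simp only [FC.ip, map_sum, map_mul, hg, hy]
  have h3 : ∀ a b e, r (C.Gam a b e - C.Gam b a e) = F.ip (F.brk (y a) (y b)) (y e) := by
    intro a b e
    have hb : ∀ k, ∑ c, r (C.Gam a b c - C.Gam b a c) * y c k = F.brk (y a) (y b) k := fun k =>
      ext_evM fun z => by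
        have := R.brk a b k z
        simp only [map_sum, map_mul, hrv, hy, ← this, sum_sub_distrib]
        simp only [FC.brk, FC.vf, map_sub, map_sum, map_mul, hy, F, fc, zero_smul,
          sum_const_zero, add_zero, ev_Dd, y]
    rw [ip_left F _ _ _ y hb]
    simp only [← h2, ← map_mul, ← map_sum]
    exact congrArg r (gam_hor C ha a b e).symm
  refine ⟨fun a i => yy a i z0, fun a b => ?_, fun u => funext fun k => ?_, fun a b c d => ?_⟩
  · rw [hx, R.Pr]; rfl
  · rw [← R.pars z0 u k, Finset.sum_apply]; rfl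
  · have h4 := (hF SM (Fin 4) PP AA ι F C r y ha hr h1 h2 h3).2 a b c d
    rw [ip_right F (F.nab (y b) (y c)) _ _ y (hpars (F.nab (y a) (y d))),
      ip_right F (F.nab (y a) (y c)) _ _ y (hpars (F.nab (y b) (y d))),
      ip_left F (F.nab (F.brk (y a) (y b)) (y c)) _ _ (fun e => F.nab (y e) (y c))
        (nab_left F _ _ _ y (hpars _)), sub_self, sub_self, sub_self, add_zero, sub_zero,
      add_zero] at h4
    rw [hx, ← hrv, h4]
    simp only [map_sum, map_mul, hy, rAt]
    refine sum_congr rfl fun i _ => sum_congr rfl fun j _ => sum_congr rfl fun k _ =>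
      sum_congr rfl fun l _ => ?_
    congr 4
    simp only [FC.Rie, riem, map_sum, map_mul, map_add, map_sub, F, fc, zero_smul,
      sum_const_zero, sub_zero, ev_Dd]
    rfl

theorem dist (hL : S_Lip) : S_Dist := by
  intro D g ι _ C _ hev hres hd f L hL0 hf x y
  choose yy R using hres
  let F : D.M → ℝ := fun q => f.1.1 (Function.surjInv D.surj q)
  have hF : ∀ p, (fun z => F ((chartAt (En 4) p).symm z)) = rd D p f := fun p => funext fun z => by
    have hz : z ∈ (chartAt (En 4) p).target := by rw [D.target]; trivial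
    have e := Function.surjInv_eq D.surj ((chartAt (En 4) p).symm z)
    have := rd_at (R p) f (x := Function.surjInv D.surj ((chartAt (En 4) p).symm z))
      (by rw [e]; exact (chartAt (En 4) p).map_target hz)
    rw [e, (chartAt (En 4) p).right_inv hz] at this
    exact this.symm
  have hFx : ∀ x, F (D.π x) = C.ev x f := fun x => by
    have := congrFun (hF (D.π x)) (chartAt (En 4) (D.π x) (D.π x))
    rw [(chartAt (En 4) (D.π x)).left_inv (mem_chart_source _ _),
      rd_at (R _) f (mem_chart_source _ _)] at this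
    rw [this, hev, evA_apply]
  rw [← hFx, ← hFx]
  refine hL 4 D.M g F L hL0 (fun p => ?_) (fun p u => ?_) hd _ _
  · rw [hF]; exact (((R p).smooth f).of_le (by simp)).contDiffOn
  obtain ⟨x, rfl⟩ := D.surj p
  set p := D.π x with hp
  set z0 := chartAt (En 4) p p with hz
  let c : ι → ℝ := fun a => ∑ i, ∑ j, gc g p z0 i j * u i * yy p a j z0
  have hu : ∀ k, ∑ a, c a * yy p a k z0 = u k := fun k => (R p).pars z0 u k
  have h1 : fderiv ℝ (rd D p f) z0 u = ∑ k, u k * pd (rd D p f) k z0 := by
    have e : u = ∑ k, u k • EuclideanSpace.single k (1 : ℝ) := by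
      ext k; simp [Pi.single_apply]
    conv_lhs => rw [e, map_sum]
    simp only [map_smul, smul_eq_mul, pd]
  have h2 : fderiv ℝ (rd D p f) z0 u = ∑ a, c a * rd D p (C.Y a f) z0 := by
    rw [h1]
    simp only [(R p).Y, ← hu, mul_sum, sum_mul]
    rw [sum_comm]
    exact sum_congr rfl fun a _ => sum_congr rfl fun k _ => by ring
  have h3 : gAt g p u u = ∑ a, c a ^ 2 := by
    have : gAt g p u u = ∑ i, ∑ j, gc g p z0 i j * u i * ∑ a, c a * yy p a j z0 := by
      simp only [hu]; rfl
    rw [this]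
    simp only [mul_sum]
    rw [sum_congr rfl fun i _ => sum_comm, sum_comm]
    refine sum_congr rfl fun a _ => ?_
    rw [sq]
    conv_rhs => lhs; simp only [c]
    simp only [sum_mul]
    exact sum_congr rfl fun i _ => sum_congr rfl fun j _ => by ring
  have h4 : ∑ a, rd D p (C.Y a f) z0 ^ 2 ≤ L ^ 2 := by
    refine le_of_eq_of_le ?_ (hf x)
    simp only [ip1, Calc.d0, map_sum, map_mul, hev, evA_apply, sq]
    exact sum_congr rfl fun a _ => by rw [rd_at (R p) _ (mem_chart_source _ _)]
  rw [hF, h2, h3, mul_comm]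
  exact (sum_mul_sq_le_sq_mul_sq _ _ _).trans
    (mul_le_mul_of_nonneg_left h4 (sum_nonneg fun a _ => sq_nonneg _))

end Pool.Agent.P.MP_713680_gt
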