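import Pool.Agent.P.MP_713680_gt.UpSt

/-!
MP_713680_gt, package M8: the curvature bounds of the metric and of the frame calculus agree.
-/

open scoped Manifold

noncomputable section

namespace Pool.Agent.P.MP_713680_gt

open Finset

namespace CurvP

theorem quad_ge {n : Type} [Fintype n] [DecidableEq n] (Q : Matrix n n ℝ)
    (hQ : ∀ i j, Q i j = Q j i) (ε : ℝ)
    (h : ∀ μ, Module.End.HasEigenvalue (Matrix.toLin' Q) μ → -ε ≤ μ) (v : n → ℝ) :
    -ε * ∑ i, v i ^ 2 ≤ ∑ i, ∑ j, Q i j * v i * v j := by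
  have hH : (Q + ε • (1 : Matrix n n ℝ)).IsHermitian := by
    ext i j
    simp only [Matrix.conjTranspose_apply, star_trivial, Matrix.add_apply, Matrix.smul_apply,
      Matrix.one_apply, hQ j i, eq_comm (a := j) (b := i)]
  have hP : (Q + ε • (1 : Matrix n n ℝ)).PosSemidef := by
    rw [hH.posSemidef_iff_eigenvalues_nonneg]
    intro j
    have h1 := hH.mulVec_eigenvectorBasis j
    have h0 : (⇑(hH.eigenvectorBasis j) : n → ℝ) ≠ 0 := by
      intro h0
      apply hH.eigenvectorBasis.orthonormal.ne_zero j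
      ext i
      exact congrFun h0 i
    have h2 : Module.End.HasEigenvalue (Matrix.toLin' Q) (hH.eigenvalues j - ε) := by
      apply Module.End.hasEigenvalue_of_hasEigenvector (x := ⇑(hH.eigenvectorBasis j))
      refine ⟨?_, h0⟩
      rw [Module.End.mem_eigenspace_iff, Matrix.toLin'_apply, sub_smul, ← h1, Matrix.add_mulVec,
        Matrix.smul_mulVec, Matrix.one_mulVec, add_sub_cancel_right]
    have := h _ h2
    simp only [Pi.zero_apply]
    linarith
  have h3 := hP.dotProduct_mulVec_nonneg v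
  rw [star_trivial, Matrix.add_mulVec, Matrix.smul_mulVec, Matrix.one_mulVec, dotProduct_add,
    dotProduct_smul] at h3
  have e1 : v ⬝ᵥ Q.mulVec v = ∑ i, ∑ j, Q i j * v i * v j := by
    simp only [dotProduct, Matrix.mulVec, mul_sum]
    exact sum_congr rfl fun i _ => sum_congr rfl fun j _ => by ring
  have e2 : v ⬝ᵥ v = ∑ i, v i ^ 2 := by
    simp only [dotProduct, sq]
  rw [e1, e2, smul_eq_mul] at h3
  linarith

theorem sum_pairs {n : ℕ} (F : Fin n → Fin n → ℝ) (hs : ∀ i j, F i j = F j i)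
    (hd : ∀ i, F i i = 0) :
    ∑ i, ∑ j, F i j = 2 * ∑ x : {x : Fin n × Fin n // x.1 < x.2}, F x.1.1 x.1.2 := by
  have e1 : ∑ x : {x : Fin n × Fin n // x.1 < x.2}, F x.1.1 x.1.2
      = ∑ i, ∑ j, if i < j then F i j else 0 := by
    rw [← Fintype.sum_prod_type' (fun i j => if i < j then F i j else 0), ← sum_filter]
    exact (sum_subtype (univ.filter fun x : Fin n × Fin n => x.1 < x.2) (by simp)
      (fun x : Fin n × Fin n => F x.1 x.2)).symm
  have e2 : ∑ i, ∑ j, (if i < j then F i j else 0) = ∑ i, ∑ j, if j < i then F i j else 0 := by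
    rw [sum_comm]
    exact sum_congr rfl fun i _ => sum_congr rfl fun j _ => by rw [hs]
  rw [two_mul, e1]
  nth_rewrite 2 [e2]
  rw [← sum_add_distrib]
  refine sum_congr rfl fun i _ => ?_
  rw [← sum_add_distrib]
  refine sum_congr rfl fun j _ => ?_
  rcases lt_trichotomy i j with h | h | h
  · simp [h, h.le]
  · subst h; simp [hd]
  · simp [h, h.le]

theorem four {n : ℕ} (r : Fin n → Fin n → Fin n → Fin n → ℝ)
    (s1 : ∀ i j k l, r i j k l = - r j i k l) (s2 : ∀ i j k l, r i j k l = - r i j l k)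
    (sp : ∀ i j k l, r i j k l = r k l i j) (ε : ℝ)
    (h : ∀ μ : ℝ, Module.End.HasEigenvalue
      (Matrix.toLin' (Matrix.of fun (cd ab : {x : Fin n × Fin n // x.1 < x.2}) =>
        r ab.1.1 ab.1.2 cd.1.2 cd.1.1)) μ → -ε ≤ μ)
    (w : Fin n → Fin n → ℝ) (hw : ∀ i j, w i j = - w j i) :
    -(2 * ε) * ∑ i, ∑ j, w i j ^ 2 ≤ ∑ i, ∑ j, ∑ l, ∑ k, r i j k l * w i j * w l k := by
  have hd : ∀ i, w i i = 0 := fun i => by have := hw i i; linarith
  have h1 := quad_ge _ (fun cd ab => by
    simp only [Matrix.of_apply]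
    rw [sp, s1, s2, neg_neg]) ε h (fun x => w x.1.1 x.1.2)
  simp only [Matrix.of_apply] at h1
  rw [sum_pairs (fun i j => w i j ^ 2) (fun i j => by rw [hw i j]; ring) (fun i => by simp [hd])]
  have e1 : ∀ i j, ∑ l, ∑ k, r i j k l * w i j * w l k
      = 2 * ∑ x : {x : Fin n × Fin n // x.1 < x.2}, r i j x.1.2 x.1.1 * w i j * w x.1.1 x.1.2 :=
    fun i j => sum_pairs (fun l k => r i j k l * w i j * w l k)
      (fun l k => by rw [s2 i j k l, hw l k]; ring) (fun l => by simp [hd])
  simp only [e1]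
  rw [sum_pairs (fun i j => 2 * ∑ x : {x : Fin n × Fin n // x.1 < x.2},
      r i j x.1.2 x.1.1 * w i j * w x.1.1 x.1.2)
    (fun i j => by
      congr 1
      exact sum_congr rfl fun x _ => by rw [s1 i j, hw i j]; ring)
    (fun i => by simp [hd])]
  rw [← mul_sum, sum_comm]
  have e2 : ∑ y : {x : Fin n × Fin n // x.1 < x.2}, ∑ x : {x : Fin n × Fin n // x.1 < x.2},
      r x.1.1 x.1.2 y.1.2 y.1.1 * w x.1.1 x.1.2 * w y.1.1 y.1.2
      = ∑ y : {x : Fin n × Fin n // x.1 < x.2}, ∑ x : {x : Fin n × Fin n // x.1 < x.2},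
      r x.1.1 x.1.2 y.1.2 y.1.1 * w y.1.1 y.1.2 * w x.1.1 x.1.2 :=
    sum_congr rfl fun y _ => sum_congr rfl fun x _ => by ring
  rw [e2]
  linarith

section Multi

variable {n : ℕ} {M : Type} [TopologicalSpace M] [ChartedSpace (En n) M] [IsManifold (𝓡 n) ((⊤ : ℕ∞) : WithTop ℕ∞) M]
  (g : RMetric (n := n) M) (p : M) {ι : Type} [Fintype ι]

theorem lin_sum (f : (Fin n → ℝ) → ℝ) (hf : IsLinearMap ℝ f) (c : ι → ℝ) (y : ι → Fin n → ℝ) :
    f (∑ a, c a • y a) = ∑ a, c a * f (y a) := by
  have := map_sum (hf.mk' f) (fun a => c a • y a) univ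
  simp only [map_smul, IsLinearMap.mk'_apply, smul_eq_mul] at this
  exact this

theorem g1 (v : Fin n → ℝ) : IsLinearMap ℝ fun u => gAt g p u v := by
  constructor
  · intro a b; simp only [gAt, Pi.add_apply, mul_add, add_mul, sum_add_distrib]
  · intro c a; simp only [gAt, Pi.smul_apply, smul_eq_mul, mul_sum]
    exact sum_congr rfl fun i _ => sum_congr rfl fun j _ => by ring

theorem g2 (u : Fin n → ℝ) : IsLinearMap ℝ fun v => gAt g p u v := by
  constructor
  · intro a b; simp only [gAt, Pi.add_apply, mul_add, sum_add_distrib]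
  · intro c a; simp only [gAt, Pi.smul_apply, smul_eq_mul, mul_sum]
    exact sum_congr rfl fun i _ => sum_congr rfl fun j _ => by ring

theorem r1 (v w t : Fin n → ℝ) : IsLinearMap ℝ fun u => rAt g p u v w t := by
  constructor
  · intro a b; simp only [rAt, Pi.add_apply, mul_add, add_mul, sum_add_distrib]
  · intro c a; simp only [rAt, Pi.smul_apply, smul_eq_mul, mul_sum]
    exact sum_congr rfl fun i _ => sum_congr rfl fun j _ => sum_congr rfl fun k _ =>
      sum_congr rfl fun l _ => by ring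

theorem r2 (u w t : Fin n → ℝ) : IsLinearMap ℝ fun v => rAt g p u v w t := by
  constructor
  · intro a b; simp only [rAt, Pi.add_apply, mul_add, add_mul, sum_add_distrib]
  · intro c a; simp only [rAt, Pi.smul_apply, smul_eq_mul, mul_sum]
    exact sum_congr rfl fun i _ => sum_congr rfl fun j _ => sum_congr rfl fun k _ =>
      sum_congr rfl fun l _ => by ring

theorem r3 (u v t : Fin n → ℝ) : IsLinearMap ℝ fun w => rAt g p u v w t := by
  constructor
  · intro a b; simp only [rAt, Pi.add_apply, mul_add, add_mul, sum_add_distrib]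
  · intro c a; simp only [rAt, Pi.smul_apply, smul_eq_mul, mul_sum]
    exact sum_congr rfl fun i _ => sum_congr rfl fun j _ => sum_congr rfl fun k _ =>
      sum_congr rfl fun l _ => by ring

theorem r4 (u v w : Fin n → ℝ) : IsLinearMap ℝ fun t => rAt g p u v w t := by
  constructor
  · intro a b; simp only [rAt, Pi.add_apply, mul_add, sum_add_distrib]
  · intro c a; simp only [rAt, Pi.smul_apply, smul_eq_mul, mul_sum]
    exact sum_congr rfl fun i _ => sum_congr rfl fun j _ => sum_congr rfl fun k _ =>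
      sum_congr rfl fun l _ => by ring

theorem gAt_sum (c d : ι → ℝ) (y : ι → Fin n → ℝ) :
    gAt g p (∑ a, c a • y a) (∑ a, d a • y a) = ∑ a, ∑ b, c a * d b * gAt g p (y a) (y b) := by
  rw [lin_sum _ (g1 g p _)]
  refine sum_congr rfl fun a _ => ?_
  rw [lin_sum _ (g2 g p _), mul_sum]
  exact sum_congr rfl fun b _ => by ring

theorem rAt_sum (c d e f : ι → ℝ) (y : ι → Fin n → ℝ) :
    rAt g p (∑ a, c a • y a) (∑ a, d a • y a) (∑ a, e a • y a) (∑ a, f a • y a)
      = ∑ a, ∑ b, ∑ k, ∑ l, rAt g p (y a) (y b) (y k) (y l) * c a * d b * e k * f l := by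
  rw [lin_sum _ (r1 g p _ _ _)]
  refine sum_congr rfl fun a _ => ?_
  rw [lin_sum _ (r2 g p _ _ _), mul_sum]
  refine sum_congr rfl fun b _ => ?_
  rw [lin_sum _ (r3 g p _ _ _), mul_sum, mul_sum]
  refine sum_congr rfl fun k _ => ?_
  rw [lin_sum _ (r4 g p _ _ _), mul_sum, mul_sum, mul_sum]
  exact sum_congr rfl fun l _ => by ring

end Multi

section Alg

variable {ι κ : Type} [Fintype ι] [Fintype κ]

/-- the contraction of a 4-tensor with four vectors -/
def c4 (T : ι → ι → ι → ι → ℝ) (c d e f : ι → ℝ) : ℝ :=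
  ∑ a, ∑ b, ∑ k, ∑ l, T a b k l * c a * d b * e k * f l

theorem c4_s1 (T : ι → ι → ι → ι → ℝ) (h : ∀ a b k l, T a b k l = - T b a k l) (c d e f : ι → ℝ) :
    c4 T c d e f = - c4 T d c e f := by
  unfold c4
  rw [sum_comm]
  simp only [← sum_neg_distrib]
  exact sum_congr rfl fun a _ => sum_congr rfl fun b _ => sum_congr rfl fun k _ =>
    sum_congr rfl fun l _ => by rw [h]; ring

theorem c4_s2 (T : ι → ι → ι → ι → ℝ) (h : ∀ a b k l, T a b k l = - T a b l k) (c d e f : ι → ℝ) :
    c4 T c d e f = - c4 T c d f e := by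
  unfold c4
  simp only [← sum_neg_distrib]
  refine sum_congr rfl fun a _ => sum_congr rfl fun b _ => ?_
  rw [sum_comm]
  exact sum_congr rfl fun k _ => sum_congr rfl fun l _ => by rw [h]; ring

theorem sum4_swap (F : ι → ι → κ → κ → ℝ) :
    ∑ a, ∑ b, ∑ k, ∑ l, F a b k l = ∑ k, ∑ l, ∑ a, ∑ b, F a b k l := by
  have e1 : ∀ a, ∑ b, ∑ k, ∑ l, F a b k l = ∑ k, ∑ l, ∑ b, F a b k l := fun a => by
    rw [sum_comm]
    exact sum_congr rfl fun k _ => sum_comm
  simp only [e1]
  rw [sum_comm]
  exact sum_congr rfl fun k _ => sum_comm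

theorem c4_sp (T : ι → ι → ι → ι → ℝ) (h : ∀ a b k l, T a b k l = T k l a b) (c d e f : ι → ℝ) :
    c4 T c d e f = c4 T e f c d := by
  unfold c4
  rw [sum4_swap]
  exact sum_congr rfl fun a _ => sum_congr rfl fun b _ => sum_congr rfl fun k _ =>
    sum_congr rfl fun l _ => by rw [h]; ring

/-- A bilinear contraction of a transported 2-tensor. -/
theorem tr2 (E : ι → κ → ℝ) (w : κ → κ → ℝ) (F : ι → ι → ℝ) :
    ∑ a, ∑ b, F a b * ∑ i, ∑ j, E a i * E b j * w i j
      = ∑ i, ∑ j, (∑ a, ∑ b, F a b * E a i * E b j) * w i j := by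
  simp only [mul_sum, sum_mul]
  rw [sum4_swap]
  exact sum_congr rfl fun i _ => sum_congr rfl fun j _ => sum_congr rfl fun a _ =>
    sum_congr rfl fun b _ => by ring

theorem tr4 (E : ι → κ → ℝ) (w : κ → κ → ℝ) (T : ι → ι → ι → ι → ℝ) :
    ∑ a, ∑ b, ∑ e, ∑ c, T a b c e * (∑ i, ∑ j, E a i * E b j * w i j)
        * (∑ i, ∑ j, E e i * E c j * w i j)
      = ∑ i, ∑ j, ∑ l, ∑ k, c4 T (fun a => E a i) (fun a => E a j) (fun a => E a k)
        (fun a => E a l) * w i j * w l k := by
  have e1 : ∀ a b, ∑ e, ∑ c, T a b c e * (∑ i, ∑ j, E a i * E b j * w i j)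
        * (∑ i, ∑ j, E e i * E c j * w i j)
      = (∑ l, ∑ k, (∑ e, ∑ c, T a b c e * E e l * E c k) * w l k)
        * (∑ i, ∑ j, E a i * E b j * w i j) := fun a b => by
    rw [← tr2, sum_mul]
    refine sum_congr rfl fun e _ => ?_
    rw [sum_mul]
    exact sum_congr rfl fun c _ => by ring
  simp only [e1]
  rw [tr2]
  refine sum_congr rfl fun i _ => sum_congr rfl fun j _ => ?_
  simp only [c4, sum_mul]
  rw [sum4_swap]
  refine sum_congr rfl fun l _ => sum_congr rfl fun k _ => sum_congr rfl fun a _ =>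
    sum_congr rfl fun b _ => ?_
  rw [sum_comm]
  exact sum_congr rfl fun c _ => sum_congr rfl fun e _ => by ring

end Alg

end CurvP

open CurvP in
theorem curv : S_Curv := by
  intro D g ι _ C _ hr hc
  constructor
  · intro vol ε h4 hop x ω hs hh
    obtain ⟨yy, hP, -, hR⟩ := hc x
    obtain ⟨E, hE, hPE, -⟩ := h4 x
    have hE' : ∀ (i : Fin 4) (F : Fin 4 → ℝ), ∑ a, E a i * ∑ k, E a k * F k = F i := by
      intro i F
      simp only [mul_sum]
      rw [sum_comm]
      have : ∀ k, ∑ a, E a i * (E a k * F k) = (if i = k then 1 else 0) * F k := fun k => by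
        rw [← hE, sum_mul]; exact sum_congr rfl fun a _ => by ring
      simp [this]
    set T : ι → ι → ι → ι → ℝ := fun a b c d => C.ev x (C.Rm a b c d) with hT
    have hon : ∀ i j, gAt g (D.π x) (∑ a, E a i • yy a) (∑ a, E a j • yy a)
        = if i = j then 1 else 0 := by
      intro i j
      rw [gAt_sum]
      have : ∀ a, ∑ b, E a i * E b j * gAt g (D.π x) (yy a) (yy b)
          = E a i * ∑ k, E a k * if j = k then 1 else 0 := fun a => by
        simp only [← hP, hPE, ← hE, mul_sum]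
        rw [sum_comm]
        exact sum_congr rfl fun k _ => sum_congr rfl fun b _ => by ring
      simp only [this]
      rw [hE']
      simp only [eq_comm]
    have hr4 : ∀ i j k l, rAt g (D.π x) (∑ a, E a i • yy a) (∑ a, E a j • yy a)
        (∑ a, E a k • yy a) (∑ a, E a l • yy a)
        = c4 T (fun a => E a i) (fun a => E a j) (fun a => E a k) (fun a => E a l) := by
      intro i j k l
      rw [rAt_sum]
      simp only [c4, hT, hR]
    have heig := hop (D.π x) (fun i => ∑ a, E a i • yy a) hon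
    simp only [hr4] at heig
    -- the transported form
    set w : Fin 4 → Fin 4 → ℝ := fun i j => ∑ a, ∑ b, ω a b * E a i * E b j with hw
    have hws : ∀ i j, w i j = - w j i := by
      intro i j
      simp only [hw, ← sum_neg_distrib]
      rw [sum_comm]
      exact sum_congr rfl fun a _ => sum_congr rfl fun b _ => by rw [hs]; ring
    have hright : ∀ a c, ∑ b, ω a b * C.ev x (C.Pr c b) = ω a c := by
      intro a c
      rw [hs a c, ← hh c a, ← sum_neg_distrib]
      exact sum_congr rfl fun b _ => by rw [hs a b]; ring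
    have hω : ∀ a b, ω a b = ∑ i, ∑ j, E a i * E b j * w i j := by
      intro a b
      have e1 : ∑ i, ∑ j, E a i * E b j * w i j
          = ∑ c, ∑ d, C.ev x (C.Pr a c) * (ω c d * C.ev x (C.Pr b d)) := by
        simp only [hw, hPE, mul_sum, sum_mul]
        rw [sum4_swap]
        refine sum_congr rfl fun c _ => sum_congr rfl fun d _ => ?_
        rw [sum_comm]
        exact sum_congr rfl fun j _ => sum_congr rfl fun i _ => by ring
      rw [e1]
      simp only [← mul_sum, hright, hh]
    have hsq : ∑ a, ∑ b, ω a b ^ 2 = ∑ i, ∑ j, w i j ^ 2 := by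
      have := tr2 E w ω
      simp only [← hω] at this
      simp only [sq]
      exact this
    have hrhs : ∑ a, ∑ b, ∑ e, ∑ f, C.ev x (C.Rc a b e f) * ω a b * ω e f
        = ∑ a, ∑ b, ∑ e, ∑ c, T a b c e * ω a b * ω e c := by
      refine sum_congr rfl fun a _ => sum_congr rfl fun b _ => sum_congr rfl fun e _ => ?_
      simp only [hT, Calc.Rm, map_sum, map_mul, sum_mul]
      rw [sum_comm]
      refine sum_congr rfl fun f _ => ?_
      rw [← hright e f, mul_sum]
      exact sum_congr rfl fun c _ => by ring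
    have h5 := tr4 E w T
    simp only [← hω] at h5
    rw [hsq, hrhs, h5]
    refine four (fun i j k l =>
      c4 T (fun a => E a i) (fun a => E a j) (fun a => E a k) (fun a => E a l))
      (fun i j k l => c4_s1 T (fun a b c d => ?_) _ _ _ _)
      (fun i j k l => c4_s2 T (fun a b c d => ?_) _ _ _ _)
      (fun i j k l => c4_sp T (fun a b c d => ?_) _ _ _ _) ε heig w hws
    · simp only [hT]; rw [hr.Rm_skew1, map_neg]
    · simp only [hT]; rw [hr.Rm_skew2, map_neg]
    · simp only [hT]; rw [hr.Rm_pair]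
  · intro ε h0 hsec p u v _ _ _
    obtain ⟨x, rfl⟩ := D.surj p
    obtain ⟨yy, -, hpar, hR⟩ := hc x
    have h1 := hsec x (fun a => gAt g (D.π x) u (yy a)) (fun a => gAt g (D.π x) v (yy a))
    have h2 := rAt_sum g (D.π x) (fun a => gAt g (D.π x) u (yy a))
      (fun a => gAt g (D.π x) v (yy a)) (fun a => gAt g (D.π x) v (yy a))
      (fun a => gAt g (D.π x) u (yy a)) yy
    rw [hpar u, hpar v] at h2
    simp only [hR] at h1
    rw [h2]
    linarith

end Pool.Agent.P.MP_713680_gt
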