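import Mathlib

/-!
Definitions for MP_713680_gt: almost nonnegative sectional curvature and almost nonnegative
curvature operator of a closed manifold, with the curvature tensor written in charts.
-/

open Bundle Manifold
open scoped ContDiff ENNReal

noncomputable section

namespace Pool.Agent.P.MP_713680_gt

/-- The model space `ℝ^n`. -/
abbrev En (n : ℕ) : Type := EuclideanSpace ℝ (Fin n)

/-- The partial derivative `∂_i f` at `z`. -/
def pd {n : ℕ} (f : En n → ℝ) (i : Fin n) (z : En n) : ℝ :=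
  fderiv ℝ f z (EuclideanSpace.single i 1)

variable {n : ℕ} (M : Type) [TopologicalSpace M] [ChartedSpace (En n) M] [IsManifold (𝓡 n) ∞ M]

/-- A smooth Riemannian metric on `M`. -/
abbrev RMetric : Type :=
  ContMDiffRiemannianMetric (𝓡 n) ∞ (En n) (fun x : M => TangentSpace (𝓡 n) x)

variable {M}

/-- The coordinate vector `∂_i` of the chart at `p`, at the point with coordinates `z`. -/
def cvec (p : M) (z : En n) (i : Fin n) : TangentSpace (𝓡 n) ((extChartAt (𝓡 n) p).symm z) :=
  mfderiv (𝓡 n) (𝓡 n) (extChartAt (𝓡 n) p).symm z (EuclideanSpace.single i 1)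

/-- The matrix `g_ij = g(∂_i, ∂_j)` of `g` in the chart at `p`, at the point with coordinates
`z`. -/
def gc (g : RMetric (n := n) M) (p : M) (z : En n) : Matrix (Fin n) (Fin n) ℝ :=
  Matrix.of fun i j => g.inner ((extChartAt (𝓡 n) p).symm z) (cvec p z i) (cvec p z j)

/-- The Christoffel symbol `Γ^k_ij = (1/2) g^kl (∂_i g_jl + ∂_j g_il - ∂_l g_ij)` of `g` in the
chart at `p`. -/
def chr (g : RMetric (n := n) M) (p : M) (k i j : Fin n) (z : En n) : ℝ :=
  (1 / 2) * ∑ l, (gc g p z)⁻¹ k l *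
    (pd (fun y => gc g p y j l) i z + pd (fun y => gc g p y i l) j z
      - pd (fun y => gc g p y i j) l z)

/-- The curvature tensor `R_ijkl = g(R(∂_i, ∂_j) ∂_k, ∂_l)` of `g` in the chart at `p`, where
`R(X, Y) = ∇_X ∇_Y - ∇_Y ∇_X - ∇_[X,Y]`. -/
def riem (g : RMetric (n := n) M) (p : M) (i j k l : Fin n) (z : En n) : ℝ :=
  ∑ m, gc g p z m l * (pd (chr g p m j k) i z - pd (chr g p m i k) j z
    + ∑ s, (chr g p m i s z * chr g p s j k z - chr g p m j s z * chr g p s i k z))

/-- The inner product `g(u, v)` at `p` of two tangent vectors given in the chart at `p`. -/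
def gAt (g : RMetric (n := n) M) (p : M) (u v : Fin n → ℝ) : ℝ :=
  ∑ i, ∑ j, gc g p (extChartAt (𝓡 n) p p) i j * u i * v j

/-- `g(R(u, v) w, t)` at `p` for tangent vectors given in the chart at `p`. -/
def rAt (g : RMetric (n := n) M) (p : M) (u v w t : Fin n → ℝ) : ℝ :=
  ∑ i, ∑ j, ∑ k, ∑ l, riem g p i j k l (extChartAt (𝓡 n) p p) * u i * v j * w k * t l

/-- `sec_g ≥ -ε`: `g(R(u, v) v, u) ≥ -ε` for all `g`-orthonormal tangent vectors `u`, `v`. -/
def SecGe (g : RMetric (n := n) M) (ε : ℝ) : Prop :=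
  ∀ (p : M) (u v : Fin n → ℝ), gAt g p u u = 1 → gAt g p v v = 1 → gAt g p u v = 0 →
    -ε ≤ rAt g p u v v u

/-- Every eigenvalue of the curvature operator of `g` is at least `-ε`. For a `g`-orthonormal
basis `e` of the tangent space at `p`, the bivectors `e_a ∧ e_b` (`a < b`) are an orthonormal basis
of `Λ² T_p M`, and the curvature operator has the matrix entries
`g(ℛ (e_a ∧ e_b), e_c ∧ e_d) = g(R(e_a, e_b) e_d, e_c)`. -/
def CurvOpGe (g : RMetric (n := n) M) (ε : ℝ) : Prop :=
  ∀ (p : M) (e : Fin n → Fin n → ℝ), (∀ a b, gAt g p (e a) (e b) = if a = b then 1 else 0) →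
    ∀ μ : ℝ, Module.End.HasEigenvalue
      (Matrix.toLin' (Matrix.of fun (cd ab : {x : Fin n × Fin n // x.1 < x.2}) =>
        rAt g p (e ab.1.1) (e ab.1.2) (e cd.1.2) (e cd.1.1))) μ → -ε ≤ μ

/-- The Riemannian distance of `g` (infimum of the lengths of `C^1` paths). -/
def rdist (g : RMetric (n := n) M) (x y : M) : ℝ≥0∞ :=
  letI : RiemannianBundle (fun x : M => TangentSpace (𝓡 n) x) := ⟨g.toRiemannianMetric⟩
  riemannianEDist (𝓡 n) x y

/-- `diam (M, g) ≤ 1`. -/
def DiamLeOne (g : RMetric (n := n) M) : Prop := ∀ x y : M, rdist g x y ≤ 1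

variable (n M)

/-- `M` admits almost nonnegative sectional curvature. -/
def AlmostNonnegSec : Prop :=
  ∀ ε : ℝ, 0 < ε → ∃ g : RMetric (n := n) M, DiamLeOne g ∧ SecGe g ε

/-- `M` admits almost nonnegative curvature operator. -/
def AlmostNonnegCurvOp : Prop :=
  ∀ ε : ℝ, 0 < ε → ∃ g : RMetric (n := n) M, DiamLeOne g ∧ CurvOpGe g ε

end Pool.Agent.P.MP_713680_gt
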