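import Pool.Agent.P.MP_713680_gt.UpSt

/-! MP_713680_gt, package U12: the divergence theorem. -/

noncomputable section

namespace Pool.Agent.P.MP_713680_gt

open Finset

namespace DivP

section abs

variable {P R ι : Type} [CommRing R] [Algebra ℝ R] [Fintype ι] {C : Calc P R ι}
  {vol : ι → ι → ι → ι → R}

/-- The action of a matrix on the volume tensor. -/
def act4 (vol : ι → ι → ι → ι → R) (M : ι → ι → R) (b c d e : ι) : R :=
  ∑ g, (M b g * vol g c d e + M c g * vol b g d e + M d g * vol b c g e + M e g * vol b c d g)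

theorem pair1 (hb : C.AlgB vol) (M : ι → ι → R) :
    ∑ b, ∑ c, ∑ d, ∑ e, vol b c d e * ∑ g, M b g * vol g c d e
      = 6 * ∑ b, ∑ g, M b g * C.Pr g b := by
  rw [mul_sum]
  refine sum_congr rfl fun b _ => ?_
  have h1 : ∀ g, 6 * (M b g * C.Pr g b) =
      ∑ c, ∑ d, ∑ e, vol b c d e * (M b g * vol g c d e) := fun g => by
    rw [mul_left_comm, ← hb.vol_vol g b]
    simp only [mul_sum]
    exact sum_congr rfl fun c _ => sum_congr rfl fun d _ => sum_congr rfl fun e _ => by ring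
  simp only [mul_sum, h1]
  rw [sum_comm (γ := ι) (s := univ) (t := univ)
    (f := fun g c => ∑ d, ∑ e, vol b c d e * (M b g * vol g c d e))]
  refine sum_congr rfl fun c _ => ?_
  rw [sum_comm (γ := ι) (s := univ) (t := univ)
    (f := fun g d => ∑ e, vol b c d e * (M b g * vol g c d e))]
  exact sum_congr rfl fun d _ => sum_comm

theorem pair (hb : C.AlgB vol) (M : ι → ι → R) :
    ∑ b, ∑ c, ∑ d, ∑ e, vol b c d e * act4 vol M b c d e = 24 * ∑ b, ∑ g, M b g * C.Pr g b := by
  obtain ⟨a1, a2, a3⟩ := hb.vol_alt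
  have h1 := pair1 hb M
  have h2 : ∑ b, ∑ c, ∑ d, ∑ e, vol b c d e * ∑ g, M c g * vol b g d e =
      ∑ c, ∑ b, ∑ d, ∑ e, vol c b d e * ∑ g, M c g * vol g b d e := by
    rw [sum_comm]
    refine sum_congr rfl fun c _ => sum_congr rfl fun b _ => sum_congr rfl fun d _ =>
      sum_congr rfl fun e _ => ?_
    rw [a1 b c, neg_mul, ← mul_neg, ← sum_neg_distrib]
    exact congrArg _ (sum_congr rfl fun g _ => by rw [a1 b g]; ring)
  have h3 : ∑ b, ∑ c, ∑ d, ∑ e, vol b c d e * ∑ g, M d g * vol b c g e =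
      ∑ b, ∑ d, ∑ c, ∑ e, vol b d c e * ∑ g, M d g * vol b g c e := by
    refine sum_congr rfl fun b _ => ?_
    rw [sum_comm]
    refine sum_congr rfl fun d _ => sum_congr rfl fun c _ => sum_congr rfl fun e _ => ?_
    rw [a2 b c d, neg_mul, ← mul_neg, ← sum_neg_distrib]
    exact congrArg _ (sum_congr rfl fun g _ => by rw [a2 b c g]; ring)
  have h4 : ∑ b, ∑ c, ∑ d, ∑ e, vol b c d e * ∑ g, M e g * vol b c d g =
      ∑ b, ∑ c, ∑ e, ∑ d, vol b c e d * ∑ g, M e g * vol b c g d := by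
    refine sum_congr rfl fun b _ => sum_congr rfl fun c _ => ?_
    rw [sum_comm]
    refine sum_congr rfl fun e _ => sum_congr rfl fun d _ => ?_
    rw [a3 b c d e, neg_mul, ← mul_neg, ← sum_neg_distrib]
    exact congrArg _ (sum_congr rfl fun g _ => by rw [a3 b c d g]; ring)
  simp only [act4, sum_add_distrib, mul_add]
  rw [h4, h3, h2, h1]
  ring

theorem pair_Z (ha : C.AlgA) (hb : C.AlgB vol) (hc : C.AlgC vol) (a : ι) :
    ∑ b, ∑ c, ∑ d, ∑ e, vol b c d e * (C.Y a (vol b c d e) -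
      act4 vol (fun b g => C.Gam a b g - C.Gam b a g) b c d e) = 24 * ∑ c, C.A c c a := by
  have h1 : ∀ b c d e, C.Y a (vol b c d e) = -act4 vol (C.A a) b c d e := fun b c d e =>
    eq_neg_of_add_eq_zero_left (hc.vol_par a b c d e)
  have h2 : ∑ b, C.Gam b a b = ∑ c, C.A c c a := by
    simp only [Calc.Gam, ← sum_neg_distrib]
    rw [sum_comm]
    refine sum_congr rfl fun e _ => ?_
    rw [← C.Pr_A e e a]
    exact sum_congr rfl fun b _ => by rw [C.A_skew b a e]; ring
  have h3 : ∑ b, ∑ g, C.A a b g * C.Pr g b = -∑ b, C.Gam a b b := by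
    simp only [Calc.Gam, sum_neg_distrib, neg_neg]
  have h4 : ∑ b, ∑ g, (C.Gam a b g - C.Gam b a g) * C.Pr g b =
      ∑ b, C.Gam a b b - ∑ b, C.Gam b a b := by
    simp only [sub_mul, sum_sub_distrib, ha.Gam_hor3]
  simp only [h1, mul_sub, mul_neg, sum_sub_distrib, sum_neg_distrib]
  rw [pair hb, pair hb, h3, h4, h2]
  ring

end abs

section dets

variable {S n : Type} [CommRing S] [Fintype n] [DecidableEq n]

theorem det_lin (w : n → n → S) (i : n) : ∃ L : (n → S) →ₗ[S] S,
    (∀ z, Matrix.det (Matrix.of (Function.update w i z)) = L z) ∧ ∀ j, i ≠ j → L (w j) = 0 :=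
  ⟨(Matrix.detRowAlternating (n := n) (R := S)).toMultilinearMap.toLinearMap w i, fun _ => rfl,
    fun _ h => (Matrix.detRowAlternating (n := n) (R := S)).map_update_self w h⟩

theorem det_zero (w : n → n → S) (i : n) :
    Matrix.det (Matrix.of (Function.update w i 0)) = 0 := by
  obtain ⟨L, hL, -⟩ := det_lin w i
  rw [hL, map_zero]

end dets

variable {md : MD} {ι : Type} [Fintype ι] (fr : Frame md ι)

theorem det_update (w : Fin 6 → Fin 6 → SS) (h0 : w 0 = Vv 0) (h1 : w 1 = Vv 1) {i : Fin 6}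
    (hi0 : i ≠ 0) (hi1 : i ≠ 1) (z : Fin 6 → SS) :
    Matrix.det (Matrix.of (Function.update w i z)) =
      ∑ g, gq md.g z (fr.y g) * Matrix.det (Matrix.of (Function.update w i (fr.y g))) := by
  obtain ⟨L, hL, hL'⟩ := det_lin w i
  have hV0 : L (Vv 0) = 0 := h0 ▸ hL' 0 hi0
  have hV1 : L (Vv 1) = 0 := h1 ▸ hL' 1 hi1
  simp only [hL]
  conv_lhs => rw [← fr.pars z]
  simp only [map_add, map_sum, map_smul, Fin.sum_univ_two, hV0, hV1, mul_zero, add_zero,
    smul_eq_mul]

theorem vf_nu (hA : BasA) (a b c d e : ι) :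
    vf (fr.y a) (nu fr b c d e) = (∑ k, X k (fr.y a k)) * nu fr b c d e +
      act4 (nu fr) (fun b g => gq md.g (brk (fr.y a) (fr.y b)) (fr.y g)) b c d e := by
  have hV : ∀ β, brk (fr.y a) (Vv β) = 0 := fun β => by rw [hA.brk_skew, fr.inv, neg_zero]
  rw [nu, hA.det_vf]
  congr 1
  set w : Fin 6 → Fin 6 → SS := ![Vv 0, Vv 1, fr.y b, fr.y c, fr.y d, fr.y e] with hw
  have e0 : w 0 = Vv 0 := rfl
  have e1 : w 1 = Vv 1 := rfl
  have e2 : w 2 = fr.y b := rfl
  have e3 : w 3 = fr.y c := rfl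
  have e4 : w 4 = fr.y d := rfl
  have e5 : w 5 = fr.y e := rfl
  have u2 : ∀ z, Function.update w 2 z = ![Vv 0, Vv 1, z, fr.y c, fr.y d, fr.y e] := fun z => by
    funext i
    fin_cases i <;> rfl
  have u3 : ∀ z, Function.update w 3 z = ![Vv 0, Vv 1, fr.y b, z, fr.y d, fr.y e] := fun z => by
    funext i
    fin_cases i <;> rfl
  have u4 : ∀ z, Function.update w 4 z = ![Vv 0, Vv 1, fr.y b, fr.y c, z, fr.y e] := fun z => by
    funext i
    fin_cases i <;> rfl
  have u5 : ∀ z, Function.update w 5 z = ![Vv 0, Vv 1, fr.y b, fr.y c, fr.y d, z] := fun z => by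
    funext i
    fin_cases i <;> rfl
  rw [Fin.sum_univ_six, e0, e1, e2, e3, e4, e5, hV, hV, det_zero, det_zero,
    det_update fr w e0 e1 (i := 2) (by decide) (by decide),
    det_update fr w e0 e1 (i := 3) (by decide) (by decide),
    det_update fr w e0 e1 (i := 4) (by decide) (by decide),
    det_update fr w e0 e1 (i := 5) (by decide) (by decide)]
  simp only [u2, u3, u4, u5, act4, nu, sum_add_distrib, zero_add]

end DivP

open DivP

theorem divS (hA : BasA) (hB : BasB) : S_Div := by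
  intro md ι _ fr C ψ vol hC hV ha hb hc a f
  have h1 : ∀ b c d e, (vf (fr.y a) ψ.1 + ψ.1 * ∑ k, X k (fr.y a k)) * (vol b c d e).1 =
      ψ.1 * (C.Y a (vol b c d e) -
        act4 vol (fun b g => C.Gam a b g - C.Gam b a g) b c d e).1 := by
    intro b c d e
    have h2 : (act4 vol (fun b g => C.Gam a b g - C.Gam b a g) b c d e).1 =
        ψ.1 * act4 (nu fr) (fun b g => gq md.g (brk (fr.y a) (fr.y b)) (fr.y g)) b c d e := by
      simp only [act4, AddSubmonoidClass.coe_finsetSum, Subalgebra.coe_add, Subalgebra.coe_mul,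
        hC.brk, hV.eq, mul_sum]
      exact sum_congr rfl fun g _ => by ring
    rw [Subalgebra.coe_sub, h2, hC.Y, hV.eq, Derivation.leibniz, vf_nu fr hA, smul_eq_mul,
      smul_eq_mul]
    ring
  have h24 : IsUnit (24 : SS) := by
    have := (IsUnit.mk0 (24 : ℝ) (by norm_num)).map (algebraMap ℝ SS)
    rwa [map_ofNat] at this
  have h3 : vf (fr.y a) ψ.1 + ψ.1 * ∑ k, X k (fr.y a k) = ψ.1 * (∑ c, C.A c c a).1 := by
    refine h24.mul_left_cancel ?_
    have h4 := congrArg AA.val hb.vol_sq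
    have h5 := congrArg AA.val (pair_Z ha hb hc a)
    rw [map_mul, map_ofNat] at h5
    rw [map_ofNat] at h4
    simp only [map_sum AA.val (s := univ) (f := fun b => ∑ c, ∑ d, ∑ e, _),
      map_sum AA.val (s := univ) (f := fun c => ∑ d, ∑ e, _),
      map_sum AA.val (s := univ) (f := fun d => ∑ e, _),
      map_sum AA.val (s := univ) (f := fun e => vol _ _ _ e * _), map_mul,
      Subalgebra.coe_val] at h4 h5
    rw [mul_left_comm, ← h5, ← h4]
    generalize vf (fr.y a) ψ.1 + ψ.1 * ∑ k, X k (fr.y a k) = W at h1 ⊢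
    simp only [sum_mul, mul_sum]
    refine sum_congr rfl fun b _ => sum_congr rfl fun c _ => sum_congr rfl fun d _ =>
      sum_congr rfl fun e _ => ?_
    linear_combination (vol b c d e).1 * h1 b c d e
  have h6 : ψ.1 * (C.Y a f + ∑ c, C.A c c a * f).1 = ∑ k, X k (fr.y a k * (ψ.1 * f.1)) := by
    rw [← sum_mul, Subalgebra.coe_add, Subalgebra.coe_mul, hC.Y]
    have h7 : ∑ k, X k (fr.y a k * (ψ.1 * f.1)) =
        vf (fr.y a) (ψ.1 * f.1) + ψ.1 * f.1 * ∑ k, X k (fr.y a k) := by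
      rw [hA.vf_apply, mul_sum, ← sum_add_distrib]
      exact sum_congr rfl fun k _ => by rw [Derivation.leibniz, smul_eq_mul, smul_eq_mul]
    rw [h7, Derivation.leibniz, smul_eq_mul, smul_eq_mul]
    linear_combination (-f.1) * h3
  rw [IA_apply, h6, map_sum]
  simp only [hB.I_X, sum_const_zero, mul_zero]

end Pool.Agent.P.MP_713680_gt
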