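import Pool.Agent.P.MP_713680_gt.UpSt

/-!
MP_713680_gt, package E1: a priori estimates.
-/

noncomputable section

namespace Pool.Agent.P.MP_713680_gt

open Finset

namespace EstP

variable {P S K : Type} [CommRing S] [Algebra ℝ S] [Fintype K]
  {ev : P → S →ₐ[ℝ] ℝ} {X : K → Derivation ℝ S S} {c : K → K → K → ℝ} {I : S →ₗ[ℝ] ℝ}
  {V : ℕ → Submodule ℝ S}

theorem lap_apply (g : S) : lap X g = ∑ k, X k (X k g) := by
  simp [lap, LinearMap.sum_apply]

theorem mono (h : Amb ev X c I V) {f g : S} (hfg : ∀ x, ev x f ≤ ev x g) : I f ≤ I g := by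
  have := h.nonneg (g - f) fun x => by rw [map_sub]; linarith [hfg x]
  rw [map_sub] at this
  linarith

theorem ibp (h : Amb ev X c I V) (k : K) (f g : S) : I (f * X k g) = - I (X k f * g) := by
  have := h.I_X k (f * g)
  rw [Derivation.leibniz, smul_eq_mul, smul_eq_mul, map_add, mul_comm g] at this
  linarith

theorem X_lap (h : Amb ev X c I V) (k : K) (g : S) : X k (lap X g) = lap X (X k g) := by
  have e : ∀ l, X k (X l (X l g)) - X l (X l (X k g)) =
      ∑ m, c k l m • (X m (X l g) + X l (X m g)) := by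
    intro l
    have h1 := h.br k l (X l g)
    have h2 := congrArg (X l) (h.br k l g)
    rw [map_sub, map_sum] at h2
    simp only [Derivation.map_smul] at h2
    simp only [smul_add, sum_add_distrib, ← h1, ← h2]
    ring
  have z : ∑ l, ∑ m, c k l m • (X m (X l g) + X l (X m g)) = 0 := by
    have e2 : ∑ l, ∑ m, c k l m • (X m (X l g) + X l (X m g)) =
        - ∑ l, ∑ m, c k l m • (X m (X l g) + X l (X m g)) := by
      conv_lhs => rw [sum_comm]
      rw [← sum_neg_distrib]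
      refine sum_congr rfl fun l _ => ?_
      rw [← sum_neg_distrib]
      refine sum_congr rfl fun m _ => ?_
      rw [h.skew2 k m l, neg_smul, add_comm]
    have e3 : (2 : ℝ) • ∑ l, ∑ m, c k l m • (X m (X l g) + X l (X m g)) = 0 := by
      rw [two_smul]
      exact add_eq_zero_iff_eq_neg.2 e2
    have e4 := congrArg (fun z => (2⁻¹ : ℝ) • z) e3
    simpa [smul_smul] using e4
  rw [lap_apply, lap_apply, map_sum, ← sub_eq_zero, ← sum_sub_distrib, sum_congr rfl fun l _ => e l, z]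

theorem X_pow (h : Amb ev X c I V) (k : K) (n : ℕ) (g : S) :
    X k (((-lap X) ^ n) g) = ((-lap X) ^ n) (X k g) := by
  induction n with
  | zero => simp
  | succ n ih =>
    rw [pow_succ', Module.End.mul_apply, Module.End.mul_apply, LinearMap.neg_apply,
      LinearMap.neg_apply, map_neg, X_lap h, ih]

theorem pow_succ_apply (h : Amb ev X c I V) (n : ℕ) (g : S) :
    ((-lap X) ^ (n + 1)) g = - ∑ k, X k (((-lap X) ^ n) (X k g)) := by
  rw [pow_succ', Module.End.mul_apply, LinearMap.neg_apply, lap_apply]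
  simp only [X_pow h]

theorem Nk_nonneg (h : Amb ev X c I V) (n : ℕ) : ∀ g, 0 ≤ Nk X I n g := by
  induction n with
  | zero => exact fun g => h.nonneg _ fun x => by rw [map_mul]; exact mul_self_nonneg _
  | succ n ih => exact fun g => sum_nonneg fun k _ => ih _

theorem Nk_add (h : Amb ev X c I V) (n : ℕ) :
    ∀ f g, Nk X I n (f + g) ≤ 2 * Nk X I n f + 2 * Nk X I n g := by
  induction n with
  | zero =>
    intro f g
    have := Nk_nonneg h 0 (f - g)
    simp only [Nk, add_mul, mul_add, sub_mul, mul_sub, map_add, map_sub] at this ⊢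
    linarith
  | succ n ih =>
    intro f g
    simp only [Nk, map_add, mul_sum, ← sum_add_distrib]
    exact sum_le_sum fun k _ => ih _ _

theorem Nk_smul (n : ℕ) (t : ℝ) : ∀ g, Nk X I n (t • g) = t ^ 2 * Nk X I n g := by
  induction n with
  | zero => intro g; simp only [Nk, smul_mul_smul_comm, map_smul, smul_eq_mul]; ring
  | succ n ih => intro g; simp only [Nk, Derivation.map_smul, ih, mul_sum]

theorem pair_le (h : Amb ev X c I V) (n : ℕ) :
    ∀ f g, |I (f * ((-lap X) ^ n) g)| ≤ (Nk X I n f + Nk X I n g) / 2 := by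
  induction n with
  | zero =>
    intro f g
    have h1 := Nk_nonneg h 0 (f - g)
    have h2 := Nk_nonneg h 0 (f + g)
    simp only [Nk, add_mul, mul_add, sub_mul, mul_sub, map_add, map_sub, mul_comm g f] at h1 h2
    simp only [Nk, pow_zero, Module.End.one_apply]
    rw [abs_le]
    constructor <;> linarith
  | succ n ih =>
    intro f g
    rw [pow_succ_apply h, mul_neg, map_neg, mul_sum, map_sum, abs_neg]
    simp only [Nk, ← sum_add_distrib, sum_div]
    refine (abs_sum_le_sum_abs _ _).trans (sum_le_sum fun k _ => ?_)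
    rw [ibp h, abs_neg]
    exact ih _ _

theorem pair_sqrt (h : Amb ev X c I V) (n : ℕ) (f g : S) :
    |I (f * ((-lap X) ^ n) g)| ≤ √(Nk X I n f) * √(Nk X I n g) := by
  have d := discrim_le_zero (a := Nk X I n f) (b := 2 * I (f * ((-lap X) ^ n) g))
    (c := Nk X I n g) fun t => by
      have := pair_le h n (t • f) g
      rw [smul_mul_assoc, map_smul, smul_eq_mul, Nk_smul, abs_le] at this
      nlinarith [this.1]
  rw [← Real.sqrt_mul (Nk_nonneg h n f)]
  apply Real.abs_le_sqrt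
  rw [discrim] at d
  nlinarith

theorem Hs_nonneg (h : Amb ev X c I V) (n : ℕ) (g : S) : 0 ≤ Hs X I n g :=
  sum_nonneg fun i _ => Nk_nonneg h i g

theorem Hs_succ (n : ℕ) (g : S) : Hs X I (n + 1) g = Hs X I n g + Nk X I (n + 1) g := by
  rw [Hs, sum_range_succ]; rfl

theorem Nk_le_Hs (h : Amb ev X c I V) (n : ℕ) (g : S) : Nk X I n g ≤ Hs X I n g :=
  single_le_sum (f := fun i => Nk X I i g) (fun i _ => Nk_nonneg h i g) (self_mem_range_succ n)

theorem Hs_le_succ (h : Amb ev X c I V) (n : ℕ) (g : S) : Hs X I n g ≤ Hs X I (n + 1) g := by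
  rw [Hs_succ]; linarith [Nk_nonneg h (n + 1) g]

theorem sum_Hs_X (h : Amb ev X c I V) (n : ℕ) (g : S) :
    ∑ k, Hs X I n (X k g) ≤ Hs X I (n + 1) g := by
  have e : Hs X I (n + 1) g = ∑ k, Hs X I n (X k g) + Nk X I 0 g := by
    rw [Hs, sum_range_succ']
    simp only [Hs]
    rw [sum_comm]
    rfl
  rw [e]; linarith [Nk_nonneg h 0 g]

theorem Hs_X (h : Amb ev X c I V) (n : ℕ) (k : K) (g : S) :
    Hs X I n (X k g) ≤ Hs X I (n + 1) g :=
  (single_le_sum (f := fun k => Hs X I n (X k g)) (fun _ _ => Hs_nonneg h n _)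
    (mem_univ k)).trans (sum_Hs_X h n g)

theorem Hs_add (h : Amb ev X c I V) (n : ℕ) (f g : S) :
    Hs X I n (f + g) ≤ 2 * Hs X I n f + 2 * Hs X I n g := by
  simp only [Hs, mul_sum, ← sum_add_distrib]
  exact sum_le_sum fun i _ => Nk_add h i f g

theorem Hs_zero (n : ℕ) : Hs X I n 0 = 0 := by
  refine sum_eq_zero fun i _ => ?_
  have := Nk_smul (X := X) (I := I) i 0 0
  simpa using this

theorem Hs_mul (h : Amb ev X c I V) (n : ℕ) :
    ∀ a : S, ∃ B, 0 ≤ B ∧ ∀ g, Hs X I n (a * g) ≤ B * Hs X I n g := by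
  induction n with
  | zero =>
    intro a
    obtain ⟨B, hB⟩ := h.bdd a
    refine ⟨B ^ 2, sq_nonneg _, fun g => ?_⟩
    simp only [Hs, zero_add, range_one, sum_singleton, Nk]
    rw [← smul_eq_mul (B ^ 2), ← map_smul]
    refine mono h fun x => ?_
    simp only [map_mul, map_smul, smul_eq_mul]
    have h1 : ev x a ^ 2 ≤ B ^ 2 := sq_le_sq' (abs_le.1 (hB x)).1 (abs_le.1 (hB x)).2
    nlinarith [mul_self_nonneg (ev x g)]
  | succ n ih =>
    intro a
    obtain ⟨B, hB0, hB⟩ := ih a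
    choose C hC0 hC using fun k => ih (X k a)
    have hS : 0 ≤ ∑ k, C k := sum_nonneg fun k _ => hC0 k
    refine ⟨3 * B + 2 * ∑ k, C k, by positivity, fun g => ?_⟩
    have e : Nk X I (n + 1) (a * g) ≤
        ∑ k, (2 * (B * Hs X I n (X k g)) + 2 * (C k * Hs X I n g)) := by
      refine sum_le_sum fun k _ => ?_
      rw [Derivation.leibniz, smul_eq_mul, smul_eq_mul, mul_comm g]
      refine (Nk_le_Hs h n _).trans ((Hs_add h n _ _).trans ?_)
      linarith [hB (X k g), hC k g]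
    rw [sum_add_distrib, ← mul_sum, ← mul_sum, ← mul_sum, ← sum_mul] at e
    have h1 := mul_le_mul_of_nonneg_left (sum_Hs_X h n g) hB0
    have h2 := mul_le_mul_of_nonneg_left (Hs_le_succ h n g) hB0
    have h3 := mul_le_mul_of_nonneg_left (Hs_le_succ h n g) hS
    rw [Hs_succ n (a * g)]
    linarith [hB g]

/-! ### Bounded operators -/

variable {κ : Type} [Fintype κ]

/-- `T` is bounded from the gauge `M` to the Sobolev space of order `n`. -/
def Bnd (X : K → Derivation ℝ S S) (I : S →ₗ[ℝ] ℝ) (n : ℕ) (M : (κ → S) → ℝ)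
    (T : (κ → S) → S) : Prop :=
  ∃ B, 0 ≤ B ∧ ∀ u, Hs X I n (T u) ≤ B * M u

omit [Fintype κ] in
theorem Bnd.zero (n : ℕ) (M : (κ → S) → ℝ) : Bnd X I n M fun _ => 0 :=
  ⟨0, le_rfl, fun u => by rw [Hs_zero, zero_mul]⟩

omit [Fintype κ] in
theorem Bnd.add (h : Amb ev X c I V) {n : ℕ} {M : (κ → S) → ℝ} {T T' : (κ → S) → S}
    (h1 : Bnd X I n M T) (h2 : Bnd X I n M T') : Bnd X I n M fun u => T u + T' u := by
  obtain ⟨B, hB0, hB⟩ := h1
  obtain ⟨C, hC0, hC⟩ := h2
  refine ⟨2 * B + 2 * C, by positivity, fun u => (Hs_add h n _ _).trans ?_⟩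
  linarith [hB u, hC u]

omit [Fintype κ] in
theorem Bnd.mul (h : Amb ev X c I V) {n : ℕ} {M : (κ → S) → ℝ} {T : (κ → S) → S} (a : S)
    (h1 : Bnd X I n M T) : Bnd X I n M fun u => a * T u := by
  obtain ⟨B, hB0, hB⟩ := h1
  obtain ⟨C, hC0, hC⟩ := Hs_mul h n a
  refine ⟨C * B, by positivity, fun u => (hC _).trans ?_⟩
  rw [mul_assoc]
  exact mul_le_mul_of_nonneg_left (hB u) hC0

omit [Fintype κ] in
theorem Bnd.sum (h : Amb ev X c I V) {n : ℕ} {M : (κ → S) → ℝ} {A : Type} (s : Finset A)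
    {T : A → (κ → S) → S} (h1 : ∀ a, Bnd X I n M (T a)) :
    Bnd X I n M fun u => ∑ a ∈ s, T a u := by
  classical
  induction s using Finset.induction_on with
  | empty => simpa using Bnd.zero n M
  | insert a s ha ih => simpa only [sum_insert ha] using (h1 a).add h ih

omit [Fintype κ] in
theorem Bnd.congr {n : ℕ} {M : (κ → S) → ℝ} {T T' : (κ → S) → S} (h1 : Bnd X I n M T)
    (e : ∀ u, T' u = T u) : Bnd X I n M T' := by
  rwa [show T' = T from funext e]

/-- The Sobolev norm squared of a vector. -/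
def HV (X : K → Derivation ℝ S S) (I : S →ₗ[ℝ] ℝ) (n : ℕ) (u : κ → S) : ℝ := ∑ i, Hs X I n (u i)

theorem HV_nonneg (h : Amb ev X c I V) (n : ℕ) (u : κ → S) : 0 ≤ HV X I n u :=
  sum_nonneg fun _ _ => Hs_nonneg h n _

theorem le_HV (h : Amb ev X c I V) (n : ℕ) (u : κ → S) (i : κ) : Hs X I n (u i) ≤ HV X I n u :=
  single_le_sum (f := fun i => Hs X I n (u i)) (fun _ _ => Hs_nonneg h n _) (mem_univ i)

/-- Operators of order at most one. -/
def Ord (X : K → Derivation ℝ S S) (I : S →ₗ[ℝ] ℝ) (T : (κ → S) → S) : Prop :=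
  ∀ n, Bnd X I n (HV X I (n + 1)) T

theorem ord_id (h : Amb ev X c I V) (i : κ) : Ord X I fun u : κ → S => u i := fun n =>
  ⟨1, zero_le_one, fun u => by rw [one_mul]; exact (Hs_le_succ h n _).trans (le_HV h _ u i)⟩

theorem ord_X (h : Amb ev X c I V) (k : K) (i : κ) : Ord X I fun u : κ → S => X k (u i) := fun n =>
  ⟨1, zero_le_one, fun u => by rw [one_mul]; exact (Hs_X h n k _).trans (le_HV h _ u i)⟩

/-- Operators of order one whose commutators with the fields have order one. -/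
def Gd (X : K → Derivation ℝ S S) (I : S →ₗ[ℝ] ℝ) (T : (κ → S) → S) : Prop :=
  Ord X I T ∧ ∀ k, Ord X I fun u => T (fun i => X k (u i)) - X k (T u)

theorem gd_id (h : Amb ev X c I V) (i : κ) : Gd X I fun u : κ → S => u i :=
  ⟨ord_id h i, fun _ n => (Bnd.zero n _).congr fun _ => sub_self _⟩

theorem gd_X (h : Amb ev X c I V) (l : K) (i : κ) : Gd X I fun u : κ → S => X l (u i) :=
  ⟨ord_X h l i, fun k n =>
    (Bnd.sum h univ fun m => (ord_X h m i n).mul h (algebraMap ℝ S (c l k m))).congr fun u => by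
      simp only [h.br l k (u i), Algebra.smul_def]⟩

theorem Gd.add (h : Amb ev X c I V) {T T' : (κ → S) → S} (h1 : Gd X I T) (h2 : Gd X I T') :
    Gd X I fun u => T u + T' u :=
  ⟨fun n => (h1.1 n).add h (h2.1 n), fun k n =>
    ((h1.2 k n).add h (h2.2 k n)).congr fun u => by simp only [map_add]; ring⟩

theorem Gd.mul (h : Amb ev X c I V) {T : (κ → S) → S} (a : S) (h1 : Gd X I T) :
    Gd X I fun u => a * T u :=
  ⟨fun n => (h1.1 n).mul h a, fun k n =>
    (((h1.2 k n).mul h a).add h ((h1.1 n).mul h (-X k a))).congr fun u => by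
      simp only [Derivation.leibniz, smul_eq_mul]; ring⟩

theorem Gd.sum (h : Amb ev X c I V) {A : Type} (s : Finset A) {T : A → (κ → S) → S}
    (h1 : ∀ a, Gd X I (T a)) : Gd X I fun u => ∑ a ∈ s, T a u :=
  ⟨fun n => Bnd.sum h s fun a => (h1 a).1 n, fun k n =>
    (Bnd.sum h s fun a => (h1 a).2 k n).congr fun u => by
      simp only [map_sum, sum_sub_distrib]⟩

/-! ### Bounded forms -/

/-- Forms of order one in each argument. -/
def Bd (X : K → Derivation ℝ S S) (I : S →ₗ[ℝ] ℝ) (F : (κ → S) → (κ → S) → ℝ) : Prop :=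
  ∀ n, ∃ B, 0 ≤ B ∧ ∀ u v, |F u fun i => ((-lap X) ^ n) (v i)| ≤
    B * (√(HV X I (n + 1) u) * √(HV X I (n + 1) v))

theorem Bd.congr {F F' : (κ → S) → (κ → S) → ℝ} (h1 : Bd X I F) (e : ∀ u v, F' u v = F u v) :
    Bd X I F' := by
  rwa [show F' = F from funext fun u => funext (e u)]

theorem Bd.add {F F' : (κ → S) → (κ → S) → ℝ} (h1 : Bd X I F) (h2 : Bd X I F') :
    Bd X I fun u v => F u v + F' u v := by
  intro n
  obtain ⟨B, hB0, hB⟩ := h1 n
  obtain ⟨C, hC0, hC⟩ := h2 n
  refine ⟨B + C, by positivity, fun u v => (abs_add_le _ _).trans ?_⟩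
  linarith [hB u v, hC u v]

theorem Bd.sum {A : Type} (s : Finset A) {F : A → (κ → S) → (κ → S) → ℝ}
    (h1 : ∀ a, Bd X I (F a)) : Bd X I fun u v => ∑ a ∈ s, F a u v := by
  classical
  induction s using Finset.induction_on with
  | empty => exact fun n => ⟨0, le_rfl, fun u v => by simp⟩
  | insert a s ha ih => simpa only [sum_insert ha] using (h1 a).add ih

theorem bd_of (h : Amb ev X c I V) {T : (κ → S) → S} (hT : Ord X I T) (D : S → S)
    (hD : ∀ n g, D (((-lap X) ^ n) g) = ((-lap X) ^ n) (D g))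
    (hD' : ∀ n g, Hs X I n (D g) ≤ Hs X I (n + 1) g) (j : κ) :
    Bd X I fun u v => I (T u * D (v j)) := by
  intro n
  obtain ⟨B, hB0, hB⟩ := hT n
  refine ⟨√B, Real.sqrt_nonneg _, fun u v => ?_⟩
  beta_reduce
  rw [hD, ← mul_assoc, ← Real.sqrt_mul hB0]
  refine (pair_sqrt h n _ _).trans (mul_le_mul (Real.sqrt_le_sqrt ?_) (Real.sqrt_le_sqrt ?_)
    (Real.sqrt_nonneg _) (Real.sqrt_nonneg _))
  · exact (Nk_le_Hs h n _).trans (hB u)
  · exact (Nk_le_Hs h n _).trans ((hD' n _).trans (le_HV h _ v j))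

theorem bd_id (h : Amb ev X c I V) {T : (κ → S) → S} (hT : Ord X I T) (j : κ) :
    Bd X I fun u v => I (T u * v j) :=
  bd_of h hT id (fun _ _ => rfl) (Hs_le_succ h) j

theorem bd_X (h : Amb ev X c I V) {T : (κ → S) → S} (hT : Ord X I T) (l : K) (j : κ) :
    Bd X I fun u v => I (T u * X l (v j)) :=
  bd_of h hT (X l) (X_pow h l) (fun n g => Hs_X h n l g) j

/-- Forms of order one whose derivatives have order one. -/
def Fm (X : K → Derivation ℝ S S) (I : S →ₗ[ℝ] ℝ) (F : (κ → S) → (κ → S) → ℝ) : Prop :=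
  Bd X I F ∧ ∀ k, Bd X I fun u v => F u (fun i => X k (v i)) + F (fun i => X k (u i)) v

theorem Fm.add {F F' : (κ → S) → (κ → S) → ℝ} (h1 : Fm X I F) (h2 : Fm X I F') :
    Fm X I fun u v => F u v + F' u v :=
  ⟨h1.1.add h2.1, fun k => ((h1.2 k).add (h2.2 k)).congr fun u v => by ring⟩

theorem Fm.sum {A : Type} (s : Finset A) {F : A → (κ → S) → (κ → S) → ℝ}
    (h1 : ∀ a, Fm X I (F a)) : Fm X I fun u v => ∑ a ∈ s, F a u v :=
  ⟨Bd.sum s fun a => (h1 a).1, fun k =>
    (Bd.sum s fun a => (h1 a).2 k).congr fun u v => by rw [sum_add_distrib]⟩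

theorem fm_id (h : Amb ev X c I V) {T : (κ → S) → S} (hT : Gd X I T) (j : κ) :
    Fm X I fun u v => I (T u * v j) :=
  ⟨bd_id h hT.1 j, fun k => (bd_id h (hT.2 k) j).congr fun u v => by
    beta_reduce
    rw [ibp h, sub_mul, map_sub]; ring⟩

theorem fm_X (h : Amb ev X c I V) {T : (κ → S) → S} (hT : Gd X I T) (l : K) (j : κ) :
    Fm X I fun u v => I (T u * X l (v j)) :=
  ⟨bd_X h hT.1 l j, fun k => ((bd_X h (hT.2 k) l j).add (Bd.sum univ fun m =>
      bd_X h (fun n => (hT.1 n).mul h (algebraMap ℝ S (c l k m))) m j)).congr fun u v => by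
    have e : X l (X k (v j)) = X k (X l (v j)) + ∑ m, c l k m • X m (v j) := by
      rw [← h.br]; ring
    beta_reduce
    rw [e, mul_add, map_add, ibp h, sub_mul, map_sub, mul_sum, map_sum]
    have e2 : ∀ m, T u * c l k m • X m (v j) = algebraMap ℝ S (c l k m) * T u * X m (v j) := by
      intro m; rw [Algebra.smul_def]; ring
    simp only [e2]
    ring⟩

/-! ### The energy form -/

variable [DecidableEq K] {J : Type} [Fintype J]

theorem gd_L (h : Amb ev X c I V) (s : Sys ev K J κ) (j : J) (i : κ) :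
    Gd X I fun u => s.L X u j i :=
  (Gd.sum h univ fun k => (gd_X h k i).mul h _).add h
    (Gd.sum h univ fun i' => (gd_id h i').mul h _)

theorem en_eq (s : Sys ev K J κ) (u v : κ → S) : s.en X I u v =
    ∑ j, ∑ i, (∑ k, I (s.ψ * s.y j k * s.L X u j i * X k (v i))
      + ∑ i', I (s.ψ * s.B j i i' * s.L X u j i * v i'))
      + ∑ i, ∑ i', I (s.ψ * s.Q i i' * u i' * v i) := by
  simp only [← map_sum, ← map_add]
  rw [Sys.en]
  congr 1
  rw [mul_add, mul_sum, mul_sum]
  congr 1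
  · refine sum_congr rfl fun j _ => ?_
    rw [mul_sum]
    refine sum_congr rfl fun i _ => ?_
    generalize s.L X u j i = z
    simp only [Sys.L, mul_add, mul_sum]
    congr 1 <;> exact sum_congr rfl fun _ _ => by ring
  · refine sum_congr rfl fun i _ => ?_
    rw [mul_sum]
    exact sum_congr rfl fun _ _ => by ring

theorem fm_en (h : Amb ev X c I V) (s : Sys ev K J κ) : Fm X I (s.en X I) := by
  rw [show s.en X I = _ from funext fun u => funext (en_eq s u)]
  exact (Fm.sum univ fun j => Fm.sum univ fun i =>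
      (Fm.sum univ fun k => fm_X h ((gd_L h s j i).mul h _) k i).add
        (Fm.sum univ fun i' => fm_id h ((gd_L h s j i).mul h _) i')).add
    (Fm.sum univ fun i => Fm.sum univ fun i' => fm_id h ((gd_id h i').mul h _) i)

theorem en_symm (s : Sys ev K J κ) (u v : κ → S) : s.en X I u v = s.en X I v u := by
  unfold Sys.en
  congr 3
  · exact sum_congr rfl fun _ _ => sum_congr rfl fun _ _ => mul_comm _ _
  · rw [sum_comm]
    exact sum_congr rfl fun i _ => sum_congr rfl fun i' _ => by rw [s.symm i' i]; ring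

theorem en_rep (h : Amb ev X c I V) (s : Sys ev K J κ) (v : κ → S) :
    ∃ w : κ → S, ∀ u, s.en X I u v = I (ip1 u w) := by
  refine ⟨fun i => ∑ j, (∑ k, -X k (s.ψ * s.y j k * s.L X v j i)
    + ∑ i', s.ψ * s.B j i' i * s.L X v j i') + ∑ i', s.ψ * s.Q i i' * v i', fun u => ?_⟩
  rw [en_symm, en_eq]
  simp only [ip1, mul_comm (u _)]
  simp only [add_mul, sum_mul, map_add, map_sum, sum_add_distrib, ibp h, neg_mul, map_neg]
  congr 2
  · exact sum_comm
  · symm
    rw [sum_comm]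
    exact sum_congr rfl fun _ _ => sum_comm

theorem garding (h : Amb ev X c I V) (s : Sys ev K J κ) : ∃ B C, 0 ≤ B ∧ 0 ≤ C ∧
    ∀ u : κ → S, ∑ i, Nk X I 1 (u i) ≤ B * s.en X I u u + C * HV X I 0 u := by
  have H0 : ∀ g, Hs X I 0 g = I (g * g) := fun g => by simp [Hs, Nk]
  have pos : ∀ g, 0 ≤ I (s.ψ * (g * g)) := fun g => h.nonneg _ fun x => by
    rw [map_mul, map_mul]
    exact mul_nonneg (s.pos x).le (mul_self_nonneg _)
  set E : (κ → S) → ℝ := fun u => ∑ j, ∑ i, I (s.ψ * (s.L X u j i * s.L X u j i)) with hE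
  have E0 : ∀ u, 0 ≤ E u := fun u => sum_nonneg fun _ _ => sum_nonneg fun _ _ => pos _
  set M : (κ → S) → ℝ := fun u => E u + HV X I 0 u with hM
  have b1 : ∀ i, Bnd X I 0 M fun u => u i := fun i => ⟨1, zero_le_one, fun u => by
    have := le_HV h 0 u i
    have := E0 u
    simp only [hM]
    linarith⟩
  have b2 : ∀ j i, Bnd X I 0 M fun u => s.L X u j i := by
    intro j i
    obtain ⟨B, hB⟩ := h.bdd s.ψ'
    refine ⟨|B|, abs_nonneg _, fun u => ?_⟩
    have e1 : I (s.L X u j i * s.L X u j i) ≤ |B| * I (s.ψ * (s.L X u j i * s.L X u j i)) := by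
      rw [← smul_eq_mul |B|, ← map_smul]
      refine mono h fun x => ?_
      have e := congrArg (ev x) s.inv
      simp only [map_mul, map_smul, smul_eq_mul, map_one] at e ⊢
      have e2 : ev x s.ψ' ≤ |B| := (le_abs_self _).trans ((hB x).trans (le_abs_self _))
      have e3 := mul_nonneg (s.pos x).le (mul_self_nonneg (ev x (s.L X u j i)))
      have e4 := mul_le_mul_of_nonneg_right e2 e3
      calc _ = ev x s.ψ * ev x s.ψ' * (ev x (s.L X u j i) * ev x (s.L X u j i)) := by
            rw [e, one_mul]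
        _ ≤ _ := by linarith
    have e2 : I (s.ψ * (s.L X u j i * s.L X u j i)) ≤ E u :=
      (single_le_sum (f := fun i => I (s.ψ * (s.L X u j i * s.L X u j i)))
        (fun _ _ => pos _) (mem_univ i)).trans
        (single_le_sum (f := fun j => ∑ i, I (s.ψ * (s.L X u j i * s.L X u j i)))
          (fun _ _ => sum_nonneg fun _ _ => pos _) (mem_univ j))
    rw [H0]
    refine e1.trans (mul_le_mul_of_nonneg_left ?_ (abs_nonneg _))
    have := HV_nonneg h 0 u
    simp only [hM]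
    linarith
  have b3 : ∀ k i, Bnd X I 0 M fun u => X k (u i) := by
    intro k i
    refine (Bnd.sum h univ fun j => (((b2 j i).add h
      (Bnd.sum h univ fun i' => (b1 i').mul h (-s.B j i i'))).mul h (s.η k j))).congr fun u => ?_
    have e : ∀ j, s.η k j * (s.L X u j i + ∑ i', -s.B j i i' * u i') =
        ∑ l, s.η k j * s.y j l * X l (u i) := by
      intro j
      simp only [Sys.L, neg_mul, sum_neg_distrib, add_neg_cancel_right, mul_sum, mul_assoc]
    simp only [e]
    rw [sum_comm]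
    simp only [← sum_mul, s.ell, ite_mul, one_mul, zero_mul, sum_ite_eq, mem_univ, if_true]
  choose B hB0 hB using b3
  have b4 : ∀ i, Bnd X I 0 (HV X I 0) fun u : κ → S => s.ψ * ∑ i', s.Q i i' * u i' := fun i =>
    (Bnd.sum h univ fun i' => Bnd.mul h (s.Q i i') (T := fun u => u i')
      ⟨1, zero_le_one, fun u => by rw [one_mul]; exact le_HV h 0 u i'⟩).mul h _
  choose C hC0 hC using b4
  have hB1 : 0 ≤ ∑ i, ∑ k, B k i := sum_nonneg fun _ _ => sum_nonneg fun _ _ => hB0 _ _
  have hC1 : 0 ≤ ∑ i, C i := sum_nonneg fun _ _ => hC0 _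
  refine ⟨∑ i, ∑ k, B k i, (∑ i, ∑ k, B k i) * (2 + ∑ i, C i), hB1, by positivity, fun u => ?_⟩
  have e1 : ∑ i, Nk X I 1 (u i) ≤ (∑ i, ∑ k, B k i) * M u := by
    simp only [sum_mul]
    refine sum_le_sum fun i _ => sum_le_sum fun k _ => ?_
    have := hB k i u
    rwa [H0] at this
  have e2 : s.en X I u u = E u + ∑ i, I ((s.ψ * ∑ i', s.Q i i' * u i') * u i) := by
    simp only [hE, Sys.en, mul_add, mul_sum, map_add, map_sum, sum_mul, mul_assoc]
  have e3 : - ∑ i, (C i * HV X I 0 u + Hs X I 0 (u i)) ≤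
      ∑ i, I ((s.ψ * ∑ i', s.Q i i' * u i') * u i) := by
    rw [← sum_neg_distrib]
    refine sum_le_sum fun i _ => ?_
    have a1 := (abs_le.1 (pair_le h 0 (s.ψ * ∑ i', s.Q i i' * u i') (u i))).1
    have a2 := hC i u
    have a3 := Hs_nonneg h 0 (u i)
    have a4 := Hs_nonneg h 0 (s.ψ * ∑ i', s.Q i i' * u i')
    simp only [pow_zero, Module.End.one_apply, Nk, ← H0] at a1
    linarith
  rw [sum_add_distrib, ← sum_mul] at e3
  have e4 : M u ≤ s.en X I u u + (2 + ∑ i, C i) * HV X I 0 u := by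
    have : ∑ i, Hs X I 0 (u i) = HV X I 0 u := rfl
    simp only [hM]
    linarith
  have := mul_le_mul_of_nonneg_left e4 hB1
  linarith

theorem apriori (h : Amb ev X c I V) (s : Sys ev K J κ) (n : ℕ) : ∃ B C, 0 ≤ B ∧ 0 ≤ C ∧
    ∀ u : κ → S, ∑ i, Nk X I (n + 1) (u i) ≤
      B * s.en X I u (fun i => ((-lap X) ^ n) (u i)) + C * HV X I n u := by
  induction n with
  | zero => simpa using garding h s
  | succ n ih =>
    obtain ⟨B, C, hB, hC, ih⟩ := ih
    choose D hD0 hD using fun k => (fm_en h s).2 k n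
    have hS : 0 ≤ ∑ k, D k := sum_nonneg fun k _ => hD0 k
    refine ⟨2 * B, 2 * C + 1 + (B * ∑ k, D k) ^ 2, by positivity, by positivity, fun u => ?_⟩
    have e1 : s.en X I u (fun i => ((-lap X) ^ (n + 1)) (u i)) =
        - ∑ k, s.en X I u (fun i => X k (((-lap X) ^ n) (X k (u i)))) := by
      obtain ⟨w, hw⟩ := en_rep h s u
      simp only [en_symm s u, hw, pow_succ_apply h, ip1, neg_mul, sum_mul, sum_neg_distrib,
        map_neg, map_sum]
      rw [sum_comm]
    have e2 : ∑ i, Nk X I (n + 1 + 1) (u i) = ∑ k, ∑ i, Nk X I (n + 1) (X k (u i)) := by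
      rw [sum_comm]; rfl
    have e3 : ∑ k, HV X I n (fun i => X k (u i)) ≤ HV X I (n + 1) u := by
      simp only [HV]
      rw [sum_comm]
      exact sum_le_sum fun i _ => sum_Hs_X h n _
    have e4 : HV X I (n + 1 + 1) u = HV X I (n + 1) u + ∑ i, Nk X I (n + 1 + 1) (u i) := by
      simp only [HV, Hs_succ (n + 1), sum_add_distrib]
    obtain ⟨a, ha⟩ : ∃ a, a = √(HV X I (n + 1) u) := ⟨_, rfl⟩
    obtain ⟨b, hb⟩ : ∃ b, b = √(HV X I (n + 1 + 1) u) := ⟨_, rfl⟩
    have ha2 : a ^ 2 = HV X I (n + 1) u := by rw [ha, Real.sq_sqrt (HV_nonneg h _ u)]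
    have hb2 : b ^ 2 = HV X I (n + 1 + 1) u := by rw [hb, Real.sq_sqrt (HV_nonneg h _ u)]
    have e5 : ∀ k, s.en X I (fun i => X k (u i)) (fun i => ((-lap X) ^ n) (X k (u i))) ≤
        - s.en X I u (fun i => X k (((-lap X) ^ n) (X k (u i)))) + D k * (a * b) := by
      intro k
      have a1 := (abs_le.1 (hD k u fun i => X k (u i))).2
      have a2 : √(HV X I (n + 1) fun i => X k (u i)) ≤ b := by
        rw [hb]
        exact Real.sqrt_le_sqrt (sum_le_sum fun i _ => Hs_X h _ k _)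
      have a3 := mul_le_mul_of_nonneg_left (mul_le_mul_of_nonneg_left a2
        (Real.sqrt_nonneg (HV X I (n + 1) u))) (hD0 k)
      rw [← ha] at a1 a3
      linarith
    have e6 := sum_le_sum fun k (_ : k ∈ univ) => ih fun i => X k (u i)
    have e7 := sum_le_sum fun k (_ : k ∈ univ) => e5 k
    rw [sum_add_distrib, sum_neg_distrib, ← e1, ← sum_mul] at e7
    rw [← e2, sum_add_distrib, ← mul_sum, ← mul_sum] at e6
    have e8 := mul_le_mul_of_nonneg_left e7 hB
    have e9 := mul_le_mul_of_nonneg_left e3 hC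
    rw [← ha2] at e9 e4 ⊢
    rw [← hb2] at e4
    nlinarith [sq_nonneg (b - B * (∑ k, D k) * a)]

end EstP

open EstP in
theorem est : S_Est := by
  intro P S K _ _ _ _ ev X c I V h
  refine ⟨X_lap h, pair_le h, fun a n => ?_, fun J κ _ _ s => ⟨en_rep h s, ?_, fun n => ?_⟩⟩
  · obtain ⟨B, -, hB⟩ := Hs_mul h n a
    exact ⟨B, hB⟩
  · obtain ⟨B, hB0, hB⟩ := (fm_en h s).1 0
    refine ⟨B ^ 2, fun u v => ?_⟩
    have e := hB u v
    simp only [pow_zero, Module.End.one_apply, zero_add] at e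
    have e2 := sq_le_sq' (abs_le.1 e).1 (abs_le.1 e).2
    rw [mul_pow, mul_pow, Real.sq_sqrt (HV_nonneg h _ u), Real.sq_sqrt (HV_nonneg h _ v),
      ← mul_assoc] at e2
    exact e2
  · obtain ⟨B, C, hB, hC, hh⟩ := apriori h s n
    refine ⟨B + C, fun u => (hh u).trans ?_⟩
    have a1 := mul_le_mul_of_nonneg_left
      (le_abs_self (s.en X I u fun i => ((-lap X) ^ n) (u i))) hB
    have a2 := mul_nonneg hC (abs_nonneg (s.en X I u fun i => ((-lap X) ^ n) (u i)))
    have a3 := mul_nonneg hB (HV_nonneg h n u)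
    have a4 : ∑ i, Hs X I n (u i) = HV X I n u := rfl
    rw [a4]
    linarith

end Pool.Agent.P.MP_713680_gt
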