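import Pool.Agent.P.MP_713680_gt.UpSt
import Pool.Agent.P.MP_713680_gt.Abs

/-!
MP_713680_gt: assembly of the final statement from the package statements.
-/

noncomputable section

namespace Pool.Agent.P.MP_713680_gt

theorem chartData_smul {n : ℕ} {M : Type} [TopologicalSpace M] [ChartedSpace (En n) M]
    {G G' : M → En n → Matrix (Fin n) (Fin n) ℝ}
    (h : ∀ p, ∀ z ∈ (chartAt (En n) p).target, G' p z = G p z) (l : ℝ) (p : M) (z : En n)
    (hz : z ∈ (chartAt (En n) p).target) : l • G' p z = (l • G) p z := by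
  rw [h p z hz]; rfl

theorem fin0 (hMan : S_Man) (hChart : S_Chart) (hGlue : S_Glue) (hScale : S_Scale)
    (hPull : S_Pull) (hRound : S_Round) (hRes : S_Res) (hCmp : S_Cmp) (hCurv : S_Curv)
    (hDist : S_Dist) (hFrame : S_Frame) (hKos : S_Koszul) (hMisc : S_Misc) (hVol : S_Vol)
    (hDiv : S_Div) (h1 : S_T1) (h2 : S_T2) (h3 : S_T3) (hON : S_ON) : S_Final := by
  obtain ⟨D⟩ := hMan
  have key : ∀ g : RMetric (n := 4) D.M, ∃ (md : MD) (m : ℕ) (fr : Frame md (Fin m))
      (C : Calc PP AA (Fin m)), LkG D (gc g) md ∧ Compat fr C ∧ CmpAt D g C ∧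
        ∀ p, ∃ yy, ResC D (gc g) C p yy := by
    intro g
    have hc := hChart 4 D.M g
    obtain ⟨md, hmd⟩ := hPull D _ hc
    obtain ⟨m, ⟨fr⟩⟩ := hFrame md
    obtain ⟨C, hC⟩ := hKos md _ fr
    have ha := algA C
    have hr := hRes D _ md _ fr C hc hmd hC ha
    exact ⟨md, m, fr, C, hmd, hC, hCmp D g _ C hc hC.ev ha (algR C ha) hr, hr⟩
  refine ⟨4, D.M, inferInstance, inferInstance, inferInstance, inferInstance, inferInstance,
    inferInstance, ?_, ?_⟩
  · intro ε hε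
    obtain ⟨G, hG, hR⟩ := hRound D
    obtain ⟨g0, hg0⟩ := hGlue 4 D.M G hG
    obtain ⟨l, hl, g, hg, hd⟩ := hScale 4 D.M g0
    refine ⟨g, hd, ?_⟩
    obtain ⟨md, m, fr, C, hmd, hC, hcmp, -⟩ := key g
    have e : gc g = l • G := by
      funext p z
      rw [hg p z]
      exact chartData_smul hg0 l p z (by rw [D.target]; trivial)
    have ha := algA C
    have hr := algR C ha
    exact (hCurv D g _ C (hChart 4 D.M g) hr hcmp).2 ε hε.le
      (hON md _ fr C l hC ha hr hl (hR l md (e ▸ hmd)))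
  · intro h
    obtain ⟨g, hd, hc⟩ := h (1 / 10 ^ 20) (by norm_num)
    obtain ⟨md, m, fr, C, hmd, hC, hcmp, hres⟩ := key g
    obtain ⟨ψ, vol, hv, hf⟩ := hVol md _ fr C hC
    have ha := algA C
    have hr := algR C ha
    have hb := algB C vol hf
    obtain ⟨m1, m2, m3⟩ := hMisc md _ fr C hC
    obtain ⟨m4, m5⟩ := m3 ψ hv.pos
    exact absS PP AA (Fin m) C (IA ψ) vol
      ⟨m4, hDiv md _ fr C ψ vol hC hv ha hb (algC C vol ha hb), hf, m1, m2, m5,
        h1 md _ fr C hC ha, h2 md _ fr C hC ha, h3 md _ fr C ψ vol hC hv ha hb⟩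
      (hDist D g _ C (hChart 4 D.M g) hC.ev hres hd)
      ((hCurv D g _ C (hChart 4 D.M g) hr hcmp).1 vol _ hf hc)

end Pool.Agent.P.MP_713680_gt
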