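import Pool.Agent.P.MP_713680_gt.UpSt

/-!
MP_713680_gt, package U8, linear algebra: Cholesky factorisation over a ring of functions.
-/

open scoped ContDiff

noncomputable section

namespace Pool.Agent.P.MP_713680_gt

open Finset Matrix

namespace FrameP

set_option linter.unusedSectionVars false

section Chol

variable {R P ι : Type} [CommRing R] [Fintype ι] [DecidableEq ι]

/-- Pointwise positive definite matrices. -/
def PD (ev : P → R →+* ℝ) (G : Matrix ι ι R) : Prop :=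
  ∀ x (ξ : ι → ℝ), ξ ≠ 0 → 0 < ξ ⬝ᵥ (G.map (ev x)) *ᵥ ξ

theorem chol_aux (ev : P → R →+* ℝ) (hs : ∀ f : R, (∀ x, 0 < ev x f) → ∃ s, s * s * f = 1)
    (G : Matrix ι ι R) (hG : Gᵀ = G) (hpd : PD ev G) (T : Finset ι) :
    ∃ u : ι → ι → R, (∀ i ∈ T, ∀ j ∈ T, u i ⬝ᵥ G *ᵥ u j = if i = j then 1 else 0) ∧
      ∀ i ∈ T, ∀ l, l ∉ T → u i l = 0 := by
  have sym : ∀ v w : ι → R, v ⬝ᵥ G *ᵥ w = w ⬝ᵥ G *ᵥ v := by
    intro v w
    rw [dotProduct_mulVec, ← mulVec_transpose, hG, dotProduct_comm]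
  induction T using Finset.induction_on with
  | empty => exact ⟨0, by simp, by simp⟩
  | insert a T ha ih =>
    obtain ⟨u, h1, h2⟩ := ih
    obtain ⟨e, he⟩ : ∃ e : ι → R, e = Pi.single a 1 := ⟨_, rfl⟩
    obtain ⟨v, hv⟩ : ∃ v : ι → R, v = e - ∑ i ∈ T, (e ⬝ᵥ G *ᵥ u i) • u i := ⟨_, rfl⟩
    have hvl : ∀ l, l ∉ T → v l = e l := by
      intro l hl
      rw [hv, Pi.sub_apply, Finset.sum_apply, Finset.sum_eq_zero, sub_zero]
      intro i hi
      rw [Pi.smul_apply, h2 i hi l hl, smul_zero]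
    have hva : v a = 1 := by rw [hvl a ha, he]; simp
    have hvo : ∀ j ∈ T, v ⬝ᵥ G *ᵥ u j = 0 := by
      intro j hj
      rw [hv, sub_dotProduct, sum_dotProduct, Finset.sum_eq_single j]
      · rw [smul_dotProduct, h1 j hj j hj]; simp
      · intro i hi hij
        rw [smul_dotProduct, h1 i hi j hj, if_neg hij, smul_zero]
      · intro h; exact absurd hj h
    have hpos : ∀ x, 0 < ev x (v ⬝ᵥ G *ᵥ v) := by
      intro x
      have h := hpd x (fun i => ev x (v i)) (by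
        intro h0
        have := congrFun h0 a
        simp [hva] at this)
      convert h using 1
      simp [dotProduct, mulVec, map_sum]
    obtain ⟨s, hs'⟩ := hs _ hpos
    have hne : ∀ i ∈ T, i ≠ a := fun i hi h => ha (h ▸ hi)
    refine ⟨Function.update u a (s • v), ?_, ?_⟩
    · intro i hi j hj
      rcases Finset.mem_insert.mp hi with hi | hi <;> rcases Finset.mem_insert.mp hj with hj | hj
      · rw [hi, hj, Function.update_self, if_pos rfl, smul_dotProduct, mulVec_smul,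
          dotProduct_smul, smul_eq_mul, smul_eq_mul, ← mul_assoc, hs']
      · rw [hi, Function.update_self, Function.update_of_ne (hne j hj), if_neg (hne j hj).symm,
          smul_dotProduct, hvo j hj, smul_zero]
      · rw [hj, Function.update_self, Function.update_of_ne (hne i hi), if_neg (hne i hi), sym,
          smul_dotProduct, hvo i hi, smul_zero]
      · rw [Function.update_of_ne (hne i hi), Function.update_of_ne (hne j hj), h1 i hi j hj]
    · intro i hi l hl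
      rw [Finset.mem_insert, not_or] at hl
      rcases Finset.mem_insert.mp hi with rfl | hi
      · rw [Function.update_self, Pi.smul_apply, hvl l hl.2, he, Pi.single_eq_of_ne hl.1, smul_zero]
      · rw [Function.update_of_ne (hne i hi), h2 i hi l hl.2]

/-- Cholesky factorisation of the inverse. -/
theorem chol (ev : P → R →+* ℝ) (hs : ∀ f : R, (∀ x, 0 < ev x f) → ∃ s, s * s * f = 1)
    (G : Matrix ι ι R) (hG : Gᵀ = G) (hpd : PD ev G) :
    ∃ K : Matrix ι ι R, Kᵀ * K * G = 1 := by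
  obtain ⟨u, h1, -⟩ := chol_aux ev hs G hG hpd univ
  refine ⟨Matrix.of u, ?_⟩
  have h : Matrix.of u * G * (Matrix.of u)ᵀ = 1 := by
    ext i j
    rw [Matrix.mul_assoc, Matrix.one_apply, ← h1 i (mem_univ _) j (mem_univ _)]
    simp [Matrix.mul_apply, dotProduct, mulVec]
  rw [mul_eq_one_comm] at h
  rw [Matrix.mul_assoc, h]

end Chol

section Alg

variable {R m n p : Type} [CommRing R] [Fintype m] [Fintype n] [Fintype p]
  [DecidableEq m] [DecidableEq n] [DecidableEq p]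

/-- The data of the linear algebra step. -/
structure LA (Z : Matrix m n R) (V : Matrix p n R) (T : Matrix n n R) (E : Matrix p p R) :
    Prop where
  ZV : Z * Vᵀ = 0
  T_symm : Tᵀ = T
  E_symm : Eᵀ = E
  T_inv : T * (Zᵀ * Z + Vᵀ * V) = 1
  E_inv : E * (V * Vᵀ) = 1

variable {Z : Matrix m n R} {V : Matrix p n R} {T : Matrix n n R} {E : Matrix p p R}

theorem LA.VZ (h : LA Z V T E) : V * Zᵀ = 0 := by
  have := congrArg Matrix.transpose h.ZV
  simpa using this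

theorem LA.TV (h : LA Z V T E) : T * Vᵀ = Vᵀ * E := by
  have h1 : T * (Vᵀ * (V * Vᵀ)) = Vᵀ := by
    have := congrArg (· * Vᵀ) h.T_inv
    simp only [Matrix.mul_assoc, Matrix.add_mul, h.ZV, Matrix.mul_zero, zero_add,
      Matrix.one_mul] at this
    exact this
  have h2 : V * Vᵀ * E = 1 := mul_eq_one_comm.mp h.E_inv
  calc T * Vᵀ = T * (Vᵀ * (V * Vᵀ)) * E := by
        rw [Matrix.mul_assoc T, Matrix.mul_assoc Vᵀ, h2, Matrix.mul_one]
    _ = Vᵀ * E := by rw [h1]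

theorem LA.TZZ (h : LA Z V T E) : T * (Zᵀ * Z) = 1 - Vᵀ * (E * V) := by
  have := h.T_inv
  rw [Matrix.mul_add, ← Matrix.mul_assoc T Vᵀ, h.TV, Matrix.mul_assoc] at this
  exact eq_sub_of_add_eq this

theorem LA.ZZT (h : LA Z V T E) : Zᵀ * (Z * T) = 1 - Vᵀ * (E * V) := by
  have := congrArg Matrix.transpose h.TZZ
  simp only [transpose_mul, transpose_transpose, h.T_symm, h.E_symm, transpose_sub,
    transpose_one, Matrix.mul_assoc] at this
  exact this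

theorem LA.PZ (h : LA Z V T E) : Z * T * Zᵀ * Z = Z := by
  rw [Matrix.mul_assoc, Matrix.mul_assoc, h.TZZ, Matrix.mul_sub, ← Matrix.mul_assoc, h.ZV]
  simp

theorem LA.AZ (h : LA Z V T E) : Z * Zᵀ * (Z * T) = Z := by
  rw [Matrix.mul_assoc, h.ZZT, Matrix.mul_sub, ← Matrix.mul_assoc, h.ZV]
  simp

theorem LA.P_symm (h : LA Z V T E) : (Z * T * Zᵀ)ᵀ = Z * T * Zᵀ := by
  simp only [transpose_mul, transpose_transpose, h.T_symm, Matrix.mul_assoc]

theorem LA.PP (h : LA Z V T E) : Z * T * Zᵀ * (Z * T * Zᵀ) = Z * T * Zᵀ := by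
  rw [← Matrix.mul_assoc, ← Matrix.mul_assoc, h.PZ]

theorem LA.ZP (h : LA Z V T E) : Zᵀ * (Z * T * Zᵀ) = Zᵀ := by
  have := congrArg Matrix.transpose h.PZ
  rwa [transpose_mul, h.P_symm] at this

/-- The Parseval identity in matrix form. -/
theorem LA.pars (h : LA Z V T E) (g : Matrix n n R) (hg : g * Vᵀ = 0) (K : Matrix m m R)
    (hK : Kᵀ * K * (Z * g * Zᵀ + (1 - Z * T * Zᵀ)) = 1) :
    (K * Z)ᵀ * (K * Z * g) + Vᵀ * (E * V) = 1 := by
  have h1 : (Z * g * Zᵀ + (1 - Z * T * Zᵀ)) * (Z * T) = Z * g := by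
    have e1 : Z * g * Zᵀ * (Z * T) = Z * g := by
      rw [Matrix.mul_assoc, h.ZZT, Matrix.mul_sub, ← Matrix.mul_assoc, Matrix.mul_assoc Z g Vᵀ, hg]
      simp
    rw [Matrix.add_mul, e1, Matrix.sub_mul, ← Matrix.mul_assoc (Z * T * Zᵀ), h.PZ]
    simp
  have h2 : Kᵀ * K * (Z * g) = Z * T := by
    rw [← h1, ← Matrix.mul_assoc, hK, Matrix.one_mul]
  rw [transpose_mul, Matrix.mul_assoc Zᵀ, Matrix.mul_assoc K, ← Matrix.mul_assoc Kᵀ, h2, h.ZZT]
  simp

theorem map_der [Algebra ℝ R] (D : Derivation ℝ R R) (A : Matrix m m R) (B : Matrix m m R) :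
    (A * B).map D = A.map D * B + A * B.map D := by
  ext i j
  simp only [Matrix.map_apply, Matrix.mul_apply, Matrix.add_apply, map_sum, Derivation.leibniz,
    smul_eq_mul, ← Finset.sum_add_distrib]
  exact Finset.sum_congr rfl fun k _ => by ring

/-- The projector is killed by every derivation killing the Gram matrix. -/
theorem LA.der (h : LA Z V T E) [Algebra ℝ R] (D : Derivation ℝ R R)
    (hD : (Z * Zᵀ).map D = 0) : (Z * T * Zᵀ).map D = 0 := by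
  have h1 : (Z * T * Zᵀ).map D * (Z * Zᵀ) = 0 := by
    have := map_der D (Z * T * Zᵀ) (Z * Zᵀ)
    rw [← Matrix.mul_assoc, h.PZ, hD] at this
    simpa using this.symm
  have h2 : (Z * T * Zᵀ).map D * (Z * T * Zᵀ) = 0 := by
    have e : Z * T * Zᵀ = Z * Zᵀ * (Z * T * T * Zᵀ) := by
      rw [← Matrix.mul_assoc, ← Matrix.mul_assoc (Z * Zᵀ), h.AZ]
    conv_lhs => enter [2]; rw [e]
    rw [← Matrix.mul_assoc, h1, Matrix.zero_mul]
  have h3 : Z * T * Zᵀ * (Z * T * Zᵀ).map D = 0 := by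
    have := congrArg Matrix.transpose h2
    rwa [transpose_mul, ← transpose_map, h.P_symm, transpose_zero] at this
  have := map_der D (Z * T * Zᵀ) (Z * T * Zᵀ)
  rwa [h.PP, h2, h3, add_zero] at this

theorem LA.map {R' : Type} [CommRing R'] (h : LA Z V T E) (φ : R →+* R') :
    LA (Z.map φ) (V.map φ) (T.map φ) (E.map φ) where
  ZV := by rw [← transpose_map, ← Matrix.map_mul, h.ZV]; simp
  T_symm := by rw [← transpose_map, h.T_symm]
  E_symm := by rw [← transpose_map, h.E_symm]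
  T_inv := by
    rw [← transpose_map, ← transpose_map, ← Matrix.map_mul, ← Matrix.map_mul,
      ← Matrix.map_add _ (map_add φ), ← Matrix.map_mul, h.T_inv]; simp
  E_inv := by
    rw [← transpose_map, ← Matrix.map_mul, ← Matrix.map_mul, h.E_inv]; simp

end Alg

section Real

variable {m n p : Type} [Fintype m] [Fintype n] [Fintype p]

theorem dot_gram (A : Matrix m n ℝ) (ξ : n → ℝ) :
    ξ ⬝ᵥ (Aᵀ * A) *ᵥ ξ = (A *ᵥ ξ) ⬝ᵥ (A *ᵥ ξ) := by
  rw [← mulVec_mulVec, dotProduct_mulVec, vecMul_transpose]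

theorem dot_self_nonneg (ξ : n → ℝ) : 0 ≤ ξ ⬝ᵥ ξ :=
  Finset.sum_nonneg fun _ _ => mul_self_nonneg _

theorem vert_zero (V : Matrix p n ℝ) (ξ : n → ℝ) (h1 : ∃ c, ξ = Vᵀ *ᵥ c) (h2 : V *ᵥ ξ = 0) :
    ξ = 0 := by
  obtain ⟨c, hc⟩ := h1
  rw [← dotProduct_self_eq_zero]
  conv_lhs => enter [2]; rw [hc]
  rw [dotProduct_mulVec, vecMul_transpose, h2, zero_dotProduct]

theorem pd_S (Z : Matrix m n ℝ) (V : Matrix p n ℝ) (h : ∀ ξ, Z *ᵥ ξ = 0 → ∃ c, ξ = Vᵀ *ᵥ c)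
    (ξ : n → ℝ) (hξ : ξ ≠ 0) : 0 < ξ ⬝ᵥ (Zᵀ * Z + Vᵀ * V) *ᵥ ξ := by
  rw [add_mulVec, dotProduct_add, dot_gram, dot_gram]
  have h1 := dot_self_nonneg (Z *ᵥ ξ)
  have h2 := dot_self_nonneg (V *ᵥ ξ)
  by_contra hc
  apply hξ
  exact vert_zero V ξ (h ξ (dotProduct_self_eq_zero.mp (by linarith)))
    (dotProduct_self_eq_zero.mp (by linarith))

theorem pd_E (V : Matrix p n ℝ) (h : ∀ c, Vᵀ *ᵥ c = 0 → c = 0)
    (c : p → ℝ) (hc : c ≠ 0) : 0 < c ⬝ᵥ (V * Vᵀ) *ᵥ c := by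
  have := dot_gram Vᵀ c
  rw [transpose_transpose] at this
  rw [this]
  have h1 := dot_self_nonneg (Vᵀ *ᵥ c)
  by_contra h0
  exact hc (h c (dotProduct_self_eq_zero.mp (by linarith)))

theorem pd_G [DecidableEq m] [DecidableEq n] [DecidableEq p] {Z : Matrix m n ℝ} {V : Matrix p n ℝ}
    {T : Matrix n n ℝ} {E : Matrix p p ℝ} (h : LA Z V T E) (g : Matrix n n ℝ)
    (g0 : ∀ ξ, 0 ≤ ξ ⬝ᵥ g *ᵥ ξ) (g1 : ∀ ξ, ξ ⬝ᵥ g *ᵥ ξ = 0 → ∃ c, ξ = Vᵀ *ᵥ c)
    (η : m → ℝ) (hη : η ≠ 0) : 0 < η ⬝ᵥ (Z * g * Zᵀ + (1 - Z * T * Zᵀ)) *ᵥ η := by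
  have e1 : η ⬝ᵥ (Z * g * Zᵀ) *ᵥ η = (Zᵀ *ᵥ η) ⬝ᵥ g *ᵥ (Zᵀ *ᵥ η) := by
    rw [Matrix.mul_assoc, ← mulVec_mulVec, ← mulVec_mulVec, dotProduct_mulVec, mulVec_transpose]
  have e2 : 1 - Z * T * Zᵀ = (1 - Z * T * Zᵀ)ᵀ * (1 - Z * T * Zᵀ) := by
    rw [transpose_sub, transpose_one, h.P_symm, Matrix.mul_sub, Matrix.sub_mul, Matrix.sub_mul,
      h.PP]
    simp
  have e3 : η ⬝ᵥ (1 - Z * T * Zᵀ) *ᵥ η
      = ((1 - Z * T * Zᵀ) *ᵥ η) ⬝ᵥ ((1 - Z * T * Zᵀ) *ᵥ η) := by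
    rw [← dot_gram, ← e2]
  rw [add_mulVec, dotProduct_add, e1, e3]
  have h1 := g0 (Zᵀ *ᵥ η)
  have h2 := dot_self_nonneg ((1 - Z * T * Zᵀ) *ᵥ η)
  by_contra hc
  apply hη
  have h3 : Zᵀ *ᵥ η = 0 := vert_zero V _ (g1 _ (by linarith)) (by
    rw [mulVec_mulVec, h.VZ, zero_mulVec])
  have h4 : (1 - Z * T * Zᵀ) *ᵥ η = 0 := dotProduct_self_eq_zero.mp (by linarith)
  rwa [sub_mulVec, one_mulVec, ← mulVec_mulVec, h3, mulVec_zero, sub_zero] at h4

end Real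

end FrameP

end Pool.Agent.P.MP_713680_gt
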