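import Pool.Agent.P.MP_713680_gt.UpSt
import Pool.Agent.P.MP_713680_gt.Frame0

/-!
MP_713680_gt, package U8: an invariant horizontal Parseval frame.
-/

open scoped ContDiff

noncomputable section

namespace Pool.Agent.P.MP_713680_gt

open Finset Matrix

namespace FrameP

theorem isq_S (hB : BasB) (f : SS) (hf : ∀ x, 0 < f.1 x) : ∃ s : SS, s * s * f = 1 := by
  have hΦ : ContDiffOn ℝ ∞ (fun t : ℝ => (Real.sqrt t)⁻¹) (Set.Ioi 0) := by
    intro t ht
    have ht' : (0 : ℝ) < t := ht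
    exact ((Real.contDiffAt_sqrt ht'.ne').inv (Real.sqrt_pos.mpr ht').ne').contDiffWithinAt
  obtain ⟨s, hs, -⟩ := hB.comp _ f hΦ hf
  refine ⟨s, Subtype.ext (funext fun x => ?_)⟩
  change s.1 x * s.1 x * f.1 x = 1
  rw [hs, ← mul_inv, Real.mul_self_sqrt (hf x).le, inv_mul_cancel₀ (hf x).ne']

theorem isq_A (hB : BasB) (f : AA) (hf : ∀ x, 0 < f.1.1 x) : ∃ s : AA, s * s * f = 1 := by
  obtain ⟨s, hs⟩ := isq_S hB f.1 hf
  have hm : s ∈ AA := by
    intro b
    have h := congrArg (vf (Vv b)) hs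
    rw [Derivation.leibniz, Derivation.leibniz, f.2 b, Derivation.map_one_eq_zero] at h
    simp only [smul_eq_mul] at h
    have h2 : (2 : ℝ) • vf (Vv b) s = 0 := by
      rw [two_smul]
      linear_combination s * h - (vf (Vv b) s + vf (Vv b) s) * hs
    exact (smul_eq_zero.mp h2).resolve_left two_ne_zero
  exact ⟨⟨s, hm⟩, Subtype.ext hs⟩

theorem brk_sum (hA : BasA) {ι : Type} (u : Fin 6 → SS) (T : Finset ι) (w : ι → Fin 6 → SS)
    (h : ∀ i ∈ T, brk u (w i) = 0) : brk u (∑ i ∈ T, w i) = 0 := by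
  refine Finset.sum_induction w (fun v => brk u v = 0) (fun a b ha hb => ?_) ?_ h
  · rw [hA.brk_add, ha, hb, add_zero]
  · have := hA.brk_add u 0 0
    rw [add_zero] at this
    exact left_eq_add.mp this

theorem vert_iff (x : PP) (ξ : Fin 6 → ℝ) (h : Vert x ξ) :
    ∃ c, ξ = ((Matrix.of Vv).map (evS x).toRingHom)ᵀ *ᵥ c := by
  obtain ⟨c, hc⟩ := h
  refine ⟨c, funext fun k => ?_⟩
  rw [hc k]
  simp [mulVec, dotProduct, mul_comm]

end FrameP

open FrameP in
theorem frame (hA : BasA) (hB : BasB) (hI : S_Imm) : S_Frame := by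
  intro md
  obtain ⟨m, f, hf⟩ := hI
  refine ⟨m, ?_⟩
  obtain ⟨Z, hZ⟩ : ∃ Z : Matrix (Fin m) (Fin 6) SS, Z = Matrix.of fun a k => X k (f a).1 :=
    ⟨_, rfl⟩
  obtain ⟨V, hV⟩ : ∃ V : Matrix (Fin 2) (Fin 6) SS, V = Matrix.of Vv := ⟨_, rfl⟩
  obtain ⟨g, hg⟩ : ∃ g : Matrix (Fin 6) (Fin 6) SS, g = Matrix.of md.g := ⟨_, rfl⟩
  have hZb : ∀ b a, brk (Vv b) (Z a) = 0 := by
    intro b a
    have := hA.brk_grad b (f a).1
    rw [(f a).2 b] at this
    rw [hZ]
    exact this.trans (funext fun k => map_zero _)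
  have hZV : Z * Vᵀ = 0 := by
    ext a b
    have := (f a).2 b
    rw [hA.vf_apply] at this
    rw [hZ, hV, Matrix.mul_apply, Matrix.zero_apply, ← this]
    simp [mul_comm]
  have hgs : gᵀ = g := by
    ext k l
    rw [hg, transpose_apply, Matrix.of_apply, Matrix.of_apply, md.symm]
  have hgV : g * Vᵀ = 0 := by
    ext k b
    rw [hg, hV, Matrix.mul_apply, Matrix.zero_apply, ← md.vert b k]
    simp
  have hsS : ∀ f : SS, (∀ x, 0 < (evS x).toRingHom f) → ∃ s, s * s * f = 1 := isq_S hB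
  have hsA : ∀ f : AA, (∀ x, 0 < (evA x).toRingHom f) → ∃ s, s * s * f = 1 := isq_A hB
  obtain ⟨K1, hK1⟩ := chol (fun x => (evS x).toRingHom) hsS (Zᵀ * Z + Vᵀ * V) (by simp) (by
    intro x ξ hξ
    rw [Matrix.map_add _ (map_add _), Matrix.map_mul, Matrix.map_mul, transpose_map, transpose_map]
    refine pd_S _ _ (fun ξ h => ?_) ξ hξ
    rw [hV]
    refine vert_iff x ξ (hf x ξ fun a => ?_)
    have := congrFun h a
    rw [hZ] at this
    simpa [mulVec, dotProduct, mul_comm] using this)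
  obtain ⟨K2, hK2⟩ := chol (fun x => (evS x).toRingHom) hsS (V * Vᵀ) (by simp) (by
    intro x c hc
    rw [Matrix.map_mul, transpose_map]
    refine pd_E _ (fun c h => hA.V_indep x c fun k => ?_) c hc
    have := congrFun h k
    rw [hV] at this
    simpa [mulVec, dotProduct, mul_comm] using this)
  have hL : LA Z V (K1ᵀ * K1) (K2ᵀ * K2) := ⟨hZV, by simp, by simp, hK1, hK2⟩
  generalize K1ᵀ * K1 = T at hL
  generalize K2ᵀ * K2 = E at hL
  obtain ⟨G, hG⟩ : ∃ G, G = Z * g * Zᵀ + (1 - Z * T * Zᵀ) := ⟨_, rfl⟩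
  have hGA : ∀ a c, G a c ∈ AA := by
    intro a c b
    have e1 : (Z * g * Zᵀ) a c = gq md.g (Z a) (Z c) := by
      simp only [Matrix.mul_apply, gq, transpose_apply, hg, Matrix.of_apply, Finset.sum_mul]
      rw [Finset.sum_comm]
      exact Finset.sum_congr rfl fun _ _ => Finset.sum_congr rfl fun _ _ => by ring
    have e2 : (Z * Zᵀ).map (vf (Vv b)) = 0 := by
      refine Matrix.ext fun a c => ?_
      have := hA.kill_V b (Z a) (Z c)
      rw [hZb, hZb] at this
      simpa [ip1, Matrix.mul_apply] using this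
    have e3 := congrFun (congrFun (hL.der _ e2) a) c
    rw [Matrix.map_apply] at e3
    rw [hG, Matrix.add_apply, Matrix.sub_apply, map_add, map_sub, e3, e1, md.inv, hZb, hZb,
      Matrix.one_apply]
    split_ifs <;> simp [gq]
  have hGs : Gᵀ = G := by
    rw [hG, transpose_add, transpose_sub, hL.P_symm]
    simp [hgs, Matrix.mul_assoc]
  obtain ⟨G', hG'⟩ : ∃ G' : Matrix (Fin m) (Fin m) AA, G'.map AA.val.toRingHom = G :=
    ⟨Matrix.of fun a c => ⟨G a c, hGA a c⟩, rfl⟩
  obtain ⟨K, hK⟩ := chol (fun x => (evA x).toRingHom) hsA G' (by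
    refine Matrix.ext fun a c => Subtype.ext ?_
    have := congrFun (congrFun hGs a) c
    rwa [← hG'] at this) (by
    intro x η hη
    have e : G'.map (evA x).toRingHom = G.map (evS x).toRingHom := by rw [← hG']; rfl
    have h0 : ∀ ξ : Fin 6 → ℝ, ξ ⬝ᵥ g.map (evS x).toRingHom *ᵥ ξ
        = ∑ k, ∑ l, (md.g k l).1 x * ξ k * ξ l := by
      intro ξ
      simp only [dotProduct, mulVec, Finset.mul_sum, hg, Matrix.map_apply, Matrix.of_apply]
      exact Finset.sum_congr rfl fun k _ => Finset.sum_congr rfl fun l _ => by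
        change ξ k * ((md.g k l).1 x * ξ l) = _
        ring
    have := pd_G (hL.map (evS x).toRingHom) (g.map (evS x).toRingHom)
      (fun ξ => by rw [h0]; exact md.nonneg x ξ)
      (fun ξ h => by rw [h0] at h; rw [hV]; exact vert_iff x ξ (md.defn x ξ h)) η hη
    change 0 < η ⬝ᵥ G'.map (evA x).toRingHom *ᵥ η
    rw [e, hG, Matrix.map_add _ (map_add _), Matrix.map_sub _ (map_sub _), Matrix.map_mul,
      Matrix.map_mul, Matrix.map_mul, Matrix.map_mul, transpose_map,
      Matrix.map_one _ (map_zero _) (map_one _)]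
    exact this)
  obtain ⟨K', hK'⟩ : ∃ K', K' = K.map AA.val.toRingHom := ⟨_, rfl⟩
  have hK0 : K'ᵀ * K' * G = 1 := by
    rw [hK', ← hG', ← transpose_map, ← Matrix.map_mul, ← Matrix.map_mul, hK,
      Matrix.map_one _ (map_zero _) (map_one _)]
  have hP := hL.pars g hgV K' (hG ▸ hK0)
  have hVY : V * (K' * Z)ᵀ = 0 := by
    rw [transpose_mul, ← Matrix.mul_assoc, hL.VZ, Matrix.zero_mul]
  refine ⟨⟨K' * Z, E * V, fun b a => ?_, fun b a => ?_, fun b c => ?_, fun b a => ?_, fun w => ?_⟩⟩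
  · have e : (K' * Z) a = ∑ c, K' a c • Z c := by
      funext k
      simp [Matrix.mul_apply, Finset.sum_apply]
    rw [e]
    refine brk_sum hA _ _ _ fun c _ => ?_
    have : vf (Vv b) (K' a c) = 0 := by rw [hK']; exact (K a c).2 b
    rw [hA.brk_smul, hZb, this]; simp
  · have := congrFun (congrFun hVY b) a
    rw [hV] at this
    exact this
  · have := congrFun (congrFun hL.E_inv b) c
    rw [← Matrix.mul_assoc, Matrix.one_apply] at this
    rw [← this, hV]
    rfl
  · have h : E * V * (K' * Z)ᵀ = 0 := by rw [Matrix.mul_assoc, hVY, Matrix.mul_zero]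
    exact congrFun (congrFun h b) a
  · have h := congrArg (· *ᵥ w) hP
    simp only [add_mulVec, one_mulVec, ← mulVec_mulVec _ (K' * Z)ᵀ, ← mulVec_mulVec _ Vᵀ] at h
    have e1 : ∀ a, ((K' * Z * g) *ᵥ w) a = gq md.g w ((K' * Z) a) := by
      intro a
      generalize K' * Z = Y
      simp only [mulVec, dotProduct, Matrix.mul_apply, gq, hg, Matrix.of_apply, Finset.sum_mul]
      exact Finset.sum_congr rfl fun k _ => Finset.sum_congr rfl fun l _ => by
        rw [md.symm l k]; ring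
    funext k
    conv_rhs => rw [← h]
    simp only [Pi.add_apply, Finset.sum_apply, Pi.smul_apply, smul_eq_mul, ← e1]
    congr 1
    · exact Finset.sum_congr rfl fun a _ => mul_comm _ _
    · rw [hV]
      exact Finset.sum_congr rfl fun a _ => mul_comm _ _

end Pool.Agent.P.MP_713680_gt
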