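import Pool.Agent.P.MP_713680_gt.Gal1

/-!
MP_713680_gt, package E3: Galerkin approximation.
-/

noncomputable section

namespace Pool.Agent.P.MP_713680_gt

open Finset Filter Topology

open GalP

theorem gal (he : S_Est) (hr : S_RC) : S_G := by
  intro P S K _ _ _ _ ev X c I V A J κ β _ _ s T t a τ σ f hTV hTs hTl ha hco hbe ⟨u0, hu0, hb0⟩
  obtain ⟨⟨π, hπ⟩, -, hcomp⟩ := hr P S K ev X c I V A
  have hw := ((he P S K ev X c I V A).2.2.2 J κ s).1
  let W : ℕ → Submodule ℝ (κ → S) := fun N =>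
    (Submodule.pi Set.univ fun _ => V N) ⊓ ⨅ b, ⨅ i, LinearMap.ker (T b ∘ₗ LinearMap.proj i)
  have hW : ∀ N u, u ∈ W N ↔ (∀ i, u i ∈ V N) ∧ ∀ b i, T b (u i) = 0 := by
    intro N u
    simp [W, Submodule.mem_pi, Submodule.mem_iInf]
  have hfin : ∀ N, FiniteDimensional ℝ (W N) := by
    intro N
    have := A.fin N
    let j : W N →ₗ[ℝ] (κ → V N) := LinearMap.pi fun i =>
      LinearMap.codRestrict _ (LinearMap.proj i ∘ₗ (W N).subtype) fun u => ((hW N u).1 u.2).1 i
    refine FiniteDimensional.of_injective j fun u v h => ?_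
    ext i
    exact congrArg Subtype.val (congrFun h i)
  have hmono : ∀ {M N}, M ≤ N → ∀ u ∈ W M, u ∈ W N := fun h u hu =>
    (hW _ _).2 ⟨fun i => A.mono h (((hW _ _).1 hu).1 i), ((hW _ _).1 hu).2⟩
  have hπW : ∀ N (v : κ → S), (∀ b i, T b (v i) = 0) → (fun i => π N (v i)) ∈ W N := by
    intro N v hv
    refine (hW _ _).2 ⟨fun i => hπ.mem _ _, fun b i => ?_⟩
    rw [← hπ.comm (T b) (t b) (hTV b) (hTs b), hv, map_zero]
  have hπc : ∀ (v : κ → S) i, Cv I (fun N => π N (v i)) (v i) := by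
    intro v i
    refine (hπ.conv (v i)).congr fun N => ?_
    congr 1
    ring
  have hlap : ∀ N u, u ∈ W N → ∀ n : ℕ, (fun i => ((-lap X) ^ n) (u i)) ∈ W N := by
    intro N u hu n
    induction n with
    | zero => simpa using hu
    | succ n ih =>
      obtain ⟨h1, h2⟩ := (hW _ _).1 ih
      refine (hW _ _).2 ⟨fun i => ?_, fun b i => ?_⟩
      · rw [pow_succ', Module.End.mul_apply, LinearMap.neg_apply, lap_apply]
        exact (V N).neg_mem ((V N).sum_mem fun k _ => A.V_X _ _ _ (A.V_X _ _ _ (h1 i)))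
      · rw [pow_succ', Module.End.mul_apply, LinearMap.neg_apply, map_neg, hTl, h2, map_zero,
          neg_zero]
  have hb0' : 0 < s.be I τ σ f u0 u0 := lt_of_le_of_ne (hbe u0 hu0) (Ne.symm hb0)
  obtain ⟨N0, hN0⟩ := ((be_lim A s τ σ f (u := fun N i => π N (u0 i)) (v := fun N i => π N (u0 i))
    (hπc u0) (hπc u0)).eventually (lt_mem_nhds hb0')).exists
  set w0 : κ → S := fun i => π N0 (u0 i) with hw0
  have hw0W : w0 ∈ W N0 := hπW N0 u0 hu0
  have hpos : ∀ N, ∀ v ∈ W N, v ≠ 0 → 0 < enL s X I v v := fun N v hv h =>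
    lt_of_lt_of_le (mul_pos ha (psi_pos A s h)) (hco v ((hW _ _).1 hv).2)
  have hex : ∀ N, ∃ u ∈ W (N + N0), ∃ l : ℝ, 0 < l ∧ s.be I τ σ f u u = 1 ∧
      (∀ v ∈ W (N + N0), s.en X I u v = l * s.be I τ σ f u v) ∧
      ∀ v ∈ W (N + N0), l * s.be I τ σ f v v ≤ s.en X I v v := fun N => by
    have := hfin (N + N0)
    exact eig (enL s X I) (beL s I τ σ f) (en_symm s X I) (be_symm s I τ σ f) (W (N + N0))
      (hpos _) (hmono (Nat.le_add_left _ _) _ hw0W) hN0
  choose u huW l hl0 hu1 hue hul using hex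
  set L := s.en X I w0 w0 / s.be I τ σ f w0 w0 with hL
  have hlL : ∀ N, l N ∈ Set.Icc 0 L := fun N =>
    ⟨(hl0 N).le, (le_div_iff₀ hN0).2 (hul N _ (hmono (Nat.le_add_left _ _) _ hw0W))⟩
  have hlB : Bd l := (Bd.const L).of_le (fun N => (hlL N).1) fun N => (hlL N).2
  have h0B : Bd fun N => I (s.ψ * ip1 (u N) (u N)) := by
    refine ((Bd.const a⁻¹).mul hlB).of_le (fun N => psi_nn A s _) fun N => ?_
    have := hco (u N) ((hW _ _).1 (huW N)).2
    rw [hue N _ (huW N), hu1, mul_one] at this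
    exact (le_inv_mul_iff₀ ha).2 this
  have hbd := bounds he A s τ σ f u l hlB h0B fun N n => hue N _ (hlap _ _ (huW N) n)
  obtain ⟨l0, -, φ1, hφ1, hl⟩ := isCompact_Icc.tendsto_subseq hlL
  obtain ⟨φ2, g, hφ2, hg⟩ := hcomp κ (fun N => u (φ1 N)) fun n => by
    obtain ⟨C, hC⟩ := Bd.sum univ fun i _ => hbd n i
    refine ⟨C, fun N i => (Nk_le A _ _).trans (le_trans ?_ ((le_abs_self _).trans (hC (φ1 N))))⟩
    exact Finset.single_le_sum (f := fun i => Hs X I n (u (φ1 N) i)) (fun i _ => Hs_nn A _ _)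
      (mem_univ i)
  let φ : ℕ → ℕ := fun N => φ1 (φ2 N)
  have hφ : Tendsto φ atTop atTop := (hφ1.comp hφ2).tendsto_atTop
  have hl' : Tendsto (fun N => l (φ N)) atTop (𝓝 l0) := hl.comp hφ2.tendsto_atTop
  have hg' : ∀ i, Cv I (fun N => u (φ N) i) (g i) := hg
  have hev : ∀ M, ∀ v ∈ W M, ∀ᶠ N in atTop, v ∈ W (φ N + N0) := fun M v hv =>
    (hφ.eventually_ge_atTop M).mono fun N hN => hmono (hN.trans (Nat.le_add_right _ _)) _ hv
  refine ⟨g, l0, fun b i => ?_, ?_, fun v hv => ?_, fun v hv => ?_⟩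
  · apply eq_zero A
    rw [hTs]
    have h1 := ((hg' i).pair A (Cv.const I (T b (T b (g i))))).const_mul (t b)
    have h2 : ∀ N, t b * I (u (φ N) i * T b (T b (g i))) = 0 := fun N => by
      rw [← hTs, ((hW _ _).1 (huW (φ N))).2, zero_mul, map_zero]
    simp only [h2] at h1
    exact (tendsto_nhds_unique tendsto_const_nhds h1).symm
  · have h1 := be_lim A s τ σ f (u := fun N => u (φ N)) (v := fun N => u (φ N)) hg' hg'
    simp only [hu1] at h1
    exact (tendsto_nhds_unique tendsto_const_nhds h1).symm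
  · have h1 : ∀ M, ∀ v ∈ W M, s.en X I g v = l0 * s.be I τ σ f g v := by
      intro M v hv
      have h2 := en_lim A s hw (u := fun N => u (φ N)) hg' v
      have h3 := hl'.mul (be_lim A s τ σ f (u := fun N => u (φ N)) (v := fun _ => v) hg'
        fun i => Cv.const I (v i))
      exact tendsto_nhds_unique_of_eventuallyEq h2 h3
        ((hev M v hv).mono fun N hN => hue _ _ hN)
    have h2 := en_lim A s hw (u := fun M i => π M (v i)) (hπc v) g
    have h3 := (be_lim A s τ σ f (u := fun _ => g) (v := fun M i => π M (v i))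
      (fun i => Cv.const I (g i)) (hπc v)).const_mul l0
    rw [en_symm]
    refine tendsto_nhds_unique h2 (h3.congr fun M => ?_)
    rw [en_symm, h1 M _ (hπW M v hv)]
  · have h1 : ∀ M, ∀ v ∈ W M, l0 * s.be I τ σ f v v ≤ s.en X I v v := by
      intro M v hv
      exact le_of_tendsto (hl'.mul_const _) ((hev M v hv).mono fun N hN => hul _ _ hN)
    exact le_of_tendsto_of_tendsto' ((be_lim A s τ σ f (u := fun M i => π M (v i))
      (v := fun M i => π M (v i)) (hπc v) (hπc v)).const_mul l0) (en_proj he A s hπ v)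
      fun M => h1 M _ (hπW M v hv)

theorem g0abs (hr : S_RC) (hg : S_G) : S_G0abs := by
  intro P S K _ _ _ ev X c I V A
  classical
  obtain ⟨-, hP, -⟩ := hr P S K ev X c I V A
  have hI : ∀ a : ℝ, I (algebraMap ℝ S a) = a := fun a => by
    rw [Algebra.algebraMap_eq_smul_one, map_smul, A.one, smul_eq_mul, mul_one]
  have hlap : ∀ u v, ∑ k, I (X k u * X k v) = - I (lap X u * v) := by
    intro u v
    rw [lap_apply, Finset.sum_mul, map_sum, ← Finset.sum_neg_distrib]
    refine Finset.sum_congr rfl fun k _ => ?_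
    rw [skew A k (X k u) v]
    ring
  have hIl : ∀ u, I (lap X u) = 0 := fun u => by
    rw [lap_apply, map_sum]
    exact Finset.sum_eq_zero fun k _ => A.I_X _ _
  refine ⟨fun f hf => ?_, fun u hu h0 => ?_⟩
  swap
  · have := hP u h0
    rw [hlap, hu, zero_mul, map_zero, neg_zero] at this
    exact eq_zero A (le_antisymm this (sq_nn A u))
  by_cases hf0 : f = 0
  · exact ⟨0, map_zero _, by rw [map_zero, hf0]⟩
  let s : Sys ev K K Unit :=
    { y := fun j k => if j = k then 1 else 0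
      η := fun k j => if k = j then 1 else 0
      ψ := 1
      ψ' := 1
      B := 0
      Q := 0
      ell := fun k l => by simp
      inv := one_mul _
      pos := fun x => by simp
      symm := fun _ _ => rfl }
  have hen : ∀ u v : Unit → S, s.en X I u v = ∑ k, I (X k (u ()) * X k (v ())) := by
    intro u v
    simp [Sys.en, Sys.L, s]
  have hbe : ∀ u v : Unit → S, s.be I 0 1 (fun _ => f) u v = I (f * u ()) * I (f * v ()) := by
    intro u v
    simp [Sys.be, ip1, s]
  let T : Unit → S →ₗ[ℝ] S := fun _ => Algebra.linearMap ℝ S ∘ₗ I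
  have hT : ∀ g, T () g = algebraMap ℝ S (I g) := fun _ => rfl
  have hT0 : ∀ u : Unit → S, (∀ b i, T b (u i) = 0) ↔ I (u ()) = 0 := by
    intro u
    refine ⟨fun h => ?_, fun h b i => by cases b; rw [hT, h, map_zero]⟩
    rw [← hI (I (u ())), ← hT, h () (), map_zero]
  obtain ⟨u, l, h1, h2, h3, -⟩ := hg P S K ev X c I V A K Unit Unit s T (fun _ => 1) 1 0 1
    (fun _ => f) (fun b n g _ => A.mono (Nat.zero_le n) ((A.V_zero _).2 ⟨_, rfl⟩))
    (fun b g h => by
      cases b
      rw [hT, hT, ← Algebra.smul_def, mul_comm g, ← Algebra.smul_def, map_smul, map_smul,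
        smul_eq_mul, smul_eq_mul]
      ring)
    (fun b g => by cases b; rw [hT, hT, hIl]; simp [lap_apply]) one_pos
    (fun u hu => by
      rw [hen]
      simpa [s, ip1] using hP _ ((hT0 u).1 hu))
    (fun u _ => by rw [hbe]; exact mul_self_nonneg _)
    ⟨fun _ => f, (hT0 _).2 hf, by
      rw [hbe]
      exact mul_self_ne_zero.2 fun h => hf0 (eq_zero A h)⟩
  rw [hT0] at h1
  simp only [hT0, hen, hbe] at h2 h3
  have hc : I (f * u ()) ≠ 0 := by
    intro h
    simp [h] at h2
  have hl : l ≠ 0 := by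
    rintro rfl
    have h4 := hP _ h1
    rw [h3 u h1, zero_mul] at h4
    apply hc
    rw [eq_zero A (le_antisymm h4 (sq_nn A _)), mul_zero, map_zero]
  have hz : lap X (u ()) + (l * I (f * u ())) • f = 0 := by
    apply eq_zero A
    set w := lap X (u ()) + (l * I (f * u ())) • f with hw
    have h4 := h3 (fun _ => w) (by rw [hw, map_add, map_smul, hIl, hf, smul_zero, add_zero])
    rw [hlap] at h4
    conv_lhs => rw [hw, add_mul, ← hw, smul_mul_assoc, map_add, map_smul, smul_eq_mul]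
    linarith
  refine ⟨(-(l * I (f * u ()))⁻¹) • u (), by rw [map_smul, h1, smul_zero], ?_⟩
  rw [map_smul, eq_neg_of_add_eq_zero_left hz, smul_neg, neg_smul, neg_neg, smul_smul,
    inv_mul_cancel₀ (mul_ne_zero hl hc), one_smul]

end Pool.Agent.P.MP_713680_gt
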