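import Pool.Agent.P.MP_713680_gt.UpSt

/-! Ten invariant polynomials immerse the quotient of `S³ × S³` by the torus. -/

noncomputable section

namespace Pool.Agent.P.MP_713680_gt

open Finset

namespace ImmP

open Complex ComplexConjugate

theorem radial {p P : ℂ} (hp : p ≠ 0) (h : (conj p * P).re = 0) : ∃ r : ℝ, P = I * r * p := by
  refine ⟨(conj p * P).im / normSq p, ?_⟩
  have h1 : (normSq p : ℂ) ≠ 0 := by simpa using hp
  have h2 : conj p * P = I * (conj p * P).im := by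
    conv_lhs => rw [← re_add_im (conj p * P), h]
    simp [mul_comm]
  have h3 : (normSq p : ℂ) = conj p * p := normSq_eq_conj_mul_self
  rw [ofReal_div]
  generalize ((conj p * P).im : ℂ) = m at h2 ⊢
  field_simp
  linear_combination P * h3 + p * h2

theorem cancel {a z w : ℂ} (ha : a ≠ 0) (h : a * (z - w) = 0) : z = w :=
  sub_eq_zero.mp ((mul_eq_zero.mp h).resolve_left ha)

theorem core {p1 p2 q1 q2 P1 P2 Q1 Q2 : ℂ} (hp : p1 ≠ 0 ∨ p2 ≠ 0) (hq : q1 ≠ 0 ∨ q2 ≠ 0)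
    (r1 : (conj p1 * P1).re = 0) (r2 : (conj p2 * P2).re = 0) (r3 : (conj q1 * Q1).re = 0)
    (r4 : (conj q2 * Q2).re = 0)
    (m1 : (P1 * conj p2 + p1 * conj P2) * q1 + p1 * conj p2 * Q1 = 0)
    (m2 : ((P1 * p1 + p1 * P1) * q1 + p1 * p1 * Q1) * conj q2 + p1 * p1 * q1 * conj Q2 = 0)
    (m3 : (P1 * p2 + p1 * P2) * conj q2 + p1 * p2 * conj Q2 = 0)
    (m4 : ((conj P2 * conj p2 + conj p2 * conj P2) * q1 + conj p2 * conj p2 * Q1) * q2 +
      conj p2 * conj p2 * q1 * Q2 = 0) :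
    ∃ c0 c1 : ℝ, P1 = I * c0 * p1 ∧ P2 = I * (c0 + c1) * p2 ∧ Q1 = I * c1 * q1 ∧
      Q2 = I * (2 * c0 + c1) * q2 := by
  have cj : ∀ (r : ℝ) (z : ℂ), conj (I * r * z) = -(I * r * conj z) := fun r z => by simp
  have cz : ∀ {z : ℂ}, z ≠ 0 → conj z ≠ 0 := fun h => by simpa using h
  have ci : ∀ {z w : ℂ} {r : ℝ}, conj z = -(I * r * conj w) → z = I * r * w := fun h => by
    simpa using congrArg conj h
  rcases hp with hp | hp <;> rcases hq with hq | hq
  · obtain ⟨a, rfl⟩ := radial hp r1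
    obtain ⟨b, rfl⟩ := radial hq r3
    refine ⟨a, b, rfl, ?_, rfl, ?_⟩
    · have := ci (z := P2) (r := a + b) (w := p2) (cancel (mul_ne_zero hp hq) (by
        push_cast; linear_combination m1))
      simpa using this
    · have := ci (z := Q2) (r := 2 * a + b) (w := q2) (cancel (mul_ne_zero (mul_ne_zero hp hp) hq) (by
        push_cast; linear_combination m2))
      simpa using this
  · obtain ⟨a, rfl⟩ := radial hp r1
    obtain ⟨b, rfl⟩ := radial hq r4
    rw [cj] at m2 m3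
    refine ⟨a, b - 2 * a, rfl, cancel (mul_ne_zero hp (cz hq)) ?_,
      cancel (mul_ne_zero (mul_ne_zero hp hp) (cz hq)) ?_, ?_⟩
    · push_cast; linear_combination m3
    · push_cast; linear_combination m2
    · push_cast; ring
  · obtain ⟨a, rfl⟩ := radial hp r2
    obtain ⟨b, rfl⟩ := radial hq r3
    rw [cj] at m1 m4
    refine ⟨a - b, b, cancel (mul_ne_zero (cz hp) hq) ?_, ?_, rfl,
      cancel (mul_ne_zero (mul_ne_zero (cz hp) (cz hp)) hq) ?_⟩
    · push_cast; linear_combination m1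
    · push_cast; ring
    · push_cast; linear_combination m4
  · obtain ⟨a, rfl⟩ := radial hp r2
    obtain ⟨b, rfl⟩ := radial hq r4
    rw [cj] at m3 m4
    refine ⟨b - a, 2 * a - b, cancel (mul_ne_zero hp (cz hq)) ?_, ?_,
      cancel (mul_ne_zero (mul_ne_zero (cz hp) (cz hp)) hq) ?_, ?_⟩
    · push_cast; linear_combination m3
    · push_cast; ring
    · push_cast; linear_combination m4
    · push_cast; ring

/-- complex multiplication on pairs -/
def cm (z w : SS × SS) : SS × SS := (z.1 * w.1 - z.2 * w.2, z.1 * w.2 + z.2 * w.1)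

/-- complex conjugation on pairs -/
def cj (z : SS × SS) : SS × SS := (z.1, -z.2)

/-- the pair rotates with speed `w` along `D` -/
def Wt (D : Derivation ℝ SS SS) (w : SS) (z : SS × SS) : Prop :=
  D z.1 = -(w * z.2) ∧ D z.2 = w * z.1

theorem Wt.cm {D : Derivation ℝ SS SS} {w w' : SS} {z z' : SS × SS} (h : Wt D w z)
    (h' : Wt D w' z') : Wt D (w + w') (cm z z') := by
  simp only [Wt, ImmP.cm, map_sub, map_add, Derivation.leibniz, smul_eq_mul, h.1, h.2, h'.1, h'.2]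
  constructor <;> ring

theorem Wt.cj {D : Derivation ℝ SS SS} {w : SS} {z : SS × SS} (h : Wt D w z) :
    Wt D (-w) (cj z) := by
  simp only [Wt, ImmP.cj, map_neg, h.1, h.2]
  constructor <;> ring

theorem Wt.zero {D : Derivation ℝ SS SS} {w : SS} {z : SS × SS} (h : Wt D w z) (hw : w = 0) :
    D z.1 = 0 ∧ D z.2 = 0 := by
  subst hw
  simpa [Wt] using h

/-- value at a point -/
def val (x : PP) (z : SS × SS) : ℂ := ⟨evS x z.1, evS x z.2⟩

/-- derivative at a point -/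
def der (x : PP) (D : Derivation ℝ SS SS) (z : SS × SS) : ℂ := ⟨evS x (D z.1), evS x (D z.2)⟩

theorem val_cm (x : PP) (z w : SS × SS) : val x (cm z w) = val x z * val x w := by
  apply Complex.ext <;> simp only [val, cm, map_sub, map_add, map_mul, mul_re, mul_im]

theorem val_cj (x : PP) (z : SS × SS) : val x (cj z) = conj (val x z) := by
  apply Complex.ext <;> simp only [val, cj, map_neg, conj_re, conj_im]

theorem der_cm (x : PP) (D : Derivation ℝ SS SS) (z w : SS × SS) :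
    der x D (cm z w) = der x D z * val x w + val x z * der x D w := by
  apply Complex.ext <;> simp only [val, der, cm, map_sub, map_add, map_mul, mul_re, mul_im,
    add_re, add_im, Derivation.leibniz, smul_eq_mul] <;> ring

theorem der_cj (x : PP) (D : Derivation ℝ SS SS) (z : SS × SS) :
    der x D (cj z) = conj (der x D z) := by
  apply Complex.ext <;> simp only [der, cj, map_neg, conj_re, conj_im]

theorem der_sq (x : PP) (D : Derivation ℝ SS SS) (z : SS × SS) :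
    evS x (D (z.1 ^ 2 + z.2 ^ 2)) = 2 * (conj (val x z) * der x D z).re := by
  simp only [val, der, map_add, sq, map_mul, mul_re, conj_re, conj_im, Derivation.leibniz,
    smul_eq_mul]
  ring

def z1 : SS × SS := (co 0, co 1)
def z2 : SS × SS := (co 2, co 3)
def z3 : SS × SS := (co 4, co 5)
def z4 : SS × SS := (co 6, co 7)
def n1 : SS × SS := cm (cm z1 (cj z2)) z3
def n2 : SS × SS := cm (cm (cm z1 z1) z3) (cj z4)
def n3 : SS × SS := cm (cm z1 z2) (cj z4)
def n4 : SS × SS := cm (cm (cm (cj z2) (cj z2)) z3) z4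

theorem wts (hA : BasA) (b : Fin 2) : ∃ α β : SS, Wt (vf (Vv b)) α z1 ∧
    Wt (vf (Vv b)) (α + β) z2 ∧ Wt (vf (Vv b)) β z3 ∧ Wt (vf (Vv b)) (α + α + β) z4 := by
  fin_cases b
  · refine ⟨1, 0, ?_⟩
    simp [Wt, z1, z2, z3, z4, Vv, hA.vf_add, hA.rot_co, Rco, add_mul]
  · refine ⟨0, 1, ?_⟩
    simp [Wt, z1, z2, z3, z4, Vv, hA.vf_add, hA.rot_co, Rco]

theorem inv_all (hA : BasA) (b : Fin 2) :
    vf (Vv b) (cm z1 (cj z1)).1 = 0 ∧ vf (Vv b) (cm z3 (cj z3)).1 = 0 ∧
    (vf (Vv b) n1.1 = 0 ∧ vf (Vv b) n1.2 = 0) ∧ (vf (Vv b) n2.1 = 0 ∧ vf (Vv b) n2.2 = 0) ∧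
    (vf (Vv b) n3.1 = 0 ∧ vf (Vv b) n3.2 = 0) ∧ vf (Vv b) n4.1 = 0 ∧ vf (Vv b) n4.2 = 0 := by
  obtain ⟨α, β, h1, h2, h3, h4⟩ := wts hA b
  exact ⟨((h1.cm h1.cj).zero (by ring)).1, ((h3.cm h3.cj).zero (by ring)).1,
    ((h1.cm h2.cj).cm h3).zero (by ring), (((h1.cm h1).cm h3).cm h4.cj).zero (by ring),
    ((h1.cm h2).cm h4.cj).zero (by ring), (((h2.cj.cm h2.cj).cm h3).cm h4).zero (by ring)⟩

theorem sq_eq (z : SS × SS) : (cm z (cj z)).1 = z.1 ^ 2 + z.2 ^ 2 := by
  simp only [cm, cj]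
  ring

theorem ne_zero_or {x : PP} {z w : SS × SS} (h : z.1 ^ 2 + z.2 ^ 2 + w.1 ^ 2 + w.2 ^ 2 = 1) :
    val x z ≠ 0 ∨ val x w ≠ 0 := by
  by_contra h0
  push Not at h0
  have h1 := congrArg (evS x) h
  have a1 : evS x z.1 = 0 := congrArg Complex.re h0.1
  have a2 : evS x z.2 = 0 := congrArg Complex.im h0.1
  have a3 : evS x w.1 = 0 := congrArg Complex.re h0.2
  have a4 : evS x w.2 = 0 := congrArg Complex.im h0.2
  simp only [map_add, map_pow, map_one, a1, a2, a3, a4] at h1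
  norm_num at h1

theorem tangent {x : PP} {D : Derivation ℝ SS SS} {z w : SS × SS}
    (h : z.1 ^ 2 + z.2 ^ 2 + w.1 ^ 2 + w.2 ^ 2 = 1) (hz : evS x (D (cm z (cj z)).1) = 0) :
    (conj (val x z) * der x D z).re = 0 ∧ (conj (val x w) * der x D w).re = 0 := by
  have h1 := congrArg (fun f => evS x (D f)) h
  rw [sq_eq, der_sq] at hz
  simp only [add_assoc (z.1 ^ 2 + z.2 ^ 2), Derivation.map_one_eq_zero, map_zero] at h1
  rw [map_add, map_add, der_sq, der_sq] at h1
  constructor <;> linarith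

end ImmP

open ImmP Complex

theorem imm (hA : BasA) : S_Imm := by
  have hi := inv_all hA
  refine ⟨10, ![⟨_, fun b => (hi b).1⟩, ⟨_, fun b => (hi b).2.1⟩, ⟨_, fun b => (hi b).2.2.1.1⟩,
    ⟨_, fun b => (hi b).2.2.1.2⟩, ⟨_, fun b => (hi b).2.2.2.1.1⟩, ⟨_, fun b => (hi b).2.2.2.1.2⟩,
    ⟨_, fun b => (hi b).2.2.2.2.1.1⟩, ⟨_, fun b => (hi b).2.2.2.2.1.2⟩,
    ⟨_, fun b => (hi b).2.2.2.2.2.1⟩, ⟨_, fun b => (hi b).2.2.2.2.2.2⟩], fun x ξ h => ?_⟩
  let D := vf fun k => algebraMap ℝ SS (ξ k)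
  have hD : ∀ f, evS x (D f) = ∑ k, ξ k * (X k f).1 x := fun f => by
    simp only [D, hA.vf_apply, map_sum, map_mul, AlgHom.commutes]
    rfl
  have e0 : evS x (D (cm z1 (cj z1)).1) = 0 := (hD _).trans (h 0)
  have e1 : evS x (D (cm z3 (cj z3)).1) = 0 := (hD _).trans (h 1)
  have m1 : der x D n1 = 0 := Complex.ext ((hD _).trans (h 2)) ((hD _).trans (h 3))
  have m2 : der x D n2 = 0 := Complex.ext ((hD _).trans (h 4)) ((hD _).trans (h 5))
  have m3 : der x D n3 = 0 := Complex.ext ((hD _).trans (h 6)) ((hD _).trans (h 7))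
  have m4 : der x D n4 = 0 := Complex.ext ((hD _).trans (h 8)) ((hD _).trans (h 9))
  simp only [n1, n2, n3, n4, der_cm, der_cj, val_cm, val_cj] at m1 m2 m3 m4
  obtain ⟨r1, r2⟩ := tangent (z := z1) (w := z2) hA.rel1 e0
  obtain ⟨r3, r4⟩ := tangent (z := z3) (w := z4) hA.rel2 e1
  obtain ⟨c0, c1, f1, f2, f3, f4⟩ := core (ne_zero_or (z := z1) (w := z2) hA.rel1)
    (ne_zero_or (z := z3) (w := z4) hA.rel2) r1 r2 r3 r4 m1 m2 m3 m4
  have hv : ∀ i, evS x (D (co i)) = ∑ k, ξ k * evS x (Jco k i) := fun i => by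
    simp only [hD, hA.X_co, evS_apply]
  have g1 := congrArg (evS x) hA.rel1
  have g2 := congrArg (evS x) hA.rel2
  simp only [map_add, map_pow, map_one] at g1 g2
  simp only [Complex.ext_iff, der, ImmP.val, z1, z2, z3, z4, hv, Fin.sum_univ_six, Jco] at f1 f2 f3 f4
  simp [-evS_apply] at f1 f2 f3 f4
  refine ⟨![c0, c1], fun k => ?_⟩
  simp only [← evS_apply, Fin.sum_univ_two]
  fin_cases k <;> simp [-evS_apply, Vv, rot]
  · linear_combination (-evS x (co 1)) * f1.1 + evS x (co 0) * f1.2 - evS x (co 3) * f2.1 +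
      evS x (co 2) * f2.2 - ξ 0 * g1
  · linear_combination (-evS x (co 2)) * f1.1 + evS x (co 3) * f1.2 + evS x (co 0) * f2.1 -
      evS x (co 1) * f2.2 - ξ 1 * g1
  · linear_combination (-evS x (co 3)) * f1.1 - evS x (co 2) * f1.2 + evS x (co 1) * f2.1 +
      evS x (co 0) * f2.2 - ξ 2 * g1
  · linear_combination (-evS x (co 5)) * f3.1 + evS x (co 4) * f3.2 - evS x (co 7) * f4.1 +
      evS x (co 6) * f4.2 - ξ 3 * g2
  · linear_combination (-evS x (co 6)) * f3.1 + evS x (co 7) * f3.2 + evS x (co 4) * f4.1 -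
      evS x (co 5) * f4.2 - ξ 4 * g2
  · linear_combination (-evS x (co 7)) * f3.1 - evS x (co 6) * f3.2 + evS x (co 5) * f4.1 +
      evS x (co 4) * f4.2 - ξ 5 * g2

end Pool.Agent.P.MP_713680_gt
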