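import Pool.Agent.P.MP_713680_gt.UpSt

/-!
MP_713680_gt, package U6: rapidly decreasing series of polynomials converge to smooth functions.
-/

open scoped ContDiff

noncomputable section

namespace Pool.Agent.P.MP_713680_gt

open Finset Filter Topology

namespace LimP

theorem sum_val {ι : Type} (s : Finset ι) (f : ι → SS) (x : PP) :
    (∑ i ∈ s, f i).1 x = ∑ i ∈ s, (f i).1 x := by
  have := map_sum (evS x) f s
  simpa only [evS_apply] using this

theorem mul_val (f g : SS) (x : PP) : (f * g).1 x = f.1 x * g.1 x := rfl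

theorem smul_val (a : ℝ) (f : SS) (x : PP) : (a • f).1 x = a * f.1 x := rfl

theorem sub_val (f g : SS) (x : PP) : (f - g).1 x = f.1 x - g.1 x := rfl

theorem I_sq_pos (hB : BasB) {g : SS} (hg : g ≠ 0) : 0 < I0 (g * g) := by
  have h0 : ∀ x, 0 ≤ (g * g).1 x := fun x => by rw [mul_val]; exact mul_self_nonneg _
  refine lt_of_le_of_ne (hB.nonneg _ h0) fun h => hg ?_
  have h1 := hB.faith _ h0 h.symm
  apply Subtype.ext
  funext x
  have h2 : (g * g).1 x = 0 := by rw [h1]; rfl
  rw [mul_val] at h2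
  exact mul_self_eq_zero.mp h2

theorem I_skew (hB : BasB) (k : Fin 6) (f g : SS) : I0 (X k f * g) = - I0 (X k g * f) := by
  have h := hB.I_X k (f * g)
  rw [Derivation.leibniz, map_add, smul_eq_mul, smul_eq_mul] at h
  rw [mul_comm (X k f) g, mul_comm (X k g) f]
  linarith

/-- An orthonormal basis of a finite dimensional space of smooth functions. -/
theorem exists_onb (hB : BasB) (V : Submodule ℝ SS) [FiniteDimensional ℝ V] :
    ∃ e : Fin (Module.finrank ℝ V) → SS, (∀ i, e i ∈ V) ∧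
      (∀ i j, I0 (e i * e j) = if i = j then 1 else 0) ∧
      ∀ g ∈ V, g = ∑ i, I0 (g * e i) • e i := by
  let B : LinearMap.BilinForm ℝ V := LinearMap.mk₂ ℝ (fun f g : V => I0 (f.1 * g.1))
    (fun f f' g => by simp [add_mul]) (fun c f g => by simp)
    (fun f g g' => by simp [mul_add]) (fun c f g => by simp)
  have hBa : ∀ f g : V, B f g = I0 (f.1 * g.1) := fun _ _ => rfl
  have hs : LinearMap.IsSymm B := ⟨fun f g => by simp only [RingHom.id_apply, hBa, mul_comm]⟩
  obtain ⟨v, hv⟩ := LinearMap.BilinForm.exists_orthogonal_basis (K := ℝ) (V := V) (B := B) hs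
  have hv' : ∀ i j, i ≠ j → I0 ((v i).1 * (v j).1) = 0 := fun i j h => hv h
  have hp : ∀ i, 0 < I0 ((v i).1 * (v i).1) := fun i =>
    I_sq_pos hB fun h => v.ne_zero i (Subtype.ext h)
  let c : Fin (Module.finrank ℝ V) → ℝ := fun i => (Real.sqrt (I0 ((v i).1 * (v i).1)))⁻¹
  have hc : ∀ i, c i * c i * I0 ((v i).1 * (v i).1) = 1 := fun i => by
    have h1 := Real.mul_self_sqrt (hp i).le
    have h2 : Real.sqrt (I0 ((v i).1 * (v i).1)) ≠ 0 := (Real.sqrt_pos.mpr (hp i)).ne'
    simp only [c]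
    field_simp
    rw [sq, h1]
  have ho : ∀ i j, I0 ((c i • (v i).1) * (c j • (v j).1)) = if i = j then 1 else 0 := by
    intro i j
    rw [smul_mul_smul_comm, map_smul, smul_eq_mul]
    split_ifs with h
    · subst h; exact hc i
    · rw [hv' i j h, mul_zero]
  refine ⟨fun i => c i • (v i).1, fun i => V.smul_mem _ (v i).2, ho, fun g hg => ?_⟩
  have h1 : g = ∑ i, v.repr ⟨g, hg⟩ i • (v i).1 := by
    have := congrArg V.subtype (v.sum_repr ⟨g, hg⟩)
    rw [map_sum] at this
    simp only [map_smul, Submodule.subtype_apply] at this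
    exact this.symm
  have h2 : ∀ j, I0 (g * (c j • (v j).1)) * c j = v.repr ⟨g, hg⟩ j := by
    intro j
    have h3 : I0 (g * (v j).1) = v.repr ⟨g, hg⟩ j * I0 ((v j).1 * (v j).1) := by
      conv_lhs => rw [h1]
      rw [sum_mul, map_sum, sum_eq_single j]
      · rw [smul_mul_assoc, map_smul, smul_eq_mul]
      · intro i _ hi
        rw [smul_mul_assoc, map_smul, hv' i j hi, smul_zero]
      · simp
    rw [mul_smul_comm, map_smul, smul_eq_mul, h3]
    linear_combination (v.repr ⟨g, hg⟩ j) * hc j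
  conv_lhs => rw [h1]
  refine sum_congr rfl fun j _ => ?_
  rw [smul_smul, h2]

/-- The reproducing kernel bound. -/
theorem sup_bound (hB : BasB) (V : Submodule ℝ SS) [FiniteDimensional ℝ V]
    (hV : ∀ k, ∀ f ∈ V, X k f ∈ V) {g : SS} (hg : g ∈ V) (x : PP) :
    g.1 x ^ 2 ≤ (Module.finrank ℝ V : ℝ) * I0 (g * g) := by
  obtain ⟨e, he, ho, hr⟩ := exists_onb hB V
  have hF : ∀ k, X k (∑ i, e i * e i) = 0 := by
    intro k
    have h1 : X k (∑ i, e i * e i) = (2 : ℝ) • ∑ i, ∑ j, I0 (X k (e i) * e j) • (e i * e j) := by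
      rw [map_sum, smul_sum]
      refine sum_congr rfl fun i _ => ?_
      rw [Derivation.leibniz, smul_eq_mul, two_smul]
      have h2 : e i * X k (e i) = ∑ j, I0 (X k (e i) * e j) • (e i * e j) := by
        conv_lhs => rw [hr _ (hV k _ (he i))]
        rw [mul_sum]
        exact sum_congr rfl fun j _ => mul_smul_comm _ _ _
      rw [h2]
    have h3 : ∑ i, ∑ j, I0 (X k (e i) * e j) • (e i * e j)
        = - ∑ i, ∑ j, I0 (X k (e i) * e j) • (e i * e j) := by
      conv_lhs => rw [sum_comm]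
      rw [← sum_neg_distrib]
      refine sum_congr rfl fun i _ => ?_
      rw [← sum_neg_distrib]
      refine sum_congr rfl fun j _ => ?_
      rw [I_skew hB k (e j) (e i), neg_smul, mul_comm (e j) (e i)]
    rw [h1, two_smul]
    nth_rewrite 1 [h3]
    exact neg_add_cancel _
  obtain ⟨a, ha⟩ := hB.const _ hF
  have h4 : a = Module.finrank ℝ V := by
    have h5 : I0 (∑ i, e i * e i) = Module.finrank ℝ V := by
      rw [map_sum]
      simp [ho]
    rw [ha, Algebra.algebraMap_eq_smul_one, map_smul, hB.one, smul_eq_mul, mul_one] at h5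
    exact h5
  have h6 : ∑ i, (e i).1 x ^ 2 = Module.finrank ℝ V := by
    have := congrArg (fun f : SS => f.1 x) ha
    simp only [sum_val, mul_val] at this
    rw [← h4]
    simp only [sq]
    exact this
  have h7 : g.1 x = ∑ i, I0 (g * e i) * (e i).1 x := by
    conv_lhs => rw [hr g hg]
    rw [sum_val]
    rfl
  have h8 : I0 (g * g) = ∑ i, I0 (g * e i) ^ 2 := by
    conv_lhs => enter [2, 2]; rw [hr g hg]
    rw [mul_sum, map_sum]
    refine sum_congr rfl fun i _ => ?_
    rw [mul_smul_comm, map_smul, smul_eq_mul, sq]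
  rw [h7, h8, ← h6, mul_comm]
  exact sum_mul_sq_le_sq_mul_sq _ _ _

theorem Xw_mem (h : AmbA) (n : ℕ) (l : List (Fin 6)) {g : SS} (hg : g ∈ VV n) :
    Xw X l g ∈ VV n := by
  induction l with
  | nil => exact hg
  | cons k l ih => exact h.V_X n k _ ih

/-- Uniform summable bounds on all derivatives. -/
theorem unif (hB : BasB) (h : AmbA) (w : ℕ → SS) (hw : ∀ n, w n ∈ VV n)
    (hd : ∀ (l : List (Fin 6)) (s : ℕ), ∃ B, ∀ n : ℕ,
      ((n : ℝ) + 1) ^ s * I0 (Xw X l (w n) * Xw X l (w n)) ≤ B) (l : List (Fin 6)) :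
    ∃ u : ℕ → ℝ, Summable u ∧ ∀ n x, ‖(Xw X l (w n)).1 x‖ ≤ u n := by
  obtain ⟨B, hBd⟩ := hd l 12
  refine ⟨fun n => Real.sqrt B * (1 / ((n : ℝ) + 1) ^ 2), ?_, fun n x => ?_⟩
  · apply Summable.mul_left
    have := (summable_nat_add_iff 1).mpr (Real.summable_one_div_nat_pow.mpr (one_lt_two))
    simpa using this
  · have := h.fin n
    have h1 := sup_bound hB (VV n) (h.V_X n) (Xw_mem h n l (hw n)) x
    have h2 : (Module.finrank ℝ (VV n) : ℝ) ≤ ((n : ℝ) + 1) ^ 8 := by exact_mod_cast h.dim n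
    have h3 : 0 ≤ I0 (Xw X l (w n) * Xw X l (w n)) :=
      hB.nonneg _ fun x => by rw [mul_val]; exact mul_self_nonneg _
    have h4 := hBd n
    have hn : (0 : ℝ) < (n : ℝ) + 1 := by positivity
    have h5 : ((Xw X l (w n)).1 x * ((n : ℝ) + 1) ^ 2) ^ 2 ≤ B := by
      calc ((Xw X l (w n)).1 x * ((n : ℝ) + 1) ^ 2) ^ 2
          = (Xw X l (w n)).1 x ^ 2 * ((n : ℝ) + 1) ^ 4 := by ring
        _ ≤ (((n : ℝ) + 1) ^ 8 * I0 (Xw X l (w n) * Xw X l (w n))) * ((n : ℝ) + 1) ^ 4 :=
          mul_le_mul_of_nonneg_right (h1.trans (mul_le_mul_of_nonneg_right h2 h3)) (by positivity)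
        _ = ((n : ℝ) + 1) ^ 12 * I0 (Xw X l (w n) * Xw X l (w n)) := by ring
        _ ≤ B := h4
    have h6 := Real.abs_le_sqrt h5
    rw [abs_mul, abs_of_pos (pow_pos hn 2)] at h6
    change _ ≤ Real.sqrt B * (1 / ((n : ℝ) + 1) ^ 2)
    rw [Real.norm_eq_abs, mul_one_div, le_div_iff₀ (pow_pos hn 2)]
    exact h6

theorem cf_lin (i : Fin 8) : IsLinearMap ℝ (cf i) := by
  constructor
  · intro x y; fin_cases i <;> simp [cf]
  · intro c x; fin_cases i <;> simp [cf]

/-- The coordinates as continuous linear maps. -/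
def cfL (i : Fin 8) : EE →L[ℝ] ℝ := LinearMap.toContinuousLinearMap ((cf_lin i).mk' _)

theorem cfL_apply (i : Fin 8) (v : EE) : cfL i v = cf i v := rfl

/-- The coframe dual to `X`, extended homogeneously. -/
def ck (k : Fin 6) (y : EE) : EE →L[ℝ] ℝ :=
  ∑ i, cf i (Jv k (inc (nrm y))) • (cfL i).comp (scl ‖y.1‖⁻¹ ‖y.2‖⁻¹)

theorem ck_apply (k : Fin 6) (y v : EE) :
    ck k y v = dot (scl ‖y.1‖⁻¹ ‖y.2‖⁻¹ v) (Jv k (inc (nrm y))) := by
  simp only [ck, dot, _root_.sum_apply, _root_.smul_apply,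
    ContinuousLinearMap.comp_apply, cfL_apply, smul_eq_mul]
  exact sum_congr rfl fun i _ => mul_comm _ _

theorem ck_smooth (k : Fin 6) : ContDiffOn ℝ ∞ (ck k) UU := by
  rw [contDiffOn_clm_apply]
  intro v
  simp only [ck_apply, dot]
  refine ContDiffOn.sum fun i _ => ContDiffOn.mul ?_ ?_
  · refine (contDiff_cf i).comp_contDiffOn ?_
    intro x hx
    apply ContDiffAt.contDiffWithinAt
    have h1 : ContDiffAt ℝ ∞ (fun x : EE => ‖x.1‖) x := contDiffAt_fst.norm ℝ hx.1
    have h2 : ContDiffAt ℝ ∞ (fun x : EE => ‖x.2‖) x := contDiffAt_snd.norm ℝ hx.2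
    simp only [scl_apply]
    exact ((h1.inv (norm_ne_zero_iff.mpr hx.1)).smul contDiffAt_const).prodMk
      ((h2.inv (norm_ne_zero_iff.mpr hx.2)).smul contDiffAt_const)
  · exact (contDiff_cf i).comp_contDiffOn
      ((Jv k).contDiff.comp_contDiffOn contDiffOn_inc_nrm)

theorem fderiv_ext (hA : BasA) (g : SS) {y : EE} (hy : y ∈ UU) :
    fderiv ℝ (ext g) y = ∑ k, (X k g).1 (nrm y) • ck k y := by
  have ha : 0 < ‖y.1‖⁻¹ := inv_pos.mpr (norm_pos_iff.mpr hy.1)
  have hb : 0 < ‖y.2‖⁻¹ := inv_pos.mpr (norm_pos_iff.mpr hy.2)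
  have e1 : inc (nrm y) = scl ‖y.1‖⁻¹ ‖y.2‖⁻¹ y := inc_nrm hy
  refine ContinuousLinearMap.ext fun v => ?_
  rw [← fderiv_ext_scl g ha hb hy, ← e1, hA.chain]
  simp only [_root_.sum_apply, _root_.smul_apply, ck_apply, smul_eq_mul]
  exact sum_congr rfl fun k _ => mul_comm _ _

section Series

variable (w : ℕ → SS)

/-- The sum of the series of the derivatives. -/
def U (l : List (Fin 6)) (x : PP) : ℝ := ∑' n, (Xw X l (w n)).1 x

variable {w}

theorem U_cont (hu : ∀ l : List (Fin 6), ∃ u : ℕ → ℝ, Summable u ∧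
    ∀ n x, ‖(Xw X l (w n)).1 x‖ ≤ u n) (l : List (Fin 6)) :
    ContinuousOn (fun y => U w l (nrm y)) UU := by
  obtain ⟨u, hs, hb⟩ := hu l
  exact continuousOn_tsum (f := fun n y => ext (Xw X l (w n)) y)
    (fun n => (ext_smooth _).continuousOn) hs fun n y _ => hb n _

theorem U_deriv (hA : BasA) (hu : ∀ l : List (Fin 6), ∃ u : ℕ → ℝ, Summable u ∧
    ∀ n x, ‖(Xw X l (w n)).1 x‖ ≤ u n) (l : List (Fin 6)) {y : EE} (hy : y ∈ UU) :
    HasFDerivAt (fun y => U w l (nrm y)) (∑ k, U w (k :: l) (nrm y) • ck k y) y := by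
  choose u hs hb using hu
  have h1 : ∀ᶠ z in 𝓝 y, z ∈ UU ∧ ∀ k, ‖ck k z‖ ≤ ‖ck k y‖ + 1 := by
    refine Filter.Eventually.and (isOpen_UU.mem_nhds hy) (eventually_all.mpr fun k => ?_)
    have hc : ContinuousAt (fun z => ‖ck k z‖) y :=
      (ContinuousOn.norm (E := EE →L[ℝ] ℝ) (ck_smooth k).continuousOn).continuousAt
        (isOpen_UU.mem_nhds hy)
    exact hc.eventually (eventually_le_nhds (lt_add_one _))
  obtain ⟨r, hr, hball⟩ := Metric.eventually_nhds_iff_ball.mp h1
  have hsum : ∀ (l : List (Fin 6)) (x : PP), Summable fun n => (Xw X l (w n)).1 x :=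
    fun l x => Summable.of_norm_bounded (hs l) fun n => hb l n x
  have h2 := hasFDerivAt_tsum_of_isPreconnected (𝕜 := ℝ)
    (f := fun n z => ext (Xw X l (w n)) z)
    (f' := fun n z => ∑ k, (Xw X (k :: l) (w n)).1 (nrm z) • ck k z)
    (u := fun n => ∑ k : Fin 6, u (k :: l) n * (‖ck k y‖ + 1)) (s := Metric.ball y r)
    (x₀ := y) (x := y)
    (summable_sum fun k _ => (hs _).mul_right _) Metric.isOpen_ball
    (convex_ball y r).isPreconnected
    (fun n z hz => by
      have := (ext_diff (Xw X l (w n)) (hball z hz).1).hasFDerivAt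
      rwa [fderiv_ext hA _ (hball z hz).1] at this)
    (fun n z hz => by
      refine (norm_sum_le _ _).trans (sum_le_sum fun k _ => ?_)
      rw [norm_smul]
      exact mul_le_mul (hb _ n _) ((hball z hz).2 k) (norm_nonneg _)
        ((norm_nonneg _).trans (hb _ n (nrm z))))
    (Metric.mem_ball_self hr) (hsum l _) (Metric.mem_ball_self hr)
  rw [Summable.tsum_finsetSum fun k _ => (hsum _ _).smul_const _] at h2
  simp only [(hsum _ _).tsum_smul_const] at h2
  exact h2

theorem U_smooth (hA : BasA) (hu : ∀ l : List (Fin 6), ∃ u : ℕ → ℝ, Summable u ∧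
    ∀ n x, ‖(Xw X l (w n)).1 x‖ ≤ u n) (m : ℕ) :
    ∀ l : List (Fin 6), ContDiffOn ℝ m (fun y => U w l (nrm y)) UU := by
  induction m with
  | zero => intro l; exact contDiffOn_zero.mpr (U_cont hu l)
  | succ m ih =>
    intro l
    rw [Nat.cast_succ, contDiffOn_succ_iff_fderiv_of_isOpen isOpen_UU]
    refine ⟨fun y hy => (U_deriv hA hu l hy).differentiableAt.differentiableWithinAt,
      fun h => absurd h (by simp), ?_⟩
    have h : ContDiffOn ℝ m (fun y => ∑ k, U w (k :: l) (nrm y) • ck k y) UU := by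
      rw [contDiffOn_clm_apply]
      intro v
      simp only [_root_.sum_apply, _root_.smul_apply, smul_eq_mul]
      exact ContDiffOn.sum fun k _ => (ih (k :: l)).mul
        ((contDiffOn_clm_apply.mp (ck_smooth k) v).of_le (by exact_mod_cast le_top))
    exact h.congr fun y hy => (U_deriv hA hu l hy).fderiv

end Series

end LimP

open LimP

theorem lim (hA : BasA) (hB : BasB) (h : AmbA) : S_Lim := by
  intro w hw hd
  have hu := unif hB h w hw hd
  refine ⟨⟨U w [], contDiffOn_infty.mpr fun m => U_smooth hA hu m []⟩, ?_⟩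
  obtain ⟨u, hs, hb⟩ := hu []
  have ht := tendstoUniformly_tsum_nat (f := fun n x => (w n).1 x) hs hb
  rw [Metric.tendstoUniformly_iff] at ht
  rw [Metric.tendsto_nhds]
  intro ε hε
  have hε' : 0 < Real.sqrt (ε / 2) := Real.sqrt_pos.mpr (half_pos hε)
  filter_upwards [ht _ hε'] with n hn
  generalize hv : (⟨U w [], contDiffOn_infty.mpr fun m => U_smooth hA
    (unif hB h w hw hd) m []⟩ : SS) - ∑ i ∈ range n, w i = v
  have h1 : ∀ x, |v.1 x| < Real.sqrt (ε / 2) := by
    intro x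
    rw [← hv, sub_val, sum_val]
    exact hn x
  have h2 : 0 ≤ I0 (v * v) := hB.nonneg _ fun x => by rw [mul_val]; exact mul_self_nonneg _
  have h3 : 0 ≤ I0 ((ε / 2) • (1 : SS) - v * v) := hB.nonneg _ fun x => by
    rw [sub_val, mul_val, smul_val]
    have h4 := h1 x
    have h5 := Real.mul_self_sqrt (half_pos hε).le
    have h6 : v.1 x * v.1 x = |v.1 x| * |v.1 x| := (abs_mul_abs_self _).symm
    have h7 := mul_self_le_mul_self (abs_nonneg _) h4.le
    have h8 : (1 : SS).1 x = 1 := rfl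
    rw [h8]
    linarith
  rw [map_sub, map_smul, hB.one, smul_eq_mul, mul_one] at h3
  rw [Real.dist_eq, sub_zero, abs_of_nonneg h2]
  linarith

theorem amb (hA : BasA) (hB : BasB) (h : AmbA) : Amb evS X cc I0 VV where
  ev_inj := fun _ hf => Subtype.ext (funext hf)
  skew1 := hA.skew1
  skew2 := hA.skew2
  br := hA.br
  one := hB.one
  nonneg := hB.nonneg
  faith := hB.faith
  I_X := hB.I_X
  bdd := fun f => by
    obtain ⟨x, hx⟩ := hB.ex_max f
    obtain ⟨y, hy⟩ := hB.ex_max (-f)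
    refine ⟨max (f.1 x) ((-f).1 y), fun z => abs_le.mpr ⟨?_, (hx z).trans (le_max_left _ _)⟩⟩
    have h1 := hy z
    have h2 : (-f).1 z = - f.1 z := rfl
    have h3 := le_max_right (f.1 x) ((-f).1 y)
    rw [evS_apply]
    linarith
  fin := h.fin
  mono := h.mono
  V_X := h.V_X
  V_zero := h.V_zero
  dense := h.dense
  gap := h.gap
  lim := lim hA hB h

end Pool.Agent.P.MP_713680_gt
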