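import Pool.Agent.P.MP_713680_gt.UpSt

/-!
MP_713680_gt, package M3: functions with bounded gradient are Lipschitz for the Riemannian
distance, and every metric on a closed manifold can be scaled to diameter at most one.
-/

open Bundle Manifold Set MeasureTheory
open scoped ContDiff ENNReal Topology

noncomputable section

namespace Pool.Agent.P.MP_713680_gt

namespace LipP

variable {n : ℕ} {M : Type} [TopologicalSpace M] [ChartedSpace (En n) M] [IsManifold (𝓡 n) ∞ M]

/-- The length of a path, written without instances. -/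
def plen (g : RMetric (n := n) M) (γ : ℝ → M) : ℝ≥0∞ :=
  ∫⁻ t in Icc (0 : ℝ) 1, ENNReal.ofReal (Real.sqrt
    (g.inner (γ t) (mfderiv 𝓘(ℝ, ℝ) (𝓡 n) γ t (1 : ℝ)) (mfderiv 𝓘(ℝ, ℝ) (𝓡 n) γ t (1 : ℝ))))

lemma plen_eq (g : RMetric (n := n) M) (γ : ℝ → M) :
    letI : RiemannianBundle (fun x : M => TangentSpace (𝓡 n) x) := ⟨g.toRiemannianMetric⟩
    pathELength (𝓡 n) γ 0 1 = plen g γ := by
  let : RiemannianBundle (fun x : M => TangentSpace (𝓡 n) x) := ⟨g.toRiemannianMetric⟩
  rw [pathELength_eq_lintegral_mfderiv_Icc]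
  unfold plen
  congr 1
  funext t
  rw [← ofReal_norm, norm_eq_sqrt_real_inner]
  rfl

lemma exists_path (g : RMetric (n := n) M) {x y : M} {r : ℝ≥0∞} (h : rdist g x y < r) :
    ∃ γ : ℝ → M, γ 0 = x ∧ γ 1 = y ∧ ContMDiff 𝓘(ℝ, ℝ) (𝓡 n) 1 γ ∧ plen g γ < r := by
  let : RiemannianBundle (fun x : M => TangentSpace (𝓡 n) x) := ⟨g.toRiemannianMetric⟩
  obtain ⟨γ, h0, h1, h2, h3, -⟩ :=
    exists_lt_locally_constant_of_riemannianEDist_lt (I := 𝓡 n) h zero_lt_one
  exact ⟨γ, h0, h1, h2, by rwa [← plen_eq]⟩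

lemma rdist_le (g : RMetric (n := n) M) {γ : ℝ → M} (h : ContMDiff 𝓘(ℝ, ℝ) (𝓡 n) 1 γ) :
    rdist g (γ 0) (γ 1) ≤ plen g γ := by
  let : RiemannianBundle (fun x : M => TangentSpace (𝓡 n) x) := ⟨g.toRiemannianMetric⟩
  rw [← plen_eq]
  exact riemannianEDist_le_pathELength h.contMDiffOn rfl rfl zero_le_one

lemma rdist_triangle (g : RMetric (n := n) M) (x y z : M) :
    rdist g x z ≤ rdist g x y + rdist g y z := by
  let : RiemannianBundle (fun x : M => TangentSpace (𝓡 n) x) := ⟨g.toRiemannianMetric⟩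
  exact riemannianEDist_triangle

lemma rdist_comm (g : RMetric (n := n) M) (x y : M) : rdist g x y = rdist g y x := by
  let : RiemannianBundle (fun x : M => TangentSpace (𝓡 n) x) := ⟨g.toRiemannianMetric⟩
  exact riemannianEDist_comm

lemma rdist_self (g : RMetric (n := n) M) (x : M) : rdist g x x = 0 := by
  let : RiemannianBundle (fun x : M => TangentSpace (𝓡 n) x) := ⟨g.toRiemannianMetric⟩
  exact riemannianEDist_self

lemma rdist_near (g : RMetric (n := n) M) (x : M) : ∀ᶠ y in 𝓝 x, rdist g x y < 1 := by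
  let : RiemannianBundle (fun x : M => TangentSpace (𝓡 n) x) := ⟨g.toRiemannianMetric⟩
  have : IsContinuousRiemannianBundle (En n) (fun x : M => TangentSpace (𝓡 n) x) :=
    ⟨g.inner, g.contMDiff.continuous, fun _ _ _ => rfl⟩
  exact eventually_riemannianEDist_lt (𝓡 n) x zero_lt_one

/-- The metric as a bilinear form on the model space. -/
def inn (g : RMetric (n := n) M) (p : M) : En n →L[ℝ] En n →L[ℝ] ℝ := g.inner p

lemma cvec_self (p : M) (i : Fin n) :
    (cvec p (extChartAt (𝓡 n) p p) i : En n) = EuclideanSpace.single i 1 := by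
  have h := mfderivWithin_range_extChartAt_symm (I := 𝓡 n) (x := p)
  rw [ModelWithCorners.range_eq_univ, mfderivWithin_univ] at h
  unfold cvec
  rw [h]
  rfl

lemma gc_self (g : RMetric (n := n) M) (p : M) (i j : Fin n) :
    gc g p (extChartAt (𝓡 n) p p) i j
      = inn g p (EuclideanSpace.single i 1) (EuclideanSpace.single j 1) := by
  have e : gc g p (extChartAt (𝓡 n) p p) i j
      = inn g ((extChartAt (𝓡 n) p).symm (extChartAt (𝓡 n) p p))
        (cvec p (extChartAt (𝓡 n) p p) i : En n) (cvec p (extChartAt (𝓡 n) p p) j : En n) := rfl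
  rw [e, cvec_self, cvec_self, extChartAt_to_inv]

lemma gAt_eq (g : RMetric (n := n) M) (p : M) (u : En n) : gAt g p u u = inn g p u u := by
  unfold gAt
  have hu : u = ∑ i, u i • EuclideanSpace.single i (1 : ℝ) := by
    ext j
    simp [Finset.sum_apply, Pi.single_apply]
  conv_rhs => rw [hu]
  simp only [map_sum, map_smul, sum_apply, smul_apply,
    smul_eq_mul, gc_self, Finset.mul_sum]
  rw [Finset.sum_comm]
  refine Finset.sum_congr rfl fun i _ => Finset.sum_congr rfl fun j _ => ?_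
  ring

omit [IsManifold (𝓡 n) ∞ M] in
lemma smooth_F (F : M → ℝ)
    (h : ∀ p, ContDiffOn ℝ 1 (fun z => F ((chartAt (En n) p).symm z)) (chartAt (En n) p).target) :
    ContMDiff (𝓡 n) 𝓘(ℝ, ℝ) 1 F := by
  intro p
  rw [contMDiffAt_iff_source, ModelWithCorners.range_eq_univ, contMDiffWithinAt_univ,
    contMDiffAt_iff_contDiffAt]
  have := (h p).contDiffAt ((chartAt (En n) p).open_target.mem_nhds (mem_chart_target _ p))
  exact this

omit [IsManifold (𝓡 n) ∞ M] in
lemma mfderiv_F (F : M → ℝ) (h : ContMDiff (𝓡 n) 𝓘(ℝ, ℝ) 1 F) (p : M) (u : En n) :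
    (mfderiv (𝓡 n) 𝓘(ℝ, ℝ) F p u : ℝ)
      = fderiv ℝ (fun z => F ((chartAt (En n) p).symm z)) (chartAt (En n) p p) u := by
  rw [((h p).mdifferentiableAt one_ne_zero).mfderiv, ModelWithCorners.range_eq_univ,
    fderivWithin_univ]
  rfl

/-- The metric `c ^ 2 • g`. -/
def sclM (g : RMetric (n := n) M) (c : ℝ) (hc : 0 < c) : RMetric (n := n) M where
  inner b := (c ^ 2) • g.inner b
  symm b v w := by
    simp only [smul_apply]
    rw [g.symm b v w]
  pos b v hv := by
    simp only [smul_apply, smul_eq_mul]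
    exact mul_pos (pow_pos hc 2) (g.pos b v hv)
  isVonNBounded b := by
    refine ((g.isVonNBounded b).image
      (c⁻¹ • ContinuousLinearMap.id ℝ (TangentSpace (𝓡 n) b))).subset ?_
    intro v hv
    refine ⟨c • v, ?_, ?_⟩
    · simp only [mem_ofPred_eq, smul_apply, smul_eq_mul, map_smul] at hv ⊢
      nlinarith
    · simp [smul_smul, mul_inv_cancel₀ hc.ne']
  contMDiff := g.contMDiff.const_smul_section (a := c ^ 2)

lemma plen_scl (g : RMetric (n := n) M) (c : ℝ) (hc : 0 < c) (γ : ℝ → M) :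
    plen (sclM g c hc) γ = ENNReal.ofReal c * plen g γ := by
  unfold plen
  rw [← lintegral_const_mul' _ _ ENNReal.ofReal_ne_top]
  congr 1
  funext t
  rw [← ENNReal.ofReal_mul hc.le]
  congr 1
  show Real.sqrt (c ^ 2 * _) = _
  rw [Real.sqrt_mul (sq_nonneg c), Real.sqrt_sq hc.le]
  rfl

lemma bounded [CompactSpace M] [ConnectedSpace M] (g : RMetric (n := n) M) :
    ∃ B : ℝ≥0∞, B ≠ ⊤ ∧ ∀ x y, rdist g x y < B := by
  obtain ⟨x0⟩ : Nonempty M := inferInstance
  have hfin : ∀ y, rdist g x0 y < ⊤ := by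
    have hc : IsClopen {y | rdist g x0 y < ⊤} := by
      constructor
      · rw [← isOpen_compl_iff, isOpen_iff_mem_nhds]
        intro y hy
        filter_upwards [rdist_near g y] with z hz
        intro hz'
        apply hy
        refine (rdist_triangle g x0 z y).trans_lt ?_
        rw [rdist_comm g z y]
        exact ENNReal.add_lt_top.mpr ⟨hz', hz.trans ENNReal.one_lt_top⟩
      · rw [isOpen_iff_mem_nhds]
        intro y hy
        filter_upwards [rdist_near g y] with z hz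
        exact (rdist_triangle g x0 y z).trans_lt
          (ENNReal.add_lt_top.mpr ⟨hy, hz.trans ENNReal.one_lt_top⟩)
    have := hc.eq_univ ⟨x0, by simp [rdist_self]⟩
    intro y
    exact (this.symm ▸ mem_univ y : y ∈ {y | rdist g x0 y < ⊤})
  obtain ⟨t, -, ht⟩ := isCompact_univ.elim_nhds_subcover (fun x : M => {y | rdist g x y < 1})
    (fun x _ => rdist_near g x)
  set S := ∑ x ∈ t, rdist g x0 x with hS
  have hS' : S ≠ ⊤ := ENNReal.sum_ne_top.mpr fun x _ => (hfin x).ne
  have hb : ∀ y, rdist g x0 y ≤ S + 1 := by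
    intro y
    obtain ⟨x, hx, hxy⟩ := mem_iUnion₂.mp (ht (mem_univ y))
    refine (rdist_triangle g x0 x y).trans (add_le_add ?_ (le_of_lt hxy))
    exact Finset.single_le_sum (f := fun x => rdist g x0 x) (fun _ _ => zero_le) hx
  have h1 : S + 1 ≠ ⊤ := ENNReal.add_ne_top.mpr ⟨hS', ENNReal.one_ne_top⟩
  have h2 : S + 1 + (S + 1) ≠ ⊤ := ENNReal.add_ne_top.mpr ⟨h1, h1⟩
  refine ⟨S + 1 + (S + 1) + 1, ENNReal.add_ne_top.mpr ⟨h2, ENNReal.one_ne_top⟩, fun x y => ?_⟩
  refine lt_of_le_of_lt ?_ (ENNReal.lt_add_right h2 one_ne_zero)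
  refine (rdist_triangle g x x0 y).trans (add_le_add ?_ (hb y))
  rw [rdist_comm]
  exact hb x

end LipP

open LipP in
theorem lip : S_Lip := by
  intro n M _ _ _ g F L hL hF hd hD x y
  have hs := smooth_F F hF
  have key : ∀ δ : ℝ, 0 < δ → F x - F y ≤ L * (1 + δ) := by
    intro δ hδ
    have h1 : rdist g y x < ENNReal.ofReal (1 + δ) :=
      (hD y x).trans_lt (by rw [ENNReal.one_lt_ofReal]; linarith)
    obtain ⟨γ, g0, g1, hγ, hl⟩ := exists_path g h1
    have hc : ContDiff ℝ 1 (F ∘ γ) := contMDiff_iff_contDiff.mp (hs.comp hγ)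
    have h2 := enorm_sub_le_lintegral_deriv_of_contDiffOn_Icc hc.contDiffOn zero_le_one
    have h3 : ∫⁻ t in Icc (0 : ℝ) 1, ‖deriv (F ∘ γ) t‖ₑ ≤ ENNReal.ofReal L * plen g γ := by
      unfold plen
      rw [← lintegral_const_mul' _ _ ENNReal.ofReal_ne_top]
      refine lintegral_mono fun t => ?_
      have e1 : deriv (F ∘ γ) t = mfderiv (𝓡 n) 𝓘(ℝ, ℝ) F (γ t)
          (mfderiv 𝓘(ℝ, ℝ) (𝓡 n) γ t (1 : ℝ)) := by
        have := mfderiv_comp t ((hs (γ t)).mdifferentiableAt one_ne_zero)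
          ((hγ t).mdifferentiableAt one_ne_zero)
        rw [mfderiv_eq_fderiv] at this
        rw [← fderiv_apply_one_eq_deriv]
        exact congrArg (fun T => T (1 : ℝ)) this
      have e2' : ∀ (u : En n) (a : ℝ), a = mfderiv (𝓡 n) 𝓘(ℝ, ℝ) F (γ t) u →
          a ^ 2 ≤ L ^ 2 * inn g (γ t) u u := by
        intro u a ha
        have := hd (γ t) u
        rw [← mfderiv_F F hs, gAt_eq] at this
        rw [ha]
        exact this
      have e2 := e2' (mfderiv 𝓘(ℝ, ℝ) (𝓡 n) γ t (1 : ℝ)) _ e1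
      rw [← ENNReal.ofReal_mul hL, ← ofReal_norm]
      refine ENNReal.ofReal_le_ofReal ?_
      have e3 := Real.abs_le_sqrt e2
      rw [Real.sqrt_mul (sq_nonneg L), Real.sqrt_sq hL] at e3
      exact e3
    have h4 : ‖(F ∘ γ) 1 - (F ∘ γ) 0‖ₑ ≤ ENNReal.ofReal (L * (1 + δ)) := by
      rw [ENNReal.ofReal_mul hL]
      exact h2.trans (h3.trans (by gcongr))
    rw [← ofReal_norm, ENNReal.ofReal_le_ofReal_iff (by positivity)] at h4
    simp only [Function.comp_apply, g0, g1] at h4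
    exact (le_abs_self _).trans h4
  refine le_of_forall_pos_le_add fun ε hε => ?_
  have h5 := key (ε / (L + 1)) (by positivity)
  have h6 : L * (ε / (L + 1)) ≤ ε := by
    rw [← mul_div_assoc, div_le_iff₀ (by positivity)]
    nlinarith
  linarith

open LipP in
theorem scale : S_Scale := by
  intro n M _ _ _ _ _ _ g
  obtain ⟨B, hB, hb⟩ := bounded g
  have hc : 0 < (B.toReal + 1)⁻¹ := by positivity
  refine ⟨((B.toReal + 1)⁻¹) ^ 2, pow_pos hc 2, sclM g _ hc, fun p z => ?_, fun x y => ?_⟩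
  · ext i j
    rfl
  · obtain ⟨γ, g0, g1, hγ, hl⟩ := exists_path g (hb x y)
    have h1 := rdist_le (sclM g _ hc) hγ
    rw [g0, g1, plen_scl] at h1
    refine h1.trans ?_
    calc ENNReal.ofReal (B.toReal + 1)⁻¹ * plen g γ
        ≤ ENNReal.ofReal (B.toReal + 1)⁻¹ * ENNReal.ofReal (B.toReal + 1) := by
          gcongr
          refine hl.le.trans ?_
          conv_lhs => rw [← ENNReal.ofReal_toReal hB]
          exact ENNReal.ofReal_le_ofReal (by linarith)
      _ = 1 := by
          rw [← ENNReal.ofReal_mul hc.le, inv_mul_cancel₀ (by positivity), ENNReal.ofReal_one]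

end Pool.Agent.P.MP_713680_gt
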