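import Pool.Agent.P.MP_713680_gt.UpSt

/-! Package M1: the quotient manifold with its four charts. -/

open scoped ContDiff Manifold

noncomputable section

namespace Pool.Agent.P.MP_713680_gt

open Finset Topology

namespace ManP

/-- complex coordinates of a quaternion -/
def cx (i : Bool) (p : HH) : ℂ := if i then ⟨p.imJ, p.imK⟩ else ⟨p.re, p.imI⟩

def mk (i : Bool) (a b : ℂ) : HH :=
  if i then ⟨b.re, b.im, a.re, a.im⟩ else ⟨a.re, a.im, b.re, b.im⟩

theorem cx_mk (i : Bool) (a b : ℂ) : cx i (mk i a b) = a := by cases i <;> simp [cx, mk]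

theorem cx_mk' (i : Bool) (a b : ℂ) : cx (!i) (mk i a b) = b := by cases i <;> simp [cx, mk]

theorem cx_ext (i : Bool) {p q : HH} (h : cx i p = cx i q) (h' : cx (!i) p = cx (!i) q) :
    p = q := by
  cases i <;> simp [cx] at h h' <;> ext <;> simp [h, h']

theorem cx_smul (i : Bool) (r : ℝ) (p : HH) : cx i (r • p) = r * cx i p := by
  cases i <;> apply Complex.ext <;> simp [cx]

theorem cx_zero (i : Bool) : cx i 0 = 0 := by
  cases i <;> rfl

theorem cx_smooth (i : Bool) : ContDiff ℝ ∞ (cx i) := by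
  have h : IsLinearMap ℝ (cx i) :=
    ⟨fun x y => by cases i <;> apply Complex.ext <;> simp [cx],
      fun c x => by rw [cx_smul]; rfl⟩
  exact (LinearMap.toContinuousLinearMap (h.mk' _)).contDiff

theorem cx_ne {p : HH} (h : p ≠ 0) : ∃ i, cx i p ≠ 0 := by
  by_contra h'
  push Not at h'
  exact h (cx_ext true (by rw [h', cx_zero]) (by rw [h', cx_zero]))

def E (t : ℝ) : ℂ := Circle.exp t

theorem E_add (s t : ℝ) : E (s + t) = E s * E t := by simp [E, Circle.exp_add]

theorem E_zero : E 0 = 1 := by simp [E]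

theorem E_ne (s : ℝ) : E s ≠ 0 := Circle.coe_ne_zero _

theorem E_norm (s : ℝ) : ‖E s‖ = 1 := Circle.norm_coe _

theorem E_zpow (n : ℤ) (s : ℝ) : E (n * s) = E s ^ n := by
  rw [E, E, Circle.coe_exp, Circle.coe_exp, ← Complex.exp_int_mul]
  congr 1
  push_cast
  ring

theorem cx_rq (i : Bool) (s t : ℝ) (p : HH) :
    cx i (rq s t p) = E (if i then t else s) * cx i p := by
  cases i <;> apply Complex.ext <;>
    simp [cx, rq, E, Complex.exp_ofReal_mul_I_re, Complex.exp_ofReal_mul_I_im] <;> ring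

theorem rq_rq (s t s' t' : ℝ) (p : HH) : rq s t (rq s' t' p) = rq (s + s') (t + t') p :=
  cx_ext true (by simp [cx_rq, E_add, mul_assoc]) (by simp [cx_rq, E_add, mul_assoc])

theorem rq_zero (p : HH) : rq 0 0 p = p :=
  cx_ext true (by simp [cx_rq, E_zero]) (by simp [cx_rq, E_zero])

theorem norm_rq (s t : ℝ) (p : HH) : ‖rq s t p‖ = ‖p‖ := by
  rw [← mul_self_inj_of_nonneg (norm_nonneg _) (norm_nonneg _),
    ← Quaternion.normSq_eq_norm_mul_self, ← Quaternion.normSq_eq_norm_mul_self,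
    Quaternion.normSq_def', Quaternion.normSq_def']
  simp only [rq]
  linear_combination (p.re ^ 2 + p.imI ^ 2) * Real.cos_sq_add_sin_sq s +
    (p.imJ ^ 2 + p.imK ^ 2) * Real.cos_sq_add_sin_sq t

theorem rq_smooth (s t : ℝ) : Continuous (rq s t) := by
  have h : IsLinearMap ℝ (rq s t) :=
    ⟨fun x y => by ext <;> simp [rq] <;> ring, fun c x => by ext <;> simp [rq] <;> ring⟩
  exact (h.mk' _).continuous_of_finiteDimensional

theorem act_act (α β α' β' : ℝ) (x : EE) : act α β (act α' β' x) = act (α + α') (β + β') x := by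
  simp only [act, rq_rq]
  congr 2 <;> ring

theorem act_zero (x : EE) : act 0 0 x = x := by simp [act, rq_zero]

/-- the action on the product of spheres -/
def acP (α β : ℝ) (x : PP) : PP :=
  (⟨rq α (α + β) x.1, by rw [mem_sphere_zero_iff_norm, norm_rq, norm_S3]⟩,
    ⟨rq β (2 * α + β) x.2, by rw [mem_sphere_zero_iff_norm, norm_rq, norm_S3]⟩)

theorem inc_acP (α β : ℝ) (x : PP) : inc (acP α β x) = act α β (inc x) := rfl

theorem inc_ind : IsInducing inc := IsInducing.subtypeVal.prodMap IsInducing.subtypeVal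

theorem inc_inj : Function.Injective inc := fun x y h => by rw [← nrm_inc x, h, nrm_inc]

theorem acP_cont (α β : ℝ) : Continuous (acP α β) :=
  inc_ind.continuous_iff.2
    (((rq_smooth _ _).comp (continuous_fst.comp continuous_inc)).prodMk
      ((rq_smooth _ _).comp (continuous_snd.comp continuous_inc)))

theorem nrm_cont : ContinuousOn nrm UU :=
  inc_ind.continuousOn_iff.2 contDiffOn_inc_nrm.continuousOn

def orbS : Setoid PP where
  r := Orb
  iseqv :=
    ⟨fun x => ⟨0, 0, (act_zero _).symm⟩,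
      fun ⟨α, β, h⟩ => ⟨-α, -β, by rw [h, act_act, neg_add_cancel, neg_add_cancel, act_zero]⟩,
      fun ⟨α, β, h⟩ ⟨α', β', h'⟩ => ⟨α' + α, β' + β, by rw [h', h, act_act]⟩⟩

/-- the quotient -/
abbrev MM : Type := Quotient orbS

def pr (x : PP) : MM := Quotient.mk orbS x

theorem pr_eq (x y : PP) : pr x = pr y ↔ Orb x y := Quotient.eq

theorem pr_oq : IsOpenQuotientMap pr := by
  refine ⟨Quotient.mk_surjective, continuous_quotient_mk', fun U hU => ?_⟩
  rw [← (isQuotientMap_quotient_mk' (s := orbS)).isOpen_preimage]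
  have : (Quotient.mk' (s := orbS)) ⁻¹' (pr '' U) = ⋃ α, ⋃ β, acP α β ⁻¹' U := by
    ext x
    simp only [Set.mem_preimage, Set.mem_image, Set.mem_iUnion]
    constructor
    · rintro ⟨y, hy, h⟩
      obtain ⟨α, β, h⟩ := (pr_eq x y).1 h.symm
      exact ⟨α, β, by rwa [← inc_inj (h.trans (inc_acP α β x).symm)]⟩
    · rintro ⟨α, β, h⟩
      exact ⟨_, h, ((pr_eq x _).2 ⟨α, β, rfl⟩).symm⟩
  rw [this]
  exact isOpen_iUnion fun α => isOpen_iUnion fun β => hU.preimage (acP_cont α β)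

def a1 (i : Bool) (α β : ℝ) : ℝ := if i then α + β else α

def a2 (j : Bool) (α β : ℝ) : ℝ := if j then 2 * α + β else β

theorem act_iff (α β : ℝ) (x y : EE) : y = act α β x ↔
    ∀ i, cx i y.1 = E (a1 i α β) * cx i x.1 ∧ cx i y.2 = E (a2 i α β) * cx i x.2 := by
  constructor
  · rintro rfl i
    exact ⟨cx_rq i _ _ _, cx_rq i _ _ _⟩
  · intro h
    exact Prod.ext
      (cx_ext true ((h true).1.trans (cx_rq true _ _ _).symm)
        ((h false).1.trans (cx_rq false _ _ _).symm))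
      (cx_ext true ((h true).2.trans (cx_rq true _ _ _).symm)
        ((h false).2.trans (cx_rq false _ _ _).symm))

theorem orb_closed : IsClosed {q : PP × PP | pr q.1 = pr q.2} := by
  have : {q : PP × PP | pr q.1 = pr q.2} = Prod.snd '' {r : (Circle × Circle) × (PP × PP) |
      (cx true r.2.2.1 = r.1.1 * r.1.2 * cx true r.2.1.1 ∧
        cx true r.2.2.2 = r.1.1 * r.1.1 * r.1.2 * cx true r.2.1.2) ∧
      cx false r.2.2.1 = r.1.1 * cx false r.2.1.1 ∧
        cx false r.2.2.2 = r.1.2 * cx false r.2.1.2} := by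
    ext ⟨x, y⟩
    simp only [Set.mem_ofPred_eq, pr_eq, Orb, act_iff, Bool.forall_bool, a1, a2, Set.mem_image,
      Prod.exists, two_mul, E_add, inc, if_true, Bool.false_eq_true, if_false]
    constructor
    · rintro ⟨α, β, h1, h2⟩
      exact ⟨Circle.exp α, Circle.exp β, x.1, x.2, y.1, y.2, ⟨h2, h1⟩, rfl⟩
    · rintro ⟨s, t, x1, x2, y1, y2, ⟨h2, h1⟩, h⟩
      cases h
      refine ⟨Complex.arg s, Complex.arg t, ?_⟩
      simp only [E, Circle.exp_arg]
      exact ⟨h1, h2⟩
  rw [this]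
  have c := fun i => (cx_smooth i).continuous
  refine isClosedMap_snd_of_compactSpace _ (((isClosed_eq ?_ ?_).inter (isClosed_eq ?_ ?_)).inter
    ((isClosed_eq ?_ ?_).inter (isClosed_eq ?_ ?_))) <;> fun_prop

instance : T2Space MM := (t2Space_iff_of_isOpenQuotientMap pr_oq).2 orb_closed

instance : ConnectedSpace S3 :=
  isConnected_iff_connectedSpace.1
    (isConnected_sphere (by rw [Quaternion.rank_eq_four]; norm_num) _ zero_le_one)

/-- direction of a complex number -/
def un (z : ℂ) : ℂ := z / (‖z‖ : ℝ)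

theorem un_E (t : ℝ) (z : ℂ) : un (E t * z) = E t * un z := by
  rw [un, un, norm_mul, E_norm, one_mul, mul_div_assoc]

theorem un_pos {r : ℝ} (hr : 0 < r) (z : ℂ) : un (r * z) = un z := by
  rw [un, un, norm_mul, Complex.norm_real, Real.norm_of_nonneg hr.le, Complex.ofReal_mul,
    mul_div_mul_left _ _ (Complex.ofReal_ne_zero.2 hr.ne')]

theorem un_one : un 1 = 1 := by simp [un]

theorem polar (z : ℂ) : z = (‖z‖ : ℝ) * E (Complex.arg z) := by
  rw [E, Circle.coe_exp, Complex.norm_mul_exp_arg_mul_I]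

theorem un_eq {z : ℂ} (h : z ≠ 0) : un z = E (Complex.arg z) := by
  rw [un, div_eq_iff (Complex.ofReal_ne_zero.2 (norm_ne_zero_iff.2 h)), mul_comm]
  exact polar z

theorem smooth_norm {f : EE → ℂ} {x : EE} (hf : ContDiffAt ℝ ∞ f x) (h : f x ≠ 0) :
    ContDiffAt ℝ ∞ (fun y => ((‖f y‖ : ℝ) : ℂ)⁻¹) x :=
  (Complex.ofRealCLM.contDiff.contDiffAt.comp x (hf.norm ℝ h)).inv
    (Complex.ofReal_ne_zero.2 (norm_ne_zero_iff.2 h))

theorem smooth_un {f : EE → ℂ} {x : EE} (hf : ContDiffAt ℝ ∞ f x) (h : f x ≠ 0) (n : ℤ) :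
    ContDiffAt ℝ ∞ (fun y => un (f y) ^ n) x := by
  have h1 : ContDiffAt ℝ ∞ (fun y => un (f y)) x := by
    simp only [un, div_eq_mul_inv]
    exact hf.mul (smooth_norm hf h)
  obtain ⟨m, rfl | rfl⟩ := n.eq_nat_or_neg
  · simp only [zpow_natCast]
    exact h1.pow m
  · simp only [zpow_neg, zpow_natCast]
    exact (h1.pow m).inv (pow_ne_zero _ (by rw [un_eq h]; exact E_ne _))

/-- a pair of complex numbers as a point of the model space -/
def toE (z w : ℂ) : En 4 := WithLp.toLp 2 ![z.re, z.im, w.re, w.im]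

/-- the integers expressing the remaining weights -/
def ea (_ j : Bool) : ℤ := if j then -1 else 1
def eb (i j : Bool) : ℤ := if i then (if j then 1 else -1) else 1
def ec (i j : Bool) : ℤ := if i then 2 else (if j then -2 else 2)
def ed (i _ : Bool) : ℤ := if i then -1 else 1

theorem a1_eq (i j : Bool) (α β : ℝ) :
    a1 (!i) α β = ea i j * a1 i α β + eb i j * a2 j α β := by
  cases i <;> cases j <;> simp [a1, a2, ea, eb] <;> ring

theorem a2_eq (i j : Bool) (α β : ℝ) :
    a2 (!j) α β = ec i j * a1 i α β + ed i j * a2 j α β := by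
  cases i <;> cases j <;> simp [a1, a2, ec, ed] <;> ring

theorem a_surj (i j : Bool) (A B : ℝ) : ∃ α β, a1 i α β = A ∧ a2 j α β = B := by
  cases i <;> cases j
  · exact ⟨A, B, rfl, rfl⟩
  · exact ⟨A, B - 2 * A, rfl, by simp [a2]⟩
  · exact ⟨A - B, B, by simp [a1], rfl⟩
  · exact ⟨B - A, 2 * A - B, by simp [a1]; ring, by simp [a2]; ring⟩

variable (i j : Bool)

def W : Set EE := {x | cx i x.1 ≠ 0 ∧ cx j x.2 ≠ 0}

def z1 (x : EE) : ℂ := cx (!i) x.1 * un (cx i x.1) ^ (-ea i j) * un (cx j x.2) ^ (-eb i j) *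
  ((‖cx i x.1‖ : ℝ) : ℂ)⁻¹

def z2 (x : EE) : ℂ := cx (!j) x.2 * un (cx i x.1) ^ (-ec i j) * un (cx j x.2) ^ (-ed i j) *
  ((‖cx j x.2‖ : ℝ) : ℂ)⁻¹

def ph (x : EE) : En 4 := toE (z1 i j x) (z2 i j x)

def sg (z : En 4) : EE := (mk i 1 ⟨z 0, z 1⟩, mk j 1 ⟨z 2, z 3⟩)

theorem W_open : IsOpen (W i j) :=
  (isOpen_ne_fun ((cx_smooth i).continuous.comp continuous_fst) continuous_const).inter
    (isOpen_ne_fun ((cx_smooth j).continuous.comp continuous_snd) continuous_const)

theorem W_sub {x : EE} (h : x ∈ W i j) : x ∈ UU :=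
  ⟨fun e => h.1 (by rw [e, cx_zero]), fun e => h.2 (by rw [e, cx_zero])⟩

theorem W_scl {a b : ℝ} (ha : 0 < a) (hb : 0 < b) (x : EE) : scl a b x ∈ W i j ↔ x ∈ W i j := by
  simp [W, scl_apply, cx_smul, ha.ne', hb.ne']

theorem W_act (α β : ℝ) (x : EE) : act α β x ∈ W i j ↔ x ∈ W i j := by
  have h := (act_iff α β x _).1 rfl
  simp [W, h, E_ne]

theorem ph_scl {a b : ℝ} (ha : 0 < a) (hb : 0 < b) (x : EE) : ph i j (scl a b x) = ph i j x := by
  have ha' := Complex.ofReal_ne_zero.2 ha.ne'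
  have hb' := Complex.ofReal_ne_zero.2 hb.ne'
  simp only [ph, z1, z2, scl_apply, cx_smul, un_pos ha, un_pos hb, norm_mul, Complex.norm_real,
    Real.norm_of_nonneg ha.le, Real.norm_of_nonneg hb.le, Complex.ofReal_mul, mul_inv]
  congr 1 <;> field_simp

theorem ph_act (α β : ℝ) (x : EE) : ph i j (act α β x) = ph i j x := by
  have h := (act_iff α β x _).1 rfl
  have h1 := E_ne (a1 i α β)
  have h2 := E_ne (a2 j α β)
  simp only [ph, z1, z2, h, un_E, norm_mul, E_norm, one_mul, a1_eq i j, a2_eq i j, E_add, E_zpow,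
    mul_zpow, zpow_neg]
  congr 1 <;> field_simp

theorem ph_smooth : ContDiffOn ℝ ∞ (ph i j) (W i j) := by
  have c1 : ∀ i x, ContDiffAt ℝ ∞ (fun y : EE => cx i y.1) x := fun i x =>
    ((cx_smooth i).comp contDiff_fst).contDiffAt
  have c2 : ∀ i x, ContDiffAt ℝ ∞ (fun y : EE => cx i y.2) x := fun i x =>
    ((cx_smooth i).comp contDiff_snd).contDiffAt
  have h1 : ContDiffOn ℝ ∞ (z1 i j) (W i j) := fun x hx =>
    ((((c1 _ x).mul (smooth_un (c1 i x) hx.1 _)).mul (smooth_un (c2 j x) hx.2 _)).mul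
      (smooth_norm (c1 i x) hx.1)).contDiffWithinAt
  have h2 : ContDiffOn ℝ ∞ (z2 i j) (W i j) := fun x hx =>
    ((((c2 _ x).mul (smooth_un (c1 i x) hx.1 _)).mul (smooth_un (c2 j x) hx.2 _)).mul
      (smooth_norm (c2 j x) hx.2)).contDiffWithinAt
  refine contDiffOn_euclidean.2 fun k => ?_
  fin_cases k
  · exact Complex.reCLM.contDiff.comp_contDiffOn h1
  · exact Complex.imCLM.contDiff.comp_contDiffOn h1
  · exact Complex.reCLM.contDiff.comp_contDiffOn h2
  · exact Complex.imCLM.contDiff.comp_contDiffOn h2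

theorem mk_smooth (k l : Fin 4) : ContDiff ℝ ∞ (fun z : En 4 => mk i 1 ⟨z k, z l⟩) := by
  have h : IsLinearMap ℝ (fun z : En 4 => mk i 0 ⟨z k, z l⟩) :=
    ⟨fun x y => by cases i <;> ext <;> simp [mk], fun c x => by cases i <;> ext <;> simp [mk]⟩
  have e : (fun z : En 4 => mk i 1 ⟨z k, z l⟩) = fun z => mk i 1 0 + mk i 0 ⟨z k, z l⟩ := by
    funext z
    cases i <;> ext <;> simp [mk]
  rw [e]
  exact contDiff_const.add (LinearMap.toContinuousLinearMap (h.mk' _)).contDiff

theorem sg_smooth : ContDiff ℝ ∞ (sg i j) := (mk_smooth i 0 1).prodMk (mk_smooth j 2 3)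

theorem sg_mem (z : En 4) : sg i j z ∈ W i j := by simp [W, sg, cx_mk]

theorem ph_sg (z : En 4) : ph i j (sg i j z) = z := by
  simp only [ph, z1, z2, sg, cx_mk, cx_mk', un_one, one_zpow, norm_one, mul_one,
    Complex.ofReal_one, inv_one]
  ext k
  fin_cases k <;> rfl

theorem W_nrm {x : EE} (h : x ∈ UU) : inc (nrm x) ∈ W i j ↔ x ∈ W i j := by
  rw [inc_nrm h]
  exact W_scl i j (inv_pos.2 (norm_pos_iff.2 h.1)) (inv_pos.2 (norm_pos_iff.2 h.2)) x

theorem ph_nrm {x : EE} (h : x ∈ UU) : ph i j (inc (nrm x)) = ph i j x := by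
  rw [inc_nrm h]
  exact ph_scl i j (inv_pos.2 (norm_pos_iff.2 h.1)) (inv_pos.2 (norm_pos_iff.2 h.2)) x

theorem sg_ph {x : PP} (h : inc x ∈ W i j) : Orb x (nrm (sg i j (ph i j (inc x)))) := by
  obtain ⟨α, β, h1, h2⟩ := a_surj i j (-Complex.arg (cx i (inc x).1)) (-Complex.arg (cx j (inc x).2))
  have hy := (act_iff α β (inc x) _).1 rfl
  have n1 := norm_pos_iff.2 h.1
  have n2 := norm_pos_iff.2 h.2
  have key : ∀ z : ℂ, E (-Complex.arg z) * z = (‖z‖ : ℝ) := fun z => by
    nth_rewrite 2 [polar z]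
    rw [mul_left_comm, ← E_add, neg_add_cancel, E_zero, mul_one]
  have e1 : cx i (act α β (inc x)).1 = (‖cx i (inc x).1‖ : ℝ) := by rw [(hy i).1, h1, key]
  have e2 : cx j (act α β (inc x)).2 = (‖cx j (inc x).2‖ : ℝ) := by rw [(hy j).2, h2, key]
  have u1 := un_pos n1 1
  have u2 := un_pos n2 1
  rw [mul_one, un_one] at u1 u2
  have : sg i j (ph i j (inc x)) =
      scl ‖cx i (inc x).1‖⁻¹ ‖cx j (inc x).2‖⁻¹ (act α β (inc x)) := by
    rw [← ph_act i j α β]
    refine Prod.ext (cx_ext i ?_ ?_) (cx_ext j ?_ ?_)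
    · simp [sg, cx_mk, scl_apply, cx_smul, e1, n1.ne']
    · simp only [sg, cx_mk', scl_apply, cx_smul]
      change z1 i j _ = _
      simp only [z1, e1, e2, u1, u2, one_zpow, one_mul, Complex.norm_real, norm_norm,
        Complex.ofReal_inv, mul_comm]
    · simp [sg, cx_mk, scl_apply, cx_smul, e2, n2.ne']
    · simp only [sg, cx_mk', scl_apply, cx_smul]
      change z2 i j _ = _
      simp only [z2, e1, e2, u1, u2, one_zpow, one_mul, Complex.norm_real, norm_norm,
        Complex.ofReal_inv, mul_comm]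
  rw [this, nrm_scl (inv_pos.2 n1) (inv_pos.2 n2), ← inc_acP, nrm_inc]
  exact ⟨α, β, rfl⟩

theorem out_W (x : PP) : inc (pr x).out ∈ W i j ↔ inc x ∈ W i j := by
  obtain ⟨α, β, h⟩ := (pr_eq x (pr x).out).1 (Quotient.out_eq _).symm
  rw [h, W_act]

theorem out_ph (x : PP) : ph i j (inc (pr x).out) = ph i j (inc x) := by
  obtain ⟨α, β, h⟩ := (pr_eq x (pr x).out).1 (Quotient.out_eq _).symm
  rw [h, ph_act]

/-- the chart -/
def ch : OpenPartialHomeomorph MM (En 4) where
  toFun m := ph i j (inc m.out)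
  invFun z := pr (nrm (sg i j z))
  source := {m | inc m.out ∈ W i j}
  target := Set.univ
  map_source' _ _ := trivial
  map_target' z _ := (out_W i j _).2 ((W_nrm i j (W_sub i j (sg_mem i j z))).2 (sg_mem i j z))
  left_inv' m h := ((pr_eq _ _).2 (sg_ph i j h)).symm.trans (Quotient.out_eq m)
  right_inv' z _ := by rw [out_ph, ph_nrm i j (W_sub i j (sg_mem i j z)), ph_sg]
  continuousOn_toFun m h := by
    obtain ⟨x, rfl⟩ := pr_oq.surjective m
    refine (pr_oq.continuousAt_comp_iff.1 ?_).continuousWithinAt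
    have : (fun m : MM => ph i j (inc m.out)) ∘ pr = ph i j ∘ inc := funext (out_ph i j)
    rw [this]
    exact ((ph_smooth i j).continuousOn.continuousAt
      ((W_open i j).mem_nhds ((out_W i j x).1 h))).comp continuous_inc.continuousAt
  continuousOn_invFun := (pr_oq.continuous.comp (nrm_cont.comp_continuous
    (sg_smooth i j).continuous fun z => W_sub i j (sg_mem i j z))).continuousOn
  open_source := by
    rw [← pr_oq.isQuotientMap.isOpen_preimage]
    have : pr ⁻¹' {m | inc m.out ∈ W i j} = inc ⁻¹' W i j := Set.ext (out_W i j)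
    rw [this]
    exact (W_open i j).preimage continuous_inc
  open_target := isOpen_univ

theorem cover (m : MM) : ∃ k : Bool × Bool, inc m.out ∈ W k.1 k.2 := by
  obtain ⟨i, hi⟩ := cx_ne (inc_mem m.out).1
  obtain ⟨j, hj⟩ := cx_ne (inc_mem m.out).2
  exact ⟨(i, j), hi, hj⟩

def ix (m : MM) : Bool × Bool := (cover m).choose

instance : ChartedSpace (En 4) MM where
  atlas := Set.range fun k : Bool × Bool => ch k.1 k.2
  chartAt m := ch (ix m).1 (ix m).2
  mem_chart_source m := (cover m).choose_spec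
  chart_mem_atlas m := ⟨ix m, rfl⟩

theorem W_iff (x : EE) : x ∈ W i j ↔ x ∈ UU ∧ pr (nrm x) ∈ (ch i j).source :=
  ⟨fun h => ⟨W_sub i j h, (out_W i j _).2 ((W_nrm i j (W_sub i j h)).2 h)⟩,
    fun h => (W_nrm i j h.1).1 ((out_W i j _).1 h.2)⟩

theorem ph_eq {x : EE} (h : x ∈ W i j) : ph i j x = ch i j (pr (nrm x)) :=
  ((out_ph i j _).trans (ph_nrm i j (W_sub i j h))).symm

instance : IsManifold (𝓡 4) ∞ MM := by
  refine isManifold_of_contDiffOn _ _ _ ?_
  rintro _ _ ⟨⟨i, j⟩, rfl⟩ ⟨⟨k, l⟩, rfl⟩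
  have h : ∀ z ∈ (ch i j).target ∩ (ch i j).symm ⁻¹' (ch k l).source, sg i j z ∈ W k l :=
    fun z hz => (W_iff k l _).2 ⟨W_sub i j (sg_mem i j z), hz.2⟩
  simp only [mfld_simps]
  exact ((ph_smooth k l).comp (sg_smooth i j).contDiffOn h).congr
    fun z hz => (ph_eq k l (h z hz)).symm

end ManP

open ManP in
theorem man : S_Man :=
  ⟨{ M := MM
     π := pr
     W := fun p => W (ix p).1 (ix p).2
     φ := fun p => ph (ix p).1 (ix p).2
     σ := fun p => sg (ix p).1 (ix p).2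
     surj := pr_oq.surjective
     fib := pr_eq
     target := fun _ => rfl
     W_open := fun _ => W_open _ _
     W_iff := fun _ => W_iff _ _
     φ_smooth := fun _ => ph_smooth _ _
     φ_eq := fun _ _ h => ph_eq _ _ h
     σ_smooth := fun _ => sg_smooth _ _
     σ_mem := fun _ => sg_mem _ _
     σ_eq := fun _ _ => rfl }⟩

end Pool.Agent.P.MP_713680_gt
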