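import Pool.Agent.P.MP_713680_gt.UpSt

/-!
MP_713680_gt, package U10: functional calculus, maximum principle, positivity of the integral and
existence of minimisers for the calculus of an invariant frame.
-/

open scoped ContDiff

noncomputable section

namespace Pool.Agent.P.MP_713680_gt

open Finset

namespace MiscP

theorem ext_SS {f g : SS} (h : ∀ x, f.1 x = g.1 x) : f = g := Subtype.ext (funext h)

theorem ext_AA {f g : AA} (h : ∀ x, f.1.1 x = g.1.1 x) : f = g := Subtype.ext (ext_SS h)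

theorem vf_ev (hA : BasA) (u : Fin 6 → SS) (f : SS) (x : PP) :
    evS x (vf u f) = ∑ k, evS x (u k) * evS x (X k f) := by
  rw [hA.vf_apply, map_sum]
  exact sum_congr rfl fun k _ => map_mul _ _ _

theorem compA (hA : BasA) (hB : BasB) (Φ : ℝ → ℝ) (f : AA) (hΦ : ContDiffOn ℝ ∞ Φ (Set.Ioi 0))
    (hf : ∀ x, 0 < f.1.1 x) :
    ∃ g : AA, (∀ x, g.1.1 x = Φ (f.1.1 x)) ∧
      ∀ u x, evS x (vf u g.1) = deriv Φ (f.1.1 x) * evS x (vf u f.1) := by
  obtain ⟨g, hg, hX⟩ := hB.comp Φ f.1 hΦ hf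
  have key : ∀ u x, evS x (vf u g) = deriv Φ (f.1.1 x) * evS x (vf u f.1) := by
    intro u x
    rw [vf_ev hA, vf_ev hA, mul_sum]
    refine sum_congr rfl fun k _ => ?_
    rw [evS_apply x (X k g), hX k x, evS_apply x (X k f.1)]
    ring
  have hm : g ∈ AA := by
    rw [mem_AA]
    intro b
    apply ext_SS
    intro x
    have h1 := key (Vv b) x
    rw [mem_AA.mp f.2 b, map_zero, mul_zero] at h1
    exact h1
  exact ⟨⟨g, hm⟩, hg, key⟩

theorem invA (hA : BasA) (hB : BasB) (f : AA) (hf : ∀ x, 0 < f.1.1 x) : ∃ g : AA, f * g = 1 := by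
  have hΦ : ContDiffOn ℝ ∞ (fun t : ℝ => t⁻¹) (Set.Ioi 0) :=
    contDiffOn_id.inv fun x hx => (Set.mem_Ioi.mp hx).ne'
  obtain ⟨g, hg, -⟩ := compA hA hB _ f hΦ hf
  refine ⟨g, ext_AA fun x => ?_⟩
  change f.1.1 x * g.1.1 x = 1
  rw [hg x, mul_inv_cancel₀ (hf x).ne']

variable {md : MD} {ι : Type} [Fintype ι] {fr : Frame md ι} {C : Calc PP AA ι}

theorem ev_eq (hC : Compat fr C) (x : PP) (f : AA) : C.ev x f = f.1.1 x := by
  rw [hC.ev]; rfl

theorem ev_Y (hC : Compat fr C) (x : PP) (a : ι) (f : AA) :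
    C.ev x (C.Y a f) = evS x (vf (fr.y a) f.1) := by
  rw [ev_eq hC, hC.Y]; rfl

theorem fn (hA : BasA) (hB : BasB) (hC : Compat fr C) : C.Fun where
  inv f hf := invA hA hB f fun x => by rw [← ev_eq hC]; exact hf x
  sqrt f hf := by
    have hf' : ∀ x, 0 < f.1.1 x := fun x => by rw [← ev_eq hC]; exact hf x
    have hΦ : ContDiffOn ℝ ∞ (fun t : ℝ => Real.sqrt t) (Set.Ioi 0) :=
      contDiffOn_id.sqrt fun x hx => (Set.mem_Ioi.mp hx).ne'
    obtain ⟨g, hg, -⟩ := compA hA hB _ f hΦ hf'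
    refine ⟨g, fun x => ?_, ext_AA fun x => ?_⟩
    · rw [ev_eq hC, hg x]; exact Real.sqrt_pos.mpr (hf' x)
    · change g.1.1 x * g.1.1 x = f.1.1 x
      rw [hg x, Real.mul_self_sqrt (hf' x).le]
  log f hf := by
    have hf' : ∀ x, 0 < f.1.1 x := fun x => by rw [← ev_eq hC]; exact hf x
    have hΦ : ContDiffOn ℝ ∞ (fun t : ℝ => Real.log t) (Set.Ioi 0) :=
      contDiffOn_id.log fun x hx => (Set.mem_Ioi.mp hx).ne'
    obtain ⟨g, hg, hX⟩ := compA hA hB _ f hΦ hf'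
    refine ⟨g, fun x => by rw [ev_eq hC, ev_eq hC, hg x], fun a => ?_⟩
    refine ext_AA fun x => ?_
    change f.1.1 x * (C.Y a g).1.1 x = (C.Y a f).1.1 x
    rw [← ev_eq hC x (C.Y a g), ← ev_eq hC x (C.Y a f), ev_Y hC, ev_Y hC, hX]
    have hd : deriv (fun t : ℝ => Real.log t) (f.1.1 x) = (f.1.1 x)⁻¹ := Real.deriv_log _
    rw [hd, ← mul_assoc, mul_inv_cancel₀ (hf' x).ne', one_mul]

theorem maxp (hA : BasA) (hB : BasB) (hC : Compat fr C) : C.MaxP where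
  ex f := by
    obtain ⟨x, hx⟩ := hB.ex_max f.1
    exact ⟨x, fun y => by rw [ev_eq hC, ev_eq hC]; exact hx y⟩
  first f x hx a := by
    have hx' : ∀ y, f.1.1 y ≤ f.1.1 x := fun y => by rw [← ev_eq hC, ← ev_eq hC]; exact hx y
    rw [ev_Y hC, vf_ev hA]
    refine sum_eq_zero fun k _ => ?_
    rw [evS_apply x (X k f.1), hB.first f.1 x hx' k, mul_zero]
  second f x hx a := by
    have hx' : ∀ y, f.1.1 y ≤ f.1.1 x := fun y => by rw [← ev_eq hC, ← ev_eq hC]; exact hx y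
    rw [ev_Y hC, hC.Y, vf_ev hA]
    refine le_of_eq_of_le ?_ (hB.second f.1 x hx' fun k => evS x (fr.y a k))
    refine sum_congr rfl fun k _ => ?_
    rw [hA.vf_apply, map_sum, map_sum, mul_sum]
    refine sum_congr rfl fun l _ => ?_
    rw [Derivation.leibniz, map_add, smul_eq_mul, smul_eq_mul, map_mul, map_mul,
      evS_apply x (X l f.1), hB.first f.1 x hx' l, evS_apply x (X k (X l f.1))]
    ring

theorem I0_pos (hB : BasB) (ψ : SS) (hψ : ∀ x, 0 < ψ.1 x) : 0 < I0 ψ := by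
  refine lt_of_le_of_ne (hB.nonneg ψ fun x => (hψ x).le) fun h => ?_
  have h0 := hB.faith ψ (fun x => (hψ x).le) h.symm
  have h1 := hψ 1
  rw [h0] at h1
  exact lt_irrefl _ h1

theorem posI (hB : BasB) (hC : Compat fr C) (ψ : AA) (hψ : ∀ x, 0 < ψ.1.1 x) :
    C.PosI (IA ψ) where
  one := by
    rw [IA_apply]
    change (I0 ψ.1)⁻¹ * I0 (ψ.1 * 1) = 1
    rw [mul_one, inv_mul_cancel₀ (I0_pos hB ψ.1 hψ).ne']
  nonneg f hf := by
    rw [IA_apply]
    refine mul_nonneg (inv_pos.mpr (I0_pos hB ψ.1 hψ)).le (hB.nonneg _ fun x => ?_)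
    have := hf x
    rw [ev_eq hC] at this
    exact mul_nonneg (hψ x).le this
  faith f hf h0 := by
    rw [IA_apply] at h0
    have h1 : I0 (ψ.1 * f.1) = 0 :=
      (mul_eq_zero.mp h0).resolve_left (inv_pos.mpr (I0_pos hB ψ.1 hψ)).ne'
    have h2 := hB.faith _ (fun x => by
      have := hf x
      rw [ev_eq hC] at this
      exact mul_nonneg (hψ x).le this) h1
    refine ext_AA fun x => ?_
    have h3 : ψ.1.1 x * f.1.1 x = 0 := congrFun (congrArg Subtype.val h2) x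
    exact (mul_eq_zero.mp h3).resolve_left (hψ x).ne'

theorem I0_V (hA : BasA) (hB : BasB) (b : Fin 2) (F : SS) : I0 (vf (Vv b) F) = 0 := by
  have h : vf (Vv b) F = ∑ k, X k (Vv b k * F) - F * ∑ k, X k (Vv b k) := by
    rw [hA.vf_apply, mul_sum, ← sum_sub_distrib]
    refine sum_congr rfl fun k _ => ?_
    rw [Derivation.leibniz, smul_eq_mul, smul_eq_mul]
    ring
  rw [h, hA.div_V, mul_zero, sub_zero, map_sum]
  exact sum_eq_zero fun k _ => hB.I_X k _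

theorem V_skew (hA : BasA) (hB : BasB) (b : Fin 2) (g h : SS) :
    I0 (vf (Vv b) g * h) = -1 * I0 (g * vf (Vv b) h) := by
  have h1 := I0_V hA hB b (g * h)
  rw [Derivation.leibniz, smul_eq_mul, smul_eq_mul, map_add, mul_comm h] at h1
  linarith

/-- The elliptic system upstairs. -/
def sys (fr : Frame md ι) (ψ ψ' : AA) (c : ℝ) (hc : 0 < c) (hψ : ∀ x, 0 < ψ.1.1 x)
    (hi : ψ * ψ' = 1) {κ : Type} (B : ι → κ → κ → AA) (Q : κ → κ → AA)
    (hQ : ∀ i j, Q i j = Q j i) : Sys evS (Fin 6) (ι ⊕ Fin 2) κ where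
  y := Sum.elim fr.y Vv
  η k := Sum.elim (fun a => gq md.g (Pi.single k 1) (fr.y a))
    (fun b => ip1 (fr.al b) (Pi.single k 1))
  ψ := c⁻¹ • ψ.1
  ψ' := c • ψ'.1
  B := Sum.elim (fun a i j => (B a i j).1) (fun _ _ _ => 0)
  Q i j := (Q i j).1
  ell k l := by
    have h := congrFun (fr.pars (Pi.single k 1)) l
    rw [Pi.add_apply, Finset.sum_apply, Finset.sum_apply] at h
    rw [Fintype.sum_sum_type]
    simp only [Sum.elim_inl, Sum.elim_inr]
    simp only [Pi.smul_apply, smul_eq_mul] at h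
    rw [h, Pi.single_apply]
    simp only [eq_comm]
  inv := by
    have h : ψ.1 * ψ'.1 = 1 := congrArg Subtype.val hi
    rw [smul_mul_smul_comm, h, inv_mul_cancel₀ hc.ne', one_smul]
  pos x := by
    rw [map_smul, smul_eq_mul]
    exact mul_pos (inv_pos.mpr hc) (hψ x)
  symm i j := by rw [hQ]

section Sys

variable {ψ ψ' : AA} {hc : 0 < I0 ψ.1} {hψ : ∀ x, 0 < ψ.1.1 x} {hi : ψ * ψ' = 1} {κ : Type}
  [Fintype κ] {B : ι → κ → κ → AA} {Q : κ → κ → AA} {hQ : ∀ i j, Q i j = Q j i}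

omit [Fintype κ] in
theorem I_eq (F : AA) : I0 ((sys fr ψ ψ' (I0 ψ.1) hc hψ hi B Q hQ).ψ * F.1) = IA ψ F := by
  rw [IA_apply]
  change I0 (((I0 ψ.1)⁻¹ • ψ.1) * F.1) = _
  rw [smul_mul_assoc, map_smul, smul_eq_mul]

theorem ip1_val (u v : κ → AA) : ip1 (fun i => (u i).1) (fun i => (v i).1) = (ip1 u v).1 := by
  unfold ip1
  rw [AddSubmonoidClass.coe_finsetSum]
  rfl

theorem be_eq (τ σ : ℝ) (f u v : κ → AA) :
    (sys fr ψ ψ' (I0 ψ.1) hc hψ hi B Q hQ).be I0 τ σ (fun i => (f i).1) (fun i => (u i).1)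
      (fun i => (v i).1) = Calc.be (IA ψ) τ σ f u v := by
  unfold Sys.be Calc.be
  rw [ip1_val, ip1_val, ip1_val, I_eq, I_eq, I_eq]

theorem L_inl (hA : BasA) (hC : Compat fr C) (u : κ → AA) (a : ι) (i : κ) :
    (sys fr ψ ψ' (I0 ψ.1) hc hψ hi B Q hQ).L X (fun i => (u i).1) (Sum.inl a) i
      = (C.Y a (u i) + ∑ j, B a i j * u j).1 := by
  rw [Subalgebra.coe_add, hC.Y, hA.vf_apply, AddSubmonoidClass.coe_finsetSum]
  rfl

theorem L_inr (hA : BasA) (u : κ → AA) (b : Fin 2) (i : κ) :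
    (sys fr ψ ψ' (I0 ψ.1) hc hψ hi B Q hQ).L X (fun i => (u i).1) (Sum.inr b) i = 0 := by
  have h := mem_AA.mp (u i).2 b
  rw [hA.vf_apply] at h
  change ∑ k, Vv b k * X k (u i).1 + ∑ j, (0 : SS) * (u j).1 = 0
  rw [h]
  simp

theorem en_eq (hA : BasA) (hC : Compat fr C) (u v : κ → AA) :
    (sys fr ψ ψ' (I0 ψ.1) hc hψ hi B Q hQ).en X I0 (fun i => (u i).1) (fun i => (v i).1)
      = C.en (IA ψ) B Q u v := by
  unfold Sys.en Calc.en
  rw [← I_eq (fr := fr) (hc := hc) (hψ := hψ) (hi := hi) (B := B) (hQ := hQ)]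
  congr 2
  rw [Fintype.sum_sum_type]
  simp only [L_inl hA hC, L_inr hA, mul_zero, sum_const_zero, add_zero]
  rw [Subalgebra.coe_add, AddSubmonoidClass.coe_finsetSum, AddSubmonoidClass.coe_finsetSum]
  congr 1
  · refine sum_congr rfl fun a _ => ?_
    rw [AddSubmonoidClass.coe_finsetSum]
    rfl
  · refine sum_congr rfl fun a _ => ?_
    rw [AddSubmonoidClass.coe_finsetSum]
    rfl

end Sys

theorem lift {κ : Type} (u : κ → SS) (hu : ∀ b i, (vf (Vv b)).toLinearMap (u i) = 0) :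
    ∃ w : κ → AA, u = fun i => (w i).1 :=
  ⟨fun i => ⟨u i, mem_AA.mpr fun b => hu b i⟩, rfl⟩

theorem solve (hA : BasA) (hB : BasB) (hV : AmbA) (ha : Amb evS X cc I0 VV) (hG : S_G)
    (hC : Compat fr C) (ψ : AA) (hψ : ∀ x, 0 < ψ.1.1 x) : C.Solve (IA ψ) := by
  intro κ _ B Q c τ σ f hQ hc0 hen hbe hne
  obtain ⟨ψ', hi⟩ := invA hA hB ψ hψ
  have hc : 0 < I0 ψ.1 := I0_pos hB ψ.1 hψ
  have hT : ∀ (w : κ → AA) b i, (vf (Vv b)).toLinearMap ((fun i => (w i).1) i) = 0 :=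
    fun w b i => mem_AA.mp (w i).2 b
  obtain ⟨u, l, hu, h1, h2, h3⟩ := hG PP SS (Fin 6) evS X cc I0 VV ha (ι ⊕ Fin 2) κ (Fin 2)
    (sys fr ψ ψ' (I0 ψ.1) hc hψ hi B Q hQ) (fun b => (vf (Vv b)).toLinearMap) (fun _ => -1)
    c τ σ (fun i => (f i).1) (fun b n g hg => hV.V_V n b g hg) (fun b g h => V_skew hA hB b g h)
    (fun b g => hA.V_lap b g) hc0
    (fun u hu => by
      obtain ⟨w, rfl⟩ := lift u hu
      rw [en_eq hA hC, ip1_val, I_eq]
      exact hen w)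
    (fun u hu => by
      obtain ⟨w, rfl⟩ := lift u hu
      rw [be_eq]
      exact hbe w)
    (by
      obtain ⟨w, hw⟩ := hne
      exact ⟨fun i => (w i).1, hT w, by rw [be_eq]; exact hw⟩)
  obtain ⟨w, rfl⟩ := lift u hu
  refine ⟨w, l, ?_, fun v => ?_, fun v => ?_⟩
  · rw [be_eq] at h1; exact h1
  · have := h2 _ (hT v)
    rwa [en_eq hA hC, be_eq] at this
  · have := h3 _ (hT v)
    rwa [en_eq hA hC, be_eq] at this

end MiscP

theorem misc (hA : BasA) (hB : BasB) (hV : AmbA) (ha : Amb evS X cc I0 VV) (hG : S_G) : S_Misc :=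
  fun _ _ _ _ _ hC => ⟨MiscP.fn hA hB hC, MiscP.maxp hA hB hC, fun ψ hψ =>
    ⟨MiscP.posI hB hC ψ hψ, MiscP.solve hA hB hV ha hG hC ψ hψ⟩⟩

end Pool.Agent.P.MP_713680_gt
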