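import Pool.Agent.P.MP_713680_gt.UpSt

/-! MP_713680_gt, package U15: frame calculus and the formula of O Neill. -/

set_option linter.unusedSectionVars false

noncomputable section

namespace Pool.Agent.P.MP_713680_gt

open Finset

namespace ONP

section FCalc

variable {S n : Type} [CommRing S] [Algebra ℝ S] [Fintype n] (F : FC S n)

theorem ip_comm (u w : n → S) : F.ip u w = F.ip w u := by
  unfold FC.ip; rw [sum_comm]
  exact sum_congr rfl fun k _ => sum_congr rfl fun l _ => by rw [F.symm]; ring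

theorem ip_add_left (u v w : n → S) : F.ip (u + v) w = F.ip u w + F.ip v w := by
  simp only [FC.ip, Pi.add_apply, mul_add, add_mul, sum_add_distrib]

theorem ip_smul_left (f : S) (u w : n → S) : F.ip (f • u) w = f * F.ip u w := by
  simp only [FC.ip, Pi.smul_apply, smul_eq_mul, mul_sum]
  exact sum_congr rfl fun k _ => sum_congr rfl fun l _ => by ring

theorem ip_zero_left (w : n → S) : F.ip 0 w = 0 := by simp [FC.ip]

theorem ip_neg_left (u w : n → S) : F.ip (-u) w = -F.ip u w := by
  simp only [FC.ip, Pi.neg_apply, mul_neg, neg_mul, sum_neg_distrib]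

theorem ip_sub_left (u v w : n → S) : F.ip (u - v) w = F.ip u w - F.ip v w := by
  rw [sub_eq_add_neg, ip_add_left, ip_neg_left, sub_eq_add_neg]

theorem ip_sum_left {α : Type} (s : Finset α) (u : α → n → S) (w : n → S) :
    F.ip (∑ a ∈ s, u a) w = ∑ a ∈ s, F.ip (u a) w := by
  classical
  induction s using Finset.induction_on with
  | empty => simp [ip_zero_left]
  | insert a s ha ih => rw [sum_insert ha, sum_insert ha, ip_add_left, ih]

theorem ip_add_right (u v w : n → S) : F.ip w (u + v) = F.ip w u + F.ip w v := by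
  rw [ip_comm, ip_add_left, ip_comm F u, ip_comm F v]

theorem ip_smul_right (f : S) (u w : n → S) : F.ip w (f • u) = f * F.ip w u := by
  rw [ip_comm, ip_smul_left, ip_comm]

theorem ip_sum_right {α : Type} (s : Finset α) (u : α → n → S) (w : n → S) :
    F.ip w (∑ a ∈ s, u a) = ∑ a ∈ s, F.ip w (u a) := by
  rw [ip_comm, ip_sum_left]; exact sum_congr rfl fun a _ => ip_comm F _ _

/-- The covariant derivative along the frame field `i`. -/
def N (i : n) (w : n → S) : n → S := fun m => F.D i (w m) + ∑ j, F.G m i j * w j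

theorem nab_eq (u w : n → S) : F.nab u w = ∑ i, u i • N F i w := by
  funext m
  simp only [FC.nab, FC.vf, N, Finset.sum_apply, Pi.smul_apply, smul_eq_mul, mul_add, mul_sum,
    sum_add_distrib]
  congr 1
  exact sum_congr rfl fun i _ => sum_congr rfl fun j _ => by ring

theorem N_add (i : n) (u w : n → S) : N F i (u + w) = N F i u + N F i w := by
  funext m
  simp only [N, Pi.add_apply, map_add, mul_add, sum_add_distrib]; ring

theorem N_smul (i : n) (f : S) (w : n → S) : N F i (f • w) = F.D i f • w + f • N F i w := by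
  funext m
  simp only [N, Pi.add_apply, Pi.smul_apply, smul_eq_mul, Derivation.leibniz, mul_add, mul_sum]
  have : ∑ j, F.G m i j * (f * w j) = ∑ j, f * (F.G m i j * w j) :=
    sum_congr rfl fun j _ => by ring
  rw [this]; ring

theorem N_sum {α : Type} (i : n) (s : Finset α) (u : α → n → S) :
    N F i (∑ a ∈ s, u a) = ∑ a ∈ s, N F i (u a) := by
  classical
  induction s using Finset.induction_on with
  | empty => funext m; simp [N]
  | insert a s ha ih => rw [sum_insert ha, sum_insert ha, N_add, ih]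

theorem D_ip (i : n) (w z : n → S) :
    F.D i (F.ip w z) = F.ip (N F i w) z + F.ip w (N F i z) := by
  have h1 : ∑ k, ∑ l, ∑ s, F.G s i k * F.g s l * w k * z l =
      ∑ k, ∑ l, ∑ j, F.g k l * (F.G k i j * w j) * z l := by
    rw [sum_comm, sum_comm (f := fun k l => ∑ j, F.g k l * (F.G k i j * w j) * z l)]
    refine sum_congr rfl fun l _ => ?_
    rw [sum_comm]
    exact sum_congr rfl fun k _ => sum_congr rfl fun j _ => by ring
  have h2 : ∑ k, ∑ l, ∑ s, F.G s i l * F.g k s * w k * z l =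
      ∑ k, ∑ l, ∑ j, F.g k l * w k * (F.G l i j * z j) := by
    refine sum_congr rfl fun k _ => ?_
    rw [sum_comm]
    exact sum_congr rfl fun l _ => sum_congr rfl fun j _ => by ring
  have h3 : ∀ k l, F.D i (F.g k l * w k * z l) = F.g k l * F.D i (w k) * z l +
      F.g k l * w k * F.D i (z l) + ∑ s, F.G s i k * F.g s l * w k * z l +
      ∑ s, F.G s i l * F.g k s * w k * z l := fun k l => by
    simp only [Derivation.leibniz, smul_eq_mul, F.compat, sum_add_distrib, ← sum_mul]; ring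
  simp only [FC.ip, N, map_sum, h3, mul_add, add_mul, mul_sum, sum_mul, sum_add_distrib, h1, h2]
  ring

theorem vf_ip (u w z : n → S) :
    F.vf u (F.ip w z) = F.ip (F.nab u w) z + F.ip w (F.nab u z) := by
  simp only [nab_eq, ip_sum_left, ip_sum_right, ip_smul_left, ip_smul_right, FC.vf, D_ip, mul_add,
    sum_add_distrib]

theorem nab_tors (u w : n → S) : F.nab u w - F.nab w u = F.brk u w := by
  funext m
  have h : ∑ i, ∑ j, F.G m i j * w i * u j = ∑ i, ∑ j, F.G m j i * u i * w j := by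
    rw [sum_comm]; exact sum_congr rfl fun i _ => sum_congr rfl fun j _ => by ring
  have h2 : ∑ k, ∑ l, F.c k l m • (u k * w l) =
      ∑ i, ∑ j, F.G m i j * u i * w j - ∑ i, ∑ j, F.G m j i * u i * w j := by
    simp only [← sum_sub_distrib]
    refine sum_congr rfl fun i _ => sum_congr rfl fun j _ => ?_
    rw [Algebra.smul_def, ← F.tors]; ring
  simp only [FC.nab, FC.brk, Pi.sub_apply, h, h2]; ring

theorem nab_add_left (u v w : n → S) : F.nab (u + v) w = F.nab u w + F.nab v w := by
  simp only [nab_eq, Pi.add_apply, add_smul, sum_add_distrib]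

theorem nab_smul_left (f : S) (u w : n → S) : F.nab (f • u) w = f • F.nab u w := by
  simp only [nab_eq, Pi.smul_apply, smul_eq_mul, mul_smul, smul_sum]

theorem nab_sum_left {α : Type} (s : Finset α) (u : α → n → S) (w : n → S) :
    F.nab (∑ a ∈ s, u a) w = ∑ a ∈ s, F.nab (u a) w := by
  simp only [nab_eq, Finset.sum_apply, sum_smul]; exact sum_comm

/-- The curvature matrix of the frame. -/
def Rr (i j m k : n) : S := F.D i (F.G m j k) - F.D j (F.G m i k)
    + ∑ s, (F.G m i s * F.G s j k - F.G m j s * F.G s i k) - ∑ s, F.c i j s • F.G m s k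

theorem N_N (i j : n) (w : n → S) (m : n) :
    N F i (N F j w) m - N F j (N F i w) m - ∑ s, F.c i j s • N F s w m =
      ∑ k, Rr F i j m k * w k := by
  have h1 : ∀ i j, ∑ s, ∑ k, F.G m i s * (F.G s j k * w k) =
      ∑ k, ∑ s, F.G m i s * F.G s j k * w k := fun i j => by
    rw [sum_comm]; exact sum_congr rfl fun k _ => sum_congr rfl fun s _ => by ring
  have h2 : ∑ s, ∑ k, F.c i j s • (F.G m s k * w k) = ∑ k, ∑ s, F.c i j s • F.G m s k * w k := by
    rw [sum_comm]; exact sum_congr rfl fun k _ => sum_congr rfl fun s _ => by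
      rw [smul_mul_assoc]
  have h3 : ∀ i j, ∑ k, F.D i (F.G m j k * w k) =
      ∑ k, F.G m j k * F.D i (w k) + ∑ k, F.D i (F.G m j k) * w k := fun i j => by
    rw [← sum_add_distrib]
    exact sum_congr rfl fun k _ => by rw [Derivation.leibniz, smul_eq_mul, smul_eq_mul]; ring
  simp only [N, Rr, map_add, map_sum, h3, mul_add, mul_sum, smul_add, smul_sum, sum_add_distrib,
    add_mul, sub_mul, sum_mul, sum_sub_distrib, h1, h2]
  linear_combination F.br i j (w m)

theorem nab_nab (u v w : n → S) : F.nab u (F.nab v w) =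
    ∑ j, F.vf u (v j) • N F j w + ∑ i, ∑ j, (u i * v j) • N F i (N F j w) := by
  simp only [nab_eq, N_sum, N_smul, smul_sum, smul_add, sum_add_distrib, FC.vf, sum_smul, mul_smul]
  congr 1
  exact sum_comm

theorem curv (u v w : n → S) (m : n) :
    (F.nab u (F.nab v w) - F.nab v (F.nab u w) - F.nab (F.brk u v) w) m =
      ∑ i, ∑ j, ∑ k, Rr F i j m k * u i * v j * w k := by
  have h1 : ∑ i, ∑ j, v i * u j * N F i (N F j w) m = ∑ i, ∑ j, u i * v j * N F j (N F i w) m := by
    rw [sum_comm]; exact sum_congr rfl fun i _ => sum_congr rfl fun j _ => by ring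
  have h2 : ∑ s, ∑ i, ∑ j, F.c i j s • (u i * v j) * N F s w m =
      ∑ i, ∑ j, u i * v j * ∑ s, F.c i j s • N F s w m := by
    rw [sum_comm]; refine sum_congr rfl fun i _ => ?_
    rw [sum_comm]; refine sum_congr rfl fun j _ => ?_
    rw [mul_sum]; exact sum_congr rfl fun s _ => by rw [smul_mul_assoc, mul_smul_comm]
  have h3 : ∑ i, ∑ j, ∑ k, Rr F i j m k * u i * v j * w k = ∑ i, ∑ j, u i * v j *
      (N F i (N F j w) m - N F j (N F i w) m - ∑ s, F.c i j s • N F s w m) :=
    sum_congr rfl fun i _ => sum_congr rfl fun j _ => by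
      rw [N_N, mul_sum]; exact sum_congr rfl fun k _ => by ring
  rw [nab_nab, nab_nab, nab_eq, h3]
  simp only [FC.brk, Pi.sub_apply, Pi.add_apply, Finset.sum_apply, Pi.smul_apply, smul_eq_mul,
    add_mul, sub_mul, sum_mul, sum_add_distrib, sum_sub_distrib, mul_sub, h1, h2]
  ring

theorem ip_curv (u v w z : n → S) :
    F.ip (F.nab u (F.nab v w)) z - F.ip (F.nab v (F.nab u w)) z - F.ip (F.nab (F.brk u v) w) z =
      ∑ i, ∑ j, ∑ k, ∑ l, F.Rie i j k l * u i * v j * w k * z l := by
  rw [← ip_sub_left, ← ip_sub_left, FC.ip]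
  simp only [curv, mul_sum, sum_mul]
  have h : ∀ i j k l, F.Rie i j k l * u i * v j * w k * z l =
      ∑ m, F.g m l * (Rr F i j m k * u i * v j * w k) * z l := fun i j k l => by
    simp only [FC.Rie, Rr, sum_mul]
    exact sum_congr rfl fun m _ => by ring
  simp only [h]
  symm
  calc ∑ i, ∑ j, ∑ k, ∑ l, ∑ m, F.g m l * (Rr F i j m k * u i * v j * w k) * z l
      = ∑ p : n × n × n, ∑ q : n × n,
          F.g q.1 q.2 * (Rr F p.1 p.2.1 q.1 p.2.2 * u p.1 * v p.2.1 * w p.2.2) * z q.2 := by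
        simp only [Fintype.sum_prod_type]
        exact sum_congr rfl fun i _ => sum_congr rfl fun j _ => sum_congr rfl fun k _ => sum_comm
    _ = _ := by rw [sum_comm]; simp only [Fintype.sum_prod_type]

theorem two_cancel {a : S} (h : a = -a) : a = 0 := by
  have h1 : (2 : ℝ) • a = 0 := by rw [two_smul]; nth_rewrite 1 [h]; ring
  exact (smul_eq_zero_iff_right two_ne_zero).1 h1

/-- The vertical part. -/
def vt (V al : Fin 2 → n → S) (w : n → S) : n → S := ∑ b, ip1 (al b) w • V b

variable {ι : Type} [Fintype ι] (y : ι → n → S) (V al : Fin 2 → n → S)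

/-- The data of a Riemannian submersion with Killing vertical frame. -/
structure Sub : Prop where
  pars : ∀ w, ∑ a, F.ip w (y a) • y a + vt V al w = w
  hor : ∀ b a, F.ip (V b) (y a) = 0
  inv : ∀ b a, F.brk (V b) (y a) = 0
  kill : ∀ b u w, F.vf (V b) (F.ip u w) = F.ip (F.brk (V b) u) w + F.ip u (F.brk (V b) w)
  defn : ∀ w, F.ip w w = 0 → w = 0

variable {F y V al}

theorem vt_add (u w : n → S) : vt V al (u + w) = vt V al u + vt V al w := by
  simp only [vt, ip1, Pi.add_apply, mul_add, sum_add_distrib, add_smul]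

theorem vt_sub (u w : n → S) : vt V al (u - w) = vt V al u - vt V al w := by
  simp only [vt, ip1, Pi.sub_apply, mul_sub, sum_sub_distrib, sub_smul]

theorem Sub.V_vt (h : Sub F y V al) (b : Fin 2) (w : n → S) :
    F.ip (V b) (vt V al w) = F.ip (V b) w := by
  conv_rhs => rw [← h.pars w]
  simp only [ip_add_right, ip_sum_right, ip_smul_right, h.hor, mul_zero, sum_const_zero, zero_add]

theorem Sub.split (h : Sub F y V al) (w z : n → S) :
    F.ip w z - ∑ e, F.ip z (y e) * F.ip w (y e) = F.ip (vt V al w) (vt V al z) := by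
  have h1 : F.ip (vt V al w) (vt V al z) = F.ip (vt V al w) z := by
    conv_lhs => rw [vt]
    conv_rhs => rw [vt]
    simp only [ip_sum_left, ip_smul_left, h.V_vt]
  rw [h1]
  nth_rewrite 1 [← h.pars w]
  simp only [ip_add_left, ip_sum_left, ip_smul_left, ip_comm F (y _) z, mul_comm (F.ip z _)]
  ring

theorem Sub.nabV (h : Sub F y V al) (b : Fin 2) (c d : ι) :
    F.ip (F.nab (y c) (V b)) (y d) = -F.ip (V b) (vt V al (F.nab (y c) (y d))) := by
  have h1 := vf_ip F (y c) (V b) (y d)
  rw [h.hor] at h1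
  have h2 : F.vf (y c) 0 = 0 := by simp [FC.vf]
  rw [h.V_vt]; linear_combination h2 - h1

theorem Sub.skew (h : Sub F y V al) (a c : ι) :
    vt V al (F.nab (y a) (y c)) = -vt V al (F.nab (y c) (y a)) := by
  refine eq_neg_of_add_eq_zero_left (h.defn _ ?_)
  have h1 : ∀ b, F.ip (V b) (vt V al (F.nab (y a) (y c)) + vt V al (F.nab (y c) (y a))) = 0 := by
    intro b
    have e1 := h.kill b (y a) (y c)
    rw [vf_ip, ← nab_tors, ← nab_tors, ip_sub_left, ip_comm F (y a) (_ - _), ip_sub_left,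
      ip_comm F (y a), h.nabV, h.nabV] at e1
    rw [ip_add_right]; linear_combination -e1
  nth_rewrite 1 [← vt_add, vt]
  simp only [ip_sum_left, ip_smul_left, h1, mul_zero, sum_const_zero]

theorem Sub.third (h : Sub F y V al) (a b c d : ι) :
    F.ip (F.nab (F.brk (y a) (y b)) (y c)) (y d)
      - ∑ e, F.ip (F.brk (y a) (y b)) (y e) * F.ip (F.nab (y e) (y c)) (y d) =
      -2 * F.ip (vt V al (F.nab (y a) (y b))) (vt V al (F.nab (y c) (y d))) := by
  have h1 : ∀ w, F.ip (F.nab (vt V al w) (y c)) (y d) =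
      -F.ip (vt V al w) (vt V al (F.nab (y c) (y d))) := fun w => by
    conv_lhs => rw [vt]
    conv_rhs => rw [vt]
    simp only [nab_sum_left, nab_smul_left, ip_sum_left, ip_smul_left, ← sum_neg_distrib]
    refine sum_congr rfl fun e _ => ?_
    have e1 := nab_tors F (V e) (y c)
    rw [h.inv, sub_eq_zero] at e1
    rw [e1, h.nabV]; ring
  nth_rewrite 1 [← h.pars (F.brk (y a) (y b))]
  rw [nab_add_left, ip_add_left, h1, nab_sum_left, ip_sum_left]
  simp only [nab_smul_left, ip_smul_left]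
  rw [← nab_tors, vt_sub, h.skew b a, ip_sub_left, ip_neg_left]
  ring

end FCalc

section Real

variable {ι κ : Type} [Fintype ι] [Fintype κ]

theorem s1 (f g : ι → ι → ℝ) :
    ∑ a, ∑ b, ∑ c, ∑ d, f a b * g c d = (∑ a, ∑ b, f a b) * ∑ c, ∑ d, g c d := by
  simp only [← mul_sum, ← sum_mul]

theorem s2 (f g : ι → ι → ℝ) :
    ∑ a, ∑ b, ∑ c, ∑ d, f a c * g b d = (∑ a, ∑ c, f a c) * ∑ b, ∑ d, g b d := by
  rw [← s1]; exact sum_congr rfl fun a _ => sum_comm

theorem s3 (f g : ι → ι → ℝ) :
    ∑ a, ∑ b, ∑ c, ∑ d, f a d * g b c = (∑ a, ∑ d, f a d) * ∑ b, ∑ c, g b c := by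
  rw [← s2]; exact sum_congr rfl fun a _ => sum_congr rfl fun b _ => sum_comm

theorem bil_skew {t : ι → ι → ℝ} (h : ∀ a b, t a b = -t b a) (u v : ι → ℝ) :
    ∑ a, ∑ b, t a b * v a * u b = -∑ a, ∑ b, t a b * u a * v b := by
  rw [sum_comm, ← sum_neg_distrib]
  refine sum_congr rfl fun a _ => ?_
  rw [← sum_neg_distrib]
  exact sum_congr rfl fun b _ => by rw [h b a]; ring

theorem real_on {k t : ι → ι → ℝ} (hk : ∀ a b, k a b = -k b a) (ht : ∀ a b, t a b = -t b a)
    (u v : ι → ℝ) : 0 ≤ ∑ a, ∑ b, ∑ c, ∑ d, (-(1 / 4) * (k a b * k c d) + t b c * t a d -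
      t a c * t b d - 2 * (t a b * t c d)) * u a * v b * v c * u d := by
  have e : ∀ a b c d, (-(1 / 4) * (k a b * k c d) + t b c * t a d -
      t a c * t b d - 2 * (t a b * t c d)) * u a * v b * v c * u d =
      (-(1 / 4) * (k a b * u a * v b)) * (k c d * v c * u d) +
      (t a d * u a * u d) * (t b c * v b * v c) - (t a c * u a * v c) * (t b d * v b * u d) -
      (2 * (t a b * u a * v b)) * (t c d * v c * u d) := fun a b c d => by ring
  simp only [e, sum_add_distrib, sum_sub_distrib]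
  have h0 : ∑ a, ∑ b, t a b * u a * u b = 0 := by linarith [bil_skew ht u u]
  rw [s1 (fun a b => -(1 / 4) * (k a b * u a * v b)) fun c d => k c d * v c * u d,
    s3 (fun a d => t a d * u a * u d) fun b c => t b c * v b * v c,
    s2 (fun a c => t a c * u a * v c) fun b d => t b d * v b * u d,
    s1 (fun a b => 2 * (t a b * u a * v b)) fun c d => t c d * v c * u d,
    h0, bil_skew ht u v, bil_skew hk u v]
  simp only [← mul_sum]
  nlinarith [sq_nonneg (∑ a, ∑ b, t a b * u a * v b), sq_nonneg (∑ a, ∑ b, k a b * u a * v b)]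

theorem sum5 (f : ι → ι → ι → ι → κ → ℝ) :
    ∑ a, ∑ b, ∑ c, ∑ d, ∑ s, f a b c d s = ∑ s, ∑ a, ∑ b, ∑ c, ∑ d, f a b c d s := by
  calc _ = ∑ p : ι × ι × ι × ι, ∑ s, f p.1 p.2.1 p.2.2.1 p.2.2.2 s := by
        simp only [Fintype.sum_prod_type]
    _ = _ := by rw [sum_comm]; simp only [Fintype.sum_prod_type]

end Real

section Round

/-- The structure constants as integers. -/
def ccZ : Fin 6 → Fin 6 → Fin 6 → ℤ :=
  ![![![0, 0, 0, 0, 0, 0], ![0, 0, -2, 0, 0, 0], ![0, 2, 0, 0, 0, 0],
      ![0, 0, 0, 0, 0, 0], ![0, 0, 0, 0, 0, 0], ![0, 0, 0, 0, 0, 0]],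
    ![![0, 0, 2, 0, 0, 0], ![0, 0, 0, 0, 0, 0], ![-2, 0, 0, 0, 0, 0],
      ![0, 0, 0, 0, 0, 0], ![0, 0, 0, 0, 0, 0], ![0, 0, 0, 0, 0, 0]],
    ![![0, -2, 0, 0, 0, 0], ![2, 0, 0, 0, 0, 0], ![0, 0, 0, 0, 0, 0],
      ![0, 0, 0, 0, 0, 0], ![0, 0, 0, 0, 0, 0], ![0, 0, 0, 0, 0, 0]],
    ![![0, 0, 0, 0, 0, 0], ![0, 0, 0, 0, 0, 0], ![0, 0, 0, 0, 0, 0],
      ![0, 0, 0, 0, 0, 0], ![0, 0, 0, 0, 0, -2], ![0, 0, 0, 0, 2, 0]],
    ![![0, 0, 0, 0, 0, 0], ![0, 0, 0, 0, 0, 0], ![0, 0, 0, 0, 0, 0],
      ![0, 0, 0, 0, 0, 2], ![0, 0, 0, 0, 0, 0], ![0, 0, 0, -2, 0, 0]],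
    ![![0, 0, 0, 0, 0, 0], ![0, 0, 0, 0, 0, 0], ![0, 0, 0, 0, 0, 0],
      ![0, 0, 0, 0, -2, 0], ![0, 0, 0, 2, 0, 0], ![0, 0, 0, 0, 0, 0]]]

theorem cc_eq (i j k : Fin 6) : cc i j k = ccZ i j k := by
  fin_cases i <;> fin_cases j <;> fin_cases k <;> simp [cc, ccZ]

theorem ccZ_jac : ∀ i j k l : Fin 6, ∑ s, (ccZ i s l * ccZ j k s - ccZ j s l * ccZ i k s -
    2 * (ccZ i j s * ccZ s k l)) = -∑ s, ccZ i j s * ccZ k l s := by decide +kernel

theorem cc_jac (i j k l : Fin 6) : ∑ s, (cc i s l * cc j k s - cc j s l * cc i k s -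
    2 * (cc i j s * cc s k l)) = -∑ s, cc i j s * cc k l s := by
  simp only [cc_eq]; exact_mod_cast ccZ_jac i j k l

/-- The bi-invariant metric of size `l`. -/
def FR (hA : BasA) (l : ℝ) : FC SS (Fin 6) where
  D := X
  c := cc
  g k m := if k = m then algebraMap ℝ SS l else 0
  G k i j := algebraMap ℝ SS (cc i j k / 2)
  br := hA.br
  symm i j := by simp only [eq_comm]
  compat i j k := by
    simp only [mul_ite, mul_zero, sum_add_distrib, sum_ite_eq, sum_ite_eq', mem_univ, if_true]
    rw [← add_mul, ← map_add, hA.skew2 i k j, neg_div, add_neg_cancel, map_zero, zero_mul]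
    split_ifs
    · exact Derivation.map_algebraMap _ _
    · exact map_zero _
  tors i j k := by rw [← map_sub, hA.skew1 j i k]; congr 1; ring

variable (hA : BasA) (l : ℝ)

theorem FR_vf (u : Fin 6 → SS) (f : SS) : (FR hA l).vf u f = vf u f := (hA.vf_apply u f).symm

theorem FR_brk (u w : Fin 6 → SS) : (FR hA l).brk u w = brk u w := by
  funext m; simp only [FC.brk, brk, FR_vf]; rfl

theorem FR_ip (u w : Fin 6 → SS) : (FR hA l).ip u w = algebraMap ℝ SS l * ip1 u w := by
  simp only [FC.ip, FR, ip1, ite_mul, zero_mul, sum_ite_eq, mem_univ, if_true, mul_sum, mul_assoc]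

theorem FR_Rie (i j k m : Fin 6) :
    (FR hA l).Rie i j k m = algebraMap ℝ SS (l * (-(1 / 4) * ∑ s, cc i j s * cc k m s)) := by
  simp only [FC.Rie, FR, ite_mul, zero_mul, sum_ite_eq', mem_univ, if_true,
    Derivation.map_algebraMap, Algebra.smul_def, ← map_mul, ← map_sub, ← map_sum, sub_zero,
    zero_add]
  congr 2
  have := cc_jac i j k m
  simp only [Fin.sum_univ_six] at this ⊢
  linear_combination (1 / 4 : ℝ) * this

variable {l} {md : MD} {ι : Type} [Fintype ι] (fr : Frame md ι)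

theorem gq_eq (h : IsRound md l) (w : Fin 6 → SS) (e : ι) :
    gq md.g w (fr.y e) = (FR hA l).ip w (fr.y e) := by
  have h1 : ∀ k, ∑ m, md.g k m * fr.y e m = algebraMap ℝ SS l * fr.y e k := fun k => by
    apply Subtype.ext; funext x
    have := h x (fun m => (fr.y e m).1 x) (fun b => by
      simpa only [ip1, map_sum, map_mul, map_zero, evS_apply] using congrArg (evS x) (fr.hor b e)) k
    change evS x (∑ m, md.g k m * fr.y e m) = evS x (algebraMap ℝ SS l * fr.y e k)
    simpa only [map_sum, map_mul, AlgHom.commutes, evS_apply, Algebra.algebraMap_self,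
      RingHom.id_apply] using this
  rw [FR_ip, gq, ip1, mul_sum]
  refine sum_congr rfl fun k _ => ?_
  rw [mul_left_comm, ← h1, mul_sum]
  exact sum_congr rfl fun m _ => by ring

theorem sub_FR (hl : 0 < l) (h : IsRound md l) : Sub (FR hA l) fr.y Vv fr.al where
  pars w := by simpa only [gq_eq hA fr h, vt] using fr.pars w
  hor b a := by rw [FR_ip, fr.hor, mul_zero]
  inv b a := by rw [FR_brk, fr.inv]
  kill b u w := by
    simp only [FR_ip, FR_vf, FR_brk, Derivation.leibniz, Derivation.map_algebraMap, hA.kill_V,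
      smul_eq_mul]
    ring
  defn w hw := by
    funext k
    apply Subtype.ext; funext x
    have h1 := congrArg (evS x) hw
    simp only [FR_ip, ip1, map_sum, map_mul, AlgHom.commutes, map_zero, Algebra.algebraMap_self,
      RingHom.id_apply, mul_eq_zero, hl.ne', false_or] at h1
    have h2 := (sum_eq_zero_iff_of_nonneg fun k _ => mul_self_nonneg _).1 h1 k (mem_univ _)
    exact mul_self_eq_zero.1 h2

end Round

end ONP

open ONP

theorem fcS : S_FC := by
  intro S n P R ι _ _ _ _ _ _ F C r y ha hr hY hP hB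
  have h1 : ∀ a b c, r (C.Gam a b c) = F.ip (F.nab (y a) (y b)) (y c) := by
    let Δ : ι → ι → ι → S := fun a b c => r (C.Gam a b c) - F.ip (F.nab (y a) (y b)) (y c)
    have s1 : ∀ a b c, Δ a b c = -Δ a c b := fun a b c => by
      have e1 := congrArg r (ha.Gam_metric a b c)
      rw [map_add, hY, hP, vf_ip, ip_comm F (y b)] at e1
      simp only [Δ]; linear_combination e1
    have s2 : ∀ a b c, Δ a b c = Δ b a c := fun a b c => by
      have e1 := hB a b c
      rw [map_sub, ← nab_tors, ip_sub_left] at e1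
      simp only [Δ]; linear_combination e1
    intro a b c
    refine sub_eq_zero.1 (two_cancel (a := Δ a b c) ?_)
    linear_combination s2 a b c + s1 b a c - s2 b c a - s1 c b a + s2 c a b + s1 a c b
  refine ⟨h1, fun a b c d => ?_⟩
  rw [hr.Rm_eq, ← ip_curv]
  simp only [map_sub r (C.Y a _), map_sub r (_ - _), map_sub r (_ + _), map_add, map_sum, map_mul,
    hB, hY, h1, vf_ip]
  ring

theorem onS (hA : BasA) (hF : S_FC) : S_ON := by
  intro md ι _ fr C l hC ha hr hl h x u v
  have hs := sub_FR hA fr hl h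
  obtain ⟨-, h2⟩ := hF SS (Fin 6) PP AA ι (FR hA l) C AA.val fr.y ha hr
    (fun a f => by rw [FR_vf]; exact hC.Y a f)
    (fun a b => by rw [← gq_eq hA fr h]; exact hC.Pr a b)
    (fun a b e => by rw [← gq_eq hA fr h, FR_brk]; exact hC.brk a b e)
  let T : ι → ι → Fin 6 → SS := fun a b => vt Vv fr.al ((FR hA l).nab (fr.y a) (fr.y b))
  let t : Fin 6 → ι → ι → ℝ := fun s a b => evS x (T a b s)
  let k : Fin 6 → ι → ι → ℝ := fun s a b =>
    ∑ i, ∑ j, cc i j s * evS x (fr.y a i) * evS x (fr.y b j)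
  have ht : ∀ s a b, t s a b = -t s b a := fun s a b => by
    simp only [t, T]; rw [hs.skew a b, Pi.neg_apply, map_neg]
  have hk : ∀ s a b, k s a b = -k s b a := fun s a b =>
    bil_skew (fun i j => hA.skew1 i j s) _ _
  have e : ∀ a b c d, C.ev x (C.Rm a b c d) = l * ∑ s, (-(1 / 4) * (k s a b * k s c d) +
      t s b c * t s a d - t s a c * t s b d - 2 * (t s a b * t s c d)) := fun a b c d => by
    have e1 : C.ev x (C.Rm a b c d) = evS x (AA.val (C.Rm a b c d)) := by rw [hC.ev]; rfl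
    have e2 : evS x (∑ i, ∑ j, ∑ m, ∑ n,
        (FR hA l).Rie i j m n * fr.y a i * fr.y b j * fr.y c m * fr.y d n) =
        l * ∑ s, -(1 / 4) * (k s a b * k s c d) := by
      have e3 : ∀ s, k s a b * k s c d = ∑ i, ∑ j, ∑ m, ∑ n,
          (cc i j s * evS x (fr.y a i) * evS x (fr.y b j)) *
            (cc m n s * evS x (fr.y c m) * evS x (fr.y d n)) := fun s => (s1 _ _).symm
      simp only [e3, FR_Rie, map_sum, map_mul, AlgHom.commutes, Algebra.algebraMap_self,
        RingHom.id_apply, mul_sum, sum_mul]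
      rw [sum5]
      refine sum_congr rfl fun s _ => sum_congr rfl fun i _ => sum_congr rfl fun j _ =>
        sum_congr rfl fun m _ => sum_congr rfl fun n _ => by ring
    rw [e1, h2, hs.split, hs.split, hs.third, map_add, map_sub, map_add, e2]
    simp only [FR_ip, ip1, map_mul, map_sum, AlgHom.commutes, Algebra.algebraMap_self,
      RingHom.id_apply, map_neg, map_ofNat, sum_add_distrib, sum_sub_distrib, ← mul_sum, t, T]
    ring
  simp only [e, mul_assoc l, ← mul_sum]
  refine mul_nonneg hl.le ?_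
  simp only [sum_mul]
  rw [sum5]
  exact sum_nonneg fun s _ => real_on (hk s) (ht s) u v

end Pool.Agent.P.MP_713680_gt
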