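import Pool.Agent.P.MP_713680_gt.UpSt

/-! Package M4: pull-back of a metric on the quotient. -/

open scoped ContDiff

noncomputable section

namespace Pool.Agent.P.MP_713680_gt

open Finset Filter Topology Real

namespace PullP

/-- The bilinear form of a matrix. -/
def Q (A : Matrix (Fin 4) (Fin 4) ℝ) (a b : En 4) : ℝ := ∑ i, ∑ j, A i j * a i * b j

theorem Q_right (A : Matrix (Fin 4) (Fin 4) ℝ) (a : En 4) (b : Fin 6 → En 4) (η : Fin 6 → ℝ) :
    Q A a (∑ l, η l • b l) = ∑ l, Q A a (b l) * η l := by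
  simp only [Q, WithLp.ofLp_sum, WithLp.ofLp_smul, Finset.sum_apply, Pi.smul_apply, smul_eq_mul,
    mul_sum, sum_mul]
  rw [sum_comm (s := (univ : Finset (Fin 6)))]
  refine sum_congr rfl fun i _ => ?_
  rw [sum_comm]
  exact sum_congr rfl fun j _ => sum_congr rfl fun l _ => by ring

theorem Q_left (A : Matrix (Fin 4) (Fin 4) ℝ) (a : Fin 6 → En 4) (b : En 4) (ξ : Fin 6 → ℝ) :
    Q A (∑ k, ξ k • a k) b = ∑ k, Q A (a k) b * ξ k := by
  simp only [Q, WithLp.ofLp_sum, WithLp.ofLp_smul, Finset.sum_apply, Pi.smul_apply, smul_eq_mul,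
    mul_sum, sum_mul]
  rw [sum_comm (s := (univ : Finset (Fin 6)))]
  refine sum_congr rfl fun i _ => ?_
  rw [sum_comm]
  exact sum_congr rfl fun j _ => sum_congr rfl fun l _ => by ring

theorem Q_sum (A : Matrix (Fin 4) (Fin 4) ℝ) (a : Fin 6 → En 4) (ξ η : Fin 6 → ℝ) :
    Q A (∑ k, ξ k • a k) (∑ l, η l • a l) = ∑ k, ∑ l, Q A (a k) (a l) * ξ k * η l := by
  rw [Q_left]
  refine sum_congr rfl fun k _ => ?_
  rw [Q_right, sum_mul]
  exact sum_congr rfl fun l _ => by ring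

theorem Q_pos {A : Matrix (Fin 4) (Fin 4) ℝ} (h : A.PosDef) {a : En 4} (ha : a ≠ 0) :
    0 < Q A a a := by
  have := h.dotProduct_mulVec_pos (x := a.ofLp) (by simpa using ha)
  refine this.trans_eq ?_
  simp only [Q, dotProduct, Matrix.mulVec, star_trivial, mul_sum]
  exact sum_congr rfl fun i _ => sum_congr rfl fun j _ => by ring

theorem Q_zero (A : Matrix (Fin 4) (Fin 4) ℝ) (a : En 4) : Q A a 0 = 0 := by simp [Q]

/-- The torus action as a continuous linear map. -/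
def actL (α β : ℝ) : EE →L[ℝ] EE :=
  LinearMap.toContinuousLinearMap (IsLinearMap.mk' (act α β) ⟨fun x y => by
    ext <;> simp [act, rq] <;> ring, fun c x => by ext <;> simp [act, rq] <;> ring⟩)

theorem actL_apply (α β : ℝ) (x : EE) : actL α β x = act α β x := rfl

theorem norm_rq (s t : ℝ) (p : HH) : ‖rq s t p‖ = ‖p‖ := by
  rw [← mul_self_inj (norm_nonneg _) (norm_nonneg _), ← Quaternion.normSq_eq_norm_mul_self,
    ← Quaternion.normSq_eq_norm_mul_self, Quaternion.normSq_def', Quaternion.normSq_def']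
  simp only [rq]
  linear_combination (p.re ^ 2 + p.imI ^ 2) * sin_sq_add_cos_sq s +
    (p.imJ ^ 2 + p.imK ^ 2) * sin_sq_add_cos_sq t

theorem act_mem (α β : ℝ) {x : EE} (hx : x ∈ UU) : act α β x ∈ UU :=
  ⟨norm_ne_zero_iff.1 (by rw [act, norm_rq]; exact norm_ne_zero_iff.2 hx.1),
    norm_ne_zero_iff.1 (by rw [act, norm_rq]; exact norm_ne_zero_iff.2 hx.2)⟩

theorem inc_nrm_act (α β : ℝ) (x : PP) : inc (nrm (act α β (inc x))) = act α β (inc x) := by
  rw [inc_nrm (act_mem α β (inc_mem x))]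
  simp only [act, norm_rq, inc, norm_S3, inv_one, one_smul]

theorem act_zero (x : EE) : act 0 0 x = x := by ext <;> simp [act, rq]

/-- The rotation of the frame under the torus action. -/
def Rm (a b : ℝ) : Fin 6 → Fin 6 → ℝ :=
  ![![1, 0, 0, 0, 0, 0], ![0, cos a, -sin a, 0, 0, 0], ![0, sin a, cos a, 0, 0, 0],
    ![0, 0, 0, 1, 0, 0], ![0, 0, 0, 0, cos b, -sin b], ![0, 0, 0, 0, sin b, cos b]]

theorem rq_i (s t : ℝ) (p : HH) : qi * rq s t p = rq s t (qi * p) := by
  ext <;> simp [rq, qi] <;> ring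

theorem rq_j (s t : ℝ) (p : HH) :
    qj * rq s t p = rq s t (cos (s + t) • (qj * p) + -sin (s + t) • (qk * p)) := by
  have hs := sin_sq_add_cos_sq s
  have ht := sin_sq_add_cos_sq t
  ext <;> simp [rq, qj, qk, cos_add, sin_add] <;> grind

theorem rq_k (s t : ℝ) (p : HH) :
    qk * rq s t p = rq s t (sin (s + t) • (qj * p) + cos (s + t) • (qk * p)) := by
  have hs := sin_sq_add_cos_sq s
  have ht := sin_sq_add_cos_sq t
  ext <;> simp [rq, qj, qk, cos_add, sin_add] <;> grind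

theorem rq_zero (s t : ℝ) : rq s t 0 = 0 := norm_eq_zero.1 (by rw [norm_rq, norm_zero])

theorem J_act (α β : ℝ) (k : Fin 6) (x : EE) : Jv k (act α β x) =
    act α β (∑ m, Rm (α + (α + β)) (β + (2 * α + β)) k m • Jv m x) := by
  fin_cases k <;>
    simp [Fin.sum_univ_six, Rm, Jv_apply, qe, act, rq_i, rq_j, rq_k, rq_zero]

theorem Rm_zero (k m : Fin 6) : Rm 0 0 k m = if k = m then 1 else 0 := by
  fin_cases k <;> fin_cases m <;> simp [Rm]

theorem Rm_deriv (a b : ℝ) (k m : Fin 6) :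
    HasDerivAt (fun τ : ℝ => Rm (τ * a) (τ * b) k m) (a / 2 * cc 0 k m + b / 2 * cc 3 k m) 0 := by
  have h1 : ∀ a : ℝ, HasDerivAt (fun τ : ℝ => cos (τ * a)) 0 0 := fun a => by
    simpa using (hasDerivAt_mul_const (x := 0) a).cos
  have h2 : ∀ a : ℝ, HasDerivAt (fun τ : ℝ => sin (τ * a)) a 0 := fun a => by
    simpa using (hasDerivAt_mul_const (x := 0) a).sin
  have h3 : ∀ a : ℝ, HasDerivAt (fun τ : ℝ => -sin (τ * a)) (-a) 0 := fun a => (h2 a).neg
  fin_cases k <;> fin_cases m <;> simp [Rm, cc, hasDerivAt_const, h1, h2, h3]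

variable (D : ManData) (G : D.M → En 4 → Matrix (Fin 4) (Fin 4) ℝ)

/-- The pulled back form in the chart at `p`. -/
def form (p : D.M) (x v w : EE) : ℝ :=
  Q (G p (D.φ p x)) (fderiv ℝ (D.φ p) x v) (fderiv ℝ (D.φ p) x w)

variable {D G} {p q : D.M} {x : EE}

theorem W_UU (h : x ∈ D.W p) : x ∈ UU := ((D.W_iff p x).1 h).1

theorem φ_diff (h : x ∈ D.W p) : DifferentiableAt ℝ (D.φ p) x :=
  ((D.φ_smooth p).contDiffAt ((D.W_open p).mem_nhds h)).differentiableAt (by simp)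

theorem symm_φ (h : x ∈ D.W p) : (chartAt (En 4) p).symm (D.φ p x) = D.π (nrm x) := by
  rw [D.φ_eq p x h, (chartAt (En 4) p).left_inv ((D.W_iff p x).1 h).2]

theorem W_congr {y : EE} (h : x ∈ D.W p) (hy : y ∈ UU) (e : D.π (nrm y) = D.π (nrm x)) :
    y ∈ D.W p ∧ D.φ p y = D.φ p x := by
  have : y ∈ D.W p := (D.W_iff p y).2 ⟨hy, e ▸ ((D.W_iff p x).1 h).2⟩
  exact ⟨this, by rw [D.φ_eq p y this, D.φ_eq p x h, e]⟩

theorem mem_W (x : PP) : inc x ∈ D.W (D.π x) :=
  (D.W_iff _ _).2 ⟨inc_mem x, by rw [nrm_inc]; exact mem_chart_source _ _⟩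

theorem form_eq (hG : ChartData G) (hp : x ∈ D.W p) (hq : x ∈ D.W q) (v w : EE) :
    form D G p x v w = form D G q x v w := by
  have h1 : D.σ p (D.φ p x) ∈ D.W q :=
    (W_congr hq (W_UU (D.σ_mem _ _)) (by rw [← D.σ_eq, symm_φ hp])).1
  have h2 : trn p q =ᶠ[𝓝 (D.φ p x)] fun z => D.φ q (D.σ p z) := by
    filter_upwards [(D.σ_smooth p).continuous.continuousAt.preimage_mem_nhds
      ((D.W_open q).mem_nhds h1)] with z hz
    rw [trn, D.σ_eq, D.φ_eq q _ hz]
  have h3 : DifferentiableAt ℝ (trn p q) (D.φ p x) :=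
    ((φ_diff h1).comp _ ((D.σ_smooth p).differentiable (by simp) _)).congr_of_eventuallyEq h2
  have h4 : D.φ q =ᶠ[𝓝 x] trn p q ∘ D.φ p := by
    filter_upwards [(D.W_open p).mem_nhds hp, (D.W_open q).mem_nhds hq] with y a1 a2
    rw [Function.comp, trn, symm_φ a1, D.φ_eq q y a2]
  have h5 : ∀ a : En 4, ∀ k, fderiv ℝ (trn p q) (D.φ p x) a k =
      ∑ i, a i * fderiv ℝ (trn p q) (D.φ p x) (EuclideanSpace.single i 1) k := fun a k => by
    conv_lhs => rw [← (EuclideanSpace.basisFun (Fin 4) ℝ).sum_repr a]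
    simp
  have h6 := hG.law p q (D.φ p x) (by simp [D.target]) (by
    rw [symm_φ hp]; exact ((D.W_iff q x).1 hq).2)
  unfold form Q
  rw [h4.fderiv_eq, fderiv_comp x h3 (φ_diff hp), h4.eq_of_nhds]
  simp only [h6, ContinuousLinearMap.comp_apply, Function.comp]
  simp only [h5 (fderiv ℝ (D.φ p) x v), h5 (fderiv ℝ (D.φ p) x w), Fin.sum_univ_four]
  ring

theorem form_smooth (hG : ChartData G) (p : D.M) (k l : Fin 6) :
    ContDiffOn ℝ ∞ (fun x => form D G p x (Jv k x) (Jv l x)) (D.W p) := by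
  have h1 : ∀ k i, ContDiffOn ℝ ∞ (fun x => fderiv ℝ (D.φ p) x (Jv k x) i) (D.W p) := fun k i =>
    contDiffOn_euclidean.1 (((D.φ_smooth p).fderiv_of_isOpen (D.W_open p) (by simp)).clm_apply
      (Jv k).contDiff.contDiffOn) i
  unfold form Q
  refine ContDiffOn.sum fun i _ => ContDiffOn.sum fun j _ => ?_
  exact (((hG.smooth p i j).comp (D.φ_smooth p) fun x _ => by simp [D.target]).mul (h1 k i)).mul
    (h1 l j)

/-- The coefficients of the pulled back metric. -/
def gS (hG : ChartData G) (k l : Fin 6) : SS :=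
  ⟨fun x => form D G (D.π x) (inc x) (Jv k (inc x)) (Jv l (inc x)), fun y hy => by
    have h0 : ∀ z ∈ D.W (D.π (nrm y)), inc (nrm z) ∈ D.W (D.π (nrm y)) := fun z hz =>
      (W_congr hz (inc_mem _) (by rw [nrm_inc])).1
    have h1 : y ∈ D.W (D.π (nrm y)) := (D.W_iff _ _).2 ⟨hy, mem_chart_source _ _⟩
    have h2 := (form_smooth hG (D.π (nrm y)) k l).comp
      (contDiffOn_inc_nrm.mono fun z hz => W_UU hz) h0
    exact ((h2.congr fun z hz => form_eq hG (mem_W _) (h0 z hz) _ _).contDiffAt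
      ((D.W_open _).mem_nhds h1)).contDiffWithinAt⟩

theorem gS_apply (hG : ChartData G) (k l : Fin 6) {x : PP} (h : inc x ∈ D.W p) :
    (gS hG k l).1 x = form D G p (inc x) (Jv k (inc x)) (Jv l (inc x)) :=
  form_eq hG (mem_W x) h _ _

theorem φ_act (hB : BasB) (α β : ℝ) (h : x ∈ D.W p) :
    act α β x ∈ D.W p ∧ D.φ p (act α β x) = D.φ p x :=
  W_congr h (act_mem α β (W_UU h)) ((D.fib _ _).2 (hB.orb_nrm α β x (W_UU h))).symm

theorem dφ_act (hB : BasB) (α β : ℝ) (h : x ∈ D.W p) (v : EE) :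
    fderiv ℝ (D.φ p) (act α β x) (act α β v) = fderiv ℝ (D.φ p) x v := by
  have h1 : D.φ p =ᶠ[𝓝 x] D.φ p ∘ actL α β := by
    filter_upwards [(D.W_open p).mem_nhds h] with y hy using (φ_act hB α β hy).2.symm
  rw [h1.fderiv_eq, fderiv_comp (f := actL α β) x (φ_diff (φ_act hB α β h).1)
    (actL α β).differentiableAt, (actL α β).fderiv]
  rfl

theorem gS_act (hB : BasB) (hG : ChartData G) (α β : ℝ) (k l : Fin 6) (x : PP) :
    ext (gS hG k l) (act α β (inc x)) = ∑ m, ∑ n, (gS hG m n).1 x *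
      Rm (α + (α + β)) (β + (2 * α + β)) k m * Rm (α + (α + β)) (β + (2 * α + β)) l n := by
  have h := φ_act hB α β (mem_W (D := D) x)
  rw [ext, gS_apply (p := D.π x) hG k l (by rw [inc_nrm_act]; exact h.1), inc_nrm_act, form,
    J_act, J_act, dφ_act hB α β (mem_W x), dφ_act hB α β (mem_W x), h.2, map_sum, map_sum]
  simp only [map_smul]
  rw [Q_sum]
  rfl

theorem path {F : Type} [NormedAddCommGroup F] [NormedSpace ℝ F] (hB : BasB) {f : EE → F}
    {x : PP} (hf : DifferentiableAt ℝ f (inc x)) (b : Fin 2) :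
    HasDerivAt (fun τ : ℝ => f (act (τ * (Pi.single b 1 : Fin 2 → ℝ) 0)
      (τ * (Pi.single b 1 : Fin 2 → ℝ) 1) (inc x)))
      (∑ k, (Vv b k).1 x • fderiv ℝ f (inc x) (Jv k (inc x))) 0 := by
  have h1 := hB.act_deriv x (Pi.single b 1)
  have h2 := hf.hasFDerivAt.comp_hasDerivAt_of_eq (0 : ℝ) h1 (by simp [act_zero])
  refine h2.congr_deriv ?_
  simp [Pi.single_apply]

theorem ev_sum {ι : Type} [Fintype ι] (f : ι → SS) (x : PP) : (∑ i, f i).1 x = ∑ i, (f i).1 x :=
  map_sum (evS x) f univ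

theorem vf_gS (hA : BasA) (hB : BasB) (hG : ChartData G) (b : Fin 2) (k l : Fin 6) :
    vf (Vv b) (gS hG k l) = ∑ m, kap b k m • gS hG m l + ∑ m, kap b l m • gS hG k m := by
  refine Subtype.ext (funext fun x => ?_)
  have h1 := path hB (ext_diff (gS hG k l) (inc_mem x)) b
  simp only [gS_act hB hG] at h1
  set c : Fin 2 → ℝ := Pi.single b 1 with hc
  have e1 : ∀ τ : ℝ, τ * c 0 + (τ * c 0 + τ * c 1) = τ * (2 * c 0 + c 1) := fun τ => by ring
  have e2 : ∀ τ : ℝ, τ * c 1 + (2 * (τ * c 0) + τ * c 1) = τ * (2 * c 0 + 2 * c 1) :=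
    fun τ => by ring
  have e3 : ∀ k m, (2 * c 0 + c 1) / 2 * cc 0 k m + (2 * c 0 + 2 * c 1) / 2 * cc 3 k m =
      kap b k m := fun k m => by fin_cases b <;> simp [hc, kap]
  simp only [e1, e2] at h1
  have h2 := HasDerivAt.fun_sum (u := univ) fun m _ => HasDerivAt.fun_sum (u := univ) fun n _ =>
    ((Rm_deriv (2 * c 0 + c 1) (2 * c 0 + 2 * c 1) k m).const_mul ((gS hG m n).1 x)).fun_mul
      (Rm_deriv (2 * c 0 + c 1) (2 * c 0 + 2 * c 1) l n)
  have h3 := h1.unique h2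
  simp only [e3, zero_mul, Rm_zero, sum_add_distrib, mul_ite, ite_mul, mul_one, mul_zero,
    sum_ite_eq, mem_univ, if_true, smul_eq_mul] at h3
  rw [sum_comm (s := (univ : Finset (Fin 6)))] at h3
  simp only [sum_ite_eq, mem_univ, if_true] at h3
  rw [hA.vf_apply, ev_sum]
  refine h3.trans ?_
  rw [← evS_apply]
  simp only [map_add, map_sum, map_smul, evS_apply, smul_eq_mul, mul_comm]

theorem brk_V (hA : BasA) (b : Fin 2) (u : Fin 6 → SS) (m : Fin 6) :
    brk (Vv b) u m = vf (Vv b) (u m) + ∑ k, kap b k m • u k := by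
  have h : ∀ k, u k * brk (Vv b) (Pi.single k 1) m =
      -(u k * X k (Vv b m)) + ∑ j, cc j k m • (Vv b j * u k) := fun k => by
    have : vf (Vv b) ((Pi.single k 1 : Fin 6 → SS) m) = 0 := by
      rw [Pi.single_apply]; split_ifs <;> simp
    rw [brk, this, hA.vf_apply]
    simp [Pi.single_apply, mul_add, mul_sum, mul_comm]
    ring
  simp only [hA.brk_V_e, mul_comm (u _), ← Algebra.smul_def] at h
  simp only [h, sum_add_distrib, sum_neg_distrib]
  rw [brk, hA.vf_apply u, sum_comm]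
  simp only [mul_comm (u _)]
  ring

end PullP

open PullP

theorem pull (hA : BasA) (hB : BasB) (hI : S_Imm) : S_Pull := by
  intro D G hG
  have pd : ∀ p z, (G p z).PosDef := fun p z => hG.posdef p z (by simp [D.target])
  have qd : ∀ (x : PP) (ξ : Fin 6 → ℝ), ∑ k, ∑ l, (gS hG k l).1 x * ξ k * ξ l =
      form D G (D.π x) (inc x) (∑ k, ξ k • Jv k (inc x)) (∑ k, ξ k • Jv k (inc x)) := fun x ξ => by
    rw [form, map_sum]
    simp only [map_smul]
    rw [Q_sum]
    rfl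
  refine ⟨⟨gS hG, fun k l => Subtype.ext (funext fun x => ?_), fun x ξ => ?_, fun x ξ h => ?_,
    fun b k => Subtype.ext (funext fun x => ?_), fun b u w => ?_⟩,
    fun p x h k l => gS_apply hG k l h⟩
  · change Q _ _ _ = Q _ _ _
    unfold Q
    rw [sum_comm]
    refine sum_congr rfl fun i _ => sum_congr rfl fun j _ => ?_
    have := (pd (D.π x) (D.φ (D.π x) (inc x))).1.apply i j
    rw [star_trivial] at this
    rw [this]
    ring
  · rw [qd, form]
    by_cases h : fderiv ℝ (D.φ (D.π x)) (inc x) (∑ k, ξ k • Jv k (inc x)) = 0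
    · rw [h, Q_zero]
    · exact (Q_pos (pd _ _) h).le
  · rw [qd, form] at h
    have h1 : fderiv ℝ (D.φ (D.π x)) (inc x) (∑ k, ξ k • Jv k (inc x)) = 0 :=
      by_contra fun hn => (Q_pos (pd _ _) hn).ne' h
    obtain ⟨m, f, hf⟩ := hI
    refine hf x ξ fun a => ?_
    have h2 : ext (f a).1 =ᶠ[𝓝 (inc x)] (ext (f a).1 ∘ D.σ (D.π x)) ∘ D.φ (D.π x) := by
      filter_upwards [(D.W_open _).mem_nhds (mem_W (D := D) x)] with y hy
      exact hB.orb_inv _ _ _ ((D.fib _ _).1 (by rw [← D.σ_eq, symm_φ hy]))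
    have h3 : fderiv ℝ (ext (f a).1) (inc x) (∑ k, ξ k • Jv k (inc x)) = 0 := by
      rw [h2.fderiv_eq, fderiv_comp _ ((ext_diff _ (W_UU (D.σ_mem _ _))).comp _
        ((D.σ_smooth _).differentiable (by simp) _)) (φ_diff (mem_W x)),
        ContinuousLinearMap.comp_apply, h1, map_zero]
    simpa [X_apply] using h3
  · have h1 := path hB (φ_diff (mem_W (D := D) x)) b
    simp only [(φ_act hB _ _ (mem_W x)).2] at h1
    have h2 := Q_right (G (D.π x) (D.φ (D.π x) (inc x)))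
      (fderiv ℝ (D.φ (D.π x)) (inc x) (Jv k (inc x)))
      (fun l => fderiv ℝ (D.φ (D.π x)) (inc x) (Jv l (inc x))) fun l => (Vv b l).1 x
    rw [h1.unique (hasDerivAt_const _ _), Q_zero] at h2
    rw [ev_sum]
    exact h2.symm
  · simp only [gq, map_sum, Derivation.leibniz, vf_gS hA hB, brk_V hA, smul_eq_mul, mul_add, add_mul,
      sum_add_distrib, mul_sum, sum_mul, mul_smul_comm, smul_mul_assoc]
    have a1 : ∑ k, ∑ l, ∑ m, kap b k m • (w l * (u k * gS hG m l)) =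
        ∑ m, ∑ l, ∑ k, kap b k m • (gS hG m l * u k * w l) := by
      rw [sum_comm, sum_comm (s := (univ : Finset (Fin 6)))
        (f := fun m l => ∑ k, kap b k m • (gS hG m l * u k * w l))]
      refine sum_congr rfl fun l _ => ?_
      rw [sum_comm]
      exact sum_congr rfl fun _ _ => sum_congr rfl fun _ _ => by congr 1; ring
    have a2 : ∑ k, ∑ l, ∑ m, kap b l m • (w l * (u k * gS hG k m)) =
        ∑ k, ∑ m, ∑ l, kap b l m • (gS hG k m * u k * w l) := by
      refine sum_congr rfl fun k _ => ?_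
      rw [sum_comm]
      exact sum_congr rfl fun _ _ => sum_congr rfl fun _ _ => by congr 1; ring
    have a3 : ∑ k, ∑ l, w l * (gS hG k l * vf (Vv b) (u k)) =
        ∑ k, ∑ l, gS hG k l * vf (Vv b) (u k) * w l :=
      sum_congr rfl fun _ _ => sum_congr rfl fun _ _ => by ring
    rw [a1, a2, a3]
    ring

end Pool.Agent.P.MP_713680_gt
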