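import Pool.Agent.P.MP_713680_gt.UpSt

/-!
MP_713680_gt, package E2: orthogonal projections, flat Poincare inequality, compactness.
-/

noncomputable section

namespace Pool.Agent.P.MP_713680_gt

open Finset Filter Topology

namespace RCP

open scoped InnerProductSpace

variable {E K : Type} [NormedAddCommGroup E] [InnerProductSpace ℝ E] [Fintype K]

/-- Words in the operators `D`. -/
def WA (D : K → E →ₗ[ℝ] E) : List K → E →ₗ[ℝ] E
  | [] => LinearMap.id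
  | k :: l => D k ∘ₗ WA D l

/-- Homogeneous Sobolev seminorms squared. -/
def NA (D : K → E →ₗ[ℝ] E) : ℕ → E → ℝ
  | 0, g => ‖g‖ ^ 2
  | n + 1, g => ∑ k, NA D n (D k g)

/-- The abstract setting. -/
structure AS (D : K → E →ₗ[ℝ] E) (V : ℕ → Submodule ℝ E) (π : ℕ → E →ₗ[ℝ] E) : Prop where
  fin : ∀ n, FiniteDimensional ℝ (V n)
  mono : Monotone V
  V_X : ∀ n k, ∀ f ∈ V n, D k f ∈ V n
  skew : ∀ k g h, ⟪D k g, h⟫_ℝ = (-1) * ⟪g, D k h⟫_ℝ
  dense : ∀ f, ∀ ε > 0, ∃ n, ∃ g ∈ V n, ‖f - g‖ ^ 2 < ε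
  gap : ∀ n, ∀ u ∈ V (n + 1), (∀ v ∈ V n, ⟪u, v⟫_ℝ = 0) →
    ((n : ℝ) + 1) * ‖u‖ ^ 2 ≤ ∑ k, ‖D k u‖ ^ 2
  lim : ∀ w : ℕ → E, (∀ n, w n ∈ V n) →
    (∀ (l : List K) (s : ℕ), ∃ B, ∀ n : ℕ, ((n : ℝ) + 1) ^ s * ‖WA D l (w n)‖ ^ 2 ≤ B) →
    ∃ u, Tendsto (fun n => ‖u - ∑ i ∈ range n, w i‖ ^ 2) atTop (𝓝 0)
  mem : ∀ n g, π n g ∈ V n
  orth : ∀ n g, ∀ h ∈ V n, ⟪g - π n g, h⟫_ℝ = 0

theorem exists_proj (V : ℕ → Submodule ℝ E) (hV : ∀ n, FiniteDimensional ℝ (V n)) :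
    ∃ π : ℕ → E →ₗ[ℝ] E, (∀ n g, π n g ∈ V n) ∧ ∀ n g, ∀ h ∈ V n, ⟪g - π n g, h⟫_ℝ = 0 :=
  ⟨fun n => (V n).starProjection.toLinearMap, fun n g => (V n).starProjection_apply_mem g,
    fun _ g h hh => Submodule.starProjection_inner_eq_zero g h hh⟩

theorem pyth {a b : E} (h : ⟪a, b⟫_ℝ = 0) : ‖a + b‖ ^ 2 = ‖a‖ ^ 2 + ‖b‖ ^ 2 := by
  rw [norm_add_sq_real, h]; ring

theorem NA_nonneg (D : K → E →ₗ[ℝ] E) : ∀ (n : ℕ) (g : E), 0 ≤ NA D n g
  | 0, _ => sq_nonneg _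
  | n + 1, g => Finset.sum_nonneg fun k _ => NA_nonneg D n (D k g)

theorem NA_word (D : K → E →ₗ[ℝ] E) : ∀ (l : List K) (s : ℕ) (g : E),
    NA D s (WA D l g) ≤ NA D (s + l.length) g
  | [], _, _ => le_rfl
  | k :: l, s, g => by
    have h1 : NA D s (D k (WA D l g)) ≤ NA D (s + 1) (WA D l g) :=
      Finset.single_le_sum (f := fun k => NA D s (D k (WA D l g)))
        (fun k _ => NA_nonneg D s _) (Finset.mem_univ k)
    have h2 := NA_word D l (s + 1) g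
    have h3 : s + (k :: l).length = s + 1 + l.length := by simp; omega
    rw [h3]
    exact h1.trans h2

theorem NA_contr (D : K → E →ₗ[ℝ] E) (T : E → E) (h1 : ∀ g, ‖T g‖ ^ 2 ≤ ‖g‖ ^ 2)
    (h2 : ∀ k g, D k (T g) = T (D k g)) : ∀ (s : ℕ) (g : E), NA D s (T g) ≤ NA D s g
  | 0, g => h1 g
  | s + 1, g => Finset.sum_le_sum fun k _ => by
    rw [h2]; exact NA_contr D T h1 h2 s (D k g)

omit [Fintype K] in
theorem WA_comm (D : K → E →ₗ[ℝ] E) (T : E → E) (h2 : ∀ k g, D k (T g) = T (D k g)) :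
    ∀ (l : List K) (g : E), WA D l (T g) = T (WA D l g)
  | [], _ => rfl
  | k :: l, g => by
    change D k (WA D l (T g)) = T (D k (WA D l g))
    rw [WA_comm D T h2 l g, h2]

variable {D : K → E →ₗ[ℝ] E} {V : ℕ → Submodule ℝ E} {π : ℕ → E →ₗ[ℝ] E}

theorem AS.uniq (h : AS D V π) {n : ℕ} {g v : E} (hv : v ∈ V n)
    (ho : ∀ w ∈ V n, ⟪g - v, w⟫_ℝ = 0) : π n g = v := by
  have hm : π n g - v ∈ V n := (V n).sub_mem (h.mem n g) hv
  have h1 := ho _ hm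
  have h2 := h.orth n g _ hm
  have h3 : ⟪π n g - v, π n g - v⟫_ℝ = 0 := by
    have : π n g - v = (g - v) - (g - π n g) := by abel
    calc ⟪π n g - v, π n g - v⟫_ℝ = ⟪(g - v) - (g - π n g), π n g - v⟫_ℝ := by rw [← this]
      _ = 0 := by rw [inner_sub_left, h1, h2, sub_zero]
  exact sub_eq_zero.1 (inner_self_eq_zero.1 h3)

theorem AS.comm (h : AS D V π) (T : E →ₗ[ℝ] E) (t : ℝ) (h1 : ∀ n, ∀ g ∈ V n, T g ∈ V n)
    (h2 : ∀ g g', ⟪T g, g'⟫_ℝ = t * ⟪g, T g'⟫_ℝ) (n : ℕ) (g : E) : π n (T g) = T (π n g) := by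
  refine h.uniq (h1 n _ (h.mem n g)) fun w hw => ?_
  rw [← map_sub, h2, h.orth n g _ (h1 n w hw), mul_zero]

theorem AS.commD (h : AS D V π) (n : ℕ) (k : K) (g : E) : D k (π n g) = π n (D k g) :=
  (h.comm (D k) (-1) (fun n => h.V_X n k) (h.skew k) n g).symm

theorem AS.split (h : AS D V π) (n : ℕ) (g : E) {v : E} (hv : v ∈ V n) :
    ‖g - v‖ ^ 2 = ‖g - π n g‖ ^ 2 + ‖π n g - v‖ ^ 2 := by
  rw [← pyth (h.orth n g _ ((V n).sub_mem (h.mem n g) hv))]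
  congr 2; abel

theorem AS.split0 (h : AS D V π) (n : ℕ) (g : E) :
    ‖g‖ ^ 2 = ‖g - π n g‖ ^ 2 + ‖π n g‖ ^ 2 := by
  simpa using h.split n g (V n).zero_mem

theorem AS.conv (h : AS D V π) (g : E) :
    Tendsto (fun n => ‖g - π n g‖ ^ 2) atTop (𝓝 0) := by
  rw [Metric.tendsto_atTop]
  intro ε hε
  obtain ⟨n, v, hv, hlt⟩ := h.dense g ε hε
  refine ⟨n, fun m hm => ?_⟩
  rw [Real.dist_eq, sub_zero, abs_of_nonneg (sq_nonneg _)]
  have := h.split m g (h.mono hm hv)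
  nlinarith [sq_nonneg ‖π m g - v‖]

/-- The graded pieces. -/
def Q (π : ℕ → E →ₗ[ℝ] E) : ℕ → E → E
  | 0, g => π 0 g
  | n + 1, g => π (n + 1) g - π n g

theorem AS.Q_mem (h : AS D V π) : ∀ (n : ℕ) (g : E), Q π n g ∈ V n
  | 0, g => h.mem 0 g
  | n + 1, g => (V (n + 1)).sub_mem (h.mem _ g) (h.mono (Nat.le_succ n) (h.mem n g))

theorem AS.Q_orth (h : AS D V π) (n : ℕ) (g : E) {v : E} (hv : v ∈ V n) :
    ⟪Q π (n + 1) g, v⟫_ℝ = 0 := by
  have : Q π (n + 1) g = (g - π n g) - (g - π (n + 1) g) := by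
    change π (n + 1) g - π n g = _
    abel
  rw [this, inner_sub_left, h.orth n g v hv, h.orth (n + 1) g v (h.mono (Nat.le_succ n) hv),
    sub_zero]

theorem AS.Q_comm (h : AS D V π) : ∀ (n : ℕ) (k : K) (g : E), D k (Q π n g) = Q π n (D k g)
  | 0, k, g => h.commD 0 k g
  | n + 1, k, g => by
    change D k (π (n + 1) g - π n g) = π (n + 1) (D k g) - π n (D k g)
    rw [map_sub, h.commD, h.commD]

theorem AS.Q_step (h : AS D V π) (n : ℕ) (g : E) :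
    ‖π (n + 1) g‖ ^ 2 = ‖Q π (n + 1) g‖ ^ 2 + ‖π n g‖ ^ 2 := by
  rw [← pyth (h.Q_orth n g (h.mem n g))]
  congr 2
  change _ = π (n + 1) g - π n g + π n g
  abel

theorem AS.pi_le (h : AS D V π) (n : ℕ) (g : E) : ‖π n g‖ ^ 2 ≤ ‖g‖ ^ 2 := by
  have := h.split0 n g
  nlinarith [sq_nonneg ‖g - π n g‖]

theorem AS.Q_le (h : AS D V π) : ∀ (n : ℕ) (g : E), ‖Q π n g‖ ^ 2 ≤ ‖g‖ ^ 2
  | 0, g => h.pi_le 0 g
  | n + 1, g => by
    have h1 := h.Q_step n g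
    have h2 := h.pi_le (n + 1) g
    nlinarith [sq_nonneg ‖π n g‖]

theorem sum_Q (g : E) : ∀ n : ℕ, ∑ i ∈ range (n + 1), Q π i g = π n g
  | 0 => by simp [Q]
  | n + 1 => by
    rw [Finset.sum_range_succ, sum_Q g n]
    change π n g + (π (n + 1) g - π n g) = _
    abel

theorem AS.poinc (h : AS D V π) (n : ℕ) (g : E) (hg : ∀ v ∈ V n, ⟪g, v⟫_ℝ = 0) :
    ((n : ℝ) + 1) * ‖g‖ ^ 2 ≤ ∑ k, ‖D k g‖ ^ 2 := by
  have h0 : π n g = 0 := h.uniq (V n).zero_mem fun w hw => by rw [sub_zero]; exact hg w hw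
  have h1 : ∀ m, n ≤ m → ((n : ℝ) + 1) * ‖π m g‖ ^ 2 ≤ ∑ k, ‖π m (D k g)‖ ^ 2 := by
    intro m hm
    induction m, hm using Nat.le_induction with
    | base =>
      rw [h0, norm_zero, zero_pow two_ne_zero, mul_zero]
      exact Finset.sum_nonneg fun k _ => sq_nonneg _
    | succ m hm ih =>
      have hg1 := h.gap m (Q π (m + 1) g) (h.Q_mem _ g) fun v hv => h.Q_orth m g hv
      simp only [h.Q_comm] at hg1
      simp only [h.Q_step m, Finset.sum_add_distrib]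
      have hm' : (n : ℝ) ≤ m := by exact_mod_cast hm
      nlinarith [sq_nonneg ‖Q π (m + 1) g‖]
  have h2 : Tendsto (fun m => ((n : ℝ) + 1) * (‖g‖ ^ 2 - ‖g - π m g‖ ^ 2)) atTop
      (𝓝 (((n : ℝ) + 1) * (‖g‖ ^ 2 - 0))) :=
    (tendsto_const_nhds.sub (h.conv g)).const_mul _
  rw [sub_zero] at h2
  refine le_of_tendsto h2 (eventually_atTop.2 ⟨n, fun m hm => ?_⟩)
  have h3 := h.split0 m g
  have h4 : ‖g‖ ^ 2 - ‖g - π m g‖ ^ 2 = ‖π m g‖ ^ 2 := by linarith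
  simp only [h4]
  exact (h1 m hm).trans (Finset.sum_le_sum fun k _ => h.pi_le m _)

theorem AS.poincN (h : AS D V π) (n : ℕ) : ∀ (s : ℕ) (g : E), (∀ v ∈ V n, ⟪g, v⟫_ℝ = 0) →
    ((n : ℝ) + 1) ^ s * ‖g‖ ^ 2 ≤ NA D s g
  | 0, g, _ => by simp [NA]
  | s + 1, g, hg => by
    have h1 := h.poinc n g hg
    have h2 : ∀ k, ((n : ℝ) + 1) ^ s * ‖D k g‖ ^ 2 ≤ NA D s (D k g) := fun k =>
      h.poincN n s (D k g) fun v hv => by rw [h.skew, hg _ (h.V_X n k v hv), mul_zero]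
    have h3 : (0 : ℝ) ≤ ((n : ℝ) + 1) ^ s := by positivity
    calc ((n : ℝ) + 1) ^ (s + 1) * ‖g‖ ^ 2 = ((n : ℝ) + 1) ^ s * (((n : ℝ) + 1) * ‖g‖ ^ 2) := by
          ring
      _ ≤ ((n : ℝ) + 1) ^ s * ∑ k, ‖D k g‖ ^ 2 := mul_le_mul_of_nonneg_left h1 h3
      _ = ∑ k, ((n : ℝ) + 1) ^ s * ‖D k g‖ ^ 2 := Finset.mul_sum _ _ _
      _ ≤ _ := Finset.sum_le_sum fun k _ => h2 k

theorem AS.Q_decay (h : AS D V π) (s : ℕ) (g : E) : ∀ n : ℕ,
    ((n : ℝ) + 1) ^ s * ‖Q π n g‖ ^ 2 ≤ 2 ^ s * (NA D s g + NA D 0 g)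
  | 0 => by
    have h1 := h.Q_le 0 g
    have h2 := NA_nonneg D s g
    have h3 : (1 : ℝ) ≤ 2 ^ s := one_le_pow₀ one_le_two
    have h4 : NA D 0 g = ‖g‖ ^ 2 := rfl
    simp only [Nat.cast_zero, zero_add, one_pow, one_mul]
    nlinarith [sq_nonneg ‖g‖]
  | n + 1 => by
    have h1 := h.poincN n s (Q π (n + 1) g) fun v hv => h.Q_orth n g hv
    have h2 := NA_contr D (Q π (n + 1)) (h.Q_le _) (h.Q_comm _) s g
    have h3 : (((n + 1 : ℕ) : ℝ) + 1) ^ s ≤ 2 ^ s * ((n : ℝ) + 1) ^ s := by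
      rw [← mul_pow]
      refine pow_le_pow_left₀ (by positivity) ?_ s
      have : (0 : ℝ) ≤ n := Nat.cast_nonneg n
      push_cast; linarith
    have h4 := NA_nonneg D 0 g
    have h5 : (0 : ℝ) ≤ 2 ^ s := by positivity
    calc (((n + 1 : ℕ) : ℝ) + 1) ^ s * ‖Q π (n + 1) g‖ ^ 2
        ≤ 2 ^ s * ((n : ℝ) + 1) ^ s * ‖Q π (n + 1) g‖ ^ 2 :=
          mul_le_mul_of_nonneg_right h3 (sq_nonneg _)
      _ = 2 ^ s * (((n : ℝ) + 1) ^ s * ‖Q π (n + 1) g‖ ^ 2) := mul_assoc _ _ _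
      _ ≤ _ := mul_le_mul_of_nonneg_left (by linarith) h5

theorem AS.tail (h : AS D V π) (n : ℕ) (g : E) :
    ((n : ℝ) + 1) * ‖g - π n g‖ ^ 2 ≤ NA D 1 g := by
  have h1 := h.poincN n 1 (g - π n g) (h.orth n g)
  have h2 := NA_contr D (fun g => g - π n g)
    (fun g => by have := h.split0 n g; nlinarith [sq_nonneg ‖π n g‖])
    (fun k g => by rw [map_sub, h.commD]) 1 g
  rw [pow_one] at h1
  exact h1.trans h2

theorem AS.compact (h : AS D V π) (κ : Type) [Fintype κ] (u : ℕ → κ → E)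
    (hu : ∀ n, ∃ B, ∀ N i, NA D n (u N i) ≤ B) :
    ∃ (φ : ℕ → ℕ) (g : κ → E), StrictMono φ ∧
      ∀ i, Tendsto (fun N => ‖u (φ N) i - g i‖ ^ 2) atTop (𝓝 0) := by
  choose B hB using hu
  have := h.fin
  let x : ℕ → (p : ℕ × κ) → V p.1 := fun N p => ⟨Q π p.1 (u N p.2), h.Q_mem _ _⟩
  have hc : IsCompact (Set.pi Set.univ fun p : ℕ × κ =>
      Metric.closedBall (0 : V p.1) (Real.sqrt (B 0))) :=
    isCompact_univ_pi fun p => isCompact_closedBall _ _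
  have hx : ∀ N, x N ∈ Set.pi Set.univ fun p : ℕ × κ =>
      Metric.closedBall (0 : V p.1) (Real.sqrt (B 0)) := by
    intro N p _
    rw [mem_closedBall_zero_iff]
    exact Real.le_sqrt_of_sq_le ((h.Q_le p.1 (u N p.2)).trans (hB 0 N p.2))
  obtain ⟨w, -, φ, hφ, hw⟩ := hc.tendsto_subseq hx
  have hw1 : ∀ (T : E →ₗ[ℝ] E) (j : ℕ) (i : κ),
      Tendsto (fun N => T (Q π j (u (φ N) i))) atTop (𝓝 (T (w (j, i)))) := by
    intro T j i
    have h1 := tendsto_pi_nhds.1 hw (j, i)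
    have h2 : Continuous (T ∘ₗ (V j).subtype) := LinearMap.continuous_of_finiteDimensional _
    exact (h2.tendsto _).comp h1
  have hg : ∀ i, ∃ g : E, Tendsto (fun n => ‖g - ∑ j ∈ range n, (w (j, i) : E)‖ ^ 2) atTop (𝓝 0) := by
    intro i
    refine h.lim (fun j => (w (j, i) : E)) (fun j => (w (j, i)).2) fun l s =>
      ⟨2 ^ s * (B (s + l.length) + B (0 + l.length)), fun n => ?_⟩
    have h1 : Tendsto (fun N => ((n : ℝ) + 1) ^ s * ‖WA D l (Q π n (u (φ N) i))‖ ^ 2) atTop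
        (𝓝 (((n : ℝ) + 1) ^ s * ‖WA D l (w (n, i))‖ ^ 2)) :=
      ((hw1 (WA D l) n i).norm.pow 2).const_mul _
    refine le_of_tendsto' h1 fun N => ?_
    rw [WA_comm D (Q π n) (h.Q_comm n)]
    refine (h.Q_decay s _ n).trans (mul_le_mul_of_nonneg_left ?_ (by positivity))
    exact add_le_add ((NA_word D l s _).trans (hB _ _ _)) ((NA_word D l 0 _).trans (hB _ _ _))
  choose g hg using hg
  refine ⟨φ, g, hφ, fun i => ?_⟩
  rw [Metric.tendsto_atTop]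
  intro ε hε
  have e1 : ∀ᶠ n : ℕ in atTop, ‖g i - ∑ j ∈ range (n + 1), (w (j, i) : E)‖ ^ 2 < ε / 9 :=
    ((hg i).comp (tendsto_add_atTop_nat 1)).eventually (gt_mem_nhds (by positivity))
  have e2 : ∀ᶠ n : ℕ in atTop, B 1 / (ε / 9) < (n : ℝ) :=
    tendsto_natCast_atTop_atTop.eventually (eventually_gt_atTop _)
  obtain ⟨n, hn1, hn2⟩ := (e1.and e2).exists
  have e3 : Tendsto (fun N => ‖∑ j ∈ range (n + 1), Q π j (u (φ N) i)
      - ∑ j ∈ range (n + 1), (w (j, i) : E)‖ ^ 2) atTop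
      (𝓝 (‖∑ j ∈ range (n + 1), (w (j, i) : E) - ∑ j ∈ range (n + 1), (w (j, i) : E)‖ ^ 2)) :=
    ((tendsto_finsetSum _ fun j _ => hw1 LinearMap.id j i).sub tendsto_const_nhds).norm.pow 2
  rw [sub_self, norm_zero, zero_pow two_ne_zero] at e3
  obtain ⟨N0, hN0⟩ := eventually_atTop.1 (e3.eventually (gt_mem_nhds (by positivity : 0 < ε / 9)))
  refine ⟨N0, fun N hN => ?_⟩
  rw [Real.dist_eq, sub_zero, abs_of_nonneg (sq_nonneg _)]
  have a2 := hN0 N hN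
  rw [sum_Q] at a2
  have a1 : ‖u (φ N) i - π n (u (φ N) i)‖ ^ 2 < ε / 9 := by
    have t1 := (h.tail n (u (φ N) i)).trans (hB 1 _ _)
    rw [div_lt_iff₀ (by positivity)] at hn2
    by_contra hcon
    push Not at hcon
    have : (0 : ℝ) ≤ n := Nat.cast_nonneg n
    nlinarith
  set a := u (φ N) i - π n (u (φ N) i)
  set b := π n (u (φ N) i) - ∑ j ∈ range (n + 1), (w (j, i) : E)
  set c := g i - ∑ j ∈ range (n + 1), (w (j, i) : E)
  have hs : u (φ N) i - g i = a + b - c := by simp only [a, b, c]; abel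
  have hn : ‖a + b - c‖ ≤ ‖a‖ + ‖b‖ + ‖c‖ :=
    (norm_sub_le _ _).trans (add_le_add (norm_add_le _ _) le_rfl)
  rw [hs]
  have hsq : ‖a + b - c‖ ^ 2 ≤ (‖a‖ + ‖b‖ + ‖c‖) ^ 2 := pow_le_pow_left₀ (norm_nonneg _) hn 2
  nlinarith [sq_nonneg (‖a‖ - ‖b‖), sq_nonneg (‖a‖ - ‖c‖), sq_nonneg (‖b‖ - ‖c‖)]

end RCP

open scoped InnerProductSpace in
theorem rc : S_RC := by
  intro P S K _ _ _ ev X c I V h
  have hpos : ∀ g : S, ∀ x, 0 ≤ ev x (g * g) := fun g x => by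
    rw [map_mul]; exact mul_self_nonneg _
  let core : InnerProductSpace.Core ℝ S :=
    { inner := fun g g' => I (g * g')
      conj_inner_symm := fun g g' => by simp [mul_comm]
      re_inner_nonneg := fun g => h.nonneg _ (hpos g)
      add_left := fun g g' g'' => by simp [add_mul]
      smul_left := fun g g' r => by simp
      definite := fun g hg => h.ev_inj g fun x => by
        have h1 := h.faith _ (hpos g) hg
        have h2 : ev x g * ev x g = 0 := by rw [← map_mul, h1, map_zero]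
        exact mul_self_eq_zero.1 h2 }
  letI : NormedAddCommGroup S := @InnerProductSpace.Core.toNormedAddCommGroup ℝ S _ _ _ core
  letI : InnerProductSpace ℝ S := InnerProductSpace.ofCore core.toCore
  have hi : ∀ g g' : S, ⟪g, g'⟫_ℝ = I (g * g') := fun _ _ => rfl
  have hn : ∀ g : S, ‖g‖ ^ 2 = I (g * g) := fun g => by rw [← hi, real_inner_self_eq_norm_sq]
  let D : K → S →ₗ[ℝ] S := fun k => (X k).toLinearMap
  have hD : ∀ k g, D k g = X k g := fun _ _ => rfl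
  have hW : ∀ l g, RCP.WA D l g = Xw X l g := by
    intro l g
    induction l with
    | nil => rfl
    | cons k l ih =>
      change X k (RCP.WA D l g) = X k (Xw X l g)
      rw [ih]
  have hN : ∀ n g, RCP.NA D n g = Nk X I n g := by
    intro n
    induction n with
    | zero => exact hn
    | succ n ih => exact fun g => Finset.sum_congr rfl fun k _ => ih _
  obtain ⟨π, hπ1, hπ2⟩ := RCP.exists_proj V h.fin
  have hA : RCP.AS D V π :=
    { fin := h.fin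
      mono := h.mono
      V_X := h.V_X
      skew := fun k g g' => by
        have h1 := h.I_X k (g * g')
        rw [Derivation.leibniz, map_add, smul_eq_mul, smul_eq_mul, mul_comm g'] at h1
        rw [hi, hi, hD, hD]
        linarith
      dense := fun f ε hε => by simpa only [hn] using h.dense f ε hε
      gap := fun n u hu hv => by simpa only [hn, hD] using h.gap n u hu hv
      lim := fun w hw hb => by
        simp only [hn, hW] at hb ⊢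
        exact h.lim w hw hb
      mem := hπ1
      orth := hπ2 }
  refine ⟨⟨π, hπ1, hπ2, fun g => by simpa only [hn] using hA.conv g, hA.comm⟩, ?_, ?_⟩
  · intro g hg
    have := hA.poinc 0 g fun v hv => by
      obtain ⟨a, rfl⟩ := (h.V_zero v).1 hv
      rw [hi, mul_comm, ← Algebra.smul_def, map_smul, hg, smul_zero]
    simpa only [hn, hD, Nat.cast_zero, zero_add, one_mul] using this
  · intro κ _ u hu
    simpa only [hn] using hA.compact κ u (by simpa only [hN] using hu)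

end Pool.Agent.P.MP_713680_gt
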