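import Pool.Agent.P.MP_713680_gt.UpSt

/-!
MP_713680_gt, package M6: the invariant frame read in a chart of the quotient manifold.
-/

open scoped ContDiff Manifold

noncomputable section

namespace Pool.Agent.P.MP_713680_gt

open Finset Filter Topology

namespace ResP

/-- The coordinate `cf i` as a continuous linear map. -/
def cfL (i : Fin 8) : EE →L[ℝ] ℝ :=
  LinearMap.toContinuousLinearMap (IsLinearMap.mk' (cf i) (by
    constructor
    · intro x y; fin_cases i <;> simp [cf]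
    · intro c x; fin_cases i <;> simp [cf]))

theorem cfL_apply (i : Fin 8) (v : EE) : cfL i v = cf i v := rfl

theorem cf_ext {v w : EE} (h : ∀ i, cf i v = cf i w) : v = w := by
  have h0 := h 0
  have h1 := h 1
  have h2 := h 2
  have h3 := h 3
  have h4 := h 4
  have h5 := h 5
  have h6 := h 6
  have h7 := h 7
  simp only [cf] at h0 h1 h2 h3 h4 h5 h6 h7
  exact Prod.ext (QuaternionAlgebra.ext h0 h1 h2 h3) (QuaternionAlgebra.ext h4 h5 h6 h7)

/-- The radial projection, with values in `EE`. -/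
def NN (x : EE) : EE := inc (nrm x)

theorem NN_diff {x : EE} (hx : x ∈ UU) : DifferentiableAt ℝ NN x :=
  (contDiffOn_inc_nrm.contDiffAt (isOpen_UU.mem_nhds hx)).differentiableAt (by simp)

theorem NN_inc (x : PP) : NN (inc x) = inc x := by simp [NN, nrm_inc]

/-- The tangent vector at `x` with coefficients `ξ`. -/
def tv (x : PP) (ξ : Fin 6 → ℝ) : EE := ∑ k, ξ k • Jv k (inc x)

theorem fderiv_NN (hA : BasA) (x : PP) (v : EE) :
    fderiv ℝ NN (inc x) v = tv x fun k => dot v (Jv k (inc x)) := by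
  apply cf_ext
  intro i
  have h1 : HasFDerivAt (fun y => cfL i (NN y)) ((cfL i).comp (fderiv ℝ NN (inc x))) (inc x) :=
    (cfL i).hasFDerivAt.comp (inc x) (NN_diff (inc_mem x)).hasFDerivAt
  have h2 : (fun y => cfL i (NN y)) = ext (co i) := rfl
  rw [h2] at h1
  have h3 := hA.chain (co i) x v
  rw [h1.fderiv] at h3
  have h4 : ∀ k, (X k (co i)).1 x = cf i (Jv k (inc x)) := by
    intro k
    have e1 : fderiv ℝ (cf i) (inc x) = cfL i := (cfL i).fderiv
    have := hA.X_res (cf i) (contDiff_cf i).contDiffOn k x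
    rw [e1] at this
    exact this
  simp only [h4] at h3
  rw [← cfL_apply, ← cfL_apply, tv, map_sum]
  simp only [map_smul, smul_eq_mul]
  exact h3

theorem fderiv_tv (f : SS) (x : PP) (ξ : Fin 6 → ℝ) :
    fderiv ℝ (ext f) (inc x) (tv x ξ) = ∑ k, ξ k * (X k f).1 x := by
  simp only [tv, map_sum, map_smul, smul_eq_mul, X_apply]

theorem fderiv_pd (F : En 4 → ℝ) (z w : En 4) : fderiv ℝ F z w = ∑ i, w i * pd F i z := by
  have h : w = ∑ i, w i • EuclideanSpace.single i (1 : ℝ) := by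
    ext j
    simp [Finset.sum_apply, Pi.single_apply]
  conv_lhs => rw [h]
  simp only [map_sum, map_smul, smul_eq_mul, pd]

theorem pd_smooth {F : En 4 → ℝ} (hF : ContDiff ℝ ∞ F) (i : Fin 4) : ContDiff ℝ ∞ (pd F i) :=
  (hF.fderiv_right (m := ∞) (by simp)).clm_apply contDiff_const

theorem pd_pd {F : En 4 → ℝ} (hF : ContDiff ℝ ∞ F) (i k : Fin 4) (z : En 4) :
    pd (pd F k) i z = fderiv ℝ (fderiv ℝ F) z (EuclideanSpace.single i 1)
      (EuclideanSpace.single k 1) := by
  have h1 : DifferentiableAt ℝ (fderiv ℝ F) z :=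
    (hF.fderiv_right (m := ∞) (by simp)).differentiable (by simp) z
  have h2 : pd F k = fun y => fderiv ℝ F y (EuclideanSpace.single k 1) := rfl
  rw [pd, h2, fderiv_clm_apply h1 (differentiableAt_const _)]
  simp

theorem pd_comm {F : En 4 → ℝ} (hF : ContDiff ℝ ∞ F) (i k : Fin 4) (z : En 4) :
    pd (pd F k) i z = pd (pd F i) k z := by
  rw [pd_pd hF, pd_pd hF]
  exact (hF.contDiffAt.isSymmSndFDerivAt (by
    rw [minSmoothness_of_isRCLikeNormedField]
    exact WithTop.coe_le_coe.mpr le_top)) _ _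

theorem pd_sum_mul {u v : Fin 4 → En 4 → ℝ} (hu : ∀ k, ContDiff ℝ ∞ (u k))
    (hv : ∀ k, ContDiff ℝ ∞ (v k)) (i : Fin 4) (z : En 4) :
    pd (fun y => ∑ k, u k y * v k y) i z = ∑ k, (pd (u k) i z * v k z + u k z * pd (v k) i z) := by
  have h : HasFDerivAt (fun y => ∑ k, u k y * v k y)
      (∑ k, (u k z • fderiv ℝ (v k) z + v k z • fderiv ℝ (u k) z)) z :=
    HasFDerivAt.fun_sum fun k _ =>
      ((hu k).differentiable (by simp) z).hasFDerivAt.mul
        ((hv k).differentiable (by simp) z).hasFDerivAt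
  rw [pd, h.fderiv, _root_.sum_apply]
  refine Finset.sum_congr rfl fun k _ => ?_
  simp only [add_apply, smul_apply, smul_eq_mul, pd]
  ring

variable (D : ManData) (p : D.M)

theorem W_sub {x : EE} (hx : x ∈ D.W p) : x ∈ UU := ((D.W_iff p x).1 hx).1

theorem NN_mem {x : EE} (hx : x ∈ D.W p) : inc (nrm x) ∈ D.W p := by
  rw [D.W_iff]
  refine ⟨inc_mem _, ?_⟩
  rw [nrm_inc]
  exact ((D.W_iff p x).1 hx).2

theorem phi_NN {x : EE} (hx : x ∈ D.W p) : D.φ p (NN x) = D.φ p x := by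
  rw [NN, D.φ_eq p _ (NN_mem D p hx), D.φ_eq p _ hx, nrm_inc]

theorem phi_at {x : EE} (hx : x ∈ D.W p) : ContDiffAt ℝ ∞ (D.φ p) x :=
  (D.φ_smooth p).contDiffAt ((D.W_open p).mem_nhds hx)

theorem phi_diff {x : EE} (hx : x ∈ D.W p) : DifferentiableAt ℝ (D.φ p) x :=
  (phi_at D p hx).differentiableAt (by simp)

theorem phi_sigma (z : En 4) : D.φ p (D.σ p z) = z := by
  rw [D.φ_eq p _ (D.σ_mem p z), ← D.σ_eq]
  apply (chartAt (En 4) p).right_inv
  rw [D.target]
  trivial

/-- The point of `S³ × S³` over the point with coordinates `z`. -/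
def sec (z : En 4) : PP := nrm (D.σ p z)

theorem sec_mem (z : En 4) : inc (sec D p z) ∈ D.W p := NN_mem D p (D.σ_mem p z)

theorem phi_sec (z : En 4) : D.φ p (inc (sec D p z)) = z :=
  (phi_NN D p (D.σ_mem p z)).trans (phi_sigma D p z)

theorem sec_smooth : ContDiff ℝ ∞ fun z => inc (sec D p z) :=
  contDiffOn_inc_nrm.comp_contDiff (D.σ_smooth p) fun z => W_sub D p (D.σ_mem p z)

theorem val_smooth (f : SS) : ContDiff ℝ ∞ fun z => f.1 (sec D p z) :=
  (ext_smooth f).comp_contDiff (D.σ_smooth p) fun z => W_sub D p (D.σ_mem p z)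

theorem rd_smooth (f : AA) : ContDiff ℝ ∞ (rd D p f) := val_smooth D p f.1

theorem ext_eq (hB : BasB) (f : AA) {x : EE} (hx : x ∈ D.W p) :
    rd D p f (D.φ p x) = ext f.1 x := by
  apply hB.orb_inv f
  rw [← D.fib, ← D.σ_eq, D.φ_eq p _ hx]
  exact (chartAt (En 4) p).left_inv ((D.W_iff p x).1 hx).2

/-- The differential of the chart map on the tangent vector with coefficients `ξ`. -/
def TT (x : PP) (ξ : Fin 6 → ℝ) : En 4 := fderiv ℝ (D.φ p) (inc x) (tv x ξ)

theorem TT_eq (x : PP) (ξ : Fin 6 → ℝ) (i : Fin 4) :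
    TT D p x ξ i = ∑ k, ξ k * fderiv ℝ (D.φ p) (inc x) (Jv k (inc x)) i := by
  simp only [TT, tv, map_sum, map_smul, WithLp.ofLp_sum, Finset.sum_apply, PiLp.smul_apply,
    smul_eq_mul]

theorem chain (hB : BasB) (f : AA) {x : PP} (hx : inc x ∈ D.W p) (ξ : Fin 6 → ℝ) :
    ∑ k, ξ k * (X k f.1).1 x = ∑ i, TT D p x ξ i * pd (rd D p f) i (D.φ p (inc x)) := by
  rw [← fderiv_tv, ← fderiv_pd]
  have h1 : ext f.1 =ᶠ[𝓝 (inc x)] fun y => rd D p f (D.φ p y) := by
    filter_upwards [(D.W_open p).mem_nhds hx] with y hy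
    exact (ext_eq D p hB f hy).symm
  have h2 : HasFDerivAt (fun y => rd D p f (D.φ p y))
      ((fderiv ℝ (rd D p f) (D.φ p (inc x))).comp (fderiv ℝ (D.φ p) (inc x))) (inc x) :=
    ((rd_smooth D p f).differentiable (by simp) _).hasFDerivAt.comp (inc x)
      (phi_diff D p hx).hasFDerivAt
  rw [h1.fderiv_eq, h2.fderiv]
  rfl

theorem TT_surj (hA : BasA) (z u : En 4) : ∃ ξ, TT D p (sec D p z) ξ = u := by
  set x := sec D p z with hxdef
  have hx : inc x ∈ D.W p := sec_mem D p z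
  set v := fderiv ℝ (fun z => inc (sec D p z)) z u with hv
  refine ⟨fun k => dot v (Jv k (inc x)), ?_⟩
  rw [TT, ← fderiv_NN hA]
  have h1 : (fun y => D.φ p (NN y)) =ᶠ[𝓝 (inc x)] D.φ p := by
    filter_upwards [(D.W_open p).mem_nhds hx] with y hy
    exact phi_NN D p hy
  have h0 : HasFDerivAt (D.φ p) (fderiv ℝ (D.φ p) (inc x)) (NN (inc x)) := by
    rw [NN_inc]
    exact (phi_diff D p hx).hasFDerivAt
  have h2 : HasFDerivAt (fun y => D.φ p (NN y))
      ((fderiv ℝ (D.φ p) (inc x)).comp (fderiv ℝ NN (inc x))) (inc x) :=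
    h0.comp (inc x) (NN_diff (inc_mem x)).hasFDerivAt
  have h3 : fderiv ℝ (D.φ p) (inc x) (fderiv ℝ NN (inc x) v) = fderiv ℝ (D.φ p) (inc x) v := by
    have := h2.fderiv
    rw [h1.fderiv_eq] at this
    exact (congrArg (fun L : EE →L[ℝ] En 4 => L v) this).symm
  rw [h3]
  have h4 : HasFDerivAt (fun z => D.φ p (inc (sec D p z)))
      ((fderiv ℝ (D.φ p) (inc x)).comp (fderiv ℝ (fun z => inc (sec D p z)) z)) z :=
    (phi_diff D p hx).hasFDerivAt.comp z
      ((sec_smooth D p).differentiable (by simp) z).hasFDerivAt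
  have h5 : (fun z => D.φ p (inc (sec D p z))) = id := funext fun z => phi_sec D p z
  rw [h5] at h4
  have h6 := h4.unique (hasFDerivAt_id z)
  exact congrArg (fun L : En 4 →L[ℝ] En 4 => L u) h6

theorem act_zero (x : EE) : act 0 0 x = x := by
  simp [act, rq]

theorem TT_vert (hB : BasB) {x : PP} (hx : inc x ∈ D.W p) {ξ : Fin 6 → ℝ} (h : Vert x ξ) :
    TT D p x ξ = 0 := by
  obtain ⟨c, hc⟩ := h
  have h1 := hB.act_deriv x c
  have e0 : act (0 * c 0) (0 * c 1) (inc x) = inc x := by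
    rw [zero_mul, zero_mul, act_zero]
  have e1 : (∑ k, (∑ b, c b * (Vv b k).1 x) • Jv k (inc x)) = tv x ξ := by
    simp only [tv, hc]
  rw [e1] at h1
  have h0 : HasFDerivAt (D.φ p) (fderiv ℝ (D.φ p) (inc x)) (act (0 * c 0) (0 * c 1) (inc x)) := by
    rw [e0]
    exact (phi_diff D p hx).hasFDerivAt
  have h2 := h0.comp_hasDerivAt (0 : ℝ) h1
  have h3 : ∀ᶠ τ : ℝ in 𝓝 0, act (τ * c 0) (τ * c 1) (inc x) ∈ D.W p := by
    apply h1.continuousAt.eventually
    simp only [e0]
    exact (D.W_open p).mem_nhds hx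
  have h4 : (D.φ p ∘ fun τ : ℝ => act (τ * c 0) (τ * c 1) (inc x)) =ᶠ[𝓝 0]
      fun _ => D.φ p (inc x) := by
    filter_upwards [h3] with τ hτ
    rw [Function.comp_apply, D.φ_eq p _ hτ, D.φ_eq p _ hx,
      (D.fib _ _).2 (hB.orb_nrm (τ * c 0) (τ * c 1) _ (inc_mem x))]
  exact (h2.congr_of_eventuallyEq h4.symm).unique (hasDerivAt_const _ _)

theorem kill (hA : BasA) (hB : BasB) (hI : S_Imm) (z : En 4) (w : Fin 4 → ℝ)
    (h : ∀ f : AA, ∑ i, w i * pd (rd D p f) i z = 0) (i : Fin 4) : w i = 0 := by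
  obtain ⟨m, f, hf⟩ := hI
  obtain ⟨ξ, hξ⟩ := TT_surj D p hA z (WithLp.toLp 2 w)
  have h1 : Vert (sec D p z) ξ := by
    apply hf
    intro a
    rw [chain D p hB (f a) (sec_mem D p z), phi_sec, hξ]
    exact h (f a)
  have h2 := TT_vert D p hB (sec_mem D p z) h1
  rw [hξ] at h2
  exact congrArg (fun u : En 4 => u i) h2

theorem gq_eq {G : D.M → En 4 → Matrix (Fin 4) (Fin 4) ℝ} {md : MD} (hL : LkG D G md) (z : En 4)
    (u w : Fin 6 → SS) :
    (gq md.g u w).1 (sec D p z) = ∑ i, ∑ j, G p z i j *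
      TT D p (sec D p z) (fun k => (u k).1 (sec D p z)) i *
      TT D p (sec D p z) (fun k => (w k).1 (sec D p z)) j := by
  have h := hL p (sec D p z) (sec_mem D p z)
  rw [phi_sec] at h
  rw [← evS_apply, gq]
  simp only [map_sum, map_mul, evS_apply, h, TT_eq, Finset.sum_mul, Finset.mul_sum]
  have e : ∀ F : Fin 6 → Fin 6 → Fin 4 → Fin 4 → ℝ,
      ∑ k, ∑ l, ∑ i, ∑ j, F k l i j = ∑ i, ∑ j, ∑ l, ∑ k, F k l i j := by
    intro F
    calc ∑ k, ∑ l, ∑ i, ∑ j, F k l i j = ∑ l, ∑ k, ∑ i, ∑ j, F k l i j := Finset.sum_comm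
      _ = ∑ l, ∑ i, ∑ j, ∑ k, F k l i j := by
        refine Finset.sum_congr rfl fun l _ => ?_
        rw [Finset.sum_comm]
        exact Finset.sum_congr rfl fun i _ => Finset.sum_comm
      _ = ∑ i, ∑ j, ∑ l, ∑ k, F k l i j := by
        rw [Finset.sum_comm]
        exact Finset.sum_congr rfl fun i _ => Finset.sum_comm
  rw [e]
  refine Finset.sum_congr rfl fun i _ => Finset.sum_congr rfl fun j _ =>
    Finset.sum_congr rfl fun l _ => Finset.sum_congr rfl fun k _ => ?_
  ring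

/-- A vector field of `S³ × S³` read in the chart at `p` along the section. -/
def yc (u : Fin 6 → SS) (i : Fin 4) (z : En 4) : ℝ :=
  TT D p (sec D p z) (fun k => (u k).1 (sec D p z)) i

theorem yc_smooth (u : Fin 6 → SS) (i : Fin 4) : ContDiff ℝ ∞ (yc D p u i) := by
  have h1 : ContDiff ℝ ∞ fun z => fderiv ℝ (D.φ p) (inc (sec D p z)) :=
    ((D.φ_smooth p).fderiv_of_isOpen (D.W_open p) (by simp)).comp_contDiff (sec_smooth D p)
      (sec_mem D p)
  have h2 : ContDiff ℝ ∞ fun z => tv (sec D p z) fun k => (u k).1 (sec D p z) :=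
    ContDiff.sum fun k _ => (val_smooth D p (u k)).smul ((Jv k).contDiff.comp (sec_smooth D p))
  exact (EuclideanSpace.proj i : En 4 →L[ℝ] ℝ).contDiff.comp (h1.clm_apply h2)

theorem vf_eq (hA : BasA) (hB : BasB) (u : Fin 6 → SS) (f : AA) (z : En 4) :
    (vf u f.1).1 (sec D p z) = ∑ i, yc D p u i z * pd (rd D p f) i z := by
  have h := chain D p hB f (sec_mem D p z) fun k => (u k).1 (sec D p z)
  rw [phi_sec] at h
  rw [hA.vf_apply, ← evS_apply]
  simp only [map_sum, map_mul, evS_apply]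
  exact h

theorem rd_eq (f : AA) (z : En 4) : rd D p f z = evA (sec D p z) f := rfl

end ResP

open ResP in
theorem resS (hA : BasA) (hB : BasB) (hI : S_Imm) : S_Res := by
  intro D G md ι _ fr C _ hL hC ha p
  have hY : ∀ a f z, rd D p (C.Y a f) z = ∑ i, yc D p (fr.y a) i z * pd (rd D p f) i z := by
    intro a f z
    rw [← vf_eq D p hA hB, ← hC.Y]
    rfl
  refine ⟨fun a => yc D p (fr.y a), rd_smooth D p, fun a => yc_smooth D p _, ?_, hY, ?_, ?_, ?_⟩
  · intro f x hx
    rw [ext_eq D p hB f hx, ext_inc]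
  · intro a b z
    exact (congrArg (fun f : SS => f.1 (sec D p z)) (hC.Pr a b)).trans (gq_eq D p hL z _ _)
  · intro z u k
    obtain ⟨ξ, hξ⟩ := TT_surj D p hA z (WithLp.toLp 2 u)
    set x := sec D p z with hx
    set w : Fin 6 → SS := fun k => algebraMap ℝ SS (ξ k) with hw
    have hwx : (fun k => (w k).1 x) = ξ := rfl
    have h1 : ∀ m, ξ m = ∑ a, (gq md.g w (fr.y a)).1 x * (fr.y a m).1 x
        + ∑ b, (ip1 (fr.al b) w).1 x * (Vv b m).1 x := by
      intro m
      have := congrArg (fun v : Fin 6 → SS => evS x (v m)) (fr.pars w)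
      simp only [Pi.add_apply, Finset.sum_apply, Pi.smul_apply, smul_eq_mul, map_add, map_sum,
        map_mul, evS_apply] at this
      exact this.symm
    have h2 : TT D p x (fun m => ∑ b, (ip1 (fr.al b) w).1 x * (Vv b m).1 x) = 0 :=
      TT_vert D p hB (sec_mem D p z) ⟨fun b => (ip1 (fr.al b) w).1 x, fun _ => rfl⟩
    have h3 := congrArg (fun u : En 4 => u k) h2
    simp only [TT_eq, PiLp.zero_apply] at h3
    have h4 : u k = TT D p x ξ k := (congrArg (fun u : En 4 => u k) hξ).symm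
    have h5 : ∀ a, ∑ i, ∑ j, G p z i j * u i * yc D p (fr.y a) j z = (gq md.g w (fr.y a)).1 x := by
      intro a
      rw [gq_eq D p hL z, ← hx, hwx, hξ]
      rfl
    simp only [h5]
    rw [h4, TT_eq]
    conv_rhs => enter [2, m]; rw [h1 m, add_mul]
    rw [Finset.sum_add_distrib, h3, add_zero]
    simp only [yc, TT_eq, Finset.sum_mul, Finset.mul_sum]
    rw [Finset.sum_comm]
    refine Finset.sum_congr rfl fun m _ => Finset.sum_congr rfl fun a _ => ?_
    ring
  · intro a b k z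
    rw [← sub_eq_zero]
    refine kill D p hA hB hI z (fun k => ∑ i, (yc D p (fr.y a) i z * pd (yc D p (fr.y b) k) i z
      - yc D p (fr.y b) i z * pd (yc D p (fr.y a) k) i z)
      - ∑ c, rd D p (C.Gam a b c - C.Gam b a c) z * yc D p (fr.y c) k z) ?_ k
    intro f
    have hYY : ∀ a b, rd D p (C.Y a (C.Y b f)) z = ∑ i, yc D p (fr.y a) i z *
        ∑ k, (pd (yc D p (fr.y b) k) i z * pd (rd D p f) k z
          + yc D p (fr.y b) k z * pd (pd (rd D p f) k) i z) := by
      intro a b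
      rw [hY, show rd D p (C.Y b f) = fun y => ∑ k, yc D p (fr.y b) k y * pd (rd D p f) k y from
        funext fun y => hY b f y]
      simp only [pd_sum_mul (yc_smooth D p (fr.y b)) (pd_smooth (rd_smooth D p f))]
    have h1 := congrArg (evA (sec D p z)) (ha.Gam_tors a b f)
    rw [map_sub, map_sum] at h1
    simp only [map_mul, ← rd_eq] at h1
    rw [hYY, hYY] at h1
    simp only [hY] at h1
    have h2 : ∑ i, ∑ k, yc D p (fr.y a) i z * (yc D p (fr.y b) k z * pd (pd (rd D p f) k) i z)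
        = ∑ i, ∑ k, yc D p (fr.y b) i z * (yc D p (fr.y a) k z * pd (pd (rd D p f) k) i z) := by
      rw [Finset.sum_comm]
      refine Finset.sum_congr rfl fun i _ => Finset.sum_congr rfl fun k _ => ?_
      rw [pd_comm (rd_smooth D p f)]
      ring
    simp only [Finset.mul_sum, mul_add, Finset.sum_add_distrib] at h1
    rw [h2] at h1
    simp only [sub_mul, Finset.sum_mul, Finset.sum_sub_distrib]
    have h3 : ∀ a b, ∑ k, ∑ i, yc D p (fr.y a) i z * pd (yc D p (fr.y b) k) i z * pd (rd D p f) k z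
        = ∑ i, ∑ k, yc D p (fr.y a) i z * (pd (yc D p (fr.y b) k) i z * pd (rd D p f) k z) := by
      intro a b
      rw [Finset.sum_comm]
      simp only [mul_assoc]
    have h4 : ∑ k, ∑ c, rd D p (C.Gam a b c - C.Gam b a c) z * yc D p (fr.y c) k z
        * pd (rd D p f) k z = ∑ c, ∑ k, rd D p (C.Gam a b c - C.Gam b a c) z
        * (yc D p (fr.y c) k z * pd (rd D p f) k z) := by
      rw [Finset.sum_comm]
      simp only [mul_assoc]
    rw [h3, h3, h4]
    linarith

end Pool.Agent.P.MP_713680_gt
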