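import Pool.Agent.P.MP_713680_gt.UpSt

/-! MP_713680_gt, package M5: the quotient of the round metric in charts. -/

open scoped ContDiff

noncomputable section

namespace Pool.Agent.P.MP_713680_gt

open Finset Matrix Filter Topology

namespace RoundP

theorem unit1 (x : PP) :
    (inc x).1.re ^ 2 + (inc x).1.imI ^ 2 + (inc x).1.imJ ^ 2 + (inc x).1.imK ^ 2 = 1 := by
  have h := Quaternion.normSq_eq_norm_mul_self (x.1 : HH)
  rw [norm_S3, Quaternion.normSq_def'] at h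
  simpa [inc] using h

theorem unit2 (x : PP) :
    (inc x).2.re ^ 2 + (inc x).2.imI ^ 2 + (inc x).2.imJ ^ 2 + (inc x).2.imK ^ 2 = 1 := by
  have h := Quaternion.normSq_eq_norm_mul_self (x.2 : HH)
  rw [norm_S3, Quaternion.normSq_def'] at h
  simpa [inc] using h

theorem dot_eq (v w : EE) : dot v w = v.1.re * w.1.re + v.1.imI * w.1.imI + v.1.imJ * w.1.imJ +
    v.1.imK * w.1.imK + v.2.re * w.2.re + v.2.imI * w.2.imI + v.2.imJ * w.2.imJ +
    v.2.imK * w.2.imK := by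
  simp [dot, cf, Fin.sum_univ_eight]

theorem qi_co : qi.re = 0 ∧ qi.imI = 1 ∧ qi.imJ = 0 ∧ qi.imK = 0 := ⟨rfl, rfl, rfl, rfl⟩
theorem qj_co : qj.re = 0 ∧ qj.imI = 0 ∧ qj.imJ = 1 ∧ qj.imK = 0 := ⟨rfl, rfl, rfl, rfl⟩
theorem qk_co : qk.re = 0 ∧ qk.imI = 0 ∧ qk.imJ = 0 ∧ qk.imK = 1 := ⟨rfl, rfl, rfl, rfl⟩

theorem rq_co (s t : ℝ) (p : HH) : (rq s t p).re = Real.cos s * p.re - Real.sin s * p.imI ∧
    (rq s t p).imI = Real.sin s * p.re + Real.cos s * p.imI ∧
    (rq s t p).imJ = Real.cos t * p.imJ - Real.sin t * p.imK ∧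
    (rq s t p).imK = Real.sin t * p.imJ + Real.cos t * p.imK := ⟨rfl, rfl, rfl, rfl⟩

theorem dot_J (y v : EE) :
    dot (Jv 0 y) v = -y.1.imI * v.1.re + y.1.re * v.1.imI - y.1.imK * v.1.imJ + y.1.imJ * v.1.imK ∧
    dot (Jv 1 y) v = -y.1.imJ * v.1.re + y.1.imK * v.1.imI + y.1.re * v.1.imJ - y.1.imI * v.1.imK ∧
    dot (Jv 2 y) v = -y.1.imK * v.1.re - y.1.imJ * v.1.imI + y.1.imI * v.1.imJ + y.1.re * v.1.imK ∧
    dot (Jv 3 y) v = -y.2.imI * v.2.re + y.2.re * v.2.imI - y.2.imK * v.2.imJ + y.2.imJ * v.2.imK ∧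
    dot (Jv 4 y) v = -y.2.imJ * v.2.re + y.2.imK * v.2.imI + y.2.re * v.2.imJ - y.2.imI * v.2.imK ∧
    dot (Jv 5 y) v = -y.2.imK * v.2.re - y.2.imJ * v.2.imI + y.2.imI * v.2.imJ
      + y.2.re * v.2.imK := by
  have h0 : Jv 0 y = (qi * y.1, 0 * y.2) := rfl
  have h1 : Jv 1 y = (qj * y.1, 0 * y.2) := rfl
  have h2 : Jv 2 y = (qk * y.1, 0 * y.2) := rfl
  have h3 : Jv 3 y = (0 * y.1, qi * y.2) := rfl
  have h4 : Jv 4 y = (0 * y.1, qj * y.2) := rfl
  have h5 : Jv 5 y = (0 * y.1, qk * y.2) := rfl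
  simp only [h0, h1, h2, h3, h4, h5, dot_eq, zero_mul, Quaternion.re_mul, Quaternion.imI_mul,
    Quaternion.imJ_mul, Quaternion.imK_mul, qi_co, qj_co, qk_co, Quaternion.re_zero,
    Quaternion.imI_zero, Quaternion.imJ_zero, Quaternion.imK_zero]
  refine ⟨?_, ?_, ?_, ?_, ?_, ?_⟩ <;> ring

theorem pars (x : PP) (v w : EE) (h1 : dot ((inc x).1, 0) w = 0) (h2 : dot (0, (inc x).2) w = 0) :
    ∑ k, dot (Jv k (inc x)) v * dot (Jv k (inc x)) w = dot v w := by
  have u1 := unit1 x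
  have u2 := unit2 x
  generalize inc x = y at *
  simp only [dot_eq, Quaternion.re_zero, Quaternion.imI_zero, Quaternion.imJ_zero,
    Quaternion.imK_zero] at h1 h2
  simp only [Fin.sum_univ_six, dot_J, dot_eq v w]
  linear_combination
    (v.1.re * w.1.re + v.1.imI * w.1.imI + v.1.imJ * w.1.imJ + v.1.imK * w.1.imK) * u1 +
    (v.2.re * w.2.re + v.2.imI * w.2.imI + v.2.imJ * w.2.imJ + v.2.imK * w.2.imK) * u2 -
    (y.1.re * v.1.re + y.1.imI * v.1.imI + y.1.imJ * v.1.imJ + y.1.imK * v.1.imK) * h1 -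
    (y.2.re * v.2.re + y.2.imI * v.2.imI + y.2.imJ * v.2.imJ + y.2.imK * v.2.imK) * h2

theorem exists_grad (L : EE →L[ℝ] ℝ) : ∃ g : EE, ∀ v, L v = dot v g := by
  refine ⟨(⟨L (1, 0), L (qi, 0), L (qj, 0), L (qk, 0)⟩,
    ⟨L (0, 1), L (0, qi), L (0, qj), L (0, qk)⟩), fun v => ?_⟩
  have h : v = v.1.re • ((1, 0) : EE) + v.1.imI • ((qi, 0) : EE) + v.1.imJ • ((qj, 0) : EE) +
      v.1.imK • ((qk, 0) : EE) + v.2.re • ((0, 1) : EE) + v.2.imI • ((0, qi) : EE) +
      v.2.imJ • ((0, qj) : EE) + v.2.imK • ((0, qk) : EE) := by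
    refine Prod.ext ?_ ?_ <;> apply Quaternion.ext <;>
      simp [qi_co, qj_co, qk_co, Quaternion.re_one, Quaternion.imI_one, Quaternion.imJ_one,
        Quaternion.imK_one]
  rw [dot_eq]
  conv_lhs => rw [h]
  simp only [map_add, map_smul, smul_eq_mul]

theorem dot_act (α β : ℝ) (v w : EE) : dot (act α β v) (act α β w) = dot v w := by
  simp only [dot_eq, act, rq]
  linear_combination
    (v.1.re * w.1.re + v.1.imI * w.1.imI) * Real.sin_sq_add_cos_sq α +
    (v.1.imJ * w.1.imJ + v.1.imK * w.1.imK) * Real.sin_sq_add_cos_sq (α + β) +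
    (v.2.re * w.2.re + v.2.imI * w.2.imI) * Real.sin_sq_add_cos_sq β +
    (v.2.imJ * w.2.imJ + v.2.imK * w.2.imK) * Real.sin_sq_add_cos_sq (2 * α + β)

theorem rq_neg (s t : ℝ) (p : HH) : rq s t (rq (-s) (-t) p) = p := by
  ext <;> simp only [rq, Real.cos_neg, Real.sin_neg]
  · linear_combination p.re * Real.sin_sq_add_cos_sq s
  · linear_combination p.imI * Real.sin_sq_add_cos_sq s
  · linear_combination p.imJ * Real.sin_sq_add_cos_sq t
  · linear_combination p.imK * Real.sin_sq_add_cos_sq t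

theorem act_neg (α β : ℝ) (v : EE) : act α β (act (-α) (-β) v) = v := by
  have h1 : -α + -β = -(α + β) := by ring
  have h2 : 2 * -α + -β = -(2 * α + β) := by ring
  simp only [act, h1, h2, rq_neg]

theorem rq_ne (s t : ℝ) {p : HH} (h : p ≠ 0) : rq s t p ≠ 0 := by
  intro h0
  have h1 := rq_neg (-s) (-t) p
  rw [neg_neg, neg_neg, h0] at h1
  apply h
  rw [← h1]
  apply Quaternion.ext <;> simp [rq_co, Quaternion.re_zero, Quaternion.imI_zero,
    Quaternion.imJ_zero, Quaternion.imK_zero]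

theorem act_mem (α β : ℝ) {x : EE} (h : x ∈ UU) : act α β x ∈ UU :=
  ⟨rq_ne _ _ h.1, rq_ne _ _ h.2⟩

/-- The torus action as a continuous linear map. -/
def actL (α β : ℝ) : EE →L[ℝ] EE :=
  LinearMap.toContinuousLinearMap
    { toFun := act α β
      map_add' := fun x y => by
        refine Prod.ext ?_ ?_ <;> apply Quaternion.ext <;> simp [act, rq_co] <;> ring
      map_smul' := fun c x => by
        refine Prod.ext ?_ ?_ <;> apply Quaternion.ext <;> simp [act, rq_co] <;> ring }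

theorem actL_apply (α β : ℝ) (x : EE) : actL α β x = act α β x := rfl

theorem rad {E : Type} [NormedAddCommGroup E] [NormedSpace ℝ E] {F : EE → E} {x v : EE}
    (hF : DifferentiableAt ℝ F x) (h : ∀ t : ℝ, -1 < t → F (x + t • v) = F x) :
    fderiv ℝ F x v = 0 := by
  have h1 : HasDerivAt (fun t : ℝ => x + t • v) v 0 := by
    simpa using ((hasDerivAt_id (0 : ℝ)).smul_const v).const_add x
  have h2 : HasDerivAt (fun t : ℝ => F (x + t • v)) (fderiv ℝ F x v) 0 :=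
    HasFDerivAt.comp_hasDerivAt_of_eq (0 : ℝ) hF.hasFDerivAt h1 (by simp)
  have h3 : (fun _ : ℝ => F x) =ᶠ[𝓝 0] fun t : ℝ => F (x + t • v) := by
    filter_upwards [lt_mem_nhds (show (-1 : ℝ) < 0 by norm_num)] with t ht using (h t ht).symm
  exact (h2.congr_of_eventuallyEq h3).unique (hasDerivAt_const _ _)

theorem contDiff_det {E ι : Type} [NormedAddCommGroup E] [NormedSpace ℝ E] [Fintype ι]
    [DecidableEq ι] {A : E → Matrix ι ι ℝ} (h : ∀ i j, ContDiff ℝ ∞ fun z => A z i j) :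
    ContDiff ℝ ∞ fun z => (A z).det := by
  simp only [det_apply']
  exact ContDiff.sum fun σ _ => contDiff_const.mul (contDiff_prod fun i _ => h _ _)

theorem contDiff_inv {E ι : Type} [NormedAddCommGroup E] [NormedSpace ℝ E] [Fintype ι]
    [DecidableEq ι] {A : E → Matrix ι ι ℝ} (h : ∀ i j, ContDiff ℝ ∞ fun z => A z i j)
    (h0 : ∀ z, (A z).det ≠ 0) (i j : ι) : ContDiff ℝ ∞ fun z => (A z)⁻¹ i j := by
  simp only [Matrix.inv_def, Ring.inverse_eq_inv', Matrix.smul_apply, smul_eq_mul, adjugate_apply]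
  refine ((contDiff_det h).inv h0).mul (contDiff_det fun a b => ?_)
  simp only [updateRow_apply]
  split_ifs
  · exact contDiff_const
  · exact h _ _

variable (D : ManData)

theorem mem_UU {p : D.M} {x : EE} (h : x ∈ D.W p) : x ∈ UU := ((D.W_iff p x).mp h).1

theorem same {p : D.M} {x y : EE} (h : x ∈ D.W p) (hy : y ∈ UU)
    (e : D.π (nrm y) = D.π (nrm x)) : y ∈ D.W p ∧ D.φ p y = D.φ p x := by
  have h1 : y ∈ D.W p := (D.W_iff p y).mpr ⟨hy, e ▸ ((D.W_iff p x).mp h).2⟩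
  exact ⟨h1, by rw [D.φ_eq p y h1, D.φ_eq p x h, e]⟩

theorem phi_at {p : D.M} {x : EE} (h : x ∈ D.W p) : ContDiffAt ℝ ∞ (D.φ p) x :=
  (D.φ_smooth p).contDiffAt ((D.W_open p).mem_nhds h)

theorem phi_diff {p : D.M} {x : EE} (h : x ∈ D.W p) : DifferentiableAt ℝ (D.φ p) x :=
  (phi_at D h).differentiableAt (by simp)

theorem phi_sigma (p : D.M) (z : En 4) : D.φ p (D.σ p z) = z := by
  rw [D.φ_eq p _ (D.σ_mem p z), ← D.σ_eq]
  exact (chartAt (En 4) p).right_inv (by rw [D.target]; trivial)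

theorem pi_sigma {p : D.M} {x : EE} (h : x ∈ D.W p) :
    D.π (nrm (D.σ p (D.φ p x))) = D.π (nrm x) := by
  rw [← D.σ_eq, D.φ_eq p x h]
  exact (chartAt (En 4) p).left_inv ((D.W_iff p x).mp h).2

/-- The section through unit quaternions. -/
def sec (p : D.M) (z : En 4) : PP := nrm (D.σ p z)

theorem sec_mem (p : D.M) (z : En 4) : inc (sec D p z) ∈ D.W p ∧ D.φ p (inc (sec D p z)) = z := by
  have h := same D (D.σ_mem p z) (inc_mem (sec D p z)) (by rw [nrm_inc]; rfl)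
  exact ⟨h.1, h.2.trans (phi_sigma D p z)⟩

theorem sec_smooth (p : D.M) : ContDiff ℝ ∞ fun z => inc (sec D p z) :=
  contDiffOn_inc_nrm.comp_contDiff (D.σ_smooth p) fun z => mem_UU D (D.σ_mem p z)

theorem rad1 {p : D.M} {x : EE} (h : x ∈ D.W p) : fderiv ℝ (D.φ p) x (x.1, 0) = 0 := by
  refine rad (phi_diff D h) fun t ht => ?_
  have h1 : x + t • ((x.1, 0) : EE) = scl (1 + t) 1 x := by
    simp [scl_apply, Prod.ext_iff, add_smul]
  have h2 : 0 < 1 + t := by linarith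
  rw [h1]
  exact (same D h (scl_mem h2 one_pos (mem_UU D h)) (by rw [nrm_scl h2 one_pos])).2

theorem rad2 {p : D.M} {x : EE} (h : x ∈ D.W p) : fderiv ℝ (D.φ p) x (0, x.2) = 0 := by
  refine rad (phi_diff D h) fun t ht => ?_
  have h1 : x + t • ((0, x.2) : EE) = scl 1 (1 + t) x := by
    simp [scl_apply, Prod.ext_iff, add_smul]
  have h2 : 0 < 1 + t := by linarith
  rw [h1]
  exact (same D h (scl_mem one_pos h2 (mem_UU D h)) (by rw [nrm_scl one_pos h2])).2

/-- The differential of the chart map on the frame. -/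
def Am (p : D.M) (x : PP) : Matrix (Fin 4) (Fin 6) ℝ :=
  Matrix.of fun i k => fderiv ℝ (D.φ p) (inc x) (Jv k (inc x)) i

/-- The cometric. -/
def Hm (p : D.M) (x : PP) : Matrix (Fin 4) (Fin 4) ℝ := Am D p x * (Am D p x)ᵀ

theorem exists_grads (p : D.M) (x : EE) :
    ∃ g : Fin 4 → EE, ∀ i v, fderiv ℝ (D.φ p) x v i = dot v (g i) := by
  have h := fun i : Fin 4 => exists_grad ((EuclideanSpace.proj i).comp (fderiv ℝ (D.φ p) x))
  choose g hg using h
  exact ⟨g, hg⟩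

theorem expand {p : D.M} {x : PP} (h : inc x ∈ D.W p) (v : EE) (i : Fin 4) :
    fderiv ℝ (D.φ p) (inc x) v i = ∑ k, dot (Jv k (inc x)) v * Am D p x i k := by
  obtain ⟨g, hg⟩ := exists_grads D p (inc x)
  simp only [Am, of_apply, hg]
  refine (pars x v (g i) ?_ ?_).symm
  · rw [← hg, rad1 D h]; rfl
  · rw [← hg, rad2 D h]; rfl

theorem Hm_eq {p : D.M} {x : PP} (h : inc x ∈ D.W p) {g : Fin 4 → EE}
    (hg : ∀ i v, fderiv ℝ (D.φ p) (inc x) v i = dot v (g i)) (i j : Fin 4) :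
    Hm D p x i j = dot (g i) (g j) := by
  simp only [Hm, Am, mul_apply, transpose_apply, of_apply, hg]
  refine pars x (g i) (g j) ?_ ?_
  · rw [← hg, rad1 D h]; rfl
  · rw [← hg, rad2 D h]; rfl

theorem Hm_orb (hB : BasB) {p : D.M} {x y : PP} (h : inc x ∈ D.W p) (e : D.π x = D.π y) :
    Hm D p y = Hm D p x := by
  obtain ⟨α, β, hy⟩ := (D.fib x y).mp e
  have h1 : ∀ u ∈ D.W p, act α β u ∈ D.W p ∧ D.φ p (act α β u) = D.φ p u := fun u hu =>
    same D hu (act_mem α β (mem_UU D hu))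
      ((D.fib _ _).mpr (hB.orb_nrm α β u (mem_UU D hu))).symm
  have h2 : inc y ∈ D.W p := hy ▸ (h1 _ h).1
  have h3 : HasFDerivAt (fun u => D.φ p (actL α β u))
      ((fderiv ℝ (D.φ p) (inc y)).comp (actL α β)) (inc x) :=
    HasFDerivAt.comp (inc x) (by rw [actL_apply, ← hy]; exact (phi_diff D h2).hasFDerivAt)
      (actL α β).hasFDerivAt
  have h4 : D.φ p =ᶠ[𝓝 (inc x)] fun u => D.φ p (actL α β u) := by
    filter_upwards [(D.W_open p).mem_nhds h] with u hu using (h1 u hu).2.symm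
  have h5 := (h3.congr_of_eventuallyEq h4).fderiv
  obtain ⟨g, hg⟩ := exists_grads D p (inc x)
  have h6 : ∀ i v, fderiv ℝ (D.φ p) (inc y) v i = dot v (act α β (g i)) := by
    intro i v
    have h7 := hg i (act (-α) (-β) v)
    rw [h5, ContinuousLinearMap.comp_apply, actL_apply, act_neg] at h7
    rw [h7, ← dot_act α β, act_neg]
  ext i j
  rw [Hm_eq D h2 h6, Hm_eq D h hg, dot_act]

theorem Hm_pos (p : D.M) (z : En 4) : (Hm D p (sec D p z)).PosDef := by
  have h1 : HasFDerivAt (fun z => D.φ p (inc (sec D p z)))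
      ((fderiv ℝ (D.φ p) (inc (sec D p z))).comp (fderiv ℝ (fun z => inc (sec D p z)) z)) z :=
    HasFDerivAt.comp z (phi_diff D (sec_mem D p z).1).hasFDerivAt
      ((sec_smooth D p).differentiable (by simp) z).hasFDerivAt
  have h2 : (fun z => D.φ p (inc (sec D p z))) = id := funext fun z => (sec_mem D p z).2
  rw [h2] at h1
  have h3 := h1.unique (hasFDerivAt_id z)
  have h4 : ∀ u : Fin 4 → ℝ, u ᵥ* Am D p (sec D p z) = 0 → u = 0 := by
    intro u hu
    have h5 : ∀ i, u i = ∑ k, dot (Jv k (inc (sec D p z)))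
        (fderiv ℝ (fun z => inc (sec D p z)) z (WithLp.toLp 2 u)) * Am D p (sec D p z) i k := by
      intro i
      rw [← expand D (sec_mem D p z).1, ← ContinuousLinearMap.comp_apply, h3]
      rfl
    have h6 : u ⬝ᵥ u = 0 := by
      have h7 : u = Am D p (sec D p z) *ᵥ fun k => dot (Jv k (inc (sec D p z)))
          (fderiv ℝ (fun z => inc (sec D p z)) z (WithLp.toLp 2 u)) := by
        funext i
        rw [h5 i]
        simp only [mulVec, dotProduct, mul_comm]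
      conv_lhs => enter [2]; rw [h7]
      rw [dotProduct_mulVec, hu, zero_dotProduct]
    exact dotProduct_self_eq_zero.mp h6
  have h5 := PosDef.mul_conjTranspose_self (Am D p (sec D p z)) fun u w huw =>
    sub_eq_zero.mp (h4 _ (by rw [sub_vecMul]; exact sub_eq_zero.mpr huw))
  rwa [conjTranspose_eq_transpose_of_trivial] at h5

theorem Hm_det (p : D.M) (z : En 4) : IsUnit (Hm D p (sec D p z)).det :=
  (isUnit_iff_isUnit_det _).mp (Hm_pos D p z).isUnit

theorem Hm_smooth (p : D.M) (i j : Fin 4) : ContDiff ℝ ∞ fun z => Hm D p (sec D p z) i j := by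
  have h1 : ∀ i k, ContDiff ℝ ∞ fun z => Am D p (sec D p z) i k := by
    intro i k
    have h2 : ContDiffOn ℝ ∞ (fun x => fderiv ℝ (D.φ p) x (Jv k x)) (D.W p) :=
      ((D.φ_smooth p).fderiv_of_isOpen (D.W_open p) (by simp)).clm_apply
        (Jv k).contDiff.contDiffOn
    exact (EuclideanSpace.proj i : En 4 →L[ℝ] ℝ).contDiff.comp
      (h2.comp_contDiff (sec_smooth D p) fun z => (sec_mem D p z).1)
  simp only [Hm, mul_apply, transpose_apply]
  exact ContDiff.sum fun k _ => (h1 i k).mul (h1 j k)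

/-- The metric. -/
def Gm (p : D.M) (z : En 4) : Matrix (Fin 4) (Fin 4) ℝ := (Hm D p (sec D p z))⁻¹

theorem Hm_sec (hB : BasB) {p : D.M} {x : PP} (h : inc x ∈ D.W p) :
    Hm D p (sec D p (D.φ p (inc x))) = Hm D p x :=
  Hm_orb D hB h (by rw [sec, pi_sigma D h, nrm_inc])

theorem law (hB : BasB) : Law (Gm D) := by
  intro p q z _ hz i j
  obtain ⟨hp, hφ⟩ := sec_mem D p z
  have hq : inc (sec D p z) ∈ D.W q :=
    (D.W_iff q _).mpr ⟨inc_mem _, by rw [nrm_inc, sec, ← D.σ_eq]; exact hz⟩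
  have h1 : ∀ u ∈ D.W p, u ∈ D.W q → D.φ q u = trn p q (D.φ p u) := by
    intro u hu hu'
    rw [trn, D.σ_eq, pi_sigma D hu, D.φ_eq q u hu']
  have h2 : DifferentiableAt ℝ (trn (n := 4) p q) z := by
    have h3 : DifferentiableAt ℝ (fun z => D.φ q (inc (sec D p z))) z :=
      (phi_diff D hq).comp z ((sec_smooth D p).differentiable (by simp) z)
    refine h3.congr_of_eventuallyEq ?_
    filter_upwards [(sec_smooth D p).continuous.continuousAt.preimage_mem_nhds
      ((D.W_open q).mem_nhds hq)] with y hy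
    rw [h1 _ (sec_mem D p y).1 hy, (sec_mem D p y).2]
  have h3 : HasFDerivAt (fun u => trn (n := 4) p q (D.φ p u))
      ((fderiv ℝ (trn (n := 4) p q) z).comp (fderiv ℝ (D.φ p) (inc (sec D p z))))
      (inc (sec D p z)) :=
    HasFDerivAt.comp (g := trn (n := 4) p q) _ (by rw [hφ]; exact h2.hasFDerivAt)
      (phi_diff D hp).hasFDerivAt
  have h4 : D.φ q =ᶠ[𝓝 (inc (sec D p z))] fun u => trn (n := 4) p q (D.φ p u) := by
    filter_upwards [(D.W_open p).mem_nhds hp, (D.W_open q).mem_nhds hq] with u hu hu'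
      using h1 u hu hu'
  have h5 := (h3.congr_of_eventuallyEq h4).fderiv
  let T : Matrix (Fin 4) (Fin 4) ℝ :=
    Matrix.of fun k i => fderiv ℝ (trn (n := 4) p q) z (EuclideanSpace.single i 1) k
  have h6 : Am D q (sec D p z) = T * Am D p (sec D p z) := by
    ext a k
    simp only [Am, T, mul_apply, of_apply, h5, ContinuousLinearMap.comp_apply]
    generalize fderiv ℝ (D.φ p) (inc (sec D p z)) (Jv k (inc (sec D p z))) = u
    conv_lhs => rw [← (EuclideanSpace.basisFun (Fin 4) ℝ).sum_repr u]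
    simp [mul_comm]
  have h7 : Hm D q (sec D q (trn p q z)) = T * Hm D p (sec D p z) * Tᵀ := by
    rw [← hφ, ← h1 _ hp hq, Hm_sec D hB hq, hφ, Hm, Hm, h6, transpose_mul]
    simp only [Matrix.mul_assoc]
  have h8 : IsUnit T.det := by
    have h9 := Hm_det D q (trn p q z)
    rw [h7, det_mul, det_mul] at h9
    exact isUnit_of_mul_isUnit_left (isUnit_of_mul_isUnit_left h9)
  have h9 : Gm D p z = Tᵀ * Gm D q (trn p q z) * T := by
    rw [Gm, Gm, h7, Matrix.mul_inv_rev, Matrix.mul_inv_rev, ← Matrix.mul_assoc,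
      mul_nonsing_inv _ (by rwa [det_transpose]), Matrix.one_mul, Matrix.mul_assoc,
      nonsing_inv_mul _ h8, Matrix.mul_one]
  rw [h9]
  simp only [mul_apply, transpose_apply, T, of_apply, Finset.sum_mul]
  rw [Finset.sum_comm]
  exact Finset.sum_congr rfl fun k _ => Finset.sum_congr rfl fun l _ => by ring

theorem ker_vert (hB : BasB) (hI : S_Imm) {p : D.M} {x : PP} (h : inc x ∈ D.W p)
    {η : Fin 6 → ℝ} (hη : Am D p x *ᵥ η = 0) : Vert x η := by
  obtain ⟨m, f, hf⟩ := hI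
  refine hf x η fun a => ?_
  have h1 : fderiv ℝ (D.φ p) (inc x) (∑ k, η k • Jv k (inc x)) = 0 := by
    ext i
    have := congrFun hη i
    simpa [Am, mulVec, dotProduct, mul_comm] using this
  have h2 : DifferentiableAt ℝ (fun z => ext (f a).1 (D.σ p z)) (D.φ p (inc x)) :=
    (ext_diff _ (mem_UU D (D.σ_mem p _))).comp _ ((D.σ_smooth p).differentiable (by simp) _)
  have h3 := HasFDerivAt.comp (inc x) h2.hasFDerivAt (phi_diff D h).hasFDerivAt
  have h4 : ext (f a).1 =ᶠ[𝓝 (inc x)] (fun z => ext (f a).1 (D.σ p z)) ∘ D.φ p := by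
    filter_upwards [(D.W_open p).mem_nhds h] with u hu
    exact hB.orb_inv (f a) _ _ ((D.fib _ _).mp (pi_sigma D hu).symm)
  have h5 := (h3.congr_of_eventuallyEq h4).fderiv
  have h6 : fderiv ℝ (ext (f a).1) (inc x) (∑ k, η k • Jv k (inc x)) = 0 := by
    rw [h5, ContinuousLinearMap.comp_apply, h1, map_zero]
  simpa [X_apply] using h6

theorem proj_eq (hB : BasB) (hI : S_Imm) {p : D.M} {x : PP} (h : inc x ∈ D.W p)
    {ξ : Fin 6 → ℝ} (hξ : ∀ b, ∑ k, (Vv b k).1 x * ξ k = 0) :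
    (Am D p x)ᵀ *ᵥ ((Hm D p x)⁻¹ *ᵥ (Am D p x *ᵥ ξ)) = ξ := by
  have hd : IsUnit (Hm D p x).det := Hm_sec D hB h ▸ Hm_det D p _
  set w := (Hm D p x)⁻¹ *ᵥ (Am D p x *ᵥ ξ) with hw
  have h1 : Am D p x *ᵥ (ξ - (Am D p x)ᵀ *ᵥ w) = 0 := by
    rw [mulVec_sub, mulVec_mulVec, hw, mulVec_mulVec, ← Hm, mul_nonsing_inv _ hd, one_mulVec,
      sub_self]
  obtain ⟨c, hc⟩ := ker_vert D hB hI h h1
  have h2 : (ξ - (Am D p x)ᵀ *ᵥ w) ⬝ᵥ ξ = 0 := by
    simp only [dotProduct, hc, Finset.sum_mul, mul_assoc]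
    rw [Finset.sum_comm]
    simp only [← Finset.mul_sum, hξ, mul_zero, Finset.sum_const_zero]
  have h3 : (ξ - (Am D p x)ᵀ *ᵥ w) ⬝ᵥ (ξ - (Am D p x)ᵀ *ᵥ w) = 0 := by
    rw [dotProduct_sub, h2, dotProduct_mulVec, vecMul_transpose, h1, zero_dotProduct, sub_zero]
  exact (sub_eq_zero.mp (dotProduct_self_eq_zero.mp h3)).symm

end RoundP

open RoundP in
theorem round (_hA : BasA) (hB : BasB) (hI : S_Imm) : S_Round := by
  intro D
  refine ⟨Gm D, ⟨fun p i j => (contDiff_inv (Hm_smooth D p) (fun z => (Hm_det D p z).ne_zero)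
    i j).contDiffOn, fun p z _ => (Hm_pos D p z).inv, law D hB⟩, fun l md hL x ξ hξ k => ?_⟩
  have h : inc x ∈ D.W (D.π x) :=
    (D.W_iff _ _).mpr ⟨inc_mem x, by rw [nrm_inc]; exact mem_chart_source _ _⟩
  rw [← congrFun (proj_eq D hB hI h hξ) k]
  simp only [hL _ x h, Pi.smul_apply, Matrix.smul_apply, smul_eq_mul, Gm, Hm_sec D hB h, mulVec,
    dotProduct, transpose_apply, Am, of_apply, Finset.mul_sum, Finset.sum_mul]
  rw [Finset.sum_comm]
  refine Finset.sum_congr rfl fun i _ => ?_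
  rw [Finset.sum_comm]
  exact Finset.sum_congr rfl fun j _ => Finset.sum_congr rfl fun m _ => by ring

end Pool.Agent.P.MP_713680_gt
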