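import Pool.Agent.P.MP_713680_gt.T12a

/-! MP_713680_gt, package U13: the first cohomology vanishes, the second has rank at most two. -/

noncomputable section

namespace Pool.Agent.P.MP_713680_gt

open Finset

namespace T12P

/-- A 2-cochain on two vector fields. -/
def b2 (θ : Fin 6 → Fin 6 → SS) (v w : Fin 6 → SS) : SS := ∑ k, ∑ l, v k * w l * θ k l

/-- A 3-cochain on three vector fields. -/
def b3 (τ : Fin 6 → Fin 6 → Fin 6 → SS) (u v w : Fin 6 → SS) : SS :=
  ∑ k, ∑ l, ∑ m, u k * v l * w m * τ k l m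

theorem b2_e1 (hA : BasA) (β v w : Fin 6 → SS) : b2 (e1 X cc β) v w =
    vf v (ip1 β w) - vf w (ip1 β v) - ip1 β (brk v w) := by
  have h1 : ∀ v w : Fin 6 → SS, vf v (ip1 β w) =
      ∑ k, ∑ l, v k * w l * X k (β l) + ∑ l, β l * vf v (w l) := fun v w => by
    simp only [ip1, map_sum, Derivation.leibniz, smul_eq_mul, Finset.sum_add_distrib]
    rw [add_comm, Finset.sum_comm]
    congr 1
    refine Finset.sum_congr rfl fun l _ => ?_
    rw [hA.vf_apply, Finset.mul_sum]
    exact Finset.sum_congr rfl fun k _ => by ring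
  have h2 : ∑ k, ∑ l, w k * v l * X k (β l) = ∑ k, ∑ l, v k * w l * X l (β k) := by
    rw [Finset.sum_comm]
    exact Finset.sum_congr rfl fun k _ => Finset.sum_congr rfl fun l _ => by ring
  have h3 : ∑ m, β m * ∑ k, ∑ l, cc k l m • (v k * w l) =
      ∑ k, ∑ l, v k * w l * ∑ m, cc k l m • β m := by
    simp only [Finset.mul_sum]
    rw [Finset.sum_comm]
    refine Finset.sum_congr rfl fun k _ => ?_
    rw [Finset.sum_comm]
    refine Finset.sum_congr rfl fun l _ => Finset.sum_congr rfl fun m _ => ?_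
    simp only [Algebra.smul_def]
    ring
  rw [h1, h1, h2]
  simp only [b2, e1, ip1, brk, mul_add, mul_sub, Finset.sum_add_distrib, Finset.sum_sub_distrib, h3]
  ring

theorem b2_left (θ : Fin 6 → Fin 6 → SS) (v w : Fin 6 → SS) :
    b2 θ v w = ip1 (fun l => ∑ k, v k * θ k l) w := by
  simp only [b2, ip1, Finset.sum_mul]
  rw [Finset.sum_comm]
  exact Finset.sum_congr rfl fun l _ => Finset.sum_congr rfl fun k _ => by ring

theorem vf_b2 (hA : BasA) (θ : Fin 6 → Fin 6 → SS) (u v w : Fin 6 → SS) : vf u (b2 θ v w) =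
    b3 (fun k l m => X k (θ l m)) u v w + b2 θ (fun l => vf u (v l)) w
      + b2 θ v (fun m => vf u (w m)) := by
  have h : b3 (fun k l m => X k (θ l m)) u v w = ∑ l, ∑ m, v l * w m * vf u (θ l m) := by
    simp only [b3, hA.vf_apply, Finset.mul_sum]
    rw [Finset.sum_comm]
    refine Finset.sum_congr rfl fun l _ => ?_
    rw [Finset.sum_comm]
    exact Finset.sum_congr rfl fun m _ => Finset.sum_congr rfl fun k _ => by ring
  rw [h]
  simp only [b2, map_sum, Derivation.leibniz, smul_eq_mul, ← Finset.sum_add_distrib]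
  exact Finset.sum_congr rfl fun l _ => Finset.sum_congr rfl fun m _ => by ring

theorem b2_brk (θ : Fin 6 → Fin 6 → SS) (u v w : Fin 6 → SS) : b2 θ (brk u v) w =
    b2 θ (fun l => vf u (v l)) w - b2 θ (fun l => vf v (u l)) w
      + b3 (fun k l m => ∑ e, cc k l e • θ e m) u v w := by
  have h : b3 (fun k l m => ∑ e, cc k l e • θ e m) u v w =
      ∑ e, ∑ m, (∑ k, ∑ l, cc k l e • (u k * v l)) * w m * θ e m := by
    simp only [b3, Finset.mul_sum, Finset.sum_mul]
    symm
    rw [Finset.sum_comm]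
    simp only [Finset.sum_comm (s := Finset.univ) (t := Finset.univ)
      (f := fun e k => ∑ l, cc k l e • (u k * v l) * w _ * θ e _)]
    rw [Finset.sum_comm]
    refine Finset.sum_congr rfl fun k _ => ?_
    simp only [Finset.sum_comm (s := Finset.univ) (t := Finset.univ)
      (f := fun e l => cc k l e • (u k * v l) * w _ * θ e _)]
    rw [Finset.sum_comm]
    refine Finset.sum_congr rfl fun l _ => Finset.sum_congr rfl fun m _ =>
      Finset.sum_congr rfl fun e _ => ?_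
    simp only [Algebra.smul_def]
    ring
  rw [h]
  simp only [b2, brk, add_mul, sub_mul, Finset.sum_add_distrib, Finset.sum_sub_distrib]

theorem b2_skew {θ : Fin 6 → Fin 6 → SS} (hθ : ∀ k l, θ k l = - θ l k) (v w : Fin 6 → SS) :
    b2 θ v w = - b2 θ w v := by
  simp only [b2, ← Finset.sum_neg_distrib]
  rw [Finset.sum_comm]
  exact Finset.sum_congr rfl fun k _ => Finset.sum_congr rfl fun l _ => by rw [hθ l k]; ring

theorem b3_cyc (τ : Fin 6 → Fin 6 → Fin 6 → SS) (u v w : Fin 6 → SS) :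
    b3 (fun k l m => τ l m k) u v w = b3 τ v w u := by
  simp only [b3]
  rw [Finset.sum_comm]
  refine Finset.sum_congr rfl fun l _ => ?_
  rw [Finset.sum_comm]
  exact Finset.sum_congr rfl fun m _ => Finset.sum_congr rfl fun k _ => by ring

theorem b3_e2 (hA : BasA) {θ : Fin 6 → Fin 6 → SS} (hθ : ∀ k l, θ k l = - θ l k)
    (u v w : Fin 6 → SS) : b3 (e2 X cc θ) u v w =
    vf u (b2 θ v w) + vf v (b2 θ w u) + vf w (b2 θ u v)
      - (b2 θ (brk u v) w + b2 θ (brk v w) u + b2 θ (brk w u) v) := by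
  have h1 := b3_cyc (fun k l m => X k (θ l m)) u v w
  have h2 := b3_cyc (fun k l m => X k (θ l m)) v w u
  have h3 := b3_cyc (fun k l m => X l (θ m k)) u v w
  have h4 := b3_cyc (fun k l m => ∑ e, cc k l e • θ e m) u v w
  have h5 := b3_cyc (fun k l m => ∑ e, cc k l e • θ e m) v w u
  have h6 := b3_cyc (fun k l m => ∑ e, cc l m e • θ e k) u v w
  have h7 : b3 (e2 X cc θ) u v w = b3 (fun k l m => X k (θ l m)) u v w
      + b3 (fun k l m => X l (θ m k)) u v w + b3 (fun k l m => X m (θ k l)) u v w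
      - (b3 (fun k l m => ∑ e, cc k l e • θ e m) u v w
        + b3 (fun k l m => ∑ e, cc l m e • θ e k) u v w
        + b3 (fun k l m => ∑ e, cc m k e • θ e l) u v w) := by
    simp only [b3, e2, mul_add, mul_sub, Finset.sum_add_distrib, Finset.sum_sub_distrib]
  rw [h7, vf_b2 hA, vf_b2 hA, vf_b2 hA, b2_brk, b2_brk, b2_brk,
    b2_skew hθ v fun m => vf u (w m), b2_skew hθ w fun m => vf v (u m),
    b2_skew hθ u fun m => vf w (v m)]
  linear_combination h1 + h2 + h3 - h4 - h5 - h6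

theorem ip1_comm (u v : Fin 6 → SS) : ip1 u v = ip1 v u :=
  Finset.sum_congr rfl fun _ _ => mul_comm _ _

theorem brk_zero (hA : BasA) {u v : Fin 6 → SS} (h : brk u v = 0) : brk v u = 0 := by
  rw [hA.brk_skew, h, neg_zero]

variable {md : MD} {ι : Type} [Fintype ι] (fr : Frame md ι)

/-- All frame fields. -/
def ZZ : ι ⊕ Fin 2 → Fin 6 → SS := Sum.elim fr.y Vv

theorem span_Z (k : Fin 6) : ∃ c : ι ⊕ Fin 2 → SS, ∀ m,
    (Pi.single k 1 : Fin 6 → SS) m = ∑ j, c j * ZZ fr j m :=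
  ⟨Sum.elim (fun a => gq md.g (Pi.single k 1) (fr.y a)) fun b => ip1 (fr.al b) (Pi.single k 1),
    fun m => by
      have h := congrFun (fr.pars (Pi.single k 1)) m
      simp only [Pi.add_apply, Finset.sum_apply, Pi.smul_apply, smul_eq_mul] at h
      rw [Fintype.sum_sum_type]
      exact h.symm⟩

theorem zero1 {β : Fin 6 → SS} (h : ∀ j, ip1 β (ZZ fr j) = 0) (k : Fin 6) : β k = 0 := by
  obtain ⟨c, hc⟩ := span_Z fr k
  have h1 : β k = ∑ m, β m * (Pi.single k 1 : Fin 6 → SS) m := by simp [Pi.single_apply]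
  rw [h1]
  simp only [hc, Finset.mul_sum]
  rw [Finset.sum_comm]
  refine Finset.sum_eq_zero fun j _ => ?_
  have h2 := congrArg (c j * ·) (h j)
  simp only [ip1, Finset.mul_sum, mul_zero] at h2
  rw [← h2]
  exact Finset.sum_congr rfl fun m _ => by ring

theorem zero2 {θ : Fin 6 → Fin 6 → SS} (h : ∀ i j, b2 θ (ZZ fr i) (ZZ fr j) = 0) (k l : Fin 6) :
    θ k l = 0 := by
  refine zero1 fr (β := fun k => θ k l) (fun i => ?_) k
  rw [ip1_comm]
  exact zero1 fr (β := fun l => ∑ k, ZZ fr i k * θ k l) (fun j => by rw [← b2_left, h]) l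

theorem zero3 {τ : Fin 6 → Fin 6 → Fin 6 → SS}
    (h : ∀ i j n, b3 τ (ZZ fr i) (ZZ fr j) (ZZ fr n) = 0) (k l m : Fin 6) : τ k l m = 0 := by
  refine zero1 fr (β := fun k => τ k l m) (fun i => ?_) k
  rw [ip1_comm]
  refine zero2 fr (θ := fun l m => ∑ k, ZZ fr i k * τ k l m) (fun j n => ?_) l m
  rw [← h i j n]
  simp only [b2, b3, Finset.mul_sum]
  symm
  rw [Finset.sum_comm]
  refine Finset.sum_congr rfl fun l _ => ?_
  rw [Finset.sum_comm]
  exact Finset.sum_congr rfl fun m _ => Finset.sum_congr rfl fun k _ => by ring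

/-- The covector dual to the frame field `a`. -/
def gco (a : ι) (k : Fin 6) : SS := ∑ l, md.g k l * fr.y a l

theorem ip1_gco (a : ι) (w : Fin 6 → SS) : ∑ k, w k * gco fr a k = gq md.g w (fr.y a) := by
  simp only [gco, gq, Finset.mul_sum]
  exact Finset.sum_congr rfl fun k _ => Finset.sum_congr rfl fun l _ => by ring

theorem gq_V (b : Fin 2) (w : Fin 6 → SS) : gq md.g (Vv b) w = 0 := by
  rw [gq, Finset.sum_comm]
  refine Finset.sum_eq_zero fun l _ => ?_
  rw [← Finset.sum_mul]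
  simp only [fun k => md.symm k l]
  rw [md.vert, zero_mul]

theorem gq_zero (w : Fin 6 → SS) : gq md.g 0 w = 0 := by simp [gq]

def up1 (u : ι → AA) (k : Fin 6) : SS := ∑ a, gco fr a k * (u a).1

def up2 (φ : ι → ι → AA) (k l : Fin 6) : SS := ∑ a, ∑ b, gco fr a k * gco fr b l * (φ a b).1

theorem ip1_up1 (u : ι → AA) (w : Fin 6 → SS) :
    ip1 (up1 fr u) w = ∑ a, gq md.g w (fr.y a) * (u a).1 := by
  simp only [ip1, up1, ← ip1_gco, Finset.sum_mul]
  rw [Finset.sum_comm]
  exact Finset.sum_congr rfl fun a _ => Finset.sum_congr rfl fun k _ => by ring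

theorem b2_up2 (φ : ι → ι → AA) (v w : Fin 6 → SS) :
    b2 (up2 fr φ) v w = ∑ a, gq md.g v (fr.y a) * ∑ b, gq md.g w (fr.y b) * (φ a b).1 := by
  have h : ∀ k, ∑ l, v k * w l * up2 fr φ k l =
      ∑ a, v k * gco fr a k * ∑ b, gq md.g w (fr.y b) * (φ a b).1 := fun k => by
    simp only [up2, ← ip1_gco, Finset.sum_mul, Finset.mul_sum]
    rw [Finset.sum_comm]
    refine Finset.sum_congr rfl fun a _ => ?_
    rw [Finset.sum_comm]
    exact Finset.sum_congr rfl fun b _ => Finset.sum_congr rfl fun l _ => by ring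
  simp only [b2, h]
  rw [Finset.sum_comm]
  exact Finset.sum_congr rfl fun a _ => by rw [← Finset.sum_mul, ip1_gco]

theorem up2_skew {φ : ι → ι → AA} (h : ∀ a b, φ a b = - φ b a) (k l : Fin 6) :
    up2 fr φ k l = - up2 fr φ l k := by
  simp only [up2, ← Finset.sum_neg_distrib]
  rw [Finset.sum_comm]
  refine Finset.sum_congr rfl fun a _ => Finset.sum_congr rfl fun b _ => ?_
  rw [h b a, Subalgebra.coe_neg]
  ring

theorem ip1_pars {β : Fin 6 → SS} (h : ∀ b, ip1 β (Vv b) = 0) (w : Fin 6 → SS) :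
    ∑ a, gq md.g w (fr.y a) * ip1 β (fr.y a) = ip1 β w := by
  have h1 : ∀ {α : Type} [Fintype α] (c : α → SS) (z : α → Fin 6 → SS),
      ip1 β (∑ a, c a • z a) = ∑ a, c a * ip1 β (z a) := fun c z => by
    simp only [ip1, Finset.sum_apply, Pi.smul_apply, smul_eq_mul, Finset.mul_sum]
    rw [Finset.sum_comm]
    exact Finset.sum_congr rfl fun a _ => Finset.sum_congr rfl fun k _ => by ring
  have h2 : ∀ u v : Fin 6 → SS, ip1 β (u + v) = ip1 β u + ip1 β v := fun u v => by
    simp only [ip1, Pi.add_apply, mul_add, Finset.sum_add_distrib]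
  conv_rhs => rw [← fr.pars w, h2, h1, h1]
  simp [h]

variable {fr} {C : Calc PP AA ι} (hC : Compat fr C)
include hC

theorem sum_Pr {u : ι → AA} (hu : C.Hor1 u) (a : ι) :
    ∑ b, gq md.g (fr.y a) (fr.y b) * (u b).1 = (u a).1 := by
  have h := congrArg AA.val (hu a)
  simpa only [map_sum, map_mul, Subalgebra.coe_val, hC.Pr] using h

theorem d1_val (ha : C.AlgA) {u : ι → AA} (hu : C.Hor1 u) (a b : ι) : (C.d1 u a b).1 =
    vf (fr.y a) (u b).1 - vf (fr.y b) (u a).1
      - ∑ e, gq md.g (brk (fr.y a) (fr.y b)) (fr.y e) * (u e).1 := by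
  have h := congrArg AA.val (ha.d1_eq u hu a b)
  rw [map_sub, map_sub, map_sum] at h
  simpa only [map_mul, Subalgebra.coe_val, hC.Y, hC.brk] using h

theorem up2_y {φ : ι → ι → AA} (hφ : C.Form2 φ) (v : Fin 6 → SS) (c : ι) :
    b2 (up2 fr φ) v (fr.y c) = ∑ a, gq md.g v (fr.y a) * (φ a c).1 := by
  rw [b2_up2]
  refine Finset.sum_congr rfl fun a _ => congrArg _ (sum_Pr hC (u := φ a) (fun c => ?_) c)
  rw [hφ.1 a c, ← hφ.2 c a, eq_neg_iff_add_eq_zero, ← Finset.sum_add_distrib]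
  exact Finset.sum_eq_zero fun b _ => by rw [hφ.1 a b]; ring

theorem up2_yy {φ : ι → ι → AA} (hφ : C.Form2 φ) (b c : ι) :
    b2 (up2 fr φ) (fr.y b) (fr.y c) = (φ b c).1 := by
  rw [up2_y hC hφ]
  exact sum_Pr hC (u := fun a => φ a c) (fun a => hφ.2 a c) b

theorem closed2 (hA : BasA) (ha : C.AlgA) {φ : ι → ι → AA} (hφ : C.Form2 φ) (hd : C.d2 φ = 0)
    (k l m : Fin 6) : e2 X cc (up2 fr φ) k l m = 0 := by
  have h1 : ∀ b w, b2 (up2 fr φ) (Vv b) w = 0 := fun b w => by simp [b2_up2, gq_V]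
  have h2 : ∀ b w, b2 (up2 fr φ) w (Vv b) = 0 := fun b w => by simp [b2_up2, gq_V]
  have h3 : ∀ w, b2 (up2 fr φ) 0 w = 0 := fun w => by simp [b2]
  have h4 : ∀ b a, brk (fr.y a) (Vv b) = 0 := fun b a => brk_zero hA (fr.inv b a)
  have h5 : ∀ b a c, vf (Vv b) (φ a c).1 = 0 := fun b a c => (φ a c).2 b
  refine zero3 fr (fun i j n => ?_) k l m
  rw [b3_e2 hA (up2_skew fr hφ.1)]
  rcases i with i | i <;> rcases j with j | j <;> rcases n with n | n <;>
    simp only [ZZ, Sum.elim_inl, Sum.elim_inr, h1, h2, h3, h4, h5, fr.inv, hA.brk_V, up2_yy hC hφ,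
      map_zero, add_zero, sub_zero]
  have h := congrArg AA.val (ha.d2_eq φ hφ i j n)
  rw [hd, map_sub, map_add, map_add, map_sum] at h
  simp only [map_mul, map_add, Subalgebra.coe_val, hC.Y, hC.brk, Finset.sum_add_distrib] at h
  rw [up2_y hC hφ, up2_y hC hφ, up2_y hC hφ]
  exact h.symm

end T12P

open T12P

theorem t1 (hA : BasA) (hB : BasB) (h0 : S_G0) : S_T1 := by
  intro md ι _ fr C hC ha u hu hd
  have h1 : ∀ b, ip1 (up1 fr u) (Vv b) = 0 := fun b => by simp [ip1_up1, gq_V]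
  have h2 : ∀ a, ip1 (up1 fr u) (fr.y a) = (u a).1 := fun a => by rw [ip1_up1, sum_Pr hC hu]
  have h3 : ip1 (up1 fr u) 0 = 0 := by simp [ip1]
  have h4 : ∀ b a, brk (fr.y a) (Vv b) = 0 := fun b a => brk_zero hA (fr.inv b a)
  have h5 : ∀ b a, vf (Vv b) (u a).1 = 0 := fun b a => (u a).2 b
  obtain ⟨f, hf⟩ := (hy hA hB h0).exact1 (up1 fr u) (zero2 fr fun i j => by
    rw [b2_e1 hA]
    rcases i with i | i <;> rcases j with j | j <;>
      simp only [ZZ, Sum.elim_inl, Sum.elim_inr, h1, h2, h3, h4, h5, fr.inv, hA.brk_V,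
        map_zero, sub_zero]
    rw [ip1_up1, ← d1_val hC ha hu, hd]
    rfl)
  have h6 : ∀ w, vf w f = ip1 (up1 fr u) w := fun w => by
    rw [hA.vf_apply, ip1_comm]
    simp only [ip1, hf]
  refine ⟨⟨f, fun b => by rw [h6, h1]⟩, funext fun a => Subtype.ext ?_⟩
  rw [Calc.d0, hC.Y, h6, h2]

theorem t2 (hA : BasA) (hB : BasB) (h0 : S_G0) : S_T2 := by
  intro md ι _ fr C hC ha φ hφ
  have H := hy hA hB h0
  choose β hβ hh using fun i => H.exact2 (up2 fr (φ i)) (up2_skew fr (hφ i).1.1)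
    (closed2 hC hA ha (hφ i).1 (hφ i).2)
  have e0 : ∀ i v w, vf v (ip1 (β i) w) - vf w (ip1 (β i) v) - ip1 (β i) (brk v w) =
      b2 (up2 fr (φ i)) v w := fun i v w => by
    rw [← b2_e1 hA]
    simp only [b2, hβ]
  have h1 : ∀ i b w, b2 (up2 fr (φ i)) (Vv b) w = 0 := fun i b w => by simp [b2_up2, gq_V]
  have hs : ∀ l f, vf (Pi.single l 1) f = X l f := fun l f => by
    simp [hA.vf_apply, Pi.single_apply]
  have hk : ∀ b k m, kap b k m = - kap b m k := fun b k m => by
    rw [kap, kap, hA.skew2 0 k m, hA.skew2 3 k m]; ring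
  have h2 : ∀ i b, lap X (ip1 (β i) (Vv b)) = 0 := fun i b => by
    have h3 : ∀ l, X l (ip1 (β i) (Vv b)) = vf (Vv b) (β i l) - ∑ m, kap b l m • β i m := fun l => by
      have h4 := e0 i (Vv b) (Pi.single l 1)
      have h5 : ip1 (β i) (Pi.single l 1) = β i l := by simp [ip1, Pi.single_apply]
      have h6 : ip1 (β i) (brk (Vv b) (Pi.single l 1)) = ∑ m, kap b l m • β i m := by
        simp only [ip1, hA.brk_V_e, Algebra.smul_def, mul_comm]
      rw [h1, hs, h5, h6] at h4
      linear_combination -h4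
    have h4 : ∀ l g, X l (vf (Vv b) g) = vf (Vv b) (X l g) - ∑ m, kap b l m • X m g := fun l g => by
      have h5 := hA.vf_brk (Vv b) (Pi.single l 1) g
      rw [hs, hs, hA.vf_apply] at h5
      simp only [hA.brk_V_e, ← Algebra.smul_def] at h5
      linear_combination h5
    have h5 : ∑ l, ∑ m, kap b l m • X l (β i m) = - ∑ l, ∑ m, kap b l m • X m (β i l) := by
      rw [Finset.sum_comm, ← Finset.sum_neg_distrib]
      refine Finset.sum_congr rfl fun l _ => ?_
      rw [← Finset.sum_neg_distrib]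
      exact Finset.sum_congr rfl fun m _ => by rw [hk b m l, neg_smul]
    have h6 := congrArg (vf (Vv b)) (hh i)
    rw [map_sum, map_zero] at h6
    simp only [lap_apply, h3, map_sub, map_sum, Derivation.map_smul, h4, Finset.sum_sub_distrib]
    rw [h5, h6]
    ring
  let T : (Fin 3 → ℝ) →ₗ[ℝ] (Fin 2 → ℝ) :=
    Matrix.mulVecLin (Matrix.of fun b i => I0 (ip1 (β i) (Vv b)))
  obtain ⟨t, ht, ht0⟩ := Submodule.exists_mem_ne_zero_of_ne_bot
    (LinearMap.ker_ne_bot_of_finrank_lt (f := T) (by simp))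
  let γ : Fin 6 → SS := fun k => ∑ i, t i • β i k
  have h3 : ∀ w, ip1 γ w = ∑ i, t i • ip1 (β i) w := fun w => by
    simp only [ip1, γ, Finset.sum_mul, Finset.smul_sum, smul_mul_assoc]
    exact Finset.sum_comm
  have h4 : ∀ b, ip1 γ (Vv b) = 0 := fun b => by
    have h5 := congrArg (algebraMap ℝ SS) (congrFun (LinearMap.mem_ker.1 ht) b)
    simp only [T, Matrix.mulVecLin_apply, Matrix.mulVec, dotProduct, Matrix.of_apply, map_sum,
      map_mul, ← H.const _ (h2 _ b), Pi.zero_apply, map_zero] at h5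
    rw [h3, ← h5]
    exact Finset.sum_congr rfl fun i _ => by rw [Algebra.smul_def, mul_comm]
  have e1 : ∀ v w, vf v (ip1 γ w) - vf w (ip1 γ v) - ip1 γ (brk v w) =
      ∑ i, t i • b2 (up2 fr (φ i)) v w := fun v w => by
    simp only [h3, map_sum, Derivation.map_smul, ← e0, smul_sub, Finset.sum_sub_distrib]
  let u : ι → AA := fun a => ⟨ip1 γ (fr.y a), fun b => by
    have h5 := e1 (Vv b) (fr.y a)
    have h6 : ip1 γ 0 = 0 := by simp [ip1]
    simpa only [h1, h4, fr.inv, h6, map_zero, sub_zero, smul_zero, Finset.sum_const_zero]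
      using h5⟩
  have hu : C.Hor1 u := fun a => Subtype.ext (by
    change AA.val _ = _
    simp only [map_sum, map_mul, Subalgebra.coe_val, hC.Pr]
    exact ip1_pars fr h4 _)
  refine ⟨t, ht0, u, hu, funext fun a => funext fun b => Subtype.ext ?_⟩
  rw [d1_val hC ha hu, ip1_pars fr h4, e1]
  change AA.val ((∑ i, t i • φ i) a b) = _
  simp only [Finset.sum_apply, Pi.smul_apply, map_sum, map_smul, Subalgebra.coe_val,
    up2_yy hC (hφ _).1]

end Pool.Agent.P.MP_713680_gt
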