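import Pool.Agent.P.MP_713680_gt.T3a

/-!
MP_713680_gt, package U14: the intersection form of the quotient is positive definite on the plane
spanned by the curvature forms of the torus bundle.
-/

noncomputable section

namespace Pool.Agent.P.MP_713680_gt

open Finset

namespace T3P

theorem hom_T {R S : Type} [CommRing R] [CommRing S] [Algebra ℝ R] [Algebra ℝ S] (r : R →ₐ[ℝ] S)
    {x1 x2 x3 x4 x5 x6 o v : R} (h : 24 * (x1 * x2 - x3 * x4 + x5 * x6) = 3 * (2 * o) * v) :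
    24 * (r x1 * r x2 - r x3 * r x4 + r x5 * r x6) = 6 * r o * r v := by
  have h' := congrArg r h
  simp only [map_mul, map_add, map_sub, map_ofNat] at h'
  linear_combination h'

theorem four_slot {S ι : Type} [CommRing S] (F : (Fin 6 → S) → (Fin 6 → S) → S)
    (p q : Fin 6 → S) (o : S) (y : ι → Fin 6 → S) (sk : ∀ u w, F u w = - F w u)
    (l2 : ∀ u, IsLinearMap S (F u)) (hp : ∀ w, F p w = 0) (hq : ∀ w, F q w = 0)
    (ex : ∀ L : (Fin 6 → S) → S, IsLinearMap S L → L p = 0 → L q = 0 → (∀ a, L (y a) = 0) →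
      ∀ w, L w = 0)
    (s0 : ∀ a b c d, 24 * (F (y a) (y b) * F (y c) (y d) - F (y a) (y c) * F (y b) (y d)
      + F (y a) (y d) * F (y b) (y c)) - o * D6 p q (y a) (y b) (y c) (y d) = 0)
    (a b c d : Fin 6 → S) :
    24 * (F a b * F c d - F a c * F b d + F a d * F b c) - o * D6 p q a b c d = 0 := by
  have a1 : ∀ u v w, F (u + v) w = F u w + F v w := fun u v w => by
    rw [sk, (l2 w).map_add, sk u, sk v]; ring
  have m1 : ∀ (r : S) u w, F (r • u) w = r * F u w := fun r u w => by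
    rw [sk, (l2 w).map_smul, sk u, smul_eq_mul]; ring
  have a2 : ∀ u v w, F w (u + v) = F w u + F w v := fun u v w => (l2 w).map_add u v
  have m2 : ∀ (r : S) u w, F w (r • u) = r * F w u := fun r u w => (l2 w).map_smul r u
  have hp' : ∀ w, F w p = 0 := fun w => by rw [sk, hp, neg_zero]
  have hq' : ∀ w, F w q = 0 := fun w => by rw [sk, hq, neg_zero]
  have s1 : ∀ a b c d, 24 * (F a (y b) * F (y c) (y d) - F a (y c) * F (y b) (y d)
      + F a (y d) * F (y b) (y c)) - o * D6 p q a (y b) (y c) (y d) = 0 := by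
    intro a b c d
    refine ex (fun a => 24 * (F a (y b) * F (y c) (y d) - F a (y c) * F (y b) (y d)
      + F a (y d) * F (y b) (y c)) - o * D6 p q a (y b) (y c) (y d))
      ⟨fun x z => ?_, fun r x => ?_⟩ ?_ ?_ (fun a => s0 a b c d) a
    · simp only [a1, D6_row2, (upd_lin _ _).map_add]; ring
    · simp only [m1, D6_row2, (upd_lin _ _).map_smul, smul_eq_mul]; ring
    · rw [D6_row2, upd_zero _ (j := 0) (by decide) (by rfl)]; simp [hp]
    · rw [D6_row2, upd_zero _ (j := 1) (by decide) (by rfl)]; simp [hq]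
  have s2 : ∀ a b c d, 24 * (F a b * F (y c) (y d) - F a (y c) * F b (y d)
      + F a (y d) * F b (y c)) - o * D6 p q a b (y c) (y d) = 0 := by
    intro a b c d
    refine ex (fun b => 24 * (F a b * F (y c) (y d) - F a (y c) * F b (y d)
      + F a (y d) * F b (y c)) - o * D6 p q a b (y c) (y d))
      ⟨fun x z => ?_, fun r x => ?_⟩ ?_ ?_ (fun b => s1 a b c d) b
    · simp only [a1, a2, D6_row3, (upd_lin _ _).map_add]; ring
    · simp only [m1, m2, D6_row3, (upd_lin _ _).map_smul, smul_eq_mul]; ring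
    · rw [D6_row3, upd_zero _ (j := 0) (by decide) (by rfl)]; simp [hp, hp']
    · rw [D6_row3, upd_zero _ (j := 1) (by decide) (by rfl)]; simp [hq, hq']
  have s3 : ∀ a b c d, 24 * (F a b * F c (y d) - F a c * F b (y d)
      + F a (y d) * F b c) - o * D6 p q a b c (y d) = 0 := by
    intro a b c d
    refine ex (fun c => 24 * (F a b * F c (y d) - F a c * F b (y d)
      + F a (y d) * F b c) - o * D6 p q a b c (y d))
      ⟨fun x z => ?_, fun r x => ?_⟩ ?_ ?_ (fun c => s2 a b c d) c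
    · simp only [a1, a2, D6_row4, (upd_lin _ _).map_add]; ring
    · simp only [m1, m2, D6_row4, (upd_lin _ _).map_smul, smul_eq_mul]; ring
    · rw [D6_row4, upd_zero _ (j := 0) (by decide) (by rfl)]; simp [hp, hp']
    · rw [D6_row4, upd_zero _ (j := 1) (by decide) (by rfl)]; simp [hq, hq']
  refine ex (fun d => 24 * (F a b * F c d - F a c * F b d + F a d * F b c) - o * D6 p q a b c d)
    ⟨fun x z => ?_, fun r x => ?_⟩ ?_ ?_ (fun d => s3 a b c d) d
  · simp only [a2, D6_row5, (upd_lin _ _).map_add]; ring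
  · simp only [m2, D6_row5, (upd_lin _ _).map_smul, smul_eq_mul]; ring
  · rw [D6_row5, upd_zero _ (j := 0) (by decide) (by rfl)]; simp [hp']
  · rw [D6_row5, upd_zero _ (j := 1) (by decide) (by rfl)]; simp [hq']

section Fr

variable {md : MD} {ι : Type} [Fintype ι] (fr : Frame md ι)

theorem ext_fr {L : (Fin 6 → SS) → SS} (hL : IsLinearMap SS L) (hV : ∀ b, L (Vv b) = 0)
    (w : Fin 6 → SS) : L w = ∑ a, gq md.g w (fr.y a) * L (fr.y a) := by
  have h : L w = (hL.mk' L) (∑ a, gq md.g w (fr.y a) • fr.y a + ∑ b, ip1 (fr.al b) w • Vv b) := by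
    rw [fr.pars w]; rfl
  rw [h, map_add, map_sum, map_sum]
  simp only [map_smul, IsLinearMap.mk'_apply, hV, smul_eq_mul, mul_zero, sum_const_zero, add_zero]

theorem ext_fr0 {L : (Fin 6 → SS) → SS} (hL : IsLinearMap SS L) (hV : ∀ b, L (Vv b) = 0)
    (hy : ∀ a, L (fr.y a) = 0) (w : Fin 6 → SS) : L w = 0 := by
  rw [ext_fr fr hL hV]; simp [hy]

/-- The curvature form on the frame. -/
theorem ex_ph (hA : BasA) {θ : Fin 6 → SS} (h1 : ∀ b, brk (Vv b) θ = 0) :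
    ∃ φ : ι → ι → AA, ∀ a b, (φ a b).1 = Fq θ (fr.y a) (fr.y b) :=
  ⟨fun a b => ⟨Fq θ (fr.y a) (fr.y b), fun c => Fq_inv hA (h1 c) (fr.inv c a) (fr.inv c b)⟩,
    fun _ _ => rfl⟩

variable (hA : BasA) {θ : Fin 6 → SS} (h1 : ∀ b, brk (Vv b) θ = 0)
  (h2 : ∀ b u, vf u (ip1 θ (Vv b)) = 0) {C : Calc PP AA ι} (hC : Compat fr C)
  {φ : ι → ι → AA} (hφ : ∀ a b, (φ a b).1 = Fq θ (fr.y a) (fr.y b))

include hA h1 h2 hC hφ

theorem ph_form : C.Form2 φ := by
  refine ⟨fun a b => Subtype.ext ?_, fun a c => Subtype.ext ?_⟩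
  · rw [NegMemClass.coe_neg, hφ, hφ, Fq_skew hA]
  rw [hφ, ext_fr fr (Fq_lin1 hA θ (fr.y c)) (fun b => Fq_V hA (h1 b) (h2 b) _) (fr.y a)]
  simp only [AddSubmonoidClass.coe_finsetSum, MulMemClass.coe_mul, hC.Pr, hφ]

theorem ph_closed (ha : C.AlgA) : C.d2 φ = 0 := by
  funext a b c
  rw [ha.d2_eq _ (ph_form fr hA h1 h2 hC hφ)]
  apply Subtype.ext
  have k : ∀ a b c, ∑ e, (C.Gam a b e - C.Gam b a e).1 * Fq θ (fr.y e) (fr.y c)
      = Fq θ (brk (fr.y a) (fr.y b)) (fr.y c) := fun a b c => by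
    rw [ext_fr fr (Fq_lin1 hA θ (fr.y c)) (fun b => Fq_V hA (h1 b) (h2 b) _)
      (brk (fr.y a) (fr.y b))]
    simp only [hC.brk]
  have := Fq_closed hA θ (fr.y a) (fr.y b) (fr.y c)
  rw [← k, ← k, ← k, ← sum_add_distrib, ← sum_add_distrib] at this
  simp only [AddSubgroupClass.coe_sub, AddMemClass.coe_add, AddSubmonoidClass.coe_finsetSum,
    MulMemClass.coe_mul, hC.Y, hφ, Pi.zero_apply, ZeroMemClass.coe_zero] at this ⊢
  exact this

theorem ph_top {ψ : AA} {vol : ι → ι → ι → ι → AA} (hv : VolC fr ψ vol) (hb : C.AlgB vol)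
    (a b c d : Fin 6 → SS) :
    24 * Tq θ a b c d - 6 * (ψ.1 * (ip2 φ (star vol φ)).1) * D6 (Vv 0) (Vv 1) a b c d = 0 := by
  have hf := ph_form fr hA h1 h2 hC hφ
  obtain ⟨Ω, hΩ⟩ : ∃ Ω, Ω = ψ.1 * (ip2 φ (star vol φ)).1 := ⟨_, rfl⟩
  rw [← hΩ, Tq]
  have v1 : ∀ b w, Fq θ (Vv b) w = 0 := fun b => Fq_V hA (h1 b) (h2 b)
  refine four_slot (Fq θ) (Vv 0) (Vv 1) (6 * Ω) fr.y (Fq_skew hA θ) (Fq_lin2 hA θ) (v1 0) (v1 1)
    (fun L hL k0 k1 => ext_fr0 fr hL (Fin.forall_fin_two.mpr ⟨k0, k1⟩)) (fun a b c d => ?_) a b c d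
  have h := hb.top _ (T_alt hf.1) (T_hor hf.2) a b c d
  rw [vol_T hb.vol_alt, ← two_ip2_star] at h
  have h' := hom_T AA.val h
  simp only [Subalgebra.coe_val, hφ, hv.eq] at h'
  rw [h', hΩ, nu, D6]; ring

end Fr

theorem vf_const (r : ℝ) (u : Fin 6 → SS) : vf u (algebraMap ℝ SS r) = 0 :=
  Derivation.map_algebraMap _ r

theorem th_const (hA : BasA) (c0 c1 : ℝ) (b : Fin 2) (u : Fin 6 → SS) :
    vf u (ip1 (th (algebraMap ℝ SS c0) (algebraMap ℝ SS c1)) (Vv b)) = 0 := by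
  fin_cases b
  · exact (congrArg (vf u) (th_V0 hA _ _)).trans (vf_const _ _)
  · exact (congrArg (vf u) (th_V1 hA _ _)).trans (vf_const _ _)

theorem Fq_th (c0 c1 : ℝ) (u w : Fin 6 → SS) :
    Fq (th (algebraMap ℝ SS c0) (algebraMap ℝ SS c1)) u w
      = c0 • Fq (th (algebraMap ℝ SS 1) (algebraMap ℝ SS 0)) u w
        + c1 • Fq (th (algebraMap ℝ SS 0) (algebraMap ℝ SS 1)) u w := by
  have k : ∀ z, ip1 (th (algebraMap ℝ SS c0) (algebraMap ℝ SS c1)) z
      = c0 • ip1 (th (algebraMap ℝ SS 1) (algebraMap ℝ SS 0)) z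
        + c1 • ip1 (th (algebraMap ℝ SS 0) (algebraMap ℝ SS 1)) z := fun z => by
    simp only [ip1_comm _ z, th, ip1_add, ip1_smul]
    simp only [Algebra.smul_def, map_one, map_zero]
    ring
  simp only [Fq, k, map_add, Derivation.map_smul, smul_sub]
  abel

theorem I_J (hB : BasB) (c0 c1 : ℝ) :
    I0 (Jq (algebraMap ℝ SS c0) (algebraMap ℝ SS c1)) = ((c0 - c1) ^ 2 + c1 ^ 2) / 2 := by
  have : Jq (algebraMap ℝ SS c0) (algebraMap ℝ SS c1)
      = (- ((2 * c1 - c0) * (c0 - c1))) • (1 : SS) + ((2 * c1 - c0) * c0) • sS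
        + ((2 * c1 - c0) * (c0 - c1) + c0 * (c0 - c1)) • tS := by
    simp only [Jq, Algebra.smul_def, map_mul, map_sub, map_add, map_neg, map_ofNat]
    ring
  rw [this, map_add, map_add, map_smul, map_smul, map_smul, hB.one, hB.I_s, hB.I_t]
  simp only [smul_eq_mul]; ring

end T3P

open T3P in
theorem t3 (hA : BasA) (hB : BasB) : S_T3 := by
  intro md ι _ fr C ψ vol hC hv ha hb
  have h1 : ∀ c0 c1 : ℝ, ∀ b, brk (Vv b) (th (algebraMap ℝ SS c0) (algebraMap ℝ SS c1)) = 0 :=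
    fun c0 c1 => V_th hA (vf_const c0) (vf_const c1)
  obtain ⟨F0, hF0⟩ := ex_ph fr hA (h1 1 0)
  obtain ⟨F1, hF1⟩ := ex_ph fr hA (h1 0 1)
  refine ⟨![F0, F1], fun i => ?_, fun c hc => ?_⟩
  · fin_cases i
    · exact ⟨ph_form fr hA (h1 1 0) (th_const hA 1 0) hC hF0,
        ph_closed fr hA (h1 1 0) (th_const hA 1 0) hC hF0 ha⟩
    · exact ⟨ph_form fr hA (h1 0 1) (th_const hA 0 1) hC hF1,
        ph_closed fr hA (h1 0 1) (th_const hA 0 1) hC hF1 ha⟩
  obtain ⟨φ, hφ⟩ : ∃ φ, φ = ∑ i, c i • ![F0, F1] i := ⟨_, rfl⟩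
  have e : ∀ a b, (φ a b).1
      = Fq (th (algebraMap ℝ SS (c 0)) (algebraMap ℝ SS (c 1))) (fr.y a) (fr.y b) := by
    intro a b
    rw [Fq_th, hφ, Fin.sum_univ_two, ← hF0, ← hF1]
    rfl
  rw [← hφ, IA_apply]
  have t := ph_top fr hA (h1 (c 0) (c 1)) (th_const hA (c 0) (c 1)) hC e hv hb
    gs (rot 1) gt (rot 3)
  rw [T_val hA (vf_const _) (vf_const _), D6_val hA] at t
  obtain ⟨Ω, hΩ⟩ : ∃ Ω, Ω = ψ.1 * (ip2 φ (star vol φ)).1 := ⟨_, rfl⟩
  obtain ⟨J, hJ⟩ : ∃ J, J = Jq (algebraMap ℝ SS (c 0)) (algebraMap ℝ SS (c 1)) := ⟨_, rfl⟩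
  rw [← hΩ, ← hJ] at t
  rw [← hΩ]
  have g := hB.generic (384 * J - 24 * Ω) (by linear_combination t)
  have g2 : (24 : ℝ) • Ω = (384 : ℝ) • J := by
    simp only [Algebra.smul_def, map_ofNat]
    linear_combination - g
  have g3 := congrArg I0 g2
  rw [map_smul, map_smul, hJ, I_J hB, smul_eq_mul, smul_eq_mul] at g3
  have p1 : 0 < I0 ψ.1 := by
    refine lt_of_le_of_ne (hB.nonneg _ fun x => (hv.pos x).le) fun h => ?_
    have h0 := hB.faith _ (fun x => (hv.pos x).le) h.symm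
    have := hv.pos 1
    rw [h0] at this
    exact lt_irrefl _ this
  have p2 : 0 < (c 0 - c 1) ^ 2 + c 1 ^ 2 := by
    by_contra hn
    apply hc
    have a1 : c 1 = 0 := by nlinarith [sq_nonneg (c 0 - c 1), sq_nonneg (c 1)]
    have a0 : c 0 = 0 := by nlinarith [sq_nonneg (c 0 - c 1), sq_nonneg (c 1)]
    funext i; fin_cases i
    · exact a0
    · exact a1
  exact mul_pos (inv_pos.mpr p1) (by linarith)

end Pool.Agent.P.MP_713680_gt
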