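import Pool.Agent.P.MP_713680_gt.UpSt
import Pool.Agent.P.MP_713680_gt.AlgB0

/-! Package U11: the Riemannian volume tensor of a frame. -/

open scoped ContDiff

noncomputable section

namespace Pool.Agent.P.MP_713680_gt

open Finset

namespace VolP

/-- a bilinear form given by a matrix -/
def bq (g : Fin 6 → Fin 6 → ℝ) (u w : Fin 6 → ℝ) : ℝ := ∑ k, ∑ l, g k l * u k * w l

theorem bq_symm {g : Fin 6 → Fin 6 → ℝ} (hg : ∀ k l, g k l = g l k) (u w : Fin 6 → ℝ) :
    bq g u w = bq g w u := by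
  unfold bq
  rw [sum_comm]
  exact sum_congr rfl fun _ _ => sum_congr rfl fun _ _ => by rw [hg]; ring

/-- the form is linear in the first slot -/
def bl (g : Fin 6 → Fin 6 → ℝ) (w : Fin 6 → ℝ) : (Fin 6 → ℝ) →ₗ[ℝ] ℝ where
  toFun u := bq g u w
  map_add' u v := by
    simp only [bq, Pi.add_apply, ← sum_add_distrib]
    exact sum_congr rfl fun _ _ => sum_congr rfl fun _ _ => by ring
  map_smul' c u := by
    simp only [bq, Pi.smul_apply, smul_eq_mul, RingHom.id_apply, mul_sum]
    exact sum_congr rfl fun _ _ => sum_congr rfl fun _ _ => by ring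

theorem bl_apply (g : Fin 6 → Fin 6 → ℝ) (w u : Fin 6 → ℝ) : bl g w u = bq g u w := rfl

/-- determinant of a block product -/
theorem det_blk (V : Fin 2 → Fin 6 → ℝ) (h : Fin 4 → Fin 6 → ℝ) (E : Fin 4 → Fin 4 → ℝ)
    (z : Fin 4 → Fin 6 → ℝ) (hz : ∀ i k, z i k = ∑ j, E i j * h j k) :
    Matrix.det (Matrix.of ![V 0, V 1, z 0, z 1, z 2, z 3])
      = Matrix.det (Matrix.of E) * Matrix.det (Matrix.of ![V 0, V 1, h 0, h 1, h 2, h 3]) := by
  have h1 : Matrix.det (Matrix.reindex finSumFinEquiv finSumFinEquiv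
      (Matrix.fromBlocks (1 : Matrix (Fin 2) (Fin 2) ℝ) 0 0 (Matrix.of E)))
      = Matrix.det (Matrix.of E) := by
    rw [Matrix.det_reindex_self, Matrix.det_fromBlocks_zero₂₁, Matrix.det_one, one_mul]
  rw [← h1, ← Matrix.det_mul]
  congr 1
  have h2 : Matrix.reindex finSumFinEquiv finSumFinEquiv
      (Matrix.fromBlocks (1 : Matrix (Fin 2) (Fin 2) ℝ) 0 0 (Matrix.of E))
      = Matrix.of ![![1, 0, 0, 0, 0, 0], ![0, 1, 0, 0, 0, 0],
        ![0, 0, E 0 0, E 0 1, E 0 2, E 0 3], ![0, 0, E 1 0, E 1 1, E 1 2, E 1 3],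
        ![0, 0, E 2 0, E 2 1, E 2 2, E 2 3], ![0, 0, E 3 0, E 3 1, E 3 2, E 3 3]] := by
    ext i j
    fin_cases i <;> fin_cases j <;> rfl
  rw [h2]
  ext i k
  fin_cases i <;> simp [Matrix.mul_apply, Fin.sum_univ_succ, hz]

/-- the pointwise linear algebra -/
theorem pt {ι : Type} [Fintype ι] (g : Fin 6 → Fin 6 → ℝ) (V al : Fin 2 → Fin 6 → ℝ)
    (y : ι → Fin 6 → ℝ) (hg : ∀ k l, g k l = g l k) (hv : ∀ b k, ∑ l, g k l * V b l = 0)
    (hV : ∀ b c, ∑ k, al b k * V c k = if b = c then 1 else 0)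
    (hy : ∀ b a, ∑ k, al b k * y a k = 0)
    (hp : ∀ w : Fin 6 → ℝ, ∑ a, bq g w (y a) • y a + ∑ b, (∑ k, al b k * w k) • V b = w) :
    ∃ (e : ι → Fin 4 → ℝ) (δ : ℝ), 0 < δ ∧
      (∀ i j, ∑ a, e a i * e a j = if i = j then 1 else 0) ∧
      (∀ a b, bq g (y a) (y b) = ∑ i, e a i * e b i) ∧
      ∀ a b c d, Matrix.det (Matrix.of ![V 0, V 1, y a, y b, y c, y d])
        = δ * Matrix.det (Matrix.of ![e a, e b, e c, e d]) := by
  classical
  have hgV : ∀ b w, bq g (V b) w = 0 := fun b w => by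
    rw [bq_symm hg]
    unfold bq
    refine sum_eq_zero fun k _ => ?_
    have : ∑ l, g k l * w k * V b l = w k * ∑ l, g k l * V b l := by
      rw [mul_sum]; exact sum_congr rfl fun _ _ => by ring
    rw [this, hv, mul_zero]
  let L : (Fin 6 → ℝ) →ₗ[ℝ] EuclideanSpace ℝ ι :=
    (WithLp.linearEquiv 2 ℝ (ι → ℝ)).symm.toLinearMap ∘ₗ LinearMap.pi fun a => bl g (y a)
  have hL : ∀ w a, L w a = bq g w (y a) := fun w a => rfl
  let J : (Fin 2 → ℝ) →ₗ[ℝ] (Fin 6 → ℝ) := Fintype.linearCombination ℝ V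
  have hJ : ∀ c, J c = ∑ b, c b • V b := fun c => Fintype.linearCombination_apply _ _ _
  have hJi : Function.Injective J := by
    rw [injective_iff_map_eq_zero]
    intro c hc
    funext b
    have h1 : ∑ k, al b k * J c k = c b := by
      rw [hJ]
      simp only [Finset.sum_apply, Pi.smul_apply, smul_eq_mul, mul_sum]
      rw [sum_comm]
      have : ∀ b', ∑ k, al b k * (c b' * V b' k) = c b' * ∑ k, al b k * V b' k := fun b' => by
        rw [mul_sum]; exact sum_congr rfl fun _ _ => by ring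
      simp only [this, hV]
      simp
    rw [← h1, hc]
    simp
  have hker : LinearMap.ker L = LinearMap.range J := by
    ext w
    rw [LinearMap.mem_ker, LinearMap.mem_range]
    constructor
    · intro hw
      refine ⟨fun b => ∑ k, al b k * w k, ?_⟩
      have h0 : ∀ a, bq g w (y a) = 0 := fun a => by rw [← hL, hw]; rfl
      have := hp w
      simp only [h0, zero_smul, sum_const_zero, zero_add] at this
      rw [hJ, this]
    · rintro ⟨c, rfl⟩
      ext a
      rw [hL, hJ, ← bl_apply, map_sum]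
      simp [bl_apply, hgV]
  have hdim : Module.finrank ℝ (LinearMap.range L) = 4 := by
    have h1 := LinearMap.finrank_range_add_finrank_ker L
    rw [hker, LinearMap.finrank_range_of_inj hJi] at h1
    simp only [Module.finrank_fintype_fun_eq_card, Fintype.card_fin] at h1
    omega
  let B : OrthonormalBasis (Fin 4) ℝ (LinearMap.range L) :=
    (stdOrthonormalBasis ℝ (LinearMap.range L)).reindex (finCongr hdim)
  let e : ι → Fin 4 → ℝ := fun a i => (B i : EuclideanSpace ℝ ι) a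
  have he : ∀ i j, ∑ a, e a i * e a j = if i = j then 1 else 0 := fun i j => by
    have h1 := orthonormal_iff_ite.1 B.orthonormal i j
    rw [← h1, Submodule.coe_inner, PiLp.inner_apply]
    exact sum_congr rfl fun a _ => by simp [e, mul_comm]
  -- reproducing property
  have hrep : ∀ (v : LinearMap.range L) a,
      ∑ b, bq g (y a) (y b) * (v : EuclideanSpace ℝ ι) b = (v : EuclideanSpace ℝ ι) a := by
    rintro ⟨_, w, rfl⟩ a
    simp only [hL]
    have h1 := congrArg (bl g (y a)) (hp w)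
    rw [map_add, map_sum, map_sum] at h1
    simp only [map_smul, bl_apply, hgV, smul_eq_mul, mul_zero, sum_const_zero, add_zero] at h1
    rw [← h1]
    exact sum_congr rfl fun b _ => by rw [bq_symm hg (y a) (y b)]; ring
  have hP : ∀ a b, bq g (y a) (y b) = ∑ i, e a i * e b i := fun a b => by
    have h1 := B.sum_repr' ⟨L (y a), y a, rfl⟩
    have h2 := congrArg (fun v : LinearMap.range L => (v : EuclideanSpace ℝ ι) b) h1
    simp only [hL] at h2
    rw [← h2]
    simp only [AddSubmonoidClass.coe_finsetSum, SetLike.val_smul, WithLp.ofLp_sum,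
      WithLp.ofLp_smul, Finset.sum_apply, Pi.smul_apply, smul_eq_mul]
    refine sum_congr rfl fun i _ => ?_
    congr 1
    rw [Submodule.coe_inner, PiLp.inner_apply]
    refine Eq.trans (sum_congr rfl fun c _ => ?_) (hrep (B i) a)
    simp [hL]
  let h : Fin 4 → Fin 6 → ℝ := fun i k => ∑ a, e a i * y a k
  have hyh : ∀ a k, y a k = ∑ i, e a i * h i k := fun a k => by
    have h1 := congrFun (hp (y a)) k
    simp only [hy, zero_smul, sum_const_zero, add_zero, Finset.sum_apply, Pi.smul_apply,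
      smul_eq_mul, hP] at h1
    rw [← h1]
    simp only [h, mul_sum, sum_mul]
    rw [sum_comm]
    exact sum_congr rfl fun _ _ => sum_congr rfl fun _ _ => by ring
  have hdet : ∀ a b c d, Matrix.det (Matrix.of ![V 0, V 1, y a, y b, y c, y d])
      = Matrix.det (Matrix.of ![V 0, V 1, h 0, h 1, h 2, h 3])
        * Matrix.det (Matrix.of ![e a, e b, e c, e d]) := fun a b c d => by
    rw [mul_comm]
    exact det_blk V h ![e a, e b, e c, e d] ![y a, y b, y c, y d] fun i k => by
      fin_cases i <;> exact hyh _ _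
  have hne : Matrix.det (Matrix.of ![V 0, V 1, h 0, h 1, h 2, h 3]) ≠ 0 := by
    let r : Fin 6 → Fin 4 → ℝ := fun k i => ∑ a, bq g (Pi.single k 1) (y a) * e a i
    have h1 : Matrix.of (fun k => ![al 0 k, al 1 k, r k 0, r k 1, r k 2, r k 3])
        * Matrix.of ![V 0, V 1, h 0, h 1, h 2, h 3] = 1 := by
      ext k l
      have h2 := congrFun (hp (Pi.single k 1)) l
      have h3 : ∑ a, bq g (Pi.single k 1) (y a) * y a l = ∑ i, r k i * h i l := by
        simp only [r, sum_mul]
        rw [sum_comm]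
        refine sum_congr rfl fun a _ => ?_
        rw [hyh a l, mul_sum]
        exact sum_congr rfl fun _ _ => by ring
      have h4 : ∀ b, ∑ m, al b m * (Pi.single k (1 : ℝ) : Fin 6 → ℝ) m = al b k := fun b => by
        simp [Pi.single_apply]
      simp only [Pi.add_apply, Finset.sum_apply, Pi.smul_apply, smul_eq_mul, h3, h4] at h2
      rw [Matrix.one_apply, ← Pi.single_apply, Pi.single_comm, ← h2]
      simp [Matrix.mul_apply, Fin.sum_univ_succ]
      ring
    intro h0
    have := congrArg Matrix.det h1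
    rw [Matrix.det_mul, h0, Matrix.det_one, mul_zero] at this
    exact zero_ne_one this
  rcases lt_or_gt_of_ne hne with hneg | hpos
  · let s : Fin 4 → ℝ := ![-1, 1, 1, 1]
    have hs : ∀ i, s i * s i = 1 := fun i => by fin_cases i <;> simp [s]
    refine ⟨fun a i => s i * e a i, _, neg_pos.2 hneg, fun i j => ?_, fun a b => ?_,
      fun a b c d => ?_⟩
    · have : ∑ a, s i * e a i * (s j * e a j) = s i * s j * ∑ a, e a i * e a j := by
        rw [mul_sum]; exact sum_congr rfl fun _ _ => by ring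
      rw [this, he]
      split_ifs with hij
      · rw [hij, hs, one_mul]
      · rw [mul_zero]
    · rw [hP]
      exact sum_congr rfl fun i _ => by linear_combination (-(e a i * e b i)) * hs i
    · have h1 := Matrix.det_mul_row s (Matrix.of ![e a, e b, e c, e d])
      have h2 : (Matrix.of fun i j => s j * Matrix.of ![e a, e b, e c, e d] i j)
          = Matrix.of ![fun i => s i * e a i, fun i => s i * e b i, fun i => s i * e c i,
            fun i => s i * e d i] := by
        ext i j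
        fin_cases i <;> rfl
      have h3 : ∏ i, s i = -1 := by simp [s, Fin.prod_univ_succ]
      rw [hdet, ← h2, h1, h3]
      ring
  · exact ⟨e, _, hpos, he, hP, hdet⟩

theorem all6 {α : Type} (Q : α → Prop) {a b c d e f : α} (h0 : Q a) (h1 : Q b) (h2 : Q c)
    (h3 : Q d) (h4 : Q e) (h5 : Q f) (i : Fin 6) : Q (![a, b, c, d, e, f] i) := by
  fin_cases i
  exacts [h0, h1, h2, h3, h4, h5]

variable {md : MD} {ι : Type} [Fintype ι] (fr : Frame md ι)

theorem nu_mem (hA : BasA) (a b c d : ι) : nu fr a b c d ∈ AA := by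
  intro v
  rw [nu, hA.det_vf, hA.div_V, zero_mul, zero_add]
  refine sum_eq_zero fun i _ => Matrix.det_eq_zero_of_row_eq_zero i fun j => ?_
  have : brk (Vv v) (![Vv 0, Vv 1, fr.y a, fr.y b, fr.y c, fr.y d] i) = 0 :=
    all6 (fun w => brk (Vv v) w = 0) (hA.brk_V v 0) (hA.brk_V v 1) (fr.inv v a) (fr.inv v b)
      (fr.inv v c) (fr.inv v d) i
  rw [Matrix.of_apply, Function.update_self, this]
  rfl

theorem ev_gq (x : PP) (u w : Fin 6 → SS) : (gq md.g u w).1 x
    = bq (fun k l => (md.g k l).1 x) (fun k => (u k).1 x) (fun k => (w k).1 x) := by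
  rw [← evS_apply]
  simp only [gq, bq, map_sum, map_mul, evS_apply]

theorem ev_ip1 (x : PP) (u w : Fin 6 → SS) : (ip1 u w).1 x = ∑ k, (u k).1 x * (w k).1 x := by
  rw [← evS_apply]
  simp only [ip1, map_sum, map_mul, evS_apply]

theorem at_pt (x : PP) : ∃ (e : ι → Fin 4 → ℝ) (δ : ℝ), 0 < δ ∧
    (∀ i j, ∑ a, e a i * e a j = if i = j then 1 else 0) ∧
    (∀ a b, (gq md.g (fr.y a) (fr.y b)).1 x = ∑ i, e a i * e b i) ∧
    ∀ a b c d, (nu fr a b c d).1 x = δ * Matrix.det (Matrix.of ![e a, e b, e c, e d]) := by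
  obtain ⟨e, δ, h0, h1, h2, h3⟩ := pt (fun k l => (md.g k l).1 x) (fun b k => (Vv b k).1 x)
    (fun b k => (fr.al b k).1 x) (fun a k => (fr.y a k).1 x) (fun k l => by rw [md.symm])
    (fun b k => by
      have := congrArg (evS x) (md.vert b k)
      simpa only [map_sum, map_mul, evS_apply, map_zero] using this)
    (fun b c => by
      rw [← ev_ip1, fr.al_V]
      split_ifs <;> rfl)
    (fun b a => by rw [← ev_ip1, fr.al_y]; rfl)
    (fun w => by
      funext k
      have := congrArg (evS x) (congrFun (fr.pars fun k => algebraMap ℝ SS (w k)) k)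
      simp only [Pi.add_apply, Finset.sum_apply, Pi.smul_apply, smul_eq_mul, map_add, map_sum,
        map_mul, evS_apply, ev_gq, ev_ip1] at this ⊢
      exact this)
  refine ⟨e, δ, h0, h1, fun a b => by rw [ev_gq, h2], fun a b c d => ?_⟩
  rw [← h3, ← evS_apply, nu, AlgHom.map_det]
  congr 1
  ext i j
  fin_cases i <;> rfl

end VolP

open VolP in
theorem volS (hA : BasA) (hB : BasB) : S_Vol := by
  intro md ι _ fr C hC
  let n : ι → ι → ι → ι → AA := fun a b c d => ⟨nu fr a b c d, nu_mem fr hA a b c d⟩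
  let N : AA := (1 / 24 : ℝ) • ∑ a, ∑ b, ∑ c, ∑ d, n a b c d * n a b c d
  have hN : ∀ (x : PP) (e : ι → Fin 4 → ℝ) (δ : ℝ),
      (∀ i j, ∑ a, e a i * e a j = if i = j then 1 else 0) →
      (∀ a b c d, (nu fr a b c d).1 x = δ * Matrix.det (Matrix.of ![e a, e b, e c, e d])) →
      N.1.1 x = δ ^ 2 := by
    intro x e δ h1 h3
    have h4 := AlgBP.ip_T4 (e := e) h1 AlgBP.ep AlgBP.ep
    rw [AlgBP.ep_sq] at h4
    rw [← evA_apply]
    simp only [N, n, map_smul, map_sum, map_mul, evA_apply, h3, AlgBP.det_eq, smul_eq_mul]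
    have h5 : ∑ a, ∑ b, ∑ c, ∑ d, δ * AlgBP.T4 e AlgBP.ep a b c d * (δ * AlgBP.T4 e AlgBP.ep a b c d)
        = δ ^ 2 * ∑ a, ∑ b, ∑ c, ∑ d,
          AlgBP.T4 e AlgBP.ep a b c d * AlgBP.T4 e AlgBP.ep a b c d := by
      simp only [mul_sum]
      exact sum_congr rfl fun _ _ => sum_congr rfl fun _ _ => sum_congr rfl fun _ _ =>
        sum_congr rfl fun _ _ => by ring
    rw [h5, h4]
    ring
  have hpos : ∀ x, 0 < N.1.1 x := fun x => by
    obtain ⟨e, δ, h0, h1, -, h3⟩ := at_pt fr x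
    rw [hN x e δ h1 h3]
    positivity
  have hΦ : ContDiffOn ℝ ∞ (fun t : ℝ => (√t)⁻¹) (Set.Ioi 0) := fun t ht =>
    ((Real.contDiffAt_sqrt (ne_of_gt ht)).inv (Real.sqrt_pos.2 ht).ne').contDiffWithinAt
  obtain ⟨ψ, hψ, hX⟩ := hB.comp _ N.1 hΦ hpos
  have hmem : ψ ∈ AA := by
    intro b
    apply Subtype.ext
    funext x
    have h1 := congrArg (evS x) (N.2 b)
    rw [hA.vf_apply, map_sum, map_zero] at h1
    change evS x (vf (Vv b) ψ) = 0
    rw [hA.vf_apply, map_sum]
    simp only [map_mul, evS_apply, hX] at h1 ⊢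
    have : ∑ k, (Vv b k).1 x * (deriv (fun t : ℝ => (√t)⁻¹) (N.1.1 x) * (X k N.1).1 x)
        = deriv (fun t : ℝ => (√t)⁻¹) (N.1.1 x) * ∑ k, (Vv b k).1 x * (X k N.1).1 x := by
      rw [mul_sum]; exact sum_congr rfl fun _ _ => by ring
    rw [this, h1, mul_zero]
  refine ⟨⟨ψ, hmem⟩, fun a b c d => ⟨ψ, hmem⟩ * n a b c d, ⟨fun x => ?_, fun a b c d => rfl⟩,
    fun x => ?_⟩
  · change 0 < ψ.1 x
    rw [hψ]
    exact inv_pos.2 (Real.sqrt_pos.2 (hpos x))
  · obtain ⟨e, δ, h0, h1, h2, h3⟩ := at_pt fr x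
    refine ⟨e, h1, fun a b => ?_, fun a b c d => ?_⟩
    · rw [hC.ev, evA_apply, hC.Pr, h2]
    · rw [hC.ev, map_mul, evA_apply, evA_apply]
      change ψ.1 x * (nu fr a b c d).1 x = _
      rw [hψ, hN x e δ h1 h3, h3, Real.sqrt_sq h0.le, ← mul_assoc, inv_mul_cancel₀ h0.ne', one_mul]

end Pool.Agent.P.MP_713680_gt
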