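import Pool.Agent.P.MP_713680_gt.Fin0
import Pool.Agent.P.MP_713680_gt.BasA1
import Pool.Agent.P.MP_713680_gt.BasA2
import Pool.Agent.P.MP_713680_gt.BasB1
import Pool.Agent.P.MP_713680_gt.BasB2
import Pool.Agent.P.MP_713680_gt.AmbA
import Pool.Agent.P.MP_713680_gt.Lim
import Pool.Agent.P.MP_713680_gt.Est
import Pool.Agent.P.MP_713680_gt.RC
import Pool.Agent.P.MP_713680_gt.Gal
import Pool.Agent.P.MP_713680_gt.Imm
import Pool.Agent.P.MP_713680_gt.Frame
import Pool.Agent.P.MP_713680_gt.Koszul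
import Pool.Agent.P.MP_713680_gt.Misc
import Pool.Agent.P.MP_713680_gt.Vol
import Pool.Agent.P.MP_713680_gt.Div
import Pool.Agent.P.MP_713680_gt.T12
import Pool.Agent.P.MP_713680_gt.T3
import Pool.Agent.P.MP_713680_gt.ON
import Pool.Agent.P.MP_713680_gt.Man
import Pool.Agent.P.MP_713680_gt.Chart
import Pool.Agent.P.MP_713680_gt.Lip
import Pool.Agent.P.MP_713680_gt.Pull
import Pool.Agent.P.MP_713680_gt.Round
import Pool.Agent.P.MP_713680_gt.Res
import Pool.Agent.P.MP_713680_gt.Cmp
import Pool.Agent.P.MP_713680_gt.Curv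

/-!
MP_713680_gt: the final statement.
-/

noncomputable section

namespace Pool.Agent.P.MP_713680_gt

theorem final : S_Final := by
  have hA : BasA := ⟨basA1, basA2 basA1⟩
  have hB : BasB := ⟨basB1 hA, basB2 hA⟩
  have hV : AmbA := ambA hA hB
  have ha := amb hA hB hV
  have hI := imm hA
  have hG := gal est rc
  have h0 : S_G0 := g0abs rc hG PP SS (Fin 6) evS X cc I0 VV ha
  exact fin0 man chartS glue scale (pull hA hB hI) (round hA hB hI) (resS hA hB hI) (cmp fcS) curv
    (dist lip) (frame hA hB hI) (koszul hA hI) (misc hA hB hV ha hG) (volS hA hB) (divS hA hB)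
    (t1 hA hB h0) (t2 hA hB h0) (t3 hA hB) (onS hA fcS)

end Pool.Agent.P.MP_713680_gt
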