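import Pool.Agent.P.MP_713680_gt.UpSt

/-!
MP_713680_gt, package E3, toolbox: finite dimensional Rayleigh quotients, convergence in the mean.
-/

noncomputable section

namespace Pool.Agent.P.MP_713680_gt

open Finset Filter Topology

namespace GalP

/-- A symmetric form that is nonnegative on a subspace and vanishes at `u` has `u` in its
kernel. -/
theorem ker_of_psd {E : Type} [AddCommGroup E] [Module ℝ E] (q : E →ₗ[ℝ] E →ₗ[ℝ] ℝ)
    (hs : ∀ u v, q u v = q v u) (F : Submodule ℝ E) (hp : ∀ v ∈ F, 0 ≤ q v v) {u : E}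
    (hu : u ∈ F) (h0 : q u u = 0) {v : E} (hv : v ∈ F) : q u v = 0 := by
  have h : ∀ x : ℝ, 0 ≤ q v v * (x * x) + (2 * q u v) * x + 0 := by
    intro x
    have := hp (u + x • v) (F.add_mem hu (F.smul_mem x hv))
    simp only [map_add, map_smul, LinearMap.add_apply, LinearMap.smul_apply, smul_eq_mul] at this
    rw [h0, hs v u] at this
    nlinarith [this]
  have := discrim_le_zero h
  simp only [discrim] at this
  nlinarith [sq_nonneg (q u v)]

theorem cont_quad {n : ℕ} (q : (Fin n → ℝ) →ₗ[ℝ] (Fin n → ℝ) →ₗ[ℝ] ℝ) :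
    Continuous fun v => q v v := by
  have h : (fun v => q v v) = fun v : Fin n → ℝ =>
      ∑ i, v i * q (fun j => if i = j then 1 else 0) v := by
    funext v
    conv_lhs => rw [LinearMap.pi_apply_eq_sum_univ q v]
    simp [LinearMap.sum_apply]
  rw [h]
  refine continuous_finsetSum _ fun i _ => (continuous_apply i).mul ?_
  exact LinearMap.continuous_of_finiteDimensional _

/-- Maximum of a Rayleigh quotient in coordinates. -/
theorem rayleigh_pi {n : ℕ} (en be : (Fin n → ℝ) →ₗ[ℝ] (Fin n → ℝ) →ₗ[ℝ] ℝ)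
    (hp : ∀ v, v ≠ 0 → 0 < en v v) (u0 : Fin n → ℝ) (h0 : 0 < be u0 u0) :
    ∃ (u : Fin n → ℝ) (μ : ℝ), 0 < μ ∧ u ≠ 0 ∧ be u u = μ * en u u ∧
      ∀ v, be v v ≤ μ * en v v := by
  have hu0 : u0 ≠ 0 := by
    rintro rfl
    simp at h0
  have hne : ∀ v ∈ Metric.sphere (0 : Fin n → ℝ) 1, v ≠ 0 := by
    intro v hv h
    simp [h] at hv
  have hc : ContinuousOn (fun v => be v v / en v v) (Metric.sphere (0 : Fin n → ℝ) 1) :=
    (cont_quad be).continuousOn.div (cont_quad en).continuousOn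
      fun v hv => (hp v (hne v hv)).ne'
  have hmem : ∀ v : Fin n → ℝ, v ≠ 0 → ‖v‖⁻¹ • v ∈ Metric.sphere (0 : Fin n → ℝ) 1 := by
    intro v hv
    have : ‖v‖ ≠ 0 := norm_ne_zero_iff.2 hv
    simp [norm_smul, this]
  obtain ⟨u, hu, hmax⟩ := (isCompact_sphere (0 : Fin n → ℝ) 1).exists_isMaxOn
    ⟨_, hmem u0 hu0⟩ hc
  have key : ∀ v, v ≠ 0 → be v v / en v v ≤ be u u / en u u := by
    intro v hv
    have h1 := hmax (hmem v hv)
    have hn : ‖v‖⁻¹ ≠ 0 := inv_ne_zero (norm_ne_zero_iff.2 hv)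
    simp only [Set.mem_ofPred_eq, map_smul, LinearMap.smul_apply, smul_eq_mul] at h1
    rwa [mul_div_mul_left _ _ hn, mul_div_mul_left _ _ hn] at h1
  have hpu := hp u (hne u hu)
  refine ⟨u, be u u / en u u, lt_of_lt_of_le (div_pos h0 (hp u0 hu0)) (key u0 hu0), hne u hu,
    by field_simp, fun v => ?_⟩
  by_cases hv : v = 0
  · simp [hv]
  · have := key v hv
    rwa [div_le_iff₀ (hp v hv)] at this

/-- The first eigenvalue on a finite dimensional subspace. -/
theorem eig {E : Type} [AddCommGroup E] [Module ℝ E] (en be : E →ₗ[ℝ] E →ₗ[ℝ] ℝ)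
    (hse : ∀ u v, en u v = en v u) (hsb : ∀ u v, be u v = be v u) (F : Submodule ℝ E)
    [FiniteDimensional ℝ F] (hp : ∀ v ∈ F, v ≠ 0 → 0 < en v v) {u0 : E} (hu0 : u0 ∈ F)
    (h0 : 0 < be u0 u0) :
    ∃ u ∈ F, ∃ l : ℝ, 0 < l ∧ be u u = 1 ∧ (∀ v ∈ F, en u v = l * be u v) ∧
      ∀ v ∈ F, l * be v v ≤ en v v := by
  let e : F ≃ₗ[ℝ] (Fin (Module.finrank ℝ F) → ℝ) := (Module.finBasis ℝ F).equivFun
  let ι : (Fin (Module.finrank ℝ F) → ℝ) →ₗ[ℝ] E := F.subtype ∘ₗ e.symm.toLinearMap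
  have hι : ∀ x, ι x ∈ F := fun x => (e.symm x).2
  have hs : ∀ v (hv : v ∈ F), ι (e ⟨v, hv⟩) = v := by
    intro v hv
    simp [ι]
  have hinj : ∀ x, x ≠ 0 → ι x ≠ 0 := by
    intro x hx h
    apply hx
    have : e.symm x = 0 := Subtype.ext h
    simpa using this
  obtain ⟨x, μ, hμ, hx, h1, h2⟩ := rayleigh_pi (en.compl₁₂ ι ι) (be.compl₁₂ ι ι)
    (fun v hv => hp _ (hι v) (hinj v hv)) (e ⟨u0, hu0⟩) (by simpa [hs] using h0)
  simp only [LinearMap.compl₁₂_apply] at h1 h2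
  have hx1 := hp _ (hι x) (hinj x hx)
  have hb : 0 < be (ι x) (ι x) := by rw [h1]; positivity
  have h3 : ∀ v ∈ F, μ⁻¹ * be v v ≤ en v v := by
    intro v hv
    have := h2 (e ⟨v, hv⟩)
    rw [hs] at this
    rw [inv_mul_le_iff₀ hμ]
    exact this
  set r := (√(be (ι x) (ι x)))⁻¹ with hr
  have hr2 : r * (r * be (ι x) (ι x)) = 1 := by
    rw [hr, ← mul_assoc, ← mul_inv, Real.mul_self_sqrt hb.le, inv_mul_cancel₀ hb.ne']
  refine ⟨r • ι x, F.smul_mem _ (hι x), μ⁻¹, inv_pos.2 hμ, by simpa using hr2, fun v hv => ?_, h3⟩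
  have := ker_of_psd (en - μ⁻¹ • be) (fun u v => by simp [hse u v, hsb u v]) F
    (fun v hv => by simpa using h3 v hv) (hι x)
    (by simp only [LinearMap.sub_apply, LinearMap.smul_apply, smul_eq_mul, h1]; field_simp; ring) hv
  simp only [LinearMap.sub_apply, LinearMap.smul_apply, smul_eq_mul] at this
  simp only [map_smul, LinearMap.smul_apply, smul_eq_mul]
  rw [sub_eq_zero.1 this]
  ring

/-! ### Bounded sequences -/

/-- The sequence `F` is bounded. -/
def Bd (F : ℕ → ℝ) : Prop := ∃ C, ∀ N, |F N| ≤ C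

theorem Bd.const (a : ℝ) : Bd fun _ => a := ⟨|a|, fun _ => le_rfl⟩

theorem Bd.add {F G : ℕ → ℝ} (h : Bd F) (h' : Bd G) : Bd fun N => F N + G N := by
  obtain ⟨C, hC⟩ := h
  obtain ⟨D, hD⟩ := h'
  exact ⟨C + D, fun N => (abs_add_le _ _).trans (add_le_add (hC N) (hD N))⟩

theorem Bd.mul {F G : ℕ → ℝ} (h : Bd F) (h' : Bd G) : Bd fun N => F N * G N := by
  obtain ⟨C, hC⟩ := h
  obtain ⟨D, hD⟩ := h'
  refine ⟨C * D, fun N => ?_⟩
  rw [abs_mul]
  exact mul_le_mul (hC N) (hD N) (abs_nonneg _) ((abs_nonneg _).trans (hC N))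

theorem Bd.abs {F : ℕ → ℝ} (h : Bd F) : Bd fun N => |F N| := by
  obtain ⟨C, hC⟩ := h
  exact ⟨C, fun N => by simpa using hC N⟩

theorem Bd.sum {ι : Type} (s : Finset ι) {F : ι → ℕ → ℝ} (h : ∀ i ∈ s, Bd (F i)) :
    Bd fun N => ∑ i ∈ s, F i N := by
  classical
  induction s using Finset.induction_on with
  | empty => simpa using Bd.const 0
  | insert a s ha ih =>
    simp only [Finset.sum_insert ha]
    exact (h a (mem_insert_self _ _)).add (ih fun i hi => h i (mem_insert_of_mem hi))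

theorem Bd.of_abs_le {F G : ℕ → ℝ} (h : Bd G) (hle : ∀ N, |F N| ≤ G N) : Bd F := by
  obtain ⟨C, hC⟩ := h
  exact ⟨C, fun N => (hle N).trans ((le_abs_self _).trans (hC N))⟩

theorem Bd.of_le {F G : ℕ → ℝ} (h : Bd G) (h0 : ∀ N, 0 ≤ F N) (hle : ∀ N, F N ≤ G N) : Bd F :=
  h.of_abs_le fun N => by rw [abs_of_nonneg (h0 N)]; exact hle N

/-! ### Convergence in the mean -/

section L2

variable {P S K : Type} [CommRing S] [Algebra ℝ S] [Fintype K]
  {ev : P → S →ₐ[ℝ] ℝ} {X : K → Derivation ℝ S S} {c : K → K → K → ℝ} {I : S →ₗ[ℝ] ℝ}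
  {V : ℕ → Submodule ℝ S}

theorem sq_nn (A : Amb ev X c I V) (g : S) : 0 ≤ I (g * g) :=
  A.nonneg _ fun x => by rw [map_mul]; exact mul_self_nonneg _

theorem eq_zero (A : Amb ev X c I V) {g : S} (h : I (g * g) = 0) : g = 0 := by
  have h1 := A.faith _ (fun x => by rw [map_mul]; exact mul_self_nonneg _) h
  refine A.ev_inj _ fun x => ?_
  have := congrArg (ev x) h1
  simpa using this

theorem cs (A : Amb ev X c I V) (g h : S) : I (g * h) ^ 2 ≤ I (g * g) * I (h * h) := by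
  have H : ∀ x : ℝ, 0 ≤ I (g * g) * (x * x) + (2 * I (g * h)) * x + I (h * h) := by
    intro x
    have := sq_nn A (x • g + h)
    have e : (x • g + h) * (x • g + h) = (x * x) • (g * g) + (2 * x) • (g * h) + h * h := by
      simp only [Algebra.smul_def, map_mul, map_ofNat]
      ring
    rw [e] at this
    simp only [map_add, map_smul, smul_eq_mul] at this
    nlinarith [this]
  have := discrim_le_zero H
  simp only [discrim] at this
  nlinarith [this]

theorem Nk_nn (A : Amb ev X c I V) (n : ℕ) (g : S) : 0 ≤ Nk X I n g := by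
  induction n generalizing g with
  | zero => exact sq_nn A g
  | succ n ih => exact Finset.sum_nonneg fun k _ => ih _

theorem Hs_nn (A : Amb ev X c I V) (n : ℕ) (g : S) : 0 ≤ Hs X I n g :=
  Finset.sum_nonneg fun i _ => Nk_nn A i g

theorem Nk_le (A : Amb ev X c I V) (n : ℕ) (g : S) : Nk X I n g ≤ Hs X I n g :=
  Finset.single_le_sum (f := fun i => Nk X I i g) (fun i _ => Nk_nn A i g)
    (Finset.self_mem_range_succ n)

theorem skew (A : Amb ev X c I V) (k : K) (g h : S) : I (X k g * h) = -1 * I (g * X k h) := by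
  have := A.I_X k (g * h)
  rw [Derivation.leibniz, smul_eq_mul, smul_eq_mul, map_add] at this
  rw [mul_comm (X k g) h]
  linarith

theorem mul_le (A : Amb ev X c I V) (a : S) :
    ∃ B, ∀ g : S, (∀ x, 0 ≤ ev x g) → I (a * g) ≤ B * I g := by
  obtain ⟨B, hB⟩ := A.bdd a
  refine ⟨B, fun g hg => ?_⟩
  have := A.nonneg (B • g - a * g) fun x => by
    rw [map_sub, map_smul, map_mul, smul_eq_mul, ← sub_mul]
    exact mul_nonneg (sub_nonneg.2 ((le_abs_self _).trans (hB x))) (hg x)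
  rw [map_sub, map_smul, smul_eq_mul] at this
  linarith

/-- Convergence in the mean. -/
def Cv (I : S →ₗ[ℝ] ℝ) (u : ℕ → S) (g : S) : Prop :=
  Tendsto (fun N => I ((u N - g) * (u N - g))) atTop (𝓝 0)

theorem Cv.const (I : S →ₗ[ℝ] ℝ) (g : S) : Cv I (fun _ => g) g := by
  simp [Cv]

theorem tendsto_zero_of_sq {F G : ℕ → ℝ} (hG : Tendsto G atTop (𝓝 0)) (h : ∀ N, F N ^ 2 ≤ G N) :
    Tendsto F atTop (𝓝 0) := by
  have h1 : Tendsto (fun N => F N ^ 2) atTop (𝓝 0) :=
    squeeze_zero (fun N => sq_nonneg _) h hG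
  have h2 := h1.sqrt
  simp only [Real.sqrt_sq_eq_abs, Real.sqrt_zero] at h2
  exact (tendsto_zero_iff_abs_tendsto_zero F).2 h2

theorem Cv.pair (A : Amb ev X c I V) {u v : ℕ → S} {g h : S} (hu : Cv I u g) (hv : Cv I v h) :
    Tendsto (fun N => I (u N * v N)) atTop (𝓝 (I (g * h))) := by
  have h1 : Tendsto (fun N => I ((u N - g) * (v N - h))) atTop (𝓝 0) :=
    tendsto_zero_of_sq (by simpa using Tendsto.mul hu hv) fun N => cs A _ _
  have h2 : Tendsto (fun N => I ((u N - g) * h)) atTop (𝓝 0) :=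
    tendsto_zero_of_sq (by simpa using Tendsto.mul_const (I (h * h)) hu) fun N => cs A _ _
  have h3 : Tendsto (fun N => I (g * (v N - h))) atTop (𝓝 0) :=
    tendsto_zero_of_sq (by simpa using Tendsto.const_mul (I (g * g)) hv) fun N => cs A _ _
  have h4 := ((h1.add h2).add h3).add_const (I (g * h))
  simp only [zero_add] at h4
  refine h4.congr fun N => ?_
  rw [← map_add, ← map_add, ← map_add]
  congr 1
  ring

theorem Cv.mul (A : Amb ev X c I V) (a : S) {u : ℕ → S} {g : S} (hu : Cv I u g) :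
    Cv I (fun N => a * u N) (a * g) := by
  obtain ⟨B, hB⟩ := mul_le A (a * a)
  refine squeeze_zero (fun N => sq_nn A _) (fun N => ?_) (by simpa using hu.const_mul B)
  have := hB ((u N - g) * (u N - g)) fun x => by rw [map_mul]; exact mul_self_nonneg _
  convert this using 2
  ring

theorem Cv.ip (A : Amb ev X c I V) {κ : Type} [Fintype κ] (a : S) {u v : ℕ → κ → S}
    {g h : κ → S} (hu : ∀ i, Cv I (fun N => u N i) (g i)) (hv : ∀ i, Cv I (fun N => v N i) (h i)) :
    Tendsto (fun N => I (a * ip1 (u N) (v N))) atTop (𝓝 (I (a * ip1 g h))) := by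
  have e : ∀ u v : κ → S, I (a * ip1 u v) = ∑ i, I ((a * u i) * v i) := by
    intro u v
    simp only [ip1, Finset.mul_sum, map_sum, mul_assoc]
  simp only [e]
  exact tendsto_finsetSum _ fun i _ => ((hu i).mul A a).pair A (hv i)

theorem lap_apply (X : K → Derivation ℝ S S) (g : S) : lap X g = ∑ k, X k (X k g) := by
  simp [lap, LinearMap.sum_apply]

end L2

end GalP

end Pool.Agent.P.MP_713680_gt
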