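import Pool.Agent.P.MP_713680_gt.Gal0

/-!
MP_713680_gt, package E3: the forms, Sobolev bounds.
-/

noncomputable section

namespace Pool.Agent.P.MP_713680_gt

open Finset Filter Topology

namespace GalP

section Forms

variable {P S K : Type} [CommRing S] [Algebra ℝ S] [Fintype K] [DecidableEq K]
  {ev : P → S →ₐ[ℝ] ℝ} {J κ : Type} [Fintype J] [Fintype κ]

theorem L_add (s : Sys ev K J κ) (X : K → Derivation ℝ S S) (u v : κ → S) (j : J) (i : κ) :
    s.L X (u + v) j i = s.L X u j i + s.L X v j i := by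
  simp only [Sys.L, Pi.add_apply, map_add, mul_add, Finset.sum_add_distrib]
  ring

theorem L_smul (s : Sys ev K J κ) (X : K → Derivation ℝ S S) (r : ℝ) (u : κ → S) (j : J)
    (i : κ) : s.L X (r • u) j i = r • s.L X u j i := by
  simp only [Sys.L, Pi.smul_apply, Derivation.map_smul, smul_add, Finset.smul_sum, mul_smul_comm]

theorem en_symm (s : Sys ev K J κ) (X : K → Derivation ℝ S S) (I : S →ₗ[ℝ] ℝ) (u v : κ → S) :
    s.en X I u v = s.en X I v u := by
  unfold Sys.en
  congr 3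
  · simp only [mul_comm]
  · rw [Finset.sum_comm]
    refine Finset.sum_congr rfl fun i _ => Finset.sum_congr rfl fun j _ => ?_
    rw [s.symm j i]
    ring

theorem en_add (s : Sys ev K J κ) (X : K → Derivation ℝ S S) (I : S →ₗ[ℝ] ℝ) (u u' v : κ → S) :
    s.en X I (u + u') v = s.en X I u v + s.en X I u' v := by
  unfold Sys.en
  rw [← map_add]
  congr 1
  simp only [L_add, Pi.add_apply, mul_add, add_mul, Finset.sum_add_distrib]
  ring

theorem en_smul (s : Sys ev K J κ) (X : K → Derivation ℝ S S) (I : S →ₗ[ℝ] ℝ) (r : ℝ)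
    (u v : κ → S) : s.en X I (r • u) v = r • s.en X I u v := by
  unfold Sys.en
  rw [← map_smul]
  congr 1
  simp only [L_smul, Pi.smul_apply, mul_smul_comm, smul_mul_assoc, ← Finset.smul_sum, ← smul_add]

/-- The energy as a bilinear map. -/
def enL (s : Sys ev K J κ) (X : K → Derivation ℝ S S) (I : S →ₗ[ℝ] ℝ) :
    (κ → S) →ₗ[ℝ] (κ → S) →ₗ[ℝ] ℝ :=
  LinearMap.mk₂ ℝ (s.en X I) (en_add s X I) (en_smul s X I)
    (fun u v v' => by rw [en_symm, en_add, en_symm s X I v, en_symm s X I v'])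
    (fun r u v => by rw [en_symm, en_smul, en_symm s X I v])

omit [Algebra ℝ S] in
theorem ip_symm (u v : κ → S) : ip1 u v = ip1 v u := by
  simp only [ip1, mul_comm]

omit [Algebra ℝ S] in
theorem ip_add (u u' v : κ → S) : ip1 (u + u') v = ip1 u v + ip1 u' v := by
  simp only [ip1, Pi.add_apply, add_mul, Finset.sum_add_distrib]

theorem ip_smul (r : ℝ) (u v : κ → S) : ip1 (r • u) v = r • ip1 u v := by
  simp only [ip1, Pi.smul_apply, smul_mul_assoc, Finset.smul_sum]

theorem be_symm (s : Sys ev K J κ) (I : S →ₗ[ℝ] ℝ) (τ σ : ℝ) (f u v : κ → S) :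
    s.be I τ σ f u v = s.be I τ σ f v u := by
  unfold Sys.be
  rw [ip_symm u v, mul_comm (I (s.ψ * ip1 f u))]

theorem be_add (s : Sys ev K J κ) (I : S →ₗ[ℝ] ℝ) (τ σ : ℝ) (f u u' v : κ → S) :
    s.be I τ σ f (u + u') v = s.be I τ σ f u v + s.be I τ σ f u' v := by
  unfold Sys.be
  rw [ip_add, ip_symm f (u + u'), ip_add, ip_symm u f, ip_symm u' f]
  simp only [mul_add, map_add]
  ring

theorem be_smul (s : Sys ev K J κ) (I : S →ₗ[ℝ] ℝ) (τ σ r : ℝ) (f u v : κ → S) :
    s.be I τ σ f (r • u) v = r • s.be I τ σ f u v := by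
  unfold Sys.be
  rw [ip_smul, ip_symm f (r • u), ip_smul, ip_symm u f]
  simp only [mul_smul_comm, map_smul, smul_eq_mul]
  ring

/-- The form `be` as a bilinear map. -/
def beL (s : Sys ev K J κ) (I : S →ₗ[ℝ] ℝ) (τ σ : ℝ) (f : κ → S) :
    (κ → S) →ₗ[ℝ] (κ → S) →ₗ[ℝ] ℝ :=
  LinearMap.mk₂ ℝ (s.be I τ σ f) (be_add s I τ σ f) (fun r => be_smul s I τ σ r f)
    (fun u v v' => by rw [be_symm, be_add, be_symm s I τ σ f v, be_symm s I τ σ f v'])
    (fun r u v => by rw [be_symm, be_smul, be_symm s I τ σ f v])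

variable {X : K → Derivation ℝ S S} {c : K → K → K → ℝ} {I : S →ₗ[ℝ] ℝ} {V : ℕ → Submodule ℝ S}

theorem be_lim (A : Amb ev X c I V) (s : Sys ev K J κ) (τ σ : ℝ) (f : κ → S) {u v : ℕ → κ → S}
    {g h : κ → S} (hu : ∀ i, Cv I (fun N => u N i) (g i)) (hv : ∀ i, Cv I (fun N => v N i) (h i)) :
    Tendsto (fun N => s.be I τ σ f (u N) (v N)) atTop (𝓝 (s.be I τ σ f g h)) :=
  ((Cv.ip A s.ψ hu hv).const_mul τ).add
    (((Cv.ip A s.ψ (u := fun _ => f) (fun i => Cv.const I (f i)) hu).mul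
      (Cv.ip A s.ψ (u := fun _ => f) (fun i => Cv.const I (f i)) hv)).const_mul σ)

theorem en_lim (A : Amb ev X c I V) (s : Sys ev K J κ)
    (hw : ∀ v, ∃ w : κ → S, ∀ u, s.en X I u v = I (ip1 u w)) {u : ℕ → κ → S}
    {g : κ → S} (hu : ∀ i, Cv I (fun N => u N i) (g i)) (v : κ → S) :
    Tendsto (fun N => s.en X I (u N) v) atTop (𝓝 (s.en X I g v)) := by
  obtain ⟨w, hw⟩ := hw v
  simp only [hw]
  simpa using Cv.ip A 1 (v := fun _ => w) hu fun i => Cv.const I (w i)

omit [DecidableEq K] in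
theorem ip_nn (ev : P → S →ₐ[ℝ] ℝ) (u : κ → S) (x : P) : 0 ≤ ev x (ip1 u u) := by
  simp only [ip1, map_sum, map_mul]
  exact Finset.sum_nonneg fun i _ => mul_self_nonneg _

theorem l2_le (A : Amb ev X c I V) (s : Sys ev K J κ) :
    ∃ B, ∀ u : κ → S, ∑ i, I (u i * u i) ≤ B * I (s.ψ * ip1 u u) := by
  obtain ⟨B, hB⟩ := mul_le A s.ψ'
  refine ⟨B, fun u => ?_⟩
  have := hB (s.ψ * ip1 u u) fun x => by
    rw [map_mul]
    exact mul_nonneg (s.pos x).le (ip_nn ev u x)
  rwa [← mul_assoc, mul_comm s.ψ', s.inv, one_mul, ip1, map_sum] at this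

theorem psi_nn (A : Amb ev X c I V) (s : Sys ev K J κ) (u : κ → S) : 0 ≤ I (s.ψ * ip1 u u) :=
  A.nonneg _ fun x => by
    rw [map_mul]
    exact mul_nonneg (s.pos x).le (ip_nn ev u x)

theorem psi_pos (A : Amb ev X c I V) (s : Sys ev K J κ) {u : κ → S} (hu : u ≠ 0) :
    0 < I (s.ψ * ip1 u u) := by
  refine lt_of_le_of_ne (psi_nn A s u) fun h => hu ?_
  obtain ⟨B, hB⟩ := l2_le A s
  have h1 := hB u
  rw [← h, mul_zero] at h1
  funext i
  refine eq_zero A (le_antisymm (le_trans ?_ h1) (sq_nn A _))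
  exact Finset.single_le_sum (f := fun i => I (u i * u i)) (fun i _ => sq_nn A _) (mem_univ i)

/-- All Sobolev norms of approximate eigenvectors are bounded. -/
theorem bounds (he : S_Est) (A : Amb ev X c I V) (s : Sys ev K J κ) (τ σ : ℝ) (f : κ → S)
    (u : ℕ → κ → S) (l : ℕ → ℝ) (hl : Bd l) (h0 : Bd fun N => I (s.ψ * ip1 (u N) (u N)))
    (hu : ∀ N n, s.en X I (u N) (fun i => ((-lap X) ^ n) (u N i))
      = l N * s.be I τ σ f (u N) (fun i => ((-lap X) ^ n) (u N i))) (n : ℕ) (i : κ) :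
    Bd fun N => Hs X I n (u N i) := by
  obtain ⟨-, h2, h3, h4⟩ := he P S K ev X c I V A
  obtain ⟨-, -, h4⟩ := h4 J κ s
  have hN : ∀ n i, (Bd fun N => Hs X I n (u N i)) → Bd fun N => Nk X I n (u N i) :=
    fun n i h => h.of_le (fun N => Nk_nn A _ _) fun N => Nk_le A _ _
  have z : ∀ i, Bd fun N => Hs X I 0 (u N i) := by
    intro i
    obtain ⟨B, hB⟩ := l2_le A s
    refine ((Bd.const B).mul h0).of_le (fun N => Hs_nn A _ _) fun N => le_trans ?_ (hB (u N))
    simp only [Hs, zero_add, Finset.range_one, Finset.sum_singleton, Nk]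
    exact Finset.single_le_sum (f := fun i => I (u N i * u N i)) (fun i _ => sq_nn A _) (mem_univ i)
  have hpair : ∀ (n : ℕ) (g : ℕ → κ → S), (∀ i, Bd fun N => Hs X I n (u N i)) →
      (∀ i, Bd fun N => Hs X I n (g N i)) →
      Bd fun N => I (s.ψ * ip1 (g N) fun i => ((-lap X) ^ n) (u N i)) := by
    intro n g hu hg
    simp only [ip1, Finset.mul_sum, map_sum, ← mul_assoc]
    refine Bd.sum _ fun i _ => ?_
    obtain ⟨B, hB⟩ := h3 s.ψ n
    have b1 : Bd fun N => Hs X I n (s.ψ * g N i) :=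
      ((Bd.const B).mul (hg i)).of_le (fun N => Hs_nn A _ _) fun N => hB _
    have b2 : Bd fun N => Nk X I n (s.ψ * g N i) :=
      b1.of_le (fun N => Nk_nn A _ _) fun N => Nk_le A _ _
    refine ((b2.add (hN n i (hu i))).mul (Bd.const (1 / 2))).of_abs_le fun N => ?_
    have := h2 n (s.ψ * g N i) (u N i)
    linarith
  induction n generalizing i with
  | zero => exact z i
  | succ n ih =>
    obtain ⟨B, hB⟩ := h4 n
    have b1 : Bd fun N => s.be I τ σ f (u N) (fun i => ((-lap X) ^ n) (u N i)) := by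
      refine ((Bd.const τ).mul (hpair n u ih ih)).add ((Bd.const σ).mul (Bd.mul ?_
        (hpair n (fun _ => f) ih fun i => Bd.const _)))
      simpa using hpair 0 (fun _ => f) z fun i => Bd.const _
    have b2 : Bd fun N => s.en X I (u N) (fun i => ((-lap X) ^ n) (u N i)) := by
      simp only [hu]
      exact hl.mul b1
    have b3 : Bd fun N => Nk X I (n + 1) (u N i) := by
      refine ((Bd.const B).mul (b2.abs.add (Bd.sum univ fun i _ => ih i))).of_le
        (fun N => Nk_nn A _ _) fun N => le_trans ?_ (hB (u N))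
      exact Finset.single_le_sum (f := fun i => Nk X I (n + 1) (u N i))
        (fun i _ => Nk_nn A _ _) (mem_univ i)
    have e : ∀ g, Hs X I (n + 1) g = Hs X I n g + Nk X I (n + 1) g := fun g =>
      Finset.sum_range_succ _ _
    simp only [e]
    exact (ih i).add b3

/-- The energy of the projections converges. -/
theorem en_proj (he : S_Est) (A : Amb ev X c I V) (s : Sys ev K J κ) {π : ℕ → S →ₗ[ℝ] S}
    (hπ : Proj I V π) (v : κ → S) :
    Tendsto (fun M => s.en X I (fun i => π M (v i)) (fun i => π M (v i))) atTop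
      (𝓝 (s.en X I v v)) := by
  obtain ⟨-, -, -, h4⟩ := he P S K ev X c I V A
  obtain ⟨hw, ⟨B, hB⟩, -⟩ := h4 J κ s
  let d : ℕ → κ → S := fun M i => v i - π M (v i)
  have hd : ∀ i, Cv I (fun M => d M i) ((0 : κ → S) i) := fun i => by
    simpa [Cv, d] using hπ.conv (v i)
  have h1 : Tendsto (fun M => ∑ i, Hs X I 1 (d M i)) atTop (𝓝 0) := by
    rw [← Finset.sum_const_zero (s := (univ : Finset κ))]
    refine tendsto_finsetSum _ fun i _ => ?_
    have e : ∀ g, Hs X I 1 g = I (g * g) + ∑ k, I (X k g * X k g) := by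
      intro g
      simp [Hs, Nk, Finset.sum_range_succ]
    simp only [e]
    have h2 : Tendsto (fun M => ∑ k, I (X k (d M i) * X k (d M i))) atTop (𝓝 0) := by
      rw [← Finset.sum_const_zero (s := (univ : Finset K))]
      refine tendsto_finsetSum _ fun k _ => ?_
      have h3 := hπ.comm (X k).toLinearMap (-1) (fun n g hg => A.V_X n k g hg) (skew A k)
      simp only [Derivation.coeFn_coe] at h3
      simpa [d, ← h3] using hπ.conv (X k (v i))
    simpa [d] using (hπ.conv (v i)).add h2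
  have h2 : Tendsto (fun M => s.en X I (d M) (d M)) atTop (𝓝 0) :=
    tendsto_zero_of_sq (by simpa using (h1.const_mul B).mul h1) fun M => hB _ _
  have h3 := en_lim A s hw hd v
  have h4 : s.en X I 0 v = 0 := by
    change enL s X I 0 v = 0
    simp
  rw [h4] at h3
  have h5 := (h2.sub (h3.const_mul 2)).add_const (s.en X I v v)
  simp only [mul_zero, sub_zero, zero_add] at h5
  refine h5.congr fun M => ?_
  have e : (fun i => π M (v i)) = v - d M := by
    funext i
    simp [d]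
  rw [e]
  change enL s X I (d M) (d M) - 2 * enL s X I (d M) v + enL s X I v v
    = enL s X I (v - d M) (v - d M)
  have : enL s X I v (d M) = enL s X I (d M) v := en_symm _ _ _ _ _
  simp only [map_sub, LinearMap.sub_apply, this]
  ring

end Forms

end GalP

end Pool.Agent.P.MP_713680_gt
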