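import Mathlib

/-!
MP_713680_gt, abstract layer. Tensor calculus of a Riemannian 4-manifold in a global Parseval
frame `Y a` (`a : ι`): `R` is the ring of smooth functions, `ev x` the evaluation at the point `x`,
`Pr a b = g(Y a, Y b)` (pointwise an orthogonal projector of rank 4), and `A a` is a skew matrix
such that `Y a + A a` is the Levi-Civita connection on 1-forms written by their values on the
frame. One-forms are maps `ι → R`, two-tensors are maps `ι → ι → R`.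
-/

noncomputable section

namespace Pool.Agent.P.MP_713680_gt

open Finset

structure Calc (P R ι : Type) [CommRing R] [Algebra ℝ R] [Fintype ι] where
  ev : P → R →ₐ[ℝ] ℝ
  Y : ι → Derivation ℝ R R
  Pr : ι → ι → R
  A : ι → ι → ι → R
  ev_inj : ∀ f, (∀ x, ev x f = 0) → f = 0
  Pr_symm : ∀ a b, Pr a b = Pr b a
  Pr_idem : ∀ a c, ∑ b, Pr a b * Pr b c = Pr a c
  Pr_Y : ∀ a f, ∑ b, Pr a b * Y b f = Y a f
  A_skew : ∀ a b c, A a b c = - A a c b
  Pr_A : ∀ a b c, ∑ e, Pr a e * A e b c = A a b c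
  par : ∀ a b c, Y a (Pr b c) + ∑ e, (A a b e * Pr e c + A a c e * Pr b e) = 0
  tors : ∀ a b f, Y a (Y b f) - Y b (Y a f) = ∑ c, (A b a c - A a b c) * Y c f
  faith : ∀ w : ι → R, (∀ f, ∑ c, w c * Y c f = 0) → ∀ a, ∑ c, Pr a c * w c = 0

section Pairings

variable {R ι : Type} [CommRing R] [Fintype ι]

/-- Pointwise pairing of 1-forms. -/
def ip1 (u v : ι → R) : R := ∑ a, u a * v a

/-- Pointwise (Frobenius) pairing of 2-tensors. -/
def ip2 (φ χ : ι → ι → R) : R := ∑ a, ∑ b, φ a b * χ a b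

/-- Pointwise pairing of 3-tensors. -/
def ip3 (s t : ι → ι → ι → R) : R := ∑ a, ∑ b, ∑ c, s a b c * t a b c

/-- Matrix times vector. -/
def mv (φ : ι → ι → R) (u : ι → R) : ι → R := fun a => ∑ b, φ a b * u b

/-- Matrix product. -/
def mm (φ χ : ι → ι → R) : ι → ι → R := fun a c => ∑ b, φ a b * χ b c

/-- Commutator of matrices. -/
def comm (φ χ : ι → ι → R) : ι → ι → R := mm φ χ - mm χ φ

/-- A 4-tensor is alternating. -/
def Alt4 (T : ι → ι → ι → ι → R) : Prop :=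
  (∀ a b c d, T a b c d = - T b a c d) ∧ (∀ a b c d, T a b c d = - T a c b d) ∧
    (∀ a b c d, T a b c d = - T a b d c)

/-- A 3-tensor is alternating. -/
def Alt3 (t : ι → ι → ι → R) : Prop :=
  (∀ a b c, t a b c = - t b a c) ∧ (∀ a b c, t a b c = - t a c b)

/-- The Hodge star on 2-forms for the volume tensor `vol`. -/
def star [Algebra ℝ R] (vol : ι → ι → ι → ι → R) (φ : ι → ι → R) : ι → ι → R :=
  fun a b => (1 / 2 : ℝ) • ∑ c, ∑ d, vol a b c d * φ c d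

end Pairings

namespace Calc

variable {P R ι : Type} [CommRing R] [Algebra ℝ R] [Fintype ι] (C : Calc P R ι)

/-- Covariant derivative of a 1-form along `Y a`. -/
def D1 (u : ι → R) (a b : ι) : R := C.Y a (u b) + ∑ c, C.A a b c * u c

/-- Covariant derivative of a 2-tensor along `Y a`. -/
def D2 (φ : ι → ι → R) (a b c : ι) : R :=
  C.Y a (φ b c) + ∑ e, (C.A a b e * φ e c + C.A a c e * φ b e)

/-- Covariant derivative of a 3-tensor along `Y a`. -/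
def D3 (t : ι → ι → ι → R) (a b c d : ι) : R :=
  C.Y a (t b c d) + ∑ e, (C.A a b e * t e c d + C.A a c e * t b e d + C.A a d e * t b c e)

def d0 (f : R) : ι → R := fun a => C.Y a f

def d1 (u : ι → R) : ι → ι → R := fun a b => C.D1 u a b - C.D1 u b a

def d2 (φ : ι → ι → R) : ι → ι → ι → R := fun a b c => C.D2 φ a b c + C.D2 φ b c a + C.D2 φ c a b

/-- Codifferential of a 1-form. -/
def cd1 (u : ι → R) : R := - ∑ a, C.D1 u a a

/-- Codifferential of a 2-form. -/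
def cd2 (φ : ι → ι → R) : ι → R := fun b => - ∑ a, C.D2 φ a a b

/-- Horizontal vectors: the genuine 1-forms. -/
def Hor1 (u : ι → R) : Prop := ∀ a, ∑ b, C.Pr a b * u b = u a

/-- Genuine 2-forms: skew and horizontal. -/
def Form2 (φ : ι → ι → R) : Prop :=
  (∀ a b, φ a b = - φ b a) ∧ ∀ a c, ∑ b, C.Pr a b * φ b c = φ a c

/-- Self-dual 2-forms. -/
def SD (vol : ι → ι → ι → ι → R) (φ : ι → ι → R) : Prop := C.Form2 φ ∧ star vol φ = φ

/-- Curvature matrix: `Rc a b e f = g(R(Y a, Y b) Y f, Y e)` on horizontal vectors. -/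
def Rc (a b e f : ι) : R :=
  C.Y a (C.A b e f) - C.Y b (C.A a e f) + ∑ g, (C.A a e g * C.A b g f - C.A b e g * C.A a g f)
    + ∑ c, (C.A a b c - C.A b a c) * C.A c e f

/-- `Gam a b c = g(∇_(Y a) Y b, Y c)`. -/
def Gam (a b c : ι) : R := - ∑ e, C.A a b e * C.Pr e c

/-- `Rm a b c d = g(R(Y a, Y b) Y c, Y d)`. -/
def Rm (a b c d : ι) : R := ∑ f, C.Rc a b d f * C.Pr f c

/-- The Ricci form on two 1-forms. -/
def Ric (u v : ι → R) : R := ∑ a, ∑ b, ∑ f, C.Rc a b a f * u b * v f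

/-- The Weitzenböck curvature term on 2-forms. -/
def Wq (φ : ι → ι → R) : R :=
  ∑ a, ∑ b, ∑ c, φ b c * ∑ e, (C.Rc a b a e * φ e c + C.Rc a b c e * φ a e)

/-- Curvature operator `≥ -ε`, as a quadratic form on horizontal skew matrices. -/
def CurvGe (ε : ℝ) : Prop :=
  ∀ (x : P) (ω : ι → ι → ℝ), (∀ a b, ω a b = - ω b a) →
    (∀ a c, ∑ b, C.ev x (C.Pr a b) * ω b c = ω a c) →
    -(2 * ε) * ∑ a, ∑ b, ω a b ^ 2 ≤
      ∑ a, ∑ b, ∑ e, ∑ f, C.ev x (C.Rc a b e f) * ω a b * ω e f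

/-- Nonnegative sectional curvature. -/
def SecNonneg : Prop :=
  ∀ (x : P) (u v : ι → ℝ),
    0 ≤ ∑ a, ∑ b, ∑ c, ∑ d, C.ev x (C.Rm a b c d) * u a * v b * v c * u d

/-- Diameter at most one, in the only form that is used. -/
def DistLe : Prop :=
  ∀ (f : R) (L : ℝ), 0 ≤ L → (∀ z, C.ev z (ip1 (C.d0 f) (C.d0 f)) ≤ L ^ 2) →
    ∀ x y, C.ev x f - C.ev y f ≤ L

/-- `I` is a faithful positive normalised linear functional. -/
structure PosI (I : R →ₗ[ℝ] ℝ) : Prop where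
  one : I 1 = 1
  nonneg : ∀ f, (∀ x, 0 ≤ C.ev x f) → 0 ≤ I f
  faith : ∀ f, (∀ x, 0 ≤ C.ev x f) → I f = 0 → f = 0

/-- The divergence theorem. -/
def Div (I : R →ₗ[ℝ] ℝ) : Prop := ∀ a f, I (C.Y a f + ∑ c, C.A c c a * f) = 0

/-- At each point there is an oriented orthonormal frame `e`. -/
def Fr4 (vol : ι → ι → ι → ι → R) : Prop :=
  ∀ x, ∃ e : ι → Fin 4 → ℝ, (∀ i j, ∑ a, e a i * e a j = if i = j then 1 else 0) ∧
    (∀ a b, C.ev x (C.Pr a b) = ∑ i, e a i * e b i) ∧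
    ∀ a b c d, C.ev x (vol a b c d) = Matrix.det (Matrix.of ![e a, e b, e c, e d])

/-- Functional calculus. -/
structure Fun : Prop where
  inv : ∀ f, (∀ x, 0 < C.ev x f) → ∃ g, f * g = 1
  sqrt : ∀ f, (∀ x, 0 < C.ev x f) → ∃ g, (∀ x, 0 < C.ev x g) ∧ g * g = f
  log : ∀ f, (∀ x, 0 < C.ev x f) →
    ∃ g, (∀ x, C.ev x g = Real.log (C.ev x f)) ∧ ∀ a, f * C.Y a g = C.Y a f

/-- Maximum principle. -/
structure MaxP : Prop where
  ex : ∀ f, ∃ x, ∀ y, C.ev y f ≤ C.ev x f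
  first : ∀ f x, (∀ y, C.ev y f ≤ C.ev x f) → ∀ a, C.ev x (C.Y a f) = 0
  second : ∀ f x, (∀ y, C.ev y f ≤ C.ev x f) → ∀ a, C.ev x (C.Y a (C.Y a f)) ≤ 0

/-- The energy form of a system. -/
def en (I : R →ₗ[ℝ] ℝ) {κ : Type} [Fintype κ] (B : ι → κ → κ → R) (Q : κ → κ → R)
    (u v : κ → R) : ℝ :=
  I (∑ a, ∑ i, (C.Y a (u i) + ∑ j, B a i j * u j) * (C.Y a (v i) + ∑ j, B a i j * v j)
    + ∑ i, ∑ j, Q i j * u j * v i)

/-- The form `τ ⟨u, v⟩ + σ ⟨f, u⟩ ⟨f, v⟩`. -/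
def be (I : R →ₗ[ℝ] ℝ) {κ : Type} [Fintype κ] (τ σ : ℝ) (f u v : κ → R) : ℝ :=
  τ * I (ip1 u v) + σ * (I (ip1 f u) * I (ip1 f v))

/-- Existence of smooth minimisers of Rayleigh quotients (elliptic theory). -/
def Solve (I : R →ₗ[ℝ] ℝ) : Prop :=
  ∀ (κ : Type) [Fintype κ] (B : ι → κ → κ → R) (Q : κ → κ → R) (c τ σ : ℝ) (f : κ → R),
    (∀ i j, Q i j = Q j i) → 0 < c → (∀ u, c * I (ip1 u u) ≤ C.en I B Q u u) →
    (∀ u, 0 ≤ be I τ σ f u u) → (∃ u, be I τ σ f u u ≠ 0) →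
    ∃ (u : κ → R) (l : ℝ), be I τ σ f u u = 1 ∧ (∀ v, C.en I B Q u v = l * be I τ σ f u v) ∧
      ∀ v, l * be I τ σ f v v ≤ C.en I B Q v v

/-- First de Rham cohomology vanishes. -/
def T1 : Prop := ∀ u, C.Hor1 u → C.d1 u = 0 → ∃ f, u = C.d0 f

/-- Second de Rham cohomology has dimension at most two. -/
def T2 : Prop :=
  ∀ φ : Fin 3 → ι → ι → R, (∀ i, C.Form2 (φ i) ∧ C.d2 (φ i) = 0) →
    ∃ c : Fin 3 → ℝ, c ≠ 0 ∧ ∃ u, C.Hor1 u ∧ ∑ i, c i • φ i = C.d1 u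

/-- The intersection form is positive definite on a plane. -/
def T3 (I : R →ₗ[ℝ] ℝ) (vol : ι → ι → ι → ι → R) : Prop :=
  ∃ F : Fin 2 → ι → ι → R, (∀ i, C.Form2 (F i) ∧ C.d2 (F i) = 0) ∧
    ∀ c : Fin 2 → ℝ, c ≠ 0 → 0 < I (ip2 (∑ i, c i • F i) (star vol (∑ i, c i • F i)))

/-- All the structure of a closed oriented Riemannian 4-manifold with `b₁ = 0`, `b₂ = b₊ = 2` that
the proof uses. -/
structure IsGeo (I : R →ₗ[ℝ] ℝ) (vol : ι → ι → ι → ι → R) : Prop where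
  pos : C.PosI I
  div : C.Div I
  fr4 : C.Fr4 vol
  fn : C.Fun
  maxp : C.MaxP
  solve : C.Solve I
  t1 : C.T1
  t2 : C.T2
  t3 : C.T3 I vol

/-- The Poincaré inequality with constant 100. -/
def Poinc (I : R →ₗ[ℝ] ℝ) : Prop :=
  ∀ f, I (f * f) - I f ^ 2 ≤ 100 * I (ip1 (C.d0 f) (C.d0 f))

end Calc

end Pool.Agent.P.MP_713680_gt
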