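import Pool.Agent.P.MP_713680_gt.Geo

/-!
MP_713680_gt, statements of the abstract packages. See /team-store/h36_713680_README.md.
-/

noncomputable section

namespace Pool.Agent.P.MP_713680_gt

open Finset

namespace Calc

variable {P R ι : Type} [CommRing R] [Algebra ℝ R] [Fintype ι] (C : Calc P R ι)

/-- Package A1: first order calculus. Follows from the axioms of `Calc`. -/
structure AlgA : Prop where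
  D1_add : ∀ u v, C.D1 (u + v) = C.D1 u + C.D1 v
  D1_sub : ∀ u v, C.D1 (u - v) = C.D1 u - C.D1 v
  D1_rsmul : ∀ (c : ℝ) u, C.D1 (c • u) = c • C.D1 u
  D1_smul : ∀ (f : R) u a b, C.D1 (f • u) a b = C.Y a f * u b + f * C.D1 u a b
  D2_add : ∀ φ χ, C.D2 (φ + χ) = C.D2 φ + C.D2 χ
  D2_sub : ∀ φ χ, C.D2 (φ - χ) = C.D2 φ - C.D2 χ
  D2_rsmul : ∀ (c : ℝ) φ, C.D2 (c • φ) = c • C.D2 φ
  D2_smul : ∀ (f : R) φ a b c, C.D2 (f • φ) a b c = C.Y a f * φ b c + f * C.D2 φ a b c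
  d1_add : ∀ u v, C.d1 (u + v) = C.d1 u + C.d1 v
  d1_rsmul : ∀ (c : ℝ) u, C.d1 (c • u) = c • C.d1 u
  d2_add : ∀ φ χ, C.d2 (φ + χ) = C.d2 φ + C.d2 χ
  d2_rsmul : ∀ (c : ℝ) φ, C.d2 (c • φ) = c • C.d2 φ
  cd1_add : ∀ u v, C.cd1 (u + v) = C.cd1 u + C.cd1 v
  cd1_rsmul : ∀ (c : ℝ) u, C.cd1 (c • u) = c • C.cd1 u
  cd2_add : ∀ φ χ, C.cd2 (φ + χ) = C.cd2 φ + C.cd2 χ
  cd2_rsmul : ∀ (c : ℝ) φ, C.cd2 (c • φ) = c • C.cd2 φ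
  Y_ip1 : ∀ u v a, C.Y a (ip1 u v) = ip1 (C.D1 u a) v + ip1 u (C.D1 v a)
  Y_ip2 : ∀ φ χ a, C.Y a (ip2 φ χ) = ip2 (C.D2 φ a) χ + ip2 φ (C.D2 χ a)
  D1_mv : ∀ φ u a, C.D1 (mv φ u) a = mv (C.D2 φ a) u + mv φ (C.D1 u a)
  D2_mm : ∀ φ χ a, C.D2 (mm φ χ) a = mm (C.D2 φ a) χ + mm φ (C.D2 χ a)
  D1_Pr : ∀ u a, C.D1 (mv C.Pr u) a = mv C.Pr (C.D1 u a)
  Pr_D1 : ∀ u a b, ∑ e, C.Pr a e * C.D1 u e b = C.D1 u a b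
  Pr_D2 : ∀ φ a b c, ∑ e, C.Pr a e * C.D2 φ e b c = C.D2 φ a b c
  hor_add : ∀ u v, C.Hor1 u → C.Hor1 v → C.Hor1 (u + v)
  hor_smul : ∀ (f : R) u, C.Hor1 u → C.Hor1 (f • u)
  hor_rsmul : ∀ (c : ℝ) u, C.Hor1 u → C.Hor1 (c • u)
  hor_mv : ∀ φ u, C.Form2 φ → C.Hor1 (mv φ u)
  hor_Pr : ∀ u, C.Hor1 (mv C.Pr u)
  form_add : ∀ φ χ, C.Form2 φ → C.Form2 χ → C.Form2 (φ + χ)
  form_smul : ∀ (f : R) φ, C.Form2 φ → C.Form2 (f • φ)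
  form_rsmul : ∀ (c : ℝ) φ, C.Form2 φ → C.Form2 (c • φ)
  form_right : ∀ φ, C.Form2 φ → ∀ a c, ∑ b, φ a b * C.Pr b c = φ a c
  hor_D1 : ∀ u a, C.Hor1 u → C.Hor1 (C.D1 u a)
  form_D2 : ∀ φ a, C.Form2 φ → C.Form2 (C.D2 φ a)
  hor_d0 : ∀ f, C.Hor1 (C.d0 f)
  form_d1 : ∀ u, C.Hor1 u → C.Form2 (C.d1 u)
  hor_cd2 : ∀ φ, C.Form2 φ → C.Hor1 (C.cd2 φ)
  alt_d2 : ∀ φ, C.Form2 φ → Alt3 (C.d2 φ)
  hor_d2 : ∀ φ, C.Form2 φ → ∀ a b c, ∑ e, C.Pr a e * C.d2 φ e b c = C.d2 φ a b c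
  d1_d0 : ∀ f, C.d1 (C.d0 f) = 0
  Gam_metric : ∀ a b c, C.Gam a b c + C.Gam a c b = C.Y a (C.Pr b c)
  Gam_tors : ∀ a b f, C.Y a (C.Y b f) - C.Y b (C.Y a f) = ∑ c, (C.Gam a b c - C.Gam b a c) * C.Y c f
  Gam_hor1 : ∀ a b c, ∑ e, C.Pr a e * C.Gam e b c = C.Gam a b c
  Gam_hor3 : ∀ a b c, ∑ e, C.Gam a b e * C.Pr e c = C.Gam a b c
  /-- `d` written with brackets -/
  d1_eq : ∀ u, C.Hor1 u → ∀ a b,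
    C.d1 u a b = C.Y a (u b) - C.Y b (u a) - ∑ e, (C.Gam a b e - C.Gam b a e) * u e
  d2_eq : ∀ φ, C.Form2 φ → ∀ a b c,
    C.d2 φ a b c = C.Y a (φ b c) + C.Y b (φ c a) + C.Y c (φ a b)
      - ∑ e, ((C.Gam a b e - C.Gam b a e) * φ e c + (C.Gam b c e - C.Gam c b e) * φ e a
        + (C.Gam c a e - C.Gam a c e) * φ e b)

/-- Package A2: curvature identities. Follows from `AlgA`. -/
structure AlgR : Prop where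
  ricci1 : ∀ u a b c, C.D2 (C.D1 u) a b c - C.D2 (C.D1 u) b a c = ∑ f, C.Rc a b c f * u f
  ricci2 : ∀ φ a b c d, C.D3 (C.D2 φ) a b c d - C.D3 (C.D2 φ) b a c d
    = ∑ e, (C.Rc a b c e * φ e d + C.Rc a b d e * φ c e)
  Rc_skew1 : ∀ a b e f, C.Rc a b e f = - C.Rc b a e f
  Rc_skew2 : ∀ a b e f, C.Rc a b e f = - C.Rc a b f e
  Pr_Rc : ∀ a b e f, ∑ g, C.Pr a g * C.Rc g b e f = C.Rc a b e f
  Rc_Pr : ∀ a b e f, ∑ g, C.Pr e g * C.Rc a b g f = ∑ g, C.Rc a b e g * C.Pr g f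
  bianchi : ∀ u, C.Hor1 u → ∀ a b c,
    ∑ f, (C.Rc a b c f + C.Rc b c a f + C.Rc c a b f) * u f = 0
  d2_d1 : ∀ u, C.Hor1 u → C.d2 (C.d1 u) = 0
  Rm_eq : ∀ a b c d, C.Rm a b c d = C.Y a (C.Gam b c d) - C.Y b (C.Gam a c d)
    - ∑ e, C.Gam a d e * C.Gam b c e + ∑ e, C.Gam b d e * C.Gam a c e
    - ∑ e, (C.Gam a b e - C.Gam b a e) * C.Gam e c d
  Rm_skew1 : ∀ a b c d, C.Rm a b c d = - C.Rm b a c d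
  Rm_skew2 : ∀ a b c d, C.Rm a b c d = - C.Rm a b d c
  Rm_pair : ∀ a b c d, C.Rm a b c d = C.Rm c d a b
  Rm_hor : ∀ a b c d, ∑ e, C.Pr a e * C.Rm e b c d = C.Rm a b c d
  /-- pointwise Bochner formula for a function -/
  bochner : ∀ f, - C.cd1 (C.d0 (ip1 (C.d0 f) (C.d0 f))) =
    2 * ip2 (C.D1 (C.d0 f)) (C.D1 (C.d0 f)) - 2 * ip1 (C.d0 f) (C.d0 (C.cd1 (C.d0 f)))
      + 2 * C.Ric (C.d0 f) (C.d0 f)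

/-- Package B: four-dimensional linear algebra. Follows from `Fr4`. -/
structure AlgB (vol : ι → ι → ι → ι → R) : Prop where
  tr : ∑ a, C.Pr a a = 4
  vol_alt : Alt4 vol
  vol_hor : ∀ a b c d, ∑ e, C.Pr a e * vol e b c d = vol a b c d
  vol_sq : ∑ a, ∑ b, ∑ c, ∑ d, vol a b c d * vol a b c d = 24
  vol_vol : ∀ a b, ∑ c, ∑ d, ∑ e, vol a c d e * vol b c d e = 6 * C.Pr a b
  top : ∀ T, Alt4 T → (∀ a b c d, ∑ e, C.Pr a e * T e b c d = T a b c d) → ∀ a b c d,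
    24 * T a b c d = (∑ a', ∑ b', ∑ c', ∑ d', vol a' b' c' d' * T a' b' c' d') * vol a b c d
  star_add : ∀ φ χ, star vol (φ + χ) = star vol φ + star vol χ
  star_smul : ∀ (f : R) φ, star vol (f • φ) = f • star vol φ
  star_rsmul : ∀ (c : ℝ) φ, star vol (c • φ) = c • star vol φ
  star_form : ∀ φ, C.Form2 (star vol φ)
  star_star : ∀ φ, C.Form2 φ → star vol (star vol φ) = φ
  star_symm : ∀ φ χ, ip2 (star vol φ) χ = ip2 φ (star vol χ)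
  dual3 : ∀ t, Alt3 t → (∀ a b c, ∑ e, C.Pr a e * t e b c = t a b c) →
    ip1 (fun b => ∑ a, ∑ c, ∑ d, vol b a c d * t a c d)
      (fun b => ∑ a, ∑ c, ∑ d, vol b a c d * t a c d) = 6 * ip3 t t
  sd_anti : ∀ φ χ, C.SD vol φ → C.SD vol χ → ∀ a b,
    2 * (mm φ χ a b + mm χ φ a b) = - (ip2 φ χ * C.Pr a b)
  sd_comm : ∀ φ χ, C.SD vol φ → C.SD vol χ → C.SD vol (comm φ χ)
  sd_comm_sq : ∀ φ χ, C.SD vol φ → C.SD vol χ →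
    ip2 (comm φ χ) (comm φ χ) = ip2 φ φ * ip2 χ χ - ip2 φ χ * ip2 φ χ
  sd_dep : ∀ φ : Fin 4 → ι → ι → R, (∀ i, C.SD vol (φ i)) →
    ∀ x, ∃ c : Fin 4 → ℝ, c ≠ 0 ∧ ∀ a b, ∑ i, c i * C.ev x (φ i a b) = 0

/-- Package C, first half: the star is parallel. Follows from `AlgA`, `AlgB`. -/
structure AlgC (vol : ι → ι → ι → ι → R) : Prop where
  vol_par : ∀ e a b c d, C.Y e (vol a b c d) + ∑ g, (C.A e a g * vol g b c d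
    + C.A e b g * vol a g c d + C.A e c g * vol a b g d + C.A e d g * vol a b c g) = 0
  D2_star : ∀ φ a, C.D2 (star vol φ) a = star vol (C.D2 φ a)
  cd2_star_closed : ∀ φ, C.Form2 φ → C.d2 φ = 0 → C.cd2 (star vol φ) = 0
  sd_d2 : ∀ φ, C.SD vol φ → ip3 (C.d2 φ) (C.d2 φ) = 6 * ip1 (C.cd2 φ) (C.cd2 φ)
  sd_closed : ∀ φ, C.SD vol φ → C.cd2 φ = 0 → C.d2 φ = 0

/-- Package C, second half: integration by parts. Follows from `AlgA`, `AlgR`, `Div`. -/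
structure AlgD (I : R →ₗ[ℝ] ℝ) : Prop where
  div1 : ∀ u, I (C.cd1 u) = 0
  adj0 : ∀ f u, I (ip1 (C.d0 f) u) = I (f * C.cd1 u)
  adj1 : ∀ u φ, (∀ a b, φ a b = - φ b a) → I (ip2 (C.d1 u) φ) = 2 * I (ip1 u (C.cd2 φ))
  boch1 : ∀ u v, (1 / 2) * I (ip2 (C.d1 u) (C.d1 v)) + I (C.cd1 u * C.cd1 v)
    = I (ip2 (C.D1 u) (C.D1 v)) + I (C.Ric u v)
  boch2 : ∀ φ, (∀ a b, φ a b = - φ b a) → I (ip3 (C.d2 φ) (C.d2 φ))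
    = 3 * I (ip3 (C.D2 φ) (C.D2 φ)) - 6 * I (ip1 (C.cd2 φ) (C.cd2 φ)) + 6 * I (C.Wq φ)

/-- Package E, first half: elementary inequalities. Follows from `AlgA`, `AlgB.tr`, `PosI`. -/
structure Ineq (I : R →ₗ[ℝ] ℝ) : Prop where
  mono : ∀ f g, (∀ x, C.ev x f ≤ C.ev x g) → I f ≤ I g
  cs0 : ∀ f g, I (f * g) ^ 2 ≤ I (f * f) * I (g * g)
  cs1 : ∀ (κ : Type) [Fintype κ] (u v : κ → R), I (ip1 u v) ^ 2 ≤ I (ip1 u u) * I (ip1 v v)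
  cs2 : ∀ φ χ : ι → ι → R, I (ip2 φ χ) ^ 2 ≤ I (ip2 φ φ) * I (ip2 χ χ)
  nn0 : ∀ f, 0 ≤ I (f * f)
  nn1 : ∀ (κ : Type) [Fintype κ] (u : κ → R), 0 ≤ I (ip1 u u)
  nn2 : ∀ φ : ι → ι → R, 0 ≤ I (ip2 φ φ)
  nn3 : ∀ t : ι → ι → ι → R, 0 ≤ I (ip3 t t)
  z0 : ∀ f, I (f * f) = 0 → f = 0
  z1 : ∀ (κ : Type) [Fintype κ] (u : κ → R), I (ip1 u u) = 0 → u = 0
  z2 : ∀ φ : ι → ι → R, I (ip2 φ φ) = 0 → φ = 0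
  cd1_le : ∀ u x, C.ev x (C.cd1 u * C.cd1 u) ≤ 4 * C.ev x (ip2 (C.D1 u) (C.D1 u))
  cd2_le : ∀ φ x, C.ev x (ip1 (C.cd2 φ) (C.cd2 φ)) ≤ 4 * C.ev x (ip3 (C.D2 φ) (C.D2 φ))
  d1_le : ∀ u x, C.ev x (ip2 (C.d1 u) (C.d1 u)) ≤ 4 * C.ev x (ip2 (C.D1 u) (C.D1 u))
  mv_le : ∀ (φ : ι → ι → R) u x,
    C.ev x (ip1 (mv φ u) (mv φ u)) ≤ C.ev x (ip2 φ φ) * C.ev x (ip1 u u)
  mm_le : ∀ (φ χ : ι → ι → R) x,
    C.ev x (ip2 (mm φ χ) (mm φ χ)) ≤ C.ev x (ip2 φ φ) * C.ev x (ip2 χ χ)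

/-- Package E, second half: consequences of the curvature bound. Follows from `AlgA`, `AlgR`,
`AlgB`, `AlgC`, `AlgD`, `Ineq`, `CurvGe ε`, `0 ≤ ε`. -/
structure Wb (I : R →ₗ[ℝ] ℝ) (vol : ι → ι → ι → ι → R) (ε : ℝ) : Prop where
  ric : ∀ u, C.Hor1 u → ∀ x, -(3 * ε) * C.ev x (ip1 u u) ≤ C.ev x (C.Ric u u)
  w1 : ∀ u, C.Hor1 u → I (ip2 (C.D1 u) (C.D1 u))
    ≤ (1 / 2) * I (ip2 (C.d1 u) (C.d1 u)) + I (C.cd1 u * C.cd1 u) + 3 * ε * I (ip1 u u)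
  w2 : ∀ φ, C.SD vol φ → I (ip3 (C.D2 φ) (C.D2 φ))
    ≤ 4 * I (ip1 (C.cd2 φ) (C.cd2 φ)) + 32 * ε * I (ip2 φ φ)

/-- Everything algebraic. -/
structure Lib (I : R →ₗ[ℝ] ℝ) (vol : ι → ι → ι → ι → R) : Prop where
  a : C.AlgA
  r : C.AlgR
  b : C.AlgB vol
  c : C.AlgC vol
  d : C.AlgD I
  q : C.Ineq I

/-- Truncation of a family `s` of almost parallel sections (`Ds` is their covariant derivative):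
`ρ = (1 + ∑ |s i|²)^(-1/2)`. -/
def Trunc (I : R →ₗ[ℝ] ℝ) : Prop :=
  ∀ (r : ℕ) (κ : Type) [Fintype κ] (s : Fin r → κ → R) (Ds : Fin r → ι → κ → R) (δ : ℝ),
    (∀ i j a, C.Y a (ip1 (s i) (s j)) = ip1 (Ds i a) (s j) + ip1 (s i) (Ds j a)) →
    ∑ i, I (ip1 (s i) (s i)) ≤ 4 → ∑ i, ∑ a, I (ip1 (Ds i a) (Ds i a)) ≤ δ →
    ∃ (ρ : R) (m : ℝ), 1 / 5 ≤ m ∧ m ≤ 1 ∧
      (∀ x, C.ev x (∑ i, ip1 (ρ • s i) (ρ • s i)) ≤ 1) ∧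
      ∑ i, ∑ a, I (ip1 (C.Y a ρ • s i + ρ • Ds i a) (C.Y a ρ • s i + ρ • Ds i a)) ≤ 4 * δ ∧
      ∀ i j, I ((ip1 (ρ • s i) (ρ • s j) - algebraMap ℝ R (m * I (ip1 (s i) (s j)))) ^ 2)
        ≤ 10000 * δ

/-- There are no four orthonormal almost parallel self-dual forms. -/
def Rank (I : R →ₗ[ℝ] ℝ) (vol : ι → ι → ι → ι → R) : Prop :=
  ∀ φ : Fin 4 → ι → ι → R, (∀ i, C.SD vol (φ i)) →
    (∀ i j, I (ip2 (φ i) (φ j)) = if i = j then 1 else 0) →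
    (∀ i, I (ip3 (C.D2 (φ i)) (C.D2 (φ i))) ≤ 1 / 10 ^ 8) → False

/-- The Hodge Laplacian on 1-forms is onto. -/
def Green : Prop :=
  ∀ ξ, C.Hor1 ξ → ∃ u, C.Hor1 u ∧ C.cd2 (C.d1 u) + C.d0 (C.cd1 u) = ξ

/-- `ω 0`, `ω 1` is an orthonormal basis of the harmonic self-dual forms. -/
structure HBasis (I : R →ₗ[ℝ] ℝ) (vol : ι → ι → ι → ι → R) (ω : Fin 2 → ι → ι → R) : Prop where
  sd : ∀ i, C.SD vol (ω i)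
  co : ∀ i, C.cd2 (ω i) = 0
  on : ∀ i j, I (ip2 (ω i) (ω j)) = if i = j then 1 else 0
  span : ∀ φ, C.SD vol φ → C.cd2 φ = 0 → (∀ i, I (ip2 φ (ω i)) = 0) → φ = 0

/-- A first almost parallel 1-form. -/
def Theta1 (I : R →ₗ[ℝ] ℝ) (ε : ℝ) : Prop :=
  ∃ θ, C.Hor1 θ ∧ I (ip1 θ θ) = 1 ∧ I (ip2 (C.D1 θ) (C.D1 θ)) ≤ 2 * 10 ^ 6 * ε

/-- A second almost parallel 1-form. -/
def Theta2 (I : R →ₗ[ℝ] ℝ) (vol : ι → ι → ι → ι → R) : Prop :=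
  ∀ (ω : ι → ι → R) (θ : ι → R) (δ : ℝ), δ ≤ 1 / 10 ^ 9 → C.SD vol ω → I (ip2 ω ω) = 1 →
    I (ip3 (C.D2 ω) (C.D2 ω)) ≤ δ → C.Hor1 θ → I (ip1 θ θ) = 1 →
    I (ip2 (C.D1 θ) (C.D1 θ)) ≤ δ →
    ∃ θ', C.Hor1 θ' ∧ I (ip1 θ' θ') = 1 ∧ I (ip1 θ θ') = 0 ∧
      I (ip2 (C.D1 θ') (C.D1 θ')) ≤ 4000 * δ

/-- From an almost parallel 1-form back to a self-dual form. -/
def Psi (I : R →ₗ[ℝ] ℝ) (vol : ι → ι → ι → ι → R) : Prop :=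
  ∀ (ξ u : ι → R) (δ : ℝ), 0 ≤ δ → δ ≤ 1 / 800 → C.Hor1 ξ → C.Hor1 u →
    C.cd2 (C.d1 u) + C.d0 (C.cd1 u) = ξ → I (ip2 (C.D1 ξ) (C.D1 ξ)) ≤ δ * I (ip1 ξ ξ) →
    I (ip1 (C.cd2 (C.d1 u + star vol (C.d1 u))) (C.cd2 (C.d1 u + star vol (C.d1 u))))
        ≤ δ * I (ip2 (C.d1 u + star vol (C.d1 u)) (C.d1 u + star vol (C.d1 u))) ∧
      (C.d1 u + star vol (C.d1 u) = 0 → ξ = 0)

end Calc

/-- The abstract theorem. -/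
def S_Abs : Prop :=
  ∀ (P R ι : Type) [CommRing R] [Algebra ℝ R] [Fintype ι] (C : Calc P R ι) (I : R →ₗ[ℝ] ℝ)
    (vol : ι → ι → ι → ι → R), C.IsGeo I vol → C.DistLe → C.CurvGe (1 / 10 ^ 20) → False

end Pool.Agent.P.MP_713680_gt
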