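import Pool.Agent.P.MP_713680_gt.UpSt

/-!
MP_713680_gt, package U9: the Levi-Civita connection of a Parseval frame.
-/

noncomputable section

namespace Pool.Agent.P.MP_713680_gt

open Finset

namespace KoszulP

section Abstract

variable {P R ι : Type} [CommRing R] [Algebra ℝ R] [Fintype ι]

/-- Frame data with brackets. -/
structure Pre (P R ι : Type) [CommRing R] [Algebra ℝ R] [Fintype ι] where
  ev : P → R →ₐ[ℝ] ℝ
  Y : ι → Derivation ℝ R R
  Pr : ι → ι → R
  B : ι → ι → ι → R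
  ev_inj : ∀ f, (∀ x, ev x f = 0) → f = 0
  Pr_symm : ∀ a b, Pr a b = Pr b a
  Pr_idem : ∀ a c, ∑ b, Pr a b * Pr b c = Pr a c
  Pr_Y : ∀ a f, ∑ b, Pr a b * Y b f = Y a f
  B1 : ∀ a b c, B a b c = - B b a c
  B2 : ∀ a b c, ∑ e, Pr c e * B a b e = B a b c
  B3 : ∀ a b c, ∑ e, Y a (Pr b e) * Pr e c + ∑ e, Pr b e * B a e c = B a b c
  tors : ∀ a b f, Y a (Y b f) - Y b (Y a f) = ∑ c, B a b c * Y c f
  faith : ∀ w : ι → R, (∀ f, ∑ c, w c * Y c f = 0) → ∀ a, ∑ c, Pr a c * w c = 0

variable (D : Pre P R ι)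

/-- One half. -/
def hf (R : Type) [CommRing R] [Algebra ℝ R] : R := algebraMap ℝ R (1 / 2)

theorem hf2 : 2 * hf R = 1 := by
  rw [hf, ← map_ofNat (algebraMap ℝ R) 2, ← map_mul]
  norm_num

/-- The Koszul formula. -/
def Pre.G (a b c : ι) : R :=
  hf R * (D.Y a (D.Pr b c) + D.Y b (D.Pr a c) - D.Y c (D.Pr a b) + D.B a b c - D.B a c b
    - D.B b c a)

/-- The connection matrices. -/
def Pre.A (a b c : ι) : R := - D.G a b c + ∑ e, D.Pr b e * D.Y a (D.Pr e c)

theorem Pre.leib (a b c : ι) :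
    ∑ e, D.Y a (D.Pr b e) * D.Pr e c + ∑ e, D.Pr b e * D.Y a (D.Pr e c) = D.Y a (D.Pr b c) := by
  rw [← D.Pr_idem b c, map_sum, ← sum_add_distrib]
  refine sum_congr rfl fun e _ => ?_
  rw [Derivation.leibniz, smul_eq_mul, smul_eq_mul]
  ring

theorem Pre.G_metric (a b c : ι) : D.G a b c + D.G a c b = D.Y a (D.Pr b c) := by
  unfold Pre.G
  rw [D.Pr_symm c b, D.B1 c b a]
  linear_combination D.Y a (D.Pr b c) * hf2 (R := R)

theorem Pre.G_tors (a b c : ι) : D.G a b c - D.G b a c = D.B a b c := by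
  unfold Pre.G
  rw [D.Pr_symm b a, D.B1 b a c]
  linear_combination D.B a b c * hf2 (R := R)

theorem Pre.G_hor3 (a b c : ι) : ∑ e, D.G a b e * D.Pr e c = D.G a b c := by
  have h : ∀ e, D.G a b e * D.Pr e c = hf R * (D.Pr c e * D.Y a (D.Pr e b)
      + D.Pr c e * D.Y b (D.Pr e a) - D.Pr c e * D.Y e (D.Pr a b) + D.Pr c e * D.B a b e
      - D.Pr c e * D.B a e b - D.Pr c e * D.B b e a) := fun e => by
    unfold Pre.G
    rw [D.Pr_symm e c, D.Pr_symm b e, D.Pr_symm a e]
    ring
  simp only [h, ← mul_sum, sum_sub_distrib, sum_add_distrib, D.Pr_Y, D.B2]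
  unfold Pre.G
  rw [D.Pr_symm b c, D.Pr_symm a c]
  linear_combination hf R * (D.leib a c b + D.leib b c a - D.B3 a c b - D.B3 b c a)

theorem Pre.G_hor1 (a b c : ι) : ∑ e, D.Pr a e * D.G e b c = D.G a b c := by
  have h : ∀ e, D.Pr a e * D.G e b c = hf R * (D.Pr a e * D.Y e (D.Pr b c)
      + D.Pr a e * D.Y b (D.Pr e c) - D.Pr a e * D.Y c (D.Pr e b) - D.Pr a e * D.B b e c
      + D.Pr a e * D.B c e b - D.Pr a e * D.B b c e) := fun e => by
    unfold Pre.G
    rw [D.B1 e b c, D.B1 e c b]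
    ring
  simp only [h, ← mul_sum, sum_sub_distrib, sum_add_distrib, D.Pr_Y, D.B2]
  unfold Pre.G
  rw [D.B1 a b c, D.B1 a c b]
  linear_combination hf R * (D.leib b a c - D.leib c a b - D.B3 b a c + D.B3 c a b)

theorem Pre.PP (b : ι) (u : ι → R) :
    ∑ f, D.Pr b f * ∑ g, D.Pr f g * u g = ∑ g, D.Pr b g * u g := by
  simp only [mul_sum, ← mul_assoc]
  rw [sum_comm]
  simp only [← sum_mul, D.Pr_idem]

theorem Pre.AP (a b c : ι) : ∑ e, D.A a b e * D.Pr e c = - D.G a b c := by
  have h1 : ∑ e, (∑ f, D.Pr b f * D.Y a (D.Pr f e)) * D.Pr e c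
      = ∑ f, D.Pr b f * ∑ e, D.Y a (D.Pr f e) * D.Pr e c := by
    simp only [mul_sum, sum_mul, mul_assoc]
    exact sum_comm
  have h2 : ∀ f, ∑ e, D.Y a (D.Pr f e) * D.Pr e c
      = D.Y a (D.Pr f c) - ∑ e, D.Pr f e * D.Y a (D.Pr e c) := fun f =>
    eq_sub_of_add_eq (D.leib a f c)
  simp only [Pre.A, add_mul, neg_mul, sum_add_distrib, sum_neg_distrib, D.G_hor3, h1, h2, mul_sub,
    sum_sub_distrib, D.PP b, sub_self, add_zero]

theorem Pre.A_skew (a b c : ι) : D.A a b c = - D.A a c b := by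
  have h : ∑ e, D.Pr c e * D.Y a (D.Pr e b) = ∑ e, D.Y a (D.Pr b e) * D.Pr e c :=
    sum_congr rfl fun e _ => by rw [D.Pr_symm c e, D.Pr_symm e b, mul_comm]
  unfold Pre.A
  rw [h]
  linear_combination D.leib a b c - D.G_metric a b c

/-- The calculus of the frame. -/
def Pre.calc : Calc P R ι where
  ev := D.ev
  Y := D.Y
  Pr := D.Pr
  A := D.A
  ev_inj := D.ev_inj
  Pr_symm := D.Pr_symm
  Pr_idem := D.Pr_idem
  Pr_Y := D.Pr_Y
  A_skew := D.A_skew
  Pr_A a b c := by
    have h : ∑ e, D.Pr a e * ∑ f, D.Pr b f * D.Y e (D.Pr f c)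
        = ∑ f, D.Pr b f * ∑ e, D.Pr a e * D.Y e (D.Pr f c) := by
      simp only [mul_sum]
      rw [sum_comm]
      exact sum_congr rfl fun _ _ => sum_congr rfl fun _ _ => mul_left_comm _ _ _
    simp only [Pre.A, mul_add, mul_neg, sum_add_distrib, sum_neg_distrib, D.G_hor1, h, D.Pr_Y]
  par a b c := by
    simp only [sum_add_distrib, D.Pr_symm b, D.AP]
    linear_combination congrArg (D.Y a) (D.Pr_symm c b) - D.G_metric a b c
  tors a b f := by
    have h : ∑ c, (D.A b a c - D.A a b c) * D.Y c f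
        = ∑ e, (∑ c, D.A b a c * D.Pr c e - ∑ c, D.A a b c * D.Pr c e) * D.Y e f := by
      simp only [← sum_sub_distrib, ← sub_mul, sum_mul, mul_assoc]
      rw [sum_comm]
      simp only [← mul_sum, D.Pr_Y]
    rw [h, D.tors]
    refine sum_congr rfl fun e _ => ?_
    rw [D.AP, D.AP, ← D.G_tors]
    ring
  faith := D.faith

theorem Pre.calc_Gam (a b c : ι) : D.calc.Gam a b c = D.G a b c := by
  change - ∑ e, D.A a b e * D.Pr e c = _
  rw [D.AP, neg_neg]

end Abstract

/-- The metric as a bilinear map. -/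
def gL (g : Fin 6 → Fin 6 → SS) : (Fin 6 → SS) →ₗ[SS] (Fin 6 → SS) →ₗ[SS] SS :=
  LinearMap.mk₂ SS (gq g)
    (fun _ _ _ => by simp only [gq, Pi.add_apply, mul_add, add_mul, sum_add_distrib])
    (fun _ _ _ => by
      simp only [gq, Pi.smul_apply, smul_eq_mul, mul_sum, mul_assoc, mul_left_comm])
    (fun _ _ _ => by simp only [gq, Pi.add_apply, mul_add, sum_add_distrib])
    (fun _ _ _ => by
      simp only [gq, Pi.smul_apply, smul_eq_mul, mul_sum, mul_assoc, mul_left_comm])

theorem gL_apply (g : Fin 6 → Fin 6 → SS) (u w : Fin 6 → SS) : gq g u w = gL g u w := rfl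

theorem gq_symm (md : MD) (u w : Fin 6 → SS) : gq md.g u w = gq md.g w u := by
  unfold gq
  rw [sum_comm]
  exact sum_congr rfl fun k _ => sum_congr rfl fun l _ => by rw [md.symm l k, mul_right_comm]

/-- The action on a function as a linear map. -/
def vL (hA : BasA) (f : SS) : (Fin 6 → SS) →ₗ[SS] SS where
  toFun u := vf u f
  map_add' u w := hA.vf_add u w f
  map_smul' a u := hA.vf_smul a u f

theorem vL_apply (hA : BasA) (u : Fin 6 → SS) (f : SS) : vf u f = vL hA f u := rfl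

/-- The bracket as an additive map. -/
def bL (hA : BasA) (u : Fin 6 → SS) : (Fin 6 → SS) →+ (Fin 6 → SS) :=
  AddMonoidHom.mk' (brk u) (hA.brk_add u)

theorem bL_apply (hA : BasA) (u w : Fin 6 → SS) : brk u w = bL hA u w := rfl

variable {md : MD} {ι : Type} [Fintype ι] (fr : Frame md ι)

theorem y_eq (a : ι) : ∑ b, gq md.g (fr.y a) (fr.y b) • fr.y b = fr.y a := by
  simpa only [fr.al_y, zero_smul, sum_const_zero, add_zero] using fr.pars (fr.y a)

theorem gq_mem {u w : Fin 6 → SS} (hu : ∀ b, brk (Vv b) u = 0) (hw : ∀ b, brk (Vv b) w = 0) :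
    gq md.g u w ∈ AA := fun b => by
  rw [md.inv, hu, hw, gL_apply, gL_apply, map_zero, map_zero, LinearMap.zero_apply, add_zero]

theorem brk_inv (hA : BasA) {u w : Fin 6 → SS} (hu : ∀ b, brk (Vv b) u = 0)
    (hw : ∀ b, brk (Vv b) w = 0) (b : Fin 2) : brk (Vv b) (brk u w) = 0 := by
  rw [hA.jacobi, hu, hw, hA.brk_skew 0, bL_apply hA w, bL_apply hA u, map_zero, map_zero, neg_zero,
    add_zero]

/-- An invariant vector field acts on invariant functions. -/
def res (hA : BasA) (u : Fin 6 → SS) (hu : ∀ b, brk (Vv b) u = 0) : Derivation ℝ AA AA where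
  toFun f := ⟨vf u f.1, fun b => by
    have h := hA.vf_brk (Vv b) u f.1
    rw [hu, f.2 b, map_zero, sub_zero, vL_apply hA 0, map_zero] at h
    exact h.symm⟩
  map_add' f g := Subtype.ext (map_add (vf u) f.1 g.1)
  map_smul' c f := Subtype.ext ((vf u).map_smul c f.1)
  map_one_eq_zero' := Subtype.ext (vf u).map_one_eq_zero
  leibniz' f g := Subtype.ext ((vf u).leibniz f.1 g.1)

theorem coe_sum (u : ι → AA) : ((∑ a, u a : AA) : SS) = ∑ a, (u a : SS) :=
  map_sum AA.val u univ

/-- The frame data. -/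
def pre (hA : BasA) (hI : S_Imm) : Pre PP AA ι where
  ev := evA
  Y a := res hA (fr.y a) fun b => fr.inv b a
  Pr a b := ⟨gq md.g (fr.y a) (fr.y b), gq_mem (fun c => fr.inv c a) fun c => fr.inv c b⟩
  B a b c := ⟨gq md.g (brk (fr.y a) (fr.y b)) (fr.y c),
    gq_mem (brk_inv hA (fun e => fr.inv e a) fun e => fr.inv e b) fun e => fr.inv e c⟩
  ev_inj f h := Subtype.ext (Subtype.ext (funext h))
  Pr_symm a b := Subtype.ext (gq_symm md _ _)
  Pr_idem a c := Subtype.ext (by
    rw [coe_sum]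
    have h := congrArg (fun u => gL md.g u (fr.y c)) (y_eq fr a)
    simp only [map_sum, map_smul, LinearMap.sum_apply, LinearMap.smul_apply, smul_eq_mul] at h
    exact h)
  Pr_Y a f := Subtype.ext (by
    rw [coe_sum]
    have h := congrArg (vL hA f.1) (y_eq fr a)
    simp only [map_sum, map_smul, smul_eq_mul] at h
    exact h)
  B1 a b c := Subtype.ext (by
    change gL md.g (brk _ _) _ = - gL md.g (brk _ _) _
    rw [hA.brk_skew, map_neg, LinearMap.neg_apply])
  B2 a b c := Subtype.ext (by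
    rw [coe_sum]
    have h := congrArg (gL md.g (brk (fr.y a) (fr.y b))) (y_eq fr c)
    simp only [map_sum, map_smul, smul_eq_mul] at h
    exact h)
  B3 a b c := Subtype.ext (by
    rw [Subalgebra.coe_add, coe_sum, coe_sum, ← sum_add_distrib]
    have h := congrArg (fun u => gL md.g (bL hA (fr.y a) u) (fr.y c)) (y_eq fr b)
    simp only [map_sum, ← bL_apply, hA.brk_smul, map_add, map_smul, LinearMap.sum_apply,
      LinearMap.add_apply, LinearMap.smul_apply, smul_eq_mul] at h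
    exact h)
  tors a b f := Subtype.ext (by
    rw [coe_sum]
    have h := congrArg (vL hA f.1) (fr.pars (brk (fr.y a) (fr.y b)))
    have h0 : ∀ e, vL hA f.1 (Vv e) = 0 := f.2
    simp only [map_sum, map_add, map_smul, smul_eq_mul, h0, mul_zero, sum_const_zero,
      add_zero] at h
    exact (hA.vf_brk _ _ _).symm.trans h.symm)
  faith w h a := Subtype.ext (by
    obtain ⟨m, f, hf⟩ := hI
    have h1 : ∀ i, vf (∑ c, (w c).1 • fr.y c) (f i).1 = 0 := fun i => by
      have h2 := congrArg Subtype.val (h (f i))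
      rw [coe_sum] at h2
      rw [vL_apply hA]
      simp only [map_sum, map_smul, smul_eq_mul]
      exact h2
    have h2 : gq md.g (fr.y a) (∑ c, (w c).1 • fr.y c) = 0 := by
      generalize ∑ c, (w c).1 • fr.y c = u at h1
      refine Subtype.ext (funext fun x => ?_)
      obtain ⟨c, hc⟩ := hf x (fun k => evS x (u k)) fun i => by
        have h3 := congrArg (evS x) (h1 i)
        rw [hA.vf_apply] at h3
        simp only [map_sum, map_mul, map_zero] at h3
        exact h3
      have h3 : ∀ k, ∑ l, evS x (md.g k l) * evS x (u l) = 0 := fun k => by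
        have h4 : ∀ b, ∑ l, evS x (md.g k l) * (Vv b l).1 x = 0 := fun b => by
          have h5 := congrArg (evS x) (md.vert b k)
          simp only [map_sum, map_mul, map_zero] at h5
          exact h5
        simp only [hc, mul_sum]
        rw [sum_comm]
        simp only [mul_left_comm _ (c _), ← mul_sum, h4, mul_zero, sum_const_zero]
      change evS x (gq md.g (fr.y a) u) = 0
      simp only [gq, map_sum, map_mul, mul_right_comm _ (evS x (fr.y a _)), ← sum_mul, h3,
        zero_mul, sum_const_zero]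
    rw [coe_sum]
    rw [gL_apply] at h2
    simp only [map_sum, map_smul, smul_eq_mul, mul_comm (w _).1] at h2
    exact h2)

end KoszulP

open KoszulP

theorem koszul (hA : BasA) (hI : S_Imm) : S_Koszul := fun _ _ _ fr =>
  ⟨(pre fr hA hI).calc, rfl, fun _ _ => rfl, fun _ _ => rfl, fun a b e => by
    rw [Pre.calc_Gam, Pre.calc_Gam, Pre.G_tors]
    rfl⟩

end Pool.Agent.P.MP_713680_gt
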