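import Pool.Agent.P.MP_713680_gt.UpSt

/-! MP_713680_gt, package U13, first part: cochains of a compact Lie algebra. -/

noncomputable section

namespace Pool.Agent.P.MP_713680_gt

open Finset

namespace T12P

section Abs

variable {S K : Type} [CommRing S] [Algebra ℝ S] [Fintype K] (X : K → Derivation ℝ S S)
  (c : K → K → K → ℝ) (I : S →ₗ[ℝ] ℝ)

/-- The differential of a 1-cochain. -/
def e1 (β : K → S) (k l : K) : S := X k (β l) - X l (β k) - ∑ m, c k l m • β m

/-- The differential of a 2-cochain. -/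
def e2 (θ : K → K → S) (k l m : K) : S :=
  X k (θ l m) + X l (θ m k) + X m (θ k l)
    - ∑ e, (c k l e • θ e m + c l m e • θ e k + c m k e • θ e l)

structure Hy : Prop where
  skew1 : ∀ k l m, c k l m = - c l k m
  skew2 : ∀ k l m, c k l m = - c k m l
  br : ∀ k l f, X k (X l f) - X l (X k f) = ∑ m, c k l m • X m f
  one : I 1 = 1
  I_X : ∀ k f, I (X k f) = 0
  ex : ∀ f, I f = 0 → ∃ u, I u = 0 ∧ lap X u = f
  un : ∀ u, lap X u = 0 → I u = 0 → u = 0
  h1 : ∀ b : K → ℝ, (∀ k l, ∑ m, c k l m * b m = 0) → ∀ m, b m = 0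
  h2 : ∀ t : K → K → ℝ, (∀ k l, t k l = - t l k) →
    (∀ k l m, ∑ e, (c k l e * t e m + c l m e * t e k + c m k e * t e l) = 0) →
    ∃ b : K → ℝ, ∀ k l, t k l = - ∑ m, c k l m * b m

theorem lap_apply (f : S) : lap X f = ∑ k, X k (X k f) := by simp [lap]

variable {X c I} (H : Hy X c I)
include H

theorem Hy.cyc (k l m : K) : c l m k = c k l m := by
  rw [H.skew2 l m k, H.skew1 l k m, neg_neg]

theorem Hy.I_alg (a : ℝ) : I (algebraMap ℝ S a) = a := by
  rw [Algebra.algebraMap_eq_smul_one, map_smul, H.one, smul_eq_mul, mul_one]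

theorem Hy.X_lap (l : K) (f : S) : X l (lap X f) = lap X (X l f) := by
  have h1 : ∀ k, X l (X k (X k f)) - X k (X k (X l f)) =
      ∑ m, c l k m • X m (X k f) + ∑ m, c l k m • X k (X m f) := fun k => by
    have h2 := congrArg (X k) (H.br l k f)
    rw [map_sub, map_sum] at h2
    simp only [Derivation.map_smul] at h2
    rw [← h2, ← H.br l k (X k f)]
    ring
  have h3 : ∑ k, ∑ m, c l k m • X k (X m f) = - ∑ k, ∑ m, c l k m • X m (X k f) := by
    rw [Finset.sum_comm, ← Finset.sum_neg_distrib]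
    refine Finset.sum_congr rfl fun k _ => ?_
    rw [← Finset.sum_neg_distrib]
    exact Finset.sum_congr rfl fun m _ => by rw [H.skew2 l m k, neg_smul]
  rw [lap_apply, lap_apply, map_sum, ← sub_eq_zero, ← Finset.sum_sub_distrib]
  simp only [h1]
  rw [Finset.sum_add_distrib, h3, add_neg_cancel]

/-- `∑ [X l, X k] (β k)`. -/
theorem Hy.comm_sum (l : K) (β : K → S) :
    X l (∑ k, X k (β k)) - ∑ k, X k (X l (β k)) = ∑ k, ∑ m, c k l m • X k (β m) := by
  rw [map_sum, ← Finset.sum_sub_distrib]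
  simp only [H.br]
  rw [Finset.sum_comm]
  exact Finset.sum_congr rfl fun k _ => Finset.sum_congr rfl fun m _ => by rw [H.cyc k l m]

theorem Hy.wh1 (β : K → S) (l : K) :
    lap X (β l) = X l (∑ k, X k (β k)) + ∑ k, X k (e1 X c β k l) := by
  have h := H.comm_sum l β
  simp only [e1, map_sub, Finset.sum_sub_distrib, lap_apply]
  simp only [map_sum (X _) (fun m => c _ l m • β m), Derivation.map_smul]
  linear_combination -h

theorem Hy.wh2 (θ : K → K → S) (hθ : ∀ k l, θ k l = - θ l k) (l m : K) :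
    lap X (θ l m) = e1 X c (fun l => ∑ k, X k (θ k l)) l m + ∑ k, X k (e2 X c θ k l m) := by
  have h1 := H.comm_sum l (fun k => θ k m)
  have h2 := H.comm_sum m (fun k => θ k l)
  have h3 : ∑ k, X k (X l (θ m k)) = - ∑ k, X k (X l (θ k m)) := by
    rw [← Finset.sum_neg_distrib]
    exact Finset.sum_congr rfl fun k _ => by rw [hθ m k, map_neg, map_neg]
  have h4 : ∑ k, ∑ e, c l m e • X k (θ e k) = - ∑ e, c l m e • ∑ k, X k (θ k e) := by
    rw [Finset.sum_comm, ← Finset.sum_neg_distrib]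
    refine Finset.sum_congr rfl fun e _ => ?_
    rw [Finset.smul_sum, ← Finset.sum_neg_distrib]
    exact Finset.sum_congr rfl fun k _ => by rw [hθ e k, map_neg, smul_neg]
  have h5 : ∑ k, ∑ e, c m k e • X k (θ e l) = - ∑ k, ∑ e, c k m e • X k (θ e l) := by
    rw [← Finset.sum_neg_distrib]
    refine Finset.sum_congr rfl fun k _ => ?_
    rw [← Finset.sum_neg_distrib]
    exact Finset.sum_congr rfl fun e _ => by rw [H.skew1 m k e, neg_smul]
  have h6 : ∀ k, X k (e2 X c θ k l m) = X k (X k (θ l m)) + X k (X l (θ m k)) + X k (X m (θ k l))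
      - (∑ e, c k l e • X k (θ e m) + ∑ e, c l m e • X k (θ e k)
        + ∑ e, c m k e • X k (θ e l)) := fun k => by
    simp only [e2, map_sub, map_add, map_sum, Derivation.map_smul, Finset.sum_add_distrib]
  simp only [h6, Finset.sum_sub_distrib, Finset.sum_add_distrib, e1, lap_apply]
  linear_combination -h1 + h2 - h3 + h4 + h5

theorem Hy.e1_lap (β : K → S) (k l : K) :
    lap X (e1 X c β k l) = e1 X c (fun m => lap X (β m)) k l := by
  simp only [e1, map_sub, map_sum, map_smul, H.X_lap]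

theorem Hy.e2_lap (θ : K → K → S) (k l m : K) :
    lap X (e2 X c θ k l m) = e2 X c (fun a b => lap X (θ a b)) k l m := by
  simp only [e2, map_sub, map_add, map_sum, map_smul, H.X_lap]

theorem Hy.exact1 (β : K → S) (h : ∀ k l, e1 X c β k l = 0) : ∃ f, ∀ k, β k = X k f := by
  have h1 := H.h1 (fun m => I (β m)) fun k l => by
    have := congrArg I (h k l)
    simpa [e1, H.I_X] using this
  choose γ hγ eγ using fun m => H.ex (β m) (h1 m)
  have h2 : ∀ k l, e1 X c γ k l = 0 := fun k l =>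
    H.un _ (by rw [H.e1_lap]; simp only [eγ, h]) (by simp [e1, H.I_X, hγ])
  exact ⟨∑ k, X k (γ k), fun l => by rw [← eγ, H.wh1]; simp [h2]⟩

theorem Hy.exact2 (θ : K → K → S) (hθ : ∀ k l, θ k l = - θ l k)
    (h : ∀ k l m, e2 X c θ k l m = 0) :
    ∃ β, (∀ k l, e1 X c β k l = θ k l) ∧ ∑ k, X k (β k) = 0 := by
  have h0 : ∀ k l m, ∑ e, (c k l e * I (θ e m) + c l m e * I (θ e k) + c m k e * I (θ e l)) = 0 :=
    fun k l m => by
      have := congrArg I (h k l m)
      simpa [e2, H.I_X] using this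
  obtain ⟨b, hb⟩ := H.h2 (fun k l => I (θ k l)) (fun k l => by rw [hθ k l, map_neg]) h0
  choose γ hγ eγ using fun k l => H.ex (θ k l - algebraMap ℝ S (I (θ k l)))
    (by rw [map_sub, H.I_alg, sub_self])
  have h1 : ∀ k l, γ k l = - γ l k := fun k l =>
    eq_neg_of_add_eq_zero_left (H.un _ (by
      rw [map_add, eγ, eγ, hθ k l, map_neg, map_neg]; ring) (by rw [map_add, hγ, hγ, add_zero]))
  have h2 : ∀ k l m, e2 X c γ k l m = 0 := fun k l m =>
    H.un _ (by
      have h3 := congrArg (algebraMap ℝ S) (h0 k l m)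
      have h4 := h k l m
      rw [H.e2_lap]
      simp only [eγ, e2, map_sub, Derivation.map_algebraMap, smul_sub, map_sum, map_add, map_mul,
        map_zero, ← Algebra.smul_def, Finset.sum_add_distrib, Finset.sum_sub_distrib] at h3 h4 ⊢
      linear_combination h4 + h3) (by simp [e2, H.I_X, hγ])
  let β : K → S := fun l => ∑ k, X k (γ k l) + algebraMap ℝ S (b l)
  have h3 : ∀ k l, e1 X c β k l = θ k l := fun k l => by
    have h4 := H.wh2 γ h1 k l
    have h5 := congrArg (algebraMap ℝ S) (hb k l)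
    simp only [eγ, h2, map_zero, Finset.sum_const_zero, add_zero] at h4
    simp only [map_neg, map_sum, map_mul, ← Algebra.smul_def] at h5
    simp only [e1, β, map_add, Derivation.map_algebraMap, smul_add, Finset.sum_add_distrib] at h4 ⊢
    linear_combination -h4 - h5
  obtain ⟨f, -, hf⟩ := H.ex (∑ k, X k (β k)) (by simp [H.I_X])
  refine ⟨fun k => β k - X k f, fun k l => ?_, ?_⟩
  · have h4 := h3 k l
    have h5 := H.br k l f
    simp only [e1, map_sub, smul_sub, Finset.sum_sub_distrib] at h4 ⊢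
    linear_combination h4 - h5
  · simp only [map_sub, Finset.sum_sub_distrib]
    rw [← hf, lap_apply, sub_self]

theorem Hy.const (f : S) (h : lap X f = 0) : f = algebraMap ℝ S (I f) :=
  sub_eq_zero.1 (H.un _ (by rw [map_sub, h]; simp [lap_apply]) (by rw [map_sub, H.I_alg, sub_self]))

end Abs

theorem hy (hA : BasA) (hB : BasB) (h0 : S_G0) : Hy X cc I0 where
  skew1 := hA.skew1
  skew2 := hA.skew2
  br := hA.br
  one := hB.one
  I_X := hB.I_X
  ex := h0.1
  un := h0.2
  h1 b h m := by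
    have h1 := h 1 2
    have h2 := h 2 0
    have h3 := h 0 1
    have h4 := h 4 5
    have h5 := h 5 3
    have h6 := h 3 4
    simp [cc, Fin.sum_univ_six] at h1 h2 h3 h4 h5 h6
    fin_cases m <;> simpa
  h2 t ht h := by
    have hd : ∀ k, t k k = 0 := fun k => by linarith [ht k k]
    have h1 : ∀ m : Fin 3, t 0 (Fin.natAdd 3 m) = 0 := fun m => by
      have := h 1 2 (Fin.natAdd 3 m)
      fin_cases m <;> simpa [cc, Fin.sum_univ_six] using this
    have h2 : ∀ m : Fin 3, t 1 (Fin.natAdd 3 m) = 0 := fun m => by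
      have := h 2 0 (Fin.natAdd 3 m)
      fin_cases m <;> simpa [cc, Fin.sum_univ_six] using this
    have h3 : ∀ m : Fin 3, t 2 (Fin.natAdd 3 m) = 0 := fun m => by
      have := h 0 1 (Fin.natAdd 3 m)
      fin_cases m <;> simpa [cc, Fin.sum_univ_six] using this
    have a03 : t 0 3 = 0 := h1 0
    have a04 : t 0 4 = 0 := h1 1
    have a05 : t 0 5 = 0 := h1 2
    have a13 : t 1 3 = 0 := h2 0
    have a14 : t 1 4 = 0 := h2 1
    have a15 : t 1 5 = 0 := h2 2
    have a23 : t 2 3 = 0 := h3 0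
    have a24 : t 2 4 = 0 := h3 1
    have a25 : t 2 5 = 0 := h3 2
    refine ⟨![t 1 2 / 2, t 2 0 / 2, t 0 1 / 2, t 4 5 / 2, t 5 3 / 2, t 3 4 / 2], fun k l => ?_⟩
    have := ht k l
    have := hd k
    fin_cases k <;> fin_cases l <;> simp [cc, Fin.sum_univ_six] at * <;> linarith

end T12P

end Pool.Agent.P.MP_713680_gt
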