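import Pool.Agent.P.MP_713680_gt.UpSt

/-!
MP_713680_gt, package U14, first file: algebra of the connection forms of the torus bundle.
-/

noncomputable section

namespace Pool.Agent.P.MP_713680_gt

open Finset

namespace T3P

section Gen

variable {S : Type} [CommRing S]

theorem det6 (s1 s2 a b t1 t2 a' b' : S) :
    Matrix.det (Matrix.of ![![s1 + s2, 0, 0, t2 + t2, -(a' + a'), -(b' + b')],
      ![s2, -a, -b, t1 + t2, 0, 0], ![0, 2 * b, -(2 * a), 0, 0, 0], ![s2, -a, -b, 0, 0, 0],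
      ![0, 0, 0, 0, 2 * b', -(2 * a')], ![0, 0, 0, t2, -a', -b']])
      = 4 * (s1 + s2) * (a ^ 2 + b ^ 2) * (t1 + t2) * (a' ^ 2 + b' ^ 2) := by
  simp [Matrix.det_succ_row_zero, Fin.sum_univ_succ, Fin.succAbove]
  ring

/-- The determinant with rows `p, q, a, b, c, d`. -/
def D6 (p q a b c d : Fin 6 → S) : S := Matrix.det (Matrix.of ![p, q, a, b, c, d])

theorem D6_row2 (p q a b c d : Fin 6 → S) :
    D6 p q a b c d = ((Matrix.of ![p, q, 0, b, c, d]).updateRow 2 a).det := by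
  unfold D6; congr 1; ext i j; fin_cases i <;> simp [Matrix.updateRow_apply]

theorem D6_row3 (p q a b c d : Fin 6 → S) :
    D6 p q a b c d = ((Matrix.of ![p, q, a, 0, c, d]).updateRow 3 b).det := by
  unfold D6; congr 1; ext i j; fin_cases i <;> simp [Matrix.updateRow_apply]

theorem D6_row4 (p q a b c d : Fin 6 → S) :
    D6 p q a b c d = ((Matrix.of ![p, q, a, b, 0, d]).updateRow 4 c).det := by
  unfold D6; congr 1; ext i j; fin_cases i <;> simp [Matrix.updateRow_apply]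

theorem D6_row5 (p q a b c d : Fin 6 → S) :
    D6 p q a b c d = ((Matrix.of ![p, q, a, b, c, 0]).updateRow 5 d).det := by
  unfold D6; congr 1; ext i j; fin_cases i <;> simp [Matrix.updateRow_apply]

theorem upd_lin (M : Matrix (Fin 6) (Fin 6) S) (i : Fin 6) :
    IsLinearMap S (fun x => (M.updateRow i x).det) :=
  ⟨fun x y => Matrix.det_updateRow_add M i x y, fun a x => Matrix.det_updateRow_smul M i a x⟩

theorem upd_zero (M : Matrix (Fin 6) (Fin 6) S) {i j : Fin 6} (h : j ≠ i) {x : Fin 6 → S}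
    (hx : x = M j) : (M.updateRow i x).det = 0 := by
  rw [hx]; exact Matrix.det_updateRow_eq_zero h

variable {ι : Type} [Fintype ι]

theorem vol_T {vol : ι → ι → ι → ι → S} (hv : Alt4 vol) (φ : ι → ι → S) :
    ∑ a, ∑ b, ∑ c, ∑ d, vol a b c d * (φ a b * φ c d - φ a c * φ b d + φ a d * φ b c)
      = 3 * ∑ a, ∑ b, ∑ c, ∑ d, vol a b c d * (φ a b * φ c d) := by
  have h1 : ∑ a, ∑ b, ∑ c, ∑ d, vol a b c d * (φ a c * φ b d)
      = - ∑ a, ∑ b, ∑ c, ∑ d, vol a b c d * (φ a b * φ c d) := by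
    rw [← sum_neg_distrib]
    refine sum_congr rfl fun a _ => ?_
    rw [sum_comm, ← sum_neg_distrib]
    refine sum_congr rfl fun b _ => ?_
    rw [← sum_neg_distrib]
    refine sum_congr rfl fun c _ => ?_
    rw [← sum_neg_distrib]
    refine sum_congr rfl fun d _ => ?_
    rw [hv.2.1 a c b d]; ring
  have h2 : ∑ a, ∑ b, ∑ c, ∑ d, vol a b c d * (φ a d * φ b c)
      = ∑ a, ∑ b, ∑ c, ∑ d, vol a b c d * (φ a b * φ c d) := by
    refine sum_congr rfl fun a _ => ?_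
    have : ∀ b, ∑ c, ∑ d, vol a b c d * (φ a d * φ b c)
        = ∑ d, ∑ c, vol a b c d * (φ a d * φ b c) := fun b => sum_comm
    simp only [this]
    rw [sum_comm]
    refine sum_congr rfl fun d _ => sum_congr rfl fun b _ => sum_congr rfl fun c _ => ?_
    rw [hv.2.2 a b c d, hv.2.1 a b d c]; ring
  simp only [mul_add, mul_sub, sum_add_distrib, sum_sub_distrib]
  rw [h1, h2]; ring

omit [Fintype ι] in
theorem T_alt {φ : ι → ι → S} (h : ∀ a b, φ a b = - φ b a) :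
    Alt4 (fun a b c d => φ a b * φ c d - φ a c * φ b d + φ a d * φ b c) := by
  refine ⟨fun a b c d => ?_, fun a b c d => ?_, fun a b c d => ?_⟩
  · simp only [h b a]; ring
  · simp only [h c b]; ring
  · simp only [h d c]; ring

theorem T_hor {φ Pr : ι → ι → S} (h : ∀ a c, ∑ b, Pr a b * φ b c = φ a c) (a b c d : ι) :
    ∑ e, Pr a e * (φ e b * φ c d - φ e c * φ b d + φ e d * φ b c)
      = φ a b * φ c d - φ a c * φ b d + φ a d * φ b c := by
  rw [← h a b, ← h a c, ← h a d, sum_mul, sum_mul, sum_mul, ← sum_sub_distrib,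
    ← sum_add_distrib]
  exact sum_congr rfl fun e _ => by ring

theorem two_ip2_star [Algebra ℝ S] (vol : ι → ι → ι → ι → S) (φ : ι → ι → S) :
    2 * ip2 φ (star vol φ) = ∑ a, ∑ b, ∑ c, ∑ d, vol a b c d * (φ a b * φ c d) := by
  have h2 : ∀ x : S, 2 * ((1 / 2 : ℝ) • x) = x := fun x => by
    rw [two_mul, ← add_smul]; norm_num
  simp only [ip2, star, mul_sum]
  refine sum_congr rfl fun a _ => sum_congr rfl fun b _ => ?_
  rw [mul_left_comm, h2]
  simp only [mul_sum]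
  refine sum_congr rfl fun c _ => sum_congr rfl fun d _ => by ring

theorem ip1_add (u v w : ι → S) : ip1 u (v + w) = ip1 u v + ip1 u w := by
  simp [ip1, mul_add, sum_add_distrib]

theorem ip1_smul (u v : ι → S) (a : S) : ip1 u (a • v) = a * ip1 u v := by
  simp only [ip1, Pi.smul_apply, smul_eq_mul, mul_sum]
  exact sum_congr rfl fun i _ => by ring

theorem ip1_comm (u v : ι → S) : ip1 u v = ip1 v u :=
  sum_congr rfl fun _ _ => mul_comm _ _

theorem ip1_neg (u v : ι → S) : ip1 u (-v) = - ip1 u v := by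
  simp [ip1]

theorem ip1_zero (u : ι → S) : ip1 u 0 = 0 := by simp [ip1]

theorem zero_ip1 (u : ι → S) : ip1 0 u = 0 := by simp [ip1]

end Gen

/-- The exterior derivative of the 1-form `ip1 θ`. -/
def Fq (θ u w : Fin 6 → SS) : SS := vf u (ip1 θ w) - vf w (ip1 θ u) - ip1 θ (brk u w)

/-- `dθ ∧ dθ` up to a factor. -/
def Tq (θ a b c d : Fin 6 → SS) : SS :=
  Fq θ a b * Fq θ c d - Fq θ a c * Fq θ b d + Fq θ a d * Fq θ b c

/-- The connection forms. -/
def th (k0 k1 : SS) : Fin 6 → SS :=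
  (k0 - (k1 + k1) * (1 - tS)) • rot 0 + ((k1 + k1 - k0) * (1 - tS) + k0 * tS) • rot 1
    + (k1 - k0 * (1 - sS)) • rot 2 + ((k0 - k1) * (1 - sS) + k1 * sS) • rot 3

/-- The gradient of `sS`. -/
def gs : Fin 6 → SS :=
  ![0, 2 * (co 1 * co 3 - co 0 * co 2), -(2 * (co 1 * co 2 + co 0 * co 3)), 0, 0, 0]

/-- The gradient of `tS`. -/
def gt : Fin 6 → SS :=
  ![0, 0, 0, 0, 2 * (co 5 * co 7 - co 4 * co 6), -(2 * (co 5 * co 6 + co 4 * co 7))]

/-- The Jacobian. -/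
def Jq (k0 k1 : SS) : SS :=
  - ((2 * k1 - k0) * (k0 - k1)) + (2 * k1 - k0) * k0 * sS
    + ((2 * k1 - k0) * (k0 - k1) + k0 * (k0 - k1)) * tS

section Up

variable (hA : BasA)
include hA

theorem brk_zero (u : Fin 6 → SS) : brk u 0 = 0 := by
  have := hA.brk_add u 0 0
  rw [add_zero] at this
  exact left_eq_add.mp this

theorem brk_neg (u w : Fin 6 → SS) : brk u (-w) = - brk u w := by
  have := hA.brk_add u w (-w)
  rw [add_neg_cancel, brk_zero hA] at this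
  exact (neg_eq_of_add_eq_zero_right this.symm).symm

theorem Fq_skew (θ u w : Fin 6 → SS) : Fq θ u w = - Fq θ w u := by
  rw [Fq, Fq, hA.brk_skew u w, ip1_neg]; ring

theorem Fq_lin2 (θ u : Fin 6 → SS) : IsLinearMap SS (Fq θ u) := by
  constructor
  · intro v w
    simp only [Fq, hA.brk_add, ip1_add, hA.vf_add, map_add]; ring
  · intro a w
    simp only [Fq, hA.brk_smul, ip1_add, ip1_smul, hA.vf_smul, Derivation.leibniz, smul_eq_mul]
    ring

theorem Fq_lin1 (θ w : Fin 6 → SS) : IsLinearMap SS (fun u => Fq θ u w) := by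
  constructor
  · intro u v
    rw [Fq_skew hA, (Fq_lin2 hA θ w).map_add, Fq_skew hA θ u, Fq_skew hA θ v]; ring
  · intro a u
    rw [Fq_skew hA, (Fq_lin2 hA θ w).map_smul, Fq_skew hA θ u, smul_eq_mul, smul_eq_mul]; ring

theorem Fq_closed (θ u v w : Fin 6 → SS) :
    vf u (Fq θ v w) + vf v (Fq θ w u) + vf w (Fq θ u v)
      - (Fq θ (brk u v) w + Fq θ (brk v w) u + Fq θ (brk w u) v) = 0 := by
  have h1 : brk (brk u v) w + brk (brk v w) u + brk (brk w u) v = 0 := by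
    have j := hA.jacobi u v w
    rw [hA.brk_skew (brk v w) u, hA.brk_skew (brk w u) v, hA.brk_skew w u, brk_neg hA, j]
    abel
  have h2 : ip1 θ (brk (brk u v) w) + ip1 θ (brk (brk v w) u) + ip1 θ (brk (brk w u) v) = 0 := by
    rw [← ip1_add, ← ip1_add, h1, ip1_zero]
  simp only [Fq, map_sub, hA.vf_brk]
  linear_combination h2

theorem Fq_V {θ : Fin 6 → SS} {b : Fin 2} (h1 : brk (Vv b) θ = 0)
    (h2 : ∀ u, vf u (ip1 θ (Vv b)) = 0) (w : Fin 6 → SS) : Fq θ (Vv b) w = 0 := by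
  rw [Fq, hA.kill_V, h1, zero_ip1, h2]; ring

theorem Fq_rot {θ : Fin 6 → SS} {j : Fin 4} (h1 : brk (rot j) θ = 0) (w : Fin 6 → SS) :
    Fq θ (rot j) w = - vf w (ip1 θ (rot j)) := by
  rw [Fq, hA.kill_rot, h1, zero_ip1]; ring

theorem Fq_inv {θ u w : Fin 6 → SS} {b : Fin 2} (h1 : brk (Vv b) θ = 0) (hu : brk (Vv b) u = 0)
    (hw : brk (Vv b) w = 0) : vf (Vv b) (Fq θ u w) = 0 := by
  have k : ∀ z, brk (Vv b) z = 0 → vf (Vv b) (ip1 θ z) = 0 := fun z hz => by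
    rw [hA.kill_V, h1, hz, zero_ip1, ip1_zero, add_zero]
  have z0 : ∀ f, vf (0 : Fin 6 → SS) f = 0 := fun f => by simp [hA.vf_apply]
  have k2 : ∀ z z', brk (Vv b) z = 0 → brk (Vv b) z' = 0 → vf (Vv b) (vf z (ip1 θ z')) = 0 := by
    intro z z' hz hz'
    have := hA.vf_brk (Vv b) z (ip1 θ z')
    rw [hz, z0, k z' hz', map_zero, sub_zero] at this
    exact this.symm
  have k3 : brk (Vv b) (brk u w) = 0 := by
    rw [hA.jacobi, hu, hw, brk_zero hA, hA.brk_skew, brk_zero hA]; simp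
  rw [Fq, map_sub, map_sub, k2 u w hu hw, k2 w u hw hu, k _ k3]; ring

omit hA in
theorem vf_s (u : Fin 6 → SS) : vf u sS = 2 * co 0 * vf u (co 0) + 2 * co 1 * vf u (co 1) := by
  simp only [sS, pow_two, map_add, Derivation.leibniz, smul_eq_mul]; ring

omit hA in
theorem vf_t (u : Fin 6 → SS) : vf u tS = 2 * co 4 * vf u (co 4) + 2 * co 5 * vf u (co 5) := by
  simp only [tS, pow_two, map_add, Derivation.leibniz, smul_eq_mul]; ring

theorem rot_s (j : Fin 4) : vf (rot j) sS = 0 := by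
  rw [vf_s, hA.rot_co, hA.rot_co]
  fin_cases j <;> simp [Rco]
  ring

theorem rot_t (j : Fin 4) : vf (rot j) tS = 0 := by
  rw [vf_t, hA.rot_co, hA.rot_co]
  fin_cases j <;> simp [Rco]
  ring

theorem ip_th (h0 h1 h2 h3 g0 g1 g2 g3 : SS) :
    ip1 (h0 • rot 0 + h1 • rot 1 + h2 • rot 2 + h3 • rot 3)
      (g0 • rot 0 + g1 • rot 1 + g2 • rot 2 + g3 • rot 3)
      = h0 * g0 * sS + h1 * g1 * (1 - sS) + h2 * g2 * tS + h3 * g3 * (1 - tS) := by
  simp [ip1, rot, Fin.sum_univ_six, sS, tS]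
  linear_combination (h0 * g0 * (co 0 ^ 2 + co 1 ^ 2) + h1 * g1 * (1 + co 2 ^ 2 + co 3 ^ 2))
    * hA.rel1 + (h2 * g2 * (co 4 ^ 2 + co 5 ^ 2) + h3 * g3 * (1 + co 6 ^ 2 + co 7 ^ 2)) * hA.rel2

theorem th_rot1 (k0 k1 : SS) : ip1 (th k0 k1) (rot 1)
    = ((k1 + k1 - k0) * (1 - tS) + k0 * tS) * (1 - sS) := by
  have : rot 1 = (0 : SS) • rot 0 + (1 : SS) • rot 1 + (0 : SS) • rot 2 + (0 : SS) • rot 3 := by
    simp
  rw [th]; nth_rewrite 2 [this]; rw [ip_th hA]; ring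

theorem th_rot3 (k0 k1 : SS) : ip1 (th k0 k1) (rot 3)
    = ((k0 - k1) * (1 - sS) + k1 * sS) * (1 - tS) := by
  have : rot 3 = (0 : SS) • rot 0 + (0 : SS) • rot 1 + (0 : SS) • rot 2 + (1 : SS) • rot 3 := by
    simp
  rw [th]; nth_rewrite 2 [this]; rw [ip_th hA]; ring

theorem th_V0 (k0 k1 : SS) : ip1 (th k0 k1) (Vv 0) = k0 := by
  have : Vv 0 = (1 : SS) • rot 0 + (1 : SS) • rot 1 + (0 : SS) • rot 2 + (1 + 1 : SS) • rot 3 := by
    simp only [Vv, add_smul, one_smul, zero_smul, add_zero, Matrix.cons_val_zero, add_assoc]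
  rw [th, this, ip_th hA]; ring

theorem th_V1 (k0 k1 : SS) : ip1 (th k0 k1) (Vv 1) = k1 := by
  have : Vv 1 = (0 : SS) • rot 0 + (1 : SS) • rot 1 + (1 : SS) • rot 2 + (1 : SS) • rot 3 := by
    simp [Vv]
  rw [th, this, ip_th hA]; ring

theorem rot_th {k0 k1 : SS} (h0 : ∀ u, vf u k0 = 0) (h1 : ∀ u, vf u k1 = 0) (j : Fin 4) :
    brk (rot j) (th k0 k1) = 0 := by
  simp only [th, hA.brk_add, hA.brk_smul, hA.brk_rot, map_add, map_sub, Derivation.leibniz,
    Derivation.map_one_eq_zero, h0, h1, rot_s hA, rot_t hA, smul_zero, add_zero,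
    zero_smul, sub_self]

theorem V_th {k0 k1 : SS} (h0 : ∀ u, vf u k0 = 0) (h1 : ∀ u, vf u k1 = 0) (b : Fin 2) :
    brk (Vv b) (th k0 k1) = 0 := by
  have k : ∀ j, brk (th k0 k1) (rot j) = 0 := fun j => by
    rw [hA.brk_skew, rot_th hA h0 h1, neg_zero]
  rw [hA.brk_skew]
  fin_cases b <;> simp [Vv, hA.brk_add, k]

theorem gs_s : vf gs sS = 4 * sS * (1 - sS) := by
  rw [vf_s, hA.vf_apply, hA.vf_apply]
  simp [Fin.sum_univ_six, hA.X_co, Jco, gs, sS]
  linear_combination (4 * (co 0 ^ 2 + co 1 ^ 2)) * hA.rel1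

theorem gs_t : vf gs tS = 0 := by
  rw [vf_t, hA.vf_apply, hA.vf_apply]
  simp [Fin.sum_univ_six, hA.X_co, Jco, gs]

theorem gt_s : vf gt sS = 0 := by
  rw [vf_s, hA.vf_apply, hA.vf_apply]
  simp [Fin.sum_univ_six, hA.X_co, Jco, gt]

theorem gt_t : vf gt tS = 4 * tS * (1 - tS) := by
  rw [vf_t, hA.vf_apply, hA.vf_apply]
  simp [Fin.sum_univ_six, hA.X_co, Jco, gt, tS]
  linear_combination (4 * (co 4 ^ 2 + co 5 ^ 2)) * hA.rel2

theorem D6_val : D6 (Vv 0) (Vv 1) gs (rot 1) gt (rot 3) = 4 * (sS * (1 - sS) * tS * (1 - tS)) := by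
  have h := det6 (co 0 ^ 2 + co 1 ^ 2) (co 2 ^ 2 + co 3 ^ 2) (co 1 * co 2 + co 0 * co 3)
    (co 1 * co 3 - co 0 * co 2) (co 4 ^ 2 + co 5 ^ 2) (co 6 ^ 2 + co 7 ^ 2)
    (co 5 * co 6 + co 4 * co 7) (co 5 * co 7 - co 4 * co 6)
  have e1 : co 0 ^ 2 + co 1 ^ 2 + (co 2 ^ 2 + co 3 ^ 2) = 1 := by linear_combination hA.rel1
  have e2 : co 4 ^ 2 + co 5 ^ 2 + (co 6 ^ 2 + co 7 ^ 2) = 1 := by linear_combination hA.rel2
  have e3 : (co 1 * co 2 + co 0 * co 3) ^ 2 + (co 1 * co 3 - co 0 * co 2) ^ 2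
      = sS * (1 - sS) := by
    rw [sS]; linear_combination (co 0 ^ 2 + co 1 ^ 2) * hA.rel1
  have e4 : (co 5 * co 6 + co 4 * co 7) ^ 2 + (co 5 * co 7 - co 4 * co 6) ^ 2
      = tS * (1 - tS) := by
    rw [tS]; linear_combination (co 4 ^ 2 + co 5 ^ 2) * hA.rel2
  rw [e3, e4] at h
  refine Eq.trans (Eq.trans ?_ h) ?_
  · rw [D6]
    congr 2
    ext i j : 2
    fin_cases i <;> fin_cases j <;> simp [Vv, rot, gs, gt]
  · rw [e1, e2]; ring

/-- The value of `F ∧ F` on the four test fields. -/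
theorem T_val {k0 k1 : SS} (h0 : ∀ u, vf u k0 = 0) (h1 : ∀ u, vf u k1 = 0) :
    Tq (th k0 k1) gs (rot 1) gt (rot 3) = 16 * (sS * (1 - sS) * tS * (1 - tS)) * Jq k0 k1 := by
  have r := rot_th hA h0 h1
  rw [Tq, Fq_skew hA _ gs (rot 1), Fq_skew hA _ gt (rot 3), Fq_skew hA _ gs (rot 3)]
  simp only [Fq_rot hA (r _), th_rot1 hA, th_rot3 hA, map_add, map_sub, Derivation.leibniz,
    Derivation.map_one_eq_zero, h0, h1, rot_s hA, rot_t hA, gs_s hA, gs_t hA, gt_s hA, gt_t hA,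
    smul_eq_mul, Jq]
  ring

end Up

end T3P

end Pool.Agent.P.MP_713680_gt
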