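import Pool.Agent.P.MP_713680_gt.Geo

/-!
MP_713680_gt, upstairs layer: smooth functions on `S³ × S³` (unit quaternions), the six vector
fields of left multiplication, Haar measure, the torus action and its invariant functions.
-/

open scoped ContDiff

noncomputable section

namespace Pool.Agent.P.MP_713680_gt

open Finset MeasureTheory

abbrev HH : Type := Quaternion ℝ
abbrev S3 : Type := Metric.sphere (0 : HH) 1
abbrev PP : Type := S3 × S3
abbrev EE : Type := HH × HH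

def UU : Set EE := {x | x.1 ≠ 0 ∧ x.2 ≠ 0}

theorem isOpen_UU : IsOpen UU :=
  (isOpen_ne_fun continuous_fst continuous_const).inter
    (isOpen_ne_fun continuous_snd continuous_const)

open Classical in
def nrm1 (p : HH) : S3 :=
  if h : p = 0 then 1 else ⟨‖p‖⁻¹ • p, by
    rw [mem_sphere_zero_iff_norm, norm_smul, norm_inv, norm_norm,
      inv_mul_cancel₀ (norm_ne_zero_iff.mpr h)]⟩

/-- Radial projection to `S³ × S³`. -/
def nrm (x : EE) : PP := (nrm1 x.1, nrm1 x.2)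

/-- Inclusion of `S³ × S³`. -/
def inc (x : PP) : EE := (x.1.1, x.2.1)

theorem norm_S3 (p : S3) : ‖(p : HH)‖ = 1 := mem_sphere_zero_iff_norm.mp p.2

theorem inc_mem (x : PP) : inc x ∈ UU := by
  constructor
  · intro h; have := norm_S3 x.1; rw [show (x.1 : HH) = 0 from h] at this; simp at this
  · intro h; have := norm_S3 x.2; rw [show (x.2 : HH) = 0 from h] at this; simp at this

theorem nrm1_coe {p : HH} (h : p ≠ 0) : (nrm1 p : HH) = ‖p‖⁻¹ • p := by
  simp [nrm1, h]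

theorem nrm1_S3 (p : S3) : nrm1 (p : HH) = p := by
  have h : (p : HH) ≠ 0 := by
    intro h; have := norm_S3 p; rw [h] at this; simp at this
  apply Subtype.ext
  rw [nrm1_coe h, norm_S3]; simp

theorem nrm_inc (x : PP) : nrm (inc x) = x := by
  simp [nrm, inc, nrm1_S3]

theorem inc_nrm {x : EE} (h : x ∈ UU) : inc (nrm x) = (‖x.1‖⁻¹ • x.1, ‖x.2‖⁻¹ • x.2) := by
  simp [nrm, inc, nrm1_coe h.1, nrm1_coe h.2]

theorem nrm1_smul {a : ℝ} (ha : 0 < a) (p : HH) : nrm1 (a • p) = nrm1 p := by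
  by_cases h : p = 0
  · simp [h]
  · have h' : a • p ≠ 0 := smul_ne_zero ha.ne' h
    apply Subtype.ext
    rw [nrm1_coe h, nrm1_coe h', norm_smul, Real.norm_of_nonneg ha.le, smul_smul, mul_inv,
      mul_comm a⁻¹, mul_assoc, inv_mul_cancel₀ ha.ne', mul_one]

theorem continuous_inc : Continuous inc :=
  (continuous_subtype_val.comp continuous_fst).prodMk (continuous_subtype_val.comp continuous_snd)

theorem contDiffOn_inc_nrm : ContDiffOn ℝ ∞ (fun x => inc (nrm x)) UU := by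
  have h : ContDiffOn ℝ ∞ (fun x : EE => ((‖x.1‖⁻¹ • x.1, ‖x.2‖⁻¹ • x.2) : EE)) UU := by
    intro x hx
    apply ContDiffAt.contDiffWithinAt
    have h1 : ContDiffAt ℝ ∞ (fun x : EE => ‖x.1‖) x := contDiffAt_fst.norm ℝ hx.1
    have h2 : ContDiffAt ℝ ∞ (fun x : EE => ‖x.2‖) x := contDiffAt_snd.norm ℝ hx.2
    exact ((h1.inv (norm_ne_zero_iff.mpr hx.1)).smul contDiffAt_fst).prodMk
      ((h2.inv (norm_ne_zero_iff.mpr hx.2)).smul contDiffAt_snd)
  exact h.congr fun x hx => inc_nrm hx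

/-- Smooth functions on `S³ × S³`. -/
def SS : Subalgebra ℝ (PP → ℝ) where
  carrier := {f | ContDiffOn ℝ ∞ (fun x => f (nrm x)) UU}
  mul_mem' := fun hf hg => ContDiffOn.mul hf hg
  add_mem' := fun hf hg => ContDiffOn.add hf hg
  algebraMap_mem' := fun _ => contDiffOn_const

theorem mem_SS {f : PP → ℝ} : f ∈ SS ↔ ContDiffOn ℝ ∞ (fun x => f (nrm x)) UU := Iff.rfl

/-- The homogeneous extension of `f`. -/
def ext (f : SS) : EE → ℝ := fun x => f.1 (nrm x)

theorem ext_smooth (f : SS) : ContDiffOn ℝ ∞ (ext f) UU := f.2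

theorem ext_at (f : SS) {x : EE} (hx : x ∈ UU) : ContDiffAt ℝ ∞ (ext f) x :=
  (ext_smooth f).contDiffAt (isOpen_UU.mem_nhds hx)

theorem ext_diff (f : SS) {x : EE} (hx : x ∈ UU) : DifferentiableAt ℝ (ext f) x :=
  (ext_at f hx).differentiableAt (by simp)

theorem ext_inc (f : SS) (x : PP) : ext f (inc x) = f.1 x := by simp [ext, nrm_inc]

theorem continuous_SS (f : SS) : Continuous f.1 := by
  have : f.1 = fun x => ext f (inc x) := funext fun x => (ext_inc f x).symm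
  rw [this]
  exact (ext_smooth f).continuousOn.comp_continuous continuous_inc inc_mem

/-- Restriction of a smooth function on `UU`. -/
def res (G : EE → ℝ) (hG : ContDiffOn ℝ ∞ G UU) : SS :=
  ⟨fun x => G (inc x), hG.comp contDiffOn_inc_nrm fun _ _ => inc_mem _⟩

/-- Evaluation. -/
def evS (x : PP) : SS →ₐ[ℝ] ℝ := (Pi.evalAlgHom ℝ (fun _ => ℝ) x).comp SS.val

@[simp] theorem evS_apply (x : PP) (f : SS) : evS x f = f.1 x := rfl

def qi : HH := ⟨0, 1, 0, 0⟩
def qj : HH := ⟨0, 0, 1, 0⟩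
def qk : HH := ⟨0, 0, 0, 1⟩

/-- The pair of imaginary quaternions of the field `k`. -/
def qe : Fin 6 → EE := ![(qi, 0), (qj, 0), (qk, 0), (0, qi), (0, qj), (0, qk)]

/-- The linear vector field of left multiplication by `qe k`. -/
def Jv (k : Fin 6) : EE →L[ℝ] EE := ContinuousLinearMap.mul ℝ EE (qe k)

theorem Jv_apply (k : Fin 6) (x : EE) : Jv k x = qe k * x := rfl

/-- The diagonal scaling. -/
def scl (a b : ℝ) : EE →L[ℝ] EE :=
  (a • ContinuousLinearMap.fst ℝ HH HH).prod (b • ContinuousLinearMap.snd ℝ HH HH)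

theorem scl_apply (a b : ℝ) (x : EE) : scl a b x = (a • x.1, b • x.2) := rfl

theorem nrm_scl {a b : ℝ} (ha : 0 < a) (hb : 0 < b) (x : EE) : nrm (scl a b x) = nrm x := by
  simp [nrm, scl_apply, nrm1_smul ha, nrm1_smul hb]

theorem scl_mem {a b : ℝ} (ha : 0 < a) (hb : 0 < b) {x : EE} (hx : x ∈ UU) : scl a b x ∈ UU :=
  ⟨smul_ne_zero ha.ne' hx.1, smul_ne_zero hb.ne' hx.2⟩

theorem fderiv_ext_scl (f : SS) {a b : ℝ} (ha : 0 < a) (hb : 0 < b) {x : EE} (hx : x ∈ UU)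
    (v : EE) : fderiv ℝ (ext f) (scl a b x) (scl a b v) = fderiv ℝ (ext f) x v := by
  have h1 : HasFDerivAt (fun y => ext f (scl a b y))
      ((fderiv ℝ (ext f) (scl a b x)).comp (scl a b)) x :=
    (ext_diff f (scl_mem ha hb hx)).hasFDerivAt.comp x (scl a b).hasFDerivAt
  have h2 : (fun y => ext f (scl a b y)) = ext f := funext fun y => by simp [ext, nrm_scl ha hb]
  rw [h2] at h1
  rw [h1.fderiv]; rfl

theorem fderiv_inc_nrm (f : SS) (k : Fin 6) {x : EE} (hx : x ∈ UU) :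
    fderiv ℝ (ext f) (inc (nrm x)) (Jv k (inc (nrm x))) = fderiv ℝ (ext f) x (Jv k x) := by
  have ha : 0 < ‖x.1‖⁻¹ := inv_pos.mpr (norm_pos_iff.mpr hx.1)
  have hb : 0 < ‖x.2‖⁻¹ := inv_pos.mpr (norm_pos_iff.mpr hx.2)
  have e1 : inc (nrm x) = scl ‖x.1‖⁻¹ ‖x.2‖⁻¹ x := inc_nrm hx
  have e2 : Jv k (scl ‖x.1‖⁻¹ ‖x.2‖⁻¹ x) = scl ‖x.1‖⁻¹ ‖x.2‖⁻¹ (Jv k x) := by
    simp [Jv_apply, scl_apply, Prod.ext_iff]
  rw [e1, e2, fderiv_ext_scl f ha hb hx]

theorem Xmem (k : Fin 6) (f : SS) :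
    (fun x : PP => fderiv ℝ (ext f) (inc x) (Jv k (inc x))) ∈ SS := by
  rw [mem_SS]
  have h : ContDiffOn ℝ ∞ (fun x => fderiv ℝ (ext f) x (Jv k x)) UU :=
    ((ext_smooth f).fderiv_of_isOpen isOpen_UU (by simp)).clm_apply (Jv k).contDiff.contDiffOn
  exact h.congr fun x hx => fderiv_inc_nrm f k hx

/-- The vector field `X k` as a linear map. -/
def Xl (k : Fin 6) : SS →ₗ[ℝ] SS where
  toFun f := ⟨fun x => fderiv ℝ (ext f) (inc x) (Jv k (inc x)), Xmem k f⟩
  map_add' f g := by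
    apply Subtype.ext; funext x
    have : ext (f + g) = ext f + ext g := rfl
    simp only [this, fderiv_add (ext_diff f (inc_mem x)) (ext_diff g (inc_mem x))]
    rfl
  map_smul' c f := by
    apply Subtype.ext; funext x
    have : ext (c • f) = c • ext f := rfl
    simp only [this, fderiv_const_smul (ext_diff f (inc_mem x))]
    rfl

/-- The vector field `X k`: `X k f (x) = d/dt f (exp (t qe k) x)`. -/
def X (k : Fin 6) : Derivation ℝ SS SS :=
  Derivation.mk' (Xl k) fun f g => by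
    apply Subtype.ext; funext x
    have : ext (f * g) = ext f * ext g := rfl
    change fderiv ℝ (ext (f * g)) (inc x) (Jv k (inc x)) =
      f.1 x * fderiv ℝ (ext g) (inc x) (Jv k (inc x)) + g.1 x * fderiv ℝ (ext f) (inc x) (Jv k (inc x))
    rw [this, fderiv_mul (ext_diff f (inc_mem x)) (ext_diff g (inc_mem x))]
    simp [ext_inc]

theorem X_apply (k : Fin 6) (f : SS) (x : PP) :
    (X k f).1 x = fderiv ℝ (ext f) (inc x) (Jv k (inc x)) := rfl

theorem ext_X (k : Fin 6) (f : SS) {x : EE} (hx : x ∈ UU) :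
    ext (X k f) x = fderiv ℝ (ext f) x (Jv k x) := fderiv_inc_nrm f k hx

/-- The eight real coordinates. -/
def cf (i : Fin 8) (x : EE) : ℝ :=
  ![x.1.re, x.1.imI, x.1.imJ, x.1.imK, x.2.re, x.2.imI, x.2.imJ, x.2.imK] i

theorem contDiff_cf (i : Fin 8) : ContDiff ℝ ∞ (cf i) := by
  have h : IsLinearMap ℝ (cf i) := by
    constructor
    · intro x y; fin_cases i <;> simp [cf]
    · intro c x; fin_cases i <;> simp [cf]
  exact (LinearMap.toContinuousLinearMap (h.mk' _)).contDiff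

/-- The coordinates as elements of `SS`. -/
def co (i : Fin 8) : SS := res (cf i) (contDiff_cf i).contDiffOn

/-- Structure constants: `[X k, X l] = ∑ cc k l m • X m`. -/
def cc : Fin 6 → Fin 6 → Fin 6 → ℝ :=
  ![![![0, 0, 0, 0, 0, 0], ![0, 0, -2, 0, 0, 0], ![0, 2, 0, 0, 0, 0],
      ![0, 0, 0, 0, 0, 0], ![0, 0, 0, 0, 0, 0], ![0, 0, 0, 0, 0, 0]],
    ![![0, 0, 2, 0, 0, 0], ![0, 0, 0, 0, 0, 0], ![-2, 0, 0, 0, 0, 0],
      ![0, 0, 0, 0, 0, 0], ![0, 0, 0, 0, 0, 0], ![0, 0, 0, 0, 0, 0]],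
    ![![0, -2, 0, 0, 0, 0], ![2, 0, 0, 0, 0, 0], ![0, 0, 0, 0, 0, 0],
      ![0, 0, 0, 0, 0, 0], ![0, 0, 0, 0, 0, 0], ![0, 0, 0, 0, 0, 0]],
    ![![0, 0, 0, 0, 0, 0], ![0, 0, 0, 0, 0, 0], ![0, 0, 0, 0, 0, 0],
      ![0, 0, 0, 0, 0, 0], ![0, 0, 0, 0, 0, -2], ![0, 0, 0, 0, 2, 0]],
    ![![0, 0, 0, 0, 0, 0], ![0, 0, 0, 0, 0, 0], ![0, 0, 0, 0, 0, 0],
      ![0, 0, 0, 0, 0, 2], ![0, 0, 0, 0, 0, 0], ![0, 0, 0, -2, 0, 0]],
    ![![0, 0, 0, 0, 0, 0], ![0, 0, 0, 0, 0, 0], ![0, 0, 0, 0, 0, 0],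
      ![0, 0, 0, 0, -2, 0], ![0, 0, 0, 2, 0, 0], ![0, 0, 0, 0, 0, 0]]]

/-- The vector field `∑ u k • X k`. -/
def vf (u : Fin 6 → SS) : Derivation ℝ SS SS := ∑ k, u k • X k

/-- The bracket of vector fields, in the frame `X`. -/
def brk (u w : Fin 6 → SS) : Fin 6 → SS :=
  fun m => vf u (w m) - vf w (u m) + ∑ k, ∑ l, cc k l m • (u k * w l)

/-- The four rotation fields (of `p₁ = co 0 + i co 1`, `p₂ = co 2 + i co 3`, `q₁`, `q₂`). -/
def rot : Fin 4 → Fin 6 → SS :=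
  ![![co 0 ^ 2 + co 1 ^ 2, co 1 * co 2 + co 0 * co 3, co 1 * co 3 - co 0 * co 2, 0, 0, 0],
    ![co 2 ^ 2 + co 3 ^ 2, -(co 1 * co 2 + co 0 * co 3), -(co 1 * co 3 - co 0 * co 2), 0, 0, 0],
    ![0, 0, 0, co 4 ^ 2 + co 5 ^ 2, co 5 * co 6 + co 4 * co 7, co 5 * co 7 - co 4 * co 6],
    ![0, 0, 0, co 6 ^ 2 + co 7 ^ 2, -(co 5 * co 6 + co 4 * co 7), -(co 5 * co 7 - co 4 * co 6)]]

/-- The two generators of the torus action, weights `(1,0), (1,1), (0,1), (2,1)`. -/
def Vv : Fin 2 → Fin 6 → SS := ![rot 0 + rot 1 + rot 3 + rot 3, rot 1 + rot 2 + rot 3]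

/-- Rotation of `p₁` by `s` and of `p₂` by `t`. -/
def rq (s t : ℝ) (p : HH) : HH :=
  ⟨Real.cos s * p.re - Real.sin s * p.imI, Real.sin s * p.re + Real.cos s * p.imI,
    Real.cos t * p.imJ - Real.sin t * p.imK, Real.sin t * p.imJ + Real.cos t * p.imK⟩

/-- The torus action. -/
def act (α β : ℝ) (x : EE) : EE := (rq α (α + β) x.1, rq β (2 * α + β) x.2)

/-- Two points lie in the same torus orbit. -/
def Orb (x y : PP) : Prop := ∃ α β : ℝ, inc y = act α β (inc x)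

/-- Invariant smooth functions. -/
def AA : Subalgebra ℝ SS where
  carrier := {f | ∀ b, vf (Vv b) f = 0}
  mul_mem' := fun {f g} hf hg b => by
    have h1 := hf b; have h2 := hg b
    rw [Derivation.leibniz, h1, h2]; simp
  add_mem' := fun {f g} hf hg b => by
    have h1 := hf b; have h2 := hg b
    rw [map_add, h1, h2]; simp
  algebraMap_mem' := fun c b => Derivation.map_algebraMap _ c

theorem mem_AA {f : SS} : f ∈ AA ↔ ∀ b, vf (Vv b) f = 0 := Iff.rfl

/-- Evaluation on invariant functions. -/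
def evA (x : PP) : AA →ₐ[ℝ] ℝ := (evS x).comp AA.val

@[simp] theorem evA_apply (x : PP) (f : AA) : evA x f = f.1.1 x := rfl

instance : MeasurableSpace PP := borel PP
instance : BorelSpace PP := ⟨rfl⟩

/-- Haar probability measure. -/
def mu : Measure PP := Measure.haarMeasure ⊤

instance : Measure.IsHaarMeasure mu := by unfold mu; infer_instance

instance : IsProbabilityMeasure mu := ⟨by
  have := Measure.haarMeasure_self (G := PP) (K₀ := ⊤)
  simpa [mu] using this⟩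

theorem integrable_SS (f : SS) : Integrable f.1 mu :=
  (continuous_SS f).integrable_of_hasCompactSupport (HasCompactSupport.of_compactSpace _)

/-- The Haar integral. -/
def I0 : SS →ₗ[ℝ] ℝ where
  toFun f := ∫ x, f.1 x ∂mu
  map_add' f g := integral_add (integrable_SS f) (integrable_SS g)
  map_smul' c f := integral_smul c f.1

theorem I0_apply (f : SS) : I0 f = ∫ x, f.1 x ∂mu := rfl

end Pool.Agent.P.MP_713680_gt
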