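import Pool.Agent.P.MP_713680_gt.Defs
import Pool.Agent.P.MP_713680_gt.GeoSt
import Pool.Agent.P.MP_713680_gt.Up

/-!
MP_713680_gt, statements of the analytic, upstairs and manifold packages.
See /team-store/h36_713680_README.md, part 2.
-/

open scoped ContDiff Manifold ENNReal

noncomputable section

namespace Pool.Agent.P.MP_713680_gt

open Finset Filter Topology

/-! ### Abstract elliptic theory -/

section Abstract

variable {P S K : Type} [CommRing S] [Algebra ℝ S] [Fintype K]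

/-- The word `X k₁ X k₂ …`. -/
def Xw (X : K → Derivation ℝ S S) : List K → S → S
  | [], g => g
  | k :: l, g => X k (Xw X l g)

/-- The flat Laplacian `∑ X k X k` (nonpositive). -/
def lap (X : K → Derivation ℝ S S) : S →ₗ[ℝ] S :=
  ∑ k, (X k).toLinearMap ∘ₗ (X k).toLinearMap

/-- The homogeneous Sobolev seminorm squared of order `n`. -/
def Nk (X : K → Derivation ℝ S S) (I : S →ₗ[ℝ] ℝ) : ℕ → S → ℝ
  | 0, g => I (g * g)
  | n + 1, g => ∑ k, Nk X I n (X k g)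

/-- The Sobolev norm squared of order `n`. -/
def Hs (X : K → Derivation ℝ S S) (I : S →ₗ[ℝ] ℝ) (n : ℕ) (g : S) : ℝ :=
  ∑ i ∈ range (n + 1), Nk X I i g

/-- Smooth functions on a compact group, filtered by polynomial degree. -/
structure Amb (ev : P → S →ₐ[ℝ] ℝ) (X : K → Derivation ℝ S S) (c : K → K → K → ℝ)
    (I : S →ₗ[ℝ] ℝ) (V : ℕ → Submodule ℝ S) : Prop where
  ev_inj : ∀ f, (∀ x, ev x f = 0) → f = 0
  skew1 : ∀ k l m, c k l m = - c l k m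
  skew2 : ∀ k l m, c k l m = - c k m l
  br : ∀ k l f, X k (X l f) - X l (X k f) = ∑ m, c k l m • X m f
  one : I 1 = 1
  nonneg : ∀ f, (∀ x, 0 ≤ ev x f) → 0 ≤ I f
  faith : ∀ f, (∀ x, 0 ≤ ev x f) → I f = 0 → f = 0
  I_X : ∀ k f, I (X k f) = 0
  bdd : ∀ f, ∃ B, ∀ x, |ev x f| ≤ B
  fin : ∀ n, FiniteDimensional ℝ (V n)
  mono : Monotone V
  V_X : ∀ n k, ∀ f ∈ V n, X k f ∈ V n
  V_zero : ∀ f, f ∈ V 0 ↔ ∃ a : ℝ, f = algebraMap ℝ S a
  dense : ∀ f, ∀ ε > 0, ∃ n, ∃ g ∈ V n, I ((f - g) * (f - g)) < ε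
  gap : ∀ n, ∀ u ∈ V (n + 1), (∀ v ∈ V n, I (u * v) = 0) →
    ((n : ℝ) + 1) * I (u * u) ≤ ∑ k, I (X k u * X k u)
  lim : ∀ w : ℕ → S, (∀ n, w n ∈ V n) →
    (∀ (l : List K) (s : ℕ), ∃ B, ∀ n : ℕ, ((n : ℝ) + 1) ^ s * I (Xw X l (w n) * Xw X l (w n)) ≤ B) →
    ∃ u, Tendsto (fun n => I ((u - ∑ i ∈ range n, w i) * (u - ∑ i ∈ range n, w i))) atTop (𝓝 0)

/-- An elliptic system of first order operators `L j u = ∑ y j k X k u + B j u` with weight `ψ`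
and potential `Q`. -/
structure Sys (ev : P → S →ₐ[ℝ] ℝ) (K J κ : Type) [Fintype K] [DecidableEq K] [Fintype J] where
  y : J → K → S
  η : K → J → S
  ψ : S
  ψ' : S
  B : J → κ → κ → S
  Q : κ → κ → S
  ell : ∀ k l, ∑ j, η k j * y j l = if k = l then 1 else 0
  inv : ψ * ψ' = 1
  pos : ∀ x, 0 < ev x ψ
  symm : ∀ i j, Q i j = Q j i

variable {ev : P → S →ₐ[ℝ] ℝ} [DecidableEq K] {J κ : Type} [Fintype J] [Fintype κ]

def Sys.L (s : Sys ev K J κ) (X : K → Derivation ℝ S S) (u : κ → S) (j : J) (i : κ) : S :=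
  ∑ k, s.y j k * X k (u i) + ∑ i', s.B j i i' * u i'

/-- The energy form. -/
def Sys.en (s : Sys ev K J κ) (X : K → Derivation ℝ S S) (I : S →ₗ[ℝ] ℝ) (u v : κ → S) : ℝ :=
  I (s.ψ * (∑ j, ∑ i, s.L X u j i * s.L X v j i + ∑ i, ∑ i', s.Q i i' * u i' * v i))

/-- The form `τ ⟨u, v⟩ + σ ⟨f, u⟩ ⟨f, v⟩` for the weight `ψ`. -/
def Sys.be (s : Sys ev K J κ) (I : S →ₗ[ℝ] ℝ) (τ σ : ℝ) (f u v : κ → S) : ℝ :=
  τ * I (s.ψ * ip1 u v) + σ * (I (s.ψ * ip1 f u) * I (s.ψ * ip1 f v))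

end Abstract

/-- Package E1: a priori estimates. -/
def S_Est : Prop :=
  ∀ (P S K : Type) [CommRing S] [Algebra ℝ S] [Fintype K] [DecidableEq K]
    (ev : P → S →ₐ[ℝ] ℝ) (X : K → Derivation ℝ S S) (c : K → K → K → ℝ) (I : S →ₗ[ℝ] ℝ)
    (V : ℕ → Submodule ℝ S), Amb ev X c I V →
    (∀ k g, X k (lap X g) = lap X (X k g)) ∧
    (∀ (n : ℕ) (g h : S), |I (g * ((-lap X) ^ n) h)| ≤ (Nk X I n g + Nk X I n h) / 2) ∧
    (∀ (a : S) (n : ℕ), ∃ B, ∀ g, Hs X I n (a * g) ≤ B * Hs X I n g) ∧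
    ∀ (J κ : Type) [Fintype J] [Fintype κ] (s : Sys ev K J κ),
      (∀ v, ∃ w : κ → S, ∀ u, s.en X I u v = I (ip1 u w)) ∧
      (∃ B, ∀ u v, s.en X I u v ^ 2 ≤ B * (∑ i, Hs X I 1 (u i)) * ∑ i, Hs X I 1 (v i)) ∧
      ∀ n : ℕ, ∃ B, ∀ u : κ → S, ∑ i, Nk X I (n + 1) (u i) ≤
        B * (|s.en X I u (fun i => ((-lap X) ^ n) (u i))| + ∑ i, Hs X I n (u i))

/-- Orthogonal projections onto the spaces `V n`. -/
structure Proj {S : Type} [CommRing S] [Algebra ℝ S] (I : S →ₗ[ℝ] ℝ) (V : ℕ → Submodule ℝ S)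
    (π : ℕ → S →ₗ[ℝ] S) : Prop where
  mem : ∀ n g, π n g ∈ V n
  orth : ∀ n g, ∀ h ∈ V n, I ((g - π n g) * h) = 0
  conv : ∀ g, Tendsto (fun n => I ((g - π n g) * (g - π n g))) atTop (𝓝 0)
  comm : ∀ (T : S →ₗ[ℝ] S) (t : ℝ), (∀ n, ∀ g ∈ V n, T g ∈ V n) →
    (∀ g h, I (T g * h) = t * I (g * T h)) → ∀ n g, π n (T g) = T (π n g)

/-- Package E2: projections, flat Poincaré inequality, compactness. -/
def S_RC : Prop :=
  ∀ (P S K : Type) [CommRing S] [Algebra ℝ S] [Fintype K]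
    (ev : P → S →ₐ[ℝ] ℝ) (X : K → Derivation ℝ S S) (c : K → K → K → ℝ) (I : S →ₗ[ℝ] ℝ)
    (V : ℕ → Submodule ℝ S), Amb ev X c I V →
    (∃ π, Proj I V π) ∧ (∀ g, I g = 0 → I (g * g) ≤ ∑ k, I (X k g * X k g)) ∧
    ∀ (κ : Type) [Fintype κ] (u : ℕ → κ → S), (∀ n, ∃ B, ∀ N i, Nk X I n (u N i) ≤ B) →
      ∃ (φ : ℕ → ℕ) (g : κ → S), StrictMono φ ∧
        ∀ i, Tendsto (fun N => I ((u (φ N) i - g i) * (u (φ N) i - g i))) atTop (𝓝 0)

/-- Package E3: smooth minimisers of Rayleigh quotients under the constraints `T b u = 0`. -/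
def S_G : Prop :=
  ∀ (P S K : Type) [CommRing S] [Algebra ℝ S] [Fintype K] [DecidableEq K]
    (ev : P → S →ₐ[ℝ] ℝ) (X : K → Derivation ℝ S S) (c : K → K → K → ℝ) (I : S →ₗ[ℝ] ℝ)
    (V : ℕ → Submodule ℝ S), Amb ev X c I V →
    ∀ (J κ β : Type) [Fintype J] [Fintype κ] (s : Sys ev K J κ) (T : β → S →ₗ[ℝ] S) (t : β → ℝ)
      (a τ σ : ℝ) (f : κ → S),
      (∀ b n, ∀ g ∈ V n, T b g ∈ V n) → (∀ b g h, I (T b g * h) = t b * I (g * T b h)) →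
      (∀ b g, T b (lap X g) = lap X (T b g)) → 0 < a →
      (∀ u, (∀ b i, T b (u i) = 0) → a * I (s.ψ * ip1 u u) ≤ s.en X I u u) →
      (∀ u, (∀ b i, T b (u i) = 0) → 0 ≤ s.be I τ σ f u u) →
      (∃ u, (∀ b i, T b (u i) = 0) ∧ s.be I τ σ f u u ≠ 0) →
      ∃ (u : κ → S) (l : ℝ), (∀ b i, T b (u i) = 0) ∧ s.be I τ σ f u u = 1 ∧
        (∀ v, (∀ b i, T b (v i) = 0) → s.en X I u v = l * s.be I τ σ f u v) ∧
        ∀ v, (∀ b i, T b (v i) = 0) → l * s.be I τ σ f v v ≤ s.en X I v v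

/-- Package E3, corollary: the flat Laplacian is invertible on functions of mean zero. -/
def S_G0abs : Prop :=
  ∀ (P S K : Type) [CommRing S] [Algebra ℝ S] [Fintype K]
    (ev : P → S →ₐ[ℝ] ℝ) (X : K → Derivation ℝ S S) (c : K → K → K → ℝ) (I : S →ₗ[ℝ] ℝ)
    (V : ℕ → Submodule ℝ S), Amb ev X c I V →
    (∀ f, I f = 0 → ∃ u, I u = 0 ∧ lap X u = f) ∧ ∀ u, lap X u = 0 → I u = 0 → u = 0

/-! ### Generic frame calculus -/

/-- A metric `g` and its Levi-Civita connection `G k i j = Γ^k_ij` in a frame `D` with constant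
structure coefficients `c`. -/
structure FC (S n : Type) [CommRing S] [Algebra ℝ S] [Fintype n] where
  D : n → Derivation ℝ S S
  c : n → n → n → ℝ
  g : n → n → S
  G : n → n → n → S
  br : ∀ i j f, D i (D j f) - D j (D i f) = ∑ k, c i j k • D k f
  symm : ∀ i j, g i j = g j i
  compat : ∀ i j k, D i (g j k) = ∑ s, (G s i j * g s k + G s i k * g j s)
  tors : ∀ i j k, G k i j - G k j i = algebraMap ℝ S (c i j k)

namespace FC

variable {S n : Type} [CommRing S] [Algebra ℝ S] [Fintype n] (F : FC S n)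

def vf (u : n → S) (f : S) : S := ∑ k, u k * F.D k f

def brk (u w : n → S) : n → S :=
  fun m => F.vf u (w m) - F.vf w (u m) + ∑ k, ∑ l, F.c k l m • (u k * w l)

def ip (u w : n → S) : S := ∑ k, ∑ l, F.g k l * u k * w l

def nab (u w : n → S) : n → S := fun m => F.vf u (w m) + ∑ i, ∑ j, F.G m i j * u i * w j

def Rie (i j k l : n) : S :=
  ∑ m, F.g m l * (F.D i (F.G m j k) - F.D j (F.G m i k)
    + ∑ s, (F.G m i s * F.G s j k - F.G m j s * F.G s i k) - ∑ s, F.c i j s • F.G m s k)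

end FC

/-- Comparison of a `Calc` with a frame calculus. -/
def S_FC : Prop :=
  ∀ (S n P R ι : Type) [CommRing S] [Algebra ℝ S] [Fintype n] [CommRing R] [Algebra ℝ R]
    [Fintype ι] (F : FC S n) (C : Calc P R ι) (r : R →ₐ[ℝ] S) (y : ι → n → S),
    C.AlgA → C.AlgR → (∀ a f, r (C.Y a f) = F.vf (y a) (r f)) →
    (∀ a b, r (C.Pr a b) = F.ip (y a) (y b)) →
    (∀ a b e, r (C.Gam a b e - C.Gam b a e) = F.ip (F.brk (y a) (y b)) (y e)) →
    (∀ a b c, r (C.Gam a b c) = F.ip (F.nab (y a) (y b)) (y c)) ∧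
    ∀ a b c d, r (C.Rm a b c d) =
      ∑ i, ∑ j, ∑ k, ∑ l, F.Rie i j k l * y a i * y b j * y c k * y d l
      + (F.ip (F.nab (y b) (y c)) (F.nab (y a) (y d))
          - ∑ e, F.ip (F.nab (y a) (y d)) (y e) * F.ip (F.nab (y b) (y c)) (y e))
      - (F.ip (F.nab (y a) (y c)) (F.nab (y b) (y d))
          - ∑ e, F.ip (F.nab (y b) (y d)) (y e) * F.ip (F.nab (y a) (y c)) (y e))
      + (F.ip (F.nab (F.brk (y a) (y b)) (y c)) (y d)
          - ∑ e, F.ip (F.brk (y a) (y b)) (y e) * F.ip (F.nab (y e) (y c)) (y d))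

/-! ### The group `S³ × S³` -/

/-- Euclidean inner product on `EE`. -/
def dot (v w : EE) : ℝ := ∑ i, cf i v * cf i w

/-- The coordinates of `Jv k x`. -/
def Jco : Fin 6 → Fin 8 → SS :=
  ![![-co 1, co 0, -co 3, co 2, 0, 0, 0, 0], ![-co 2, co 3, co 0, -co 1, 0, 0, 0, 0],
    ![-co 3, -co 2, co 1, co 0, 0, 0, 0, 0], ![0, 0, 0, 0, -co 5, co 4, -co 7, co 6],
    ![0, 0, 0, 0, -co 6, co 7, co 4, -co 5], ![0, 0, 0, 0, -co 7, -co 6, co 5, co 4]]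

/-- The action of the rotation fields on the coordinates. -/
def Rco : Fin 4 → Fin 8 → SS :=
  ![![-co 1, co 0, 0, 0, 0, 0, 0, 0], ![0, 0, -co 3, co 2, 0, 0, 0, 0],
    ![0, 0, 0, 0, -co 5, co 4, 0, 0], ![0, 0, 0, 0, 0, 0, -co 7, co 6]]

/-- `s = |p₁|²`. -/
def sS : SS := co 0 ^ 2 + co 1 ^ 2

/-- `t = |q₁|²`. -/
def tS : SS := co 4 ^ 2 + co 5 ^ 2

/-- `[Vv b, X k] = ∑ kap b k m • X m`. -/
def kap (b : Fin 2) (k m : Fin 6) : ℝ :=
  (![1, 1 / 2] b : ℝ) * cc 0 k m + cc 3 k m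

/-- Package U1: algebra of the fields `X`. -/
structure BasA1 : Prop where
  X_res : ∀ G hG k x, (X k (res G hG)).1 x = fderiv ℝ G (inc x) (Jv k (inc x))
  chain : ∀ (f : SS) (x : PP) (v : EE),
    fderiv ℝ (ext f) (inc x) v = ∑ k, dot v (Jv k (inc x)) * (X k f).1 x
  dot_J : ∀ (x : PP) k l, dot (Jv k (inc x)) (Jv l (inc x)) = if k = l then 1 else 0
  X_co : ∀ k i, X k (co i) = Jco k i
  rel1 : co 0 ^ 2 + co 1 ^ 2 + co 2 ^ 2 + co 3 ^ 2 = 1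
  rel2 : co 4 ^ 2 + co 5 ^ 2 + co 6 ^ 2 + co 7 ^ 2 = 1
  skew1 : ∀ k l m, cc k l m = - cc l k m
  skew2 : ∀ k l m, cc k l m = - cc k m l
  br : ∀ k l f, X k (X l f) - X l (X k f) = ∑ m, cc k l m • X m f
  vf_apply : ∀ u f, vf u f = ∑ k, u k * X k f
  vf_brk : ∀ u w f, vf (brk u w) f = vf u (vf w f) - vf w (vf u f)
  vf_inj : ∀ u, (∀ i, vf u (co i) = 0) → u = 0
  vf_add : ∀ u w f, vf (u + w) f = vf u f + vf w f
  vf_smul : ∀ (a : SS) u f, vf (a • u) f = a * vf u f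
  brk_skew : ∀ u w, brk u w = - brk w u
  brk_add : ∀ u v w, brk u (v + w) = brk u v + brk u w
  brk_smul : ∀ (a : SS) u w, brk u (a • w) = vf u a • w + a • brk u w
  jacobi : ∀ u v w, brk u (brk v w) = brk (brk u v) w + brk v (brk u w)
  det_vf : ∀ (u : Fin 6 → SS) (w : Fin 6 → Fin 6 → SS), vf u (Matrix.det (Matrix.of w))
    = (∑ k, X k (u k)) * Matrix.det (Matrix.of w)
      + ∑ i, Matrix.det (Matrix.of (Function.update w i (brk u (w i))))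

/-- Package U2: algebra of the fields `rot`, `Vv`. -/
structure BasA2 : Prop where
  rot_co : ∀ j i, vf (rot j) (co i) = Rco j i
  rot_vec : ∀ j (x : PP) i, cf i (∑ k, (rot j k).1 x • Jv k (inc x)) = (Rco j i).1 x
  div_rot : ∀ j, ∑ k, X k (rot j k) = 0
  brk_rot : ∀ i j, brk (rot i) (rot j) = 0
  brk_rot_e : ∀ j k m, brk (rot j) (Pi.single k 1) m
    = algebraMap ℝ SS ((1 / 2) * cc (![0, 0, 3, 3] j) k m)
  brk_V_e : ∀ b k m, brk (Vv b) (Pi.single k 1) m = algebraMap ℝ SS (kap b k m)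
  kill_rot : ∀ j u w, vf (rot j) (ip1 u w) = ip1 (brk (rot j) u) w + ip1 u (brk (rot j) w)
  kill_V : ∀ b u w, vf (Vv b) (ip1 u w) = ip1 (brk (Vv b) u) w + ip1 u (brk (Vv b) w)
  div_V : ∀ b, ∑ k, X k (Vv b k) = 0
  brk_V : ∀ b c, brk (Vv b) (Vv c) = 0
  brk_grad : ∀ b f, brk (Vv b) (fun k => X k f) = fun k => X k (vf (Vv b) f)
  V_lap : ∀ b f, vf (Vv b) (lap X f) = lap X (vf (Vv b) f)
  V_indep : ∀ (x : PP) (c : Fin 2 → ℝ), (∀ k, ∑ b, c b * (Vv b k).1 x = 0) → c = 0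

structure BasA : Prop extends BasA1, BasA2

/-- Package U3: analysis on `S³ × S³`. -/
structure BasB1 : Prop where
  one : I0 1 = 1
  nonneg : ∀ f : SS, (∀ x, 0 ≤ f.1 x) → 0 ≤ I0 f
  faith : ∀ f : SS, (∀ x, 0 ≤ f.1 x) → I0 f = 0 → f = 0
  I_X : ∀ k f, I0 (X k f) = 0
  I_s : I0 sS = 1 / 2
  I_t : I0 tS = 1 / 2
  ex_max : ∀ f : SS, ∃ x, ∀ y, f.1 y ≤ f.1 x
  first : ∀ (f : SS) x, (∀ y, f.1 y ≤ f.1 x) → ∀ k, (X k f).1 x = 0
  second : ∀ (f : SS) x, (∀ y, f.1 y ≤ f.1 x) → ∀ ξ : Fin 6 → ℝ,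
    ∑ k, ∑ l, ξ k * ξ l * (X k (X l f)).1 x ≤ 0
  comp : ∀ (Φ : ℝ → ℝ) (f : SS), ContDiffOn ℝ ∞ Φ (Set.Ioi 0) → (∀ x, 0 < f.1 x) →
    ∃ g : SS, (∀ x, g.1 x = Φ (f.1 x)) ∧ ∀ k x, (X k g).1 x = deriv Φ (f.1 x) * (X k f).1 x

/-- Package U4: orbits. -/
structure BasB2 : Prop where
  generic : ∀ f : SS, sS * (1 - sS) * tS * (1 - tS) * f = 0 → f = 0
  const : ∀ f : SS, (∀ k, X k f = 0) → ∃ a : ℝ, f = algebraMap ℝ SS a
  orb_inv : ∀ (f : AA) x y, Orb x y → f.1.1 x = f.1.1 y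
  mem_of_orb : ∀ f : SS, (∀ x y, Orb x y → f.1 x = f.1 y) → f ∈ AA
  orb_nrm : ∀ α β, ∀ x ∈ UU, Orb (nrm x) (nrm (act α β x))
  act_deriv : ∀ (x : PP) (c : Fin 2 → ℝ), HasDerivAt (fun τ : ℝ => act (τ * c 0) (τ * c 1) (inc x))
    (∑ k, (∑ b, c b * (Vv b k).1 x) • Jv k (inc x)) 0

structure BasB : Prop extends BasB1, BasB2

/-- Polynomials of degree at most `n`. -/
def VV (n : ℕ) : Submodule ℝ SS :=
  (MvPolynomial.restrictTotalDegree (Fin 8) ℝ n).map (MvPolynomial.aeval co).toLinearMap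

/-- Package U5. -/
structure AmbA : Prop where
  fin : ∀ n, FiniteDimensional ℝ (VV n)
  dim : ∀ n, Module.finrank ℝ (VV n) ≤ (n + 1) ^ 8
  mono : Monotone VV
  V_X : ∀ n k, ∀ f ∈ VV n, X k f ∈ VV n
  V_V : ∀ n b, ∀ f ∈ VV n, vf (Vv b) f ∈ VV n
  V_zero : ∀ f, f ∈ VV 0 ↔ ∃ a : ℝ, f = algebraMap ℝ SS a
  dense : ∀ f, ∀ ε > 0, ∃ n, ∃ g ∈ VV n, I0 ((f - g) * (f - g)) < ε
  gap : ∀ n, ∀ u ∈ VV (n + 1), (∀ v ∈ VV n, I0 (u * v) = 0) →
    ((n : ℝ) + 1) * I0 (u * u) ≤ ∑ k, I0 (X k u * X k u)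

/-- Package U6. -/
def S_Lim : Prop :=
  ∀ w : ℕ → SS, (∀ n, w n ∈ VV n) →
    (∀ (l : List (Fin 6)) (s : ℕ), ∃ B, ∀ n : ℕ,
      ((n : ℝ) + 1) ^ s * I0 (Xw X l (w n) * Xw X l (w n)) ≤ B) →
    ∃ u, Tendsto (fun n => I0 ((u - ∑ i ∈ range n, w i) * (u - ∑ i ∈ range n, w i))) atTop (𝓝 0)

/-- The flat Laplacian of `S³ × S³` is invertible on functions of mean zero. -/
def S_G0 : Prop :=
  (∀ f, I0 f = 0 → ∃ u, I0 u = 0 ∧ lap X u = f) ∧ ∀ u, lap X u = 0 → I0 u = 0 → u = 0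

/-- `ξ` is tangent to the torus orbit at `x`. -/
def Vert (x : PP) (ξ : Fin 6 → ℝ) : Prop :=
  ∃ c : Fin 2 → ℝ, ∀ k, ξ k = ∑ b, c b * (Vv b k).1 x

/-- Finitely many invariant functions immerse the quotient. -/
def S_Imm : Prop :=
  ∃ (m : ℕ) (f : Fin m → AA), ∀ (x : PP) (ξ : Fin 6 → ℝ),
    (∀ a, ∑ k, ξ k * (X k (f a).1).1 x = 0) → Vert x ξ

/-- The value `g(u, w)`. -/
def gq (g : Fin 6 → Fin 6 → SS) (u w : Fin 6 → SS) : SS := ∑ k, ∑ l, g k l * u k * w l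

/-- The pull-back to `S³ × S³` of a Riemannian metric on the quotient. -/
structure MD where
  g : Fin 6 → Fin 6 → SS
  symm : ∀ k l, g k l = g l k
  nonneg : ∀ (x : PP) (ξ : Fin 6 → ℝ), 0 ≤ ∑ k, ∑ l, (g k l).1 x * ξ k * ξ l
  defn : ∀ (x : PP) (ξ : Fin 6 → ℝ), ∑ k, ∑ l, (g k l).1 x * ξ k * ξ l = 0 → Vert x ξ
  vert : ∀ b k, ∑ l, g k l * Vv b l = 0
  inv : ∀ b u w, vf (Vv b) (gq g u w) = gq g (brk (Vv b) u) w + gq g u (brk (Vv b) w)

/-- An invariant horizontal Parseval frame. -/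
structure Frame (md : MD) (ι : Type) [Fintype ι] where
  y : ι → Fin 6 → SS
  al : Fin 2 → Fin 6 → SS
  inv : ∀ b a, brk (Vv b) (y a) = 0
  hor : ∀ b a, ip1 (Vv b) (y a) = 0
  al_V : ∀ b c, ip1 (al b) (Vv c) = if b = c then 1 else 0
  al_y : ∀ b a, ip1 (al b) (y a) = 0
  pars : ∀ w : Fin 6 → SS, ∑ a, gq md.g w (y a) • y a + ∑ b, ip1 (al b) w • Vv b = w

/-- `C` is the calculus of the frame `fr`. -/
structure Compat {md : MD} {ι : Type} [Fintype ι] (fr : Frame md ι) (C : Calc PP AA ι) : Prop where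
  ev : C.ev = evA
  Y : ∀ a f, (C.Y a f).1 = vf (fr.y a) f.1
  Pr : ∀ a b, (C.Pr a b).1 = gq md.g (fr.y a) (fr.y b)
  brk : ∀ a b e, (C.Gam a b e - C.Gam b a e).1 = gq md.g (brk (fr.y a) (fr.y b)) (fr.y e)

/-- The reference volume form. -/
def nu {md : MD} {ι : Type} [Fintype ι] (fr : Frame md ι) (a b c d : ι) : SS :=
  Matrix.det (Matrix.of ![Vv 0, Vv 1, fr.y a, fr.y b, fr.y c, fr.y d])

/-- `vol = ψ ν`. -/
structure VolC {md : MD} {ι : Type} [Fintype ι] (fr : Frame md ι) (ψ : AA)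
    (vol : ι → ι → ι → ι → AA) : Prop where
  pos : ∀ x, 0 < ψ.1.1 x
  eq : ∀ a b c d, (vol a b c d).1 = ψ.1 * nu fr a b c d

/-- The normalised Riemannian integral. -/
def IA (ψ : AA) : AA →ₗ[ℝ] ℝ :=
  (I0 ψ.1)⁻¹ • (I0 ∘ₗ LinearMap.mulLeft ℝ ψ.1 ∘ₗ AA.val.toLinearMap)

theorem IA_apply (ψ f : AA) : IA ψ f = (I0 ψ.1)⁻¹ * I0 (ψ.1 * f.1) := rfl

/-- `md` is `l` times the quotient of the round metric. -/
def IsRound (md : MD) (l : ℝ) : Prop :=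
  ∀ (x : PP) (ξ : Fin 6 → ℝ), (∀ b, ∑ k, (Vv b k).1 x * ξ k = 0) →
    ∀ k, ∑ m, (md.g k m).1 x * ξ m = l * ξ k

def S_Frame : Prop := ∀ md : MD, ∃ m : ℕ, Nonempty (Frame md (Fin m))

def S_Koszul : Prop :=
  ∀ (md : MD) (ι : Type) [Fintype ι] (fr : Frame md ι), ∃ C, Compat fr C

def S_Misc : Prop :=
  ∀ (md : MD) (ι : Type) [Fintype ι] (fr : Frame md ι) (C : Calc PP AA ι), Compat fr C →
    C.Fun ∧ C.MaxP ∧ ∀ ψ : AA, (∀ x, 0 < ψ.1.1 x) → C.PosI (IA ψ) ∧ C.Solve (IA ψ)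

def S_Vol : Prop :=
  ∀ (md : MD) (ι : Type) [Fintype ι] (fr : Frame md ι) (C : Calc PP AA ι), Compat fr C →
    ∃ ψ vol, VolC fr ψ vol ∧ C.Fr4 vol

def S_Div : Prop :=
  ∀ (md : MD) (ι : Type) [Fintype ι] (fr : Frame md ι) (C : Calc PP AA ι) ψ vol, Compat fr C →
    VolC fr ψ vol → C.AlgA → C.AlgB vol → C.AlgC vol → C.Div (IA ψ)

def S_T1 : Prop :=
  ∀ (md : MD) (ι : Type) [Fintype ι] (fr : Frame md ι) (C : Calc PP AA ι), Compat fr C →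
    C.AlgA → C.T1

def S_T2 : Prop :=
  ∀ (md : MD) (ι : Type) [Fintype ι] (fr : Frame md ι) (C : Calc PP AA ι), Compat fr C →
    C.AlgA → C.T2

def S_T3 : Prop :=
  ∀ (md : MD) (ι : Type) [Fintype ι] (fr : Frame md ι) (C : Calc PP AA ι) ψ vol, Compat fr C →
    VolC fr ψ vol → C.AlgA → C.AlgB vol → C.T3 (IA ψ) vol

def S_ON : Prop :=
  ∀ (md : MD) (ι : Type) [Fintype ι] (fr : Frame md ι) (C : Calc PP AA ι) (l : ℝ), Compat fr C →
    C.AlgA → C.AlgR → 0 < l → IsRound md l → C.SecNonneg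

/-! ### General facts on Riemannian metrics in charts -/

/-- Change of coordinates from the chart at `p` to the chart at `q`. -/
def trn {n : ℕ} {M : Type} [TopologicalSpace M] [ChartedSpace (En n) M] (p q : M) :
    En n → En n := fun z => chartAt (En n) q ((chartAt (En n) p).symm z)

/-- The family `G p` of matrix functions transforms as a 2-tensor. -/
def Law {n : ℕ} {M : Type} [TopologicalSpace M] [ChartedSpace (En n) M]
    (G : M → En n → Matrix (Fin n) (Fin n) ℝ) : Prop :=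
  ∀ p q, ∀ z ∈ (chartAt (En n) p).target,
    (chartAt (En n) p).symm z ∈ (chartAt (En n) q).source → ∀ i j,
    G p z i j = ∑ k, ∑ l, G q (trn p q z) k l *
      fderiv ℝ (trn p q) z (EuclideanSpace.single i 1) k *
      fderiv ℝ (trn p q) z (EuclideanSpace.single j 1) l

/-- Smooth, positive definite chart data with the right transformation law. -/
structure ChartData {n : ℕ} {M : Type} [TopologicalSpace M] [ChartedSpace (En n) M]
    (G : M → En n → Matrix (Fin n) (Fin n) ℝ) : Prop where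
  smooth : ∀ p i j, ContDiffOn ℝ ∞ (fun z => G p z i j) (chartAt (En n) p).target
  posdef : ∀ p, ∀ z ∈ (chartAt (En n) p).target, (G p z).PosDef
  law : Law G

/-- Package M2, first half. -/
def S_Chart : Prop :=
  ∀ (n : ℕ) (M : Type) [TopologicalSpace M] [ChartedSpace (En n) M] [IsManifold (𝓡 n) ∞ M]
    (g : RMetric (n := n) M), ChartData (gc g)

/-- Package M2, second half. -/
def S_Glue : Prop :=
  ∀ (n : ℕ) (M : Type) [TopologicalSpace M] [ChartedSpace (En n) M] [IsManifold (𝓡 n) ∞ M]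
    (G : M → En n → Matrix (Fin n) (Fin n) ℝ), ChartData G →
    ∃ g : RMetric (n := n) M, ∀ p, ∀ z ∈ (chartAt (En n) p).target, gc g p z = G p z

/-- Package M3, first half. -/
def S_Lip : Prop :=
  ∀ (n : ℕ) (M : Type) [TopologicalSpace M] [ChartedSpace (En n) M] [IsManifold (𝓡 n) ∞ M]
    (g : RMetric (n := n) M) (F : M → ℝ) (L : ℝ), 0 ≤ L →
    (∀ p, ContDiffOn ℝ 1 (fun z => F ((chartAt (En n) p).symm z)) (chartAt (En n) p).target) →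
    (∀ p (u : En n), fderiv ℝ (fun z => F ((chartAt (En n) p).symm z)) (chartAt (En n) p p) u ^ 2
      ≤ L ^ 2 * gAt g p u u) →
    DiamLeOne g → ∀ x y, F x - F y ≤ L

/-- Package M3, second half. -/
def S_Scale : Prop :=
  ∀ (n : ℕ) (M : Type) [TopologicalSpace M] [T2Space M] [CompactSpace M] [ConnectedSpace M]
    [ChartedSpace (En n) M] [IsManifold (𝓡 n) ∞ M] (g : RMetric (n := n) M),
    ∃ l : ℝ, 0 < l ∧ ∃ g' : RMetric (n := n) M, (∀ p z, gc g' p z = l • gc g p z) ∧ DiamLeOne g'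

/-! ### The quotient manifold -/

/-- The manifold `S³ × S³ / T²` with charts onto `ℝ⁴`, given upstairs by `φ` and `σ`. -/
structure ManData : Type 1 where
  M : Type
  [i1 : TopologicalSpace M]
  [i2 : T2Space M]
  [i3 : CompactSpace M]
  [i4 : ConnectedSpace M]
  [i5 : ChartedSpace (En 4) M]
  [i6 : IsManifold (𝓡 4) ∞ M]
  π : PP → M
  W : M → Set EE
  φ : M → EE → En 4
  σ : M → En 4 → EE
  surj : Function.Surjective π
  fib : ∀ x y, π x = π y ↔ Orb x y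
  target : ∀ p : M, (chartAt (En 4) p).target = Set.univ
  W_open : ∀ p, IsOpen (W p)
  W_iff : ∀ p x, x ∈ W p ↔ x ∈ UU ∧ π (nrm x) ∈ (chartAt (En 4) p).source
  φ_smooth : ∀ p, ContDiffOn ℝ ∞ (φ p) (W p)
  φ_eq : ∀ p, ∀ x ∈ W p, φ p x = chartAt (En 4) p (π (nrm x))
  σ_smooth : ∀ p, ContDiff ℝ ∞ (σ p)
  σ_mem : ∀ p z, σ p z ∈ W p
  σ_eq : ∀ p z, (chartAt (En 4) p).symm z = π (nrm (σ p z))

attribute [instance] ManData.i1 ManData.i2 ManData.i3 ManData.i4 ManData.i5 ManData.i6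

/-- `md` is the pull-back of the chart data `G`. -/
def LkG (D : ManData) (G : D.M → En 4 → Matrix (Fin 4) (Fin 4) ℝ) (md : MD) : Prop :=
  ∀ (p : D.M) (x : PP), inc x ∈ D.W p → ∀ k l, (md.g k l).1 x =
    ∑ i, ∑ j, G p (D.φ p (inc x)) i j * fderiv ℝ (D.φ p) (inc x) (Jv k (inc x)) i *
      fderiv ℝ (D.φ p) (inc x) (Jv l (inc x)) j

def S_Man : Prop := Nonempty ManData

def S_Pull : Prop := ∀ (D : ManData) G, ChartData G → ∃ md, LkG D G md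

def S_Round : Prop := ∀ D : ManData, ∃ G, ChartData G ∧ ∀ (l : ℝ) md, LkG D (l • G) md → IsRound md l

/-- An invariant function read in the chart at `p`. -/
def rd (D : ManData) (p : D.M) (f : AA) (z : En 4) : ℝ := f.1.1 (nrm (D.σ p z))

/-- The frame read in the chart at `p`. -/
structure ResC (D : ManData) (G : D.M → En 4 → Matrix (Fin 4) (Fin 4) ℝ) {ι : Type} [Fintype ι]
    (C : Calc PP AA ι) (p : D.M) (yy : ι → Fin 4 → En 4 → ℝ) : Prop where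
  smooth : ∀ f, ContDiff ℝ ∞ (rd D p f)
  ysmooth : ∀ a i, ContDiff ℝ ∞ (yy a i)
  val : ∀ (f : AA) (x : PP), inc x ∈ D.W p → rd D p f (D.φ p (inc x)) = f.1.1 x
  Y : ∀ a f z, rd D p (C.Y a f) z = ∑ i, yy a i z * pd (rd D p f) i z
  Pr : ∀ a b z, rd D p (C.Pr a b) z = ∑ i, ∑ j, G p z i j * yy a i z * yy b j z
  pars : ∀ z (u : Fin 4 → ℝ) k, ∑ a, (∑ i, ∑ j, G p z i j * u i * yy a j z) * yy a k z = u k
  brk : ∀ a b k z, ∑ i, (yy a i z * pd (yy b k) i z - yy b i z * pd (yy a k) i z)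
    = ∑ c, rd D p (C.Gam a b c - C.Gam b a c) z * yy c k z

/-- Package M5. -/
def S_Res : Prop :=
  ∀ (D : ManData) G (md : MD) (ι : Type) [Fintype ι] (fr : Frame md ι) (C : Calc PP AA ι),
    ChartData G → LkG D G md → Compat fr C → C.AlgA → ∀ p, ∃ yy, ResC D G C p yy

/-- The frame at the point `x`, read in the chart at `π x`. -/
def CmpAt (D : ManData) (g : RMetric (n := 4) D.M) {ι : Type} [Fintype ι] (C : Calc PP AA ι) :
    Prop :=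
  ∀ x : PP, ∃ yy : ι → Fin 4 → ℝ,
    (∀ a b, C.ev x (C.Pr a b) = gAt g (D.π x) (yy a) (yy b)) ∧
    (∀ u : Fin 4 → ℝ, ∑ a, gAt g (D.π x) u (yy a) • yy a = u) ∧
    ∀ a b c d, C.ev x (C.Rm a b c d) = rAt g (D.π x) (yy a) (yy b) (yy c) (yy d)

/-- Package M6. -/
def S_Cmp : Prop :=
  ∀ (D : ManData) (g : RMetric (n := 4) D.M) (ι : Type) [Fintype ι] (C : Calc PP AA ι),
    ChartData (gc g) → C.ev = evA → C.AlgA → C.AlgR → (∀ p, ∃ yy, ResC D (gc g) C p yy) →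
    CmpAt D g C

/-- Package M7. -/
def S_Curv : Prop :=
  ∀ (D : ManData) (g : RMetric (n := 4) D.M) (ι : Type) [Fintype ι] (C : Calc PP AA ι),
    ChartData (gc g) → C.AlgR → CmpAt D g C →
    (∀ vol ε, C.Fr4 vol → CurvOpGe g ε → C.CurvGe ε) ∧
      (∀ ε, 0 ≤ ε → C.SecNonneg → SecGe g ε)

def S_Dist : Prop :=
  ∀ (D : ManData) (g : RMetric (n := 4) D.M) (ι : Type) [Fintype ι] (C : Calc PP AA ι),
    ChartData (gc g) → C.ev = evA → (∀ p, ∃ yy, ResC D (gc g) C p yy) → DiamLeOne g → C.DistLe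

/-- The final statement. -/
def S_Final : Prop :=
  ∃ (n : ℕ) (M : Type) (_ : TopologicalSpace M) (_ : T2Space M) (_ : CompactSpace M)
    (_ : ConnectedSpace M) (_ : ChartedSpace (En n) M) (_ : IsManifold (𝓡 n) ∞ M),
    AlmostNonnegSec n M ∧ ¬ AlmostNonnegCurvOp n M

end Pool.Agent.P.MP_713680_gt
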